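import Mathlib

/-!
# Matrices which normalise a space of matrices

`Nrm W` is the group of the invertible matrices `M` with `M W M⁻¹ = W`. It contains the exponentials
of the elements of `W` if `W` is closed under commutators.
-/

set_option autoImplicit false

namespace Pool.Agent.Q233.CFO

open NormedSpace

section exp

variable {A : Type} [NormedRing A] [NormedAlgebra ℂ A] [CompleteSpace A]

lemma pow_apply_mulL (X z : A) (k : ℕ) :
    ((ContinuousLinearMap.mul ℂ A X) ^ k) z = X ^ k * z := by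
  induction k generalizing z with
  | zero => simp
  | succ k ih =>
    rw [pow_succ, _root_.mul_apply_eq_comp, ih, ContinuousLinearMap.mul_apply', pow_succ,
      mul_assoc]

lemma pow_apply_mulR (X z : A) (k : ℕ) :
    (((ContinuousLinearMap.mul ℂ A).flip X) ^ k) z = z * X ^ k := by
  induction k generalizing z with
  | zero => simp
  | succ k ih =>
    rw [pow_succ, _root_.mul_apply_eq_comp, ih, ContinuousLinearMap.flip_apply,
      ContinuousLinearMap.mul_apply', pow_succ', mul_assoc]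

lemma exp_apply_hasSum (T : A →L[ℂ] A) (z : A) :
    HasSum (fun k : ℕ => ((k.factorial : ℂ))⁻¹ • ((T ^ k) z)) (exp T z) := by
  have h := NormedSpace.exp_series_hasSum_exp' (𝕂 := ℂ) T
  have h2 := h.map (ContinuousLinearMap.apply ℂ A z) (ContinuousLinearMap.apply ℂ A z).continuous
  exact h2

lemma exp_mulL (X z : A) : exp (ContinuousLinearMap.mul ℂ A X) z = exp X * z := by
  have h1 := exp_apply_hasSum (ContinuousLinearMap.mul ℂ A X) z
  have h2 := (NormedSpace.exp_series_hasSum_exp' (𝕂 := ℂ) X).mul_right z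
  refine h1.unique ?_
  have e : (fun k : ℕ => ((k.factorial : ℂ))⁻¹ • ((ContinuousLinearMap.mul ℂ A X ^ k) z)) =
      fun k : ℕ => ((k.factorial : ℂ))⁻¹ • X ^ k * z := by
    funext k
    rw [pow_apply_mulL, smul_mul_assoc]
  rw [e]
  exact h2

lemma exp_mulR (X z : A) : exp ((ContinuousLinearMap.mul ℂ A).flip X) z = z * exp X := by
  have h1 := exp_apply_hasSum ((ContinuousLinearMap.mul ℂ A).flip X) z
  have h2 := (NormedSpace.exp_series_hasSum_exp' (𝕂 := ℂ) X).mul_left z
  refine h1.unique ?_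
  have e : (fun k : ℕ => ((k.factorial : ℂ))⁻¹ • (((ContinuousLinearMap.mul ℂ A).flip X ^ k) z)) =
      fun k : ℕ => z * ((k.factorial : ℂ))⁻¹ • X ^ k := by
    funext k
    rw [pow_apply_mulR, mul_smul_comm]
  rw [e]
  exact h2

/-- If the closed subspace `W` is invariant under `Z ↦ X Z - Z X`, then it is invariant under
`Z ↦ exp X Z exp (-X)`. -/
lemma exp_conj_mem (W : Submodule ℂ A) (hW : IsClosed (W : Set A)) (X : A)
    (hX : ∀ Z ∈ W, X * Z - Z * X ∈ W) (Z : A) (hZ : Z ∈ W) : exp X * Z * exp (-X) ∈ W := by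
  set L := ContinuousLinearMap.mul ℂ A X with hL
  set R := (ContinuousLinearMap.mul ℂ A).flip (-X) with hR
  have hcomm : Commute L R := by
    ext z
    simp [hL, hR, mul_assoc]
  letI : NormedAlgebra ℚ (A →L[ℂ] A) := NormedAlgebra.restrictScalars ℚ ℂ _
  have h1 : exp (L + R) Z = exp X * Z * exp (-X) := by
    rw [NormedSpace.exp_add_of_commute hcomm, _root_.mul_apply_eq_comp, hR, exp_mulR, hL,
      exp_mulL, mul_assoc]
  rw [← h1]
  have h2 := exp_apply_hasSum (L + R) Z
  have h3 : ∀ k : ℕ, ∀ z ∈ W, ((L + R) ^ k) z ∈ W := by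
    intro k
    induction k with
    | zero => intro z hz; simpa using hz
    | succ k ih =>
      intro z hz
      rw [pow_succ, _root_.mul_apply_eq_comp]
      refine ih _ ?_
      have : (L + R) z = X * z - z * X := by
        simp [hL, hR, sub_eq_add_neg]
      rw [this]
      exact hX z hz
  exact hW.mem_of_tendsto h2 (Filter.Eventually.of_forall fun s =>
    Submodule.sum_mem _ fun k _ => Submodule.smul_mem _ _ (h3 k Z hZ))

end exp

open Matrix

variable {n : Type} [Fintype n] [DecidableEq n]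

set_option backward.isDefEq.respectTransparency false in
open scoped Matrix.Norms.Operator in
lemma exp_conj_mem_matrix (W : Submodule ℂ (Matrix n n ℂ))
    (hW : ∀ X ∈ W, ∀ Z ∈ W, X * Z - Z * X ∈ W) (X : Matrix n n ℂ) (hX : X ∈ W) (Z : Matrix n n ℂ)
    (hZ : Z ∈ W) : exp X * Z * exp (-X) ∈ W :=
  exp_conj_mem (A := Matrix n n ℂ) W (Submodule.closed_of_finiteDimensional W) X (hW X hX) Z hZ

/-- The invertible matrices `M` with `M W M⁻¹ ⊆ W` and `M⁻¹ W M ⊆ W`. -/
def Nrm (W : Submodule ℂ (Matrix n n ℂ)) : Subgroup (Matrix n n ℂ)ˣ where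
  carrier := {M | (∀ Z ∈ W, (M : Matrix n n ℂ) * Z * (↑M⁻¹ : Matrix n n ℂ) ∈ W) ∧
    (∀ Z ∈ W, (↑M⁻¹ : Matrix n n ℂ) * Z * (M : Matrix n n ℂ) ∈ W)}
  mul_mem' := by
    rintro A B ⟨a1, a2⟩ ⟨b1, b2⟩
    refine ⟨fun Z hZ => ?_, fun Z hZ => ?_⟩
    · have := a1 _ (b1 Z hZ)
      rw [_root_.mul_inv_rev, Units.val_mul, Units.val_mul]
      simpa only [mul_assoc] using this
    · have := b2 _ (a2 Z hZ)
      rw [_root_.mul_inv_rev, Units.val_mul, Units.val_mul]
      simpa only [mul_assoc] using this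
  one_mem' := by simp
  inv_mem' := by
    rintro A ⟨a1, a2⟩
    exact ⟨by simpa using a2, by simpa using a1⟩

/-- a pair of mutually inverse matrices as a unit -/
lemma mem_Nrm_of {W : Submodule ℂ (Matrix n n ℂ)} {A B : Matrix n n ℂ} (h1 : A * B = 1)
    (h2 : B * A = 1) (ha : ∀ Z ∈ W, A * Z * B ∈ W) (hb : ∀ Z ∈ W, B * Z * A ∈ W) :
    (⟨A, B, h1, h2⟩ : (Matrix n n ℂ)ˣ) ∈ Nrm W := ⟨ha, hb⟩

/-- the operator which multiplies the entries of `Z` in the basis `U` by `c i j` -/
noncomputable def had (U : Matrix n n ℂ) (c : n → n → ℂ) (Z : Matrix n n ℂ) : Matrix n n ℂ :=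
  U * (Matrix.of fun i j => c i j * (Uᴴ * Z * U) i j) * Uᴴ

lemma had_had {U : Matrix n n ℂ} (hU : Uᴴ * U = 1) (c d : n → n → ℂ) (Z : Matrix n n ℂ) :
    had U c (had U d Z) = had U (fun i j => c i j * d i j) Z := by
  unfold had
  have h : ∀ Y : Matrix n n ℂ, Uᴴ * (U * Y * Uᴴ) * U = Y := by
    intro Y
    calc Uᴴ * (U * Y * Uᴴ) * U = (Uᴴ * U) * Y * (Uᴴ * U) := by simp only [mul_assoc]
      _ = Y := by rw [hU]; simp
  rw [h]
  congr 2
  ext i j
  simp [mul_assoc]

lemma had_one {U : Matrix n n ℂ} (hU : Uᴴ * U = 1) (Z : Matrix n n ℂ) :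
    had U (fun _ _ => 1) Z = Z := by
  have hU' : U * Uᴴ = 1 := mul_eq_one_comm.1 hU
  unfold had
  have : (Matrix.of fun i j => 1 * (Uᴴ * Z * U) i j) = Uᴴ * Z * U := by
    ext i j; simp
  rw [this]
  calc U * (Uᴴ * Z * U) * Uᴴ = (U * Uᴴ) * Z * (U * Uᴴ) := by simp only [mul_assoc]
    _ = Z := by rw [hU']; simp

lemma had_sum {ι : Type} (s : Finset ι) (U : Matrix n n ℂ) (a : ι → ℂ) (c : ι → n → n → ℂ)
    (Z : Matrix n n ℂ) :
    had U (fun i j => ∑ k ∈ s, a k * c k i j) Z = ∑ k ∈ s, a k • had U (c k) Z := by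
  unfold had
  have : (Matrix.of fun i j => (∑ k ∈ s, a k * c k i j) * (Uᴴ * Z * U) i j) =
      ∑ k ∈ s, a k • (Matrix.of fun i j => c k i j * (Uᴴ * Z * U) i j) := by
    ext i j
    simp only [Matrix.of_apply, Matrix.sum_apply, Matrix.smul_apply, smul_eq_mul, Finset.sum_mul]
    exact Finset.sum_congr rfl fun k _ => by ring
  rw [this, Finset.mul_sum, Finset.sum_mul]
  refine Finset.sum_congr rfl fun k _ => ?_
  rw [mul_smul_comm, smul_mul_assoc]

/-- If `W` is invariant under the multiplication of the entries by `c i j`, then it is invariant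
under the multiplication by `f (c i j)` for every function `f`. -/
lemma had_interp (W : Submodule ℂ (Matrix n n ℂ)) {U : Matrix n n ℂ} (hU : Uᴴ * U = 1)
    (c : n → n → ℂ) (hc : ∀ Z ∈ W, had U c Z ∈ W) (f : ℂ → ℂ) (Z : Matrix n n ℂ) (hZ : Z ∈ W) :
    had U (fun i j => f (c i j)) Z ∈ W := by
  classical
  have hpow : ∀ k : ℕ, ∀ Z ∈ W, had U (fun i j => c i j ^ k) Z ∈ W := by
    intro k
    induction k with
    | zero =>
      intro Z hZ
      simp only [pow_zero]
      rwa [had_one hU]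
    | succ k ih =>
      intro Z hZ
      have := ih _ (hc Z hZ)
      rw [had_had hU] at this
      simpa only [pow_succ] using this
  set s : Finset ℂ := Finset.univ.image fun p : n × n => c p.1 p.2 with hs
  set q : Polynomial ℂ := Lagrange.interpolate s id f with hq
  have hval : ∀ i j, f (c i j) = ∑ k ∈ Finset.range (q.natDegree + 1), q.coeff k * c i j ^ k := by
    intro i j
    rw [← Polynomial.eval_eq_sum_range]
    have hmem : c i j ∈ s := Finset.mem_image.2 ⟨(i, j), Finset.mem_univ _, rfl⟩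
    have := Lagrange.eval_interpolate_at_node (s := s) (v := id) f
      (Set.injOn_id _) hmem
    rw [hq]
    exact this.symm
  simp only [hval]
  rw [had_sum (Finset.range (q.natDegree + 1)) U (fun k => q.coeff k) (fun k i j => c i j ^ k) Z]
  exact Submodule.sum_mem _ fun k _ => Submodule.smul_mem _ _ (hpow k Z hZ)

/-- the matrix with eigenbasis `U` and eigenvalues `a` -/
noncomputable def dg (U : Matrix n n ℂ) (a : n → ℝ) : Matrix n n ℂ :=
  U * diagonal (fun i => (a i : ℂ)) * Uᴴ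

lemma dg_mul {U : Matrix n n ℂ} (hU : Uᴴ * U = 1) (a b : n → ℝ) :
    dg U a * dg U b = dg U (fun i => a i * b i) := by
  unfold dg
  calc U * diagonal (fun i => (a i : ℂ)) * Uᴴ * (U * diagonal (fun i => (b i : ℂ)) * Uᴴ)
      = U * diagonal (fun i => (a i : ℂ)) * (Uᴴ * U) * diagonal (fun i => (b i : ℂ)) * Uᴴ := by
        simp only [mul_assoc]
    _ = U * (diagonal (fun i => (a i : ℂ)) * diagonal (fun i => (b i : ℂ))) * Uᴴ := by
        rw [hU, mul_one]; simp only [mul_assoc]
    _ = _ := by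
        rw [diagonal_mul_diagonal]
        simp

lemma dg_one {U : Matrix n n ℂ} (hU : Uᴴ * U = 1) : dg U (fun _ => 1) = 1 := by
  unfold dg
  have hU' : U * Uᴴ = 1 := mul_eq_one_comm.1 hU
  simp [hU']

lemma dg_herm (U : Matrix n n ℂ) (a : n → ℝ) : (dg U a)ᴴ = dg U a := by
  unfold dg
  rw [conjTranspose_mul, conjTranspose_mul, conjTranspose_conjTranspose, diagonal_conjTranspose]
  rw [mul_assoc]
  congr 2
  congr 1
  funext i
  simp

lemma dg_conj {U : Matrix n n ℂ} (hU : Uᴴ * U = 1) (a b : n → ℝ) (Z : Matrix n n ℂ) :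
    dg U a * Z * dg U b = had U (fun i j => (a i : ℂ) * b j) Z := by
  unfold dg had
  have : (Matrix.of fun i j => ((a i : ℂ) * b j) * (Uᴴ * Z * U) i j) =
      diagonal (fun i => (a i : ℂ)) * (Uᴴ * Z * U) * diagonal (fun i => (b i : ℂ)) := by
    ext i j
    rw [mul_diagonal, diagonal_mul]
    simp
    ring
  rw [this]
  simp only [mul_assoc]

/-- Interpolation for positive matrices with the same eigenbasis. -/
lemma dg_mem_of (W : Submodule ℂ (Matrix n n ℂ)) {U : Matrix n n ℂ} (hU : Uᴴ * U = 1)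
    (a a' : n → ℝ) (c : n → n → ℂ) (hc : ∀ Z ∈ W, had U c Z ∈ W) (f : ℂ → ℂ)
    (hf : ∀ i j, f (c i j) = (a i : ℂ) * a' j) (Z : Matrix n n ℂ) (hZ : Z ∈ W) :
    dg U a * Z * dg U a' ∈ W := by
  rw [dg_conj hU]
  have := had_interp W hU c hc f Z hZ
  simpa only [hf] using this

end Pool.Agent.Q233.CFO
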