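import Pool.Agent.Q233.CFOa

/-!
# The Iwasawa decomposition in the normaliser of a self-adjoint space of matrices

Let `W` be a space of matrices which is closed under commutators and adjoints, `ξ ∈ W` Hermitian and
`M` an invertible matrix which normalises `W`. There is a unitary matrix `V` which normalises `W`
such that `Vᴴ M` maps every space `⊕_{μ ≥ t} ker (ξ - μ)` into itself.
-/

set_option autoImplicit false

namespace Pool.Agent.Q233.CFO

open Matrix
open scoped ComplexOrder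

variable {n : Type} [Fintype n] [DecidableEq n]

lemma exists_dg {H : Matrix n n ℂ} (hH : H.IsHermitian) :
    ∃ (U : Matrix n n ℂ) (a : n → ℝ), Uᴴ * U = 1 ∧ H = dg U a ∧ (∀ i, a i = hH.eigenvalues i) := by
  refine ⟨(hH.eigenvectorUnitary : Matrix n n ℂ), hH.eigenvalues, ?_, ?_, fun i => rfl⟩
  · exact Unitary.coe_star_mul_self hH.eigenvectorUnitary
  · have h := hH.spectral_theorem
    rw [Unitary.conjStarAlgAut_apply] at h
    unfold dg
    exact h

/-- The polar decomposition in the normaliser of `W`. -/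
lemma polar (W : Submodule ℂ (Matrix n n ℂ)) (hstar : ∀ Z ∈ W, Zᴴ ∈ W)
    (T : (Matrix n n ℂ)ˣ) (hT : T ∈ Nrm W) :
    ∃ V : Matrix n n ℂ, Vᴴ * V = 1 ∧ (∀ Z ∈ W, V * Z * Vᴴ ∈ W) ∧ (∀ Z ∈ W, Vᴴ * Z * V ∈ W) ∧
      (Vᴴ * (T : Matrix n n ℂ)).IsHermitian := by
  set t : Matrix n n ℂ := (T : Matrix n n ℂ) with ht
  set t' : Matrix n n ℂ := (↑T⁻¹ : Matrix n n ℂ) with ht'
  have h1 : t * t' = 1 := T.mul_inv
  have h2 : t' * t = 1 := T.inv_mul
  have hP : (tᴴ * t).PosDef := by
    refine Matrix.PosDef.conjTranspose_mul_self t ?_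
    intro x y hxy
    have := congrArg (fun v => t' *ᵥ v) hxy
    simpa [Matrix.mulVec_mulVec, h2] using this
  obtain ⟨U, a, hU, hPa, hae⟩ := exists_dg hP.isHermitian
  have ha : ∀ i, 0 < a i := by
    intro i
    rw [hae i]
    exact hP.eigenvalues_pos i
  have hsq : ∀ i, 0 < √(a i) := fun i => Real.sqrt_pos.2 (ha i)
  -- the inverse of `tᴴ t`
  have hinv : t' * t'ᴴ = dg U (fun i => (a i)⁻¹) := by
    have e1 : (tᴴ * t) * (t' * t'ᴴ) = 1 := by
      calc (tᴴ * t) * (t' * t'ᴴ) = tᴴ * (t * t') * t'ᴴ := by simp only [mul_assoc]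
        _ = (t' * t)ᴴ := by rw [h1, mul_one, conjTranspose_mul]
        _ = 1 := by rw [h2, conjTranspose_one]
    have e2 : dg U (fun i => (a i)⁻¹) * (tᴴ * t) = 1 := by
      rw [hPa, dg_mul hU]
      have : (fun i => (a i)⁻¹ * a i) = fun _ => (1 : ℝ) := by
        funext i; exact inv_mul_cancel₀ (ha i).ne'
      rw [this, dg_one hU]
    exact (left_inv_eq_right_inv e2 e1).symm
  have hc : ∀ Z ∈ W, had U (fun i j => (a i : ℂ) * ((a j)⁻¹ : ℝ)) Z ∈ W := by
    intro Z hZ
    rw [← dg_conj hU, ← hPa, ← hinv]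
    have e3 : tᴴ * t * Z * (t' * t'ᴴ) = (t' * (t * Z * t')ᴴ * t)ᴴ := by
      simp only [conjTranspose_mul, conjTranspose_conjTranspose, mul_assoc]
    rw [e3]
    exact hstar _ (hT.2 _ (hstar _ (hT.1 Z hZ)))
  have hdiv : ∀ i j, √(((a i : ℂ) * ((a j)⁻¹ : ℝ)).re) = √(a i) * (√(a j))⁻¹ := by
    intro i j
    have : ((a i : ℂ) * ((a j)⁻¹ : ℝ)).re = a i * (a j)⁻¹ := by
      rw [← Complex.ofReal_mul, Complex.ofReal_re]
    rw [this, Real.sqrt_mul (ha i).le, Real.sqrt_inv]
  have hR1 : ∀ Z ∈ W, dg U (fun i => √(a i)) * Z * dg U (fun i => (√(a i))⁻¹) ∈ W := by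
    intro Z hZ
    refine dg_mem_of W hU _ _ _ hc (fun x => ((√(x.re) : ℝ) : ℂ)) ?_ Z hZ
    intro i j
    rw [hdiv]
    push_cast
    rfl
  have hR2 : ∀ Z ∈ W, dg U (fun i => (√(a i))⁻¹) * Z * dg U (fun i => √(a i)) ∈ W := by
    intro Z hZ
    refine dg_mem_of W hU _ _ _ hc (fun x => (((√(x.re))⁻¹ : ℝ) : ℂ)) ?_ Z hZ
    intro i j
    rw [hdiv, mul_inv, inv_inv]
    push_cast
    rfl
  set R := dg U (fun i => √(a i)) with hRdef
  set R' := dg U (fun i => (√(a i))⁻¹) with hR'def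
  have hRR' : R * R' = 1 := by
    rw [hRdef, hR'def, dg_mul hU]
    have : (fun i => √(a i) * (√(a i))⁻¹) = fun _ => (1 : ℝ) := by
      funext i; exact mul_inv_cancel₀ (hsq i).ne'
    rw [this, dg_one hU]
  have hR'R : R' * R = 1 := mul_eq_one_comm.1 hRR'
  have hRP : R * R = tᴴ * t := by
    rw [hRdef, dg_mul hU, hPa]
    congr 1
    funext i
    exact Real.mul_self_sqrt (ha i).le
  have hRh : Rᴴ = R := dg_herm _ _
  have hR'h : R'ᴴ = R' := dg_herm _ _
  have hVV : (t * R')ᴴ * (t * R') = 1 := by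
    rw [conjTranspose_mul, hR'h]
    calc R' * tᴴ * (t * R') = R' * (tᴴ * t) * R' := by simp only [mul_assoc]
      _ = (R' * R) * (R * R') := by rw [← hRP]; simp only [mul_assoc]
      _ = 1 := by rw [hRR', hR'R, one_mul]
  have hVinv : (t * R')ᴴ = R * t' := by
    have e : (t * R') * (R * t') = 1 := by
      calc (t * R') * (R * t') = t * (R' * R) * t' := by simp only [mul_assoc]
        _ = 1 := by rw [hR'R, mul_one, h1]
    exact left_inv_eq_right_inv hVV e
  refine ⟨t * R', hVV, fun Z hZ => ?_, fun Z hZ => ?_, ?_⟩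
  · rw [hVinv]
    have e : t * R' * Z * (R * t') = t * (R' * Z * R) * t' := by simp only [mul_assoc]
    rw [e]
    exact hT.1 _ (hR2 Z hZ)
  · rw [hVinv]
    have e : R * t' * Z * (t * R') = R * (t' * Z * t) * R' := by simp only [mul_assoc]
    rw [e]
    exact hR1 _ (hT.2 Z hZ)
  · rw [hVinv, mul_assoc, h2, mul_one]
    exact hRh

/-- the entries of a unitary matrix are bounded by one -/
lemma unitary_entry_le {V : Matrix n n ℂ} (hV : Vᴴ * V = 1) (i j : n) : ‖V i j‖ ≤ 1 := by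
  have h : ∑ k, ‖V k j‖ ^ 2 = 1 := by
    have h1 := congrFun (congrFun hV j) j
    rw [Matrix.mul_apply, Matrix.one_apply_eq] at h1
    have h2 : ∀ k, Vᴴ j k * V k j = ((‖V k j‖ ^ 2 : ℝ) : ℂ) := by
      intro k
      rw [conjTranspose_apply, Complex.star_def, Complex.conj_mul']
      push_cast
      rfl
    simp only [h2] at h1
    rw [← Complex.ofReal_sum] at h1
    exact_mod_cast h1
  have h3 : ‖V i j‖ ^ 2 ≤ 1 := by
    rw [← h]
    exact Finset.single_le_sum (f := fun k => ‖V k j‖ ^ 2) (fun k _ => by positivity)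
      (Finset.mem_univ i)
  nlinarith [norm_nonneg (V i j)]

/-- the unitary matrices are compact -/
lemma unitary_subseq (V : ℕ → Matrix n n ℂ) (hV : ∀ m, (V m)ᴴ * V m = 1) :
    ∃ (V0 : Matrix n n ℂ) (φ : ℕ → ℕ), StrictMono φ ∧
      ∀ i j, Filter.Tendsto (fun m => V (φ m) i j) Filter.atTop (nhds (V0 i j)) := by
  have hc : IsCompact (Set.univ.pi fun _ : n => Set.univ.pi fun _ : n =>
      Metric.closedBall (0 : ℂ) 1) :=
    isCompact_univ_pi fun _ => isCompact_univ_pi fun _ => isCompact_closedBall _ _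
  obtain ⟨x, hx⟩ : ∃ x : ℕ → (n → n → ℂ), x = fun m i j => V m i j := ⟨_, rfl⟩
  obtain ⟨V0, _, φ, hφ, hlim⟩ := hc.tendsto_subseq (x := x) (fun m => by
    simp only [Set.mem_pi, Set.mem_univ, forall_true_left, mem_closedBall_zero_iff]
    intro i j
    rw [hx]
    exact unitary_entry_le (hV m) i j)
  rw [hx] at hlim
  refine ⟨V0, φ, hφ, fun i j => ?_⟩
  have h1 := (tendsto_pi_nhds.1 hlim) i
  exact (tendsto_pi_nhds.1 h1) j

/-- **Iwasawa decomposition in the normaliser of `W`.** -/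
theorem iwasawa (W : Submodule ℂ (Matrix n n ℂ)) (hstar : ∀ Z ∈ W, Zᴴ ∈ W)
    (M : (Matrix n n ℂ)ˣ) (hM : M ∈ Nrm W) (Q : Matrix n n ℂ) (hQ : Qᴴ * Q = 1) (μ : n → ℝ)
    (hμ : ∀ Z ∈ W, dg Q μ * Z - Z * dg Q μ ∈ W) :
    ∃ V : Matrix n n ℂ, Vᴴ * V = 1 ∧ (∀ Z ∈ W, V * Z * Vᴴ ∈ W) ∧
      ∀ i j, μ i < μ j → (Qᴴ * (Vᴴ * (M : Matrix n n ℂ)) * Q) i j = 0 := by
  -- the matrices `S m = exp (m ξ)`
  have hc : ∀ Z ∈ W, had Q (fun i j => (μ i : ℂ) - μ j) Z ∈ W := by
    intro Z hZ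
    have e : had Q (fun i j => (μ i : ℂ) - μ j) Z = dg Q μ * Z - Z * dg Q μ := by
      have h1 := dg_conj hQ μ (fun _ => (1 : ℝ)) Z
      have h2 := dg_conj hQ (fun _ => (1 : ℝ)) μ Z
      rw [dg_one hQ, mul_one] at h1
      rw [dg_one hQ, one_mul] at h2
      rw [h1, h2]
      unfold had
      rw [← sub_mul, ← mul_sub]
      congr 2
      ext i j
      rw [Matrix.sub_apply, of_apply, of_apply, of_apply]
      push_cast
      ring
    rw [e]
    exact hμ Z hZ
  have hSinv : ∀ m : ℝ, dg Q (fun i => Real.exp (m * μ i)) *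
      dg Q (fun i => Real.exp (-m * μ i)) = 1 := by
    intro m
    rw [dg_mul hQ]
    have : (fun i => Real.exp (m * μ i) * Real.exp (-m * μ i)) = fun _ => (1 : ℝ) := by
      funext i
      rw [← Real.exp_add]
      simp
    rw [this, dg_one hQ]
  have hSW : ∀ m : ℝ, ∀ Z ∈ W, dg Q (fun i => Real.exp (m * μ i)) * Z *
      dg Q (fun i => Real.exp (-m * μ i)) ∈ W := by
    intro m Z hZ
    refine dg_mem_of W hQ _ _ _ hc (fun x => Complex.exp (m * x)) ?_ Z hZ
    intro i j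
    rw [← Complex.ofReal_mul, ← Real.exp_add, Complex.ofReal_exp]
    congr 1
    push_cast
    ring
  have hpol : ∀ m : ℕ, ∃ V : Matrix n n ℂ, Vᴴ * V = 1 ∧ (∀ Z ∈ W, V * Z * Vᴴ ∈ W) ∧
      (Vᴴ * ((M : Matrix n n ℂ) * dg Q (fun i => Real.exp (m * μ i)))).IsHermitian := by
    intro m
    have h1 := hSinv m
    have h2 := mul_eq_one_comm.1 h1
    have hS : (⟨dg Q (fun i => Real.exp (m * μ i)), dg Q (fun i => Real.exp (-m * μ i)), h1, h2⟩ :
        (Matrix n n ℂ)ˣ) ∈ Nrm W := by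
      refine mem_Nrm_of h1 h2 (hSW m) ?_
      intro Z hZ
      have := hSW (-m) Z hZ
      simpa only [neg_neg] using this
    obtain ⟨V, hV, hV1, _, hV3⟩ := polar W hstar _ (mul_mem hM hS)
    exact ⟨V, hV, hV1, hV3⟩
  choose V hV hVW hVM using hpol
  obtain ⟨V0, φ, hφ, hlim⟩ := unitary_subseq V hV
  -- entrywise limits of products
  have hlimT : ∀ i j, Filter.Tendsto (fun m => (V (φ m))ᴴ i j) Filter.atTop (nhds (V0ᴴ i j)) := by
    intro i j
    simp only [conjTranspose_apply]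
    exact (continuous_star.tendsto _).comp (hlim j i)
  have hmul : ∀ (A B : ℕ → Matrix n n ℂ) (A0 B0 : Matrix n n ℂ),
      (∀ i j, Filter.Tendsto (fun m => A m i j) Filter.atTop (nhds (A0 i j))) →
      (∀ i j, Filter.Tendsto (fun m => B m i j) Filter.atTop (nhds (B0 i j))) →
      ∀ i j, Filter.Tendsto (fun m => (A m * B m) i j) Filter.atTop (nhds ((A0 * B0) i j)) := by
    intro A B A0 B0 hA hB i j
    simp only [mul_apply]
    exact tendsto_finsetSum _ fun k _ => (hA i k).mul (hB k j)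
  have hconst : ∀ A : Matrix n n ℂ, ∀ i j, Filter.Tendsto (fun _ : ℕ => A i j) Filter.atTop
      (nhds (A i j)) := fun A i j => tendsto_const_nhds
  refine ⟨V0, ?_, ?_, ?_⟩
  · ext i j
    refine tendsto_nhds_unique (hmul _ _ _ _ hlimT hlim i j) ?_
    simp only [hV]
    exact tendsto_const_nhds
  · intro Z hZ
    have h1 := hmul _ _ _ _ (hmul _ _ _ _ hlim (hconst Z)) hlimT
    have h2 : Filter.Tendsto (fun m => V (φ m) * Z * (V (φ m))ᴴ) Filter.atTop
        (nhds (V0 * Z * V0ᴴ)) := tendsto_pi_nhds.2 fun i => tendsto_pi_nhds.2 fun j => h1 i j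
    exact (Submodule.closed_of_finiteDimensional W).mem_of_tendsto h2
      (Filter.Eventually.of_forall fun m => hVW _ Z hZ)
  · intro i j hij
    set C : ℕ → Matrix n n ℂ := fun m => Qᴴ * ((V (φ m))ᴴ * (M : Matrix n n ℂ)) * Q with hC
    have hCl : ∀ i j, Filter.Tendsto (fun m => C m i j) Filter.atTop
        (nhds ((Qᴴ * (V0ᴴ * (M : Matrix n n ℂ)) * Q) i j)) :=
      hmul _ _ _ _ (hmul _ _ _ _ (hconst _) (hmul _ _ _ _ hlimT (hconst _))) (hconst _)
    -- the relation between the entries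
    have hrel : ∀ m, C m i j * (Real.exp (φ m * μ j) : ℝ) =
        star (C m j i) * (Real.exp (φ m * μ i) : ℝ) := by
      intro m
      have h1 := hVM (φ m)
      have h2 : (Qᴴ * ((V (φ m))ᴴ * ((M : Matrix n n ℂ) *
          dg Q (fun i => Real.exp (φ m * μ i)))) * Q) =
          C m * diagonal (fun i => ((Real.exp (φ m * μ i) : ℝ) : ℂ)) := by
        simp only [hC, dg]
        calc Qᴴ * ((V (φ m))ᴴ * ((M : Matrix n n ℂ) * (Q * diagonal (fun i =>
              ((Real.exp (φ m * μ i) : ℝ) : ℂ)) * Qᴴ))) * Q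
            = Qᴴ * ((V (φ m))ᴴ * (M : Matrix n n ℂ)) * Q * diagonal (fun i =>
              ((Real.exp (φ m * μ i) : ℝ) : ℂ)) * (Qᴴ * Q) := by simp only [mul_assoc]
          _ = _ := by rw [hQ, mul_one]
      have h3 : (Qᴴ * ((V (φ m))ᴴ * ((M : Matrix n n ℂ) *
          dg Q (fun i => Real.exp (φ m * μ i)))) * Q).IsHermitian := by
        have := Matrix.isHermitian_conjTranspose_mul_mul Q h1
        simpa only [mul_assoc] using this
      rw [h2] at h3
      have h4 := h3.apply i j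
      rw [mul_diagonal, mul_diagonal] at h4
      rw [← h4, star_mul', Complex.star_def, Complex.conj_ofReal]
    have hnorm : ∀ m, ‖C m i j‖ = Real.exp (-(φ m * (μ j - μ i))) * ‖C m j i‖ := by
      intro m
      have h1 := congrArg norm (hrel m)
      rw [norm_mul, norm_mul, norm_star, Complex.norm_real, Complex.norm_real,
        Real.norm_of_nonneg (Real.exp_pos _).le, Real.norm_of_nonneg (Real.exp_pos _).le] at h1
      have h2 : Real.exp (-(φ m * (μ j - μ i))) = Real.exp (φ m * μ i) / Real.exp (φ m * μ j) := by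
        rw [← Real.exp_sub]
        congr 1
        ring
      rw [h2, div_mul_eq_mul_div, eq_div_iff (Real.exp_pos _).ne', h1]
      ring
    have hexp : Filter.Tendsto (fun m : ℕ => Real.exp (-((φ m : ℝ) * (μ j - μ i)))) Filter.atTop
        (nhds 0) := by
      refine Real.tendsto_exp_neg_atTop_nhds_zero.comp ?_
      refine Filter.Tendsto.atTop_mul_const (by linarith) ?_
      exact tendsto_natCast_atTop_atTop.comp hφ.tendsto_atTop
    have h0 : Filter.Tendsto (fun m => ‖C m i j‖) Filter.atTop (nhds 0) := by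
      have h5 := hexp.mul (hCl j i).norm
      rw [zero_mul] at h5
      exact h5.congr fun m => (hnorm m).symm
    have h6 := (hCl i j).norm
    exact norm_eq_zero.1 (tendsto_nhds_unique h6 h0)

end Pool.Agent.Q233.CFO
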