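import Pool.Agent.Q233.CFOb

/-!
# The vector of the expectations of an orthogonal basis does not shrink on average
-/

set_option autoImplicit false

namespace Pool.Agent.Q233.CFO

open Matrix NormedSpace

variable {n : Type} [Fintype n] [DecidableEq n]

lemma layer {ι : Type} [DecidableEq ι] (μ δ : ι → ℝ) (s : Finset ι) :
    ∀ m : ℝ, (∀ i ∈ s, m ≤ μ i) → (∀ t, m < t → 0 ≤ ∑ i ∈ s, if t ≤ μ i then δ i else 0) →
      0 ≤ ∑ i ∈ s, (μ i - m) * δ i := by
  induction s using Finset.induction_on_min_value μ with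
  | empty => intro m _ _; simp
  | insert a s ha hmin ih =>
    intro m hm hT
    rw [Finset.sum_insert ha]
    have h1 := ih (μ a) hmin (fun t ht => by
      have := hT t (lt_of_le_of_lt (hm a (Finset.mem_insert_self _ _)) ht)
      rwa [Finset.sum_insert ha, if_neg (not_le.2 ht), zero_add] at this)
    have h2 : (μ a - m) * δ a + ∑ i ∈ s, (μ i - m) * δ i =
        ∑ i ∈ s, (μ i - μ a) * δ i + (μ a - m) * (δ a + ∑ i ∈ s, δ i) := by
      have : ∑ i ∈ s, (μ i - m) * δ i = ∑ i ∈ s, (μ i - μ a) * δ i + (μ a - m) * ∑ i ∈ s, δ i := by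
        rw [Finset.mul_sum, ← Finset.sum_add_distrib]
        exact Finset.sum_congr rfl fun i _ => by ring
      rw [this]
      ring
    rw [h2]
    rcases (hm a (Finset.mem_insert_self _ _)).eq_or_lt with h | h
    · rw [← h, sub_self, zero_mul, add_zero]
      rw [← h] at h1
      exact h1
    · have h3 := hT (μ a) h
      rw [Finset.sum_insert ha, if_pos le_rfl] at h3
      have h4 : ∑ i ∈ s, (if μ a ≤ μ i then δ i else 0) = ∑ i ∈ s, δ i :=
        Finset.sum_congr rfl fun i hi => if_pos (hmin i hi)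
      rw [h4] at h3
      have h5 : 0 ≤ μ a - m := by linarith
      positivity

lemma dot_sum {κ : Type} [Fintype κ] (B : κ → Matrix n n ℂ) (hB : ∑ k, (B k)ᴴ * B k = 1)
    (a b : n → ℂ) : ∑ k, star (B k *ᵥ a) ⬝ᵥ (B k *ᵥ b) = star a ⬝ᵥ b := by
  have h : ∀ k, star (B k *ᵥ a) ⬝ᵥ (B k *ᵥ b) = star a ⬝ᵥ (((B k)ᴴ * B k) *ᵥ b) := by
    intro k
    rw [star_mulVec, ← mulVec_mulVec, dotProduct_mulVec, dotProduct_mulVec, dotProduct_mulVec]
  simp only [h]
  rw [← dotProduct_sum, ← sum_mulVec, hB, one_mulVec]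

lemma star_dot_self (a : n → ℂ) : (star a ⬝ᵥ a).re = ∑ i, ‖a i‖ ^ 2 := by
  simp only [dotProduct, Pi.star_apply, Complex.re_sum]
  refine Finset.sum_congr rfl fun i _ => ?_
  rw [Complex.star_def, Complex.conj_mul']
  norm_cast

/-- The threshold inequality. -/
lemma threshold {κ : Type} [Fintype κ] (B : κ → Matrix n n ℂ) (hB : ∑ k, (B k)ᴴ * B k = 1)
    (μ : n → ℝ) (hr : ∀ k i j, μ i < μ j → B k i j = 0) (φ : n → ℂ) (t : ℝ) :
    (∑ i, if t ≤ μ i then ‖φ i‖ ^ 2 else 0) ≤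
      ∑ i, if t ≤ μ i then ∑ k, ‖(B k *ᵥ φ) i‖ ^ 2 else 0 := by
  classical
  set a : n → ℂ := fun i => if t ≤ μ i then φ i else 0 with ha
  set b : n → ℂ := fun i => if t ≤ μ i then 0 else φ i with hb
  have hab : φ = a + b := by
    funext i
    simp only [ha, hb, Pi.add_apply]
    split_ifs <;> simp
  have hsup : ∀ k i, ¬ t ≤ μ i → (B k *ᵥ a) i = 0 := by
    intro k i hi
    simp only [mulVec, dotProduct, ha]
    refine Finset.sum_eq_zero fun j _ => ?_
    split_ifs with hj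
    · rw [hr k i j (by linarith [not_le.1 hi]), zero_mul]
    · simp
  have hk : ∀ k, (star (B k *ᵥ a) ⬝ᵥ (B k *ᵥ a)).re + 2 * (star (B k *ᵥ a) ⬝ᵥ (B k *ᵥ b)).re ≤
      ∑ i, if t ≤ μ i then ‖(B k *ᵥ φ) i‖ ^ 2 else 0 := by
    intro k
    simp only [dotProduct, Complex.re_sum, Pi.star_apply]
    rw [Finset.mul_sum, ← Finset.sum_add_distrib]
    refine Finset.sum_le_sum fun i _ => ?_
    split_ifs with hi
    · have e : (B k *ᵥ φ) i = (B k *ᵥ a) i + (B k *ᵥ b) i := by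
        rw [hab, mulVec_add, Pi.add_apply]
      rw [e, ← Complex.normSq_eq_norm_sq, Complex.normSq_apply]
      simp only [Complex.star_def, Complex.mul_re, Complex.conj_re, Complex.conj_im, Complex.add_re,
        Complex.add_im]
      nlinarith [sq_nonneg ((B k *ᵥ b) i).re, sq_nonneg ((B k *ᵥ b) i).im]
    · rw [hsup k i hi]
      simp
  have hsum := Finset.sum_le_sum fun k (_ : k ∈ Finset.univ) => hk k
  rw [Finset.sum_add_distrib, ← Finset.mul_sum, ← Complex.re_sum, ← Complex.re_sum,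
    dot_sum B hB, dot_sum B hB] at hsum
  have h0 : star a ⬝ᵥ b = 0 := by
    simp only [dotProduct, ha, hb, Pi.star_apply]
    refine Finset.sum_eq_zero fun i _ => ?_
    split_ifs <;> simp
  rw [h0, star_dot_self] at hsum
  have h1 : ∑ i, ‖a i‖ ^ 2 = ∑ i, if t ≤ μ i then ‖φ i‖ ^ 2 else 0 := by
    refine Finset.sum_congr rfl fun i _ => ?_
    simp only [ha]
    split_ifs <;> simp
  rw [h1] at hsum
  simp only [Complex.zero_re, mul_zero, add_zero] at hsum
  refine hsum.trans (le_of_eq ?_)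
  rw [Finset.sum_comm]
  refine Finset.sum_congr rfl fun i _ => ?_
  split_ifs <;> simp

lemma raising {κ : Type} [Fintype κ] (B : κ → Matrix n n ℂ) (hB : ∑ k, (B k)ᴴ * B k = 1)
    (μ : n → ℝ) (hr : ∀ k i j, μ i < μ j → B k i j = 0) (φ : n → ℂ) :
    ∑ i, μ i * ‖φ i‖ ^ 2 ≤ ∑ k, ∑ i, μ i * ‖(B k *ᵥ φ) i‖ ^ 2 := by
  classical
  set δ : n → ℝ := fun i => (∑ k, ‖(B k *ᵥ φ) i‖ ^ 2) - ‖φ i‖ ^ 2 with hδ
  have htot : ∑ i, δ i = 0 := by
    simp only [hδ, Finset.sum_sub_distrib]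
    rw [Finset.sum_comm]
    have e : ∀ k, ∑ i, ‖(B k *ᵥ φ) i‖ ^ 2 = (star (B k *ᵥ φ) ⬝ᵥ (B k *ᵥ φ)).re := fun k =>
      (star_dot_self _).symm
    rw [Finset.sum_congr rfl fun k _ => e k, ← star_dot_self, ← Complex.re_sum, dot_sum B hB,
      sub_self]
  obtain ⟨m, hm⟩ : ∃ m : ℝ, ∀ i, m ≤ μ i := by
    refine ⟨-∑ i, |μ i|, fun i => ?_⟩
    have := Finset.single_le_sum (f := fun i => |μ i|) (fun i _ => abs_nonneg _)
      (Finset.mem_univ i)
    have h2 := neg_abs_le (μ i)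
    linarith
  have h := layer μ δ Finset.univ m (fun i _ => hm i) (fun t _ => by
    have := threshold B hB μ hr φ t
    rw [← sub_nonneg, ← Finset.sum_sub_distrib] at this
    refine this.trans (le_of_eq (Finset.sum_congr rfl fun i _ => ?_))
    split_ifs <;> simp [hδ])
  have h2 : ∑ i, (μ i - m) * δ i = ∑ i, μ i * δ i - m * ∑ i, δ i := by
    rw [Finset.mul_sum, ← Finset.sum_sub_distrib]
    exact Finset.sum_congr rfl fun i _ => by ring
  rw [h2, htot, mul_zero, sub_zero] at h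
  have h3 : ∑ i, μ i * δ i = ∑ k, ∑ i, μ i * ‖(B k *ᵥ φ) i‖ ^ 2 - ∑ i, μ i * ‖φ i‖ ^ 2 := by
    rw [Finset.sum_comm, ← Finset.sum_sub_distrib]
    refine Finset.sum_congr rfl fun i _ => ?_
    simp only [hδ]
    rw [mul_sub, Finset.mul_sum]
  rw [h3] at h
  linarith

/-! ### Lie algebras -/

variable {ι : Type} [Fintype ι]

/-- the expectation of `A` in the vector `ψ` -/
noncomputable def ex (ψ : n → ℂ) (A : Matrix n n ℂ) : ℂ := star ψ ⬝ᵥ (A *ᵥ ψ)

lemma ex_sum (ψ : n → ℂ) (a : ι → ℝ) (G : ι → Matrix n n ℂ) :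
    (ex ψ (∑ i, (a i : ℂ) • G i)).re = ∑ i, a i * (ex ψ (G i)).re := by
  unfold ex
  rw [sum_mulVec, dotProduct_sum, Complex.re_sum]
  refine Finset.sum_congr rfl fun i _ => ?_
  rw [smul_mulVec, dotProduct_smul, smul_eq_mul, Complex.re_ofReal_mul]

lemma ex_dg (Q : Matrix n n ℂ) (μ : n → ℝ) (ψ : n → ℂ) :
    (ex ψ (dg Q μ)).re = ∑ i, μ i * ‖(Qᴴ *ᵥ ψ) i‖ ^ 2 := by
  unfold ex dg
  rw [← mulVec_mulVec, ← mulVec_mulVec, dotProduct_mulVec]
  have : star ψ ᵥ* Q = star (Qᴴ *ᵥ ψ) := by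
    rw [star_mulVec, conjTranspose_conjTranspose]
  rw [this]
  simp only [dotProduct, Complex.re_sum, mulVec_diagonal, Pi.star_apply]
  refine Finset.sum_congr rfl fun i _ => ?_
  have e : star ((Qᴴ *ᵥ ψ) i) * ((μ i : ℂ) * (Qᴴ *ᵥ ψ) i) =
      (μ i : ℂ) * (star ((Qᴴ *ᵥ ψ) i) * (Qᴴ *ᵥ ψ) i) := by ring
  rw [e, Complex.star_def, Complex.conj_mul', Complex.re_ofReal_mul]
  norm_cast

lemma ex_conj (V A : Matrix n n ℂ) (ψ : n → ℂ) : ex ψ (V * A * Vᴴ) = ex (Vᴴ *ᵥ ψ) A := by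
  unfold ex
  rw [← mulVec_mulVec, ← mulVec_mulVec, dotProduct_mulVec]
  have : star ψ ᵥ* V = star (Vᴴ *ᵥ ψ) := by
    rw [star_mulVec, conjTranspose_conjTranspose]
  rw [this]

section coords

variable [DecidableEq ι] {G : ι → Matrix n n ℂ} {c : ℝ} (hG : ∀ i, (G i).IsHermitian) (hc : 0 < c)
  (horth : ∀ i j, (G i * G j).trace = if i = j then (c : ℂ) else 0)

include hG hc horth in
/-- a Hermitian element of the complexified Lie algebra has real coordinates -/
lemma real_coords (x : Matrix n n ℂ) (hx : x.IsHermitian)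
    (hxW : x ∈ Submodule.span ℂ (Set.range G)) :
    ∃ a : ι → ℝ, x = ∑ i, (a i : ℂ) • G i ∧ (x * x).trace.re = c * ∑ i, a i ^ 2 := by
  obtain ⟨z, hz⟩ := (Submodule.mem_span_range_iff_exists_fun ℂ).1 hxW
  have htr : ∀ j, (x * G j).trace = z j * c := by
    intro j
    rw [← hz, Finset.sum_mul, trace_sum]
    simp only [smul_mul_assoc, trace_smul, horth, smul_eq_mul, mul_ite, mul_zero]
    simp
  have hreal : ∀ j, (z j).im = 0 := by
    intro j
    have h1 : star ((x * G j).trace) = (x * G j).trace := by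
      rw [← trace_conjTranspose, conjTranspose_mul, hx.eq, (hG j).eq, trace_mul_comm]
    rw [htr j, star_mul', Complex.star_def, Complex.conj_ofReal] at h1
    have h2 : (starRingEnd ℂ) (z j) = z j :=
      mul_right_cancel₀ (Complex.ofReal_ne_zero.2 hc.ne') h1
    exact Complex.conj_eq_iff_im.1 h2
  have hzr : ∀ j, z j = ((z j).re : ℂ) := fun j => by
    apply Complex.ext
    · simp
    · simp [hreal j]
  refine ⟨fun i => (z i).re, ?_, ?_⟩
  · rw [← hz]
    exact Finset.sum_congr rfl fun i _ => by rw [← hzr i]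
  · have h1 : (x * x).trace = ∑ j, z j * (x * G j).trace := by
      conv_lhs => rw [← hz]
      rw [Finset.sum_mul, trace_sum]
      refine Finset.sum_congr rfl fun j _ => ?_
      rw [hz, smul_mul_assoc, trace_smul, smul_eq_mul, trace_mul_comm]
    rw [h1, Complex.re_sum, Finset.mul_sum]
    refine Finset.sum_congr rfl fun j _ => ?_
    rw [htr j, hzr j]
    rw [← Complex.ofReal_mul, ← Complex.ofReal_mul, Complex.ofReal_re]
    simp only [Complex.ofReal_re]
    ring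

include hG in
lemma span_star : ∀ Z ∈ Submodule.span ℂ (Set.range G), Zᴴ ∈ Submodule.span ℂ (Set.range G) := by
  intro Z hZ
  induction hZ using Submodule.span_induction with
  | mem x hx =>
    obtain ⟨i, rfl⟩ := hx
    rw [(hG i).eq]
    exact Submodule.subset_span ⟨i, rfl⟩
  | zero => simp
  | add x y _ _ hx hy => rw [conjTranspose_add]; exact add_mem hx hy
  | smul a x _ hx => rw [conjTranspose_smul]; exact Submodule.smul_mem _ _ hx

lemma span_lie (h : ∀ i j, G i * G j - G j * G i ∈ Submodule.span ℂ (Set.range G)) :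
    ∀ X ∈ Submodule.span ℂ (Set.range G), ∀ Z ∈ Submodule.span ℂ (Set.range G),
      X * Z - Z * X ∈ Submodule.span ℂ (Set.range G) := by
  intro X hX Z hZ
  induction hX using Submodule.span_induction with
  | mem x hx =>
    obtain ⟨i, rfl⟩ := hx
    induction hZ using Submodule.span_induction with
    | mem y hy =>
      obtain ⟨j, rfl⟩ := hy
      exact h i j
    | zero => simp
    | add x y _ _ hx hy =>
      have e : G i * (x + y) - (x + y) * G i = (G i * x - x * G i) + (G i * y - y * G i) := by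
        rw [mul_add, add_mul]; abel
      rw [e]
      exact add_mem hx hy
    | smul a x _ hx =>
      have e : G i * (a • x) - (a • x) * G i = a • (G i * x - x * G i) := by
        rw [mul_smul_comm, smul_mul_assoc, smul_sub]
      rw [e]
      exact Submodule.smul_mem _ _ hx
  | zero => simp
  | add x y _ _ hx hy =>
    have e : (x + y) * Z - Z * (x + y) = (x * Z - Z * x) + (y * Z - Z * y) := by
      rw [mul_add, add_mul]; abel
    rw [e]
    exact add_mem hx hy
  | smul a x _ hx =>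
    have e : (a • x) * Z - Z * (a • x) = a • (x * Z - Z * x) := by
      rw [mul_smul_comm, smul_mul_assoc, smul_sub]
    rw [e]
    exact Submodule.smul_mem _ _ hx

include hG hc horth in
/-- **The length of the vector of the expectations does not decrease on average.** The state is
the sum of the projections onto the vectors `ψ a`. -/
theorem main {κ α : Type} [Fintype κ] [Fintype α]
    (hlie : ∀ i j, G i * G j - G j * G i ∈ Submodule.span ℂ (Set.range G))
    (M : κ → (Matrix n n ℂ)ˣ) (hM : ∀ k, M k ∈ Nrm (Submodule.span ℂ (Set.range G)))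
    (hsum : ∑ k, (M k : Matrix n n ℂ)ᴴ * (M k : Matrix n n ℂ) = 1) (ψ : α → n → ℂ) :
    √(∑ i, (∑ a, (ex (ψ a) (G i)).re) ^ 2) ≤
      ∑ k, √(∑ i, (∑ a, (ex ((M k : Matrix n n ℂ) *ᵥ ψ a) (G i)).re) ^ 2) := by
  set W := Submodule.span ℂ (Set.range G) with hW
  set v : ι → ℝ := fun i => ∑ a, (ex (ψ a) (G i)).re with hv
  set ξ : Matrix n n ℂ := ∑ i, (v i : ℂ) • G i with hξ
  have hξh : ξ.IsHermitian := by
    unfold Matrix.IsHermitian
    rw [hξ, conjTranspose_sum]
    refine Finset.sum_congr rfl fun i _ => ?_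
    rw [conjTranspose_smul, (hG i).eq, Complex.star_def, Complex.conj_ofReal]
  have hξW : ξ ∈ W := Submodule.sum_mem _ fun i _ =>
    Submodule.smul_mem _ _ (Submodule.subset_span ⟨i, rfl⟩)
  obtain ⟨Q, μ, hQ, hξQ, -⟩ := exists_dg hξh
  have hQ' : Q * Qᴴ = 1 := mul_eq_one_comm.1 hQ
  have hV : ∀ k, ∃ V : Matrix n n ℂ, Vᴴ * V = 1 ∧ (∀ Z ∈ W, V * Z * Vᴴ ∈ W) ∧
      ∀ i j, μ i < μ j → (Qᴴ * (Vᴴ * (M k : Matrix n n ℂ)) * Q) i j = 0 := fun k =>
    iwasawa W (span_star hG) (M k) (hM k) Q hQ μ (fun Z hZ => by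
      rw [← hξQ]
      exact span_lie hlie ξ hξW Z hZ)
  choose V hV1 hV2 hV3 using hV
  have hV1' : ∀ k, V k * (V k)ᴴ = 1 := fun k => mul_eq_one_comm.1 (hV1 k)
  -- expectations of real combinations of the `G i`
  have hexs : ∀ (b : ι → ℝ) (φ : α → n → ℂ), ∑ a, (ex (φ a) (∑ i, (b i : ℂ) • G i)).re =
      ∑ i, b i * ∑ a, (ex (φ a) (G i)).re := by
    intro b φ
    simp only [ex_sum]
    rw [Finset.sum_comm]
    exact Finset.sum_congr rfl fun i _ => by rw [Finset.mul_sum]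
  -- the squared length
  have hvv : ∑ a, (ex (ψ a) ξ).re = ∑ i, v i ^ 2 := by
    rw [hξ, hexs]
    exact Finset.sum_congr rfl fun i _ => by rw [sq]
  have htrξ : (ξ * ξ).trace.re = c * ∑ i, v i ^ 2 := by
    obtain ⟨a, ha, hta⟩ := real_coords hG hc horth ξ hξh hξW
    have : ∀ j, a j = v j := by
      intro j
      have h1 : ∀ b : ι → ℝ, ((∑ i, (b i : ℂ) • G i) * G j).trace = b j * c := by
        intro b
        rw [Finset.sum_mul, trace_sum]
        simp only [smul_mul_assoc, trace_smul, horth, smul_eq_mul, mul_ite, mul_zero]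
        simp
      have h2 := h1 a
      rw [← ha, hξ, h1 v] at h2
      have h3 := mul_right_cancel₀ (Complex.ofReal_ne_zero.2 hc.ne') h2
      exact_mod_cast h3.symm
    rw [hta]
    simp only [this]
  -- inequality A
  have hA : ∑ i, v i ^ 2 ≤
      ∑ k, ∑ a, (ex ((M k : Matrix n n ℂ) *ᵥ ψ a) (V k * ξ * (V k)ᴴ)).re := by
    set B : κ → Matrix n n ℂ := fun k => Qᴴ * ((V k)ᴴ * (M k : Matrix n n ℂ)) * Q with hB
    have hBB : ∑ k, (B k)ᴴ * B k = 1 := by
      have e : ∀ k, (B k)ᴴ * B k = Qᴴ * ((M k : Matrix n n ℂ)ᴴ * (M k : Matrix n n ℂ)) * Q := by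
        intro k
        simp only [hB, conjTranspose_mul, conjTranspose_conjTranspose]
        calc Qᴴ * ((M k : Matrix n n ℂ)ᴴ * V k * Q) * (Qᴴ * ((V k)ᴴ * (M k : Matrix n n ℂ)) * Q)
            = Qᴴ * (M k : Matrix n n ℂ)ᴴ * (V k * (Q * Qᴴ) * (V k)ᴴ) * (M k : Matrix n n ℂ) * Q := by
              simp only [mul_assoc]
          _ = _ := by rw [hQ', mul_one, hV1' k, mul_one]; simp only [mul_assoc]
      simp only [e]
      rw [← Finset.sum_mul, ← Finset.mul_sum, hsum, mul_one, hQ]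
    rw [← hvv, Finset.sum_comm]
    refine Finset.sum_le_sum fun a _ => ?_
    have h1 := raising B hBB μ hV3 (Qᴴ *ᵥ ψ a)
    rw [← ex_dg, ← hξQ] at h1
    refine h1.trans (le_of_eq (Finset.sum_congr rfl fun k _ => ?_))
    rw [ex_conj, hξQ, ex_dg]
    refine Finset.sum_congr rfl fun i _ => ?_
    have e : B k *ᵥ (Qᴴ *ᵥ ψ a) = Qᴴ *ᵥ ((V k)ᴴ *ᵥ ((M k : Matrix n n ℂ) *ᵥ ψ a)) := by
      simp only [hB, mulVec_mulVec]
      congr 1
      calc Qᴴ * ((V k)ᴴ * (M k : Matrix n n ℂ)) * Q * Qᴴ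
          = Qᴴ * ((V k)ᴴ * (M k : Matrix n n ℂ)) * (Q * Qᴴ) := by simp only [mul_assoc]
        _ = _ := by rw [hQ', mul_one]
    rw [e]
  -- inequality B
  have hBk : ∀ k, ∑ a, (ex ((M k : Matrix n n ℂ) *ᵥ ψ a) (V k * ξ * (V k)ᴴ)).re ≤
      √(∑ i, v i ^ 2) * √(∑ i, (∑ a, (ex ((M k : Matrix n n ℂ) *ᵥ ψ a) (G i)).re) ^ 2) := by
    intro k
    have hx : (V k * ξ * (V k)ᴴ).IsHermitian := by
      have := Matrix.isHermitian_mul_mul_conjTranspose (V k) hξh
      exact this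
    obtain ⟨a, ha, hta⟩ := real_coords hG hc horth _ hx (hV2 k ξ hξW)
    have htr : (V k * ξ * (V k)ᴴ * (V k * ξ * (V k)ᴴ)).trace = (ξ * ξ).trace := by
      calc (V k * ξ * (V k)ᴴ * (V k * ξ * (V k)ᴴ)).trace
          = (V k * (ξ * ((V k)ᴴ * V k) * ξ * (V k)ᴴ)).trace := by simp only [mul_assoc]
        _ = (V k * (ξ * ξ * (V k)ᴴ)).trace := by rw [hV1 k, mul_one]
        _ = (ξ * ξ * (V k)ᴴ * V k).trace := by rw [trace_mul_comm]
        _ = (ξ * ξ).trace := by rw [mul_assoc, hV1 k, mul_one]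
    rw [htr, htrξ] at hta
    have haa : ∑ i, a i ^ 2 = ∑ i, v i ^ 2 := (mul_left_cancel₀ hc.ne' hta).symm
    rw [ha, hexs a (fun b => (M k : Matrix n n ℂ) *ᵥ ψ b), ← haa]
    exact Real.sum_mul_le_sqrt_mul_sqrt _ _ _
  have h1 := hA.trans (Finset.sum_le_sum fun k (_ : k ∈ Finset.univ) => hBk k)
  rw [← Finset.mul_sum] at h1
  have h0 : 0 ≤ ∑ i, v i ^ 2 := Finset.sum_nonneg fun i _ => sq_nonneg _
  rcases h0.eq_or_lt with h | h
  · rw [← h, Real.sqrt_zero]
    exact Finset.sum_nonneg fun k _ => Real.sqrt_nonneg _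
  · have h2 := Real.mul_self_sqrt h0
    have h3 := Real.sqrt_pos.2 h
    rw [← h2] at h1
    rw [Real.sqrt_mul_self (Real.sqrt_nonneg _)] at h1
    exact le_of_mul_le_mul_left h1 h3

end coords

end Pool.Agent.Q233.CFO
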