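import Mathlib

/-!
# Entanglement witnesses on `ℂ^m ⊗ ℂ^n`

Definitions (states, separable states, entanglement witnesses, optimal witnesses, mirrored pairs,
local unitary equivalence) and the basic criteria: positivity on product vectors, and optimality
from the spanning property.
-/

namespace Q233.EW

set_option linter.unusedSectionVars false

open Matrix
open scoped Kronecker ComplexOrder

section Defs

variable {m n : Type} [Fintype m] [Fintype n] [DecidableEq m] [DecidableEq n]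

/-- States: positive semidefinite matrices of trace one. -/
structure IsState {ι : Type} [Fintype ι] (ρ : Matrix ι ι ℂ) : Prop where
  psd : ρ.PosSemidef
  tr : ρ.trace = 1

/-- Separable states: convex combinations of product states. -/
def IsSep (σ : Matrix (m × n) (m × n) ℂ) : Prop :=
  σ ∈ convexHull ℝ {X : Matrix (m × n) (m × n) ℂ |
    ∃ (α : Matrix m m ℂ) (β : Matrix n n ℂ), IsState α ∧ IsState β ∧ X = α ⊗ₖ β}

/-- Entanglement witnesses: Hermitian operators `W` with `Tr[Wσ] ≥ 0` for every separable state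
`σ` and `Tr[Wρ] < 0` for at least one state `ρ`. -/
structure IsEW (W : Matrix (m × n) (m × n) ℂ) : Prop where
  herm : W.IsHermitian
  nonneg : ∀ σ, IsSep σ → 0 ≤ (W * σ).trace.re
  detects : ∃ ρ : Matrix (m × n) (m × n) ℂ, IsState ρ ∧ (W * ρ).trace.re < 0

/-- An entanglement witness is optimal if no nonzero positive semidefinite operator can be
subtracted from it so that the result is again an entanglement witness. -/
def IsOptimalEW (W : Matrix (m × n) (m × n) ℂ) : Prop :=
  IsEW W ∧ ¬ ∃ (ε : ℝ) (P : Matrix (m × n) (m × n) ℂ), 0 < ε ∧ P.PosSemidef ∧ P ≠ 0 ∧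
    IsEW (W - (ε : ℂ) • P)

/-- `W` and `M` form a mirrored pair of optimal entanglement witnesses: both are optimal and
`W + M` is a real multiple of the identity. -/
def IsMirroredOptimalPair (W M : Matrix (m × n) (m × n) ℂ) : Prop :=
  IsOptimalEW W ∧ IsOptimalEW M ∧ ∃ u : ℝ, W + M = (u : ℂ) • (1 : Matrix (m × n) (m × n) ℂ)

/-- `W` and `M` are related by local unitaries: `M = (U ⊗ V) W (U ⊗ V)†`. -/
def LocallyUnitarilyRelated (W M : Matrix (m × n) (m × n) ℂ) : Prop :=
  ∃ U ∈ Matrix.unitaryGroup m ℂ, ∃ V ∈ Matrix.unitaryGroup n ℂ,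
    M = (U ⊗ₖ V) * W * (U ⊗ₖ V)ᴴ

end Defs

section Basic

variable {m n : Type} [Fintype m] [Fintype n] [DecidableEq m] [DecidableEq n]

/-- Product vectors. -/
def pv (x : m → ℂ) (y : n → ℂ) : m × n → ℂ := fun p => x p.1 * y p.2

/-- Expectation value (of the vector `v`, not normalised). -/
noncomputable def ev {ι : Type} [Fintype ι] (W : Matrix ι ι ℂ) (v : ι → ℂ) : ℂ :=
  star v ⬝ᵥ (W *ᵥ v)

lemma trace_mul_vecMulVec {ι : Type} [Fintype ι] (W : Matrix ι ι ℂ) (v : ι → ℂ) :
    (W * vecMulVec v (star v)).trace = ev W v := by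
  rw [Matrix.mul_vecMulVec, Matrix.trace_vecMulVec, ev, dotProduct_comm]

lemma kron_vecMulVec (x : m → ℂ) (y : n → ℂ) :
    (vecMulVec x (star x)) ⊗ₖ (vecMulVec y (star y)) = vecMulVec (pv x y) (star (pv x y)) := by
  ext p q
  simp only [kroneckerMap_apply, vecMulVec_apply, pv, Pi.star_apply, star_mul']
  ring

/-- A positive semidefinite matrix is a sum of rank-one matrices. -/
lemma psd_sum {ι : Type} [Fintype ι] [DecidableEq ι] {A : Matrix ι ι ℂ} (hA : A.PosSemidef) :
    ∃ v : ι → (ι → ℂ), A = ∑ i, vecMulVec (v i) (star (v i)) := by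
  obtain ⟨B, hB⟩ : ∃ B : Matrix ι ι ℂ, A = Bᴴ * B := by
    open scoped MatrixOrder in
    exact CStarAlgebra.nonneg_iff_eq_star_mul_self.mp hA.nonneg
  refine ⟨fun i => star (B i), ?_⟩
  rw [hB]
  ext x y
  rw [Matrix.mul_apply, Matrix.sum_apply]
  apply Finset.sum_congr rfl
  intro i _
  rw [vecMulVec_apply, conjTranspose_apply, star_star]
  rfl

lemma kron_sum {α β : Type} [Fintype α] [Fintype β] (A : α → Matrix m m ℂ) (B : β → Matrix n n ℂ) :
    (∑ i, A i) ⊗ₖ (∑ j, B j) = ∑ i, ∑ j, A i ⊗ₖ B j := by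
  ext p q
  simp only [kroneckerMap_apply, Matrix.sum_apply, Finset.sum_mul_sum]

/-- Positivity on product vectors gives positivity on separable states. -/
lemma sep_nonneg {W : Matrix (m × n) (m × n) ℂ} (h : ∀ x y, 0 ≤ (ev W (pv x y)).re) :
    ∀ σ, IsSep σ → 0 ≤ (W * σ).trace.re := by
  intro σ hσ
  have hconv : Convex ℝ {X : Matrix (m × n) (m × n) ℂ | 0 ≤ (W * X).trace.re} := by
    intro X hX Y hY a b ha hb _
    simp only [Set.mem_ofPred_eq] at hX hY ⊢
    rw [mul_add, Matrix.mul_smul, Matrix.mul_smul, trace_add, trace_smul, trace_smul,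
      Complex.add_re, Complex.real_smul, Complex.real_smul, Complex.re_ofReal_mul,
      Complex.re_ofReal_mul]
    have := mul_nonneg ha hX
    have := mul_nonneg hb hY
    linarith
  refine convexHull_min ?_ hconv hσ
  rintro X ⟨α, β, hα, hβ, rfl⟩
  simp only [Set.mem_ofPred_eq]
  obtain ⟨v, hv⟩ := psd_sum hα.psd
  obtain ⟨w, hw⟩ := psd_sum hβ.psd
  rw [hv, hw, kron_sum, Finset.mul_sum, trace_sum, Complex.re_sum]
  apply Finset.sum_nonneg
  intro i _
  rw [Finset.mul_sum, trace_sum, Complex.re_sum]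
  apply Finset.sum_nonneg
  intro j _
  rw [kron_vecMulVec, trace_mul_vecMulVec]
  exact h _ _

lemma normSq_pos {ι : Type} [Fintype ι] {v : ι → ℂ} (hv : v ≠ 0) :
    ∃ s : ℝ, 0 < s ∧ (vecMulVec v (star v)).trace = (s : ℂ) := by
  refine ⟨∑ i, Complex.normSq (v i), ?_, ?_⟩
  · obtain ⟨i, hi⟩ := Function.ne_iff.1 hv
    exact Finset.sum_pos' (fun _ _ => Complex.normSq_nonneg _)
      ⟨i, Finset.mem_univ _, Complex.normSq_pos.2 hi⟩
  · rw [Matrix.trace]
    push_cast
    apply Finset.sum_congr rfl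
    intro i _
    rw [diag_apply, vecMulVec_apply, Pi.star_apply, Complex.star_def, Complex.mul_conj]

lemma state_of_vec {ι : Type} [Fintype ι] {v : ι → ℂ} (hv : v ≠ 0) :
    ∃ s : ℝ, 0 < s ∧ IsState ((s : ℂ) • vecMulVec v (star v)) := by
  obtain ⟨s, hs, htr⟩ := normSq_pos hv
  refine ⟨s⁻¹, by positivity, ?_, ?_⟩
  · apply PosSemidef.smul (Matrix.posSemidef_vecMulVec_self_star v)
    rw [Complex.zero_le_real]
    positivity
  · rw [trace_smul, htr, smul_eq_mul, ← Complex.ofReal_mul, inv_mul_cancel₀ hs.ne',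
      Complex.ofReal_one]

/-- Witness criterion. -/
lemma isEW_of {W : Matrix (m × n) (m × n) ℂ} (hW : W.IsHermitian)
    (h : ∀ x y, 0 ≤ (ev W (pv x y)).re) {v : m × n → ℂ} (hv : (ev W v).re < 0) : IsEW W := by
  refine ⟨hW, sep_nonneg h, ?_⟩
  have hv0 : v ≠ 0 := by
    rintro rfl
    simp [ev] at hv
  obtain ⟨s, hs, hst⟩ := state_of_vec hv0
  refine ⟨_, hst, ?_⟩
  rw [Matrix.mul_smul, trace_smul, trace_mul_vecMulVec, smul_eq_mul, Complex.re_ofReal_mul]
  exact mul_neg_of_pos_of_neg hs hv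

lemma IsEW.ev_nonneg {W : Matrix (m × n) (m × n) ℂ} (h : IsEW W) (x : m → ℂ) (y : n → ℂ) :
    0 ≤ (ev W (pv x y)).re := by
  by_cases hx : x = 0
  · subst hx
    have : pv (0 : m → ℂ) y = 0 := by ext p; simp [pv]
    rw [this]; simp [ev]
  by_cases hy : y = 0
  · subst hy
    have : pv x (0 : n → ℂ) = 0 := by ext p; simp [pv]
    rw [this]; simp [ev]
  obtain ⟨s, hs, hst⟩ := state_of_vec hx
  obtain ⟨t, ht, htt⟩ := state_of_vec hy
  have h1 := h.nonneg _ (subset_convexHull ℝ _ ⟨_, _, hst, htt, rfl⟩)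
  rw [Matrix.smul_kronecker, Matrix.kronecker_smul, kron_vecMulVec, smul_smul, Matrix.mul_smul,
    trace_smul, trace_mul_vecMulVec, smul_eq_mul, ← Complex.ofReal_mul, Complex.re_ofReal_mul] at h1
  have h2 : 0 < s * t := by positivity
  exact nonneg_of_mul_nonneg_right h1 h2

/-- Optimality from the spanning property. -/
lemma optimal_of_spanning {W : Matrix (m × n) (m × n) ℂ} (hW : IsEW W)
    (Z : Set ((m → ℂ) × (n → ℂ))) (hZ : ∀ z ∈ Z, (ev W (pv z.1 z.2)).re ≤ 0)
    (hspan : ∀ P : Matrix (m × n) (m × n) ℂ, (∀ z ∈ Z, P *ᵥ (pv z.1 z.2) = 0) → P = 0) :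
    IsOptimalEW W := by
  refine ⟨hW, ?_⟩
  rintro ⟨ε, P, hε, hP, hP0, hE⟩
  apply hP0
  apply hspan
  intro z hz
  have h1 := hE.ev_nonneg z.1 z.2
  have h2 : ev (W - (ε : ℂ) • P) (pv z.1 z.2) = ev W (pv z.1 z.2) - ε * ev P (pv z.1 z.2) := by
    simp only [ev, sub_mulVec, smul_mulVec, dotProduct_sub, dotProduct_smul, smul_eq_mul]
  rw [h2, Complex.sub_re, Complex.re_ofReal_mul] at h1
  have h3 := hZ z hz
  have h4 : 0 ≤ ev P (pv z.1 z.2) := hP.dotProduct_mulVec_nonneg _
  have h5 : (ev P (pv z.1 z.2)).re ≤ 0 := by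
    by_contra hcon
    push Not at hcon
    have := mul_pos hε hcon
    linarith
  have h6 := Complex.le_def.1 h4
  have h7 : ev P (pv z.1 z.2) = 0 := by
    apply Complex.ext
    · exact le_antisymm h5 h6.1
    · exact h6.2.symm
  exact (hP.dotProduct_mulVec_zero_iff _).1 h7

end Basic

end Q233.EW
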