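import Mathlib
import Pool.Agent.Q233.EW

/-!
# A two-qutrit operator whose largest and smallest values on product vectors are opposite

`T3` is an explicit real symmetric `9 × 9` matrix with integer entries. On unit product vectors
its expectation value lies between `-14` and `14`, and both bounds are attained on product vectors
that span `ℂ³ ⊗ ℂ³`. Hence `14 - T3` and `14 + T3` are optimal entanglement witnesses.
-/

namespace Q233.EW

set_option linter.unusedSectionVars false

open Matrix
open scoped Kronecker ComplexOrder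

/-- Diagonal entries of `T3` in the three blocks. -/
def dd : Fin 3 → ℂ := ![11, 2, -13]

/-- Off-diagonal entries of `T3` in the three blocks. -/
def tt : Fin 3 → ℂ := ![-18, -9, 6]

/-- The operator `T3` on `ℂ³ ⊗ ℂ³`: it is block diagonal with respect to the three subspaces
spanned by the `|j, j - r⟩` (`r = 0, 1, 2`); in block `r` all diagonal entries are `dd r` and all
off-diagonal entries are `tt r`. -/
def T3 : Matrix (Fin 3 × Fin 3) (Fin 3 × Fin 3) ℂ := Matrix.of fun p q =>
  if p.1 - p.2 = q.1 - q.2 then (if p.1 = q.1 then dd (p.1 - p.2) else tt (p.1 - p.2)) else 0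

lemma T3_herm : T3.IsHermitian := by
  ext p q
  rw [conjTranspose_apply]
  simp only [T3, Matrix.of_apply]
  by_cases h : p.1 - p.2 = q.1 - q.2
  · by_cases h1 : p.1 = q.1
    · rw [if_pos h.symm, if_pos h1.symm, if_pos h, if_pos h1, h]
      generalize q.1 - q.2 = r
      fin_cases r <;> simp [dd]
    · rw [if_pos h.symm, if_neg (Ne.symm h1), if_pos h, if_neg h1, h]
      generalize q.1 - q.2 = r
      fin_cases r <;> simp [tt]
  · rw [if_neg (Ne.symm h), if_neg h, star_zero]

/-! ### The bound on product vectors -/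

/-- Cauchy–Schwarz for the bilinear form of `T3`. -/
lemma real_bound (p q a b c d : Fin 3 → ℝ)
    (hab : ∀ j, a j ^ 2 + b j ^ 2 = p (j + 1) * p j)
    (hcd : ∀ j, c j ^ 2 + d j ^ 2 = q (j + 1) * q j) :
    (∑ j, ∑ k, (![11, 2, -13] : Fin 3 → ℝ) (j - k) * (p j * q k) +
      2 * ∑ j, ∑ k, (![-18, -9, 6] : Fin 3 → ℝ) (j - k) * (a j * c k - b j * d k)) ^ 2 ≤
    (14 * (∑ j, p j) * (∑ j, q j)) ^ 2 := by
  set D : Fin 3 → ℝ := ![11, 2, -13] with hD
  set t : Fin 3 → ℝ := ![-18, -9, 6] with ht
  set P := ∑ j, p j with hP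
  set Q := ∑ j, q j with hQ
  set u : Fin 5 × Fin 3 → ℝ := fun z => (![fun j => p j - P / 3, a, a, b, b] : Fin 5 → Fin 3 → ℝ)
    z.1 z.2 with hu
  set v : Fin 5 × Fin 3 → ℝ := fun z => (![fun j => ∑ k, D (j - k) * q k,
    fun j => ∑ k, t (j - k) * c k, fun j => ∑ k, t (j - k) * c k,
    fun j => - ∑ k, t (j - k) * d k, fun j => - ∑ k, t (j - k) * d k] : Fin 5 → Fin 3 → ℝ)
    z.1 z.2 with hv
  have key := Finset.sum_mul_sq_le_sq_mul_sq Finset.univ u v
  have e1 : ∑ i, u i * v i = ∑ j, ∑ k, D (j - k) * (p j * q k) +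
      2 * ∑ j, ∑ k, t (j - k) * (a j * c k - b j * d k) := by
    rw [Fintype.sum_prod_type, Fin.sum_univ_five]
    simp only [hu, hv, hD, ht, hP, Fin.sum_univ_three, Matrix.cons_val_zero, Matrix.cons_val_one,
      Matrix.cons_val]
    simp only [show (0 : Fin 3) - 0 = 0 from rfl, show (0 : Fin 3) - 1 = 2 from rfl,
      show (0 : Fin 3) - 2 = 1 from rfl, show (1 : Fin 3) - 0 = 1 from rfl,
      show (1 : Fin 3) - 1 = 0 from rfl, show (1 : Fin 3) - 2 = 2 from rfl,
      show (2 : Fin 3) - 0 = 2 from rfl, show (2 : Fin 3) - 1 = 1 from rfl,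
      show (2 : Fin 3) - 2 = 0 from rfl, Matrix.cons_val_zero, Matrix.cons_val_one,
      Matrix.cons_val]
    ring
  have hab0 := hab 0
  have hab1 := hab 1
  have hab2 := hab 2
  have hcd0 := hcd 0
  have hcd1 := hcd 1
  have hcd2 := hcd 2
  simp only [show (0 : Fin 3) + 1 = 1 from rfl, show (1 : Fin 3) + 1 = 2 from rfl,
    show (2 : Fin 3) + 1 = 0 from rfl] at hab0 hab1 hab2 hcd0 hcd1 hcd2
  have e2 : ∑ i, u i ^ 2 = 2 / 3 * P ^ 2 := by
    rw [Fintype.sum_prod_type, Fin.sum_univ_five]
    simp only [hu, hP, Fin.sum_univ_three, Matrix.cons_val_zero, Matrix.cons_val_one,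
      Matrix.cons_val]
    linear_combination 2 * hab0 + 2 * hab1 + 2 * hab2
  have e3 : ∑ i, v i ^ 2 = 294 * Q ^ 2 := by
    rw [Fintype.sum_prod_type, Fin.sum_univ_five]
    simp only [hv, hD, ht, hQ, Fin.sum_univ_three, Matrix.cons_val_zero, Matrix.cons_val_one,
      Matrix.cons_val]
    simp only [show (0 : Fin 3) - 0 = 0 from rfl, show (0 : Fin 3) - 1 = 2 from rfl,
      show (0 : Fin 3) - 2 = 1 from rfl, show (1 : Fin 3) - 0 = 1 from rfl,
      show (1 : Fin 3) - 1 = 0 from rfl, show (1 : Fin 3) - 2 = 2 from rfl,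
      show (2 : Fin 3) - 0 = 2 from rfl, show (2 : Fin 3) - 1 = 1 from rfl,
      show (2 : Fin 3) - 2 = 0 from rfl, Matrix.cons_val_zero, Matrix.cons_val_one,
      Matrix.cons_val]
    linear_combination 882 * hcd0 + 882 * hcd1 + 882 * hcd2
  rw [e1, e2, e3] at key
  refine key.trans (le_of_eq ?_)
  ring

/-- The expectation value of `T3` on product vectors in real terms. -/
lemma ev_T3 (x y : Fin 3 → ℂ) : (ev T3 (pv x y)).re =
    ∑ j, ∑ k, (![11, 2, -13] : Fin 3 → ℝ) (j - k) * (Complex.normSq (x j) * Complex.normSq (y k)) +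
      2 * ∑ j, ∑ k, (![-18, -9, 6] : Fin 3 → ℝ) (j - k) *
        ((star (x (j + 1)) * x j).re * (star (y (k + 1)) * y k).re -
          (star (x (j + 1)) * x j).im * (star (y (k + 1)) * y k).im) := by
  simp only [ev, pv, T3, dd, tt, dotProduct, mulVec, Fintype.sum_prod_type, Fin.sum_univ_three,
    Matrix.of_apply, Pi.star_apply, star_mul', Complex.star_def, Complex.normSq_apply,
    show (0 : Fin 3) - 0 = 0 from rfl, show (0 : Fin 3) - 1 = 2 from rfl,
    show (0 : Fin 3) - 2 = 1 from rfl, show (1 : Fin 3) - 0 = 1 from rfl,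
    show (1 : Fin 3) - 1 = 0 from rfl, show (1 : Fin 3) - 2 = 2 from rfl,
    show (2 : Fin 3) - 0 = 2 from rfl, show (2 : Fin 3) - 1 = 1 from rfl,
    show (2 : Fin 3) - 2 = 0 from rfl, show (0 : Fin 3) + 1 = 1 from rfl,
    show (1 : Fin 3) + 1 = 2 from rfl, show (2 : Fin 3) + 1 = 0 from rfl,
    show ((0 : Fin 3) = 1) = False by decide, show ((0 : Fin 3) = 2) = False by decide,
    show ((1 : Fin 3) = 0) = False by decide, show ((1 : Fin 3) = 2) = False by decide,
    show ((2 : Fin 3) = 0) = False by decide, show ((2 : Fin 3) = 1) = False by decide,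
    if_true, if_false, zero_mul, add_zero, zero_add,
    Matrix.cons_val_zero, Matrix.cons_val_one, Matrix.cons_val]
  simp only [Complex.add_re, Complex.mul_re, Complex.mul_im, Complex.conj_re, Complex.conj_im,
    Complex.neg_re, Complex.neg_im, Complex.re_ofNat, Complex.im_ofNat, Complex.add_im]
  ring

lemma ev_one {m n : Type} [Fintype m] [Fintype n] [DecidableEq m] [DecidableEq n]
    (x : m → ℂ) (y : n → ℂ) : (ev (1 : Matrix (m × n) (m × n) ℂ) (pv x y)).re =
      (∑ j, Complex.normSq (x j)) * (∑ k, Complex.normSq (y k)) := by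
  rw [ev, one_mulVec, dotProduct, Fintype.sum_prod_type, Finset.sum_mul_sum, Complex.re_sum]
  apply Finset.sum_congr rfl
  intro j _
  rw [Complex.re_sum]
  apply Finset.sum_congr rfl
  intro k _
  rw [Pi.star_apply, pv, ← Complex.normSq_mul, Complex.star_def,
    ← Complex.normSq_eq_conj_mul_self, Complex.ofReal_re]

lemma T3_bound (x y : Fin 3 → ℂ) : |(ev T3 (pv x y)).re| ≤
    14 * (∑ j, Complex.normSq (x j)) * (∑ k, Complex.normSq (y k)) := by
  have hnn : 0 ≤ 14 * (∑ j, Complex.normSq (x j)) * (∑ k, Complex.normSq (y k)) := by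
    have h1 : 0 ≤ ∑ j, Complex.normSq (x j) := Finset.sum_nonneg fun _ _ => Complex.normSq_nonneg _
    have h2 : 0 ≤ ∑ j, Complex.normSq (y j) := Finset.sum_nonneg fun _ _ => Complex.normSq_nonneg _
    positivity
  have key := real_bound (fun j => Complex.normSq (x j)) (fun j => Complex.normSq (y j))
    (fun j => (star (x (j + 1)) * x j).re) (fun j => (star (x (j + 1)) * x j).im)
    (fun j => (star (y (j + 1)) * y j).re) (fun j => (star (y (j + 1)) * y j).im) (by
      intro j
      rw [← Complex.normSq_conj (x (j + 1)), ← Complex.normSq_mul, Complex.normSq_apply,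
        Complex.star_def]
      ring) (by
      intro j
      rw [← Complex.normSq_conj (y (j + 1)), ← Complex.normSq_mul, Complex.normSq_apply,
        Complex.star_def]
      ring)
  rw [← ev_T3] at key
  exact abs_le_of_sq_le_sq key hnn

/-! ### Symmetries and the spanning property -/

/-- The cube root of unity `(-1 + √3 i)/2`. -/
noncomputable def om : ℂ := ⟨-1 / 2, √3 / 2⟩

lemma om_sq : om ^ 2 = -1 - om := by
  have h3 : √3 * √3 = 3 := Real.mul_self_sqrt (by norm_num)
  apply Complex.ext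
  · simp only [pow_two, om, Complex.mul_re, Complex.sub_re, Complex.neg_re, Complex.one_re]
    nlinarith
  · simp only [pow_two, om, Complex.mul_im, Complex.sub_im, Complex.neg_im, Complex.one_im]
    ring

lemma om_cube : om ^ 3 = 1 := by
  have := om_sq
  linear_combination (om - 1) * this

lemma om_star : star om = -1 - om := by
  apply Complex.ext
  · simp only [om, Complex.star_def, Complex.conj_re, Complex.sub_re, Complex.neg_re,
      Complex.one_re]
    norm_num
  · simp only [om, Complex.star_def, Complex.conj_im, Complex.sub_im, Complex.neg_im,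
      Complex.one_im]
    ring

/-- The characters of `ℤ/3`. -/
noncomputable def ch : Fin 3 → ℂ := ![1, om, -1 - om]

lemma ch_star (s : Fin 3) : star (ch s) = ch (-s) := by
  fin_cases s
  · simp [ch]
  · change star (ch 1) = ch 2
    simp only [ch, Matrix.cons_val_one, Matrix.cons_val]
    exact om_star
  · change star (ch 2) = ch 1
    simp only [ch, Matrix.cons_val_one, Matrix.cons_val]
    rw [star_sub, om_star, star_neg, star_one]
    ring

lemma ch_add (s t : Fin 3) : ch (s + t) = ch s * ch t := by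
  have h := om_sq
  fin_cases s <;> fin_cases t
  · change ch 0 = ch 0 * ch 0
    simp [ch]
  · change ch 1 = ch 0 * ch 1
    simp [ch]
  · change ch 2 = ch 0 * ch 2
    simp [ch]
  · change ch 1 = ch 1 * ch 0
    simp [ch]
  · change ch 2 = ch 1 * ch 1
    simp only [ch, Matrix.cons_val_one, Matrix.cons_val]
    linear_combination -h
  · change ch 0 = ch 1 * ch 2
    simp only [ch, Matrix.cons_val_zero, Matrix.cons_val_one, Matrix.cons_val]
    linear_combination h
  · change ch 2 = ch 2 * ch 0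
    simp [ch]
  · change ch 0 = ch 2 * ch 1
    simp only [ch, Matrix.cons_val_zero, Matrix.cons_val_one, Matrix.cons_val]
    linear_combination h
  · change ch 1 = ch 2 * ch 2
    simp only [ch, Matrix.cons_val_one, Matrix.cons_val]
    linear_combination -h

/-- The orbit of a pair of vectors under the symmetries of `T3`. -/
noncomputable def orbX (x : Fin 3 → ℂ) (s c : Fin 3) : Fin 3 → ℂ :=
  fun j => ch (s * j) * x (j + c)

/-- The orbit of a pair of vectors under the symmetries of `T3`, second factor. -/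
noncomputable def orbY (y : Fin 3 → ℂ) (s c : Fin 3) : Fin 3 → ℂ :=
  fun k => ch (-(s * k)) * y (k + c)

lemma pv_orb (x y : Fin 3 → ℂ) (s c : Fin 3) (p : Fin 3 × Fin 3) :
    pv (orbX x s c) (orbY y s c) p = ch (s * (p.1 - p.2)) * (x (p.1 + c) * y (p.2 + c)) := by
  have h : s * (p.1 - p.2) = s * p.1 + -(s * p.2) := by
    obtain ⟨j, k⟩ := p
    revert s j k
    decide
  rw [h, ch_add]
  simp only [pv, orbX, orbY]
  ring

/-- Expectation values of `T3` are invariant under the symmetries. -/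
lemma ev_T3_orb (x y : Fin 3 → ℂ) (s c : Fin 3) :
    ev T3 (pv (orbX x s c) (orbY y s c)) = ev T3 (pv x y) := by
  simp only [ev, dotProduct, mulVec, Finset.mul_sum]
  set e : Fin 3 × Fin 3 ≃ Fin 3 × Fin 3 := (Equiv.addRight c).prodCongr (Equiv.addRight c) with he
  rw [← Equiv.sum_comp e (fun p => ∑ q, star (pv x y) p * (T3 p q * pv x y q))]
  apply Finset.sum_congr rfl
  intro p _
  rw [← Equiv.sum_comp e (fun q => star (pv x y) (e p) * (T3 (e p) q * pv x y q))]
  apply Finset.sum_congr rfl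
  intro q _
  have hsub : ∀ a b : Fin 3, (a + c) - (b + c) = a - b := by
    revert c
    decide
  have hT : T3 (e p) (e q) = T3 p q := by
    simp only [T3, Matrix.of_apply, he, Equiv.prodCongr_apply, Prod.map_fst, Prod.map_snd,
      Equiv.coe_addRight, hsub]
    have : (p.1 + c = q.1 + c) = (p.1 = q.1) := by
      simp
    simp only [this]
  rw [hT, Pi.star_apply, Pi.star_apply, pv_orb, pv_orb, star_mul', ch_star]
  simp only [he, Equiv.prodCongr_apply, pv, Prod.map_fst, Prod.map_snd, Equiv.coe_addRight]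
  by_cases h : p.1 - p.2 = q.1 - q.2
  · rw [h]
    have h1 : ch (-(s * (q.1 - q.2))) * ch (s * (q.1 - q.2)) = 1 := by
      rw [← ch_add]
      have : -(s * (q.1 - q.2)) + s * (q.1 - q.2) = 0 := by
        generalize s * (q.1 - q.2) = z
        revert z; decide
      rw [this]; rfl
    linear_combination (star (x (p.1 + c) * y (p.2 + c)) * (T3 p q *
      (x (q.1 + c) * y (q.2 + c)))) * h1
  · have h2 : T3 p q = 0 := by
      simp only [T3, Matrix.of_apply, if_neg h]
    rw [h2]; ring

lemma ev_one_orb (x y : Fin 3 → ℂ) (s c : Fin 3) :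
    ev 1 (pv (orbX x s c) (orbY y s c)) = ev 1 (pv x y) := by
  simp only [ev, one_mulVec, dotProduct]
  set e : Fin 3 × Fin 3 ≃ Fin 3 × Fin 3 := (Equiv.addRight c).prodCongr (Equiv.addRight c) with he
  rw [← Equiv.sum_comp e (fun p => star (pv x y) p * (pv x y p))]
  apply Finset.sum_congr rfl
  intro p _
  rw [Pi.star_apply, Pi.star_apply, pv_orb, star_mul', ch_star]
  simp only [he, Equiv.prodCongr_apply, pv, Prod.map_fst, Prod.map_snd, Equiv.coe_addRight]
  have h1 : ch (-(s * (p.1 - p.2))) * ch (s * (p.1 - p.2)) = 1 := by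
    rw [← ch_add]
    have : -(s * (p.1 - p.2)) + s * (p.1 - p.2) = 0 := by
      generalize s * (p.1 - p.2) = z
      revert z; decide
    rw [this]; rfl
  linear_combination (star (x (p.1 + c) * y (p.2 + c)) * (x (p.1 + c) * y (p.2 + c))) * h1

/-- Orthogonality of the characters. -/
lemma ch_orth (r d : Fin 3) : ∑ s, ch (-(s * r)) * ch (s * d) = if d = r then 3 else 0 := by
  have h : ∀ s, ch (-(s * r)) * ch (s * d) = ch (s * (d - r)) := by
    intro s
    rw [← ch_add]
    congr 1
    revert s r d; decide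
  simp only [h]
  by_cases hd : d = r
  · rw [if_pos hd, hd]
    have hr : ∀ r : Fin 3, r - r = 0 := by decide
    simp only [hr, mul_zero]
    simp [ch]
  · rw [if_neg hd]
    have hdr : ∀ d r : Fin 3, d ≠ r → d - r = 1 ∨ d - r = 2 := by decide
    rw [Fin.sum_univ_three]
    rcases hdr d r hd with h | h
    · rw [h]
      simp only [show (0 : Fin 3) * 1 = 0 from rfl, show (1 : Fin 3) * 1 = 1 from rfl,
        show (2 : Fin 3) * 1 = 2 from rfl]
      simp only [ch, Matrix.cons_val_zero, Matrix.cons_val_one, Matrix.cons_val]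
      ring
    · rw [h]
      simp only [show (0 : Fin 3) * 2 = 0 from rfl, show (1 : Fin 3) * 2 = 2 from rfl,
        show (2 : Fin 3) * 2 = 1 from rfl]
      simp only [ch, Matrix.cons_val_zero, Matrix.cons_val_one, Matrix.cons_val]
      ring

/-- The spanning property of an orbit. -/
lemma span_orb {m : Type} (P : Matrix m (Fin 3 × Fin 3) ℂ) (x y : Fin 3 → ℂ)
    (hz : ∀ s c, P *ᵥ (pv (orbX x s c) (orbY y s c)) = 0)
    (hdet : ∀ r : Fin 3, ∃ α : Fin 3 → ℂ, ∀ j, ∑ c, α c * (x (j + c) * y (j + c - r)) =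
      if j = 0 then 1 else 0) : P = 0 := by
  -- the components of the orbit in the blocks
  have h1 : ∀ r c : Fin 3, P *ᵥ (fun p => if p.1 - p.2 = r then x (p.1 + c) * y (p.2 + c) else 0)
      = 0 := by
    intro r c
    have e1 : (fun p : Fin 3 × Fin 3 => if p.1 - p.2 = r then x (p.1 + c) * y (p.2 + c) else 0) =
        ∑ s, ((1 / 3 : ℂ) * ch (-(s * r))) • pv (orbX x s c) (orbY y s c) := by
      ext p
      rw [Finset.sum_apply]
      simp only [Pi.smul_apply, smul_eq_mul, pv_orb]
      have := ch_orth r (p.1 - p.2)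
      calc (if p.1 - p.2 = r then x (p.1 + c) * y (p.2 + c) else 0)
          = (1 / 3) * (if p.1 - p.2 = r then 3 else 0) * (x (p.1 + c) * y (p.2 + c)) := by
            split_ifs <;> ring
        _ = _ := by
            rw [← this, Finset.mul_sum, Finset.sum_mul]
            apply Finset.sum_congr rfl
            intro s _
            ring
    rw [e1, mulVec_sum]
    apply Finset.sum_eq_zero
    intro s _
    rw [mulVec_smul, hz, smul_zero]
  -- the standard basis
  ext i p
  have h2 : P *ᵥ (Pi.single p 1) = 0 := by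
    obtain ⟨α, hα⟩ := hdet (p.1 - p.2)
    have e2 : (Pi.single p (1 : ℂ) : Fin 3 × Fin 3 → ℂ) = ∑ c, α c •
        (fun q : Fin 3 × Fin 3 => if q.1 - q.2 = p.1 - p.2 then
          x (q.1 + (c - p.1)) * y (q.2 + (c - p.1)) else 0) := by
      ext q
      rw [Finset.sum_apply]
      simp only [Pi.smul_apply, smul_eq_mul]
      by_cases hq : q.1 - q.2 = p.1 - p.2
      · simp only [if_pos hq]
        have h3 := hα (q.1 - p.1)
        have e3' : ∀ a b c : Fin 3, a - b + c = a + (c - b) := by decide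
        have e3 : ∀ c : Fin 3, q.1 - p.1 + c = q.1 + (c - p.1) := e3' _ _
        have e4 : ∀ c : Fin 3, q.1 - p.1 + c - (p.1 - p.2) = q.2 + (c - p.1) := by
          obtain ⟨a, b⟩ := p
          obtain ⟨a', b'⟩ := q
          clear * - hq
          simp only at hq ⊢
          revert a a' b b'
          decide
        simp only [e3] at h3
        have e5 : ∀ c : Fin 3, q.1 + (c - p.1) - (p.1 - p.2) = q.2 + (c - p.1) := by
          intro c
          rw [← e3, e4]
        simp only [e5] at h3
        rw [h3]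
        rw [Pi.single_apply]
        have e6 : (q = p) = (q.1 - p.1 = 0) := by
          obtain ⟨a, b⟩ := p
          obtain ⟨a', b'⟩ := q
          clear * - hq
          simp only [Prod.mk.injEq, eq_iff_iff] at hq ⊢
          revert a a' b b'
          decide
        simp only [e6]
      · simp only [if_neg hq, mul_zero, Finset.sum_const_zero]
        rw [Pi.single_apply, if_neg]
        rintro rfl
        exact hq rfl
    rw [e2, mulVec_sum]
    apply Finset.sum_eq_zero
    intro c _
    rw [mulVec_smul, h1, smul_zero]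
  have h3 := congrFun h2 i
  simpa using h3

/-- Invertibility of a `3 × 3` circulant matrix. -/
lemma circ_inv (h : Fin 3 → ℂ) (hd : h 0 ^ 3 + h 1 ^ 3 + h 2 ^ 3 - 3 * h 0 * h 1 * h 2 ≠ 0) :
    ∃ α : Fin 3 → ℂ, ∀ j, ∑ c, α c * h (j + c) = if j = 0 then 1 else 0 := by
  set D := h 0 ^ 3 + h 1 ^ 3 + h 2 ^ 3 - 3 * h 0 * h 1 * h 2 with hD
  refine ⟨![(h 0 ^ 2 - h 1 * h 2) / D, (h 1 ^ 2 - h 0 * h 2) / D, (h 2 ^ 2 - h 0 * h 1) / D], ?_⟩
  intro j
  fin_cases j
  · simp only [Fin.sum_univ_three, Matrix.cons_val_zero, Matrix.cons_val_one, Matrix.cons_val]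
    change (h 0 ^ 2 - h 1 * h 2) / D * h 0 + (h 1 ^ 2 - h 0 * h 2) / D * h 1 +
      (h 2 ^ 2 - h 0 * h 1) / D * h 2 = 1
    field_simp
    rw [hD]; ring
  · simp only [Fin.sum_univ_three, Matrix.cons_val_zero, Matrix.cons_val_one, Matrix.cons_val]
    change (h 0 ^ 2 - h 1 * h 2) / D * h 1 + (h 1 ^ 2 - h 0 * h 2) / D * h 2 +
      (h 2 ^ 2 - h 0 * h 1) / D * h 0 = 0
    field_simp
    ring
  · simp only [Fin.sum_univ_three, Matrix.cons_val_zero, Matrix.cons_val_one, Matrix.cons_val]
    change (h 0 ^ 2 - h 1 * h 2) / D * h 2 + (h 1 ^ 2 - h 0 * h 2) / D * h 0 +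
      (h 2 ^ 2 - h 0 * h 1) / D * h 1 = 0
    field_simp
    ring

/-! ### The two witnesses -/

/-- The witness `14 - T3`. -/
noncomputable def W3 : Matrix (Fin 3 × Fin 3) (Fin 3 × Fin 3) ℂ := (14 : ℂ) • 1 - T3

/-- The witness `14 + T3`. -/
noncomputable def M3 : Matrix (Fin 3 × Fin 3) (Fin 3 × Fin 3) ℂ := (14 : ℂ) • 1 + T3

lemma ev_W3 (v : Fin 3 × Fin 3 → ℂ) : (ev W3 v).re = 14 * (ev 1 v).re - (ev T3 v).re := by
  simp only [ev, W3, sub_mulVec, smul_mulVec, dotProduct_sub, dotProduct_smul, smul_eq_mul,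
    Complex.sub_re, Complex.mul_re, Complex.re_ofNat, Complex.im_ofNat, zero_mul, sub_zero]

lemma ev_M3 (v : Fin 3 × Fin 3 → ℂ) : (ev M3 v).re = 14 * (ev 1 v).re + (ev T3 v).re := by
  simp only [ev, M3, add_mulVec, smul_mulVec, dotProduct_add, dotProduct_smul, smul_eq_mul,
    Complex.add_re, Complex.mul_re, Complex.re_ofNat, Complex.im_ofNat, zero_mul, sub_zero]

lemma one_herm : ((14 : ℂ) • (1 : Matrix (Fin 3 × Fin 3) (Fin 3 × Fin 3) ℂ)).IsHermitian := by
  rw [Matrix.IsHermitian, conjTranspose_smul, conjTranspose_one]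
  simp

lemma W3_herm : W3.IsHermitian := one_herm.sub T3_herm

lemma M3_herm : M3.IsHermitian := one_herm.add T3_herm

lemma W3_nonneg (x y : Fin 3 → ℂ) : 0 ≤ (ev W3 (pv x y)).re := by
  rw [ev_W3, ev_one]
  have := (abs_le.1 (T3_bound x y)).2
  linarith

lemma M3_nonneg (x y : Fin 3 → ℂ) : 0 ≤ (ev M3 (pv x y)).re := by
  rw [ev_M3, ev_one]
  have := (abs_le.1 (T3_bound x y)).1
  linarith

/-- The vector `|00⟩ - |11⟩` detects `W3`. -/
def vW : Fin 3 × Fin 3 → ℂ := Pi.single (0, 0) 1 - Pi.single (1, 1) 1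

/-- The vector `|00⟩ + |11⟩ + |22⟩` detects `M3`. -/
def vM : Fin 3 × Fin 3 → ℂ := Pi.single (0, 0) 1 + Pi.single (1, 1) 1 + Pi.single (2, 2) 1

lemma W3_isEW : IsEW W3 := by
  apply isEW_of W3_herm W3_nonneg (v := vW)
  rw [ev_W3]
  simp only [ev, vW, star_sub, ← Pi.single_star, star_one, sub_dotProduct,
    single_dotProduct, mulVec_sub, mulVec_single, Pi.sub_apply, one_mul]
  simp [T3, dd, tt]
  norm_num

lemma M3_isEW : IsEW M3 := by
  apply isEW_of M3_herm M3_nonneg (v := vM)
  rw [ev_M3]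
  simp only [ev, vM, star_add, ← Pi.single_star, star_one, add_dotProduct,
    single_dotProduct, mulVec_add, mulVec_single, Pi.add_apply, one_mul]
  simp [T3, dd, tt]
  norm_num

/-- First factor of a zero of `W3`. -/
def xW : Fin 3 → ℂ := ![1, 1, 0]

/-- Second factor of a zero of `W3`. -/
def yW : Fin 3 → ℂ := ![3, -2, -1]

/-- First factor of a zero of `M3`. -/
noncomputable def xM : Fin 3 → ℂ := ![3 + 2 * om, 2 + 5 * om, 2]

/-- Second factor of a zero of `M3`. -/
noncomputable def yM : Fin 3 → ℂ := ![3 + 2 * om, 2, 2 + 5 * om]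

lemma W3_zero : (ev W3 (pv xW yW)).re = 0 := by
  rw [ev_W3, ev_one, ev_T3]
  simp only [Fin.sum_univ_three, xW, yW, Matrix.cons_val_zero, Matrix.cons_val_one,
    Matrix.cons_val, show (0 : Fin 3) - 0 = 0 from rfl, show (0 : Fin 3) - 1 = 2 from rfl,
    show (0 : Fin 3) - 2 = 1 from rfl, show (1 : Fin 3) - 0 = 1 from rfl,
    show (1 : Fin 3) - 1 = 0 from rfl, show (1 : Fin 3) - 2 = 2 from rfl,
    show (2 : Fin 3) - 0 = 2 from rfl, show (2 : Fin 3) - 1 = 1 from rfl,
    show (2 : Fin 3) - 2 = 0 from rfl, show (0 : Fin 3) + 1 = 1 from rfl,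
    show (1 : Fin 3) + 1 = 2 from rfl, show (2 : Fin 3) + 1 = 0 from rfl]
  simp only [Complex.star_def, Complex.normSq_apply, Complex.mul_re, Complex.mul_im,
    Complex.conj_re, Complex.conj_im, Complex.one_re, Complex.one_im, Complex.zero_re,
    Complex.zero_im, Complex.neg_re, Complex.neg_im, Complex.re_ofNat, Complex.im_ofNat]
  norm_num

lemma M3_zero : (ev M3 (pv xM yM)).re = 0 := by
  have h3 : √3 * √3 = 3 := Real.mul_self_sqrt (by norm_num)
  have h3' : √3 ^ 2 = 3 := by rw [pow_two, h3]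
  have h4' : √3 ^ 4 = 9 := by
    calc √3 ^ 4 = (√3 ^ 2) ^ 2 := by ring
      _ = 9 := by rw [h3']; norm_num
  rw [ev_M3, ev_one, ev_T3]
  simp only [Fin.sum_univ_three, xM, yM, Matrix.cons_val_zero, Matrix.cons_val_one,
    Matrix.cons_val, show (0 : Fin 3) - 0 = 0 from rfl, show (0 : Fin 3) - 1 = 2 from rfl,
    show (0 : Fin 3) - 2 = 1 from rfl, show (1 : Fin 3) - 0 = 1 from rfl,
    show (1 : Fin 3) - 1 = 0 from rfl, show (1 : Fin 3) - 2 = 2 from rfl,
    show (2 : Fin 3) - 0 = 2 from rfl, show (2 : Fin 3) - 1 = 1 from rfl,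
    show (2 : Fin 3) - 2 = 0 from rfl, show (0 : Fin 3) + 1 = 1 from rfl,
    show (1 : Fin 3) + 1 = 2 from rfl, show (2 : Fin 3) + 1 = 0 from rfl]
  simp only [Complex.star_def, Complex.normSq_apply, Complex.mul_re, Complex.mul_im,
    Complex.conj_re, Complex.conj_im, Complex.re_ofNat, Complex.im_ofNat,
    Complex.add_re, Complex.add_im, om]
  ring_nf
  rw [h3', h4']
  norm_num

lemma om_ne (a b : ℝ) (hb : b ≠ 0) : (a : ℂ) + b * om ≠ 0 := by
  intro h
  have h1 := congrArg Complex.im h
  simp only [om, Complex.add_im, Complex.mul_im, Complex.ofReal_re, Complex.ofReal_im,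
    Complex.zero_im, zero_mul, zero_add, add_zero] at h1
  have h3 : 0 < √3 := Real.sqrt_pos.2 (by norm_num)
  have : b * (√3 / 2) ≠ 0 := mul_ne_zero hb (by positivity)
  exact this h1

lemma W3_optimal : IsOptimalEW W3 := by
  apply optimal_of_spanning W3_isEW
    (Set.range (fun z : Fin 3 × Fin 3 => (orbX xW z.1 z.2, orbY yW z.1 z.2)))
  · rintro _ ⟨⟨s, c⟩, rfl⟩
    simp only
    rw [ev_W3, ev_T3_orb, ev_one_orb, ← ev_W3, W3_zero]
  · intro P hP
    apply span_orb P xW yW
    · intro s c
      exact hP _ ⟨(s, c), rfl⟩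
    · intro r
      have h := circ_inv (fun j => xW j * yW (j - r)) (by
        fin_cases r
        · change (xW 0 * yW 0) ^ 3 + (xW 1 * yW 1) ^ 3 + (xW 2 * yW 2) ^ 3 -
            3 * (xW 0 * yW 0) * (xW 1 * yW 1) * (xW 2 * yW 2) ≠ 0
          simp [xW, yW]
          norm_num
        · change (xW 0 * yW 2) ^ 3 + (xW 1 * yW 0) ^ 3 + (xW 2 * yW 1) ^ 3 -
            3 * (xW 0 * yW 2) * (xW 1 * yW 0) * (xW 2 * yW 1) ≠ 0
          simp [xW, yW]
          norm_num
        · change (xW 0 * yW 1) ^ 3 + (xW 1 * yW 2) ^ 3 + (xW 2 * yW 0) ^ 3 -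
            3 * (xW 0 * yW 1) * (xW 1 * yW 2) * (xW 2 * yW 0) ≠ 0
          simp [xW, yW]
          norm_num)
      exact h

lemma M3_optimal : IsOptimalEW M3 := by
  have ho := om_sq
  apply optimal_of_spanning M3_isEW
    (Set.range (fun z : Fin 3 × Fin 3 => (orbX xM z.1 z.2, orbY yM z.1 z.2)))
  · rintro _ ⟨⟨s, c⟩, rfl⟩
    simp only
    rw [ev_M3, ev_T3_orb, ev_one_orb, ← ev_M3, M3_zero]
  · intro P hP
    apply span_orb P xM yM
    · intro s c
      exact hP _ ⟨(s, c), rfl⟩
    · intro r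
      have h := circ_inv (fun j => xM j * yM (j - r)) (by
        fin_cases r
        · change (xM 0 * yM 0) ^ 3 + (xM 1 * yM 1) ^ 3 + (xM 2 * yM 2) ^ 3 -
            3 * (xM 0 * yM 0) * (xM 1 * yM 1) * (xM 2 * yM 2) ≠ 0
          have e : (xM 0 * yM 0) ^ 3 + (xM 1 * yM 1) ^ 3 + (xM 2 * yM 2) ^ 3 -
            3 * (xM 0 * yM 0) * (xM 1 * yM 1) * (xM 2 * yM 2) = ((1 : ℝ) + (-2 : ℝ) * om) ^ 2 *
              ((13 : ℝ) + (28 : ℝ) * om) := by
            have e1 : xM 0 * yM 0 = 5 + 8 * om := by
              simp only [xM, yM, Matrix.cons_val_zero]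
              linear_combination 4 * ho
            have e2 : xM 1 * yM 1 = 4 + 10 * om := by
              change (2 + 5 * om) * 2 = 4 + 10 * om
              ring
            have e3 : xM 2 * yM 2 = 4 + 10 * om := by
              simp only [xM, yM, Matrix.cons_val]
              ring
            rw [e1, e2, e3]
            push_cast
            ring
          rw [e]
          exact mul_ne_zero (pow_ne_zero _ (om_ne _ _ (by norm_num))) (om_ne _ _ (by norm_num))
        · change (xM 0 * yM 2) ^ 3 + (xM 1 * yM 0) ^ 3 + (xM 2 * yM 1) ^ 3 -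
            3 * (xM 0 * yM 2) * (xM 1 * yM 0) * (xM 2 * yM 1) ≠ 0
          have e : (xM 0 * yM 2) ^ 3 + (xM 1 * yM 0) ^ 3 + (xM 2 * yM 1) ^ 3 -
            3 * (xM 0 * yM 2) * (xM 1 * yM 0) * (xM 2 * yM 1) = ((8 : ℝ) + (-9 : ℝ) * om) ^ 2 *
              ((-4 : ℝ) + (18 : ℝ) * om) := by
            have e1 : xM 0 * yM 2 = -4 + 9 * om := by
              simp only [xM, yM, Matrix.cons_val_zero, Matrix.cons_val]
              linear_combination 10 * ho
            have e2 : xM 1 * yM 0 = -4 + 9 * om := by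
              simp only [xM, yM, Matrix.cons_val_zero, Matrix.cons_val_one]
              linear_combination 10 * ho
            have e3 : xM 2 * yM 1 = 4 := by
              simp only [xM, yM, Matrix.cons_val, Matrix.cons_val_one]
              ring
            rw [e1, e2, e3]
            push_cast
            ring
          rw [e]
          exact mul_ne_zero (pow_ne_zero _ (om_ne _ _ (by norm_num))) (om_ne _ _ (by norm_num))
        · change (xM 0 * yM 1) ^ 3 + (xM 1 * yM 2) ^ 3 + (xM 2 * yM 0) ^ 3 -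
            3 * (xM 0 * yM 1) * (xM 1 * yM 2) * (xM 2 * yM 0) ≠ 0
          have e : (xM 0 * yM 1) ^ 3 + (xM 1 * yM 2) ^ 3 + (xM 2 * yM 0) ^ 3 -
            3 * (xM 0 * yM 1) * (xM 1 * yM 2) * (xM 2 * yM 0) =
              ((-27 : ℝ) + (-9 : ℝ) * om) ^ 2 * ((-9 : ℝ) + (3 : ℝ) * om) := by
            have e1 : xM 0 * yM 1 = 6 + 4 * om := by
              simp only [xM, yM, Matrix.cons_val_zero, Matrix.cons_val_one]
              ring
            have e2 : xM 1 * yM 2 = -21 - 5 * om := by
              simp only [xM, yM, Matrix.cons_val_one, Matrix.cons_val]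
              linear_combination 25 * ho
            have e3 : xM 2 * yM 0 = 6 + 4 * om := by
              simp only [xM, yM, Matrix.cons_val, Matrix.cons_val_zero]
              ring
            rw [e1, e2, e3]
            push_cast
            ring
          rw [e]
          exact mul_ne_zero (pow_ne_zero _ (om_ne _ _ (by norm_num))) (om_ne _ _ (by norm_num)))
      exact h

end Q233.EW
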