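import Mathlib
import Pool.Agent.Q233.EW
import Pool.Agent.Q233.EW3

/-!
# Mirrored pairs of optimal entanglement witnesses from signed complete graphs

For a symmetric sign function `e` on the pairs of an index set `ι`, the operator
`Sg e = ∑ e_{ij} (|ij⟩⟨ji| - |ii⟩⟨jj|)` on `ℂ^ι ⊗ ℂ^ι` has expectation values between `-1` and `1`
on unit product vectors. If every pair `{i, j}` is contained in a triangle with negative sign
product, then `1 - Sg e` is an optimal entanglement witness.
-/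

namespace Q233.EW

set_option linter.unusedSectionVars false

open Matrix
open scoped Kronecker ComplexOrder

section General

variable {m n : Type} [Fintype m] [Fintype n] [DecidableEq m] [DecidableEq n]

lemma ev_im {ι : Type} [Fintype ι] {W : Matrix ι ι ℂ} (hW : W.IsHermitian) (v : ι → ℂ) :
    (ev W v).im = 0 := by
  have h : star (ev W v) = ev W v := by
    rw [ev, ← Matrix.star_dotProduct, star_mulVec, hW.eq, ← dotProduct_mulVec]
  rw [← Complex.conj_eq_iff_im]
  exact h

/-- Optimality from nonnegativity on product vectors and the spanning property alone. -/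
lemma optimal_of {W : Matrix (m × n) (m × n) ℂ} (hW : W.IsHermitian)
    (hnn : ∀ x y, 0 ≤ (ev W (pv x y)).re) (hne : W ≠ 0) (Z : Set ((m → ℂ) × (n → ℂ)))
    (hZ : ∀ z ∈ Z, (ev W (pv z.1 z.2)).re ≤ 0)
    (hspan : ∀ P : Matrix (m × n) (m × n) ℂ, (∀ z ∈ Z, P *ᵥ (pv z.1 z.2) = 0) → P = 0) :
    IsOptimalEW W := by
  obtain ⟨v, hv⟩ : ∃ v, (ev W v).re < 0 := by
    by_contra hcon
    push Not at hcon
    have hpsd : W.PosSemidef := by
      apply PosSemidef.of_dotProduct_mulVec_nonneg hW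
      intro x
      rw [Complex.le_def]
      exact ⟨hcon x, (ev_im hW x).symm⟩
    apply hne
    apply hspan
    intro z hz
    rw [← hpsd.dotProduct_mulVec_zero_iff]
    apply Complex.ext
    · exact le_antisymm (hZ z hz) (hcon _)
    · exact ev_im hW _
  exact optimal_of_spanning (isEW_of hW hnn hv) Z hZ hspan

end General

section Signed

variable {ι : Type} [Fintype ι] [DecidableEq ι]

/-- The operator `∑ e_{ij} (|ij⟩⟨ji| - |ii⟩⟨jj|)`. -/
noncomputable def Sg (e : ι → ι → ℝ) : Matrix (ι × ι) (ι × ι) ℂ := Matrix.of fun p q =>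
  (if p.1 = q.2 ∧ p.2 = q.1 then (e p.1 p.2 : ℂ) else 0) -
    (if p.1 = p.2 ∧ q.1 = q.2 then (e p.1 q.1 : ℂ) else 0)

lemma Sg_herm {e : ι → ι → ℝ} (he : ∀ i j, e i j = e j i) : (Sg e).IsHermitian := by
  ext p q
  rw [conjTranspose_apply]
  simp only [Sg, Matrix.of_apply, star_sub]
  congr 1
  · by_cases h : p.1 = q.2 ∧ p.2 = q.1
    · rw [if_pos ⟨h.2.symm, h.1.symm⟩, if_pos h, h.1, h.2, he]
      simp
    · rw [if_neg (fun h' => h ⟨h'.2.symm, h'.1.symm⟩), if_neg h, star_zero]
  · by_cases h : p.1 = p.2 ∧ q.1 = q.2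
    · rw [if_pos ⟨h.2, h.1⟩, if_pos h, he]
      simp
    · rw [if_neg (fun h' => h ⟨h'.2, h'.1⟩), if_neg h, star_zero]

lemma Sg_neg (e : ι → ι → ℝ) : Sg (fun i j => - e i j) = - Sg e := by
  ext p q
  simp only [Sg, Matrix.of_apply, Matrix.neg_apply]
  split_ifs <;> push_cast <;> ring

lemma ev_Sg (e : ι → ι → ℝ) (x y : ι → ℂ) : (ev (Sg e) (pv x y)).re =
    ∑ i, ∑ j, 2 * e i j * ((star (x i) * x j).im * (star (y i) * y j).im) := by
  have h1 : ev (Sg e) (pv x y) = ∑ i, ∑ j, (e i j : ℂ) *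
      (star (x i) * star (y j) * x j * y i - star (x i) * star (y i) * x j * y j) := by
    simp only [ev, dotProduct, mulVec, Sg, Matrix.of_apply, sub_mul, Finset.sum_sub_distrib,
      mul_sub, Pi.star_apply, pv, star_mul']
    congr 1
    · rw [Fintype.sum_prod_type]
      apply Finset.sum_congr rfl
      intro i _
      apply Finset.sum_congr rfl
      intro j _
      simp only
      rw [Finset.sum_eq_single (j, i)]
      · simp only [and_self, if_true]; ring
      · rintro ⟨k, l⟩ _ hkl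
        rw [if_neg, zero_mul]
        rintro ⟨h1, h2⟩
        simp only at h1 h2
        exact hkl (by rw [h1, h2])
      · intro h; exact absurd (Finset.mem_univ _) h
    · rw [Fintype.sum_prod_type]
      apply Finset.sum_congr rfl
      intro i _
      rw [Finset.sum_eq_single i]
      · simp only [true_and]
        rw [Fintype.sum_prod_type, Finset.mul_sum]
        apply Finset.sum_congr rfl
        intro j _
        rw [Finset.sum_eq_single j]
        · simp only [if_true]; ring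
        · intro k _ hk
          rw [if_neg (Ne.symm hk), zero_mul]
        · intro h; exact absurd (Finset.mem_univ _) h
      · intro k _ hk
        have : ∀ q : ι × ι, (if i = k ∧ q.1 = q.2 then (e i q.1 : ℂ) else 0) * (x q.1 * y q.2)
            = 0 := by
          intro q
          rw [if_neg (fun h => hk h.1.symm), zero_mul]
        simp only [this, Finset.sum_const_zero, mul_zero]
      · intro h; exact absurd (Finset.mem_univ _) h
  rw [h1, Complex.re_sum]
  apply Finset.sum_congr rfl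
  intro i _
  rw [Complex.re_sum]
  apply Finset.sum_congr rfl
  intro j _
  rw [Complex.re_ofReal_mul]
  simp only [Complex.star_def, Complex.sub_re, Complex.mul_re,
    Complex.mul_im, Complex.conj_re, Complex.conj_im]
  ring

lemma im_sq (a b : ℂ) : 2 * (star a * b).im ^ 2 =
    Complex.normSq a * Complex.normSq b - (star (a ^ 2) * b ^ 2).re := by
  simp only [Complex.star_def, Complex.normSq_apply, Complex.mul_im, Complex.mul_re,
    Complex.conj_re, Complex.conj_im, pow_two, map_mul]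
  ring

lemma im_sum (x : ι → ℂ) : ∑ i, ∑ j, 2 * (star (x i) * x j).im ^ 2 ≤
    (∑ i, Complex.normSq (x i)) ^ 2 := by
  have h1 : ∑ i, ∑ j, 2 * (star (x i) * x j).im ^ 2 =
      (∑ i, Complex.normSq (x i)) ^ 2 - Complex.normSq (∑ i, x i ^ 2) := by
    simp only [im_sq, Finset.sum_sub_distrib]
    congr 1
    · rw [pow_two, Finset.sum_mul_sum]
    · rw [← Complex.ofReal_re (Complex.normSq (∑ i, x i ^ 2)), Complex.normSq_eq_conj_mul_self,
        map_sum, Finset.sum_mul_sum, Complex.re_sum]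
      apply Finset.sum_congr rfl
      intro i _
      rw [Complex.re_sum]
      rfl
  rw [h1]
  have := Complex.normSq_nonneg (∑ i, x i ^ 2)
  linarith

lemma Sg_bound {e : ι → ι → ℝ} (he : ∀ i j, e i j ^ 2 = 1) (x y : ι → ℂ) :
    (ev (Sg e) (pv x y)).re ≤
      (∑ j, Complex.normSq (x j)) * (∑ k, Complex.normSq (y k)) := by
  have hx : 0 ≤ ∑ j, Complex.normSq (x j) := Finset.sum_nonneg fun _ _ => Complex.normSq_nonneg _
  have hy : 0 ≤ ∑ j, Complex.normSq (y j) := Finset.sum_nonneg fun _ _ => Complex.normSq_nonneg _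
  have key := Finset.sum_mul_sq_le_sq_mul_sq (Finset.univ : Finset (ι × ι))
    (fun p => √2 * e p.1 p.2 * (star (x p.1) * x p.2).im)
    (fun p => √2 * (star (y p.1) * y p.2).im)
  have h2 : √2 * √2 = 2 := Real.mul_self_sqrt (by norm_num)
  have e1 : ∑ p : ι × ι, √2 * e p.1 p.2 * (star (x p.1) * x p.2).im *
      (√2 * (star (y p.1) * y p.2).im) = (ev (Sg e) (pv x y)).re := by
    rw [ev_Sg, Fintype.sum_prod_type]
    apply Finset.sum_congr rfl
    intro i _
    apply Finset.sum_congr rfl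
    intro j _
    linear_combination (e i j * ((star (x i) * x j).im * (star (y i) * y j).im)) * h2
  have e2 : ∑ p : ι × ι, (√2 * e p.1 p.2 * (star (x p.1) * x p.2).im) ^ 2 =
      ∑ i, ∑ j, 2 * (star (x i) * x j).im ^ 2 := by
    rw [Fintype.sum_prod_type]
    apply Finset.sum_congr rfl
    intro i _
    apply Finset.sum_congr rfl
    intro j _
    have := he i j
    simp only [mul_pow, this, pow_two √2, h2]
    ring
  have e3 : ∑ p : ι × ι, (√2 * (star (y p.1) * y p.2).im) ^ 2 =
      ∑ i, ∑ j, 2 * (star (y i) * y j).im ^ 2 := by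
    rw [Fintype.sum_prod_type]
    apply Finset.sum_congr rfl
    intro i _
    apply Finset.sum_congr rfl
    intro j _
    simp only [mul_pow, pow_two √2, h2]
  rw [e1, e2, e3] at key
  have h3 : (ev (Sg e) (pv x y)).re ^ 2 ≤
      ((∑ j, Complex.normSq (x j)) * (∑ k, Complex.normSq (y k))) ^ 2 := by
    refine key.trans ?_
    rw [mul_pow]
    exact mul_le_mul (im_sum x) (im_sum y)
      (Finset.sum_nonneg fun _ _ => Finset.sum_nonneg fun _ _ => by positivity) (by positivity)
  exact le_of_abs_le (abs_le_of_sq_le_sq h3 (by positivity))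

/-- The condition on the signs: symmetric, and every pair is in a negative triangle. -/
structure GoodSign (e : ι → ι → ℝ) : Prop where
  symm : ∀ i j, e i j = e j i
  sq : ∀ i j, e i j ^ 2 = 1
  tri : ∀ i j, i ≠ j → ∃ k, k ≠ i ∧ k ≠ j ∧ e i j * e j k * e i k = -1

/-- Zeros supported on two basis vectors. -/
noncomputable def z2 (e : ι → ι → ℝ) (i j : ι) (s : ℝ) : (ι → ℂ) × (ι → ℂ) :=
  (Pi.single i 1 + Pi.single j (s * Complex.I), Pi.single i 1 +
    Pi.single j (s * e i j * Complex.I))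

/-- Zeros supported on three basis vectors. -/
noncomputable def z3 (e : ι → ι → ℝ) (i j k : ι) (s t : ℝ) : (ι → ℂ) × (ι → ℂ) :=
  (Pi.single i 3 + Pi.single j ((4 * s : ℝ) : ℂ) + Pi.single k ((5 * t : ℝ) * Complex.I),
    Pi.single i ((3 * e i k : ℝ) : ℂ) + Pi.single j ((4 * s * e j k : ℝ) : ℂ) +
      Pi.single k ((5 * t : ℝ) * Complex.I))

lemma sum_two {i j : ι} (hij : i ≠ j) (f : ι → ℝ) (hf : ∀ k, k ≠ i → k ≠ j → f k = 0) :
    ∑ k, f k = f i + f j := by
  rw [← Finset.sum_pair hij]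
  symm
  apply Finset.sum_subset (Finset.subset_univ _)
  intro k _ hk
  simp only [Finset.mem_insert, Finset.mem_singleton, not_or] at hk
  exact hf k hk.1 hk.2

lemma sum_three {i j k : ι} (hij : i ≠ j) (hik : i ≠ k) (hjk : j ≠ k) (f : ι → ℝ)
    (hf : ∀ l, l ≠ i → l ≠ j → l ≠ k → f l = 0) :
    ∑ l, f l = f i + f j + f k := by
  have h1 : ({i, j, k} : Finset ι).sum f = f i + f j + f k := by
    rw [Finset.sum_insert (by simp [hij, hik]), Finset.sum_pair hjk, add_assoc]
  rw [← h1]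
  symm
  apply Finset.sum_subset (Finset.subset_univ _)
  intro l _ hl
  simp only [Finset.mem_insert, Finset.mem_singleton, not_or] at hl
  exact hf l hl.1 hl.2.1 hl.2.2

/-- The witness `1 - Sg e`. -/
noncomputable def Wg (e : ι → ι → ℝ) : Matrix (ι × ι) (ι × ι) ℂ := 1 - Sg e

lemma ev_Wg (e : ι → ι → ℝ) (x y : ι → ℂ) : (ev (Wg e) (pv x y)).re =
    (∑ j, Complex.normSq (x j)) * (∑ k, Complex.normSq (y k)) -
      ∑ i, ∑ j, 2 * e i j * ((star (x i) * x j).im * (star (y i) * y j).im) := by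
  rw [← ev_Sg, ← ev_one]
  simp only [ev, Wg, sub_mulVec, dotProduct_sub, Complex.sub_re]

lemma z2_zero {e : ι → ι → ℝ} (he : GoodSign e) {i j : ι} (hij : i ≠ j) {s : ℝ} (hs : s ^ 2 = 1) :
    (ev (Wg e) (pv (z2 e i j s).1 (z2 e i j s).2)).re = 0 := by
  have hee := he.sq i j
  have hji := Ne.symm hij
  have x1 : (z2 e i j s).1 i = 1 := by simp [z2, hij]
  have x2 : (z2 e i j s).1 j = s * Complex.I := by simp [z2, hji]
  have x3 : ∀ k, k ≠ i → k ≠ j → (z2 e i j s).1 k = 0 := by
    intro k h1 h2; simp [z2, h1, h2]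
  have y1 : (z2 e i j s).2 i = 1 := by simp [z2, hij]
  have y2 : (z2 e i j s).2 j = s * e i j * Complex.I := by simp [z2, hji]
  have y3 : ∀ k, k ≠ i → k ≠ j → (z2 e i j s).2 k = 0 := by
    intro k h1 h2; simp [z2, h1, h2]
  rw [ev_Wg]
  have n1 : ∑ k, Complex.normSq ((z2 e i j s).1 k) = 2 := by
    rw [sum_two hij _ (fun k h1 h2 => by rw [x3 k h1 h2]; simp), x1, x2]
    simp only [map_one, Complex.normSq_mul, Complex.normSq_ofReal, Complex.normSq_I]
    linear_combination hs
  have n2 : ∑ k, Complex.normSq ((z2 e i j s).2 k) = 2 := by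
    rw [sum_two hij _ (fun k h1 h2 => by rw [y3 k h1 h2]; simp), y1, y2]
    simp only [map_one, Complex.normSq_mul, Complex.normSq_ofReal, Complex.normSq_I]
    linear_combination hs * (e i j) ^ 2 + hee
  have n3 : ∑ a, ∑ b, 2 * e a b * ((star ((z2 e i j s).1 a) * (z2 e i j s).1 b).im *
      (star ((z2 e i j s).2 a) * (z2 e i j s).2 b).im) = 4 := by
    rw [sum_two hij _ (fun k h1 h2 => by
      apply Finset.sum_eq_zero; intro b _; rw [x3 k h1 h2]; simp),
      sum_two hij _ (fun k h1 h2 => by rw [x3 k h1 h2]; simp),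
      sum_two hij _ (fun k h1 h2 => by rw [x3 k h1 h2]; simp), x1, x2, y1, y2, he.symm j i]
    simp only [Complex.star_def, Complex.mul_im, Complex.conj_re, Complex.conj_im,
      Complex.one_re, Complex.one_im, Complex.mul_re, Complex.ofReal_re, Complex.ofReal_im,
      Complex.I_re, Complex.I_im]
    linear_combination (4 : ℝ) * hs * (e i j) ^ 2 + 4 * hee
  rw [n1, n2, n3]
  norm_num

lemma z3_zero {e : ι → ι → ℝ} (he : GoodSign e) {i j k : ι} (hij : i ≠ j) (hik : i ≠ k)
    (hjk : j ≠ k) {s t : ℝ} (hs : s ^ 2 = 1) (ht : t ^ 2 = 1) :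
    (ev (Wg e) (pv (z3 e i j k s t).1 (z3 e i j k s t).2)).re = 0 := by
  have h1 := he.sq i k
  have h2 := he.sq j k
  have hji := Ne.symm hij
  have hki := Ne.symm hik
  have hkj := Ne.symm hjk
  have x1 : (z3 e i j k s t).1 i = 3 := by simp [z3, hij, hik]
  have x2 : (z3 e i j k s t).1 j = ((4 * s : ℝ) : ℂ) := by simp [z3, hji, hjk]
  have x3 : (z3 e i j k s t).1 k = (5 * t : ℝ) * Complex.I := by simp [z3, hki, hkj]
  have x4 : ∀ l, l ≠ i → l ≠ j → l ≠ k → (z3 e i j k s t).1 l = 0 := by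
    intro l h1 h2 h3; simp [z3, h1, h2, h3]
  have y1 : (z3 e i j k s t).2 i = ((3 * e i k : ℝ) : ℂ) := by simp [z3, hij, hik]
  have y2 : (z3 e i j k s t).2 j = ((4 * s * e j k : ℝ) : ℂ) := by simp [z3, hji, hjk]
  have y3 : (z3 e i j k s t).2 k = (5 * t : ℝ) * Complex.I := by simp [z3, hki, hkj]
  have y4 : ∀ l, l ≠ i → l ≠ j → l ≠ k → (z3 e i j k s t).2 l = 0 := by
    intro l h1 h2 h3; simp [z3, h1, h2, h3]
  rw [ev_Wg]
  have n1 : ∑ l, Complex.normSq ((z3 e i j k s t).1 l) = 50 := by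
    rw [sum_three hij hik hjk _ (fun l a b c => by rw [x4 l a b c]; simp), x1, x2, x3]
    simp only [Complex.normSq_mul, Complex.normSq_ofReal, Complex.normSq_I,
      Complex.normSq_ofNat]
    linear_combination 16 * hs + 25 * ht
  have n2 : ∑ l, Complex.normSq ((z3 e i j k s t).2 l) = 50 := by
    rw [sum_three hij hik hjk _ (fun l a b c => by rw [y4 l a b c]; simp), y1, y2, y3]
    simp only [Complex.normSq_mul, Complex.normSq_ofReal, Complex.normSq_I]
    linear_combination 9 * h1 + 16 * s ^ 2 * h2 + 16 * hs + 25 * ht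
  have n3 : ∑ a, ∑ b, 2 * e a b * ((star ((z3 e i j k s t).1 a) * (z3 e i j k s t).1 b).im *
      (star ((z3 e i j k s t).2 a) * (z3 e i j k s t).2 b).im) = 2500 := by
    rw [sum_three hij hik hjk _ (fun l a b c => by
      apply Finset.sum_eq_zero; intro b _; rw [x4 l a (by assumption) c]; simp),
      sum_three hij hik hjk _ (fun l a b c => by rw [x4 l a b c]; simp),
      sum_three hij hik hjk _ (fun l a b c => by rw [x4 l a b c]; simp),
      sum_three hij hik hjk _ (fun l a b c => by rw [x4 l a b c]; simp), x1, x2, x3, y1, y2, y3,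
      he.symm j i, he.symm k i, he.symm k j]
    simp only [Complex.star_def, Complex.mul_im, Complex.conj_re, Complex.conj_im,
      Complex.re_ofNat, Complex.im_ofNat, Complex.mul_re, Complex.ofReal_re, Complex.ofReal_im,
      Complex.I_re, Complex.I_im]
    linear_combination (900 : ℝ) * t ^ 2 * h1 + 1600 * s ^ 2 * t ^ 2 * h2 + 1600 * t ^ 2 * hs +
      2500 * ht
  rw [n1, n2, n3]
  norm_num

/-- The standard basis vector `|a b⟩`. -/
noncomputable def bv (a b : ι) : ι × ι → ℂ := Pi.single (a, b) 1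

lemma pv_single (a b : ι) (u v : ℂ) : pv (Pi.single a u) (Pi.single b v) = (u * v) • bv a b := by
  ext ⟨c, d⟩
  simp only [pv, bv, Pi.smul_apply, smul_eq_mul, Pi.single_apply, Prod.mk.injEq]
  by_cases h1 : c = a <;> by_cases h2 : d = b <;> simp [h1, h2]

lemma pv_add_left {m n : Type} (x x' : m → ℂ) (y : n → ℂ) :
    pv (x + x') y = pv x y + pv x' y := by
  ext p; simp only [pv, Pi.add_apply]; ring

lemma pv_add_right {m n : Type} (x : m → ℂ) (y y' : n → ℂ) :
    pv x (y + y') = pv x y + pv x y' := by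
  ext p; simp only [pv, Pi.add_apply]; ring

/-- The set of the zeros. -/
def zeroSet (e : ι → ι → ℝ) : Set ((ι → ℂ) × (ι → ℂ)) :=
  {z | (∃ i j s, i ≠ j ∧ s ^ 2 = 1 ∧ z = z2 e i j s) ∨
    (∃ i j k s t, i ≠ j ∧ i ≠ k ∧ j ≠ k ∧ s ^ 2 = 1 ∧ t ^ 2 = 1 ∧ z = z3 e i j k s t)}

lemma zero_span {e : ι → ι → ℝ} (he : GoodSign e) (hι : ∀ i : ι, ∃ j, i ≠ j)
    (P : Matrix (ι × ι) (ι × ι) ℂ) (hP : ∀ z ∈ zeroSet e, P *ᵥ (pv z.1 z.2) = 0) : P = 0 := by
  -- two-point zeros
  have hI2 : Complex.I * Complex.I = -1 := Complex.I_mul_I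
  have h2 : ∀ i j, i ≠ j → ∀ s : ℝ, s ^ 2 = 1 →
      P *ᵥ bv i i + (s * e i j * Complex.I : ℂ) • P *ᵥ bv i j + (s * Complex.I : ℂ) • P *ᵥ bv j i +
        (-(e i j : ℂ)) • P *ᵥ bv j j = 0 := by
    intro i j hij s hs
    have h := hP (z2 e i j s) (Or.inl ⟨i, j, s, hij, hs, rfl⟩)
    have hs' : (s : ℂ) ^ 2 = 1 := by exact_mod_cast hs
    simp only [z2, pv_add_left, pv_add_right, pv_single, mulVec_add, mulVec_smul, one_mul,
      mul_one, one_smul] at h
    have e1 : (s * Complex.I * (s * e i j * Complex.I) : ℂ) = -(e i j : ℂ) := by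
      linear_combination (e i j : ℂ) * s ^ 2 * hI2 - (e i j : ℂ) * hs'
    rw [e1] at h
    rw [← h]
    abel
  have hA : ∀ i j, i ≠ j → P *ᵥ bv i i = (e i j : ℂ) • P *ᵥ bv j j := by
    intro i j hij
    have h1 := h2 i j hij 1 (by norm_num)
    have h3 := h2 i j hij (-1) (by norm_num)
    ext x
    have h1' := congrFun h1 x
    have h3' := congrFun h3 x
    simp only [Pi.add_apply, Pi.smul_apply, smul_eq_mul, Pi.zero_apply, Complex.ofReal_neg,
      Complex.ofReal_one] at h1' h3' ⊢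
    linear_combination (1 / 2 : ℂ) * h1' + (1 / 2 : ℂ) * h3'
  have hB : ∀ i j, i ≠ j → P *ᵥ bv j i = (-(e i j : ℂ)) • P *ᵥ bv i j := by
    intro i j hij
    have h1 := h2 i j hij 1 (by norm_num)
    have h3 := h2 i j hij (-1) (by norm_num)
    ext x
    have h1' := congrFun h1 x
    have h3' := congrFun h3 x
    simp only [Pi.add_apply, Pi.smul_apply, smul_eq_mul, Pi.zero_apply, Complex.ofReal_neg,
      Complex.ofReal_one] at h1' h3' ⊢
    linear_combination (-(1 / 2) * Complex.I : ℂ) * h1' + ((1 / 2) * Complex.I : ℂ) * h3' +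
      ((P *ᵥ bv j i) x + (e i j : ℂ) * (P *ᵥ bv i j) x) * hI2
  -- three-point zeros
  have hC : ∀ i j k, i ≠ j → i ≠ k → j ≠ k →
      (e j k : ℂ) • P *ᵥ bv i j + (e i k : ℂ) • P *ᵥ bv j i = 0 := by
    intro i j k hij hik hjk
    have h3 : ∀ s t : ℝ, s ^ 2 = 1 → t ^ 2 = 1 → ∀ x,
        9 * e i k * (P *ᵥ bv i i) x + 12 * s * e j k * (P *ᵥ bv i j) x +
        15 * t * Complex.I * (P *ᵥ bv i k) x +
        12 * s * e i k * (P *ᵥ bv j i) x + 16 * s ^ 2 * e j k * (P *ᵥ bv j j) x +
        20 * s * t * Complex.I * (P *ᵥ bv j k) x +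
        15 * t * e i k * Complex.I * (P *ᵥ bv k i) x +
        20 * s * t * e j k * Complex.I * (P *ᵥ bv k j) x +
        25 * t ^ 2 * (Complex.I * Complex.I) * (P *ᵥ bv k k) x = 0 := by
      intro s t hs ht x
      have h := congrFun (hP (z3 e i j k s t)
        (Or.inr ⟨i, j, k, s, t, hij, hik, hjk, hs, ht, rfl⟩)) x
      simp only [z3, pv_add_left, pv_add_right, pv_single, mulVec_add, mulVec_smul, Pi.add_apply,
        Pi.smul_apply, smul_eq_mul, Pi.zero_apply, Complex.ofReal_mul, Complex.ofReal_ofNat] at h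
      linear_combination h
    ext x
    have q1 := h3 1 1 (by norm_num) (by norm_num) x
    have q2 := h3 1 (-1) (by norm_num) (by norm_num) x
    have q3 := h3 (-1) 1 (by norm_num) (by norm_num) x
    have q4 := h3 (-1) (-1) (by norm_num) (by norm_num) x
    simp only [Complex.ofReal_neg, Complex.ofReal_one] at q1 q2 q3 q4
    simp only [Pi.add_apply, Pi.smul_apply, smul_eq_mul, Pi.zero_apply]
    linear_combination (1 / 48 : ℂ) * q1 + (1 / 48 : ℂ) * q2 - (1 / 48 : ℂ) * q3 -
      (1 / 48 : ℂ) * q4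
  -- off-diagonal vectors
  have hoff : ∀ i j, i ≠ j → P *ᵥ bv i j = 0 := by
    intro i j hij
    obtain ⟨k, hki, hkj, hk⟩ := he.tri i j hij
    have h1 := hB i j hij
    have h3 := hC i j k hij (Ne.symm hki) (Ne.symm hkj)
    have hk' : (e i j : ℂ) * e j k * e i k = -1 := by exact_mod_cast hk
    have hj : (e j k : ℂ) ^ 2 = 1 := by exact_mod_cast he.sq j k
    ext x
    have h1' := congrFun h1 x
    have h3' := congrFun h3 x
    simp only [Pi.add_apply, Pi.smul_apply, smul_eq_mul, Pi.zero_apply] at h1' h3' ⊢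
    linear_combination (1 / 2 * (e j k : ℂ)) * h3' - (1 / 2 * (e j k : ℂ) * e i k) * h1' -
      (1 / 2 : ℂ) * (P *ᵥ bv i j) x * hj + (1 / 2 : ℂ) * (P *ᵥ bv i j) x * hk'
  -- diagonal vectors
  have hdiag : ∀ i, P *ᵥ bv i i = 0 := by
    intro i
    obtain ⟨j, hij⟩ := hι i
    obtain ⟨k, hki, hkj, hk⟩ := he.tri i j hij
    have h1 := hA i j hij
    have h3 := hA j k (Ne.symm hkj)
    have h4 := hA i k (Ne.symm hki)
    have hk' : (e i j : ℂ) * e j k * e i k = -1 := by exact_mod_cast hk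
    have hi : (e i k : ℂ) ^ 2 = 1 := by exact_mod_cast he.sq i k
    ext x
    have h1' := congrFun h1 x
    have h3' := congrFun h3 x
    have h4' := congrFun h4 x
    simp only [Pi.smul_apply, smul_eq_mul, Pi.zero_apply] at h1' h3' h4' ⊢
    -- P_ii = e_ij e_jk P_kk, P_ii = e_ik P_kk
    have h5 : (P *ᵥ bv i i) x = (e i j : ℂ) * e j k * (P *ᵥ bv k k) x := by
      linear_combination h1' + (e i j : ℂ) * h3'
    linear_combination (1 / 2 : ℂ) * h5 + (1 / 2 : ℂ) * h4' - (1 / 2 : ℂ) * (P *ᵥ bv k k) x *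
      (e i j : ℂ) * e j k * hi + (1 / 2 : ℂ) * (P *ᵥ bv k k) x * e i k * hk'
  ext p ⟨a, b⟩
  have h : P *ᵥ bv a b = 0 := by
    by_cases hab : a = b
    · rw [hab]; exact hdiag b
    · exact hoff a b hab
  have h' := congrFun h p
  simpa [bv] using h'

/-- `1 - Sg e` is an optimal entanglement witness. -/
lemma Wg_optimal {e : ι → ι → ℝ} (he : GoodSign e) {i0 j0 : ι} (hij0 : i0 ≠ j0) :
    IsOptimalEW (Wg e) := by
  apply optimal_of (Z := zeroSet e)
  · exact (Matrix.isHermitian_one).sub (Sg_herm he.symm)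
  · intro x y
    rw [ev_Wg, ← ev_Sg]
    have := Sg_bound he.sq x y
    linarith
  · intro h
    have h1 := congrFun (congrFun h (i0, j0)) (i0, j0)
    simp [Wg, Sg, hij0] at h1
  · rintro z (⟨i, j, s, hij, hs, rfl⟩ | ⟨i, j, k, s, t, hij, hik, hjk, hs, ht, rfl⟩)
    · exact (z2_zero he hij hs).le
    · exact (z3_zero he hij hik hjk hs ht).le
  · intro P hP
    apply zero_span he _ P hP
    intro i
    by_cases h : i = i0
    · exact ⟨j0, h ▸ hij0⟩
    · exact ⟨i0, h⟩

/-- A signing all of whose pairs are in triangles of both signs gives a mirrored pair. -/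
lemma mirrored_of_sign {e : ι → ι → ℝ} (he : GoodSign e) (he' : GoodSign (fun i j => - e i j))
    {i0 j0 : ι} (hij0 : i0 ≠ j0) :
    IsMirroredOptimalPair (Wg e) (Wg (fun i j => - e i j)) := by
  refine ⟨Wg_optimal he hij0, Wg_optimal he' hij0, 2, ?_⟩
  rw [Wg, Wg, Sg_neg]
  ext p q
  simp only [Matrix.add_apply, Matrix.sub_apply, Matrix.neg_apply, Matrix.smul_apply, smul_eq_mul]
  push_cast
  ring

end Signed

end Q233.EW
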