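import Mathlib
import Pool.Agent.Q233.EW
import Pool.Agent.Q233.EW3
import Pool.Agent.Q233.EWn

/-!
# A mirrored pair of optimal entanglement witnesses on `ℂ⁴ ⊗ ℂ⁴`

`K4` is a real symmetric `16 × 16` matrix with entries `0, ±1`, a signed sum of `P ⊗ P̄` over the
ten generators `P` of `sp(2)`. On unit product vectors its expectation value lies between `-1` and
`1`, and both bounds are attained on product vectors that span.
-/

namespace Q233.EW

set_option linter.unusedSectionVars false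

open Matrix
open scoped Kronecker ComplexOrder

/-- Bitwise addition on `{0, 1, 2, 3}`. -/
def xr : Fin 4 → Fin 4 → Fin 4 := ![![0, 1, 2, 3], ![1, 0, 3, 2], ![2, 3, 0, 1], ![3, 2, 1, 0]]

/-- The characters of `(ℤ/2)²`. -/
def cs : Fin 4 → Fin 4 → ℤ := ![![1, 1, 1, 1], ![1, -1, 1, -1], ![1, 1, -1, -1], ![1, -1, -1, 1]]

/-- The entries of `K4`: in the block of `|j, k⟩` with `j + k = r` the entry between elements that
differ by `a` is `tb r a`. -/
def tb : Fin 4 → Fin 4 → ℤ := ![![0, 0, 1, 1], ![1, 1, 1, -1], ![0, 1, -1, 0], ![-1, 0, 1, 0]]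

/-- The operator `K4`. -/
def K4 : Matrix (Fin 4 × Fin 4) (Fin 4 × Fin 4) ℂ := Matrix.of fun p q =>
  if xr p.1 p.2 = xr q.1 q.2 then ((tb (xr p.1 p.2) (xr p.1 q.1) : ℤ) : ℂ) else 0

lemma xr_comm (a b : Fin 4) : xr a b = xr b a := by revert a b; decide

lemma K4_herm : K4.IsHermitian := by
  ext p q
  rw [conjTranspose_apply]
  simp only [K4, Matrix.of_apply]
  by_cases h : xr p.1 p.2 = xr q.1 q.2
  · rw [if_pos h.symm, if_pos h, h, xr_comm q.1 p.1]
    simp
  · rw [if_neg (Ne.symm h), if_neg h, star_zero]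

/-- The ten quadratic forms. -/
noncomputable def hh (v : Fin 4 → ℂ) : Fin 10 → ℝ :=
  ![2 * ((star (v 0) * v 2).re + (star (v 1) * v 3).re),
    Complex.normSq (v 0) + Complex.normSq (v 1) - Complex.normSq (v 2) - Complex.normSq (v 3),
    2 * ((star (v 0) * v 2).im + (star (v 1) * v 3).im),
    2 * ((star (v 0) * v 1).re + (star (v 2) * v 3).re),
    2 * ((star (v 0) * v 2).re - (star (v 1) * v 3).re),
    Complex.normSq (v 0) - Complex.normSq (v 1) - Complex.normSq (v 2) + Complex.normSq (v 3),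
    2 * ((star (v 0) * v 2).im - (star (v 1) * v 3).im),
    2 * ((star (v 0) * v 3).im - (star (v 1) * v 2).im),
    2 * ((star (v 0) * v 1).im - (star (v 2) * v 3).im),
    2 * ((star (v 1) * v 2).re - (star (v 0) * v 3).re)]

/-- The ten signs. -/
def sg4 : Fin 10 → ℝ := ![1, 1, -1, 1, -1, -1, -1, -1, 1, 1]

lemma hh_sq (v : Fin 4 → ℂ) : ∑ k, hh v k ^ 2 = 2 * (∑ j, Complex.normSq (v j)) ^ 2 := by
  simp only [Fin.sum_univ_succ, Fin.sum_univ_zero, hh, Matrix.cons_val_zero,
    Matrix.cons_val_succ, Fin.succ_zero_eq_one, Fin.succ_one_eq_two]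
  simp only [Complex.star_def, Complex.normSq_apply, Complex.mul_re, Complex.mul_im,
    Complex.conj_re, Complex.conj_im, show (Fin.succ (2 : Fin 3) : Fin 4) = 3 from rfl]
  ring

lemma ev_K4 (x y : Fin 4 → ℂ) : (ev K4 (pv x y)).re = 1 / 2 * ∑ k, sg4 k * hh x k * hh y k := by
  simp only [ev, pv, K4, dotProduct, mulVec, Fintype.sum_prod_type, Fin.sum_univ_four,
    Matrix.of_apply, Pi.star_apply, star_mul',
    show xr 0 0 = 0 from rfl, show xr 0 1 = 1 from rfl, show xr 0 2 = 2 from rfl,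
    show xr 0 3 = 3 from rfl, show xr 1 0 = 1 from rfl, show xr 1 1 = 0 from rfl,
    show xr 1 2 = 3 from rfl, show xr 1 3 = 2 from rfl, show xr 2 0 = 2 from rfl,
    show xr 2 1 = 3 from rfl, show xr 2 2 = 0 from rfl, show xr 2 3 = 1 from rfl,
    show xr 3 0 = 3 from rfl, show xr 3 1 = 2 from rfl, show xr 3 2 = 1 from rfl,
    show xr 3 3 = 0 from rfl,
    show ((0 : Fin 4) = 1) = False by decide, show ((0 : Fin 4) = 2) = False by decide,
    show ((0 : Fin 4) = 3) = False by decide, show ((1 : Fin 4) = 0) = False by decide,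
    show ((1 : Fin 4) = 2) = False by decide, show ((1 : Fin 4) = 3) = False by decide,
    show ((2 : Fin 4) = 0) = False by decide, show ((2 : Fin 4) = 1) = False by decide,
    show ((2 : Fin 4) = 3) = False by decide, show ((3 : Fin 4) = 0) = False by decide,
    show ((3 : Fin 4) = 1) = False by decide, show ((3 : Fin 4) = 2) = False by decide,
    if_true, if_false, zero_mul, add_zero, zero_add,
    show tb 0 0 = 0 from rfl, show tb 0 1 = 0 from rfl, show tb 0 2 = 1 from rfl,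
    show tb 0 3 = 1 from rfl, show tb 1 0 = 1 from rfl, show tb 1 1 = 1 from rfl,
    show tb 1 2 = 1 from rfl, show tb 1 3 = -1 from rfl, show tb 2 0 = 0 from rfl,
    show tb 2 1 = 1 from rfl, show tb 2 2 = -1 from rfl, show tb 2 3 = 0 from rfl,
    show tb 3 0 = -1 from rfl, show tb 3 1 = 0 from rfl, show tb 3 2 = 1 from rfl,
    show tb 3 3 = 0 from rfl, Int.cast_zero, Int.cast_one, Int.cast_neg, neg_mul, one_mul]
  simp only [Fin.sum_univ_succ, Fin.sum_univ_zero, hh, sg4, Matrix.cons_val_zero,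
    Matrix.cons_val_succ]
  simp only [Complex.star_def, Complex.normSq_apply, Complex.mul_re, Complex.mul_im,
    Complex.conj_re, Complex.conj_im, Complex.add_re, Complex.add_im, Complex.neg_re,
    Complex.neg_im]
  ring

lemma K4_bound (x y : Fin 4 → ℂ) : |(ev K4 (pv x y)).re| ≤
    (∑ j, Complex.normSq (x j)) * (∑ k, Complex.normSq (y k)) := by
  have hx : 0 ≤ ∑ j, Complex.normSq (x j) := Finset.sum_nonneg fun _ _ => Complex.normSq_nonneg _
  have hy : 0 ≤ ∑ j, Complex.normSq (y j) := Finset.sum_nonneg fun _ _ => Complex.normSq_nonneg _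
  have key := Finset.sum_mul_sq_le_sq_mul_sq (Finset.univ : Finset (Fin 10))
    (fun k => sg4 k * hh x k) (fun k => hh y k)
  have e1 : ∑ k, (sg4 k * hh x k) ^ 2 = ∑ k, hh x k ^ 2 := by
    apply Finset.sum_congr rfl
    intro k _
    have : sg4 k ^ 2 = 1 := by fin_cases k <;> norm_num [sg4]
    rw [mul_pow, this, one_mul]
  rw [e1, hh_sq, hh_sq] at key
  have h3 : (ev K4 (pv x y)).re ^ 2 ≤
      ((∑ j, Complex.normSq (x j)) * (∑ k, Complex.normSq (y k))) ^ 2 := by
    rw [ev_K4, mul_pow]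
    refine (mul_le_mul_of_nonneg_left key (by positivity)).trans (le_of_eq ?_)
    ring
  exact abs_le_of_sq_le_sq h3 (by positivity)

/-! ### Symmetries and the spanning property -/

/-- Orbits under the symmetries. -/
noncomputable def orb4 (x : Fin 4 → ℂ) (s c : Fin 4) : Fin 4 → ℂ :=
  fun j => ((cs s j : ℤ) : ℂ) * x (xr j c)

lemma pv_orb4 (x y : Fin 4 → ℂ) (s c : Fin 4) (p : Fin 4 × Fin 4) :
    pv (orb4 x s c) (orb4 y s c) p = ((cs s (xr p.1 p.2) : ℤ) : ℂ) *
      (x (xr p.1 c) * y (xr p.2 c)) := by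
  have h : cs s (xr p.1 p.2) = cs s p.1 * cs s p.2 := by
    obtain ⟨j, k⟩ := p
    revert s j k
    decide
  rw [h]
  simp only [pv, orb4]
  push_cast
  ring

/-- Translation by `c` in both factors. -/
def tr4 (c : Fin 4) : Fin 4 × Fin 4 ≃ Fin 4 × Fin 4 where
  toFun p := (xr p.1 c, xr p.2 c)
  invFun p := (xr p.1 c, xr p.2 c)
  left_inv p := by
    obtain ⟨j, k⟩ := p
    revert c j k
    decide
  right_inv p := by
    obtain ⟨j, k⟩ := p
    revert c j k
    decide

lemma ev_K4_orb (x y : Fin 4 → ℂ) (s c : Fin 4) :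
    ev K4 (pv (orb4 x s c) (orb4 y s c)) = ev K4 (pv x y) := by
  simp only [ev, dotProduct, mulVec, Finset.mul_sum]
  rw [← Equiv.sum_comp (tr4 c) (fun p => ∑ q, star (pv x y) p * (K4 p q * pv x y q))]
  apply Finset.sum_congr rfl
  intro p _
  rw [← Equiv.sum_comp (tr4 c) (fun q => star (pv x y) (tr4 c p) * (K4 (tr4 c p) q * pv x y q))]
  apply Finset.sum_congr rfl
  intro q _
  have hsub : ∀ a b : Fin 4, xr (xr a c) (xr b c) = xr a b := by
    revert c
    decide
  have hT : K4 (tr4 c p) (tr4 c q) = K4 p q := by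
    simp only [K4, Matrix.of_apply, tr4, Equiv.coe_fn_mk, hsub]
  rw [hT, Pi.star_apply, Pi.star_apply, pv_orb4, pv_orb4, star_mul']
  simp only [tr4, Equiv.coe_fn_mk, pv]
  by_cases h : xr p.1 p.2 = xr q.1 q.2
  · rw [h]
    have h1 : star (((cs s (xr q.1 q.2) : ℤ) : ℂ)) * ((cs s (xr q.1 q.2) : ℤ) : ℂ) = 1 := by
      have : cs s (xr q.1 q.2) * cs s (xr q.1 q.2) = 1 := by
        generalize xr q.1 q.2 = z
        revert s z; decide
      rw [star_intCast]
      exact_mod_cast this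
    linear_combination (star (x (xr p.1 c) * y (xr p.2 c)) * (K4 p q *
      (x (xr q.1 c) * y (xr q.2 c)))) * h1
  · have h2 : K4 p q = 0 := by
      simp only [K4, Matrix.of_apply, if_neg h]
    rw [h2]; ring

lemma ev_one_orb4 (x y : Fin 4 → ℂ) (s c : Fin 4) :
    ev 1 (pv (orb4 x s c) (orb4 y s c)) = ev 1 (pv x y) := by
  simp only [ev, one_mulVec, dotProduct]
  rw [← Equiv.sum_comp (tr4 c) (fun p => star (pv x y) p * (pv x y p))]
  apply Finset.sum_congr rfl
  intro p _
  rw [Pi.star_apply, Pi.star_apply, pv_orb4, star_mul']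
  simp only [tr4, Equiv.coe_fn_mk, pv]
  have h1 : star (((cs s (xr p.1 p.2) : ℤ) : ℂ)) * ((cs s (xr p.1 p.2) : ℤ) : ℂ) = 1 := by
    have : cs s (xr p.1 p.2) * cs s (xr p.1 p.2) = 1 := by
      generalize xr p.1 p.2 = z
      revert s z; decide
    rw [star_intCast]
    exact_mod_cast this
  linear_combination (star (x (xr p.1 c) * y (xr p.2 c)) * (x (xr p.1 c) * y (xr p.2 c))) * h1

/-- Orthogonality of the characters. -/
lemma cs_orth (r d : Fin 4) : ∑ s, cs s r * cs s d = if d = r then 4 else 0 := by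
  revert r d; decide

/-- The Bell overlaps. -/
noncomputable def bell (x y : Fin 4 → ℂ) (r χ : Fin 4) : ℂ :=
  ∑ j, ((cs χ j : ℤ) : ℂ) * (x j * y (xr j r))

/-- The spanning property of the orbits of a family of product vectors. -/
lemma span_orb4 {m κ : Type} (P : Matrix m (Fin 4 × Fin 4) ℂ) (x y : κ → Fin 4 → ℂ)
    (hz : ∀ k s c, P *ᵥ (pv (orb4 (x k) s c) (orb4 (y k) s c)) = 0)
    (hcov : ∀ r χ : Fin 4, ∃ k, bell (x k) (y k) r χ ≠ 0) : P = 0 := by
  -- the components of the orbit in the blocks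
  have h1 : ∀ k, ∀ r c : Fin 4, P *ᵥ (fun p => if xr p.1 p.2 = r then
      x k (xr p.1 c) * y k (xr p.2 c) else 0) = 0 := by
    intro k r c
    have e1 : (fun p : Fin 4 × Fin 4 => if xr p.1 p.2 = r then
        x k (xr p.1 c) * y k (xr p.2 c) else 0) =
        ∑ s, ((1 / 4 : ℂ) * ((cs s r : ℤ) : ℂ)) • pv (orb4 (x k) s c) (orb4 (y k) s c) := by
      ext p
      rw [Finset.sum_apply]
      simp only [Pi.smul_apply, smul_eq_mul, pv_orb4]
      have := cs_orth r (xr p.1 p.2)
      have h' : ∑ s, ((cs s r : ℤ) : ℂ) * ((cs s (xr p.1 p.2) : ℤ) : ℂ) =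
          if xr p.1 p.2 = r then 4 else 0 := by
        have h2 : ((∑ s, cs s r * cs s (xr p.1 p.2) : ℤ) : ℂ) =
            ((if xr p.1 p.2 = r then 4 else 0 : ℤ) : ℂ) := by rw [this]
        push_cast at h2
        rw [h2]
      calc (if xr p.1 p.2 = r then x k (xr p.1 c) * y k (xr p.2 c) else 0)
          = (1 / 4) * (if xr p.1 p.2 = r then 4 else 0) *
              (x k (xr p.1 c) * y k (xr p.2 c)) := by
            split_ifs <;> ring
        _ = _ := by
            rw [← h', Finset.mul_sum, Finset.sum_mul]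
            apply Finset.sum_congr rfl
            intro s _
            ring
    rw [e1, mulVec_sum]
    apply Finset.sum_eq_zero
    intro s _
    rw [mulVec_smul, hz, smul_zero]
  -- the Bell vectors
  have h2 : ∀ r χ : Fin 4, P *ᵥ (fun p => if xr p.1 p.2 = r then ((cs χ p.1 : ℤ) : ℂ) else 0)
      = 0 := by
    intro r χ
    obtain ⟨k, hk⟩ := hcov r χ
    have e2 : (bell (x k) (y k) r χ) • (fun p : Fin 4 × Fin 4 =>
        if xr p.1 p.2 = r then ((cs χ p.1 : ℤ) : ℂ) else 0) =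
        ∑ c, ((cs χ c : ℤ) : ℂ) • (fun p : Fin 4 × Fin 4 => if xr p.1 p.2 = r then
          x k (xr p.1 c) * y k (xr p.2 c) else 0) := by
      ext p
      rw [Finset.sum_apply]
      simp only [Pi.smul_apply, smul_eq_mul]
      by_cases hp : xr p.1 p.2 = r
      · simp only [if_pos hp]
        rw [bell, Finset.sum_mul]
        have hinv : ∀ c, xr p.1 (xr p.1 c) = c := by
          intro c; generalize p.1 = a; revert a c; decide
        rw [← Equiv.sum_comp (⟨fun c => xr p.1 c, fun c => xr p.1 c, hinv, hinv⟩ :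
          Fin 4 ≃ Fin 4) (fun j => ((cs χ j : ℤ) : ℂ) * (x k j * y k (xr j r)) *
            ((cs χ p.1 : ℤ) : ℂ))]
        apply Finset.sum_congr rfl
        intro c _
        simp only [Equiv.coe_fn_mk]
        have a0 : ∀ χ a c : Fin 4, cs χ (xr a c) * cs χ a = cs χ c := by decide
        have a1 : cs χ (xr p.1 c) * cs χ p.1 = cs χ c := a0 _ _ _
        have a2 : xr (xr p.1 c) r = xr p.2 c := by
          obtain ⟨a, b⟩ := p
          simp only at hp ⊢
          subst hp
          clear * -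
          revert a b c; decide
        rw [a2]
        have a1' : ((cs χ (xr p.1 c) : ℤ) : ℂ) * ((cs χ p.1 : ℤ) : ℂ) = ((cs χ c : ℤ) : ℂ) := by
          exact_mod_cast a1
        linear_combination (x k (xr p.1 c) * y k (xr p.2 c)) * a1'
      · simp only [if_neg hp, mul_zero, Finset.sum_const_zero]
    have h3 : (bell (x k) (y k) r χ) • (P *ᵥ (fun p : Fin 4 × Fin 4 =>
        if xr p.1 p.2 = r then ((cs χ p.1 : ℤ) : ℂ) else 0)) = 0 := by
      rw [← mulVec_smul, e2, mulVec_sum]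
      apply Finset.sum_eq_zero
      intro c _
      rw [mulVec_smul, h1, smul_zero]
    exact (smul_eq_zero.1 h3).resolve_left hk
  -- the standard basis
  ext i p
  have h4 : P *ᵥ (Pi.single p 1) = 0 := by
    have e2 : (Pi.single p (1 : ℂ) : Fin 4 × Fin 4 → ℂ) = ∑ χ, ((1 / 4 : ℂ) *
        ((cs χ p.1 : ℤ) : ℂ)) • (fun q : Fin 4 × Fin 4 => if xr q.1 q.2 = xr p.1 p.2 then
          ((cs χ q.1 : ℤ) : ℂ) else 0) := by
      ext q
      rw [Finset.sum_apply]
      simp only [Pi.smul_apply, smul_eq_mul]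
      rw [Pi.single_apply]
      by_cases hq : xr q.1 q.2 = xr p.1 p.2
      · simp only [if_pos hq]
        have h5 := cs_orth p.1 q.1
        have h6 : ∑ χ, ((cs χ p.1 : ℤ) : ℂ) * ((cs χ q.1 : ℤ) : ℂ) =
            if q.1 = p.1 then 4 else 0 := by
          have h7 : ((∑ χ, cs χ p.1 * cs χ q.1 : ℤ) : ℂ) =
              ((if q.1 = p.1 then 4 else 0 : ℤ) : ℂ) := by rw [h5]
          push_cast at h7
          rw [h7]
        have h8 : (q = p) = (q.1 = p.1) := by
          obtain ⟨a, b⟩ := p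
          obtain ⟨a', b'⟩ := q
          simp only [Prod.mk.injEq, eq_iff_iff] at hq ⊢
          clear * - hq
          revert a a' b b'
          decide
        simp only [h8]
        calc (if q.1 = p.1 then (1 : ℂ) else 0) = (1 / 4) * (if q.1 = p.1 then 4 else 0) := by
              split_ifs <;> ring
          _ = _ := by
              rw [← h6, Finset.mul_sum]
              apply Finset.sum_congr rfl
              intro χ _
              ring
      · simp only [if_neg hq, mul_zero, Finset.sum_const_zero]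
        rw [if_neg]
        rintro rfl
        exact hq rfl
    rw [e2, mulVec_sum]
    apply Finset.sum_eq_zero
    intro c _
    rw [mulVec_smul, h2, smul_zero]
  have h3 := congrFun h4 i
  simpa using h3

/-! ### The two witnesses -/

/-- The witness `1 - K4`. -/
noncomputable def W4 : Matrix (Fin 4 × Fin 4) (Fin 4 × Fin 4) ℂ := 1 - K4

/-- The witness `1 + K4`. -/
noncomputable def M4 : Matrix (Fin 4 × Fin 4) (Fin 4 × Fin 4) ℂ := 1 + K4

lemma ev_W4 (v : Fin 4 × Fin 4 → ℂ) : (ev W4 v).re = (ev 1 v).re - (ev K4 v).re := by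
  simp only [ev, W4, sub_mulVec, dotProduct_sub, Complex.sub_re]

lemma ev_M4 (v : Fin 4 × Fin 4 → ℂ) : (ev M4 v).re = (ev 1 v).re + (ev K4 v).re := by
  simp only [ev, M4, add_mulVec, dotProduct_add, Complex.add_re]

/-- Zeros of `W4`, first factors. -/
noncomputable def xW4 : Fin 8 → Fin 4 → ℂ :=
  ![![0, 0, 0, 1], ![0, 0, 1, 1], ![0, 0, 1, Complex.I], ![0, 1, 0, 1], ![0, 1, 1, 0],
    ![0, 1, Complex.I, 0], ![1, 1, Complex.I, Complex.I], ![1, Complex.I, Complex.I, -1]]

/-- Zeros of `W4`, second factors. -/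
noncomputable def yW4 : Fin 8 → Fin 4 → ℂ :=
  ![![0, 0, 1, 0], ![0, 0, 1, 1], ![0, 0, 1, Complex.I], ![1, 0, 1, 0], ![1, 0, 0, -1],
    ![1, 0, 0, Complex.I], ![1, 1, -Complex.I, -Complex.I], ![1, -Complex.I, -Complex.I, -1]]

/-- Zeros of `M4`, first factors. -/
noncomputable def xM4 : Fin 8 → Fin 4 → ℂ :=
  ![![0, 0, 1, 1], ![0, 1, 0, 1], ![0, 1, 0, Complex.I], ![0, 1, Complex.I, 0],
    ![1, 1, Complex.I, -Complex.I], ![1, Complex.I, 1, Complex.I],
    ![1, Complex.I, 1, -Complex.I], ![1, Complex.I, Complex.I, 1]]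

/-- Zeros of `M4`, second factors. -/
noncomputable def yM4 : Fin 8 → Fin 4 → ℂ :=
  ![![1, -1, 0, 0], ![1, 0, -1, 0], ![0, 1, 0, Complex.I], ![0, 1, Complex.I, 0],
    ![1, 1, Complex.I, -Complex.I], ![1, -Complex.I, -1, Complex.I],
    ![1, -Complex.I, 1, Complex.I], ![1, -Complex.I, Complex.I, -1]]

lemma W4_zero (k : Fin 8) : (ev W4 (pv (xW4 k) (yW4 k))).re = 0 := by
  rw [ev_W4, ev_one, ev_K4]
  simp only [Fin.sum_univ_succ, Fin.sum_univ_zero, hh, sg4, Matrix.cons_val_zero,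
    Matrix.cons_val_succ]
  fin_cases k <;> simp [xW4, yW4] <;> norm_num

lemma M4_zero (k : Fin 8) : (ev M4 (pv (xM4 k) (yM4 k))).re = 0 := by
  rw [ev_M4, ev_one, ev_K4]
  simp only [Fin.sum_univ_succ, Fin.sum_univ_zero, hh, sg4, Matrix.cons_val_zero,
    Matrix.cons_val_succ]
  fin_cases k <;> simp [xM4, yM4] <;> norm_num

/-- Which zero of `W4` is used for which Bell vector. -/
def tW : Fin 4 → Fin 4 → Fin 8 := ![![1, 2, 1, 2], ![0, 0, 0, 0], ![5, 4, 4, 5], ![3, 3, 6, 7]]

/-- Which zero of `M4` is used for which Bell vector. -/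
def tM : Fin 4 → Fin 4 → Fin 8 := ![![6, 3, 2, 2], ![4, 7, 1, 1], ![2, 0, 5, 0], ![3, 0, 1, 0]]

lemma W4_cov (r χ : Fin 4) : bell (xW4 (tW r χ)) (yW4 (tW r χ)) r χ ≠ 0 := by
  fin_cases r <;> fin_cases χ <;>
    simp [bell, Fin.sum_univ_four, tW, cs, xr, xW4, yW4] <;> ring_nf <;> simp

lemma M4_cov (r χ : Fin 4) : bell (xM4 (tM r χ)) (yM4 (tM r χ)) r χ ≠ 0 := by
  fin_cases r <;> fin_cases χ <;>
    simp [bell, Fin.sum_univ_four, tM, cs, xr, xM4, yM4] <;> ring_nf <;> simp

lemma W4_optimal : IsOptimalEW W4 := by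
  apply optimal_of (Z := Set.range (fun z : Fin 8 × Fin 4 × Fin 4 =>
    (orb4 (xW4 z.1) z.2.1 z.2.2, orb4 (yW4 z.1) z.2.1 z.2.2)))
  · exact (Matrix.isHermitian_one).sub K4_herm
  · intro x y
    rw [ev_W4, ev_one]
    have := (abs_le.1 (K4_bound x y)).2
    linarith
  · intro h
    have h1 := congrFun (congrFun h (0, 0)) (0, 0)
    simp [W4, K4, xr, tb] at h1
  · rintro _ ⟨⟨k, s, c⟩, rfl⟩
    simp only
    rw [ev_W4, ev_K4_orb, ev_one_orb4, ← ev_W4, W4_zero]
  · intro P hP
    apply span_orb4 P xW4 yW4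
    · intro k s c
      exact hP _ ⟨(k, s, c), rfl⟩
    · intro r χ
      exact ⟨_, W4_cov r χ⟩

lemma M4_optimal : IsOptimalEW M4 := by
  apply optimal_of (Z := Set.range (fun z : Fin 8 × Fin 4 × Fin 4 =>
    (orb4 (xM4 z.1) z.2.1 z.2.2, orb4 (yM4 z.1) z.2.1 z.2.2)))
  · exact (Matrix.isHermitian_one).add K4_herm
  · intro x y
    rw [ev_M4, ev_one]
    have := (abs_le.1 (K4_bound x y)).1
    linarith
  · intro h
    have h1 := congrFun (congrFun h (0, 0)) (0, 0)
    simp [M4, K4, xr, tb] at h1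
  · rintro _ ⟨⟨k, s, c⟩, rfl⟩
    simp only
    rw [ev_M4, ev_K4_orb, ev_one_orb4, ← ev_M4, M4_zero]
  · intro P hP
    apply span_orb4 P xM4 yM4
    · intro k s c
      exact hP _ ⟨(k, s, c), rfl⟩
    · intro r χ
      exact ⟨_, M4_cov r χ⟩

/-- A mirrored pair in dimension four. -/
lemma mirrored_four :
    ∃ W M : Matrix (Fin 4 × Fin 4) (Fin 4 × Fin 4) ℂ, IsMirroredOptimalPair W M := by
  refine ⟨W4, M4, W4_optimal, M4_optimal, 2, ?_⟩
  ext p q
  simp only [W4, M4, Matrix.add_apply, Matrix.sub_apply, Matrix.smul_apply, smul_eq_mul]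
  push_cast
  ring

end Q233.EW
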