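import Mathlib
import Pool.Agent.Q233.EW
import Pool.Agent.Q233.EW3
import Pool.Agent.Q233.EWn

/-!
# Signings of complete graphs with every pair in triangles of both signs, `n ≥ 5` vertices
-/

namespace Q233.EW

open Matrix

/-- The sign function of a Boolean relation. -/
noncomputable def sgn {n : ℕ} (b : Fin n → Fin n → Bool) (i j : Fin n) : ℝ :=
  if b i j then -1 else 1

/-- Symmetric Boolean relations such that every pair is in triangles of both parities. -/
structure GoodRel {n : ℕ} (b : Fin n → Fin n → Bool) : Prop where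
  symm : ∀ i j, b i j = b j i
  odd : ∀ i j, i ≠ j → ∃ k, k ≠ i ∧ k ≠ j ∧ (b i j ^^ b j k ^^ b i k) = true
  even : ∀ i j, i ≠ j → ∃ k, k ≠ i ∧ k ≠ j ∧ (b i j ^^ b j k ^^ b i k) = false

lemma GoodRel.good {n : ℕ} {b : Fin n → Fin n → Bool} (h : GoodRel b) :
    GoodSign (sgn b) ∧ GoodSign (fun i j => - sgn b i j) := by
  refine ⟨⟨?_, ?_, ?_⟩, ⟨?_, ?_, ?_⟩⟩
  · intro i j; rw [sgn, sgn, h.symm]
  · intro i j; rw [sgn]; split_ifs <;> norm_num
  · intro i j hij
    obtain ⟨k, h1, h2, h3⟩ := h.odd i j hij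
    refine ⟨k, h1, h2, ?_⟩
    simp only [sgn]
    cases h4 : b i j <;> cases h5 : b j k <;> cases h6 : b i k <;> simp_all
  · intro i j; rw [sgn, sgn, h.symm]
  · intro i j; rw [sgn]; split_ifs <;> norm_num
  · intro i j hij
    obtain ⟨k, h1, h2, h3⟩ := h.even i j hij
    refine ⟨k, h1, h2, ?_⟩
    simp only [sgn]
    cases h4 : b i j <;> cases h5 : b j k <;> cases h6 : b i k <;> simp_all

lemma rel5 : ∃ b : Fin 5 → Fin 5 → Bool, GoodRel b := by
  refine ⟨fun i j => decide (j = i + 1 ∨ i = j + 1), ⟨?_, ?_, ?_⟩⟩ <;> decide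

lemma rel6 : ∃ b : Fin 6 → Fin 6 → Bool, GoodRel b := by
  refine ⟨fun i j => decide (i.val < 5 ∧ j.val < 5 ∧ ((j.val = (i.val + 1) % 5) ∨
    (i.val = (j.val + 1) % 5))), ⟨?_, ?_, ?_⟩⟩ <;> decide

/-- The path. -/
def path (n : ℕ) (i j : Fin n) : Bool := decide (i.val + 1 = j.val ∨ j.val + 1 = i.val)

lemma path_eq {n : ℕ} (i j : Fin n) : path n i j = true ↔ (i.val + 1 = j.val ∨ j.val + 1 = i.val) := by
  simp [path]

lemma path_ne {n : ℕ} (i j : Fin n) :
    path n i j = false ↔ ¬ (i.val + 1 = j.val ∨ j.val + 1 = i.val) := by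
  simp [path]

lemma path_symm {n : ℕ} (i j : Fin n) : path n i j = path n j i := by
  simp only [path, or_comm]

lemma path_wit {n : ℕ} (hn : 7 ≤ n) (i j : Fin n) (hij : i.val < j.val) :
    (∃ k, k ≠ i ∧ k ≠ j ∧ (path n i j ^^ path n j k ^^ path n i k) = true) ∧
    (∃ k, k ≠ i ∧ k ≠ j ∧ (path n i j ^^ path n j k ^^ path n i k) = false) := by
  obtain ⟨i, hi⟩ := i
  obtain ⟨j, hj⟩ := j
  simp only at hij
  have key : ∀ k, (hk : k < n) → k ≠ i → k ≠ j → ∀ v : Bool,
      ((decide (i + 1 = j ∨ j + 1 = i) ^^ decide (j + 1 = k ∨ k + 1 = j) ^^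
        decide (i + 1 = k ∨ k + 1 = i)) = v) →
      ∃ k : Fin n, k ≠ ⟨i, hi⟩ ∧ k ≠ ⟨j, hj⟩ ∧
        (path n ⟨i, hi⟩ ⟨j, hj⟩ ^^ path n ⟨j, hj⟩ k ^^ path n ⟨i, hi⟩ k) = v := by
    intro k hk h1 h2 v h3
    refine ⟨⟨k, hk⟩, ?_, ?_, ?_⟩
    · simpa [Fin.ext_iff] using h1
    · simpa [Fin.ext_iff] using h2
    · simpa [path] using h3
  have ht : ∀ p : Prop, [Decidable p] → p → decide p = true := fun p _ h => decide_eq_true h
  have hf : ∀ p : Prop, [Decidable p] → ¬ p → decide p = false := fun p _ h => decide_eq_false h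
  rcases Nat.lt_or_ge (i + 1) j with h1 | h1
  · rcases Nat.lt_or_ge (i + 2) j with h2 | h2
    · -- distance at least 3
      constructor
      · apply key (i + 1) (by omega) (by omega) (by omega)
        rw [hf _ (by omega : ¬ (i + 1 = j ∨ j + 1 = i)),
          hf _ (by omega : ¬ (j + 1 = i + 1 ∨ i + 1 + 1 = j)),
          ht _ (by omega : (i + 1 = i + 1 ∨ i + 1 + 1 = i))]
        rfl
      · have : ∃ k, k < n ∧ k ≠ i ∧ k ≠ j ∧ ¬ (j + 1 = k ∨ k + 1 = j) ∧
            ¬ (i + 1 = k ∨ k + 1 = i) := by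
          rcases Nat.lt_or_ge i 2 with h3 | h3
          · rcases Nat.lt_or_ge j (n - 2) with h4 | h4
            · exact ⟨n - 1, by omega, by omega, by omega, by omega, by omega⟩
            · exact ⟨i + 2, by omega, by omega, by omega, by omega, by omega⟩
          · exact ⟨0, by omega, by omega, by omega, by omega, by omega⟩
        obtain ⟨k, hk, a1, a2, a3, a4⟩ := this
        apply key k hk a1 a2
        rw [hf _ (by omega : ¬ (i + 1 = j ∨ j + 1 = i)), hf _ a3, hf _ a4]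
        rfl
    · -- distance 2
      have h3 : j = i + 2 := by omega
      subst h3
      constructor
      · have : ∃ k, k < n ∧ k ≠ i ∧ k ≠ i + 2 ∧
            ((¬ (i + 2 + 1 = k ∨ k + 1 = i + 2) ∧ (i + 1 = k ∨ k + 1 = i)) ∨
              ((i + 2 + 1 = k ∨ k + 1 = i + 2) ∧ ¬ (i + 1 = k ∨ k + 1 = i))) := by
          rcases Nat.eq_zero_or_pos i with h4 | h4
          · exact ⟨i + 3, by omega, by omega, by omega, by omega⟩
          · exact ⟨i - 1, by omega, by omega, by omega, by omega⟩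
        obtain ⟨k, hk, a1, a2, a3⟩ := this
        apply key k hk a1 a2
        rcases a3 with ⟨a3, a4⟩ | ⟨a3, a4⟩
        · rw [hf _ (by omega : ¬ (i + 1 = i + 2 ∨ i + 2 + 1 = i)), hf _ a3, ht _ a4]
          rfl
        · rw [hf _ (by omega : ¬ (i + 1 = i + 2 ∨ i + 2 + 1 = i)), ht _ a3, hf _ a4]
          rfl
      · apply key (i + 1) (by omega) (by omega) (by omega)
        rw [hf _ (by omega : ¬ (i + 1 = i + 2 ∨ i + 2 + 1 = i)),
          ht _ (by omega : (i + 2 + 1 = i + 1 ∨ i + 1 + 1 = i + 2)),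
          ht _ (by omega : (i + 1 = i + 1 ∨ i + 1 + 1 = i))]
        rfl
  · -- distance 1
    have h3 : j = i + 1 := by omega
    subst h3
    constructor
    · have : ∃ k, k < n ∧ k ≠ i ∧ k ≠ i + 1 ∧ ¬ (i + 1 + 1 = k ∨ k + 1 = i + 1) ∧
            ¬ (i + 1 = k ∨ k + 1 = i) := by
        rcases Nat.lt_or_ge i 2 with h4 | h4
        · exact ⟨i + 3, by omega, by omega, by omega, by omega, by omega⟩
        · exact ⟨0, by omega, by omega, by omega, by omega, by omega⟩
      obtain ⟨k, hk, a1, a2, a3, a4⟩ := this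
      apply key k hk a1 a2
      rw [ht _ (by omega : (i + 1 = i + 1 ∨ i + 1 + 1 = i)), hf _ a3, hf _ a4]
      rfl
    · have : ∃ k, k < n ∧ k ≠ i ∧ k ≠ i + 1 ∧
            ((¬ (i + 1 + 1 = k ∨ k + 1 = i + 1) ∧ (i + 1 = k ∨ k + 1 = i)) ∨
              ((i + 1 + 1 = k ∨ k + 1 = i + 1) ∧ ¬ (i + 1 = k ∨ k + 1 = i))) := by
        rcases Nat.lt_or_ge (i + 2) n with h4 | h4
        · exact ⟨i + 2, by omega, by omega, by omega, by omega⟩
        · exact ⟨i - 1, by omega, by omega, by omega, by omega⟩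
      obtain ⟨k, hk, a1, a2, a3⟩ := this
      apply key k hk a1 a2
      rcases a3 with ⟨a3, a4⟩ | ⟨a3, a4⟩
      · rw [ht _ (by omega : (i + 1 = i + 1 ∨ i + 1 + 1 = i)), hf _ a3, ht _ a4]
        rfl
      · rw [ht _ (by omega : (i + 1 = i + 1 ∨ i + 1 + 1 = i)), ht _ a3, hf _ a4]
        rfl

lemma rel7 {n : ℕ} (hn : 7 ≤ n) : GoodRel (path n) := by
  have hx : ∀ a b c : Bool, (a ^^ b ^^ c) = (a ^^ c ^^ b) := by decide
  refine ⟨path_symm, ?_, ?_⟩
  · intro i j hij
    rcases Nat.lt_or_ge i.val j.val with h | h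
    · exact (path_wit hn i j h).1
    · have h' : j.val < i.val := lt_of_le_of_ne h (fun h => hij (Fin.ext h.symm))
      obtain ⟨k, h1, h2, h3⟩ := (path_wit hn j i h').1
      refine ⟨k, h2, h1, ?_⟩
      rw [hx, path_symm i j]
      exact h3
  · intro i j hij
    rcases Nat.lt_or_ge i.val j.val with h | h
    · exact (path_wit hn i j h).2
    · have h' : j.val < i.val := lt_of_le_of_ne h (fun h => hij (Fin.ext h.symm))
      obtain ⟨k, h1, h2, h3⟩ := (path_wit hn j i h').2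
      refine ⟨k, h2, h1, ?_⟩
      rw [hx, path_symm i j]
      exact h3

/-- Mirrored pairs of optimal witnesses in all dimensions at least five. -/
lemma mirrored_ge5 {n : ℕ} (hn : 5 ≤ n) :
    ∃ W M : Matrix (Fin n × Fin n) (Fin n × Fin n) ℂ, IsMirroredOptimalPair W M := by
  have hrel : ∃ b : Fin n → Fin n → Bool, GoodRel b := by
    rcases Nat.lt_or_ge n 7 with h | h
    · interval_cases n
      · exact rel5
      · exact rel6
    · exact ⟨_, rel7 h⟩
  obtain ⟨b, hb⟩ := hrel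
  obtain ⟨h1, h2⟩ := hb.good
  exact ⟨_, _, mirrored_of_sign h1 h2 (i0 := ⟨0, by omega⟩) (j0 := ⟨1, by omega⟩) (by
    simp [Fin.ext_iff])⟩

end Q233.EW
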