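import Mathlib

/-!
# Haar probability measure on the unitary group, and the commutant of `U ⊗ U`
-/

namespace Q233.HaarU

open MeasureTheory Matrix
open scoped Kronecker Matrix.Norms.L2Operator

variable {ι : Type} [Fintype ι] [DecidableEq ι]

/-- The unitary group with rows and columns indexed by `ι`. -/
abbrev UG (ι : Type) [Fintype ι] [DecidableEq ι] := Matrix.unitaryGroup ι ℂ

noncomputable instance instMeas : MeasurableSpace (UG ι) := borel _
instance instBorel : BorelSpace (UG ι) := ⟨rfl⟩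

theorem norm_unitary_le (u : UG ι) : ‖(u : Matrix ι ι ℂ)‖ ≤ 1 := by
  rcases subsingleton_or_nontrivial (Matrix ι ι ℂ) with h | h
  · have : (u : Matrix ι ι ℂ) = 0 := Subsingleton.elim _ _
    rw [this]; simp
  · exact (CStarRing.norm_coe_unitary u).le

instance instCompact : CompactSpace (UG ι) := by
  have h1 : IsClosed ((Matrix.unitaryGroup ι ℂ : Submonoid (Matrix ι ι ℂ)) :
      Set (Matrix ι ι ℂ)) := isClosed_unitary
  have h2 : IsCompact ((Matrix.unitaryGroup ι ℂ : Submonoid (Matrix ι ι ℂ)) :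
      Set (Matrix ι ι ℂ)) := by
    apply Metric.isCompact_of_isClosed_isBounded h1
    rw [Metric.isBounded_iff_subset_closedBall 0]
    refine ⟨1, fun u hu => ?_⟩
    rw [mem_closedBall_zero_iff]
    exact norm_unitary_le ⟨u, hu⟩
  exact isCompact_iff_compactSpace.mp h2

/-- Haar probability measure on the unitary group. -/
noncomputable def haar (ι : Type) [Fintype ι] [DecidableEq ι] : Measure (UG ι) :=
  Measure.haarMeasure ⊤

instance instHaar : (haar ι).IsHaarMeasure := by unfold haar; infer_instance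

instance instProb : IsProbabilityMeasure (haar ι) := by
  constructor
  have := Measure.haarMeasure_self (K₀ := (⊤ : TopologicalSpace.PositiveCompacts (UG ι)))
  simpa [haar] using this

omit [DecidableEq ι] in
lemma continuous_entry [DecidableEq ι] (a b : ι) :
    Continuous (fun V : UG ι => (V : Matrix ι ι ℂ) a b) :=
  (continuous_id.matrix_elem a b).comp continuous_subtype_val

lemma integrable_of_continuous {E : Type*} [NormedAddCommGroup E] {f : UG ι → E}
    [SecondCountableTopologyEither (UG ι) E]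
    (hf : Continuous f) : Integrable f (haar ι) :=
  hf.integrable_of_hasCompactSupport (HasCompactSupport.of_compactSpace f)

/-- The swap operator. -/
def FF (ι : Type) [DecidableEq ι] : Matrix (ι × ι) (ι × ι) ℂ :=
  Matrix.of fun p q => if p.1 = q.2 ∧ p.2 = q.1 then 1 else 0

/-- The integrand `(V ⊗ V) Y (V ⊗ V)ᴴ`, entrywise. -/
noncomputable def tw (Y : Matrix (ι × ι) (ι × ι) ℂ) (V : UG ι) : Matrix (ι × ι) (ι × ι) ℂ :=
  ((V : Matrix ι ι ℂ) ⊗ₖ (V : Matrix ι ι ℂ)) * Y *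
    ((V : Matrix ι ι ℂ) ⊗ₖ (V : Matrix ι ι ℂ))ᴴ

/-- The twirl. -/
noncomputable def ZZ (Y : Matrix (ι × ι) (ι × ι) ℂ) : Matrix (ι × ι) (ι × ι) ℂ :=
  Matrix.of fun p q => ∫ V : UG ι, tw Y V p q ∂(haar ι)

lemma continuous_tw (Y : Matrix (ι × ι) (ι × ι) ℂ) (p q : ι × ι) :
    Continuous (fun V : UG ι => tw Y V p q) := by
  unfold tw
  simp only [Matrix.mul_apply, kroneckerMap_apply, conjTranspose_apply]
  refine continuous_finsetSum _ (fun j _ => ?_)
  refine Continuous.mul (continuous_finsetSum _ (fun i _ => ?_)) ?_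
  · exact ((continuous_entry _ _).mul (continuous_entry _ _)).mul continuous_const
  · exact ((continuous_entry _ _).mul (continuous_entry _ _)).star

lemma integrable_tw (Y : Matrix (ι × ι) (ι × ι) ℂ) (p q : ι × ι) :
    Integrable (fun V : UG ι => tw Y V p q) (haar ι) :=
  integrable_of_continuous (continuous_tw Y p q)

/-- A finite linear functional of the entries commutes with the twirl. -/
lemma sum_ZZ (Y : Matrix (ι × ι) (ι × ι) ℂ) (c : (ι × ι) → (ι × ι) → ℂ) :
    ∑ p, ∑ q, c p q * ZZ Y p q = ∫ V : UG ι, (∑ p, ∑ q, c p q * tw Y V p q) ∂(haar ι) := by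
  rw [integral_finsetSum]
  · apply Finset.sum_congr rfl; intro p _
    rw [integral_finsetSum]
    · apply Finset.sum_congr rfl; intro q _
      rw [integral_const_mul]
      rfl
    · intro q _
      exact (integrable_tw Y p q).const_mul _
  · intro p _
    exact integrable_finsetSum _ (fun q _ => (integrable_tw Y p q).const_mul _)

/-- Invariance of the twirl. -/
lemma ZZ_inv (Y : Matrix (ι × ι) (ι × ι) ℂ) (U : UG ι) :
    ((U : Matrix ι ι ℂ) ⊗ₖ (U : Matrix ι ι ℂ)) * ZZ Y *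
      ((U : Matrix ι ι ℂ) ⊗ₖ (U : Matrix ι ι ℂ))ᴴ = ZZ Y := by
  ext r s
  have h1 : (((U : Matrix ι ι ℂ) ⊗ₖ (U : Matrix ι ι ℂ)) * ZZ Y *
      ((U : Matrix ι ι ℂ) ⊗ₖ (U : Matrix ι ι ℂ))ᴴ) r s =
      ∑ p, ∑ q, (((U : Matrix ι ι ℂ) ⊗ₖ (U : Matrix ι ι ℂ)) r p *
        (((U : Matrix ι ι ℂ) ⊗ₖ (U : Matrix ι ι ℂ))ᴴ) q s) * ZZ Y p q := by
    rw [Matrix.mul_apply]
    simp only [Matrix.mul_apply, Finset.sum_mul]
    rw [Finset.sum_comm]
    apply Finset.sum_congr rfl; intro p _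
    apply Finset.sum_congr rfl; intro q _
    ring
  rw [h1, sum_ZZ]
  have h2 : ∀ V : UG ι, ∑ p, ∑ q, (((U : Matrix ι ι ℂ) ⊗ₖ (U : Matrix ι ι ℂ)) r p *
        (((U : Matrix ι ι ℂ) ⊗ₖ (U : Matrix ι ι ℂ))ᴴ) q s) * tw Y V p q =
      tw Y (U * V) r s := by
    intro V
    have h3 : tw Y (U * V) = ((U : Matrix ι ι ℂ) ⊗ₖ (U : Matrix ι ι ℂ)) * tw Y V *
        ((U : Matrix ι ι ℂ) ⊗ₖ (U : Matrix ι ι ℂ))ᴴ := by
      unfold tw
      rw [Submonoid.coe_mul, mul_kronecker_mul, conjTranspose_mul]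
      simp only [mul_assoc]
    rw [h3, Matrix.mul_apply]
    simp only [Matrix.mul_apply, Finset.sum_mul]
    rw [Finset.sum_comm]
    apply Finset.sum_congr rfl; intro q _
    apply Finset.sum_congr rfl; intro p _
    ring
  simp only [h2]
  rw [integral_mul_left_eq_self (fun V => tw Y V r s) U]
  rfl

lemma kron_unitary (U : UG ι) :
    ((U : Matrix ι ι ℂ) ⊗ₖ (U : Matrix ι ι ℂ))ᴴ * ((U : Matrix ι ι ℂ) ⊗ₖ (U : Matrix ι ι ℂ)) = 1 := by
  have hU : (U : Matrix ι ι ℂ)ᴴ * (U : Matrix ι ι ℂ) = 1 := Unitary.coe_star_mul_self U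
  rw [conjTranspose_kronecker, ← mul_kronecker_mul, hU, one_kronecker_one]

lemma ZZ_comm (Y : Matrix (ι × ι) (ι × ι) ℂ) (U : UG ι) :
    ((U : Matrix ι ι ℂ) ⊗ₖ (U : Matrix ι ι ℂ)) * ZZ Y =
      ZZ Y * ((U : Matrix ι ι ℂ) ⊗ₖ (U : Matrix ι ι ℂ)) := by
  conv_rhs => rw [← ZZ_inv Y U]
  rw [mul_assoc, mul_assoc, kron_unitary, mul_one]

/-! ### The commutant -/

/-- A diagonal unitary. -/
noncomputable def dU (r : ι) : UG ι :=
  ⟨diagonal (fun i => if i = r then Complex.I else 1), by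
    rw [Matrix.mem_unitaryGroup_iff, star_eq_conjTranspose, diagonal_conjTranspose,
      diagonal_mul_diagonal, ← diagonal_one]
    congr 1
    funext i
    by_cases h : i = r <;> simp [h]⟩

/-- A permutation matrix. -/
noncomputable def pU (σ : Equiv.Perm ι) : UG ι :=
  ⟨Matrix.of fun i j => if i = σ j then (1 : ℂ) else 0, by
    rw [Matrix.mem_unitaryGroup_iff]
    ext i j
    rw [Matrix.mul_apply, Finset.sum_eq_single (σ.symm i)]
    · simp [Matrix.star_apply, Matrix.one_apply, eq_comm]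
    · intro k _ hk
      have : i ≠ σ k := fun h => hk (by rw [h]; simp)
      simp [this]
    · intro h; exact absurd (Finset.mem_univ _) h⟩

/-- The vector of the reflection. -/
noncomputable def rv (a b : ι) : ι → ℂ := Pi.single a 1 + Pi.single b 2

lemma rv_norm {a b : ι} (h : a ≠ b) : star (rv a b) ⬝ᵥ rv a b = 5 := by
  simp only [rv, star_add, dotProduct_add, Pi.star_single, dotProduct_single]
  simp [h, h.symm]
  norm_num

/-- A reflection mixing two coordinates. -/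
noncomputable def rU {a b : ι} (h : a ≠ b) : UG ι :=
  ⟨1 - (2/5 : ℂ) • vecMulVec (rv a b) (star (rv a b)), by
    rw [Matrix.mem_unitaryGroup_iff, star_eq_conjTranspose, conjTranspose_sub,
      conjTranspose_one, conjTranspose_smul, conjTranspose_vecMulVec, star_star]
    have h1 : star (2/5 : ℂ) = 2/5 := by simp
    rw [h1, sub_mul, mul_sub, mul_sub, one_mul, one_mul, mul_one, smul_mul_smul_comm,
      vecMulVec_mul_vecMulVec, rv_norm h, vecMulVec_smul, smul_smul]
    module⟩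

lemma commutant_zero {Z : Matrix (ι × ι) (ι × ι) ℂ}
    (hZ : ∀ U : UG ι, ((U : Matrix ι ι ℂ) ⊗ₖ (U : Matrix ι ι ℂ)) * Z =
      Z * ((U : Matrix ι ι ℂ) ⊗ₖ (U : Matrix ι ι ℂ))) {a b c e : ι}
    (h1 : ¬ (c = a ∧ e = b)) (h2 : ¬ (c = b ∧ e = a)) : Z (a, b) (c, e) = 0 := by
  have key : ∀ r : ι, ((if a = r then Complex.I else 1) * (if b = r then Complex.I else 1) -
      (if c = r then Complex.I else 1) * (if e = r then Complex.I else 1)) * Z (a, b) (c, e) = 0 := by
    intro r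
    have h := congrFun (congrFun (hZ (dU r)) (a, b)) (c, e)
    simp only [dU, diagonal_kronecker_diagonal, diagonal_mul, mul_diagonal] at h
    linear_combination h
  have i1 : Complex.I ≠ 1 := by
    intro h; have := congrArg Complex.re h; simp at this
  have i2 : Complex.I * Complex.I = -1 := Complex.I_mul_I
  have i3 : (1 : ℂ) - Complex.I ≠ 0 := sub_ne_zero.2 i1.symm
  have i4 : Complex.I - 1 ≠ 0 := sub_ne_zero.2 i1
  by_cases hac : a = c
  · subst hac
    have hbe : b ≠ e := fun h => h1 ⟨rfl, h.symm⟩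
    have k := key b
    rw [if_pos rfl, if_neg hbe.symm, mul_one] at k
    by_cases hab : a = b
    · rw [if_pos hab, i2] at k
      have : (-1 : ℂ) - Complex.I ≠ 0 := by
        intro h; have := congrArg Complex.re h; norm_num at this
      exact (mul_eq_zero.1 k).resolve_left this
    · rw [if_neg hab, one_mul] at k
      exact (mul_eq_zero.1 k).resolve_left i4
  · by_cases hae : a = e
    · subst hae
      have hbc : b ≠ c := fun h => h2 ⟨h.symm, rfl⟩
      have k := key b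
      rw [if_pos (rfl : b = b), if_neg hbc.symm, one_mul] at k
      by_cases hab : a = b
      · rw [if_pos hab, i2] at k
        have : (-1 : ℂ) - Complex.I ≠ 0 := by
          intro h; have := congrArg Complex.re h; norm_num at this
        exact (mul_eq_zero.1 k).resolve_left this
      · rw [if_neg hab, one_mul] at k
        exact (mul_eq_zero.1 k).resolve_left i4
    · have k := key a
      rw [if_pos (rfl : a = a), if_neg (Ne.symm hac), if_neg (Ne.symm hae), one_mul] at k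
      by_cases hab : b = a
      · rw [if_pos hab, i2] at k
        have : (-1 : ℂ) - 1 ≠ 0 := by norm_num
        exact (mul_eq_zero.1 k).resolve_left this
      · rw [if_neg hab, mul_one] at k
        exact (mul_eq_zero.1 k).resolve_left i4

lemma commutant_perm {Z : Matrix (ι × ι) (ι × ι) ℂ}
    (hZ : ∀ U : UG ι, ((U : Matrix ι ι ℂ) ⊗ₖ (U : Matrix ι ι ℂ)) * Z =
      Z * ((U : Matrix ι ι ℂ) ⊗ₖ (U : Matrix ι ι ℂ))) (σ : Equiv.Perm ι) (a b c e : ι) :
    Z (σ a, σ b) (σ c, σ e) = Z (a, b) (c, e) := by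
  have h := congrFun (congrFun (hZ (pU σ)) (σ a, σ b)) (c, e)
  rw [Matrix.mul_apply, Matrix.mul_apply, Finset.sum_eq_single (a, b),
    Finset.sum_eq_single (σ c, σ e)] at h
  · simp only [pU, kroneckerMap_apply, Matrix.of_apply, if_true, one_mul, mul_one] at h
    exact h.symm
  · rintro ⟨c', e'⟩ _ hne
    simp only [pU, kroneckerMap_apply, Matrix.of_apply]
    by_cases h1 : c' = σ c
    · have h2 : e' ≠ σ e := fun h2 => hne (by rw [h1, h2])
      rw [if_neg h2]; simp
    · rw [if_neg h1]; simp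
  · intro h; exact absurd (Finset.mem_univ _) h
  · rintro ⟨a', b'⟩ _ hne
    simp only [pU, kroneckerMap_apply, Matrix.of_apply, EmbeddingLike.apply_eq_iff_eq]
    by_cases h1 : a = a'
    · have h2 : b ≠ b' := fun h2 => hne (by rw [h1, h2])
      rw [if_neg h2]; simp
    · rw [if_neg h1]; simp
  · intro h; exact absurd (Finset.mem_univ _) h

lemma commutant_rot {Z : Matrix (ι × ι) (ι × ι) ℂ}
    (hZ : ∀ U : UG ι, ((U : Matrix ι ι ℂ) ⊗ₖ (U : Matrix ι ι ℂ)) * Z =
      Z * ((U : Matrix ι ι ℂ) ⊗ₖ (U : Matrix ι ι ℂ))) {a b : ι} (hab : a ≠ b) :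
    Z (a, a) (a, a) = Z (a, b) (a, b) + Z (b, a) (a, b) := by
  have h := congrFun (congrFun (hZ (rU hab)) (a, a)) (a, b)
  have uaa : ((rU hab : UG ι) : Matrix ι ι ℂ) a a = 3/5 := by
    simp [rU, rv, vecMulVec_apply, hab]; norm_num
  have uab : ((rU hab : UG ι) : Matrix ι ι ℂ) a b = -4/5 := by
    simp [rU, rv, vecMulVec_apply, hab, hab.symm]; norm_num
  rw [Matrix.mul_apply, Matrix.mul_apply,
    Finset.sum_eq_single (a, a) (f := fun j => Z (a, a) j *
      (((rU hab : UG ι) : Matrix ι ι ℂ) ⊗ₖ ((rU hab : UG ι) : Matrix ι ι ℂ)) j (a, b))] at h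
  · have h2 : ∑ j, (((rU hab : UG ι) : Matrix ι ι ℂ) ⊗ₖ ((rU hab : UG ι) : Matrix ι ι ℂ)) (a, a) j *
        Z j (a, b) = ∑ j ∈ {((a, b) : ι × ι), (b, a)},
        (((rU hab : UG ι) : Matrix ι ι ℂ) ⊗ₖ ((rU hab : UG ι) : Matrix ι ι ℂ)) (a, a) j *
        Z j (a, b) := by
      symm
      apply Finset.sum_subset (Finset.subset_univ _)
      rintro ⟨r, s⟩ _ hne
      rw [Finset.mem_insert, Finset.mem_singleton, not_or] at hne
      rw [commutant_zero hZ (a := r) (b := s) (c := a) (e := b), mul_zero]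
      · rintro ⟨h3, h4⟩; exact hne.1 (by rw [h3, h4])
      · rintro ⟨h3, h4⟩; exact hne.2 (by rw [h3, h4])
    rw [h2, Finset.sum_pair] at h
    · simp only [kroneckerMap_apply, uaa, uab] at h
      linear_combination (25/12) * h
    · intro h3; exact hab (congrArg Prod.fst h3)
  · rintro ⟨r, s⟩ _ hne
    by_cases h3 : r = a ∧ s = a
    · exact absurd (by rw [h3.1, h3.2]) hne
    · rw [commutant_zero hZ h3 h3, zero_mul]
  · intro h; exact absurd (Finset.mem_univ _) h

omit [Fintype ι] in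
/-- Two-transitivity. -/
lemma exists_perm {a b a' b' : ι} (h : a ≠ b) (h' : a' ≠ b') :
    ∃ σ : Equiv.Perm ι, σ a = a' ∧ σ b = b' := by
  refine ⟨(Equiv.swap (Equiv.swap a a' b) b') * (Equiv.swap a a'), ?_, ?_⟩
  · rw [Equiv.Perm.mul_apply, Equiv.swap_apply_left]
    apply Equiv.swap_apply_of_ne_of_ne _ h'
    intro h1
    have h2 : Equiv.swap a a' a = Equiv.swap a a' b := by rw [Equiv.swap_apply_left]; exact h1
    exact h ((Equiv.swap a a').injective h2)
  · rw [Equiv.Perm.mul_apply, Equiv.swap_apply_left]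

/-- The commutant of `{U ⊗ U}` is spanned by the identity and the swap. -/
lemma commutant [Nontrivial ι] {Z : Matrix (ι × ι) (ι × ι) ℂ}
    (hZ : ∀ U : UG ι, ((U : Matrix ι ι ℂ) ⊗ₖ (U : Matrix ι ι ℂ)) * Z =
      Z * ((U : Matrix ι ι ℂ) ⊗ₖ (U : Matrix ι ι ℂ))) :
    ∃ α β : ℂ, Z = α • 1 + β • FF ι := by
  obtain ⟨a0, b0, h0⟩ := exists_pair_ne ι
  refine ⟨Z (a0, b0) (a0, b0), Z (b0, a0) (a0, b0), ?_⟩
  ext ⟨a, b⟩ ⟨c, e⟩
  simp only [Matrix.add_apply, Matrix.smul_apply, smul_eq_mul, FF, Matrix.of_apply,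
    Matrix.one_apply, Prod.mk.injEq]
  by_cases hab : a = b
  · subst hab
    by_cases h1 : c = a ∧ e = a
    · have h2 := commutant_perm hZ (Equiv.swap a0 a) a0 a0 a0 a0
      rw [Equiv.swap_apply_left] at h2
      rw [h1.1, h1.2, h2, commutant_rot hZ h0]
      simp
    · rw [commutant_zero hZ h1 h1, if_neg, if_neg]
      · simp
      · rintro ⟨h3, h4⟩; exact h1 ⟨h4.symm, h3.symm⟩
      · rintro ⟨h3, h4⟩; exact h1 ⟨h3.symm, h4.symm⟩
  · by_cases h1 : c = a ∧ e = b
    · obtain ⟨rfl, rfl⟩ := h1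
      obtain ⟨σ, s1, s2⟩ := exists_perm h0 hab
      have h2 := commutant_perm hZ σ a0 b0 a0 b0
      rw [s1, s2] at h2
      rw [h2, if_pos ⟨rfl, rfl⟩, if_neg]
      · simp
      · rintro ⟨h3, -⟩; exact hab h3
    · by_cases h2 : c = b ∧ e = a
      · obtain ⟨rfl, rfl⟩ := h2
        obtain ⟨σ, s1, s2⟩ := exists_perm h0 hab
        have h2 := commutant_perm hZ σ a0 b0 b0 a0
        rw [s1, s2] at h2
        have h3 := commutant_perm hZ (Equiv.swap a0 b0) a0 b0 b0 a0
        rw [Equiv.swap_apply_left, Equiv.swap_apply_right] at h3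
        rw [h2, ← h3, if_neg, if_pos ⟨rfl, rfl⟩]
        · simp
        · rintro ⟨h4, -⟩; exact hab h4
      · rw [commutant_zero hZ h1 h2, if_neg, if_neg]
        · simp
        · rintro ⟨h3, h4⟩; exact h2 ⟨h4.symm, h3.symm⟩
        · rintro ⟨h3, h4⟩; exact h1 ⟨h3.symm, h4.symm⟩

lemma kron_comm_FF (A : Matrix ι ι ℂ) : (A ⊗ₖ A) * FF ι = FF ι * (A ⊗ₖ A) := by
  ext ⟨a, b⟩ ⟨c, e⟩
  rw [Matrix.mul_apply, Matrix.mul_apply, Finset.sum_eq_single (e, c), Finset.sum_eq_single (b, a)]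
  · simp only [FF, kroneckerMap_apply, Matrix.of_apply, and_self, if_true]
    ring
  · rintro ⟨r, s⟩ _ hne
    simp only [FF, Matrix.of_apply]
    rw [if_neg, zero_mul]
    rintro ⟨h1, h2⟩; exact hne (by rw [h1, h2])
  · intro h; exact absurd (Finset.mem_univ _) h
  · rintro ⟨r, s⟩ _ hne
    simp only [FF, Matrix.of_apply]
    rw [if_neg, mul_zero]
    rintro ⟨h1, h2⟩; exact hne (by rw [h1, h2])
  · intro h; exact absurd (Finset.mem_univ _) h

lemma trace_tw (Y C : Matrix (ι × ι) (ι × ι) ℂ)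
    (hC : ∀ A : Matrix ι ι ℂ, (A ⊗ₖ A) * C = C * (A ⊗ₖ A)) (V : UG ι) :
    (C * tw Y V).trace = (C * Y).trace := by
  unfold tw
  have h1 : C * (((V : Matrix ι ι ℂ) ⊗ₖ (V : Matrix ι ι ℂ)) * Y *
      ((V : Matrix ι ι ℂ) ⊗ₖ (V : Matrix ι ι ℂ))ᴴ) =
      ((V : Matrix ι ι ℂ) ⊗ₖ (V : Matrix ι ι ℂ)) * (C * Y) *
      ((V : Matrix ι ι ℂ) ⊗ₖ (V : Matrix ι ι ℂ))ᴴ := by
    simp only [← mul_assoc]
    rw [hC]
  rw [h1, Matrix.trace_mul_comm, ← mul_assoc, kron_unitary, one_mul]

lemma trace_ZZ (Y C : Matrix (ι × ι) (ι × ι) ℂ)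
    (hC : ∀ A : Matrix ι ι ℂ, (A ⊗ₖ A) * C = C * (A ⊗ₖ A)) :
    (C * ZZ Y).trace = (C * Y).trace := by
  have h1 : ∀ M : Matrix (ι × ι) (ι × ι) ℂ, (C * M).trace = ∑ p, ∑ q, C q p * M p q := by
    intro M
    rw [Matrix.trace, Finset.sum_comm]
    simp only [diag_apply, Matrix.mul_apply]
  rw [h1, sum_ZZ Y (fun p q => C q p)]
  have h2 : ∀ V : UG ι, ∑ p, ∑ q, C q p * tw Y V p q = (C * Y).trace := by
    intro V
    rw [← h1, trace_tw Y C hC]
  simp only [h2]
  simp

end Q233.HaarU
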