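import Mathlib
import Pool.Agent.Helper557.TF.Core

/-!
# Newton's shell theorem for radial densities in `ℝ³`
-/

set_option autoImplicit false
open MeasureTheory Set Filter Topology Metric
open scoped RealInnerProductSpace BigOperators ENNReal
open Pool.Agent.Helper557 Pool.Agent.Helper557.TFP

namespace Pool.Agent.Q233.TFShell

/-- value of the Newton potential of a ball, at distance `a` inside the ball -/
lemma centered_in (a s : ℝ) (hs : 0 < s) (ha0 : 0 < a) (h : a ≤ s) :
    ∫ x in ball (0:E3) s, 1 / ‖x - EuclideanSpace.single 0 a‖ = 2 * Real.pi * (s ^ 2 - a ^ 2 / 3) := by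
  obtain ⟨hi, hv⟩ := FF_int a s hs
  have hval : ∫ x in ball (0:E3) s, 1 / ‖x - EuclideanSpace.single 0 a‖ =
      2 * Real.pi * ((∫ z in (-s)..s, √(s^2+a^2-2*a*z)) - ∫ z in (-s)..s, |z-a|) := by
    rw [← integral_indicator measurableSet_ball]
    simp only [FF_eq a s hs]
    rw [← tot a s hs, ← hv]
    exact eqv_mp.integral_comp eqv.measurableEmbedding (FF a s)
  rw [hval, A_val a s hs ha0, B_val2 a s hs ha0.le h, abs_of_nonneg (by linarith)]
  field_simp
  ring

/-- radial integration -/
lemma rad_int (f : ℝ → ℝ) : ∫ x : E3, f ‖x‖ = 4 * Real.pi * ∫ r in Ioi (0:ℝ), r ^ 2 * f r := by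
  rw [integral_fun_norm_addHaar (volume : Measure E3) f]
  have h3 : Module.finrank ℝ E3 = 3 := by simp
  rw [h3]
  have hv : (volume : Measure E3).real (ball 0 1) = 4 / 3 * Real.pi := by
    rw [Measure.real, EuclideanSpace.volume_ball_fin_three]
    simp
    rw [ENNReal.toReal_ofReal (by positivity)]
    ring
  rw [hv]
  simp only [smul_eq_mul, nsmul_eq_mul]
  push_cast
  ring

lemma rad_intble {f : ℝ → ℝ} : Integrable (fun x : E3 => f ‖x‖) ↔ IntegrableOn (fun r => r ^ 2 * f r) (Ioi (0:ℝ)) := by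
  rw [integrable_fun_norm_addHaar (volume : Measure E3)]
  have h3 : Module.finrank ℝ E3 = 3 := by simp
  rw [h3]
  simp

/-- the value of the integral of the Coulomb kernel over centred balls -/
noncomputable def Vb (s a : ℝ) : ℝ := if s ≤ a then 4 / 3 * Real.pi * s ^ 3 / a else 2 * Real.pi * (s ^ 2 - a ^ 2 / 3)

lemma vol_ball (x0 : E3) {s : ℝ} (hs : 0 ≤ s) : (volume (ball x0 s)).toReal = 4/3*Real.pi*s^3 := by
  rw [EuclideanSpace.volume_ball_fin_three]
  rw [← ENNReal.ofReal_pow hs, ← ENNReal.ofReal_mul (by positivity), ENNReal.toReal_ofReal (by positivity)]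
  ring

lemma left_val {y : E3} (hy : y ≠ 0) {s : ℝ} (hs : 0 < s) :
    IntegrableOn (fun x : E3 => 1 / ‖x - y‖) (ball 0 s) ∧ ∫ x in ball (0:E3) s, 1 / ‖x - y‖ = Vb s ‖y‖ := by
  obtain ⟨h1, h2, -⟩ := newton_ball 0 y s hs
  refine ⟨h1, ?_⟩
  have ha : 0 < ‖y‖ := norm_pos_iff.2 hy
  unfold Vb
  split_ifs with h
  · rw [h2 (by rw [zero_sub, norm_neg]; exact h), vol_ball _ hs.le, zero_sub, norm_neg]
  · rw [not_le] at h
    -- rotate
    have hn : ‖y‖ = ‖(EuclideanSpace.single 0 ‖y‖ : E3)‖ := by
      rw [EuclideanSpace.norm_single, Real.norm_of_nonneg ha.le]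
    set L : E3 ≃ₗᵢ[ℝ] E3 := Submodule.reflection (Submodule.span ℝ {y - (EuclideanSpace.single 0 ‖y‖ : E3)})ᗮ with hL
    have hLy : L y = EuclideanSpace.single 0 ‖y‖ := Submodule.reflection_sub hn
    have hf : ∀ x : E3, 1 / ‖x - y‖ = 1 / ‖L x - EuclideanSpace.single 0 ‖y‖‖ := by
      intro x
      rw [← hLy, ← map_sub, LinearIsometryEquiv.norm_map]
    have hpre : (fun x : E3 => L x) ⁻¹' (ball 0 s) = ball 0 s := by
      ext x
      rw [mem_preimage, mem_ball_zero_iff, LinearIsometryEquiv.norm_map, mem_ball_zero_iff]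
    simp only [hf]
    rw [← centered_in ‖y‖ s hs ha h.le]
    conv_lhs => rw [← hpre]
    exact L.measurePreserving.setIntegral_preimage_emb L.toHomeomorph.measurableEmbedding
      (fun x => 1 / ‖x - EuclideanSpace.single 0 ‖y‖‖) _

lemma max_pos' {a : ℝ} (ha : 0 < a) (x : E3) : 0 < max ‖x‖ a := lt_of_lt_of_le ha (le_max_right _ _)

lemma right_val {a : ℝ} (ha : 0 < a) {s : ℝ} (hs : 0 < s) :
    IntegrableOn (fun x : E3 => 1 / max ‖x‖ a) (ball 0 s) ∧ ∫ x in ball (0:E3) s, 1 / max ‖x‖ a = Vb s a := by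
  have hcont : Continuous (fun x : E3 => 1 / max ‖x‖ a) := by
    refine continuous_const.div (continuous_norm.max continuous_const) (fun x => (max_pos' ha x).ne')
  have hint : IntegrableOn (fun x : E3 => 1 / max ‖x‖ a) (ball 0 s) :=
    (hcont.continuousOn.integrableOn_compact (isCompact_closedBall 0 s)).mono_set ball_subset_closedBall
  refine ⟨hint, ?_⟩
  have e1 : ∫ x in ball (0:E3) s, 1 / max ‖x‖ a = ∫ x : E3, (Iio s).indicator (fun r => 1 / max r a) ‖x‖ := by
    rw [← integral_indicator measurableSet_ball]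
    congr 1
    funext x
    by_cases h : ‖x‖ < s
    · rw [indicator_of_mem (by simpa using h), indicator_of_mem (by simpa using h)]
    · rw [indicator_of_notMem (by simpa using h), indicator_of_notMem (by simpa using h)]
  rw [e1, rad_int]
  have e2 : ∫ r in Ioi (0:ℝ), r ^ 2 * (Iio s).indicator (fun r => 1 / max r a) r = ∫ r in (0:ℝ)..s, r ^ 2 / max r a := by
    rw [intervalIntegral.integral_of_le hs.le, integral_Ioc_eq_integral_Ioo,
      ← integral_indicator measurableSet_Ioi, ← integral_indicator measurableSet_Ioo]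
    congr 1
    funext r
    by_cases h0 : 0 < r
    · rw [indicator_of_mem (by exact h0)]
      by_cases h1 : r < s
      · rw [indicator_of_mem (by exact h1), indicator_of_mem (by exact ⟨h0, h1⟩)]; ring
      · rw [indicator_of_notMem (by exact h1), indicator_of_notMem (fun h => h1 h.2)]; ring
    · rw [indicator_of_notMem (by exact h0), indicator_of_notMem (fun h => h0 h.1)]
  rw [e2]
  have hc2 : Continuous (fun r : ℝ => r ^ 2 / max r a) := by
    refine (continuous_pow 2).div (continuous_id.max continuous_const) (fun x => (lt_of_lt_of_le ha (le_max_right _ _)).ne')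
  unfold Vb
  split_ifs with h
  · have : ∫ r in (0:ℝ)..s, r ^ 2 / max r a = ∫ r in (0:ℝ)..s, r ^ 2 / a := by
      apply intervalIntegral.integral_congr
      intro r hr
      rw [uIcc_of_le hs.le] at hr
      simp only
      rw [max_eq_right (hr.2.trans h)]
    rw [this, intervalIntegral.integral_div, integral_pow]
    push_cast
    field_simp
    ring
  · rw [not_le] at h
    rw [← intervalIntegral.integral_add_adjacent_intervals (b := a) (hc2.intervalIntegrable _ _) (hc2.intervalIntegrable _ _)]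
    have h1 : ∫ r in (0:ℝ)..a, r ^ 2 / max r a = ∫ r in (0:ℝ)..a, r ^ 2 / a := by
      apply intervalIntegral.integral_congr
      intro r hr
      rw [uIcc_of_le ha.le] at hr
      simp only
      rw [max_eq_right hr.2]
    have h2 : ∫ r in a..s, r ^ 2 / max r a = ∫ r in a..s, r := by
      apply intervalIntegral.integral_congr
      intro r hr
      rw [uIcc_of_le h.le] at hr
      simp only
      rw [max_eq_left hr.1]
      have : r ≠ 0 := (lt_of_lt_of_le ha hr.1).ne'
      field_simp
    rw [h1, h2, intervalIntegral.integral_div, integral_pow, integral_id]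
    push_cast
    field_simp
    ring

/-- the Coulomb-weighted Lebesgue measure -/
noncomputable def m1 (y : E3) : Measure E3 := volume.withDensity (fun x => ENNReal.ofReal (1 / ‖x - y‖))
noncomputable def m2 (a : ℝ) : Measure E3 := volume.withDensity (fun x => ENNReal.ofReal (1 / max ‖x‖ a))

lemma m1_meas (y : E3) : Measurable (fun x : E3 => ENNReal.ofReal (1 / ‖x - y‖)) := by fun_prop
lemma m2_meas (a : ℝ) : Measurable (fun x : E3 => ENNReal.ofReal (1 / max ‖x‖ a)) := by fun_prop

lemma map_eq {y : E3} (hy : y ≠ 0) : Measure.map (fun x : E3 => ‖x‖) (m1 y) = Measure.map (fun x : E3 => ‖x‖) (m2 ‖y‖) := by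
  have ha : 0 < ‖y‖ := norm_pos_iff.2 hy
  have v1 : ∀ s : ℝ, Measure.map (fun x : E3 => ‖x‖) (m1 y) (Iio s) = ENNReal.ofReal (if 0 < s then Vb s ‖y‖ else 0) := by
    intro s
    rw [Measure.map_apply measurable_norm measurableSet_Iio]
    have hb : (fun x : E3 => ‖x‖) ⁻¹' (Iio s) = ball 0 s := by ext x; simp
    rw [hb, m1, withDensity_apply _ measurableSet_ball]
    split_ifs with hs
    · obtain ⟨h1, h2⟩ := left_val hy hs
      rw [← h2, ofReal_integral_eq_lintegral_ofReal h1 (ae_of_all _ (fun x => by positivity))]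
    · rw [ball_eq_empty.2 (not_lt.1 hs)]; simp
  have v2 : ∀ s : ℝ, Measure.map (fun x : E3 => ‖x‖) (m2 ‖y‖) (Iio s) = ENNReal.ofReal (if 0 < s then Vb s ‖y‖ else 0) := by
    intro s
    rw [Measure.map_apply measurable_norm measurableSet_Iio]
    have hb : (fun x : E3 => ‖x‖) ⁻¹' (Iio s) = ball 0 s := by ext x; simp
    rw [hb, m2, withDensity_apply _ measurableSet_ball]
    split_ifs with hs
    · obtain ⟨h1, h2⟩ := right_val ha hs
      rw [← h2, ofReal_integral_eq_lintegral_ofReal h1 (ae_of_all _ (fun x => by positivity))]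
    · rw [ball_eq_empty.2 (not_lt.1 hs)]; simp
  refine Measure.ext_of_generateFrom_of_iUnion (range Iio) (fun n : ℕ => Iio (n : ℝ)) ?_ ?_ ?_ ?_ ?_ ?_
  · rw [← borel_eq_generateFrom_Iio]; exact (BorelSpace.measurable_eq)
  · rw [← image_univ]; exact isPiSystem_image_Iio _
  · ext x
    simp only [mem_iUnion, mem_Iio, mem_univ, iff_true]
    exact exists_nat_gt x
  · intro n; exact ⟨_, rfl⟩
  · intro n; rw [v1]; exact ENNReal.ofReal_ne_top
  · rintro _ ⟨s, rfl⟩
    rw [v1, v2]

/-- **Newton's shell theorem**: a radial density acts on `y` through the kernel `1 / max (|x|) (|y|)`. -/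
theorem shell {G : ℝ → ℝ} (hG : Measurable G) {y : E3} (hy : y ≠ 0) :
    ∫ x : E3, G ‖x‖ / ‖y - x‖ = ∫ x : E3, G ‖x‖ / max ‖x‖ ‖y‖ := by
  have e1 : ∫ x : E3, G ‖x‖ / ‖y - x‖ = ∫ x, G ‖x‖ ∂(m1 y) := by
    rw [m1, integral_withDensity_eq_integral_toReal_smul (m1_meas y) (ae_of_all _ (fun x => ENNReal.ofReal_lt_top))]
    congr 1
    funext x
    rw [ENNReal.toReal_ofReal (by positivity), norm_sub_rev, smul_eq_mul]; ring
  have e2 : ∫ x : E3, G ‖x‖ / max ‖x‖ ‖y‖ = ∫ x, G ‖x‖ ∂(m2 ‖y‖) := by
    rw [m2, integral_withDensity_eq_integral_toReal_smul (m2_meas _) (ae_of_all _ (fun x => ENNReal.ofReal_lt_top))]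
    congr 1
    funext x
    rw [ENNReal.toReal_ofReal (by positivity), smul_eq_mul]; ring
  rw [e1, e2, ← integral_map (f := G) measurable_norm.aemeasurable hG.aestronglyMeasurable,
    ← integral_map (f := G) measurable_norm.aemeasurable hG.aestronglyMeasurable, map_eq hy]

/-- the same for integrability -/
theorem shell_int {G : ℝ → ℝ} (hG : Measurable G) {y : E3} (hy : y ≠ 0) :
    Integrable (fun x : E3 => G ‖x‖ / ‖y - x‖) ↔ Integrable (fun x : E3 => G ‖x‖ / max ‖x‖ ‖y‖) := by
  have e1 : Integrable (fun x : E3 => G ‖x‖ / ‖y - x‖) ↔ Integrable (fun x => G ‖x‖) (m1 y) := by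
    rw [m1, integrable_withDensity_iff_integrable_smul' (m1_meas y) (ae_of_all _ (fun x => ENNReal.ofReal_lt_top))]
    refine integrable_congr (ae_of_all _ (fun x => ?_))
    simp only
    rw [ENNReal.toReal_ofReal (by positivity), norm_sub_rev, smul_eq_mul]; ring
  have e2 : Integrable (fun x : E3 => G ‖x‖ / max ‖x‖ ‖y‖) ↔ Integrable (fun x => G ‖x‖) (m2 ‖y‖) := by
    rw [m2, integrable_withDensity_iff_integrable_smul' (m2_meas _) (ae_of_all _ (fun x => ENNReal.ofReal_lt_top))]
    refine integrable_congr (ae_of_all _ (fun x => ?_))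
    simp only
    rw [ENNReal.toReal_ofReal (by positivity), smul_eq_mul]; ring
  rw [e1, e2]
  have k1 := integrable_map_measure (f := fun x : E3 => ‖x‖) (g := G) (μ := m1 y) hG.aestronglyMeasurable measurable_norm.aemeasurable
  have k2 := integrable_map_measure (f := fun x : E3 => ‖x‖) (g := G) (μ := m2 ‖y‖) hG.aestronglyMeasurable measurable_norm.aemeasurable
  rw [map_eq hy] at k1
  exact k1.symm.trans k2

end Pool.Agent.Q233.TFShell
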