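import Mathlib
import Pool.Agent.Q233.TFShell

/-! The Coulomb potential of a uniformly charged ball. -/

set_option autoImplicit false

namespace Pool.Agent.Q233.JKer

open MeasureTheory Set Metric Pool.Agent.Helper557 Pool.Agent.Helper557.TFP Pool.Agent.Q233.TFShell

/-- potential of the uniform unit density in the ball of radius `R` -/
noncomputable def phi (R : ℝ) (x : E3) : ℝ := ∫ y in ball (0:E3) R, 1 / ‖x - y‖

lemma phi_zero {s : ℝ} (hs : 0 < s) :
    IntegrableOn (fun y : E3 => 1 / ‖y‖) (ball 0 s) ∧
      ∫ y in ball (0:E3) s, 1 / ‖y‖ = 2 * Real.pi * s ^ 2 := by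
  have e1 : (ball (0:E3) s).indicator (fun y => 1 / ‖y‖) =
      fun x : E3 => (Iio s).indicator (fun r => 1 / r) ‖x‖ := by
    funext x
    by_cases h : ‖x‖ < s
    · rw [indicator_of_mem (by simpa using h), indicator_of_mem (by simpa using h)]
    · rw [indicator_of_notMem (by simpa using h), indicator_of_notMem (by simpa using h)]
  have e2 : (Ioi (0:ℝ)).indicator (fun r : ℝ => r ^ 2 * (Iio s).indicator (fun r => 1 / r) r) =
      (Ioo 0 s).indicator (fun r => r) := by
    funext r
    by_cases h0 : 0 < r
    · rw [indicator_of_mem (by exact h0)]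
      by_cases h1 : r < s
      · rw [indicator_of_mem (by exact h1), indicator_of_mem (by exact ⟨h0, h1⟩)]
        field_simp
      · rw [indicator_of_notMem (by exact h1), indicator_of_notMem (fun h => h1 h.2)]; ring
    · rw [indicator_of_notMem (by exact h0), indicator_of_notMem (fun h => h0 h.1)]
  constructor
  · rw [← integrable_indicator_iff measurableSet_ball, e1, rad_intble,
      ← integrable_indicator_iff measurableSet_Ioi, e2, integrable_indicator_iff measurableSet_Ioo]
    exact (continuous_id.integrableOn_Icc (a := 0) (b := s)).mono_set Ioo_subset_Icc_self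
  · rw [← integral_indicator measurableSet_ball, e1, rad_int, ← integral_indicator measurableSet_Ioi,
      e2, integral_indicator measurableSet_Ioo, ← integral_Ioc_eq_integral_Ioo,
      ← intervalIntegral.integral_of_le hs.le, integral_id]
    ring

lemma phi_int {R : ℝ} (hR : 0 < R) (x : E3) :
    IntegrableOn (fun y : E3 => 1 / ‖x - y‖) (ball 0 R) := by
  rcases eq_or_ne x 0 with rfl | hx
  · have := (phi_zero hR).1
    simpa using this
  · have := (left_val hx hR).1
    simp_rw [norm_sub_rev x]
    exact this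

lemma phi_eq {R : ℝ} (hR : 0 < R) (x : E3) : phi R x = Vb R ‖x‖ := by
  unfold phi
  rcases eq_or_ne x 0 with rfl | hx
  · simp only [zero_sub, norm_neg, norm_zero]
    rw [(phi_zero hR).2, Vb, if_neg (by linarith)]
    ring
  · simp_rw [norm_sub_rev x]
    exact (left_val hx hR).2

lemma phi_nonneg (R : ℝ) (x : E3) : 0 ≤ phi R x :=
  integral_nonneg fun y => by positivity

lemma phi_le {R : ℝ} (hR : 0 < R) (x : E3) : phi R x ≤ 2 * Real.pi * R ^ 2 := by
  rw [phi_eq hR]
  have hpi := Real.pi_pos
  unfold Vb
  split_ifs with h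
  · have hx : 0 < ‖x‖ := lt_of_lt_of_le hR h
    rw [div_le_iff₀ hx]
    have h1 : R ^ 3 ≤ R ^ 2 * ‖x‖ := by
      have : R ^ 3 = R ^ 2 * R := by ring
      rw [this]
      exact mul_le_mul_of_nonneg_left h (by positivity)
    nlinarith [mul_pos hpi (by positivity : (0:ℝ) < R ^ 2 * ‖x‖), mul_le_mul_of_nonneg_left h1 hpi.le]
  · have : 0 ≤ ‖x‖ ^ 2 := by positivity
    nlinarith [mul_nonneg hpi.le this]

lemma phi_mono {R R' : ℝ} (hR' : 0 < R') (h : R ≤ R') (x : E3) : phi R x ≤ phi R' x :=
  setIntegral_mono_set (phi_int hR' x) (Filter.Eventually.of_forall fun y => by positivity)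
    (ball_subset_ball h).eventuallyLE

lemma phi_meas {R : ℝ} (hR : 0 < R) : Measurable (phi R) := by
  have : phi R = fun x => Vb R ‖x‖ := funext fun x => phi_eq hR x
  rw [this]
  unfold Vb
  refine Measurable.ite ?_ ?_ ?_
  · exact measurableSet_le measurable_const measurable_norm
  · exact Measurable.div measurable_const measurable_norm
  · fun_prop

/-- the volume of the ball of radius `R` -/
noncomputable def vol (R : ℝ) : ℝ := 4 / 3 * Real.pi * R ^ 3

lemma vol_pos {R : ℝ} (hR : 0 < R) : 0 < vol R := by
  have := Real.pi_pos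
  unfold vol
  positivity

lemma vol_eq {R : ℝ} (hR : 0 < R) : (volume (ball (0:E3) R)).toReal = vol R := vol_ball 0 hR.le

/-- twice the Coulomb energy of the ball -/
noncomputable def DD (R : ℝ) : ℝ := ∫ x in ball (0:E3) R, phi R x

lemma DD_eq {R : ℝ} (hR : 0 < R) : DD R = 32 / 15 * Real.pi ^ 2 * R ^ 5 := by
  unfold DD
  have e1 : (ball (0:E3) R).indicator (phi R) =
      fun x : E3 => (Iio R).indicator (fun r => 2 * Real.pi * (R ^ 2 - r ^ 2 / 3)) ‖x‖ := by
    funext x
    by_cases h : ‖x‖ < R
    · rw [indicator_of_mem (by simpa using h), indicator_of_mem (by simpa using h), phi_eq hR, Vb,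
        if_neg (by linarith)]
    · rw [indicator_of_notMem (by simpa using h), indicator_of_notMem (by simpa using h)]
  have e2 : (Ioi (0:ℝ)).indicator (fun r : ℝ => r ^ 2 *
      (Iio R).indicator (fun r => 2 * Real.pi * (R ^ 2 - r ^ 2 / 3)) r) =
      (Ioo 0 R).indicator (fun r => 2 * Real.pi * R ^ 2 * r ^ 2 - 2 / 3 * Real.pi * r ^ 4) := by
    funext r
    by_cases h0 : 0 < r
    · rw [indicator_of_mem (by exact h0)]
      by_cases h1 : r < R
      · rw [indicator_of_mem (by exact h1), indicator_of_mem (by exact ⟨h0, h1⟩)]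
        ring
      · rw [indicator_of_notMem (by exact h1), indicator_of_notMem (fun h => h1 h.2)]; ring
    · rw [indicator_of_notMem (by exact h0), indicator_of_notMem (fun h => h0 h.1)]
  rw [← integral_indicator measurableSet_ball, e1, rad_int, ← integral_indicator measurableSet_Ioi,
    e2, integral_indicator measurableSet_Ioo, ← integral_Ioc_eq_integral_Ioo,
    ← intervalIntegral.integral_of_le hR.le, intervalIntegral.integral_sub,
    intervalIntegral.integral_const_mul, intervalIntegral.integral_const_mul, integral_pow,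
    integral_pow]
  · norm_num
    ring
  · exact (by fun_prop : Continuous fun r : ℝ => 2 * Real.pi * R ^ 2 * r ^ 2).intervalIntegrable _ _
  · exact (by fun_prop : Continuous fun r : ℝ => 2 / 3 * Real.pi * r ^ 4).intervalIntegrable _ _

/-- `DD R / vol R ^ 2 = 6 / (5 R)` -/
lemma DD_vol {R : ℝ} (hR : 0 < R) : DD R / vol R ^ 2 = 6 / (5 * R) := by
  have := Real.pi_pos
  rw [DD_eq hR, vol]
  field_simp
  ring

lemma phi_int_ball {R : ℝ} (hR : 0 < R) : IntegrableOn (phi R) (ball (0:E3) R) := by
  refine Measure.integrableOn_of_bounded (M := 2 * Real.pi * R ^ 2) ?_ (phi_meas hR).aestronglyMeasurable ?_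
  · exact measure_ball_lt_top.ne
  · refine Filter.Eventually.of_forall fun x => ?_
    rw [Real.norm_of_nonneg (phi_nonneg R x)]
    exact phi_le hR x

end Pool.Agent.Q233.JKer
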