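import Mathlib

/-! Finner's inequality for marginals and the Loomis–Whitney inequality for functions. -/

set_option autoImplicit false

namespace Pool.Agent.Q233.JLW

open MeasureTheory Finset ENNReal

variable {ι J : Type*} [DecidableEq ι] {A : ι → Type*} [∀ i, MeasurableSpace (A i)]
  {μ : ∀ i, Measure (A i)} [∀ i, SigmaFinite (μ i)]

theorem finner (s : Finset J) (S : J → Finset ι) (p : J → ℝ) (hp : ∀ j ∈ s, 0 ≤ p j)
    (T : Finset ι) (hT : ∀ i ∈ T, ∑ j ∈ s with i ∈ S j, p j = 1)
    (f : J → (∀ i, A i) → ℝ≥0∞) (hf : ∀ j ∈ s, Measurable (f j))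
    (hd : ∀ j ∈ s, ∀ i, i ∉ S j → ∀ x y, f j (Function.update x i y) = f j x) :
    ∫⋯∫⁻_T, (fun x => ∏ j ∈ s, f j x ^ p j) ∂μ ≤
      fun x => ∏ j ∈ s, ((∫⋯∫⁻_(T ∩ S j), f j ∂μ) x) ^ p j := by
  induction T using Finset.induction generalizing f with
  | empty => simp
  | insert i T hi ih =>
    have hm : Measurable (fun x => ∏ j ∈ s, f j x ^ p j) :=
      s.measurable_fun_prod fun j hj => (hf j hj).pow_const _
    rw [lmarginal_insert' _ hm hi]
    set f' : J → (∀ i, A i) → ℝ≥0∞ := fun j =>
      if i ∈ S j then (fun x => ∫⁻ xi, f j (Function.update x i xi) ∂μ i) else f j with hf'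
    have hf'm : ∀ j ∈ s, Measurable (f' j) := by
      intro j hj
      simp only [hf']
      split_ifs with h
      · have := (hf j hj).lmarginal μ (s := {i})
        rwa [lmarginal_singleton] at this
      · exact hf j hj
    have hd' : ∀ j ∈ s, ∀ i', i' ∉ S j → ∀ x y, f' j (Function.update x i' y) = f' j x := by
      intro j hj i' hi' x y
      simp only [hf']
      split_ifs with h
      · have hne : i ≠ i' := fun h2 => hi' (h2 ▸ h)
        refine lintegral_congr fun xi => ?_
        rw [Function.update_comm hne.symm, hd j hj i' hi']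
      · exact hd j hj i' hi' x y
    have step : (fun x => ∫⁻ xi, ∏ j ∈ s, f j (Function.update x i xi) ^ p j ∂μ i) ≤
        fun x => ∏ j ∈ s, f' j x ^ p j := by
      intro x
      have e1 : ∀ xi, ∏ j ∈ s, f j (Function.update x i xi) ^ p j =
          (∏ j ∈ s with ¬ i ∈ S j, f j x ^ p j) *
            ∏ j ∈ s with i ∈ S j, f j (Function.update x i xi) ^ p j := by
        intro xi
        rw [← Finset.prod_filter_mul_prod_filter_not s (fun j => i ∈ S j), mul_comm]
        congr 1
        refine Finset.prod_congr rfl fun j hj => ?_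
        rw [Finset.mem_filter] at hj
        rw [hd j hj.1 i hj.2]
      have e2 : ∏ j ∈ s, f' j x ^ p j =
          (∏ j ∈ s with ¬ i ∈ S j, f j x ^ p j) *
            ∏ j ∈ s with i ∈ S j, (∫⁻ xi, f j (Function.update x i xi) ∂μ i) ^ p j := by
        rw [← Finset.prod_filter_mul_prod_filter_not s (fun j => i ∈ S j), mul_comm]
        congr 1
        · refine Finset.prod_congr rfl fun j hj => ?_
          rw [Finset.mem_filter] at hj
          simp only [hf', if_neg hj.2]
        · refine Finset.prod_congr rfl fun j hj => ?_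
          rw [Finset.mem_filter] at hj
          simp only [hf', if_pos hj.2]
      have hmu : ∀ j ∈ s, Measurable fun xi => f j (Function.update x i xi) := fun j hj =>
        (hf j hj).comp (measurable_update x)
      simp only
      rw [e2]
      calc ∫⁻ xi, ∏ j ∈ s, f j (Function.update x i xi) ^ p j ∂μ i
          = ∫⁻ xi, (∏ j ∈ s with ¬ i ∈ S j, f j x ^ p j) *
            ∏ j ∈ s with i ∈ S j, f j (Function.update x i xi) ^ p j ∂μ i :=
              lintegral_congr e1
        _ = (∏ j ∈ s with ¬ i ∈ S j, f j x ^ p j) *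
            ∫⁻ xi, ∏ j ∈ s with i ∈ S j, f j (Function.update x i xi) ^ p j ∂μ i := by
              rw [lintegral_const_mul]
              exact Finset.measurable_fun_prod _ fun j hj =>
                (hmu j (Finset.mem_filter.1 hj).1).pow_const _
        _ ≤ _ := by
              refine mul_le_mul' le_rfl ?_
              exact ENNReal.lintegral_prod_norm_pow_le _
                (fun j hj => (hmu j (Finset.mem_filter.1 hj).1).aemeasurable)
                (hT i (Finset.mem_insert_self _ _))
                (fun j hj => hp j (Finset.mem_filter.1 hj).1)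
    refine (lmarginal_mono step).trans ?_
    refine (ih (fun i' hi' => hT i' (Finset.mem_insert_of_mem hi')) f' hf'm hd').trans ?_
    intro x
    refine le_of_eq ?_
    refine Finset.prod_congr rfl fun j hj => ?_
    congr 1
    by_cases h : i ∈ S j
    · have h1 : f' j = fun x => ∫⁻ xi, f j (Function.update x i xi) ∂μ i := by
        simp only [hf', if_pos h]
      rw [h1, Finset.insert_inter_of_mem h,
        lmarginal_insert' _ (hf j hj) (fun h2 => hi (Finset.mem_inter.1 h2).1)]
    · have h1 : f' j = f j := by simp only [hf', if_neg h]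
      rw [h1, Finset.insert_inter_of_notMem h]

variable {Ω : Type*} [MeasurableSpace Ω] {ν : Measure Ω} [SigmaFinite ν]

/-- Loomis–Whitney for a function of `n` out of `n + 1` variables. -/
theorem loomis_whitney {n : ℕ} (hn : 1 ≤ n) (F : (Fin n → Ω) → ℝ≥0∞) (hF : Measurable F) :
    ∫⁻ x : Fin (n + 1) → Ω, ∏ j : Fin (n + 1), F (fun i => x (j.succAbove i)) ^ (1 / (n : ℝ))
        ∂Measure.pi (fun _ => ν) ≤
      ((∫⁻ y, F y ∂Measure.pi (fun _ => ν)) ^ (1 / (n : ℝ))) ^ (n + 1) := by
  rcases isEmpty_or_nonempty (Fin (n + 1) → Ω) with h | ⟨⟨x⟩⟩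
  · simp_rw [lintegral_of_isEmpty]
    exact bot_le
  have hn' : (0 : ℝ) < n := by exact_mod_cast hn
  have key := finner (μ := fun _ : Fin (n + 1) => ν) (Finset.univ : Finset (Fin (n + 1)))
    (fun j => Finset.univ.erase j) (fun _ => 1 / (n : ℝ)) (fun _ _ => by positivity)
    Finset.univ
    (by
      intro i _
      have : (Finset.univ.filter fun j : Fin (n + 1) => i ∈ Finset.univ.erase j) =
          Finset.univ.erase i := by
        ext j
        simp [eq_comm]
      rw [this, Finset.sum_const, Finset.card_erase_of_mem (Finset.mem_univ _),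
        Finset.card_univ, Fintype.card_fin]
      simp only [add_tsub_cancel_right, nsmul_eq_mul]
      field_simp)
    (fun j x => F (fun i => x (j.succAbove i)))
    (fun j _ => hF.comp (measurable_pi_iff.2 fun i => measurable_pi_apply _))
    (by
      intro j _ i hi x y
      have hij : i = j := by simpa using hi
      subst hij
      congr 1
      ext k
      rw [Function.update_of_ne (Fin.succAbove_ne _ _)])
    x
  rw [← lintegral_eq_lmarginal_univ] at key
  refine key.trans (le_of_eq ?_)
  have h2 : ∀ j : Fin (n + 1), (∫⋯∫⁻_(Finset.univ ∩ Finset.univ.erase j),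
      (fun x : Fin (n + 1) → Ω => F (fun i => x (j.succAbove i))) ∂(fun _ => ν)) x =
      ∫⁻ y, F y ∂Measure.pi (fun _ => ν) := by
    intro j
    have h3 : Finset.univ ∩ Finset.univ.erase j = Finset.univ.image j.succAbove := by
      rw [Fin.image_succAbove_univ]
      ext k
      simp
    rw [h3]
    have h4 := lmarginal_image (μ := fun _ : Fin (n + 1) => ν) (e := j.succAbove)
      (Fin.succAbove_right_injective) Finset.univ (f := F) hF x
    have h5 : (F ∘ fun x : Fin (n + 1) → Ω => fun i => x (j.succAbove i)) =
        fun x : Fin (n + 1) → Ω => F (fun i => x (j.succAbove i)) := rfl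
    have h6 : (∫⋯∫⁻_Finset.univ.image j.succAbove,
      (fun x : Fin (n + 1) → Ω => F (fun i => x (j.succAbove i))) ∂(fun _ => ν)) x =
      (∫⋯∫⁻_Finset.univ, F ∂(fun _ : Fin n => ν)) (fun i => x (j.succAbove i)) := h4
    rw [h6, lmarginal_univ]
  simp_rw [h2]
  rw [Finset.prod_const, Finset.card_univ, Fintype.card_fin]

end Pool.Agent.Q233.JLW
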