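import Mathlib
import Pool.Agent.Q233.JLW
import Pool.Agent.Q233.JKer

/-! One-step inequalities for partition functions in a fixed ball. -/

set_option autoImplicit false

namespace Pool.Agent.Q233.JPart

open MeasureTheory Set Metric Pool.Agent.Helper557 Pool.Agent.Helper557.TFP
open Pool.Agent.Q233.JKer
open scoped ENNReal

/-- the sum of `w (X i - X j)` over the pairs `i < j` -/
noncomputable def pairs (w : E3 → ℝ) {n : ℕ} (X : Fin n → E3) : ℝ :=
  ∑ i, ∑ j, if i < j then w (X i - X j) else 0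

lemma pairs_meas {w : E3 → ℝ} (hw : Measurable w) (n : ℕ) :
    Measurable (fun X : Fin n → E3 => pairs w X) := by
  unfold pairs
  refine Finset.measurable_fun_sum _ fun i _ => Finset.measurable_fun_sum _ fun j _ => ?_
  split_ifs
  · exact hw.comp ((measurable_pi_apply i).sub (measurable_pi_apply j))
  · exact measurable_const

/-- every pair is omitted by two of the `n + 1` subconfigurations -/
lemma pairs_sub (w : E3 → ℝ) {n : ℕ} (X : Fin (n + 1) → E3) :
    ∑ k : Fin (n + 1), pairs w (fun i => X (k.succAbove i)) = ((n:ℝ) - 1) * pairs w X := by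
  set G : Fin (n + 1) → Fin (n + 1) → ℝ := fun i j => if i < j then w (X i - X j) else 0 with hG
  have h1 : ∀ k : Fin (n + 1), pairs w (fun i => X (k.succAbove i)) =
      (∑ i, ∑ j, G i j) - (∑ j, G k j) - ∑ i, G i k := by
    intro k
    have e1 : ∀ a b : Fin n, (if a < b then w (X (k.succAbove a) - X (k.succAbove b)) else 0) =
        G (k.succAbove a) (k.succAbove b) := by
      intro a b
      simp only [hG, Fin.succAbove_lt_succAbove_iff]
    have e2 : pairs w (fun i => X (k.succAbove i)) =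
        ∑ a : Fin n, ∑ b : Fin n, G (k.succAbove a) (k.succAbove b) := by
      unfold pairs
      exact Finset.sum_congr rfl fun a _ => Finset.sum_congr rfl fun b _ => e1 a b
    have e3 : ∀ i, ∑ b : Fin n, G i (k.succAbove b) = (∑ j, G i j) - G i k := by
      intro i
      rw [Fin.sum_univ_succAbove _ k]
      ring
    have e4 : ∑ a : Fin n, ((∑ j, G (k.succAbove a) j) - G (k.succAbove a) k) =
        (∑ i, ((∑ j, G i j) - G i k)) - ((∑ j, G k j) - G k k) := by
      rw [Fin.sum_univ_succAbove (fun i => (∑ j, G i j) - G i k) k]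
      ring
    have e5 : G k k = 0 := by simp [hG]
    rw [e2]
    simp_rw [e3]
    rw [e4, e5, Finset.sum_sub_distrib]
    ring
  have h2 : pairs w X = ∑ i, ∑ j, G i j := rfl
  simp_rw [h1]
  rw [h2, Finset.sum_sub_distrib, Finset.sum_sub_distrib, Finset.sum_const, Finset.card_univ,
    Fintype.card_fin]
  have h3 : ∑ k, ∑ i, G i k = ∑ i, ∑ j, G i j := Finset.sum_comm
  rw [h3, nsmul_eq_mul]
  push_cast
  ring

/-- a configuration with one particle added -/
lemma pairs_cons (w : E3 → ℝ) {n : ℕ} (y : E3) (X : Fin n → E3) :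
    pairs w (Fin.cons y X : Fin (n + 1) → E3) = (∑ j, w (y - X j)) + pairs w X := by
  unfold pairs
  rw [Fin.sum_univ_succ]
  congr 1
  · rw [Fin.sum_univ_succ]
    simp
  · refine Finset.sum_congr rfl fun i _ => ?_
    rw [Fin.sum_univ_succ]
    simp

/-- the interaction with strengths `a` (pairs) and `γ` (background) -/
noncomputable def H (w : E3 → ℝ) (R a γ : ℝ) {n : ℕ} (X : Fin n → E3) : ℝ :=
  a * pairs w X - γ * ∑ i, phi R (X i)

lemma H_meas {w : E3 → ℝ} (hw : Measurable w) {R : ℝ} (hR : 0 < R) (a γ : ℝ) (n : ℕ) :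
    Measurable (fun X : Fin n → E3 => H w R a γ X) := by
  unfold H
  refine ((pairs_meas hw n).const_mul a).sub (Measurable.const_mul ?_ γ)
  exact Finset.measurable_fun_sum _ fun i _ => (phi_meas hR).comp (measurable_pi_apply i)

/-- Lebesgue measure in the ball, `n` particles -/
noncomputable def bm (R : ℝ) (n : ℕ) : Measure (Fin n → E3) :=
  Measure.pi (fun _ => (volume : Measure E3).restrict (ball 0 R))

/-- the partition function -/
noncomputable def W (β : ℝ) (w : E3 → ℝ) (R : ℝ) (n : ℕ) (a γ : ℝ) : ℝ≥0∞ :=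
  ∫⁻ X, ENNReal.ofReal (Real.exp (-β * H w R a γ X)) ∂bm R n

lemma sum_phi_sub {n : ℕ} (f : E3 → ℝ) (X : Fin (n + 1) → E3) :
    ∑ k : Fin (n + 1), ∑ i : Fin n, f (X (k.succAbove i)) = n * ∑ i, f (X i) := by
  have h1 : ∀ k : Fin (n + 1), ∑ i : Fin n, f (X (k.succAbove i)) = (∑ i, f (X i)) - f (X k) := by
    intro k
    rw [Fin.sum_univ_succAbove (fun i => f (X i)) k]
    ring
  simp_rw [h1]
  rw [Finset.sum_sub_distrib, Finset.sum_const, Finset.card_univ, Fintype.card_fin, nsmul_eq_mul]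
  push_cast
  ring

/-- removal of one particle -/
theorem W_remove (β : ℝ) {w : E3 → ℝ} (hw : Measurable w) {R : ℝ} (hR : 0 < R) {n : ℕ}
    (hn : 1 ≤ n) (a γ : ℝ) :
    W β w R (n + 1) (a * ((n - 1 : ℝ) / n)) γ ≤ ((W β w R n a γ) ^ (1 / (n:ℝ))) ^ (n + 1) := by
  have hn' : (0:ℝ) < n := by exact_mod_cast hn
  have key := JLW.loomis_whitney (ν := (volume : Measure E3).restrict (ball 0 R)) hn
    (fun X : Fin n → E3 => ENNReal.ofReal (Real.exp (-β * H w R a γ X)))
    (((H_meas hw hR a γ n).const_mul (-β)).exp.ennreal_ofReal)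
  refine le_trans (le_of_eq ?_) key
  unfold W bm
  refine lintegral_congr fun X => ?_
  have e1 : ∀ k : Fin (n + 1), ENNReal.ofReal (Real.exp (-β * H w R a γ
      (fun i => X (k.succAbove i)))) ^ (1 / (n:ℝ)) =
      ENNReal.ofReal (Real.exp (-β * (1 / (n:ℝ)) * H w R a γ (fun i => X (k.succAbove i)))) := by
    intro k
    rw [ENNReal.ofReal_rpow_of_pos (Real.exp_pos _), ← Real.exp_mul]
    congr 2
    ring
  simp_rw [e1]
  rw [← ENNReal.ofReal_prod_of_nonneg (fun _ _ => (Real.exp_pos _).le), ← Real.exp_sum]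
  congr 2
  rw [← Finset.mul_sum]
  have e2 : ∑ k : Fin (n + 1), H w R a γ (fun i => X (k.succAbove i)) =
      a * (((n:ℝ) - 1) * pairs w X) - γ * (n * ∑ i, phi R (X i)) := by
    unfold H
    rw [Finset.sum_sub_distrib, ← Finset.mul_sum, ← Finset.mul_sum, pairs_sub,
      sum_phi_sub (phi R) X]
  rw [e2]
  unfold H
  field_simp

/-- removal of many particles -/
theorem W_thin (β : ℝ) {w : E3 → ℝ} (hw : Measurable w) {R : ℝ} (hR : 0 < R) {k N : ℕ}
    (hk : 2 ≤ k) (hN : k ≤ N) (a γ : ℝ) :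
    (W β w R N (a * ((k - 1 : ℝ) / (N - 1))) γ) ^ (1 / (N:ℝ)) ≤ (W β w R k a γ) ^ (1 / (k:ℝ)) := by
  induction N, hN using Nat.le_induction with
  | base =>
    have : (k - 1 : ℝ) ≠ 0 := by
      have : (2:ℝ) ≤ k := by exact_mod_cast hk
      linarith
    rw [div_self this, mul_one]
  | succ N hN ih =>
    refine le_trans ?_ ih
    have hN2 : (2:ℝ) ≤ N := by exact_mod_cast hk.trans hN
    have h1 := W_remove β hw hR (n := N) (by omega) (a * ((k - 1 : ℝ) / (N - 1))) γ
    have h2 : a * ((k - 1 : ℝ) / (N - 1)) * ((N - 1 : ℝ) / N) =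
        a * ((k - 1 : ℝ) / (((N + 1 : ℕ) : ℝ) - 1)) := by
      have : (N - 1 : ℝ) ≠ 0 := by linarith
      have : (N : ℝ) ≠ 0 := by linarith
      push_cast
      rw [add_sub_cancel_right]
      field_simp
    rw [h2] at h1
    have hpos : (0:ℝ) < ((N + 1 : ℕ) : ℝ) := by positivity
    calc (W β w R (N + 1) (a * ((k - 1 : ℝ) / (((N + 1 : ℕ) : ℝ) - 1))) γ) ^ (1 / ((N + 1 : ℕ) : ℝ))
        ≤ (((W β w R N (a * ((k - 1 : ℝ) / (N - 1))) γ) ^ (1 / (N:ℝ))) ^ (N + 1)) ^
          (1 / ((N + 1 : ℕ) : ℝ)) := ENNReal.rpow_le_rpow h1 (by positivity)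
      _ = (W β w R N (a * ((k - 1 : ℝ) / (N - 1))) γ) ^ (1 / (N:ℝ)) := by
          rw [← ENNReal.rpow_natCast, ← ENNReal.rpow_mul]
          rw [mul_one_div_cancel hpos.ne', ENNReal.rpow_one]

end Pool.Agent.Q233.JPart
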