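import Mathlib
import Pool.Agent.Q233.JPart

/-! Insertion of one particle (Jensen's inequality). -/

set_option autoImplicit false

namespace Pool.Agent.Q233.JIns

open MeasureTheory Set Metric Pool.Agent.Helper557 Pool.Agent.Helper557.TFP
open Pool.Agent.Q233.JKer Pool.Agent.Q233.JPart
open scoped ENNReal

lemma jensen {α : Type*} [MeasurableSpace α] {μ : Measure α} [IsFiniteMeasure μ] {g : α → ℝ}
    (hg : Integrable g μ) {β m : ℝ} (hβ : 0 < β) (hm : ∫ x, g x ∂μ ≤ μ.real univ * m) :
    ENNReal.ofReal (μ.real univ * Real.exp (-β * m)) ≤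
      ∫⁻ x, ENNReal.ofReal (Real.exp (-β * g x)) ∂μ := by
  set h : α → ℝ := fun x => Real.exp (-β * m) * (1 - β * (g x - m)) with hh
  have hint : Integrable h μ := by
    have : Integrable (fun x => 1 - β * (g x - m)) μ :=
      (integrable_const _).sub ((hg.sub (integrable_const _)).const_mul β)
    exact this.const_mul _
  have h1 : ∀ x, h x ≤ Real.exp (-β * g x) := by
    intro x
    have e1 : Real.exp (-β * g x) = Real.exp (-β * m) * Real.exp (-β * (g x - m)) := by
      rw [← Real.exp_add]
      ring_nf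
    rw [e1, hh]
    refine mul_le_mul_of_nonneg_left ?_ (Real.exp_pos _).le
    have := Real.add_one_le_exp (-β * (g x - m))
    linarith
  have h2 : ∫ x, h x ∂μ = Real.exp (-β * m) * (μ.real univ - β * (∫ x, g x ∂μ - μ.real univ * m)) := by
    have hi1 : Integrable (fun x => β * (g x - m)) μ :=
      (hg.sub (integrable_const _)).const_mul β
    rw [hh, integral_const_mul, integral_sub (integrable_const _) hi1, integral_const_mul,
      integral_sub hg (integrable_const _), integral_const, integral_const]
    simp only [smul_eq_mul, mul_one]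
  have h3 : μ.real univ * Real.exp (-β * m) ≤ ∫ x, h x ∂μ := by
    rw [h2, mul_comm]
    refine mul_le_mul_of_nonneg_left ?_ (Real.exp_pos _).le
    nlinarith
  calc ENNReal.ofReal (μ.real univ * Real.exp (-β * m))
      ≤ ENNReal.ofReal (∫ x, h x ∂μ) := ENNReal.ofReal_le_ofReal h3
    _ ≤ ENNReal.ofReal (∫ x, max (h x) 0 ∂μ) := by
        refine ENNReal.ofReal_le_ofReal (integral_mono hint hint.pos_part fun x => le_max_left _ _)
    _ = ∫⁻ x, ENNReal.ofReal (max (h x) 0) ∂μ := by
        rw [ofReal_integral_eq_lintegral_ofReal hint.pos_part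
          (Filter.Eventually.of_forall fun x => le_max_right _ _)]
    _ ≤ ∫⁻ x, ENNReal.ofReal (Real.exp (-β * g x)) ∂μ := by
        refine lintegral_mono fun x => ENNReal.ofReal_le_ofReal ?_
        exact max_le (h1 x) (Real.exp_pos _).le

/-- Coulomb plus short-range -/
noncomputable def wv (v : E3 → ℝ) (x : E3) : ℝ := 1 / ‖x‖ + v x

lemma wv_meas {v : E3 → ℝ} (hv : Measurable v) : Measurable (wv v) := by
  unfold wv
  fun_prop

lemma shift_int {v : E3 → ℝ} (hvi : Integrable v) (c : E3) :
    Integrable (fun y => v (y - c)) := hvi.comp_sub_right c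

lemma shift_le {v : E3 → ℝ} (hvi : Integrable v) (c : E3) (s : Set E3) :
    ∫ y in s, v (y - c) ≤ ∫ x, |v x| := by
  calc ∫ y in s, v (y - c) ≤ ∫ y in s, |v (y - c)| :=
        integral_mono (shift_int hvi c).integrableOn (shift_int hvi c).abs.integrableOn
          fun y => le_abs_self _
    _ ≤ ∫ y, |v (y - c)| := setIntegral_le_integral (shift_int hvi c).abs
          (Filter.Eventually.of_forall fun y => abs_nonneg _)
    _ = ∫ x, |v x| := integral_sub_right_eq_self (fun x => |v x|) c

/-- insertion of one particle -/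
theorem W_insert {β : ℝ} (hβ : 0 < β) {v : E3 → ℝ} (hv : Measurable v) (hvi : Integrable v)
    {R : ℝ} (hR : 0 < R) (n : ℕ) (γ : ℝ) :
    ENNReal.ofReal (vol R * Real.exp (β * ((γ * DD R - n * ∫ x, |v x|) / vol R))) *
      W β (wv v) R n 1 (γ - 1 / vol R) ≤ W β (wv v) R (n + 1) 1 γ := by
  have hvol := vol_pos hR
  have hwm := wv_meas hv
  set ν : Measure E3 := (volume : Measure E3).restrict (ball 0 R) with hν
  have hνfin : IsFiniteMeasure ν := ⟨by rw [hν, Measure.restrict_apply_univ]; exact measure_ball_lt_top⟩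
  have hνr : ν.real univ = vol R := by
    rw [hν, Measure.real, Measure.restrict_apply_univ, vol_eq hR]
  set F : (Fin (n + 1) → E3) → ℝ≥0∞ := fun X => ENNReal.ofReal (Real.exp (-β * H (wv v) R 1 γ X))
    with hF
  have hFm : Measurable F := ((H_meas hwm hR 1 γ (n+1)).const_mul (-β)).exp.ennreal_ofReal
  have hmp := (measurePreserving_piFinSuccAbove (fun _ : Fin (n+1) => ν) 0).symm
  have e1 : W β (wv v) R (n + 1) 1 γ = ∫⁻ X : Fin n → E3, ∫⁻ y, F (Fin.cons y X) ∂ν ∂bm R n := by
    have h1 : W β (wv v) R (n + 1) 1 γ = ∫⁻ X, F X ∂Measure.pi (fun _ : Fin (n+1) => ν) := rfl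
    rw [h1, ← hmp.lintegral_comp hFm, lintegral_prod_symm]
    · refine lintegral_congr fun X => lintegral_congr fun y => ?_
      congr 1
      exact Fin.insertNth_zero' y X
    · exact (hFm.comp (MeasurableEquiv.measurable _)).aemeasurable
  rw [e1]
  have key : ∀ X : Fin n → E3,
      ENNReal.ofReal (vol R * Real.exp (β * ((γ * DD R - n * ∫ x, |v x|) / vol R))) *
        ENNReal.ofReal (Real.exp (-β * H (wv v) R 1 (γ - 1 / vol R) X)) ≤
      ∫⁻ y, F (Fin.cons y X) ∂ν := by
    intro X
    set g : E3 → ℝ := fun y => (∑ j, wv v (y - X j)) - γ * phi R y with hg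
    set m : ℝ := (1 / vol R) * ((∑ j, phi R (X j)) + n * (∫ x, |v x|) - γ * DD R) with hm
    have hH : ∀ y, H (wv v) R 1 γ (Fin.cons y X : Fin (n + 1) → E3) = g y + H (wv v) R 1 γ X := by
      intro y
      unfold H
      rw [pairs_cons, Fin.sum_univ_succ]
      simp only [Fin.cons_zero, Fin.cons_succ, hg]
      ring
    have hci : ∀ j, Integrable (fun y => 1 / ‖y - X j‖) ν := by
      intro j
      have := phi_int hR (X j)
      simp_rw [norm_sub_rev (X j)] at this
      exact this
    have hwi : ∀ j, Integrable (fun y => wv v (y - X j)) ν := fun j =>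
      (hci j).add (shift_int hvi (X j)).integrableOn
    have hgi : Integrable g ν := by
      refine (integrable_finsetSum _ fun j _ => hwi j).sub ?_
      exact (phi_int_ball hR).const_mul γ
    have hgint : ∫ y, g y ∂ν ≤ ν.real univ * m := by
      have e3 : ∫ y, g y ∂ν = (∑ j, ∫ y, wv v (y - X j) ∂ν) - γ * DD R := by
        rw [hg, integral_sub (integrable_finsetSum _ fun j _ => hwi j)
          ((phi_int_ball hR).const_mul γ), integral_finsetSum _ fun j _ => hwi j,
          integral_const_mul]
        rfl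
      have e4 : ∀ j, ∫ y, wv v (y - X j) ∂ν ≤ phi R (X j) + ∫ x, |v x| := by
        intro j
        have e5 : ∫ y, wv v (y - X j) ∂ν = (∫ y, 1 / ‖y - X j‖ ∂ν) + ∫ y, v (y - X j) ∂ν := by
          exact integral_add (hci j) (shift_int hvi (X j)).integrableOn
        rw [e5]
        have e6 : ∫ y, 1 / ‖y - X j‖ ∂ν = phi R (X j) := by
          unfold phi
          simp_rw [norm_sub_rev (X j)]
          rfl
        rw [e6]
        exact add_le_add le_rfl (shift_le hvi (X j) _)
      rw [e3, hνr, hm]
      have e7 : ∑ j, ∫ y, wv v (y - X j) ∂ν ≤ ∑ j : Fin n, (phi R (X j) + ∫ x, |v x|) :=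
        Finset.sum_le_sum fun j _ => e4 j
      rw [Finset.sum_add_distrib, Finset.sum_const, Finset.card_univ, Fintype.card_fin,
        nsmul_eq_mul] at e7
      have e8 : vol R * (1 / vol R * ((∑ j, phi R (X j)) + n * (∫ x, |v x|) - γ * DD R)) =
          (∑ j, phi R (X j)) + n * (∫ x, |v x|) - γ * DD R := by
        field_simp
      rw [e8]
      linarith
    have hj := jensen (μ := ν) hgi hβ hgint
    calc ENNReal.ofReal (vol R * Real.exp (β * ((γ * DD R - n * ∫ x, |v x|) / vol R))) *
        ENNReal.ofReal (Real.exp (-β * H (wv v) R 1 (γ - 1 / vol R) X))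
        = ENNReal.ofReal (Real.exp (-β * H (wv v) R 1 γ X)) *
          ENNReal.ofReal (ν.real univ * Real.exp (-β * m)) := by
          rw [← ENNReal.ofReal_mul (by positivity), ← ENNReal.ofReal_mul (Real.exp_pos _).le]
          congr 1
          rw [hνr, mul_assoc, ← Real.exp_add, mul_left_comm, ← Real.exp_add]
          congr 2
          unfold H
          rw [hm]
          field_simp
          ring
      _ ≤ ENNReal.ofReal (Real.exp (-β * H (wv v) R 1 γ X)) *
          ∫⁻ y, ENNReal.ofReal (Real.exp (-β * g y)) ∂ν := by gcongr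
      _ = ∫⁻ y, F (Fin.cons y X) ∂ν := by
          rw [← lintegral_const_mul']
          · refine lintegral_congr fun y => ?_
            rw [hF]
            simp only
            rw [hH y, ← ENNReal.ofReal_mul (Real.exp_pos _).le, ← Real.exp_add]
            congr 2
            ring
          · exact ENNReal.ofReal_ne_top
  calc ENNReal.ofReal (vol R * Real.exp (β * ((γ * DD R - n * ∫ x, |v x|) / vol R))) *
      W β (wv v) R n 1 (γ - 1 / vol R)
      = ∫⁻ X, ENNReal.ofReal (vol R * Real.exp (β * ((γ * DD R - n * ∫ x, |v x|) / vol R))) *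
        ENNReal.ofReal (Real.exp (-β * H (wv v) R 1 (γ - 1 / vol R) X)) ∂bm R n := by
        unfold W
        rw [← lintegral_const_mul']
        exact ENNReal.ofReal_ne_top
    _ ≤ _ := lintegral_mono key

end Pool.Agent.Q233.JIns
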