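import Mathlib
import Pool.Agent.Q233.JIns

/-! Finite-volume comparison of the partition functions of jellium at two densities. -/

set_option autoImplicit false

namespace Pool.Agent.Q233.JEst

open MeasureTheory Set Metric Pool.Agent.Helper557 Pool.Agent.Helper557.TFP
open Pool.Agent.Q233.JKer Pool.Agent.Q233.JPart Pool.Agent.Q233.JIns
open scoped ENNReal

/-- energy of `n` particles in the ball of radius `R`, neutralising background -/
noncomputable def EE (v : E3 → ℝ) (R : ℝ) {n : ℕ} (X : Fin n → E3) : ℝ :=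
  H (wv v) R 1 (n / vol R) X + 1 / 2 * (n / vol R) ^ 2 * DD R

/-- the partition function without `1 / n!` -/
noncomputable def ZZ (β : ℝ) (v : E3 → ℝ) (R : ℝ) (n : ℕ) : ℝ≥0∞ :=
  ∫⁻ X, ENNReal.ofReal (Real.exp (-β * EE v R X)) ∂bm R n

lemma ZZ_eq (β : ℝ) (v : E3 → ℝ) (R : ℝ) (n : ℕ) :
    ZZ β v R n = ENNReal.ofReal (Real.exp (-β * (1 / 2 * (n / vol R) ^ 2 * DD R))) *
      W β (wv v) R n 1 (n / vol R) := by
  unfold ZZ W
  rw [← lintegral_const_mul' _ _ ENNReal.ofReal_ne_top]
  refine lintegral_congr fun X => ?_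
  rw [← ENNReal.ofReal_mul (Real.exp_pos _).le, ← Real.exp_add]
  congr 2
  unfold EE
  ring

instance bm_fin (R : ℝ) (n : ℕ) : IsFiniteMeasure (bm R n) := by
  unfold bm
  have : IsFiniteMeasure ((volume : Measure E3).restrict (ball 0 R)) :=
    ⟨by rw [Measure.restrict_apply_univ]; exact measure_ball_lt_top⟩
  infer_instance

lemma bm_restrict (R : ℝ) (n : ℕ) :
    bm R n = (volume : Measure (Fin n → E3)).restrict (Set.univ.pi fun _ => ball (0:E3) R) := by
  unfold bm
  rw [volume_pi, Measure.restrict_pi_pi]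

lemma bm_mono {R R' : ℝ} (h : R ≤ R') (n : ℕ) : bm R n ≤ bm R' n := by
  rw [bm_restrict, bm_restrict]
  exact Measure.restrict_mono (Set.pi_mono fun _ _ => ball_subset_ball h) le_rfl

lemma bm_ne {R : ℝ} (hR : 0 < R) (n : ℕ) : bm R n ≠ 0 := by
  intro h
  have h1 : bm R n univ = 0 := by rw [h]; simp
  unfold bm at h1
  rw [Measure.pi_univ] at h1
  simp only [Measure.restrict_apply_univ, Finset.prod_eq_zero_iff, Finset.mem_univ, true_and] at h1
  obtain ⟨_, h2⟩ := h1
  exact (measure_ball_pos volume (0:E3) hR).ne' h2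

lemma W_pos (β : ℝ) {w : E3 → ℝ} (hw : Measurable w) {R : ℝ} (hR : 0 < R) (n : ℕ) (a γ : ℝ) :
    0 < W β w R n a γ := by
  unfold W
  rw [lintegral_pos_iff_support (((H_meas hw hR a γ n).const_mul (-β)).exp.ennreal_ofReal)]
  have : Function.support (fun X : Fin n → E3 => ENNReal.ofReal (Real.exp (-β * H w R a γ X))) =
      univ := by
    ext X
    simp [Real.exp_pos]
  rw [this]
  exact pos_iff_ne_zero.2 fun h => bm_ne hR n (Measure.measure_univ_eq_zero.1 h)

lemma ZZ_pos (β : ℝ) {v : E3 → ℝ} (hv : Measurable v) {R : ℝ} (hR : 0 < R) (n : ℕ) :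
    0 < ZZ β v R n := by
  rw [ZZ_eq]
  exact ENNReal.mul_pos (by simp [Real.exp_pos]) (W_pos β (wv_meas hv) hR n _ _).ne'

lemma ZZ_fin {β : ℝ} (hβ : 0 < β) {v : E3 → ℝ} {R B : ℝ} (n : ℕ)
    (hst : ∀ᵐ X ∂bm R n, -B * n ≤ EE v R X) : ZZ β v R n < ∞ := by
  unfold ZZ
  calc ∫⁻ X, ENNReal.ofReal (Real.exp (-β * EE v R X)) ∂bm R n
      ≤ ∫⁻ _, ENNReal.ofReal (Real.exp (β * (B * n))) ∂bm R n := by
        refine lintegral_mono_ae ?_
        filter_upwards [hst] with X hX
        refine ENNReal.ofReal_le_ofReal (Real.exp_le_exp.2 ?_)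
        nlinarith
    _ < ∞ := by
        rw [lintegral_const]
        exact ENNReal.mul_lt_top ENNReal.ofReal_lt_top (measure_lt_top _ _)

lemma W_fin_of_ZZ {β : ℝ} {v : E3 → ℝ} {R : ℝ} {n : ℕ} (h : ZZ β v R n < ∞) :
    W β (wv v) R n 1 (n / vol R) < ∞ := by
  rw [ZZ_eq] at h
  by_contra hcon
  rw [not_lt, top_le_iff] at hcon
  rw [hcon, ENNReal.mul_top (by simp [Real.exp_pos])] at h
  exact lt_irrefl _ h

lemma log_ZZ {β : ℝ} {v : E3 → ℝ} (hv : Measurable v) {R : ℝ} (hR : 0 < R) {n : ℕ}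
    (h : ZZ β v R n < ∞) :
    Real.log (ZZ β v R n).toReal = -β * (1 / 2 * (n / vol R) ^ 2 * DD R) +
      Real.log (W β (wv v) R n 1 (n / vol R)).toReal := by
  have hW : 0 < (W β (wv v) R n 1 (n / vol R)).toReal :=
    ENNReal.toReal_pos (W_pos β (wv_meas hv) hR n _ _).ne' (W_fin_of_ZZ h).ne
  rw [ZZ_eq, ENNReal.toReal_mul, ENNReal.toReal_ofReal (Real.exp_pos _).le,
    Real.log_mul (Real.exp_pos _).ne' hW.ne', Real.log_exp]

/-- comparison of the potentials of two charged balls -/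
lemma phi_diff {R R' c : ℝ} (hR : 0 < R) (h : R ≤ R') (hc : 0 ≤ c) (x : E3) :
    c / vol R * phi R x - c / vol R' * phi R' x ≤
      c * ((vol R' - vol R) / (vol R * vol R')) * (2 * Real.pi * R ^ 2) := by
  have hv := vol_pos hR
  have hv' := vol_pos (hR.trans_le h)
  have h1 := phi_mono (hR.trans_le h) h x
  have h2 := phi_le hR x
  have h3 : vol R ≤ vol R' := by
    unfold vol
    have := Real.pi_pos
    have : R ^ 3 ≤ R' ^ 3 := pow_le_pow_left₀ hR.le h 3
    gcongr
  have h4 : c / vol R * phi R x - c / vol R' * phi R' x ≤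
      (c / vol R - c / vol R') * phi R x := by
    have : c / vol R' * phi R x ≤ c / vol R' * phi R' x :=
      mul_le_mul_of_nonneg_left h1 (by positivity)
    linarith
  refine h4.trans ?_
  have h5 : c / vol R - c / vol R' = c * ((vol R' - vol R) / (vol R * vol R')) := by
    field_simp
  rw [h5]
  refine mul_le_mul_of_nonneg_left h2 ?_
  have : 0 ≤ vol R' - vol R := by linarith
  positivity

lemma rpow_log {x y : ℝ≥0∞} (hx : x ≠ 0) (hy : y ≠ ∞) {p q : ℝ} (hp : 0 < p) (hq : 0 < q)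
    (h : x ^ p ≤ y ^ q) : x ≠ ∞ ∧ p * Real.log x.toReal ≤ q * Real.log y.toReal := by
  have hyq : y ^ q ≠ ∞ := ENNReal.rpow_ne_top_of_nonneg hq.le hy
  have hxp : x ^ p ≠ ∞ := ne_top_of_le_ne_top hyq h
  have hxt : x ≠ ∞ := by
    rintro rfl
    rw [ENNReal.top_rpow_of_pos hp] at hxp
    exact hxp rfl
  refine ⟨hxt, ?_⟩
  have h1 : (x ^ p).toReal ≤ (y ^ q).toReal := ENNReal.toReal_mono hyq h
  rw [← ENNReal.toReal_rpow, ← ENNReal.toReal_rpow] at h1
  have hx0 : 0 < x.toReal := ENNReal.toReal_pos hx hxt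
  have h2 := Real.log_le_log (Real.rpow_pos_of_pos hx0 p) h1
  have hy0 : 0 < y.toReal := by
    rcases (ENNReal.toReal_nonneg (a := y)).lt_or_eq with h3 | h3
    · exact h3
    · rw [← h3, Real.zero_rpow hq.ne'] at h1
      exact absurd (Real.rpow_pos_of_pos hx0 p) (not_lt.2 h1)
  rwa [Real.log_rpow hx0, Real.log_rpow hy0] at h2

lemma qq {R : ℝ} (hR : 0 < R) (c : ℝ) : (c / vol R) ^ 2 * DD R = c ^ 2 * (6 / (5 * R)) := by
  rw [← DD_vol hR]
  have := vol_pos hR
  field_simp

/-- removing particles: from `N` particles in the ball of radius `R` to `k ≤ N` particles in the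
slightly larger ball of radius `R'` -/
theorem del {β : ℝ} (hβ : 0 < β) {v : E3 → ℝ} (hv : Measurable v) {R R' B : ℝ} (hR : 0 < R)
    (hRR : R ≤ R') {k N : ℕ} (hk : 2 ≤ k) (hN : k ≤ N)
    (hvol : vol R' - vol R ≤ vol R / N)
    (hst : ∀ᵐ X ∂bm R N, -B * N ≤ EE v R X) (hfin : ZZ β v R' k < ∞) :
    (k / N : ℝ) * Real.log (ZZ β v R N).toReal -
        k * β * (((N - k : ℝ) / (N - 1)) * B + (21 / 10) / R) ≤
      Real.log (ZZ β v R' k).toReal := by
  have hR' : 0 < R' := hR.trans_le hRR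
  have hV := vol_pos hR
  have hV' := vol_pos hR'
  have hpi := Real.pi_pos
  have hk2 : (2:ℝ) ≤ k := by exact_mod_cast hk
  have hkN : (k:ℝ) ≤ N := by exact_mod_cast hN
  have hN2 : (2:ℝ) ≤ N := hk2.trans hkN
  have hVV : vol R ≤ vol R' := by
    unfold vol
    have : R ^ 3 ≤ R' ^ 3 := pow_le_pow_left₀ hR.le hRR 3
    gcongr
  set a : ℝ := (k - 1 : ℝ) / (N - 1) with ha
  have ha0 : 0 ≤ a := div_nonneg (by linarith) (by linarith)
  have ha1 : a ≤ 1 := by
    rw [ha, div_le_one (by linarith)]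
    linarith
  have ha2 : a * N ≤ k := by
    rw [ha, div_mul_eq_mul_div, div_le_iff₀ (by linarith)]
    nlinarith
  -- step 1
  have h1 := W_thin β (wv_meas hv) hR' hk hN 1 (k / vol R')
  rw [one_mul] at h1
  have hWk := W_fin_of_ZZ hfin
  obtain ⟨hWN, h2⟩ := rpow_log (W_pos β (wv_meas hv) hR' N _ _).ne' hWk.ne (by positivity)
    (by positivity) h1
  -- step 2
  set c : ℝ := (1 - a) * (B * N) + N * (3 / (2 * R)) - a * (1 / 2 * (N / vol R) ^ 2 * DD R) with hc
  have h3 : ENNReal.ofReal (Real.exp (-β * c)) * ZZ β v R N ≤ W β (wv v) R' N a (k / vol R') := by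
    unfold ZZ W
    rw [← lintegral_const_mul' _ _ ENNReal.ofReal_ne_top]
    refine le_trans (lintegral_mono_ae ?_) (lintegral_mono' (bm_mono hRR N) le_rfl)
    filter_upwards [hst] with X hX
    rw [← ENNReal.ofReal_mul (Real.exp_pos _).le, ← Real.exp_add]
    refine ENNReal.ofReal_le_ofReal (Real.exp_le_exp.2 ?_)
    have h4 : H (wv v) R' a (k / vol R') X ≤ c + EE v R X := by
      have h5 : ∀ x, a * (N / vol R) * phi R x - k / vol R' * phi R' x ≤ 3 / (2 * R) := by
        intro x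
        have e1 : a * (N / vol R) * phi R x ≤ k / vol R * phi R x := by
          refine mul_le_mul_of_nonneg_right ?_ (phi_nonneg R x)
          rw [← mul_div_assoc]
          gcongr
        have e2 := phi_diff hR hRR (c := (k:ℝ)) (by positivity) x
        have e3 : (k:ℝ) * ((vol R' - vol R) / (vol R * vol R')) * (2 * Real.pi * R ^ 2) ≤
            3 / (2 * R) := by
          have e4 : (vol R' - vol R) / (vol R * vol R') ≤ 1 / (N * vol R) := by
            rw [div_le_div_iff₀ (by positivity) (by positivity)]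
            have e5 : (vol R' - vol R) * N ≤ vol R := by
              rwa [le_div_iff₀ (by linarith)] at hvol
            nlinarith
          calc (k:ℝ) * ((vol R' - vol R) / (vol R * vol R')) * (2 * Real.pi * R ^ 2)
              ≤ N * (1 / (N * vol R)) * (2 * Real.pi * R ^ 2) := by
                have : 0 ≤ (vol R' - vol R) / (vol R * vol R') :=
                  div_nonneg (by linarith) (by positivity)
                gcongr
            _ = 3 / (2 * R) := by
                unfold vol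
                field_simp
                ring
        linarith
      have h6 : a * (N / vol R) * ∑ i, phi R (X i) - k / vol R' * ∑ i, phi R' (X i) ≤
          N * (3 / (2 * R)) := by
        rw [Finset.mul_sum, Finset.mul_sum, ← Finset.sum_sub_distrib]
        refine (Finset.sum_le_sum fun i _ => h5 (X i)).trans ?_
        rw [Finset.sum_const, Finset.card_univ, Fintype.card_fin, nsmul_eq_mul]
      have h7 : H (wv v) R' a (k / vol R') X = a * EE v R X +
          (a * (N / vol R) * ∑ i, phi R (X i) - k / vol R' * ∑ i, phi R' (X i)) -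
          a * (1 / 2 * (N / vol R) ^ 2 * DD R) := by
        unfold EE H
        ring
      have h8 : a * EE v R X ≤ EE v R X + (1 - a) * (B * N) := by
        nlinarith [mul_nonneg (sub_nonneg.2 ha1) (by linarith : 0 ≤ EE v R X + B * N)]
      rw [h7, hc]
      linarith
    nlinarith
  have hZpos : 0 < (ZZ β v R N).toReal := by
    refine ENNReal.toReal_pos (ZZ_pos β hv hR N).ne' (ZZ_fin hβ N hst).ne
  have h9 : -β * c + Real.log (ZZ β v R N).toReal ≤
      Real.log (W β (wv v) R' N a (k / vol R')).toReal := by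
    have := ENNReal.toReal_mono hWN h3
    rw [ENNReal.toReal_mul, ENNReal.toReal_ofReal (Real.exp_pos _).le] at this
    have h10 := Real.log_le_log (by positivity) this
    rwa [Real.log_mul (Real.exp_pos _).ne' hZpos.ne', Real.log_exp] at h10
  rw [log_ZZ hv hR' hfin]
  have h11 : (k / N : ℝ) * (-β * c + Real.log (ZZ β v R N).toReal) ≤
      Real.log (W β (wv v) R' k 1 (k / vol R')).toReal := by
    have e1 : (k / N : ℝ) * (-β * c + Real.log (ZZ β v R N).toReal) ≤
        (k / N : ℝ) * Real.log (W β (wv v) R' N a (k / vol R')).toReal := by gcongr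
    have e2 : (k / N : ℝ) * Real.log (W β (wv v) R' N a (k / vol R')).toReal =
        k * (1 / N * Real.log (W β (wv v) R' N a (k / vol R')).toReal) := by ring
    have e3 : (k:ℝ) * (1 / N * Real.log (W β (wv v) R' N a (k / vol R')).toReal) ≤
        k * (1 / k * Real.log (W β (wv v) R' k 1 (k / vol R')).toReal) := by
      gcongr
    have e4 : (k:ℝ) * (1 / k * Real.log (W β (wv v) R' k 1 (k / vol R')).toReal) =
        Real.log (W β (wv v) R' k 1 (k / vol R')).toReal := by field_simp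
    linarith
  -- energies
  have hq1 := qq hR (N:ℝ)
  have hq2 := qq hR' (k:ℝ)
  have h12 : (6:ℝ) / (5 * R') ≤ 6 / (5 * R) := by gcongr
  have h13 : (k / N : ℝ) * c = k * (((N - k : ℝ) / (N - 1)) * B) + k * (3 / (2 * R)) -
      (1 / 2) * (k * N * a * (6 / (5 * R))) := by
    have e1 : 1 - a = (N - k : ℝ) / (N - 1) := by
      have hN1 : (N:ℝ) - 1 ≠ 0 := by linarith
      rw [ha, eq_div_iff hN1, sub_mul, div_mul_cancel₀ _ hN1]
      ring
    have e2 : a * (1 / 2 * (N / vol R) ^ 2 * DD R) = a * (1 / 2 * (N ^ 2 * (6 / (5 * R)))) := by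
      rw [← hq1]; ring
    rw [hc, e1, e2]
    field_simp
  have h14 : 1 / 2 * (k / vol R') ^ 2 * DD R' = 1 / 2 * (k ^ 2 * (6 / (5 * R'))) := by
    rw [← hq2]; ring
  have h15 : (k:ℝ) ^ 2 * (6 / (5 * R')) - k * N * a * (6 / (5 * R)) ≤ k * (6 / (5 * R)) := by
    have e1 : (k:ℝ) ^ 2 * (6 / (5 * R')) ≤ k ^ 2 * (6 / (5 * R)) := by gcongr
    have e2 : (k:ℝ) - 1 ≤ N * a := by
      rw [ha, ← mul_div_assoc, le_div_iff₀ (by linarith)]
      nlinarith
    have e3 : (k:ℝ) ^ 2 - k * N * a ≤ k := by nlinarith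
    have e4 : 0 ≤ 6 / (5 * R) := by positivity
    nlinarith [mul_le_mul_of_nonneg_right e3 e4]
  rw [h14]
  have h16 : (k:ℝ) * ((21 / 10) / R) = k * (3 / (2 * R)) + 1 / 2 * (k * (6 / (5 * R))) := by
    field_simp
    ring
  have h17 : (k / N : ℝ) * (-β * c + Real.log (ZZ β v R N).toReal) =
      -β * ((k / N : ℝ) * c) + (k / N : ℝ) * Real.log (ZZ β v R N).toReal := by ring
  rw [h17, h13] at h11
  have h18 : (k:ℝ) * β * (((N - k : ℝ) / (N - 1)) * B + (21 / 10) / R) =
      β * (k * (((N - k : ℝ) / (N - 1)) * B)) + β * (k * ((21 / 10) / R)) := by ring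
  rw [h18, h16]
  nlinarith [mul_le_mul_of_nonneg_left h15 hβ.le]

/-- adding particles in a fixed ball -/
theorem W_many {β : ℝ} (hβ : 0 < β) {v : E3 → ℝ} (hv : Measurable v) (hvi : Integrable v)
    {R : ℝ} (hR : 0 < R) (N m : ℕ) :
    ENNReal.ofReal (vol R ^ m * Real.exp (β * (1 / 2 * ((N + m : ℝ) ^ 2 - N ^ 2) *
      (6 / (5 * R)) - (∫ x, |v x|) * (N + m) * m / vol R))) * W β (wv v) R N 1 (N / vol R) ≤
      W β (wv v) R (N + m) 1 ((N + m : ℕ) / vol R) := by
  have hV := vol_pos hR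
  have hI : 0 ≤ ∫ x, |v x| := integral_nonneg fun x => abs_nonneg _
  induction m with
  | zero => simp
  | succ m ih =>
    have h1 := W_insert hβ hv hvi hR (N + m) (((N + (m + 1) : ℕ) : ℝ) / vol R)
    have h2 : ((N + (m + 1) : ℕ) : ℝ) / vol R - 1 / vol R = ((N + m : ℕ) : ℝ) / vol R := by
      push_cast
      ring
    rw [h2] at h1
    refine le_trans ?_ h1
    refine le_trans ?_ (mul_le_mul' le_rfl ih)
    rw [← mul_assoc, ← ENNReal.ofReal_mul (by positivity)]
    refine mul_le_mul' (ENNReal.ofReal_le_ofReal ?_) le_rfl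
    have h3 : vol R * Real.exp (β * ((((N + (m + 1) : ℕ) : ℝ) / vol R * DD R -
        ((N + m : ℕ) : ℝ) * ∫ x, |v x|) / vol R)) *
        (vol R ^ m * Real.exp (β * (1 / 2 * ((N + m : ℝ) ^ 2 - N ^ 2) * (6 / (5 * R)) -
        (∫ x, |v x|) * (N + m) * m / vol R))) =
        vol R ^ (m + 1) * Real.exp (β * ((((N + (m + 1) : ℕ) : ℝ) / vol R * DD R -
        ((N + m : ℕ) : ℝ) * ∫ x, |v x|) / vol R) + β * (1 / 2 * ((N + m : ℝ) ^ 2 - N ^ 2) *
        (6 / (5 * R)) - (∫ x, |v x|) * (N + m) * m / vol R)) := by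
      rw [Real.exp_add]
      ring
    rw [h3]
    refine mul_le_mul_of_nonneg_left (Real.exp_le_exp.2 ?_) (by positivity)
    rw [← mul_add]
    refine mul_le_mul_of_nonneg_left ?_ hβ.le
    have h4 : (((N + (m + 1) : ℕ) : ℝ) / vol R * DD R - ((N + m : ℕ) : ℝ) * ∫ x, |v x|) / vol R =
        (N + m + 1) * (6 / (5 * R)) - (N + m) * (∫ x, |v x|) / vol R := by
      rw [← DD_vol hR]
      push_cast
      field_simp
      ring
    rw [h4]
    have h5 : (∫ x, |v x|) * (N + ((m + 1 : ℕ) : ℝ)) * ((m + 1 : ℕ) : ℝ) / vol R =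
        (∫ x, |v x|) * (N + m) * m / vol R + (N + m) * (∫ x, |v x|) / vol R +
          (∫ x, |v x|) * (m + 1) / vol R := by
      push_cast
      field_simp
      ring
    have h6 : 0 ≤ (∫ x, |v x|) * (m + 1) / vol R := by positivity
    have h7 : 0 ≤ 6 / (5 * R) := by positivity
    have h8 : 1 / 2 * ((N + ((m + 1 : ℕ) : ℝ)) ^ 2 - N ^ 2) * (6 / (5 * R)) =
        (N + m + 1) * (6 / (5 * R)) + 1 / 2 * ((N + m : ℝ) ^ 2 - N ^ 2) * (6 / (5 * R)) -
          1 / 2 * (6 / (5 * R)) := by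
      push_cast
      ring
    rw [h5, h8]
    linarith

/-- adding particles: from `N` particles in the ball of radius `R` to `N + m` particles in the
slightly larger ball of radius `R'` -/
theorem ins {β : ℝ} (hβ : 0 < β) {v : E3 → ℝ} (hv : Measurable v) (hvi : Integrable v)
    {R R' : ℝ} (hR : 0 < R) (hRR : R ≤ R') {N m : ℕ} (hN : 1 ≤ N)
    (hvol : vol R' - vol R ≤ vol R / N)
    (hfin : ZZ β v R' (N + m) < ∞) (hfinN : ZZ β v R N < ∞) :
    Real.log (ZZ β v R N).toReal + m * Real.log (vol R') -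
        β * ((∫ x, |v x|) * (N + m) * m / vol R' + N * (3 / (2 * R))) ≤
      Real.log (ZZ β v R' (N + m)).toReal := by
  have hR' : 0 < R' := hR.trans_le hRR
  have hV := vol_pos hR
  have hV' := vol_pos hR'
  have hpi := Real.pi_pos
  have hN1 : (1:ℝ) ≤ N := by exact_mod_cast hN
  have hVV : vol R ≤ vol R' := by
    unfold vol
    have : R ^ 3 ≤ R' ^ 3 := pow_le_pow_left₀ hR.le hRR 3
    gcongr
  have hWfin : W β (wv v) R' (N + m) 1 ((N + m : ℕ) / vol R') ≠ ∞ := (W_fin_of_ZZ hfin).ne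
  have h1 := W_many hβ hv hvi hR' N m
  have hc0 : ENNReal.ofReal (vol R' ^ m * Real.exp (β * (1 / 2 * ((N + m : ℝ) ^ 2 - N ^ 2) *
      (6 / (5 * R')) - (∫ x, |v x|) * (N + m) * m / vol R'))) ≠ 0 := by
    rw [Ne, ENNReal.ofReal_eq_zero, not_le]
    positivity
  have hWN : W β (wv v) R' N 1 (N / vol R') ≠ ∞ := by
    intro h
    rw [h, ENNReal.mul_top hc0] at h1
    exact hWfin (top_le_iff.1 h1)
  have hWNpos : 0 < (W β (wv v) R' N 1 (N / vol R')).toReal :=
    ENNReal.toReal_pos (W_pos β (wv_meas hv) hR' N _ _).ne' hWN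
  have h2 : (m:ℝ) * Real.log (vol R') + β * (1 / 2 * ((N + m : ℝ) ^ 2 - N ^ 2) *
      (6 / (5 * R')) - (∫ x, |v x|) * (N + m) * m / vol R') +
      Real.log (W β (wv v) R' N 1 (N / vol R')).toReal ≤
      Real.log (W β (wv v) R' (N + m) 1 ((N + m : ℕ) / vol R')).toReal := by
    have h3 := ENNReal.toReal_mono hWfin h1
    rw [ENNReal.toReal_mul, ENNReal.toReal_ofReal (by positivity)] at h3
    have h4 := Real.log_le_log (by positivity) h3
    rwa [Real.log_mul (by positivity) hWNpos.ne', Real.log_mul (by positivity)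
      (Real.exp_pos _).ne', Real.log_exp, Real.log_pow] at h4
  -- comparison of the two balls
  have h5 : ENNReal.ofReal (Real.exp (-β * (N * (3 / (2 * R))))) * W β (wv v) R N 1 (N / vol R) ≤
      W β (wv v) R' N 1 (N / vol R') := by
    unfold W
    rw [← lintegral_const_mul' _ _ ENNReal.ofReal_ne_top]
    refine le_trans (lintegral_mono fun X => ?_) (lintegral_mono' (bm_mono hRR N) le_rfl)
    rw [← ENNReal.ofReal_mul (Real.exp_pos _).le, ← Real.exp_add]
    refine ENNReal.ofReal_le_ofReal (Real.exp_le_exp.2 ?_)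
    have h6 : ∀ x, N / vol R * phi R x - N / vol R' * phi R' x ≤ 3 / (2 * R) := by
      intro x
      have e2 := phi_diff hR hRR (c := (N:ℝ)) (by positivity) x
      have e3 : (N:ℝ) * ((vol R' - vol R) / (vol R * vol R')) * (2 * Real.pi * R ^ 2) ≤
          3 / (2 * R) := by
        have e4 : (vol R' - vol R) / (vol R * vol R') ≤ 1 / (N * vol R) := by
          rw [div_le_div_iff₀ (by positivity) (by positivity)]
          have e5 : (vol R' - vol R) * N ≤ vol R := by
            rwa [le_div_iff₀ (by linarith)] at hvol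
          nlinarith
        calc (N:ℝ) * ((vol R' - vol R) / (vol R * vol R')) * (2 * Real.pi * R ^ 2)
            ≤ N * (1 / (N * vol R)) * (2 * Real.pi * R ^ 2) := by gcongr
          _ = 3 / (2 * R) := by
              unfold vol
              field_simp
              ring
      linarith
    have h7 : N / vol R * ∑ i, phi R (X i) - N / vol R' * ∑ i, phi R' (X i) ≤
        N * (3 / (2 * R)) := by
      rw [Finset.mul_sum, Finset.mul_sum, ← Finset.sum_sub_distrib]
      refine (Finset.sum_le_sum fun i _ => h6 (X i)).trans ?_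
      rw [Finset.sum_const, Finset.card_univ, Fintype.card_fin, nsmul_eq_mul]
    have h8 : H (wv v) R' 1 (N / vol R') X ≤ N * (3 / (2 * R)) + H (wv v) R 1 (N / vol R) X := by
      unfold H
      linarith
    nlinarith
  have hWpos : 0 < (W β (wv v) R N 1 (N / vol R)).toReal :=
    ENNReal.toReal_pos (W_pos β (wv_meas hv) hR N _ _).ne' (W_fin_of_ZZ hfinN).ne
  have h9 : -β * (N * (3 / (2 * R))) + Real.log (W β (wv v) R N 1 (N / vol R)).toReal ≤
      Real.log (W β (wv v) R' N 1 (N / vol R')).toReal := by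
    have := ENNReal.toReal_mono hWN h5
    rw [ENNReal.toReal_mul, ENNReal.toReal_ofReal (Real.exp_pos _).le] at this
    have h10 := Real.log_le_log (by positivity) this
    rwa [Real.log_mul (Real.exp_pos _).ne' hWpos.ne', Real.log_exp] at h10
  rw [log_ZZ hv hR' hfin, log_ZZ hv hR hfinN]
  have e1 : 1 / 2 * (((N + m : ℕ) : ℝ) / vol R') ^ 2 * DD R' =
      1 / 2 * ((N + m : ℝ) ^ 2 * (6 / (5 * R'))) := by
    have := qq hR' ((N + m : ℕ) : ℝ)
    push_cast at this ⊢
    rw [← this]; ring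
  have e2 : 1 / 2 * ((N : ℝ) / vol R) ^ 2 * DD R = 1 / 2 * ((N : ℝ) ^ 2 * (6 / (5 * R))) := by
    have := qq hR (N : ℝ)
    rw [← this]; ring
  have e3 : (N:ℝ) ^ 2 * (6 / (5 * R')) ≤ N ^ 2 * (6 / (5 * R)) := by gcongr
  rw [e1, e2]
  nlinarith [mul_le_mul_of_nonneg_left e3 hβ.le]

end Pool.Agent.Q233.JEst
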