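import Mathlib
import Pool.Agent.Q233.JEst

/-! The thermodynamic limit: comparison of the free energies at two densities. -/

set_option autoImplicit false

namespace Pool.Agent.Q233.JLim

open MeasureTheory Set Metric Filter Topology Pool.Agent.Helper557 Pool.Agent.Helper557.TFP
open Pool.Agent.Q233.JKer Pool.Agent.Q233.JPart Pool.Agent.Q233.JIns Pool.Agent.Q233.JEst
open scoped ENNReal

/-- radius of the ball of volume `j / ρ` -/
noncomputable def rad (ρ : ℝ) (j : ℕ) : ℝ := (3 * j / (4 * Real.pi * ρ)) ^ (1 / 3 : ℝ)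

lemma rad_pos {ρ : ℝ} (hρ : 0 < ρ) {j : ℕ} (hj : 1 ≤ j) : 0 < rad ρ j := by
  have : (0:ℝ) < j := by exact_mod_cast hj
  have := Real.pi_pos
  unfold rad
  positivity

lemma vol_rad {ρ : ℝ} (hρ : 0 < ρ) (j : ℕ) : vol (rad ρ j) = j / ρ := by
  have hpi := Real.pi_pos
  unfold vol rad
  rw [← Real.rpow_natCast, ← Real.rpow_mul (by positivity)]
  norm_num
  field_simp

lemma rad_le {ρ ρ' : ℝ} (hρ : 0 < ρ) (hρ' : 0 < ρ') {N k : ℕ} (h : (N:ℝ) / ρ ≤ k / ρ') :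
    rad ρ N ≤ rad ρ' k := by
  have hpi := Real.pi_pos
  unfold rad
  refine Real.rpow_le_rpow (by positivity) ?_ (by norm_num)
  have e1 : 3 * (N:ℝ) / (4 * Real.pi * ρ) = 3 / (4 * Real.pi) * (N / ρ) := by field_simp
  have e2 : 3 * (k:ℝ) / (4 * Real.pi * ρ') = 3 / (4 * Real.pi) * (k / ρ') := by field_simp
  rw [e1, e2]
  gcongr

lemma rad_tendsto {ρ : ℝ} (hρ : 0 < ρ) {f : ℕ → ℕ} (hf : Tendsto f atTop atTop) (c : ℝ) :
    Tendsto (fun k => c / rad ρ (f k)) atTop (𝓝 0) := by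
  refine Tendsto.div_atTop tendsto_const_nhds ?_
  unfold rad
  refine (tendsto_rpow_atTop (by norm_num)).comp ?_
  have hpi := Real.pi_pos
  have e1 : ∀ k, 3 * (f k : ℝ) / (4 * Real.pi * ρ) = (3 / (4 * Real.pi * ρ)) * f k := by
    intro k; ring
  simp_rw [e1]
  exact (tendsto_natCast_atTop_atTop.comp hf).const_mul_atTop (by positivity)

/-- the finite volume free energy (times `-β`) per volume -/
noncomputable def gN (β : ℝ) (v : E3 → ℝ) (ρ : ℝ) (N : ℕ) : ℝ :=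
  ρ / N * (Real.log (ZZ β v (rad ρ N) N).toReal - Real.log (N.factorial : ℝ))

/-- stability in the balls of density `ρ` -/
def Stab (v : E3 → ℝ) (ρ B : ℝ) : Prop :=
  ∀ N : ℕ, 1 ≤ N → ∀ᵐ X ∂bm (rad ρ N) N, -B * N ≤ EE v (rad ρ N) X

lemma log_fact_div {k N : ℕ} (hk : 1 ≤ k) (h : k ≤ N) :
    Real.log (k.factorial : ℝ) / k ≤ Real.log (N.factorial : ℝ) / N := by
  induction N, h using Nat.le_induction with
  | base => exact le_rfl
  | succ N hN ih =>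
    refine ih.trans ?_
    have hN1 : (1:ℝ) ≤ N := by exact_mod_cast hk.trans hN
    have hf : (0:ℝ) < N.factorial := by exact_mod_cast N.factorial_pos
    have h1 : Real.log ((N + 1).factorial : ℝ) = Real.log (N + 1) + Real.log (N.factorial : ℝ) := by
      rw [Nat.factorial_succ]
      push_cast
      rw [Real.log_mul (by positivity) hf.ne']
    have h2 : Real.log (N.factorial : ℝ) ≤ N * Real.log (N + 1) := by
      have h3 : (N.factorial : ℝ) ≤ ((N:ℝ) + 1) ^ N := by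
        have : N.factorial ≤ (N + 1) ^ N := (Nat.factorial_le_pow N).trans (Nat.pow_le_pow_left (by omega) N)
        exact_mod_cast this
      have := Real.log_le_log hf h3
      rwa [Real.log_pow] at this
    rw [h1, div_le_div_iff₀ (by linarith) (by positivity)]
    push_cast
    nlinarith

lemma log_fact_le (N m : ℕ) :
    Real.log ((N + m).factorial : ℝ) ≤ Real.log (N.factorial : ℝ) + m * Real.log (N + m) := by
  rcases Nat.eq_zero_or_pos m with rfl | hm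
  · simp
  have hf : (0:ℝ) < N.factorial := by exact_mod_cast N.factorial_pos
  have hf2 : (0:ℝ) < (N + m).factorial := by exact_mod_cast (N + m).factorial_pos
  have h1 : ((N + m).factorial : ℝ) ≤ N.factorial * ((N:ℝ) + m) ^ m := by
    have := Nat.factorial_mul_pow_le_factorial (m := N) (n := m)
    have h2 : (N + m).factorial ≤ N.factorial * (N + m) ^ m := by
      rw [← Nat.factorial_mul_ascFactorial]
      refine Nat.mul_le_mul_left _ ?_
      have h3 := Nat.ascFactorial_le_pow_add N m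
      exact h3
    exact_mod_cast h2
  have hpos : (0:ℝ) < (N:ℝ) + m := by positivity
  have := Real.log_le_log hf2 h1
  rwa [Real.log_mul hf.ne' (by positivity), Real.log_pow] at this

/-- number of particles at density `ρ` in (almost) the ball of `k` particles at density `ρ'` -/
noncomputable def nn (ρ ρ' : ℝ) (k : ℕ) : ℕ := ⌊ρ * k / ρ'⌋₊

lemma nn_tendsto {ρ ρ' : ℝ} (hρ : 0 < ρ) (hρ' : 0 < ρ') : Tendsto (nn ρ ρ') atTop atTop := by
  unfold nn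
  refine tendsto_nat_floor_atTop.comp ?_
  have e1 : ∀ k : ℕ, ρ * k / ρ' = (ρ / ρ') * k := by intro k; ring
  simp_rw [e1]
  exact tendsto_natCast_atTop_atTop.const_mul_atTop (by positivity)

lemma nn_ratio {ρ ρ' : ℝ} (hρ : 0 < ρ) (hρ' : 0 < ρ') :
    Tendsto (fun k : ℕ => (nn ρ ρ' k : ℝ) / k) atTop (𝓝 (ρ / ρ')) := by
  have h1 := (tendsto_nat_floor_mul_div_atTop (R := ℝ) (a := ρ / ρ') (by positivity)).comp
    (tendsto_natCast_atTop_atTop (R := ℝ))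
  refine h1.congr fun k => ?_
  unfold nn
  simp only [Function.comp]
  congr 3
  ring

lemma nn_le {ρ ρ' : ℝ} (hρ : 0 < ρ) (hρ' : 0 < ρ') (k : ℕ) : (nn ρ ρ' k : ℝ) / ρ ≤ k / ρ' := by
  have h1 : (nn ρ ρ' k : ℝ) ≤ ρ * k / ρ' := Nat.floor_le (by positivity)
  rw [div_le_iff₀ hρ]
  refine h1.trans (le_of_eq ?_)
  ring

lemma nn_vol {ρ ρ' : ℝ} (hρ : 0 < ρ) (hρ' : 0 < ρ') {k : ℕ} (h : 1 ≤ nn ρ ρ' k) :
    vol (rad ρ' k) - vol (rad ρ (nn ρ ρ' k)) ≤ vol (rad ρ (nn ρ ρ' k)) / nn ρ ρ' k := by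
  have hN : (0:ℝ) < nn ρ ρ' k := by exact_mod_cast h
  rw [vol_rad hρ', vol_rad hρ]
  have h1 : ρ * k / ρ' < nn ρ ρ' k + 1 := Nat.lt_floor_add_one _
  have e1 : (nn ρ ρ' k : ℝ) / ρ / nn ρ ρ' k = 1 / ρ := by field_simp
  rw [e1]
  have h2 : (k:ℝ) / ρ' = (ρ * k / ρ') / ρ := by field_simp
  rw [h2, ← sub_div]
  gcongr
  linarith

lemma ZZ_fin' {β : ℝ} (hβ : 0 < β) {v : E3 → ℝ} {ρ B : ℝ} (hst : Stab v ρ B) {k : ℕ}
    (hk : 1 ≤ k) : ZZ β v (rad ρ k) k < ∞ := ZZ_fin hβ k (hst k hk)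

/-- removing particles, in the limit -/
theorem lim_del {β : ℝ} (hβ : 0 < β) {v : E3 → ℝ} (hv : Measurable v) {ρ ρ' B B' : ℝ}
    (hρ' : 0 < ρ') (hlt : ρ' < ρ) (hst : Stab v ρ B) (hst' : Stab v ρ' B') {g g' : ℝ}
    (hg : Tendsto (gN β v ρ) atTop (𝓝 g)) (hg' : Tendsto (gN β v ρ') atTop (𝓝 g')) :
    ρ' / ρ * g - β * ρ' * (1 - ρ' / ρ) * B ≤ g' := by
  have hρ : 0 < ρ := hρ'.trans hlt
  have hpi := Real.pi_pos
  have ht := nn_tendsto hρ hρ'
  have hratio := nn_ratio hρ hρ'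
  have hfin : ∀ᶠ k : ℕ in atTop, ρ' / ρ * gN β v ρ (nn ρ ρ' k) -
      β * ρ' * (((nn ρ ρ' k - k : ℝ) / (nn ρ ρ' k - 1)) * B + (21 / 10) / rad ρ (nn ρ ρ' k)) ≤
      gN β v ρ' k := by
    filter_upwards [eventually_ge_atTop 2] with k hk
    have hk0 : (0:ℝ) < k := by exact_mod_cast (by omega : 0 < k)
    have hkN : k ≤ nn ρ ρ' k := by
      unfold nn
      refine Nat.le_floor ?_
      rw [le_div_iff₀ hρ']
      nlinarith
    have hN1 : 1 ≤ nn ρ ρ' k := by omega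
    have hN0 : (0:ℝ) < nn ρ ρ' k := by exact_mod_cast hN1
    have h1 := del hβ hv (rad_pos hρ hN1) (rad_le hρ hρ' (nn_le hρ hρ' k)) hk hkN
      (nn_vol hρ hρ' hN1) (hst _ hN1) (ZZ_fin' hβ hst' (by omega))
    have h2 := log_fact_div (k := k) (by omega) hkN
    unfold gN
    have h3 := mul_le_mul_of_nonneg_left h1 (by positivity : 0 ≤ ρ' / k)
    have h4 := mul_le_mul_of_nonneg_left h2 hρ'.le
    have e1 : ρ' / k * ((k / nn ρ ρ' k : ℝ) * Real.log (ZZ β v (rad ρ (nn ρ ρ' k)) (nn ρ ρ' k)).toReal -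
        k * β * (((nn ρ ρ' k - k : ℝ) / (nn ρ ρ' k - 1)) * B + (21 / 10) / rad ρ (nn ρ ρ' k))) =
        ρ' / nn ρ ρ' k * Real.log (ZZ β v (rad ρ (nn ρ ρ' k)) (nn ρ ρ' k)).toReal -
        β * ρ' * (((nn ρ ρ' k - k : ℝ) / (nn ρ ρ' k - 1)) * B + (21 / 10) / rad ρ (nn ρ ρ' k)) := by
      field_simp
    rw [e1] at h3
    have e2 : ρ' / ρ * (ρ / nn ρ ρ' k * (Real.log (ZZ β v (rad ρ (nn ρ ρ' k)) (nn ρ ρ' k)).toReal -
        Real.log ((nn ρ ρ' k).factorial : ℝ))) =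
        ρ' / nn ρ ρ' k * Real.log (ZZ β v (rad ρ (nn ρ ρ' k)) (nn ρ ρ' k)).toReal -
          ρ' * (Real.log ((nn ρ ρ' k).factorial : ℝ) / nn ρ ρ' k) := by
      field_simp
    have e3 : ρ' / k * (Real.log (ZZ β v (rad ρ' k) k).toReal - Real.log (k.factorial : ℝ)) =
        ρ' / k * Real.log (ZZ β v (rad ρ' k) k).toReal - ρ' * (Real.log (k.factorial : ℝ) / k) := by
      field_simp
    rw [e2, e3]
    linarith
  have hl1 : Tendsto (fun k : ℕ => (nn ρ ρ' k - k : ℝ) / (nn ρ ρ' k - 1)) atTop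
      (𝓝 ((ρ / ρ' - 1) / (ρ / ρ' - 0))) := by
    have h1 : Tendsto (fun k : ℕ => ((nn ρ ρ' k : ℝ) / k - 1) / ((nn ρ ρ' k : ℝ) / k - 1 / k)) atTop
        (𝓝 ((ρ / ρ' - 1) / (ρ / ρ' - 0))) := by
      refine (hratio.sub tendsto_const_nhds).div (hratio.sub tendsto_one_div_atTop_nhds_zero_nat) ?_
      rw [sub_zero]
      positivity
    refine h1.congr' ?_
    filter_upwards [eventually_ge_atTop 1] with k hk
    have hk0 : (k:ℝ) ≠ 0 := by
      have : (0:ℝ) < k := by exact_mod_cast hk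
      exact this.ne'
    rw [← sub_div, ← mul_div_mul_right _ _ hk0, sub_mul, div_mul_cancel₀ _ hk0, one_mul,
      div_mul_cancel₀ _ hk0]
  have e4 : (ρ / ρ' - 1) / (ρ / ρ' - 0) = 1 - ρ' / ρ := by
    rw [sub_zero, sub_div, div_self (by positivity), one_div_div]
  rw [e4] at hl1
  have hl2 : Tendsto (fun k : ℕ => ρ' / ρ * gN β v ρ (nn ρ ρ' k) -
      β * ρ' * (((nn ρ ρ' k - k : ℝ) / (nn ρ ρ' k - 1)) * B + (21 / 10) / rad ρ (nn ρ ρ' k))) atTop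
      (𝓝 (ρ' / ρ * g - β * ρ' * ((1 - ρ' / ρ) * B + 0))) :=
    ((hg.comp ht).const_mul _).sub (((hl1.mul_const B).add (rad_tendsto hρ ht _)).const_mul _)
  have := le_of_tendsto_of_tendsto hl2 hg' hfin
  have e5 : β * ρ' * ((1 - ρ' / ρ) * B + 0) = β * ρ' * (1 - ρ' / ρ) * B := by ring
  rwa [e5] at this

/-- adding particles, in the limit -/
theorem lim_ins {β : ℝ} (hβ : 0 < β) {v : E3 → ℝ} (hv : Measurable v) (hvi : Integrable v)
    {ρ ρ' B B' : ℝ} (hρ : 0 < ρ) (hlt : ρ < ρ') (hst : Stab v ρ B) (hst' : Stab v ρ' B') {g g' : ℝ}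
    (hg : Tendsto (gN β v ρ) atTop (𝓝 g)) (hg' : Tendsto (gN β v ρ') atTop (𝓝 g')) :
    g - (ρ' - ρ) * (Real.log ρ' + β * ρ' * ∫ x, |v x|) ≤ g' := by
  have hρ' : 0 < ρ' := hρ.trans hlt
  have ht := nn_tendsto hρ hρ'
  have hratio := nn_ratio hρ hρ'
  have hfin : ∀ᶠ k : ℕ in atTop, ρ' / ρ * ((nn ρ ρ' k : ℝ) / k) * gN β v ρ (nn ρ ρ' k) -
      ρ' * (1 - (nn ρ ρ' k : ℝ) / k) * (Real.log ρ' + β * ρ' * ∫ x, |v x|) -
      β * ρ' * ((nn ρ ρ' k : ℝ) / k) * ((3 / 2) / rad ρ (nn ρ ρ' k)) ≤ gN β v ρ' k := by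
    filter_upwards [eventually_ge_atTop 1, ht.eventually (eventually_ge_atTop 1)] with k hk hN1
    have hk0 : (0:ℝ) < k := by exact_mod_cast (by omega : 0 < k)
    have hN0 : (0:ℝ) < nn ρ ρ' k := by exact_mod_cast hN1
    have hkN : nn ρ ρ' k ≤ k := by
      have h1 : (nn ρ ρ' k : ℝ) ≤ ρ * k / ρ' := Nat.floor_le (by positivity)
      have h2 : ρ * k / ρ' ≤ k := by
        rw [div_le_iff₀ hρ']
        nlinarith
      exact_mod_cast h1.trans h2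
    obtain ⟨m, hm⟩ := Nat.exists_eq_add_of_le hkN
    have hmk : (m:ℝ) = k - nn ρ ρ' k := by
      have : ((nn ρ ρ' k + m : ℕ) : ℝ) = k := by exact_mod_cast hm.symm
      push_cast at this
      linarith
    have hr := rad_pos hρ hN1
    have h1 := ins hβ hv hvi (N := nn ρ ρ' k) (m := m) hr (rad_le hρ hρ' (nn_le hρ hρ' k)) hN1
      (nn_vol hρ hρ' hN1) (by rw [← hm]; exact ZZ_fin' hβ hst' hk) (ZZ_fin' hβ hst hN1)
    have h2 := log_fact_le (nn ρ ρ' k) m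
    rw [← hm] at h1 h2
    have e0 : (nn ρ ρ' k : ℝ) + m = k := by rw [hmk]; ring
    rw [e0] at h1 h2
    rw [vol_rad hρ', Real.log_div hk0.ne' hρ'.ne'] at h1
    unfold gN
    have h3 : Real.log (ZZ β v (rad ρ (nn ρ ρ' k)) (nn ρ ρ' k)).toReal -
        Real.log ((nn ρ ρ' k).factorial : ℝ) - m * Real.log ρ' -
        β * ((∫ x, |v x|) * k * m / (k / ρ') + nn ρ ρ' k * (3 / (2 * rad ρ (nn ρ ρ' k)))) ≤
        Real.log (ZZ β v (rad ρ' k) k).toReal - Real.log (k.factorial : ℝ) := by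
      nlinarith
    have h4 := mul_le_mul_of_nonneg_left h3 (by positivity : 0 ≤ ρ' / k)
    refine le_trans (le_of_eq ?_) h4
    rw [hmk]
    field_simp
    ring
  have hrr : Tendsto (fun k : ℕ => ρ' / ρ * ((nn ρ ρ' k : ℝ) / k)) atTop (𝓝 (ρ' / ρ * (ρ / ρ'))) :=
    hratio.const_mul _
  have hl : Tendsto (fun k : ℕ => ρ' / ρ * ((nn ρ ρ' k : ℝ) / k) * gN β v ρ (nn ρ ρ' k) -
      ρ' * (1 - (nn ρ ρ' k : ℝ) / k) * (Real.log ρ' + β * ρ' * ∫ x, |v x|) -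
      β * ρ' * ((nn ρ ρ' k : ℝ) / k) * ((3 / 2) / rad ρ (nn ρ ρ' k))) atTop
      (𝓝 (ρ' / ρ * (ρ / ρ') * g - ρ' * (1 - ρ / ρ') * (Real.log ρ' + β * ρ' * ∫ x, |v x|) -
        β * ρ' * (ρ / ρ') * 0)) := by
    refine ((hrr.mul (hg.comp ht)).sub ?_).sub ?_
    · exact ((tendsto_const_nhds.sub hratio).const_mul ρ').mul_const _
    · exact (hratio.const_mul _).mul (rad_tendsto hρ ht _)
  have h5 := le_of_tendsto_of_tendsto hl hg' hfin
  refine le_trans (le_of_eq ?_) h5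
  field_simp
  ring

/-- local Lipschitz continuity -/
theorem lip {β : ℝ} (hβ : 0 < β) {v : E3 → ℝ} (hv : Measurable v) (hvi : Integrable v)
    {B : ℝ → ℝ} (hst : ∀ ρ, 0 < ρ → Stab v ρ (B ρ)) {g : ℝ → ℝ}
    (hg : ∀ ρ, 0 < ρ → Tendsto (gN β v ρ) atTop (𝓝 (g ρ)))
    {a b : ℝ} (ha : 0 < a) (hab : a ≤ b) (hB : ∃ M, ∀ ρ ∈ Icc a b, |B ρ| ≤ M) :
    ∃ C, ∀ ρ ∈ Icc a b, ∀ ρ' ∈ Icc a b, |g ρ - g ρ'| ≤ C * |ρ - ρ'| := by
  obtain ⟨M, hM⟩ := hB
  have hb : 0 < b := ha.trans_le hab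
  have hM0 : 0 ≤ M := (abs_nonneg _).trans (hM a ⟨le_rfl, hab⟩)
  set V : ℝ := ∫ x, |v x| with hVdef
  have hV : 0 ≤ V := integral_nonneg fun x => abs_nonneg _
  set C1 : ℝ := |Real.log a| + |Real.log b| + β * b * V with hC1
  have hC1n : 0 ≤ C1 := by positivity
  have hlog : ∀ ρ ∈ Icc a b, Real.log ρ ≤ |Real.log a| + |Real.log b| := by
    intro ρ hρ
    have h1 := Real.log_le_log (ha.trans_le hρ.1) hρ.2
    linarith [le_abs_self (Real.log b), abs_nonneg (Real.log a)]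
  have up : ∀ ρ ∈ Icc a b, ∀ ρ' ∈ Icc a b, ρ < ρ' → g ρ - g ρ' ≤ C1 * (ρ' - ρ) := by
    intro ρ h1 ρ' h2 hlt
    have hρ := ha.trans_le h1.1
    have hρ' := ha.trans_le h2.1
    have h3 := lim_ins hβ hv hvi hρ hlt (hst ρ hρ) (hst ρ' hρ') (hg ρ hρ) (hg ρ' hρ')
    rw [← hVdef] at h3
    have h4 : Real.log ρ' + β * ρ' * V ≤ C1 := by
      have e1 := hlog ρ' h2
      have e2 : β * ρ' * V ≤ β * b * V := by
        have := h2.2
        gcongr
      linarith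
    nlinarith
  set G : ℝ := |g b| + (b - a) * C1 with hG
  have hG0 : 0 ≤ G := by
    have : 0 ≤ (b - a) * C1 := mul_nonneg (by linarith) hC1n
    positivity
  have hbd : ∀ ρ ∈ Icc a b, g ρ ≤ G := by
    intro ρ h1
    rcases h1.2.lt_or_eq with h2 | h2
    · have h3 := up ρ h1 b ⟨hab, le_rfl⟩ h2
      have h4 : C1 * (b - ρ) ≤ (b - a) * C1 := by nlinarith [h1.1]
      linarith [le_abs_self (g b)]
    · rw [h2]
      have : 0 ≤ (b - a) * C1 := mul_nonneg (by linarith) hC1n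
      linarith [le_abs_self (g b)]
  set C2 : ℝ := (G + β * b * M) / a with hC2
  have hC2n : 0 ≤ C2 := by positivity
  have down : ∀ ρ ∈ Icc a b, ∀ ρ' ∈ Icc a b, ρ < ρ' → g ρ' - g ρ ≤ C2 * (ρ' - ρ) := by
    intro ρ h1 ρ' h2 hlt
    have hρ := ha.trans_le h1.1
    have hρ' := ha.trans_le h2.1
    have h3 := lim_del hβ hv hρ hlt (hst ρ' hρ') (hst ρ hρ) (hg ρ' hρ') (hg ρ hρ)
    have h4 : g ρ' - g ρ ≤ (1 - ρ / ρ') * (g ρ' + β * ρ * B ρ') := by nlinarith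
    have h5 : g ρ' + β * ρ * B ρ' ≤ G + β * b * M := by
      have e1 := hbd ρ' h2
      have e2 : β * ρ * B ρ' ≤ β * b * M := by
        have e3 : B ρ' ≤ M := (le_abs_self _).trans (hM ρ' h2)
        have e4 : β * ρ * B ρ' ≤ β * ρ * M := by gcongr
        have e5 : β * ρ * M ≤ β * b * M := by
          have := h1.2
          gcongr
        linarith
      linarith
    have h6 : 0 ≤ 1 - ρ / ρ' := by
      rw [sub_nonneg, div_le_one hρ']
      exact hlt.le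
    have h7 : 1 - ρ / ρ' ≤ (ρ' - ρ) / a := by
      have e1 : 1 - ρ / ρ' = (ρ' - ρ) / ρ' := by field_simp
      rw [e1]
      have := h2.1
      gcongr
    have h8 : 0 ≤ G + β * b * M := by positivity
    calc g ρ' - g ρ ≤ (1 - ρ / ρ') * (g ρ' + β * ρ * B ρ') := h4
      _ ≤ (1 - ρ / ρ') * (G + β * b * M) := mul_le_mul_of_nonneg_left h5 h6
      _ ≤ (ρ' - ρ) / a * (G + β * b * M) := mul_le_mul_of_nonneg_right h7 h8
      _ = C2 * (ρ' - ρ) := by rw [hC2]; ring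
  refine ⟨C1 + C2, ?_⟩
  have main : ∀ ρ ∈ Icc a b, ∀ ρ' ∈ Icc a b, ρ < ρ' → |g ρ - g ρ'| ≤ (C1 + C2) * |ρ - ρ'| := by
    intro ρ h1 ρ' h2 hlt
    have h3 := up ρ h1 ρ' h2 hlt
    have h4 := down ρ h1 ρ' h2 hlt
    rw [abs_sub_comm ρ ρ', abs_of_pos (sub_pos.2 hlt), abs_le]
    have e1 : 0 ≤ C1 * (ρ' - ρ) := mul_nonneg hC1n (by linarith)
    have e2 : 0 ≤ C2 * (ρ' - ρ) := mul_nonneg hC2n (by linarith)
    constructor <;> nlinarith
  intro ρ h1 ρ' h2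
  rcases lt_trichotomy ρ ρ' with h | h | h
  · exact main ρ h1 ρ' h2 h
  · rw [h]; simp
  · rw [abs_sub_comm (g ρ), abs_sub_comm ρ]
    exact main ρ' h2 ρ h1 h

end Pool.Agent.Q233.JLim
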