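import Mathlib
import Pool.Agent.Q233.JLim

/-! Jellium with a short-range pair potential: definitions and the transfer to them. -/

set_option autoImplicit false

namespace Pool.Agent.Q233.JFin

open MeasureTheory Set Metric Filter Topology
open scoped ENNReal

/-- the Coulomb potential `∫_Λ |x - y|⁻¹ dy` -/
noncomputable def phi (Λ : Set (EuclideanSpace ℝ (Fin 3))) (x : EuclideanSpace ℝ (Fin 3)) : ℝ :=
  ∫ y in Λ, 1 / ‖x - y‖

/-- the sum of `w (X i - X j)` over the pairs `i < j` -/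
noncomputable def pairSum (w : EuclideanSpace ℝ (Fin 3) → ℝ) {N : ℕ}
    (X : Fin N → EuclideanSpace ℝ (Fin 3)) : ℝ :=
  ∑ i, ∑ j, if i < j then w (X i - X j) else 0

/-- the jellium energy `U_{ρ,Λ}(X)` plus the short-range energy -/
noncomputable def energy (v : EuclideanSpace ℝ (Fin 3) → ℝ) (ρ : ℝ)
    (Λ : Set (EuclideanSpace ℝ (Fin 3))) {N : ℕ} (X : Fin N → EuclideanSpace ℝ (Fin 3)) : ℝ :=
  (pairSum (fun x => 1 / ‖x‖) X - ρ * ∑ i, phi Λ (X i) + 1 / 2 * ρ ^ 2 * ∫ x in Λ, phi Λ x) +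
    pairSum v X

/-- the partition function -/
noncomputable def Z (v : EuclideanSpace ℝ (Fin 3) → ℝ) (β ρ : ℝ)
    (Λ : Set (EuclideanSpace ℝ (Fin 3))) (N : ℕ) : ℝ :=
  1 / (N.factorial : ℝ) * ∫ X in {X : Fin N → EuclideanSpace ℝ (Fin 3) | ∀ i, X i ∈ Λ},
    Real.exp (-β * energy v ρ Λ X)

/-- the ball centred at the origin of volume `j / ρ` -/
noncomputable def ballOf (ρ : ℝ) (j : ℕ) : Set (EuclideanSpace ℝ (Fin 3)) :=
  ball 0 ((3 * j / (4 * Real.pi * ρ)) ^ (1 / 3 : ℝ))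

/-- `g(β, ρ; Λ_j)` -/
noncomputable def gBall (v : EuclideanSpace ℝ (Fin 3) → ℝ) (β ρ : ℝ) (j : ℕ) : ℝ :=
  (volume (ballOf ρ j)).toReal⁻¹ * Real.log (Z v β ρ (ballOf ρ j) j)

/-- the admissible short-range potentials -/
structure Admissible (v : EuclideanSpace ℝ (Fin 3) → ℝ) : Prop where
  even : ∀ x, v (-x) = v x
  integrable : Integrable v
  tail : ∃ r₀ C ε : ℝ, 0 ≤ r₀ ∧ 0 ≤ C ∧ 0 < ε ∧ ∀ x, r₀ < ‖x‖ → v x ≤ C * ‖x‖ ^ (-(3 + ε))
  stable : ∃ B : ℝ → ℝ, (∀ a b, 0 < a → a ≤ b → ∃ M, ∀ ρ ∈ Icc a b, |B ρ| ≤ M) ∧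
    ∀ ρ, 0 < ρ → ∀ Λ : Set (EuclideanSpace ℝ (Fin 3)), IsOpen Λ → IsConnected Λ →
      Bornology.IsBounded Λ → ∀ N : ℕ, ρ * (volume Λ).toReal = N →
      ∀ X : Fin N → EuclideanSpace ℝ (Fin 3), (∀ i, X i ∈ Λ) → Function.Injective X →
        -(B ρ * N) ≤ energy v ρ Λ X
  limit : ∀ β, 0 < β → ∀ ρ, 0 < ρ → ∃ g, Tendsto (gBall v β ρ) atTop (𝓝 g)

open Pool.Agent.Helper557 Pool.Agent.Helper557.TFP
open Pool.Agent.Q233.JKer Pool.Agent.Q233.JPart Pool.Agent.Q233.JIns Pool.Agent.Q233.JEst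
open Pool.Agent.Q233.JLim

lemma diff_ae {N : ℕ} {i j : Fin N} (hij : i ≠ j) {p : E3 → Prop} (hp : ∀ᵐ x : E3, p x) :
    ∀ᵐ X : Fin N → E3, p (X i - X j) := by
  set L : (Fin N → E3) →ₗ[ℝ] E3 := (LinearMap.proj i : (Fin N → E3) →ₗ[ℝ] E3) -
    (LinearMap.proj j : (Fin N → E3) →ₗ[ℝ] E3) with hL
  have hsurj : Function.Surjective L := by
    intro x
    refine ⟨Pi.single i x, ?_⟩
    simp [hL, Pi.single_eq_of_ne hij.symm]
  set t : Set E3 := toMeasurable volume {x | ¬ p x} with ht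
  have htm : MeasurableSet t := measurableSet_toMeasurable _ _
  have ht0 : ∀ᵐ y : E3, y ∈ tᶜ := by
    rw [ae_iff]
    simp only [mem_compl_iff, not_not, setOf_mem_eq]
    rw [ht, measure_toMeasurable]
    exact hp
  have h := (ae_comp_linearMap_mem_iff L (volume : Measure (Fin N → E3)) (volume : Measure E3)
    hsurj htm.compl).2 ht0
  filter_upwards [h] with X hX
  by_contra hcon
  exact hX (subset_toMeasurable _ _ hcon)

lemma vol_ballOf {ρ : ℝ} (hρ : 0 < ρ) {j : ℕ} (hj : 1 ≤ j) :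
    (volume (ballOf ρ j)).toReal = j / ρ := by
  have : ballOf ρ j = ball (0:E3) (rad ρ j) := rfl
  rw [this, vol_eq (rad_pos hρ hj), vol_rad hρ]

/-- the energies agree -/
lemma energy_eq {v v' : E3 → ℝ} {ρ : ℝ} (hρ : 0 < ρ) {N : ℕ} (hN : 1 ≤ N) {X : Fin N → E3}
    (hX : ∀ i j, i < j → v (X i - X j) = v' (X i - X j)) :
    energy v ρ (ballOf ρ N) X = EE v' (rad ρ N) X := by
  have hN0 : (0:ℝ) < N := by exact_mod_cast hN
  have hd : (N:ℝ) / vol (rad ρ N) = ρ := by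
    rw [vol_rad hρ]
    field_simp
  have hphi : ∀ x, phi (ballOf ρ N) x = JKer.phi (rad ρ N) x := fun x => rfl
  have hDD : ∫ x in ballOf ρ N, phi (ballOf ρ N) x = DD (rad ρ N) := rfl
  unfold EE energy H
  rw [hd, hDD]
  have hp : pairs (wv v') X = pairSum (fun x => 1 / ‖x‖) X + pairSum v X := by
    unfold pairs pairSum
    rw [← Finset.sum_add_distrib]
    refine Finset.sum_congr rfl fun i _ => ?_
    rw [← Finset.sum_add_distrib]
    refine Finset.sum_congr rfl fun j _ => ?_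
    split_ifs with h
    · rw [hX i j h]
      rfl
    · simp
  rw [hp]
  simp_rw [hphi]
  ring

lemma Z_eq {v v' : E3 → ℝ} (hv' : Measurable v') (hvv : ∀ᵐ x, v x = v' x) (β : ℝ) {ρ : ℝ}
    (hρ : 0 < ρ) {N : ℕ} (hN : 1 ≤ N) :
    Z v β ρ (ballOf ρ N) N = 1 / (N.factorial : ℝ) * (ZZ β v' (rad ρ N) N).toReal := by
  have hR := rad_pos hρ hN
  unfold Z
  congr 1
  have hset : {X : Fin N → E3 | ∀ i, X i ∈ ballOf ρ N} =
      Set.univ.pi fun _ => ball (0:E3) (rad ρ N) := by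
    ext X
    simp [ballOf, rad]
  rw [hset, ← bm_restrict]
  have hae : ∀ᵐ X ∂bm (rad ρ N) N, energy v ρ (ballOf ρ N) X = EE v' (rad ρ N) X := by
    rw [bm_restrict]
    refine ae_restrict_of_ae ?_
    have h1 : ∀ᵐ X : Fin N → E3, ∀ i j, i < j → v (X i - X j) = v' (X i - X j) := by
      rw [ae_all_iff]
      intro i
      rw [ae_all_iff]
      intro j
      by_cases hij : i < j
      · filter_upwards [diff_ae hij.ne hvv] with X hX _
        exact hX
      · exact Eventually.of_forall fun X h => absurd h hij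
    filter_upwards [h1] with X hX
    exact energy_eq hρ hN hX
  have hm : Measurable (fun X : Fin N → E3 => Real.exp (-β * EE v' (rad ρ N) X)) := by
    unfold EE
    exact (((H_meas (wv_meas hv') hR 1 _ N).add_const _).const_mul (-β)).exp
  have e1 : ∫ X, Real.exp (-β * energy v ρ (ballOf ρ N) X) ∂bm (rad ρ N) N =
      ∫ X, Real.exp (-β * EE v' (rad ρ N) X) ∂bm (rad ρ N) N := by
    refine integral_congr_ae ?_
    filter_upwards [hae] with X hX
    rw [hX]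
  rw [e1, integral_eq_lintegral_of_nonneg_ae (Eventually.of_forall fun X => (Real.exp_pos _).le)
    hm.aestronglyMeasurable]
  rfl

lemma gBall_eq {v v' : E3 → ℝ} (hv' : Measurable v') (hvv : ∀ᵐ x, v x = v' x) {β : ℝ}
    (hβ : 0 < β) {ρ B : ℝ} (hρ : 0 < ρ) (hst : Stab v' ρ B) {N : ℕ} (hN : 1 ≤ N) :
    gBall v β ρ N = gN β v' ρ N := by
  have hN0 : (0:ℝ) < N := by exact_mod_cast hN
  have hf : (0:ℝ) < N.factorial := by exact_mod_cast N.factorial_pos
  have hZ : 0 < (ZZ β v' (rad ρ N) N).toReal :=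
    ENNReal.toReal_pos (ZZ_pos β hv' (rad_pos hρ hN) N).ne' (ZZ_fin' hβ hst hN).ne
  unfold gBall gN
  rw [Z_eq hv' hvv β hρ hN, vol_ballOf hρ hN, Real.log_mul (by positivity) hZ.ne',
    Real.log_div one_ne_zero hf.ne', Real.log_one]
  field_simp
  ring

theorem main {v : E3 → ℝ} (hv : Admissible v) {β : ℝ} (hβ : 0 < β) :
    ∃ g : ℝ → ℝ, (∀ ρ, 0 < ρ → Tendsto (gBall v β ρ) atTop (𝓝 (g ρ))) ∧
      ContinuousOn g (Ioi 0) ∧
      ∀ a b, 0 < a → a ≤ b → ∃ C, ∀ ρ ∈ Icc a b, ∀ ρ' ∈ Icc a b, |g ρ - g ρ'| ≤ C * |ρ - ρ'| := by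
  obtain ⟨B, hB, hst⟩ := hv.stable
  set v' : E3 → ℝ := hv.integrable.aestronglyMeasurable.mk v with hv'
  have hm : Measurable v' := hv.integrable.aestronglyMeasurable.stronglyMeasurable_mk.measurable
  have hvv : ∀ᵐ x, v x = v' x := hv.integrable.aestronglyMeasurable.ae_eq_mk
  have hvi : Integrable v' := hv.integrable.congr hvv
  have hstab : ∀ ρ, 0 < ρ → Stab v' ρ (B ρ) := by
    intro ρ hρ N hN
    have hR := rad_pos hρ hN
    rw [bm_restrict]
    have hmeas : MeasurableSet (Set.univ.pi fun _ : Fin N => ball (0:E3) (rad ρ N)) :=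
      MeasurableSet.univ_pi fun _ => measurableSet_ball
    rw [ae_restrict_iff' hmeas]
    have h1 : ∀ᵐ X : Fin N → E3, ∀ i j, i ≠ j → v (X i - X j) = v' (X i - X j) ∧ X i - X j ≠ 0 := by
      rw [ae_all_iff]
      intro i
      rw [ae_all_iff]
      intro j
      by_cases hij : i ≠ j
      · have h2 : ∀ᵐ x : E3, v x = v' x ∧ x ≠ 0 := by
          have h3 : ∀ᵐ x : E3, x ≠ 0 := by
            rw [ae_iff]
            simp
          filter_upwards [hvv, h3] with x h4 h5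
          exact ⟨h4, h5⟩
        filter_upwards [diff_ae hij h2] with X hX _
        exact hX
      · exact Eventually.of_forall fun X h => absurd h hij
    filter_upwards [h1] with X hX hXb
    rw [← energy_eq hρ hN (v := v) (fun i j hij => (hX i j hij.ne).1)]
    have h2 := hst ρ hρ (ballOf ρ N) isOpen_ball ?_ isBounded_ball N ?_ X ?_ ?_
    · linarith
    · exact ⟨nonempty_ball.2 hR, (convex_ball _ _).isPreconnected⟩
    · rw [vol_ballOf hρ hN]
      field_simp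
    · intro i
      exact hXb i (mem_univ i)
    · intro i j hij
      by_contra hne
      exact (hX i j hne).2 (sub_eq_zero.2 hij)
  choose g hg using fun ρ (hρ : 0 < ρ) => hv.limit β hβ ρ hρ
  set G : ℝ → ℝ := fun ρ => if h : 0 < ρ then g ρ h else 0 with hG
  have hGt : ∀ ρ, 0 < ρ → Tendsto (gBall v β ρ) atTop (𝓝 (G ρ)) := by
    intro ρ hρ
    simp only [hG, dif_pos hρ]
    exact hg ρ hρ
  have hGN : ∀ ρ, 0 < ρ → Tendsto (gN β v' ρ) atTop (𝓝 (G ρ)) := by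
    intro ρ hρ
    refine (hGt ρ hρ).congr' ?_
    filter_upwards [eventually_ge_atTop 1] with N hN
    exact gBall_eq hm hvv hβ hρ (hstab ρ hρ) hN
  have hlip : ∀ a b, 0 < a → a ≤ b → ∃ C, ∀ ρ ∈ Icc a b, ∀ ρ' ∈ Icc a b,
      |G ρ - G ρ'| ≤ C * |ρ - ρ'| := fun a b ha hab =>
    lip hβ hm hvi hstab hGN ha hab (hB a b ha hab)
  refine ⟨G, hGt, ?_, hlip⟩
  intro ρ hρ
  have hρ0 : 0 < ρ := hρ
  obtain ⟨C, hC⟩ := hlip (ρ / 2) (2 * ρ) (by positivity) (by linarith)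
  have hmem : ρ ∈ Icc (ρ / 2) (2 * ρ) := ⟨by linarith, by linarith⟩
  have hnh : Icc (ρ / 2) (2 * ρ) ∈ 𝓝 ρ := Icc_mem_nhds (by linarith) (by linarith)
  refine ContinuousAt.continuousWithinAt ?_
  rw [Metric.continuousAt_iff']
  intro ε hε
  have hball : ∀ᶠ x in 𝓝 ρ, |x - ρ| < ε / (|C| + 1) := by
    have := Metric.ball_mem_nhds ρ (by positivity : 0 < ε / (|C| + 1))
    filter_upwards [this] with x hx
    rwa [mem_ball, Real.dist_eq] at hx
  filter_upwards [hnh, hball] with x hx hx2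
  rw [Real.dist_eq]
  have h1 := hC x hx ρ hmem
  have h2 : C * |x - ρ| ≤ |C| * |x - ρ| := mul_le_mul_of_nonneg_right (le_abs_self C) (abs_nonneg _)
  have h3 : (|C| + 1) * |x - ρ| < ε := by
    rw [lt_div_iff₀ (by positivity)] at hx2
    linarith
  linarith [abs_nonneg (x - ρ)]

end Pool.Agent.Q233.JFin
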