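import Mathlib

/-!
# Elementary functional calculus and traces of Hermitian matrices

Helper file: real traces, spectral functions of Hermitian matrices, positivity of traces of
products.
-/

namespace Q233.MatFC

open Matrix
open scoped MatrixOrder ComplexOrder

variable {ι : Type*} [Fintype ι] [DecidableEq ι]

/-- Real part of the trace. -/
noncomputable def rtr (A : Matrix ι ι ℂ) : ℝ := (Matrix.trace A).re

omit [DecidableEq ι] in
lemma rtr_add (A B : Matrix ι ι ℂ) : rtr (A + B) = rtr A + rtr B := by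
  simp [rtr, Matrix.trace_add]

omit [DecidableEq ι] in
lemma rtr_sub (A B : Matrix ι ι ℂ) : rtr (A - B) = rtr A - rtr B := by
  simp [rtr, Matrix.trace_sub]

omit [DecidableEq ι] in
lemma rtr_neg (A : Matrix ι ι ℂ) : rtr (-A) = - rtr A := by
  simp [rtr, Matrix.trace_neg]

omit [DecidableEq ι] in
@[simp] lemma rtr_zero : rtr (0 : Matrix ι ι ℂ) = 0 := by
  simp [rtr]

omit [DecidableEq ι] in
lemma rtr_smul (c : ℝ) (A : Matrix ι ι ℂ) : rtr ((c : ℂ) • A) = c * rtr A := by
  simp [rtr, Matrix.trace_smul]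

omit [DecidableEq ι] in
lemma rtr_sum {κ : Type*} (s : Finset κ) (f : κ → Matrix ι ι ℂ) :
    rtr (∑ k ∈ s, f k) = ∑ k ∈ s, rtr (f k) := by
  simp [rtr, Matrix.trace_sum]

omit [DecidableEq ι] in
lemma rtr_mul_comm (A B : Matrix ι ι ℂ) : rtr (A * B) = rtr (B * A) := by
  simp [rtr, Matrix.trace_mul_comm A B]

lemma rtr_one : rtr (1 : Matrix ι ι ℂ) = Fintype.card ι := by
  simp [rtr]

omit [DecidableEq ι] in
lemma rtr_nonneg {A : Matrix ι ι ℂ} (hA : A.PosSemidef) : 0 ≤ rtr A := by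
  have h := hA.trace_nonneg
  exact (Complex.le_def.1 h).1

omit [DecidableEq ι] in
lemma rtr_conj_nonneg {A : Matrix ι ι ℂ} (hA : A.PosSemidef) (B : Matrix ι ι ℂ) :
    0 ≤ rtr (Bᴴ * A * B) := rtr_nonneg (hA.conjTranspose_mul_mul_same B)

/-- Spectral function of a Hermitian matrix. -/
noncomputable def F {A : Matrix ι ι ℂ} (hA : A.IsHermitian) (f : ℝ → ℝ) : Matrix ι ι ℂ :=
  (hA.eigenvectorUnitary : Matrix ι ι ℂ) * diagonal (fun i => ((f (hA.eigenvalues i) : ℝ) : ℂ)) *
    (star (hA.eigenvectorUnitary : Matrix ι ι ℂ))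

section
variable {A : Matrix ι ι ℂ} (hA : A.IsHermitian)

lemma F_eq_cfc (f : ℝ → ℝ) : F hA f = cfc f A := by
  rw [hA.cfc_eq, Matrix.IsHermitian.cfc, Unitary.conjStarAlgAut_apply, F]
  rfl

lemma F_congr {f g : ℝ → ℝ} (h : ∀ i, f (hA.eigenvalues i) = g (hA.eigenvalues i)) :
    F hA f = F hA g := by
  unfold F; simp only [h]

lemma F_mul (f g : ℝ → ℝ) : F hA f * F hA g = F hA (fun x => f x * g x) := by
  unfold F
  have hU : star (hA.eigenvectorUnitary : Matrix ι ι ℂ) * (hA.eigenvectorUnitary : Matrix ι ι ℂ)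
      = 1 := Unitary.coe_star_mul_self _
  calc _ = (hA.eigenvectorUnitary : Matrix ι ι ℂ) *
        diagonal (fun i => ((f (hA.eigenvalues i) : ℝ) : ℂ)) *
        (star (hA.eigenvectorUnitary : Matrix ι ι ℂ) * (hA.eigenvectorUnitary : Matrix ι ι ℂ)) *
        diagonal (fun i => ((g (hA.eigenvalues i) : ℝ) : ℂ)) *
        star (hA.eigenvectorUnitary : Matrix ι ι ℂ) := by simp only [mul_assoc]
    _ = _ := by
      rw [hU, mul_one, mul_assoc (hA.eigenvectorUnitary : Matrix ι ι ℂ), diagonal_mul_diagonal]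
      simp

lemma F_add (f g : ℝ → ℝ) : F hA f + F hA g = F hA (fun x => f x + g x) := by
  unfold F
  rw [← add_mul, ← mul_add, diagonal_add]
  simp

lemma F_smul (c : ℝ) (f : ℝ → ℝ) : (c : ℂ) • F hA f = F hA (fun x => c * f x) := by
  unfold F
  rw [← smul_mul_assoc, ← mul_smul_comm, ← diagonal_smul]
  congr 3
  ext i
  simp

lemma F_sub (f g : ℝ → ℝ) : F hA f - F hA g = F hA (fun x => f x - g x) := by
  unfold F
  rw [← sub_mul, ← mul_sub, diagonal_sub]
  simp

lemma F_zero : F hA (fun _ => 0) = 0 := by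
  unfold F
  simp

lemma F_one : F hA (fun _ => 1) = 1 := by
  unfold F
  simp

lemma F_id : F hA (fun x => x) = A := by
  conv_rhs => rw [hA.spectral_theorem, Unitary.conjStarAlgAut_apply]
  unfold F
  rfl

lemma F_sum {κ : Type*} (s : Finset κ) (f : κ → ℝ → ℝ) :
    ∑ k ∈ s, F hA (f k) = F hA (fun x => ∑ k ∈ s, f k x) := by
  classical
  induction s using Finset.induction_on with
  | empty => simp [F_zero]
  | insert a s ha ih =>
    rw [Finset.sum_insert ha, ih, F_add]
    simp [Finset.sum_insert ha]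

lemma F_isHermitian (f : ℝ → ℝ) : (F hA f).IsHermitian := by
  unfold F
  rw [Matrix.IsHermitian, conjTranspose_mul, conjTranspose_mul, diagonal_conjTranspose,
    ← star_eq_conjTranspose, ← star_eq_conjTranspose, star_star, mul_assoc]
  congr 3
  ext i
  simp

lemma F_posSemidef (f : ℝ → ℝ) (h : ∀ i, 0 ≤ f (hA.eigenvalues i)) : (F hA f).PosSemidef := by
  unfold F
  have h1 : (diagonal (fun i => ((f (hA.eigenvalues i) : ℝ) : ℂ))).PosSemidef := by
    rw [posSemidef_diagonal_iff]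
    intro i
    exact_mod_cast (h i)
  simpa [star_eq_conjTranspose] using
    h1.mul_mul_conjTranspose_same (hA.eigenvectorUnitary : Matrix ι ι ℂ)

lemma F_trace (f : ℝ → ℝ) : rtr (F hA f) = ∑ i, f (hA.eigenvalues i) := by
  unfold F rtr
  rw [Matrix.trace_mul_comm, ← mul_assoc, Unitary.coe_star_mul_self, one_mul, trace_diagonal]
  simp

lemma F_sqrt_mul_self (hp : A.PosSemidef) : F hA Real.sqrt * F hA Real.sqrt = A := by
  rw [F_mul]
  conv_rhs => rw [← F_id hA]
  apply F_congr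
  intro i
  exact Real.mul_self_sqrt (hp.eigenvalues_nonneg i)

omit [DecidableEq ι] in
/-- The trace of a product of two positive semidefinite matrices is nonnegative. -/
lemma rtr_mul_nonneg {A B : Matrix ι ι ℂ} (hA : A.PosSemidef) (hB : B.PosSemidef) :
    0 ≤ rtr (A * B) := by
  classical
  have hC := F_sqrt_mul_self hB.1 hB
  have hh := F_isHermitian hB.1 Real.sqrt
  have : rtr (A * B) = rtr ((F hB.1 Real.sqrt)ᴴ * A * (F hB.1 Real.sqrt)) := by
    rw [hh.eq, mul_assoc, rtr_mul_comm (F hB.1 Real.sqrt), mul_assoc, hC]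
  rw [this]
  exact rtr_conj_nonneg hA _

lemma F_mul_nonneg (f : ℝ → ℝ) (h : ∀ i, 0 ≤ f (hA.eigenvalues i)) {B : Matrix ι ι ℂ}
    (hB : B.PosSemidef) : 0 ≤ rtr (F hA f * B) :=
  rtr_mul_nonneg (F_posSemidef hA f h) hB

/-- Monotonicity of `rtr (F f * B)` in `f`. -/
lemma F_mul_le {f g : ℝ → ℝ} (h : ∀ i, f (hA.eigenvalues i) ≤ g (hA.eigenvalues i))
    {B : Matrix ι ι ℂ} (hB : B.PosSemidef) : rtr (F hA f * B) ≤ rtr (F hA g * B) := by
  have h1 := F_mul_nonneg hA (fun x => g x - f x) (fun i => sub_nonneg.2 (h i)) hB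
  rw [← F_sub, sub_mul, rtr_sub] at h1
  linarith

end

/-- Spectral description of the square root. -/
lemma sqrt_eq_F {A : Matrix ι ι ℂ} (hA : A.PosSemidef) :
    CFC.sqrt A = F hA.1 Real.sqrt := by
  rw [F_eq_cfc, CFC.sqrt_eq_real_sqrt A (by exact hA.nonneg), cfcₙ_eq_cfc]

/-- Orthogonal projections. -/
structure IsProj (P : Matrix ι ι ℂ) : Prop where
  herm : P.IsHermitian
  idem : P * P = P

omit [DecidableEq ι] in
lemma IsProj.posSemidef {P : Matrix ι ι ℂ} (h : IsProj P) : P.PosSemidef := by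
  have : P = Pᴴ * P := by rw [h.herm.eq, h.idem]
  rw [this]
  exact posSemidef_conjTranspose_mul_self P

lemma IsProj.one_sub {P : Matrix ι ι ℂ} (h : IsProj P) : IsProj (1 - P) := by
  refine ⟨isHermitian_one.sub h.herm, ?_⟩
  rw [sub_mul, mul_sub, mul_sub, h.idem]
  simp

lemma F_isProj {A : Matrix ι ι ℂ} (hA : A.IsHermitian) (f : ℝ → ℝ)
    (h : ∀ i, f (hA.eigenvalues i) = 0 ∨ f (hA.eigenvalues i) = 1) : IsProj (F hA f) := by
  refine ⟨F_isHermitian hA f, ?_⟩
  rw [F_mul]
  apply F_congr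
  intro i
  rcases h i with h | h <;> simp [h]

omit [DecidableEq ι] in
lemma eq_zero_of_rtr {Z : Matrix ι ι ℂ} (h : rtr (Zᴴ * Z) ≤ 0) : Z = 0 := by
  have h0 := (posSemidef_conjTranspose_mul_self Z).trace_nonneg
  have h1 := Complex.le_def.1 h0
  have h2 : (Zᴴ * Z).trace = 0 := by
    apply Complex.ext
    · exact le_antisymm h (by simpa [rtr] using h1.1)
    · simpa using h1.2.symm
  exact trace_conjTranspose_mul_self_eq_zero_iff.1 h2

omit [DecidableEq ι] in
/-- If `X` is positive semidefinite and `tr (Yᴴ X Y) ≤ 0` then `X Y = 0`. -/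
lemma mul_eq_zero_of_rtr {X Y : Matrix ι ι ℂ} (hX : X.PosSemidef) (h : rtr (Yᴴ * X * Y) ≤ 0) :
    X * Y = 0 := by
  classical
  have hC := F_sqrt_mul_self hX.1 hX
  have hh := F_isHermitian hX.1 Real.sqrt
  have h1 : F hX.1 Real.sqrt * Y = 0 := by
    apply eq_zero_of_rtr
    rw [conjTranspose_mul, hh.eq]
    have : Yᴴ * F hX.1 Real.sqrt * (F hX.1 Real.sqrt * Y) = Yᴴ * X * Y := by
      rw [mul_assoc, ← mul_assoc (F hX.1 Real.sqrt), hC, mul_assoc]
    rwa [this]
  calc X * Y = F hX.1 Real.sqrt * F hX.1 Real.sqrt * Y := by rw [hC]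
    _ = 0 := by rw [mul_assoc, h1, mul_zero]

/-- Support projection. -/
noncomputable def Supp {A : Matrix ι ι ℂ} (hA : A.IsHermitian) : Matrix ι ι ℂ :=
  F hA (fun x => if x = 0 then 0 else 1)

section
variable {A : Matrix ι ι ℂ} (hA : A.IsHermitian)

lemma Supp_isProj : IsProj (Supp hA) :=
  F_isProj hA _ (fun i => by by_cases h : hA.eigenvalues i = 0 <;> simp [h])

lemma Supp_eq_mul : Supp hA = F hA (fun x => x⁻¹) * A := by
  have : F hA (fun x => x⁻¹) * F hA (fun x => x) = Supp hA := by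
    rw [F_mul]
    apply F_congr
    intro i
    by_cases h : hA.eigenvalues i = 0 <;> simp [h]
  rw [← this]
  simp only [F_id]

lemma mul_Supp : A * Supp hA = A := by
  have : F hA (fun x => x) * Supp hA = F hA (fun x => x) := by
    rw [Supp, F_mul]
    apply F_congr
    intro i
    by_cases h : hA.eigenvalues i = 0 <;> simp [h]
  simpa only [F_id] using this

lemma Supp_mul : Supp hA * A = A := by
  have : Supp hA * F hA (fun x => x) = F hA (fun x => x) := by
    rw [Supp, F_mul]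
    apply F_congr
    intro i
    by_cases h : hA.eigenvalues i = 0 <;> simp [h]
  simpa only [F_id] using this

lemma rtr_Supp : rtr (Supp hA) = A.rank := by
  rw [Supp, F_trace, hA.rank_eq_card_non_zero_eigs, Fintype.card_subtype, Finset.sum_ite]
  simp

end

/-- If `0 ≤ X ≤ T` then `X` vanishes off the support of `T`. -/
lemma mul_one_sub_Supp {X T : Matrix ι ι ℂ} (hX : X.PosSemidef) (hT : T.IsHermitian)
    (h : (T - X).PosSemidef) : X * (1 - Supp hT) = 0 := by
  apply mul_eq_zero_of_rtr hX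
  have h1 := rtr_conj_nonneg h (1 - Supp hT)
  rw [mul_sub (1 - Supp hT)ᴴ T X, sub_mul _ _ (1 - Supp hT), rtr_sub] at h1
  have h2 : (1 - Supp hT)ᴴ * T * (1 - Supp hT) = 0 := by
    rw [mul_assoc, mul_sub T, mul_Supp, mul_one, sub_self, mul_zero]
  rw [h2] at h1
  simpa using h1

lemma Supp_mul_Supp_of_le {X T : Matrix ι ι ℂ} (hX : X.PosSemidef) (hT : T.IsHermitian)
    (h : (T - X).PosSemidef) : Supp hX.1 * Supp hT = Supp hX.1 := by
  have h1 := mul_one_sub_Supp hX hT h
  have h2 : Supp hX.1 * (1 - Supp hT) = 0 := by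
    rw [Supp_eq_mul hX.1, mul_assoc, h1, mul_zero]
  rw [mul_sub, mul_one, sub_eq_zero] at h2
  exact h2.symm

lemma IsProj.Supp_eq {P : Matrix ι ι ℂ} (h : IsProj P) : Supp h.herm = P := by
  have h1 : Supp h.herm * P = Supp h.herm := by
    rw [Supp_eq_mul, mul_assoc, h.idem]
  rw [← h1, Supp_mul]

lemma IsProj.rtr_eq_rank {P : Matrix ι ι ℂ} (h : IsProj P) : rtr P = P.rank := by
  rw [← rtr_Supp h.herm, h.Supp_eq]

/-- Trace norm of a Hermitian matrix, spectral form. -/
lemma sqrt_sq_eq_F {A : Matrix ι ι ℂ} (hA : A.IsHermitian) :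
    CFC.sqrt (Aᴴ * A) = F hA (fun x => |x|) := by
  apply CFC.sqrt_unique
  · rw [F_mul, hA.eq]
    have : A * A = F hA (fun x => x) * F hA (fun x => x) := by rw [F_id]
    rw [this, F_mul]
    apply F_congr
    intro i
    exact abs_mul_abs_self _
  · exact (F_posSemidef hA _ (fun i => abs_nonneg _)).nonneg

end Q233.MatFC
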