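import Mathlib
import Pool.Agent.Q233.MatFC

/-!
# Multivariate trace inequality: helper lemmas
-/

namespace Q233.MTrace

open Matrix Q233.MatFC
open scoped MatrixOrder ComplexOrder

variable {ι : Type*} [Fintype ι] [DecidableEq ι]

omit [DecidableEq ι] in
lemma diag_sq {X : Matrix ι ι ℂ} (hX : X.IsHermitian) (U : Matrix ι ι ℂ) (i : ι) :
    ((Uᴴ * (X * X) * U) i i).re = ∑ k, ‖(X * U) k i‖ ^ 2 := by
  have h : Uᴴ * (X * X) * U = (X * U)ᴴ * (X * U) := by
    rw [conjTranspose_mul, hX.eq]; simp only [mul_assoc]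
  rw [h, Matrix.mul_apply, Complex.re_sum]
  apply Finset.sum_congr rfl
  intro k _
  rw [conjTranspose_apply, Complex.star_def, ← Complex.normSq_eq_conj_mul_self,
    Complex.normSq_eq_norm_sq]
  exact Complex.ofReal_re _

lemma variational {n : ℕ} (A M : Fin n → Matrix ι ι ℂ) (hA : ∀ j, (A j).IsHermitian)
    (hM : ∀ j, (M j).IsHermitian) (hM1 : (1 - ∑ j, M j * M j).PosSemidef)
    {H : Matrix ι ι ℂ} (hH : H = ∑ j, A j * A j) (hp : H.PosSemidef) :
    ∑ j, rtr (M j * A j) ≤ rtr (F hp.1 Real.sqrt) := by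
  set U : Matrix ι ι ℂ := (hp.1.eigenvectorUnitary : Matrix ι ι ℂ) with hU
  have hU1 : Uᴴ * U = 1 := by
    rw [hU, ← star_eq_conjTranspose]; exact Unitary.coe_star_mul_self _
  have hU2 : U * Uᴴ = 1 := by
    rw [hU, ← star_eq_conjTranspose]; exact Unitary.coe_mul_star_self _
  have hHU : ∀ i, ((Uᴴ * H * U) i i).re = hp.1.eigenvalues i := by
    intro i
    have h1 : H = U * diagonal (fun i => ((hp.1.eigenvalues i : ℝ) : ℂ)) * Uᴴ := by
      have := F_id hp.1
      conv_lhs => rw [← this]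
      rfl
    have h2 : Uᴴ * H * U = diagonal (fun i => ((hp.1.eigenvalues i : ℝ) : ℂ)) := by
      conv_lhs => rw [h1]
      calc Uᴴ * (U * diagonal (fun i => ((hp.1.eigenvalues i : ℝ) : ℂ)) * Uᴴ) * U
          = (Uᴴ * U) * diagonal (fun i => ((hp.1.eigenvalues i : ℝ) : ℂ)) * (Uᴴ * U) := by
            simp only [mul_assoc]
        _ = _ := by rw [hU1, one_mul, mul_one]
    rw [h2, diagonal_apply_eq]
    exact Complex.ofReal_re _
  have hterm : ∀ j, rtr (M j * A j) = ∑ i, ∑ k, (star ((M j * U) k i) * (A j * U) k i).re := by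
    intro j
    have h1 : rtr (M j * A j) = rtr ((M j * U)ᴴ * (A j * U)) := by
      have e1 : M j * A j = (M j * A j * U) * Uᴴ := by rw [mul_assoc, hU2, mul_one]
      have e2 : rtr (M j * A j) = rtr (Uᴴ * (M j * A j * U)) := by
        conv_lhs => rw [e1]
        exact rtr_mul_comm _ _
      rw [conjTranspose_mul, (hM j).eq, e2]
      simp only [mul_assoc]
    rw [h1, rtr, Matrix.trace, Complex.re_sum]
    apply Finset.sum_congr rfl
    intro i _
    rw [diag_apply, Matrix.mul_apply, Complex.re_sum]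
    rfl
  rw [F_trace, Finset.sum_congr rfl (fun j _ => hterm j), Finset.sum_comm]
  apply Finset.sum_le_sum
  intro i _
  have hb : ∑ j, ∑ k, ‖(A j * U) k i‖ ^ 2 = hp.1.eigenvalues i := by
    rw [← hHU i, hH, Matrix.mul_sum, Matrix.sum_mul, Matrix.sum_apply, Complex.re_sum]
    apply Finset.sum_congr rfl
    intro j _
    rw [diag_sq (hA j)]
  have ha : ∑ j, ∑ k, ‖(M j * U) k i‖ ^ 2 ≤ 1 := by
    have h1 : ((Uᴴ * (1 - ∑ j, M j * M j) * U) i i).re =
        1 - ∑ j, ∑ k, ‖(M j * U) k i‖ ^ 2 := by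
      rw [mul_sub, sub_mul, mul_one, hU1, Matrix.mul_sum, Matrix.sum_mul, Matrix.sub_apply,
        Matrix.sum_apply, Complex.sub_re, Complex.re_sum, Matrix.one_apply_eq, Complex.one_re]
      congr 1
      apply Finset.sum_congr rfl
      intro j _
      rw [diag_sq (hM j)]
    have h2 : 0 ≤ ((Uᴴ * (1 - ∑ j, M j * M j) * U) i i).re := by
      have := (hM1.conjTranspose_mul_mul_same U).diag_nonneg (i := i)
      exact (Complex.le_def.1 this).1
    linarith
  calc ∑ j, ∑ k, (star ((M j * U) k i) * (A j * U) k i).re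
      ≤ ∑ j, ∑ k, ‖(M j * U) k i‖ * ‖(A j * U) k i‖ := by
        apply Finset.sum_le_sum; intro j _
        apply Finset.sum_le_sum; intro k _
        refine (Complex.re_le_norm _).trans ?_
        rw [norm_mul, norm_star]
    _ = ∑ p : Fin n × ι, ‖(M p.1 * U) p.2 i‖ * ‖(A p.1 * U) p.2 i‖ := by
        rw [← Finset.univ_product_univ, Finset.sum_product]
    _ ≤ √(∑ p : Fin n × ι, ‖(M p.1 * U) p.2 i‖ ^ 2) * √(∑ p : Fin n × ι, ‖(A p.1 * U) p.2 i‖ ^ 2) :=
        Real.sum_mul_le_sqrt_mul_sqrt _ _ _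
    _ ≤ 1 * √(hp.1.eigenvalues i) := by
        rw [← Finset.univ_product_univ, Finset.sum_product, Finset.sum_product, hb]
        apply mul_le_mul_of_nonneg_right _ (Real.sqrt_nonneg _)
        exact Real.sqrt_le_one.2 ha
    _ = _ := one_mul _

/-- Partial sums. -/
noncomputable def T (P : ℕ → Matrix ι ι ℂ) (i : ℕ) : Matrix ι ι ℂ := ∑ b ∈ Finset.range i, P b

section chain
variable {P : ℕ → Matrix ι ι ℂ}

omit [DecidableEq ι] [Fintype ι] in
lemma sum_psd {κ : Type*} (s : Finset κ) (f : κ → Matrix ι ι ℂ) (h : ∀ k ∈ s, (f k).PosSemidef) :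
    (∑ k ∈ s, f k).PosSemidef := by
  classical
  induction s using Finset.induction_on with
  | empty => simpa using PosSemidef.zero
  | insert a s ha ih =>
    rw [Finset.sum_insert ha]
    exact (h a (Finset.mem_insert_self _ _)).add
      (ih (fun k hk => h k (Finset.mem_insert_of_mem hk)))

omit [DecidableEq ι] in
lemma T_psd (hP : ∀ i, IsProj (P i)) (i : ℕ) : (T P i).PosSemidef :=
  sum_psd _ _ (fun k _ => (hP k).posSemidef)

omit [DecidableEq ι] in
lemma T_sub_psd (hP : ∀ i, IsProj (P i)) {i j : ℕ} (h : i ≤ j) :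
    (T P j - T P i).PosSemidef := by
  rw [T, T, ← Finset.sum_range_add_sum_Ico _ h, add_sub_cancel_left]
  exact sum_psd _ _ (fun k _ => (hP k).posSemidef)

/-- Support projections of the partial sums. -/
noncomputable def Pr (hP : ∀ i, IsProj (P i)) (i : ℕ) : Matrix ι ι ℂ := Supp (T_psd hP i).1

variable (hP : ∀ i, IsProj (P i))

lemma Pr_isProj (i : ℕ) : IsProj (Pr hP i) := Supp_isProj _

lemma Pr_mul {i j : ℕ} (h : i ≤ j) : Pr hP i * Pr hP j = Pr hP i :=
  Supp_mul_Supp_of_le (T_psd hP i) (T_psd hP j).1 (T_sub_psd hP h)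

lemma Pr_mul' {i j : ℕ} (h : i ≤ j) : Pr hP j * Pr hP i = Pr hP i := by
  have h1 := congrArg conjTranspose (Pr_mul hP h)
  rwa [conjTranspose_mul, (Pr_isProj hP i).herm.eq, (Pr_isProj hP j).herm.eq] at h1

lemma P_mul_Pr {i j : ℕ} (h : i < j) : P i * Pr hP j = P i := by
  have h1 : (T P j - P i).PosSemidef := by
    have : T P j - P i = ∑ b ∈ (Finset.range j).erase i, P b := by
      rw [T, ← Finset.add_sum_erase _ _ (Finset.mem_range.2 h), add_sub_cancel_left]
    rw [this]
    exact sum_psd _ _ (fun k _ => (hP k).posSemidef)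
  have h2 := mul_one_sub_Supp (hP i).posSemidef (T_psd hP j).1 h1
  rw [mul_sub, mul_one, sub_eq_zero] at h2
  exact h2.symm

/-- Increments of the support projections. -/
noncomputable def Mk (i : ℕ) : Matrix ι ι ℂ := Pr hP (i + 1) - Pr hP i

lemma Mk_isProj (i : ℕ) : IsProj (Mk hP i) := by
  refine ⟨(Pr_isProj hP _).herm.sub (Pr_isProj hP _).herm, ?_⟩
  rw [Mk, sub_mul, mul_sub, mul_sub, (Pr_isProj hP _).idem, (Pr_isProj hP _).idem,
    Pr_mul hP (Nat.le_succ i), Pr_mul' hP (Nat.le_succ i)]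
  simp

lemma Mk_mul_of_lt {i j : ℕ} (h : i < j) : Mk hP i * Mk hP j = 0 := by
  rw [Mk, Mk, sub_mul, mul_sub, mul_sub, Pr_mul hP (by omega : i + 1 ≤ j + 1),
    Pr_mul hP (by omega : i + 1 ≤ j), Pr_mul hP (by omega : i ≤ j + 1), Pr_mul hP (by omega : i ≤ j)]
  simp

lemma Mk_mul_of_ne {i j : ℕ} (h : i ≠ j) : Mk hP i * Mk hP j = 0 := by
  rcases lt_or_gt_of_ne h with h | h
  · exact Mk_mul_of_lt hP h
  · have h1 := congrArg conjTranspose (Mk_mul_of_lt hP h)
    rwa [conjTranspose_mul, (Mk_isProj hP i).herm.eq, (Mk_isProj hP j).herm.eq,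
      conjTranspose_zero] at h1

lemma sum_Mk (N : ℕ) : ∑ i ∈ Finset.range N, Mk hP i = Pr hP N - Pr hP 0 :=
  Finset.sum_range_sub (Pr hP) N

lemma rtr_P_one_sub_Mk (i : ℕ) : rtr (P i * (1 - Mk hP i)) = rtr (P i * Pr hP i) := by
  rw [mul_sub, mul_one, Mk, mul_sub, P_mul_Pr hP (Nat.lt_succ_self i)]
  simp

omit [DecidableEq ι] in
lemma rank_add_le' (A B : Matrix ι ι ℂ) : (A + B).rank ≤ A.rank + B.rank := by
  classical
  unfold Matrix.rank
  rw [Matrix.mulVecLin_add]
  refine (Submodule.finrank_mono (LinearMap.range_add_le _ _)).trans ?_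
  exact Submodule.finrank_add_le_finrank_add_finrank _ _

lemma rtr_Pr_le (i : ℕ) : rtr (Pr hP i) ≤ rtr (T P i) := by
  rw [Pr, rtr_Supp]
  have h : ∀ j, ((T P j).rank : ℝ) ≤ rtr (T P j) := by
    intro j
    induction j with
    | zero => simp [T]
    | succ j ih =>
      have h1 : T P (j + 1) = T P j + P j := Finset.sum_range_succ _ _
      rw [h1, rtr_add, (hP j).rtr_eq_rank]
      have h2 : ((T P j + P j).rank : ℝ) ≤ (T P j).rank + (P j).rank := by
        exact_mod_cast rank_add_le' _ _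
      linarith
  exact h i

/-- indicator of nonzero -/
noncomputable def sne (x : ℝ) : ℝ := if x = 0 then 0 else 1

/-- indicator of the interval `(0, 1/2)` -/
noncomputable def shalf (x : ℝ) : ℝ := if 0 < x ∧ x < 1/2 then 1 else 0

lemma shalf_nonneg (x : ℝ) : 0 ≤ shalf x := by
  unfold shalf; split_ifs <;> norm_num

lemma sc1 (x : ℝ) (hx : 0 ≤ x) : sne x ≤ 2 * x + shalf x := by
  unfold sne shalf
  split_ifs with h1 h2 h2
  · linarith
  · linarith
  · linarith
  · have h3 : 0 < x := lt_of_le_of_ne hx (Ne.symm h1)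
    have : 1/2 ≤ x := by
      by_contra h4
      exact h2 ⟨h3, not_le.1 h4⟩
    linarith

lemma sc2 (x : ℝ) : shalf x ≤ 4 * (x * x - 2 * x + sne x) := by
  unfold sne shalf
  split_ifs with h1 h2 h2
  · exact absurd h2 (ne_of_gt h1.1)
  · nlinarith [h1.1, h1.2]
  · simp [h2]
  · nlinarith [sq_nonneg (x - 1)]

lemma key (i : ℕ) {Q : Matrix ι ι ℂ} (hQ : IsProj Q) :
    rtr (Q * Pr hP i) ≤ 2 * rtr (Q * T P i) + 4 * (rtr (T P i * T P i) - rtr (T P i)) := by
  have hT : (T P i).IsHermitian := (T_psd hP i).1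
  have hnn : ∀ k, 0 ≤ hT.eigenvalues k := fun k => (T_psd hP i).eigenvalues_nonneg k
  have h1 : rtr (Q * Pr hP i) ≤ rtr (F hT (fun x => 2 * x + shalf x) * Q) := by
    have e0 : Pr hP i = F hT sne := rfl
    rw [rtr_mul_comm, e0]
    exact F_mul_le (f := sne) (g := fun x => 2 * x + shalf x) hT
      (fun k => sc1 _ (hnn k)) hQ.posSemidef
  have h2 : rtr (F hT (fun x => 2 * x + shalf x) * Q) =
      2 * rtr (Q * T P i) + rtr (F hT shalf * Q) := by
    have e1 : F hT (fun x => 2 * x + shalf x) = F hT (fun x => 2 * x) + F hT shalf :=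
      (F_add hT (fun x => 2 * x) shalf).symm
    have e2 : F hT (fun x => 2 * x) = ((2 : ℝ) : ℂ) • T P i := by
      have := (F_smul hT 2 (fun x => x)).symm
      rw [this, F_id]
    rw [e1, add_mul, rtr_add, e2, smul_mul_assoc, rtr_smul, rtr_mul_comm Q]
  have h3 : rtr (F hT shalf * Q) ≤ rtr (F hT shalf) := by
    have h := F_mul_nonneg hT shalf (fun k => shalf_nonneg _) hQ.one_sub.posSemidef
    rw [mul_sub, mul_one, rtr_sub] at h
    linarith
  have h4 : rtr (F hT shalf) ≤
      rtr (F hT (fun x => 4 * (x * x - 2 * x + sne x))) := by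
    rw [F_trace, F_trace]
    exact Finset.sum_le_sum (fun k _ => sc2 _)
  have h5 : rtr (F hT (fun x => 4 * (x * x - 2 * x + sne x))) =
      4 * (rtr (T P i * T P i) - 2 * rtr (T P i) + rtr (Pr hP i)) := by
    have e1 : F hT (fun x => 4 * (x * x - 2 * x + sne x)) =
        ((4 : ℝ) : ℂ) • F hT (fun x => x * x - 2 * x + sne x) :=
      (F_smul hT 4 (fun x => x * x - 2 * x + sne x)).symm
    have e2 : F hT (fun x => x * x - 2 * x + sne x) = F hT (fun x => x * x - 2 * x) + F hT sne :=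
      (F_add hT (fun x => x * x - 2 * x) sne).symm
    have e3 : F hT (fun x => x * x - 2 * x) = F hT (fun x => x * x) - F hT (fun x => 2 * x) :=
      (F_sub hT (fun x => x * x) (fun x => 2 * x)).symm
    have e4 : F hT (fun x => 2 * x) = ((2 : ℝ) : ℂ) • T P i := by
      have := (F_smul hT 2 (fun x => x)).symm
      rw [this, F_id]
    have e5 : F hT (fun x => x * x) = T P i * T P i := by
      have := (F_mul hT (fun x => x) (fun x => x)).symm
      rw [this, F_id]
    have e6 : F hT sne = Pr hP i := rfl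
    rw [e1, rtr_smul, e2, rtr_add, e3, rtr_sub, e4, rtr_smul, e5, e6]
  have h6 := rtr_Pr_le hP i
  linarith

omit [DecidableEq ι] in
include hP in
lemma gap (i : ℕ) : rtr (T P i * T P i) - rtr (T P i) =
    2 * ∑ c ∈ Finset.range i, rtr (T P c * P c) := by
  induction i with
  | zero => simp [T]
  | succ i ih =>
    have h1 : T P (i + 1) = T P i + P i := Finset.sum_range_succ _ _
    rw [h1, add_mul, mul_add, mul_add, (hP i).idem, Finset.sum_range_succ, mul_add, ← ih,
      rtr_add, rtr_add, rtr_add, rtr_add, rtr_mul_comm (P i) (T P i)]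
    ring

/-- The weighted deficiency bound. -/
lemma weighted (w : ℕ → ℝ) (hw : ∀ i, 0 ≤ w i) (N : ℕ) (K : ℝ)
    (hK : ∀ c < N, ∑ i ∈ Finset.Ioo c N, w i ≤ K * w c) :
    ∑ i ∈ Finset.range N, w i * rtr (P i * (1 - Mk hP i)) ≤
      (2 + 8 * K) * ∑ c ∈ Finset.range N, w c * rtr (T P c * P c) := by
  have hτ : ∀ c, 0 ≤ rtr (T P c * P c) := fun c =>
    rtr_mul_nonneg (T_psd hP c) (hP c).posSemidef
  have h1 : ∀ i ∈ Finset.range N, w i * rtr (P i * (1 - Mk hP i)) ≤
      2 * (w i * rtr (T P i * P i)) + 8 * (w i * ∑ c ∈ Finset.range i, rtr (T P c * P c)) := by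
    intro i _
    rw [rtr_P_one_sub_Mk]
    have h := key hP i (hP i)
    rw [gap hP, rtr_mul_comm (P i) (T P i)] at h
    have := mul_le_mul_of_nonneg_left h (hw i)
    linarith
  refine (Finset.sum_le_sum h1).trans ?_
  rw [Finset.sum_add_distrib, ← Finset.mul_sum, ← Finset.mul_sum]
  have h2 : ∑ i ∈ Finset.range N, w i * ∑ c ∈ Finset.range i, rtr (T P c * P c) =
      ∑ c ∈ Finset.range N, (∑ i ∈ Finset.Ioo c N, w i) * rtr (T P c * P c) := by
    simp only [Finset.mul_sum, Finset.sum_mul]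
    rw [Finset.sum_sigma', Finset.sum_sigma']
    refine Finset.sum_bij' (fun x _ => (⟨x.2, x.1⟩ : Σ _ : ℕ, ℕ)) (fun x _ => ⟨x.2, x.1⟩)
      ?_ ?_ ?_ ?_ ?_
    · intro x hx
      simp only [Finset.mem_sigma, Finset.mem_range, Finset.mem_Ioo] at hx ⊢
      omega
    · intro x hx
      simp only [Finset.mem_sigma, Finset.mem_range, Finset.mem_Ioo] at hx ⊢
      omega
    · intro x hx; rfl
    · intro x hx; rfl
    · intro x hx; rfl
  rw [h2]
  have h3 : ∑ c ∈ Finset.range N, (∑ i ∈ Finset.Ioo c N, w i) * rtr (T P c * P c) ≤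
      K * ∑ c ∈ Finset.range N, w c * rtr (T P c * P c) := by
    rw [Finset.mul_sum]
    apply Finset.sum_le_sum
    intro c hc
    have := mul_le_mul_of_nonneg_right (hK c (Finset.mem_range.1 hc)) (hτ c)
    linarith
  linarith

end chain

section levels

/-- dyadic levels -/
noncomputable def wt (W : ℝ) (s : ℕ) : ℝ := W / 2 ^ s

/-- indicator of a dyadic layer -/
noncomputable def ind (W : ℝ) (s : ℕ) (x : ℝ) : ℝ := if wt W (s + 1) < x ∧ x ≤ wt W s then 1 else 0

lemma wt_nonneg {W : ℝ} (hW : 0 ≤ W) (s : ℕ) : 0 ≤ wt W s := by unfold wt; positivity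

lemma wt_succ (W : ℝ) (s : ℕ) : wt W (s + 1) = wt W s / 2 := by
  unfold wt; rw [pow_succ]; field_simp

lemma ind_nonneg (W : ℝ) (s : ℕ) (x : ℝ) : 0 ≤ ind W s x := by
  unfold ind; split_ifs <;> norm_num

lemma level_upper {W : ℝ} (hW : 0 ≤ W) {x : ℝ} (hx : x ≤ W) (S : ℕ) :
    x ≤ (∑ s ∈ Finset.range S, wt W s * ind W s x) + wt W S := by
  have hnn : ∀ S : ℕ, 0 ≤ ∑ s ∈ Finset.range S, wt W s * ind W s x := fun S =>
    Finset.sum_nonneg (fun s _ => mul_nonneg (wt_nonneg hW s) (ind_nonneg W s x))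
  have h : x ≤ wt W S ∨ x ≤ ∑ s ∈ Finset.range S, wt W s * ind W s x := by
    induction S with
    | zero => left; simpa [wt] using hx
    | succ S ih =>
      rw [Finset.sum_range_succ]
      rcases ih with ih | ih
      · by_cases h1 : wt W (S + 1) < x
        · right
          have : ind W S x = 1 := by unfold ind; rw [if_pos ⟨h1, ih⟩]
          rw [this]
          have := hnn S
          linarith
        · left; exact not_lt.1 h1
      · right
        have := mul_nonneg (wt_nonneg hW S) (ind_nonneg W S x)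
        linarith
  rcases h with h | h
  · have := hnn S
    linarith
  · have := wt_nonneg hW S
    linarith

lemma level_sum {W : ℝ} (hW : 0 ≤ W) {x : ℝ} (u : ℕ → ℝ) (G : ℝ) (hG : 0 ≤ G)
    (hu : ∀ s, u s * ind W s x ≤ G) (S : ℕ) :
    ∑ s ∈ Finset.range S, u s * ind W s x ≤ G := by
  have h : ∑ s ∈ Finset.range S, u s * ind W s x ≤ if wt W S < x then G else 0 := by
    induction S with
    | zero => split_ifs <;> simp [hG]
    | succ S ih =>
      rw [Finset.sum_range_succ]
      have h0 : wt W (S + 1) ≤ wt W S := by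
        rw [wt_succ]; linarith [wt_nonneg hW S]
      by_cases h1 : wt W S < x
      · have h2 : wt W (S + 1) < x := lt_of_le_of_lt h0 h1
        have h3 : ind W S x = 0 := by
          unfold ind; rw [if_neg]; intro h; exact absurd h.2 (not_le.2 h1)
        rw [if_pos h1] at ih
        rw [if_pos h2, h3]
        linarith
      · rw [if_neg h1] at ih
        by_cases h2 : wt W (S + 1) < x
        · rw [if_pos h2]
          linarith [hu S]
        · rw [if_neg h2]
          have h3 : ind W S x = 0 := by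
            unfold ind; rw [if_neg]; intro h; exact h2 h.1
          rw [h3]
          linarith
  refine h.trans ?_
  split_ifs
  · exact le_rfl
  · exact hG

variable {A : Matrix ι ι ℂ} (hA : A.PosSemidef) (W : ℝ)

/-- Spectral projections for the dyadic layers. -/
noncomputable def PP (s : ℕ) : Matrix ι ι ℂ := F hA.1 (ind W s)

lemma PP_isProj (s : ℕ) : IsProj (PP hA W s) := by
  apply F_isProj
  intro i
  unfold ind
  split_ifs
  · right; rfl
  · left; rfl

lemma PP_mul_of_lt {s t : ℕ} (h : s < t) (hW : 0 ≤ W) : PP hA W s * PP hA W t = 0 := by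
  unfold PP
  rw [F_mul, ← F_zero hA.1]
  apply F_congr
  intro i
  have hmono : wt W t ≤ wt W (s + 1) := by
    unfold wt
    apply div_le_div_of_nonneg_left hW (by positivity)
    exact pow_le_pow_right₀ (by norm_num) h
  unfold ind
  by_cases h1 : wt W (s + 1) < hA.1.eigenvalues i ∧ hA.1.eigenvalues i ≤ wt W s
  · rw [if_neg (c := wt W (t + 1) < _ ∧ _)]
    · simp
    · rintro ⟨_, h3⟩
      linarith [h1.1]
  · rw [if_neg h1, zero_mul]

lemma PP_mul_of_ne {s t : ℕ} (h : s ≠ t) (hW : 0 ≤ W) : PP hA W s * PP hA W t = 0 := by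
  rcases lt_or_gt_of_ne h with h | h
  · exact PP_mul_of_lt hA W h hW
  · have h1 := congrArg conjTranspose (PP_mul_of_lt hA W h hW)
    rwa [conjTranspose_mul, (PP_isProj hA W s).herm.eq, (PP_isProj hA W t).herm.eq,
      conjTranspose_zero] at h1

lemma sum_PP (u : ℕ → ℝ) (S : ℕ) (X : Matrix ι ι ℂ) :
    ∑ s ∈ Finset.range S, u s * rtr (PP hA W s * X) =
      rtr (F hA.1 (fun x => ∑ s ∈ Finset.range S, u s * ind W s x) * X) := by
  have h1 : F hA.1 (fun x => ∑ s ∈ Finset.range S, u s * ind W s x) =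
      ∑ s ∈ Finset.range S, F hA.1 (fun x => u s * ind W s x) :=
    (F_sum hA.1 (Finset.range S) (fun s x => u s * ind W s x)).symm
  rw [h1, Finset.sum_mul, rtr_sum]
  apply Finset.sum_congr rfl
  intro s _
  have h2 : F hA.1 (fun x => u s * ind W s x) = ((u s : ℝ) : ℂ) • PP hA W s :=
    (F_smul hA.1 (u s) (ind W s)).symm
  rw [h2, smul_mul_assoc, rtr_smul]

lemma B1 (hW : 0 ≤ W) (hAW : ∀ i, hA.1.eigenvalues i ≤ W) (S : ℕ) {X : Matrix ι ι ℂ}
    (hX : X.PosSemidef) :
    rtr (A * X) ≤ (∑ s ∈ Finset.range S, wt W s * rtr (PP hA W s * X)) + wt W S * rtr X := by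
  rw [sum_PP hA W (wt W) S X]
  have h1 := F_mul_le (f := fun x => x)
    (g := fun x => (∑ s ∈ Finset.range S, wt W s * ind W s x) + wt W S * 1) hA.1
    (fun i => by rw [mul_one]; exact level_upper hW (hAW i) S) hX
  have h2 : F hA.1 (fun x => (∑ s ∈ Finset.range S, wt W s * ind W s x) + wt W S * 1) =
      F hA.1 (fun x => (∑ s ∈ Finset.range S, wt W s * ind W s x)) +
        F hA.1 (fun _ => wt W S * 1) :=
    (F_add hA.1 (fun x => (∑ s ∈ Finset.range S, wt W s * ind W s x)) (fun _ => wt W S * 1)).symm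
  have h3 : F hA.1 (fun _ => wt W S * 1) = ((wt W S : ℝ) : ℂ) • (1 : Matrix ι ι ℂ) := by
    rw [← F_one hA.1]; exact (F_smul hA.1 (wt W S) (fun _ => 1)).symm
  rw [h2, h3, add_mul, rtr_add, smul_mul_assoc, rtr_smul, one_mul, F_id] at h1
  exact h1

lemma B2 (hW : 0 ≤ W) (S : ℕ) {X : Matrix ι ι ℂ} (hX : X.PosSemidef) :
    ∑ s ∈ Finset.range S, wt W s * rtr (PP hA W s * X) ≤ 2 * rtr (A * X) := by
  rw [sum_PP hA W (wt W) S X]
  have h1 := F_mul_le (g := fun x => 2 * x)
    (f := fun x => ∑ s ∈ Finset.range S, wt W s * ind W s x) hA.1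
    (fun i => by
      have hnn : 0 ≤ hA.1.eigenvalues i := hA.eigenvalues_nonneg i
      apply level_sum hW (wt W) _ (by positivity)
      intro s
      unfold ind
      split_ifs with h
      · rw [wt_succ] at h; linarith [h.1]
      · simpa using hnn) hX
  have h2 : F hA.1 (fun x => 2 * x) = ((2 : ℝ) : ℂ) • A := by
    have := (F_smul hA.1 2 (fun x => x)).symm
    rw [this, F_id]
  rw [h2, smul_mul_assoc, rtr_smul] at h1
  exact h1

lemma B3 (hW : 0 ≤ W) (S : ℕ) {X : Matrix ι ι ℂ} (hX : X.PosSemidef) :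
    ∑ s ∈ Finset.range S, rtr (PP hA W s * X) ≤ rtr X := by
  have h0 := sum_PP hA W (fun _ => 1) S X
  simp only [one_mul] at h0
  rw [h0]
  have h1 := F_mul_le (g := fun _ => 1)
    (f := fun x => ∑ s ∈ Finset.range S, ind W s x) hA.1
    (fun i => by
      have := level_sum hW (x := hA.1.eigenvalues i) (fun _ => 1) 1 (by norm_num) (by
        intro s
        unfold ind
        split_ifs <;> norm_num) S
      simpa using this) hX
  rw [F_one, one_mul] at h1
  exact h1

end levels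

omit [DecidableEq ι] in
lemma sq_add_le (X Y : Matrix ι ι ℂ) :
    rtr ((X + Y)ᴴ * (X + Y)) ≤ 2 * rtr (Xᴴ * X) + 2 * rtr (Yᴴ * Y) := by
  have h := rtr_nonneg (posSemidef_conjTranspose_mul_self (X - Y))
  rw [conjTranspose_sub, sub_mul, mul_sub, mul_sub, rtr_sub, rtr_sub, rtr_sub] at h
  rw [conjTranspose_add, add_mul, mul_add, mul_add, rtr_add, rtr_add, rtr_add]
  linarith

/-- Splitting the overlap of two projections along a third one. -/
lemma overlap {P P' Q : Matrix ι ι ℂ} (hP : IsProj P) (hP' : IsProj P') (hQ : IsProj Q) :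
    rtr (P * P') ≤ 2 * rtr (P' * (Q * P * Q)) + 2 * rtr (P * ((1 - Q) * P' * (1 - Q))) := by
  have h := sq_add_le (P * Q * P') (P * (1 - Q) * P')
  have e1 : P * Q * P' + P * (1 - Q) * P' = P * P' := by
    rw [← add_mul, ← mul_add]; simp
  have e2 : rtr ((P * P')ᴴ * (P * P')) = rtr (P * P') := by
    rw [conjTranspose_mul, hP.herm.eq, hP'.herm.eq, mul_assoc, ← mul_assoc P, hP.idem,
      rtr_mul_comm, mul_assoc, hP'.idem]
  have e3 : rtr ((P * Q * P')ᴴ * (P * Q * P')) = rtr (P' * (Q * P * Q)) := by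
    rw [conjTranspose_mul, conjTranspose_mul, hP.herm.eq, hP'.herm.eq, hQ.herm.eq]
    have : P' * (Q * P) * (P * Q * P') = (P' * (Q * P * Q)) * P' := by
      calc _ = P' * (Q * (P * P) * Q) * P' := by simp only [mul_assoc]
        _ = _ := by rw [hP.idem]
    rw [this, rtr_mul_comm, ← mul_assoc, hP'.idem]
  have e4 : rtr ((P * (1 - Q) * P')ᴴ * (P * (1 - Q) * P')) =
      rtr (P * ((1 - Q) * P' * (1 - Q))) := by
    rw [conjTranspose_mul, conjTranspose_mul, hP.herm.eq, hP'.herm.eq, hQ.one_sub.herm.eq]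
    have : P' * ((1 - Q) * P) * (P * (1 - Q) * P') = (P' * ((1 - Q) * P * (1 - Q))) * P' := by
      calc _ = P' * ((1 - Q) * (P * P) * (1 - Q)) * P' := by simp only [mul_assoc]
        _ = _ := by rw [hP.idem]
    rw [this, rtr_mul_comm, ← mul_assoc, hP'.idem]
    calc rtr (P' * ((1 - Q) * P * (1 - Q))) = rtr ((P' * (1 - Q)) * (P * (1 - Q))) := by
          simp only [mul_assoc]
      _ = rtr ((P * (1 - Q)) * (P' * (1 - Q))) := rtr_mul_comm _ _
      _ = _ := by simp only [mul_assoc]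
  rw [e1, e2, e3, e4] at h
  exact h

/-- The weighted overlap of the spectral layers of two matrices. -/
lemma layers {A B : Matrix ι ι ℂ} (hA : A.PosSemidef) (hB : B.PosSemidef) {W : ℝ} (hW : 0 ≤ W)
    (S : ℕ) {Q : Matrix ι ι ℂ} (hQ : IsProj Q) :
    ∑ r ∈ Finset.range S, ∑ t ∈ Finset.range S,
      min (wt W r) (wt W t) * rtr (PP hA W r * PP hB W t) ≤
      4 * (rtr (A * Q) + rtr (B * (1 - Q))) := by
  have hpsd1 : ∀ r, (Q * PP hA W r * Q).PosSemidef := fun r => by
    have := (PP_isProj hA W r).posSemidef.conjTranspose_mul_mul_same Q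
    rwa [hQ.herm.eq] at this
  have hpsd2 : ∀ t, ((1 - Q) * PP hB W t * (1 - Q)).PosSemidef := fun t => by
    have := (PP_isProj hB W t).posSemidef.conjTranspose_mul_mul_same (1 - Q)
    rwa [hQ.one_sub.herm.eq] at this
  have h1 : ∑ r ∈ Finset.range S, ∑ t ∈ Finset.range S,
      min (wt W r) (wt W t) * rtr (PP hA W r * PP hB W t) ≤
      ∑ r ∈ Finset.range S, ∑ t ∈ Finset.range S,
      (2 * (wt W r * rtr (PP hB W t * (Q * PP hA W r * Q))) +
        2 * (wt W t * rtr (PP hA W r * ((1 - Q) * PP hB W t * (1 - Q))))) := by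
    apply Finset.sum_le_sum; intro r _
    apply Finset.sum_le_sum; intro t _
    have h2 := overlap (PP_isProj hA W r) (PP_isProj hB W t) hQ
    have h3 := rtr_mul_nonneg (PP_isProj hB W t).posSemidef (hpsd1 r)
    have h4 := rtr_mul_nonneg (PP_isProj hA W r).posSemidef (hpsd2 t)
    have h5 : 0 ≤ min (wt W r) (wt W t) := le_min (wt_nonneg hW _) (wt_nonneg hW _)
    have h6 := mul_le_mul_of_nonneg_left h2 h5
    have h7 := mul_le_mul_of_nonneg_right (min_le_left (wt W r) (wt W t)) h3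
    have h8 := mul_le_mul_of_nonneg_right (min_le_right (wt W r) (wt W t)) h4
    linarith
  refine h1.trans ?_
  simp only [Finset.sum_add_distrib]
  have h2 : ∑ r ∈ Finset.range S, ∑ t ∈ Finset.range S,
      2 * (wt W r * rtr (PP hB W t * (Q * PP hA W r * Q))) ≤ 4 * rtr (A * Q) := by
    have h3 : ∀ r ∈ Finset.range S, ∑ t ∈ Finset.range S,
        2 * (wt W r * rtr (PP hB W t * (Q * PP hA W r * Q))) ≤
        2 * (wt W r * rtr (PP hA W r * Q)) := by
      intro r _
      rw [← Finset.mul_sum, ← Finset.mul_sum]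
      have h4 := B3 hB W hW S (hpsd1 r)
      have h5 : rtr (Q * PP hA W r * Q) = rtr (PP hA W r * Q) := by
        rw [mul_assoc, rtr_mul_comm, mul_assoc, hQ.idem]
      rw [h5] at h4
      have := mul_le_mul_of_nonneg_left h4 (wt_nonneg hW r)
      linarith
    refine (Finset.sum_le_sum h3).trans ?_
    rw [← Finset.mul_sum]
    have := B2 hA W hW S hQ.posSemidef
    linarith
  have h3 : ∑ r ∈ Finset.range S, ∑ t ∈ Finset.range S,
      2 * (wt W t * rtr (PP hA W r * ((1 - Q) * PP hB W t * (1 - Q)))) ≤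
      4 * rtr (B * (1 - Q)) := by
    rw [Finset.sum_comm]
    have h3 : ∀ t ∈ Finset.range S, ∑ r ∈ Finset.range S,
        2 * (wt W t * rtr (PP hA W r * ((1 - Q) * PP hB W t * (1 - Q)))) ≤
        2 * (wt W t * rtr (PP hB W t * (1 - Q))) := by
      intro t _
      rw [← Finset.mul_sum, ← Finset.mul_sum]
      have h4 := B3 hA W hW S (hpsd2 t)
      have h5 : rtr ((1 - Q) * PP hB W t * (1 - Q)) = rtr (PP hB W t * (1 - Q)) := by
        rw [mul_assoc, rtr_mul_comm, mul_assoc, hQ.one_sub.idem]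
      rw [h5] at h4
      have := mul_le_mul_of_nonneg_left h4 (wt_nonneg hW t)
      linarith
    refine (Finset.sum_le_sum h3).trans ?_
    rw [← Finset.mul_sum]
    have := B2 hB W hW S hQ.one_sub.posSemidef
    linarith
  linarith

end Q233.MTrace
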