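import Mathlib
import Pool.Agent.Q233.MTrace

/-!
# Multivariate trace inequality: assembly
-/

namespace Q233.MTrace

open Matrix Q233.MatFC
open scoped MatrixOrder ComplexOrder

variable {ι : Type*} [Fintype ι] [DecidableEq ι]

/-- trace norm -/
noncomputable def tn (X : Matrix ι ι ℂ) : ℝ := (Matrix.trace (CFC.sqrt (Xᴴ * X))).re

/-- `m(A,B) = (tr (A+B) - ‖A-B‖₁)/2`. -/
noncomputable def mm (A B : Matrix ι ι ℂ) : ℝ := (rtr (A + B) - tn (A - B)) / 2

lemma tn_neg (X : Matrix ι ι ℂ) : tn (-X) = tn X := by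
  unfold tn; simp

lemma mm_symm (A B : Matrix ι ι ℂ) : mm A B = mm B A := by
  unfold mm
  rw [← neg_sub A B, tn_neg, add_comm]

lemma exists_Q {A B : Matrix ι ι ℂ} (hA : A.PosSemidef) (hB : B.PosSemidef) :
    ∃ Q, IsProj Q ∧ rtr (A * Q) + rtr (B * (1 - Q)) = mm A B := by
  have hX : (A - B).IsHermitian := hA.1.sub hB.1
  refine ⟨F hX (fun x => if x < 0 then 1 else 0), F_isProj hX _ ?_, ?_⟩
  · intro i; split_ifs
    · right; rfl
    · left; rfl
  · have h1 : F hX (fun x => |x|) = (A - B) -
        ((2 : ℝ) : ℂ) • ((A - B) * F hX (fun x => if x < 0 then 1 else 0)) := by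
      have e1 : (A - B) * F hX (fun x => if x < 0 then 1 else 0) =
          F hX (fun x => x * (if x < 0 then 1 else 0)) := by
        rw [← F_mul hX (fun x => x) (fun x => if x < 0 then 1 else 0), F_id]
      have e2 : ((2 : ℝ) : ℂ) • F hX (fun x => x * (if x < 0 then 1 else 0)) =
          F hX (fun x => 2 * (x * (if x < 0 then 1 else 0))) :=
        F_smul hX 2 (fun x => x * (if x < 0 then 1 else 0))
      have e3 : (A - B) - F hX (fun x => 2 * (x * (if x < 0 then 1 else 0))) =
          F hX (fun x => x - 2 * (x * (if x < 0 then 1 else 0))) := by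
        rw [← F_sub hX (fun x => x) (fun x => 2 * (x * (if x < 0 then 1 else 0))), F_id]
      rw [e1, e2, e3]
      apply F_congr
      intro i
      split_ifs with h
      · rw [abs_of_neg h]; ring
      · rw [abs_of_nonneg (not_lt.1 h)]; ring
    have h2 : tn (A - B) = rtr (F hX (fun x => |x|)) := by
      unfold tn rtr
      rw [sqrt_sq_eq_F hX]
    unfold mm
    rw [h2, h1, rtr_sub, rtr_smul, sub_mul, rtr_sub, rtr_sub, rtr_add, mul_sub, mul_one, rtr_sub]
    ring

lemma layers' {A B : Matrix ι ι ℂ} (hA : A.PosSemidef) (hB : B.PosSemidef) {W : ℝ} (hW : 0 ≤ W)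
    (S : ℕ) :
    ∑ r ∈ Finset.range S, ∑ t ∈ Finset.range S,
      min (wt W r) (wt W t) * rtr (PP hA W r * PP hB W t) ≤ 4 * mm A B := by
  obtain ⟨Q, hQ, h⟩ := exists_Q hA hB
  rw [← h]
  exact layers hA hB hW S hQ

/-- Telescoping potential for the geometric weights. -/
lemma geom_tail {W : ℝ} (hW : 0 ≤ W) {n : ℕ} (hn : 0 < n) (c N : ℕ) :
    ∑ i ∈ Finset.Ioo c N, wt W (i / n) ≤ (2 * n) * wt W (c / n) := by
  set φ : ℕ → ℝ := fun i => wt W (i / n) * (2 * n - ((i % n : ℕ) : ℝ)) with hφ
  have hstep : ∀ i, wt W (i / n) = φ i - φ (i + 1) := by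
    intro i
    have hlt := Nat.mod_lt i hn
    by_cases h : i % n + 1 < n
    · have h1 : (i + 1) % n = i % n + 1 := by
        rw [Nat.add_mod, Nat.mod_eq_of_lt (a := 1) (by omega), Nat.mod_eq_of_lt h]
      have h2 : (i + 1) / n = i / n := by
        rw [Nat.succ_div, if_neg, add_zero]
        intro hd
        have := Nat.mod_eq_zero_of_dvd hd
        omega
      simp only [hφ, h1, h2]
      push_cast
      ring
    · have h0 : i % n + 1 = n := by omega
      have hdv : n ∣ i + 1 := by
        have := Nat.div_add_mod i n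
        refine ⟨i / n + 1, ?_⟩
        rw [mul_add]; omega
      have h1 : (i + 1) % n = 0 := Nat.mod_eq_zero_of_dvd hdv
      have h2 : (i + 1) / n = i / n + 1 := by
        rw [Nat.succ_div, if_pos hdv]
      simp only [hφ, h1, h2, wt_succ]
      have h3 : ((i % n : ℕ) : ℝ) = n - 1 := by
        rw [eq_sub_iff_add_eq]; exact_mod_cast h0
      rw [h3]
      push_cast
      ring
  have hnn : ∀ i, 0 ≤ φ i := by
    intro i
    apply mul_nonneg (wt_nonneg hW _)
    have h1 : ((i % n : ℕ) : ℝ) ≤ n := by exact_mod_cast (Nat.mod_lt i hn).le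
    have h2 : (0 : ℝ) ≤ n := by positivity
    linarith
  have hanti : φ (c + 1) ≤ φ c := by
    have := hstep c
    have h2 := wt_nonneg hW (c / n)
    linarith
  have hle : φ c ≤ (2 * n) * wt W (c / n) := by
    have h1 : (0 : ℝ) ≤ ((c % n : ℕ) : ℝ) := by positivity
    have h2 := mul_nonneg (wt_nonneg hW (c / n)) h1
    simp only [hφ]
    linarith
  rcases le_or_gt N (c + 1) with h | h
  · have : Finset.Ioo c N = ∅ := by
      ext i; simp only [Finset.mem_Ioo, Finset.notMem_empty, iff_false]; omega
    rw [this, Finset.sum_empty]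
    have := hnn c
    linarith
  · have h1 : Finset.Ioo c N = Finset.Ico (c + 1) N := by
      ext i; simp only [Finset.mem_Ioo, Finset.mem_Ico]; omega
    have h2 : ∑ i ∈ Finset.Ico (c + 1) N, wt W (i / n) = φ (c + 1) - φ N := by
      rw [Finset.sum_congr rfl (fun i _ => hstep i)]
      rw [← neg_inj, ← Finset.sum_neg_distrib]
      simp only [neg_sub]
      exact Finset.sum_Ico_sub φ h.le
    rw [h1, h2]
    have := hnn N
    linarith

lemma sum_range_mul' {M : Type*} [AddCommMonoid M] (f : ℕ → M) (S n : ℕ) :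
    ∑ i ∈ Finset.range (S * n), f i = ∑ s ∈ Finset.range S, ∑ j ∈ Finset.range n, f (s * n + j) := by
  induction S with
  | zero => simp
  | succ S ih => rw [Nat.succ_mul, Finset.sum_range_add, ih, Finset.sum_range_succ]

lemma two_mul_lower (g : ℕ → ℕ → ℝ) (hs : ∀ b c, g b c = g c b) (hd : ∀ b, 0 ≤ g b b) (N : ℕ) :
    2 * ∑ c ∈ Finset.range N, ∑ b ∈ Finset.range c, g b c ≤
      ∑ b ∈ Finset.range N, ∑ c ∈ Finset.range N, g b c := by
  induction N with
  | zero => simp
  | succ N ih =>
    rw [Finset.sum_range_succ, Finset.sum_range_succ (fun b => ∑ c ∈ Finset.range (N + 1), g b c)]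
    have h1 : ∑ b ∈ Finset.range N, ∑ c ∈ Finset.range (N + 1), g b c =
        ∑ b ∈ Finset.range N, ∑ c ∈ Finset.range N, g b c + ∑ b ∈ Finset.range N, g b N := by
      rw [← Finset.sum_add_distrib]
      apply Finset.sum_congr rfl
      intro b _
      rw [Finset.sum_range_succ]
    have h2 : ∑ c ∈ Finset.range (N + 1), g N c = ∑ b ∈ Finset.range N, g b N + g N N := by
      rw [Finset.sum_range_succ]
      congr 1
      apply Finset.sum_congr rfl
      intro b _
      exact hs _ _
    rw [h1, h2]
    have := hd N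
    linarith

section main
variable {A : ℕ → Matrix ι ι ℂ} (hA : ∀ j, (A j).PosSemidef) {W : ℝ} (hW : 0 ≤ W)
variable {n : ℕ} (hn : 0 < n)

/-- The enumerated layers. -/
noncomputable def PL (W : ℝ) (n : ℕ) (i : ℕ) : Matrix ι ι ℂ := PP (hA (i % n)) W (i / n)

lemma PL_isProj (i : ℕ) : IsProj (PL hA W n i) := PP_isProj _ _ _

include hn in
lemma PL_apply {s j : ℕ} (hj : j < n) : PL hA W n (s * n + j) = PP (hA j) W s := by
  have h1 : (s * n + j) % n = j := by
    rw [add_comm, Nat.add_mul_mod_self_right, Nat.mod_eq_of_lt hj]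
  have h2 : (s * n + j) / n = s := by
    rw [add_comm, Nat.add_mul_div_right _ _ hn, Nat.div_eq_of_lt hj, zero_add]
  unfold PL
  have : ∀ a b : ℕ, a = j → b = s → PP (hA a) W b = PP (hA j) W s := by
    rintro a b rfl rfl; rfl
  exact this _ _ h1 h2

include hW hn in
lemma pair_sum (S : ℕ) :
    ∑ c ∈ Finset.range (S * n), wt W (c / n) * rtr (T (PL hA W n) c * PL hA W n c) ≤
      2 * ∑ j ∈ Finset.range n, ∑ k ∈ Finset.range n, if j = k then 0 else mm (A j) (A k) := by
  set P := PL hA W n with hP
  set g : ℕ → ℕ → ℝ := fun b c => if b % n = c % n then 0 else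
    min (wt W (b / n)) (wt W (c / n)) * rtr (P b * P c) with hg
  have hsym : ∀ b c, g b c = g c b := by
    intro b c
    simp only [hg]
    by_cases h : b % n = c % n
    · rw [if_pos h, if_pos h.symm]
    · rw [if_neg h, if_neg (fun h' => h h'.symm), min_comm, rtr_mul_comm]
  have hdiag : ∀ b, 0 ≤ g b b := by
    intro b; simp [hg]
  have h1 : ∀ c ∈ Finset.range (S * n), wt W (c / n) * rtr (T P c * P c) =
      ∑ b ∈ Finset.range c, g b c := by
    intro c _
    rw [T, Finset.sum_mul, rtr_sum, Finset.mul_sum]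
    apply Finset.sum_congr rfl
    intro b hb
    have hb' := Finset.mem_range.1 hb
    simp only [hg]
    split_ifs with h
    · have hne : b / n ≠ c / n := by
        intro h2
        have e1 := Nat.div_add_mod b n
        have e2 := Nat.div_add_mod c n
        rw [h, h2] at e1
        omega
      have : P b * P c = 0 := by
        simp only [hP, PL]
        have key : ∀ a a' s t : ℕ, a = a' → s ≠ t → PP (hA a) W s * PP (hA a') W t = 0 := by
          rintro a a' s t rfl hst
          exact PP_mul_of_ne _ W hst hW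
        exact key _ _ _ _ h hne
      rw [this]; simp
    · have hle : b / n ≤ c / n := Nat.div_le_div_right hb'.le
      have : min (wt W (b / n)) (wt W (c / n)) = wt W (c / n) := by
        apply min_eq_right
        unfold wt
        apply div_le_div_of_nonneg_left hW (by positivity)
        exact pow_le_pow_right₀ (by norm_num) hle
      rw [this]
  rw [Finset.sum_congr rfl h1]
  have h2 := two_mul_lower g hsym hdiag (S * n)
  have h3 : ∑ b ∈ Finset.range (S * n), ∑ c ∈ Finset.range (S * n), g b c =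
      ∑ j ∈ Finset.range n, ∑ k ∈ Finset.range n,
        ∑ r ∈ Finset.range S, ∑ t ∈ Finset.range S, g (r * n + j) (t * n + k) := by
    rw [sum_range_mul', Finset.sum_comm]
    apply Finset.sum_congr rfl
    intro j _
    rw [Finset.sum_comm]
    have : ∀ r ∈ Finset.range S, ∑ c ∈ Finset.range (S * n), g (r * n + j) c =
        ∑ k ∈ Finset.range n, ∑ t ∈ Finset.range S, g (r * n + j) (t * n + k) := by
      intro r _
      rw [sum_range_mul', Finset.sum_comm]
    rw [Finset.sum_comm, Finset.sum_congr rfl this, Finset.sum_comm]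
  have h4 : ∑ j ∈ Finset.range n, ∑ k ∈ Finset.range n,
        ∑ r ∈ Finset.range S, ∑ t ∈ Finset.range S, g (r * n + j) (t * n + k) ≤
      ∑ j ∈ Finset.range n, ∑ k ∈ Finset.range n, 4 * (if j = k then 0 else mm (A j) (A k)) := by
    apply Finset.sum_le_sum; intro j hj
    apply Finset.sum_le_sum; intro k hk
    have hj' := Finset.mem_range.1 hj
    have hk' := Finset.mem_range.1 hk
    have m1 : ∀ r, (r * n + j) % n = j := fun r => by
      rw [add_comm, Nat.add_mul_mod_self_right, Nat.mod_eq_of_lt hj']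
    have m2 : ∀ r, (r * n + k) % n = k := fun r => by
      rw [add_comm, Nat.add_mul_mod_self_right, Nat.mod_eq_of_lt hk']
    have d1 : ∀ r, (r * n + j) / n = r := fun r => by
      rw [add_comm, Nat.add_mul_div_right _ _ hn, Nat.div_eq_of_lt hj', zero_add]
    have d2 : ∀ r, (r * n + k) / n = r := fun r => by
      rw [add_comm, Nat.add_mul_div_right _ _ hn, Nat.div_eq_of_lt hk', zero_add]
    by_cases h : j = k
    · simp only [hg, m2, h, if_true]
      simp
    · simp only [hg, m1, m2, d1, d2, if_neg h]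
      have e : ∀ r t, P (r * n + j) * P (t * n + k) = PP (hA j) W r * PP (hA k) W t := by
        intro r t
        rw [hP, PL_apply hA hn hj', PL_apply hA hn hk']
      simp only [e]
      exact layers' (hA j) (hA k) hW S
  rw [h3] at h2
  simp only [← Finset.mul_sum] at h4
  linarith

/-- Grouped increments. -/
noncomputable def MG (W : ℝ) (n S j : ℕ) : Matrix ι ι ℂ :=
  ∑ s ∈ Finset.range S, Mk (PL_isProj hA (W := W) (n := n)) (s * n + j)

include hn in
lemma idx_inj {s t j : ℕ} (h : s ≠ t) : s * n + j ≠ t * n + j := by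
  intro h1
  apply h
  have h2 : s * n = t * n := by omega
  exact Nat.eq_of_mul_eq_mul_right hn h2

include hn in
lemma MG_isProj (S j : ℕ) : IsProj (MG hA W n S j) := by
  constructor
  · unfold MG
    rw [Matrix.IsHermitian, conjTranspose_sum]
    apply Finset.sum_congr rfl
    intro s _
    exact (Mk_isProj _ _).herm
  · unfold MG
    rw [Finset.sum_mul_sum]
    apply Finset.sum_congr rfl
    intro s hs
    rw [Finset.sum_eq_single s]
    · exact (Mk_isProj _ _).idem
    · intro t _ hts
      exact Mk_mul_of_ne _ (idx_inj hn (Ne.symm hts))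
    · intro h; exact absurd hs h

lemma MG_sub_psd {S s : ℕ} (hs : s < S) (j : ℕ) :
    (MG hA W n S j - Mk (PL_isProj hA (W := W) (n := n)) (s * n + j)).PosSemidef := by
  unfold MG
  rw [← Finset.add_sum_erase _ _ (Finset.mem_range.2 hs), add_sub_cancel_left]
  exact sum_psd _ _ (fun k _ => (Mk_isProj _ _).posSemidef)

include hW hn in
lemma deficiency (hAW : ∀ j i, (hA j).1.eigenvalues i ≤ W) (S : ℕ) :
    ∑ j ∈ Finset.range n, rtr (A j * (1 - MG hA W n S j)) ≤
      (∑ i ∈ Finset.range (S * n), wt W (i / n) *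
        rtr (PL hA W n i * (1 - Mk (PL_isProj hA (W := W) (n := n)) i))) +
      n * (wt W S * Fintype.card ι) := by
  have h1 : ∀ j ∈ Finset.range n, rtr (A j * (1 - MG hA W n S j)) ≤
      (∑ s ∈ Finset.range S, wt W s *
        rtr (PP (hA j) W s * (1 - Mk (PL_isProj hA (W := W) (n := n)) (s * n + j)))) +
      wt W S * Fintype.card ι := by
    intro j _
    refine (B1 (hA j) W hW (hAW j) S (MG_isProj hA hn S j).one_sub.posSemidef).trans ?_
    apply add_le_add
    · apply Finset.sum_le_sum
      intro s hs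
      apply mul_le_mul_of_nonneg_left _ (wt_nonneg hW s)
      have h2 := rtr_mul_nonneg (PP_isProj (hA j) W s).posSemidef
        (MG_sub_psd hA (W := W) (n := n) (Finset.mem_range.1 hs) j)
      rw [mul_sub, rtr_sub] at h2
      rw [mul_sub, mul_sub, rtr_sub, rtr_sub]
      linarith
    · apply mul_le_mul_of_nonneg_left _ (wt_nonneg hW S)
      rw [rtr_sub, rtr_one]
      have := rtr_nonneg (MG_isProj hA (W := W) hn S j).posSemidef
      linarith
  refine (Finset.sum_le_sum h1).trans ?_
  rw [Finset.sum_add_distrib, Finset.sum_const, Finset.card_range, nsmul_eq_mul]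
  apply le_of_eq
  congr 1
  rw [sum_range_mul', Finset.sum_comm]
  apply Finset.sum_congr rfl
  intro s _
  apply Finset.sum_congr rfl
  intro j hj
  have hj' := Finset.mem_range.1 hj
  have d1 : (s * n + j) / n = s := by
    rw [add_comm, Nat.add_mul_div_right _ _ hn, Nat.div_eq_of_lt hj', zero_add]
  rw [d1, PL_apply hA hn hj']

include hW hn in
/-- The inequality at level `S`. -/
lemma level_ineq (hAW : ∀ j i, (hA j).1.eigenvalues i ≤ W)
    {H : Matrix ι ι ℂ} (hH : H = ∑ j ∈ Finset.range n, A j * A j) (hp : H.PosSemidef) (S : ℕ) :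
    (∑ j ∈ Finset.range n, rtr (A j)) - rtr (F hp.1 Real.sqrt) ≤
      (2 + 8 * (2 * n)) * (2 * ∑ j ∈ Finset.range n, ∑ k ∈ Finset.range n,
        if j = k then 0 else mm (A j) (A k)) + n * (wt W S * Fintype.card ι) := by
  have h1 := deficiency hA hW hn hAW S
  have h2 := weighted (PL_isProj hA (W := W) (n := n)) (fun i => wt W (i / n))
    (fun i => wt_nonneg hW _) (S * n) (2 * n) (fun c _ => geom_tail hW hn c (S * n))
  have h3 := pair_sum hA hW hn S
  have h4 : ∑ j ∈ Finset.range n, rtr (MG hA W n S j * A j) ≤ rtr (F hp.1 Real.sqrt) := by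
    have h5 := variational (n := n) (fun j => A j) (fun j => MG hA W n S j)
      (fun j => (hA j).1) (fun j => (MG_isProj hA hn S j).herm) (by
        have e1 : ∑ j : Fin n, MG hA W n S j * MG hA W n S j =
            Pr (PL_isProj hA (W := W) (n := n)) (S * n) -
              Pr (PL_isProj hA (W := W) (n := n)) 0 := by
          rw [← sum_Mk, sum_range_mul', Finset.sum_comm, ← Fin.sum_univ_eq_sum_range
            (fun j => ∑ s ∈ Finset.range S, Mk (PL_isProj hA (W := W) (n := n)) (s * n + j))]
          apply Finset.sum_congr rfl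
          intro j _
          rw [(MG_isProj hA hn S j).idem]
          rfl
        rw [e1]
        have e2 : (1 : Matrix ι ι ℂ) - (Pr (PL_isProj hA (W := W) (n := n)) (S * n) -
              Pr (PL_isProj hA (W := W) (n := n)) 0) =
            (1 - Pr (PL_isProj hA (W := W) (n := n)) (S * n)) +
              Pr (PL_isProj hA (W := W) (n := n)) 0 := by abel
        rw [e2]
        exact (Pr_isProj _ _).one_sub.posSemidef.add (Pr_isProj _ _).posSemidef)
      (H := H) (by rw [hH, ← Fin.sum_univ_eq_sum_range (fun j => A j * A j)]) hp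
    rw [← Fin.sum_univ_eq_sum_range (fun j => rtr (MG hA W n S j * A j))]
    exact h5
  have h6 : ∑ j ∈ Finset.range n, rtr (A j * (1 - MG hA W n S j)) =
      (∑ j ∈ Finset.range n, rtr (A j)) - ∑ j ∈ Finset.range n, rtr (MG hA W n S j * A j) := by
    rw [← Finset.sum_sub_distrib]
    apply Finset.sum_congr rfl
    intro j _
    rw [mul_sub, mul_one, rtr_sub, rtr_mul_comm (A j)]
  rw [h6] at h1
  have h7 : (2 + 8 * (2 * (n : ℝ))) * ∑ c ∈ Finset.range (S * n),
      wt W (c / n) * rtr (T (PL hA W n) c * PL hA W n c) ≤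
      (2 + 8 * (2 * n)) * (2 * ∑ j ∈ Finset.range n, ∑ k ∈ Finset.range n,
        if j = k then 0 else mm (A j) (A k)) :=
    mul_le_mul_of_nonneg_left h3 (by positivity)
  linarith

include hW hn in
/-- The inequality. -/
lemma main_ineq (hAW : ∀ j i, (hA j).1.eigenvalues i ≤ W)
    {H : Matrix ι ι ℂ} (hH : H = ∑ j ∈ Finset.range n, A j * A j) (hp : H.PosSemidef) :
    (∑ j ∈ Finset.range n, rtr (A j)) - rtr (F hp.1 Real.sqrt) ≤
      (2 + 8 * (2 * n)) * (2 * ∑ j ∈ Finset.range n, ∑ k ∈ Finset.range n,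
        if j = k then 0 else mm (A j) (A k)) := by
  have hlim : Filter.Tendsto (fun S : ℕ => (2 + 8 * (2 * (n : ℝ))) *
      (2 * ∑ j ∈ Finset.range n, ∑ k ∈ Finset.range n,
        if j = k then 0 else mm (A j) (A k)) + n * (wt W S * Fintype.card ι)) Filter.atTop
      (nhds ((2 + 8 * (2 * (n : ℝ))) * (2 * ∑ j ∈ Finset.range n, ∑ k ∈ Finset.range n,
        if j = k then 0 else mm (A j) (A k)) + n * (0 * Fintype.card ι))) := by
    apply Filter.Tendsto.const_add
    apply Filter.Tendsto.const_mul
    apply Filter.Tendsto.mul_const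
    have : wt W = fun S : ℕ => W * (1 / 2) ^ S := by
      funext S
      unfold wt
      rw [one_div, inv_pow, div_eq_mul_inv]
    rw [this]
    have h := (tendsto_pow_atTop_nhds_zero_of_lt_one (r := (1 / 2 : ℝ)) (by norm_num)
      (by norm_num)).const_mul W
    simpa using h
  have := ge_of_tendsto' hlim (fun S => level_ineq hA hW hn hAW hH hp S)
  simpa using this

end main

end Q233.MTrace
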