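import Mathlib

/-!
# Combinatorial estimate for the channel simulation lower bound
-/

namespace Q233.SimComb

open Finset

/-- Sign averaging: if all the sums obtained by choosing, for each `h ∈ H`, either `a h` or `b h`
are bounded, then the differences `a h - b h` are square summable. -/
lemma sign_avg {ι κ : Type*} [DecidableEq ι] [Fintype κ] (a b : κ → ι → ℂ) (H : Finset ι) :
    ∀ (x : κ → ℂ) (B : ℝ),
    (∀ A ⊆ H, ∑ l, ‖x l + ∑ h ∈ A, a l h + ∑ h ∈ H \ A, b l h‖ ^ 2 ≤ B) →
    (1/4) * ∑ l, ∑ h ∈ H, ‖a l h - b l h‖ ^ 2 ≤ B := by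
  classical
  induction H using Finset.induction_on with
  | empty =>
    intro x B h
    have h1 := h ∅ (Finset.Subset.refl _)
    simp only [sum_empty, sum_const_zero, mul_zero]
    refine le_trans ?_ h1
    exact Finset.sum_nonneg (fun l _ => by positivity)
  | insert h0 H hh0 ih =>
    intro x B h
    have h1 : ∀ A ⊆ H, ∑ l, ‖(x l + (a l h0 + b l h0) / 2) + ∑ h ∈ A, a l h +
        ∑ h ∈ H \ A, b l h‖ ^ 2 ≤ B - (1/4) * ∑ l, ‖a l h0 - b l h0‖ ^ 2 := by
      intro A hA
      have hh0A : h0 ∉ A := fun hc => hh0 (hA hc)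
      have e1 := h (insert h0 A) (Finset.insert_subset_insert _ hA)
      have e2 := h A (hA.trans (Finset.subset_insert _ _))
      have s1 : (insert h0 H) \ (insert h0 A) = H \ A := by
        ext z
        simp only [mem_sdiff, mem_insert, not_or]
        constructor
        · rintro ⟨h1 | h1, h2, h3⟩
          · exact absurd h1 h2
          · exact ⟨h1, h3⟩
        · rintro ⟨h1, h2⟩
          exact ⟨Or.inr h1, fun hc => hh0 (hc ▸ h1), h2⟩
      have s2 : (insert h0 H) \ A = insert h0 (H \ A) := Finset.insert_sdiff_of_notMem _ hh0A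
      have hn : h0 ∉ H \ A := fun hc => hh0 (Finset.mem_sdiff.1 hc).1
      rw [s1] at e1
      rw [s2] at e2
      simp only [Finset.sum_insert hh0A] at e1
      simp only [Finset.sum_insert hn] at e2
      have key : ∀ l, ‖(x l + (a l h0 + b l h0) / 2) + ∑ h ∈ A, a l h + ∑ h ∈ H \ A, b l h‖ ^ 2 =
          (1/2) * ‖x l + (a l h0 + ∑ h ∈ A, a l h) + ∑ h ∈ H \ A, b l h‖ ^ 2 +
          (1/2) * ‖x l + ∑ h ∈ A, a l h + (b l h0 + ∑ h ∈ H \ A, b l h)‖ ^ 2 -
          (1/4) * ‖a l h0 - b l h0‖ ^ 2 := by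
        intro l
        simp only [← Complex.normSq_eq_norm_sq, Complex.normSq_apply, Complex.add_re,
          Complex.add_im, Complex.sub_re, Complex.sub_im, Complex.div_ofNat_re,
          Complex.div_ofNat_im]
        ring
      simp only [key]
      rw [Finset.sum_sub_distrib, Finset.sum_add_distrib, ← Finset.mul_sum, ← Finset.mul_sum,
        ← Finset.mul_sum]
      linarith
    have h2 := ih _ _ h1
    simp only [Finset.sum_insert hh0, Finset.sum_add_distrib, mul_add]
    linarith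

/-- Either there are large coherent pairs, or a small exceptional set. -/
lemma gap_or {N : ℕ} (f : Fin N → ℝ) (δ : ℝ) (r : ℕ) :
    (∃ A B : Finset (Fin N), Disjoint A B ∧ A.card = r + 1 ∧ B.card = r + 1 ∧
      (r + 1) * δ ≤ ∑ i ∈ A, f i - ∑ i ∈ B, f i) ∨
    (∃ H : Finset (Fin N), H.card ≤ 2 * r ∧ ∀ i ∉ H, ∀ j ∉ H, f i - f j < δ ∨ i = j) := by
  classical
  induction r with
  | zero =>
    by_cases h : ∃ i j : Fin N, i ≠ j ∧ δ ≤ f i - f j
    · obtain ⟨i, j, hij, hd⟩ := h
      left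
      refine ⟨{i}, {j}, ?_, by simp, by simp, ?_⟩
      · rw [Finset.disjoint_singleton]; exact hij
      · simpa using hd
    · right
      refine ⟨∅, by simp, ?_⟩
      intro i _ j _
      by_contra hc
      rw [not_or, not_lt] at hc
      exact h ⟨i, j, hc.2, hc.1⟩
  | succ r ih =>
    rcases ih with ⟨A, B, hAB, hA, hB, hs⟩ | ⟨H, hH, hf⟩
    · by_cases h : ∃ i j : Fin N, i ∉ A ∪ B ∧ j ∉ A ∪ B ∧ i ≠ j ∧ δ ≤ f i - f j
      · obtain ⟨i, j, hi, hj, hij, hd⟩ := h
        left
        rw [Finset.mem_union, not_or] at hi hj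
        refine ⟨insert i A, insert j B, ?_, ?_, ?_, ?_⟩
        · rw [Finset.disjoint_insert_left, Finset.mem_insert, not_or]
          refine ⟨⟨hij, hi.2⟩, ?_⟩
          rw [Finset.disjoint_insert_right]
          exact ⟨hj.1, hAB⟩
        · rw [Finset.card_insert_of_notMem hi.1, hA]
        · rw [Finset.card_insert_of_notMem hj.2, hB]
        · rw [Finset.sum_insert hi.1, Finset.sum_insert hj.2]
          push_cast
          linarith
      · right
        refine ⟨A ∪ B, ?_, ?_⟩
        · rw [Finset.card_union_of_disjoint hAB, hA, hB]; omega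
        · intro i hi j hj
          by_contra hc
          rw [not_or, not_lt] at hc
          exact h ⟨i, j, hi, hj, hc.2, hc.1⟩
    · right
      exact ⟨H, by omega, hf⟩

/-- Small exceptional set for a real function all of whose `t`-sums are bounded by one. -/
lemma exceptional {N t r : ℕ} (f : Fin N → ℝ) {δ : ℝ} (hδ : 2 < (r + 1) * δ)
    (hT : ∀ T : Finset (Fin N), T.card = t → |∑ i ∈ T, f i| ≤ 1) (hr : r + 1 ≤ t)
    (hN : t + (r + 1) ≤ N) :
    ∃ H : Finset (Fin N), H.card ≤ 2 * r ∧ ∀ i ∉ H, ∀ j ∉ H, |f i - f j| ≤ δ := by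
  classical
  have hδ0 : 0 < δ := by
    by_contra h
    have : (r + 1 : ℝ) * δ ≤ 0 := mul_nonpos_of_nonneg_of_nonpos (by positivity) (not_lt.1 h)
    linarith
  rcases gap_or f δ r with ⟨A, B, hAB, hA, hB, hs⟩ | ⟨H, hH, hf⟩
  · exfalso
    have hc : t - (r + 1) ≤ ((A ∪ B)ᶜ).card := by
      rw [Finset.card_compl, Finset.card_union_of_disjoint hAB, hA, hB, Fintype.card_fin]
      omega
    obtain ⟨C, hC, hCc⟩ := Finset.exists_subset_card_eq hc
    have hAC : Disjoint A C := by
      rw [Finset.disjoint_left]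
      intro i hi hiC
      have := Finset.mem_compl.1 (hC hiC)
      exact this (Finset.mem_union_left _ hi)
    have hBC : Disjoint B C := by
      rw [Finset.disjoint_left]
      intro i hi hiC
      have := Finset.mem_compl.1 (hC hiC)
      exact this (Finset.mem_union_right _ hi)
    have h1 := hT (A ∪ C) (by rw [Finset.card_union_of_disjoint hAC, hA, hCc]; omega)
    have h2 := hT (B ∪ C) (by rw [Finset.card_union_of_disjoint hBC, hB, hCc]; omega)
    rw [Finset.sum_union hAC] at h1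
    rw [Finset.sum_union hBC] at h2
    have h3 := (abs_le.1 h1).2
    have h4 := (abs_le.1 h2).1
    linarith
  · refine ⟨H, hH, ?_⟩
    intro i hi j hj
    rcases hf i hi j hj with h1 | h1
    · rcases hf j hj i hi with h2 | h2
      · rw [abs_le]; constructor <;> linarith
      · subst h2; simp [hδ0.le]
    · subst h1; simp [hδ0.le]

/-- The main combinatorial estimate. -/
lemma comb {N t n r : ℕ} (c : Fin n → Fin N → ℂ) {δ : ℝ} (hδ : 2 < (r + 1) * δ)
    (hT : ∀ T : Finset (Fin N), T.card = t → ∑ l, ‖∑ i ∈ T, c l i‖ ^ 2 ≤ 1)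
    (hr : r + 1 ≤ t) (hN : 2 * t < N) (hn : 4 * n * r ≤ t) :
    ∑ l, ∑ i, ∑ j, ‖c l i - c l j‖ ^ 2 ≤ 4 * N * (8 + 6 * δ ^ 2 * N * n) := by
  classical
  have hδ0 : 0 < δ := by
    by_contra h
    have : (r + 1 : ℝ) * δ ≤ 0 := mul_nonpos_of_nonneg_of_nonpos (by positivity) (not_lt.1 h)
    linarith
  have hTl : ∀ l, ∀ T : Finset (Fin N), T.card = t → ‖∑ i ∈ T, c l i‖ ≤ 1 := by
    intro l T hTc
    have h1 := hT T hTc
    have h2 : ‖∑ i ∈ T, c l i‖ ^ 2 ≤ 1 :=
      (Finset.single_le_sum (f := fun l => ‖∑ i ∈ T, c l i‖ ^ 2)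
        (fun l _ => by positivity) (Finset.mem_univ l)).trans h1
    have h3 := norm_nonneg (∑ i ∈ T, c l i)
    nlinarith
  have hRe : ∀ l, ∃ H : Finset (Fin N), H.card ≤ 2 * r ∧
      ∀ i ∉ H, ∀ j ∉ H, |(c l i).re - (c l j).re| ≤ δ := by
    intro l
    apply exceptional (fun i => (c l i).re) hδ _ hr (by omega)
    intro T hTc
    rw [← Complex.re_sum]
    exact (Complex.abs_re_le_norm _).trans (hTl l T hTc)
  have hIm : ∀ l, ∃ H : Finset (Fin N), H.card ≤ 2 * r ∧
      ∀ i ∉ H, ∀ j ∉ H, |(c l i).im - (c l j).im| ≤ δ := by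
    intro l
    apply exceptional (fun i => (c l i).im) hδ _ hr (by omega)
    intro T hTc
    rw [← Complex.im_sum]
    exact (Complex.abs_im_le_norm _).trans (hTl l T hTc)
  choose H1 hH1 hH1' using hRe
  choose H2 hH2 hH2' using hIm
  set H : Finset (Fin N) := Finset.univ.biUnion (fun l => H1 l ∪ H2 l) with hHdef
  have hHc : H.card ≤ t := by
    calc H.card ≤ ∑ l : Fin n, (H1 l ∪ H2 l).card := Finset.card_biUnion_le
      _ ≤ ∑ l : Fin n, 4 * r := by
        apply Finset.sum_le_sum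
        intro l _
        have := Finset.card_union_le (H1 l) (H2 l)
        have := hH1 l
        have := hH2 l
        omega
      _ = n * (4 * r) := by simp
      _ ≤ t := by linarith
  have hnon : ∀ l, ∀ i ∉ H, ∀ j ∉ H, ‖c l i - c l j‖ ^ 2 ≤ 2 * δ ^ 2 := by
    intro l i hi j hj
    have hi' : i ∉ H1 l ∪ H2 l := fun h => hi (Finset.mem_biUnion.2 ⟨l, Finset.mem_univ _, h⟩)
    have hj' : j ∉ H1 l ∪ H2 l := fun h => hj (Finset.mem_biUnion.2 ⟨l, Finset.mem_univ _, h⟩)
    rw [Finset.mem_union, not_or] at hi' hj'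
    have h1 := hH1' l i hi'.1 j hj'.1
    have h2 := hH2' l i hi'.2 j hj'.2
    rw [← Complex.normSq_eq_norm_sq, Complex.normSq_apply, Complex.sub_re, Complex.sub_im]
    have h3 : ((c l i).re - (c l j).re) ^ 2 ≤ δ ^ 2 := by
      rw [← sq_abs]; exact pow_le_pow_left₀ (abs_nonneg _) h1 2
    have h4 : ((c l i).im - (c l j).im) ^ 2 ≤ δ ^ 2 := by
      rw [← sq_abs]; exact pow_le_pow_left₀ (abs_nonneg _) h2 2
    nlinarith
  -- an injection from `H` to its complement
  have hcompl : (Hᶜ).card = N - H.card := by rw [Finset.card_compl, Fintype.card_fin]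
  obtain ⟨H', hH', hH'c⟩ := Finset.exists_subset_card_eq (s := Hᶜ) (n := H.card)
    (by rw [hcompl]; omega)
  have hdis : Disjoint H H' := by
    rw [Finset.disjoint_left]
    intro i hi hi'
    exact (Finset.mem_compl.1 (hH' hi')) hi
  obtain ⟨e⟩ : Nonempty (H ≃ H') := by
    apply Nonempty.intro
    exact Finset.equivOfCardEq hH'c.symm
  set π : Fin N → Fin N := fun i => if h : i ∈ H then (e ⟨i, h⟩ : Fin N) else i with hπ
  have hπm : ∀ i ∈ H, π i ∈ H' := by
    intro i hi
    simp only [hπ, dif_pos hi]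
    exact (e ⟨i, hi⟩).2
  have hπinj : ∀ i ∈ H, ∀ j ∈ H, π i = π j → i = j := by
    intro i hi j hj h
    simp only [hπ, dif_pos hi, dif_pos hj] at h
    have := e.injective (Subtype.ext h)
    exact congrArg Subtype.val this
  obtain ⟨C, hC, hCc⟩ := Finset.exists_subset_card_eq (s := (H ∪ H')ᶜ) (n := t - H.card) (by
    rw [Finset.card_compl, Finset.card_union_of_disjoint hdis, hH'c, Fintype.card_fin]
    omega)
  have hsign := sign_avg (fun l i => c l i) (fun l i => c l (π i)) H
    (fun l => ∑ i ∈ C, c l i) 1 (by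
      intro A hA
      have hd1 : Disjoint A ((H \ A).image π) := by
        rw [Finset.disjoint_left]
        intro i hi hi'
        obtain ⟨j, hj, rfl⟩ := Finset.mem_image.1 hi'
        exact (Finset.disjoint_left.1 hdis) (hA hi) (hπm j (Finset.mem_sdiff.1 hj).1)
      have hd2 : Disjoint C (A ∪ (H \ A).image π) := by
        rw [Finset.disjoint_left]
        intro i hi hi'
        have h1 := Finset.mem_compl.1 (hC hi)
        rcases Finset.mem_union.1 hi' with h2 | h2
        · exact h1 (Finset.mem_union_left _ (hA h2))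
        · obtain ⟨j, hj, rfl⟩ := Finset.mem_image.1 h2
          exact h1 (Finset.mem_union_right _ (hπm j (Finset.mem_sdiff.1 hj).1))
      have hinj : Set.InjOn π (H \ A : Finset (Fin N)) := by
        intro i hi j hj h
        rw [Finset.mem_coe, Finset.mem_sdiff] at hi hj
        exact hπinj i hi.1 j hj.1 h
      have hcard : (C ∪ (A ∪ (H \ A).image π)).card = t := by
        rw [Finset.card_union_of_disjoint hd2, Finset.card_union_of_disjoint hd1,
          Finset.card_image_of_injOn hinj, Finset.card_sdiff_of_subset hA, hCc]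
        have := Finset.card_le_card hA
        omega
      have h1 := hT _ hcard
      refine le_trans (le_of_eq ?_) h1
      apply Finset.sum_congr rfl
      intro l _
      rw [Finset.sum_union hd2, Finset.sum_union hd1, Finset.sum_image hinj, add_assoc])
  -- reference element
  obtain ⟨p0, hp0⟩ : ∃ p0, p0 ∉ H := by
    by_contra hcon
    push Not at hcon
    have : H = Finset.univ := Finset.eq_univ_iff_forall.2 hcon
    rw [this, Finset.card_univ, Fintype.card_fin] at hHc
    omega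
  have hone : ∑ l, ∑ i, ‖c l i - c l p0‖ ^ 2 ≤ 8 + 6 * δ ^ 2 * N * n := by
    have h1 : ∀ l, ∑ i, ‖c l i - c l p0‖ ^ 2 ≤
        2 * (∑ i ∈ H, ‖c l i - c l (π i)‖ ^ 2) + 6 * δ ^ 2 * N := by
      intro l
      rw [← Finset.sum_add_sum_compl H]
      have h2 : ∑ i ∈ H, ‖c l i - c l p0‖ ^ 2 ≤
          ∑ i ∈ H, (2 * ‖c l i - c l (π i)‖ ^ 2 + 4 * δ ^ 2) := by
        apply Finset.sum_le_sum
        intro i hi
        have h3 := hnon l (π i) (Finset.mem_compl.1 (hH' (hπm i hi))) p0 hp0
        have h4 : ‖c l i - c l p0‖ ≤ ‖c l i - c l (π i)‖ + ‖c l (π i) - c l p0‖ := by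
          have : c l i - c l p0 = (c l i - c l (π i)) + (c l (π i) - c l p0) := by ring
          rw [this]; exact norm_add_le _ _
        have h5 := norm_nonneg (c l i - c l p0)
        nlinarith [sq_nonneg (‖c l i - c l (π i)‖ - ‖c l (π i) - c l p0‖)]
      have h3 : ∑ i ∈ Hᶜ, ‖c l i - c l p0‖ ^ 2 ≤ ∑ i ∈ Hᶜ, 2 * δ ^ 2 := by
        apply Finset.sum_le_sum
        intro i hi
        exact hnon l i (Finset.mem_compl.1 hi) p0 hp0
      rw [Finset.sum_add_distrib, ← Finset.mul_sum, Finset.sum_const, nsmul_eq_mul] at h2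
      rw [Finset.sum_const, nsmul_eq_mul] at h3
      have h4 : ((Hᶜ).card : ℝ) ≤ N := by
        have : (Hᶜ).card ≤ N := by rw [hcompl]; omega
        exact_mod_cast this
      have h5 : (H.card : ℝ) ≤ N := by
        have : H.card ≤ N := by omega
        exact_mod_cast this
      have h6 := mul_le_mul_of_nonneg_right h4 (by positivity : 0 ≤ 2 * δ ^ 2)
      have h7 := mul_le_mul_of_nonneg_right h5 (by positivity : 0 ≤ 4 * δ ^ 2)
      linarith
    have h2 : ∑ l : Fin n, ∑ i, ‖c l i - c l p0‖ ^ 2 ≤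
        ∑ l : Fin n, (2 * (∑ i ∈ H, ‖c l i - c l (π i)‖ ^ 2) + 6 * δ ^ 2 * N) :=
      Finset.sum_le_sum (fun l _ => h1 l)
    rw [Finset.sum_add_distrib, ← Finset.mul_sum, Finset.sum_const, nsmul_eq_mul,
      Finset.card_univ, Fintype.card_fin] at h2
    linarith
  have hfin : ∀ l, ∑ i, ∑ j, ‖c l i - c l j‖ ^ 2 ≤ 4 * N * ∑ i, ‖c l i - c l p0‖ ^ 2 := by
    intro l
    have h1 : ∑ i, ∑ j, ‖c l i - c l j‖ ^ 2 ≤
        ∑ i : Fin N, ∑ j : Fin N, (2 * ‖c l i - c l p0‖ ^ 2 + 2 * ‖c l j - c l p0‖ ^ 2) := by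
      apply Finset.sum_le_sum; intro i _
      apply Finset.sum_le_sum; intro j _
      have h4 : ‖c l i - c l j‖ ≤ ‖c l i - c l p0‖ + ‖c l j - c l p0‖ := by
        have : c l i - c l j = (c l i - c l p0) - (c l j - c l p0) := by ring
        rw [this]; exact norm_sub_le _ _
      have h5 := norm_nonneg (c l i - c l j)
      nlinarith [sq_nonneg (‖c l i - c l p0‖ - ‖c l j - c l p0‖)]
    refine h1.trans (le_of_eq ?_)
    simp only [Finset.sum_add_distrib, Finset.sum_const, nsmul_eq_mul, Finset.card_univ,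
      Fintype.card_fin, ← Finset.mul_sum]
    ring
  calc ∑ l, ∑ i, ∑ j, ‖c l i - c l j‖ ^ 2 ≤ ∑ l, 4 * N * ∑ i, ‖c l i - c l p0‖ ^ 2 :=
        Finset.sum_le_sum (fun l _ => hfin l)
    _ = 4 * N * ∑ l, ∑ i, ‖c l i - c l p0‖ ^ 2 := by rw [← Finset.mul_sum]
    _ ≤ _ := mul_le_mul_of_nonneg_left hone (by positivity)

end Q233.SimComb
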