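import Pool.Agent.Q233.TFShell
import Pool.Agent.H9R2.TF.Fin

/-!
# The neutral Thomas-Fermi atom (nuclear charge one, `γ = 1`)
-/

set_option autoImplicit false
open MeasureTheory Set Filter Topology Metric
open scoped RealInnerProductSpace BigOperators ENNReal
open Pool.Agent.Helper557 Pool.Agent.Helper557.TFP
open Pool.Agent.H9R2.TF Pool.Agent.Q233.TFShell

namespace Pool.Agent.Q233.TFAtom

/-- shell theorem as a formula for the potential -/
theorem pot_rad {G : ℝ → ℝ} (hG : Measurable G) (y : E3) :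
    pot (fun x => G ‖x‖) y = 4 * Real.pi * ∫ r in Ioi (0:ℝ), r ^ 2 * (G r / max r ‖y‖) := by
  rw [← rad_int (fun r => G r / max r ‖y‖)]
  unfold pot
  rcases eq_or_ne y 0 with h | h
  · subst h
    congr 1
    funext x
    rw [zero_sub, norm_neg, norm_zero, max_eq_left (norm_nonneg x)]
  · exact shell hG h

lemma pot_max {G : ℝ → ℝ} (hG : Measurable G) (y : E3) :
    pot (fun x => G ‖x‖) y = ∫ x : E3, G ‖x‖ / max ‖x‖ ‖y‖ := by
  rw [pot_rad hG, ← rad_int (fun r => G r / max r ‖y‖)]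

lemma max_intble {G : ℝ → ℝ} (hG : Measurable G) (hn : Nice (fun x : E3 => G ‖x‖)) (y : E3) :
    Integrable (fun x : E3 => G ‖x‖ / max ‖x‖ ‖y‖) := by
  obtain ⟨B, hB⟩ := nice_bound _ hn
  rcases eq_or_ne y 0 with h | h
  · subst h
    refine ((hB 0).1).congr (ae_of_all _ (fun x => ?_))
    simp only
    rw [zero_sub, norm_neg, norm_zero, max_eq_left (norm_nonneg x)]
  · exact (shell_int hG h).1 (hB y).1

/-! ### elementary radial integrals -/

lemma inv_pow_rpow {r : ℝ} (hr : 0 < r) (n : ℕ) : (r ^ n)⁻¹ = r ^ (-(n:ℝ)) := by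
  rw [Real.rpow_neg hr.le, Real.rpow_natCast]

lemma tail_int {a : ℝ} (ha : 0 < a) {n : ℕ} (hn : 2 ≤ n) :
    IntegrableOn (fun r : ℝ => (r ^ n)⁻¹) (Ioi a) ∧
    ∫ r in Ioi a, (r ^ n)⁻¹ = ((n - 1 : ℝ) * a ^ (n - 1))⁻¹ := by
  have hn' : (2:ℝ) ≤ n := by exact_mod_cast hn
  have h1 : -(n:ℝ) < -1 := by linarith
  have hi := integrableOn_Ioi_rpow_of_lt h1 ha
  have e : ∀ r ∈ Ioi a, (r ^ n)⁻¹ = r ^ (-(n:ℝ)) := fun r hr => inv_pow_rpow (ha.trans hr) n
  refine ⟨hi.congr_fun (fun r hr => (e r hr).symm) measurableSet_Ioi, ?_⟩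
  rw [setIntegral_congr_fun measurableSet_Ioi e, integral_Ioi_rpow_of_lt h1 ha]
  have e2 : a ^ (-(n:ℝ) + 1) = (a ^ (n-1))⁻¹ := by
    have : (-(n:ℝ) + 1) = -((n - 1 : ℕ) : ℝ) := by
      rw [Nat.cast_sub (by omega)]; push_cast; ring
    rw [this, Real.rpow_neg ha.le, Real.rpow_natCast]
  rw [e2]
  have h3 : -(n:ℝ) + 1 ≠ 0 := by linarith
  have h4 : (n:ℝ) - 1 ≠ 0 := by linarith
  rw [mul_inv]
  field_simp
  ring

/-- the inverse sixth power outside the ball of radius `a` -/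
noncomputable def K6 (a r : ℝ) : ℝ := (Ioi a).indicator (fun r => (r ^ 6)⁻¹) r

lemma K6_meas (a : ℝ) : Measurable (K6 a) := by
  unfold K6
  exact ((measurable_id.pow_const 6).inv).indicator measurableSet_Ioi

lemma K6_nonneg (a r : ℝ) : 0 ≤ K6 a r := by
  unfold K6
  exact indicator_nonneg (fun x _ => by positivity) _

lemma K6_out {a r : ℝ} (h : a < r) : K6 a r = (r ^ 6)⁻¹ := by
  unfold K6; rw [indicator_of_mem (by exact h)]

lemma K6_in {a r : ℝ} (h : r ≤ a) : K6 a r = 0 := by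
  unfold K6; rw [indicator_of_notMem (by exact not_lt.2 h)]

lemma K6_val {a : ℝ} (ha : 0 < a) {F : ℝ → ℝ} :
    ∫ r in Ioi (0:ℝ), r ^ 2 * (K6 a r * F r) = ∫ r in Ioi a, (r ^ 4)⁻¹ * F r := by
  rw [← integral_indicator measurableSet_Ioi, ← integral_indicator measurableSet_Ioi]
  congr 1
  funext r
  by_cases h : a < r
  · have h0 : 0 < r := ha.trans h
    rw [indicator_of_mem (by exact h0), indicator_of_mem (by exact h), K6_out h]
    field_simp
  · rw [indicator_of_notMem (s := Ioi a) (by exact h)]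
    by_cases h0 : 0 < r
    · rw [indicator_of_mem (by exact h0), K6_in (not_lt.1 h)]; ring
    · rw [indicator_of_notMem (by exact h0)]

lemma K6_intble {a : ℝ} (ha : 0 < a) : Integrable (fun x : E3 => K6 a ‖x‖) := by
  rw [rad_intble]
  have h := (tail_int ha (n := 4) (by norm_num)).1
  have h2 : Integrable ((Ioi a).indicator (fun r : ℝ => (r ^ 4)⁻¹)) := h.integrable_indicator measurableSet_Ioi
  refine (h2.congr (ae_of_all _ (fun r => ?_))).integrableOn
  by_cases h : a < r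
  · have h0 : 0 < r := ha.trans h
    rw [indicator_of_mem (by exact h), K6_out h]
    field_simp
  · rw [indicator_of_notMem (by exact h), K6_in (not_lt.1 h)]; ring

lemma K6_mass {a : ℝ} (ha : 0 < a) : ∫ x : E3, K6 a ‖x‖ = 4 / 3 * Real.pi * (a ^ 3)⁻¹ := by
  rw [rad_int]
  have := K6_val ha (F := fun _ => 1)
  simp only [mul_one] at this
  rw [this, (tail_int ha (n := 4) (by norm_num)).2]
  norm_num
  ring

lemma nice_of_bdd {g : E3 → ℝ} (hm : Measurable g) (hi : Integrable g) {C : ℝ} (_hC : 0 ≤ C) (h : ∀ x, |g x| ≤ C) : Nice g := by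
  refine ⟨hm, hi, ?_⟩
  refine Integrable.mono' (hi.abs.const_mul (C ^ (2/3 : ℝ))) ((hm.abs.pow_const _).aestronglyMeasurable) (ae_of_all _ (fun x => ?_))
  rw [Real.norm_of_nonneg (by positivity)]
  have h0 := abs_nonneg (g x)
  have : |g x| ^ (5/3 : ℝ) = |g x| ^ (2/3 : ℝ) * |g x| := by
    rcases eq_or_lt_of_le h0 with h | h
    · rw [← h, Real.zero_rpow (by norm_num)]; ring
    · rw [← Real.rpow_add_one h.ne']; norm_num
  rw [this]
  exact mul_le_mul_of_nonneg_right (Real.rpow_le_rpow h0 (h x) (by norm_num)) h0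

lemma K6_nice {a : ℝ} (ha : 0 < a) : Nice (fun x : E3 => K6 a ‖x‖) := by
  refine nice_of_bdd ((K6_meas a).comp measurable_norm) (K6_intble ha) (C := (a ^ 6)⁻¹) (by positivity) (fun x => ?_)
  rw [abs_of_nonneg (K6_nonneg _ _)]
  by_cases h : a < ‖x‖
  · rw [K6_out h]
    exact inv_anti₀ (by positivity) (pow_le_pow_left₀ ha.le h.le 6)
  · rw [K6_in (not_lt.1 h)]; positivity

/-- the potential of the sixth power tail -/
lemma K6_pot_in {a : ℝ} (ha : 0 < a) {y : E3} (h : ‖y‖ ≤ a) :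
    pot (fun x => K6 a ‖x‖) y = Real.pi * (a ^ 4)⁻¹ := by
  rw [pot_rad (K6_meas a)]
  have e : ∀ r : ℝ, r ^ 2 * (K6 a r / max r ‖y‖) = r ^ 2 * (K6 a r * (max r ‖y‖)⁻¹) := fun r => by ring
  simp only [e]
  rw [K6_val ha]
  have : ∫ r in Ioi a, (r ^ 4)⁻¹ * (max r ‖y‖)⁻¹ = ∫ r in Ioi a, (r ^ 5)⁻¹ := by
    refine setIntegral_congr_fun measurableSet_Ioi (fun r hr => ?_)
    rw [max_eq_left (h.trans (le_of_lt hr)), ← mul_inv]
    ring_nf
  rw [this, (tail_int ha (n := 5) (by norm_num)).2]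
  norm_num
  ring

lemma K6_pot_out {a : ℝ} (ha : 0 < a) {y : E3} (h : a ≤ ‖y‖) :
    pot (fun x => K6 a ‖x‖) y = Real.pi * (4 / 3 * (a ^ 3)⁻¹ / ‖y‖ - 1 / 3 * (‖y‖ ^ 4)⁻¹) := by
  have hy : 0 < ‖y‖ := lt_of_lt_of_le ha h
  set b := ‖y‖ with hb
  rw [pot_rad (K6_meas a)]
  have e : ∀ r : ℝ, r ^ 2 * (K6 a r / max r ‖y‖) = r ^ 2 * (K6 a r * (max r ‖y‖)⁻¹) := fun r => by ring
  simp only [e]
  rw [K6_val ha, ← hb]
  have hsplit : Ioi a = Ioc a b ∪ Ioi b := (Ioc_union_Ioi_eq_Ioi h).symm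
  have hd : Disjoint (Ioc a b) (Ioi b) := by
    rw [Set.disjoint_left]; intro x hx hx2; exact absurd hx.2 (not_le.2 hx2)
  have i1 : IntegrableOn (fun r : ℝ => (r ^ 4)⁻¹ * b⁻¹) (Ioi a) := (tail_int ha (n := 4) (by norm_num)).1.mul_const _
  have i2 : IntegrableOn (fun r : ℝ => (r ^ 4)⁻¹ * b⁻¹) (Ioi b) := i1.mono_set (Ioi_subset_Ioi h)
  have j1 : IntegrableOn (fun r : ℝ => (r ^ 4)⁻¹ * (max r b)⁻¹) (Ioc a b) := by
    refine (i1.mono_set Ioc_subset_Ioi_self).congr_fun (fun r hr => ?_) measurableSet_Ioc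
    simp only
    rw [max_eq_right hr.2]
  have j2 : IntegrableOn (fun r : ℝ => (r ^ 4)⁻¹ * (max r b)⁻¹) (Ioi b) := by
    refine (tail_int hy (n := 5) (by norm_num)).1.congr_fun (fun r hr => ?_) measurableSet_Ioi
    simp only
    rw [max_eq_left (le_of_lt hr), ← mul_inv]
    ring_nf
  rw [hsplit, setIntegral_union hd measurableSet_Ioi j1 j2]
  have v1 : ∫ r in Ioc a b, (r ^ 4)⁻¹ * (max r b)⁻¹ = ∫ r in Ioc a b, (r ^ 4)⁻¹ * b⁻¹ := by
    refine setIntegral_congr_fun measurableSet_Ioc (fun r hr => ?_)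
    rw [max_eq_right hr.2]
  have v2 : ∫ r in Ioi b, (r ^ 4)⁻¹ * (max r b)⁻¹ = ∫ r in Ioi b, (r ^ 5)⁻¹ := by
    refine setIntegral_congr_fun measurableSet_Ioi (fun r hr => ?_)
    rw [max_eq_left (le_of_lt hr), ← mul_inv]
    ring_nf
  have v3 : (∫ r in Ioc a b, (r ^ 4)⁻¹ * b⁻¹) + (∫ r in Ioi b, (r ^ 4)⁻¹ * b⁻¹) = ∫ r in Ioi a, (r ^ 4)⁻¹ * b⁻¹ := by
    rw [← setIntegral_union hd measurableSet_Ioi (i1.mono_set Ioc_subset_Ioi_self) i2, ← hsplit]
  have v4 : ∫ r in Ioi a, (r ^ 4)⁻¹ * b⁻¹ = (3 * a ^ 3)⁻¹ * b⁻¹ := by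
    rw [integral_mul_const, (tail_int ha (n := 4) (by norm_num)).2]; norm_num
  have v5 : ∫ r in Ioi b, (r ^ 4)⁻¹ * b⁻¹ = (3 * b ^ 3)⁻¹ * b⁻¹ := by
    rw [integral_mul_const, (tail_int hy (n := 4) (by norm_num)).2]; norm_num
  have v6 : ∫ r in Ioi b, (r ^ 5)⁻¹ = (4 * b ^ 4)⁻¹ := by
    rw [(tail_int hy (n := 5) (by norm_num)).2]; norm_num
  rw [v1, v2, v6]
  rw [v4, v5] at v3
  have v7 : ∫ r in Ioc a b, (r ^ 4)⁻¹ * b⁻¹ = (3 * a ^ 3)⁻¹ * b⁻¹ - (3 * b ^ 3)⁻¹ * b⁻¹ := by linarith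
  rw [v7]
  field_simp
  ring

/-! ### the uniform ball -/

noncomputable def UB (e r : ℝ) : ℝ := (Iio e).indicator (fun _ => (4 / 3 * Real.pi * e ^ 3)⁻¹) r

lemma UB_meas (e : ℝ) : Measurable (UB e) := measurable_const.indicator measurableSet_Iio

lemma UB_nonneg {e : ℝ} (he : 0 < e) (r : ℝ) : 0 ≤ UB e r :=
  indicator_nonneg (fun _ _ => by positivity) _

lemma UB_out {e r : ℝ} (h : e ≤ r) : UB e r = 0 := by
  unfold UB; rw [indicator_of_notMem (by exact not_lt.2 h)]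

lemma UB_eq (e : ℝ) (x : E3) : UB e ‖x‖ = (ball (0:E3) e).indicator (fun _ => (4 / 3 * Real.pi * e ^ 3)⁻¹) x := by
  unfold UB
  by_cases h : ‖x‖ < e
  · rw [indicator_of_mem (by simpa using h), indicator_of_mem (by simpa using h)]
  · rw [indicator_of_notMem (by simpa using h), indicator_of_notMem (by simpa using h)]

lemma UB_intble (e : ℝ) : Integrable (fun x : E3 => UB e ‖x‖) := by
  simp only [UB_eq]
  rw [integrable_indicator_iff measurableSet_ball]
  exact integrableOn_const (measure_ball_lt_top.ne)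

lemma UB_mass {e : ℝ} (he : 0 < e) : ∫ x : E3, UB e ‖x‖ = 1 := by
  simp only [UB_eq]
  rw [integral_indicator measurableSet_ball, setIntegral_const, Measure.real, vol_ball _ he.le, smul_eq_mul]
  field_simp

lemma UB_nice {e : ℝ} (he : 0 < e) : Nice (fun x : E3 => UB e ‖x‖) := by
  refine nice_of_bdd ((UB_meas e).comp measurable_norm) (UB_intble e) (C := (4 / 3 * Real.pi * e ^ 3)⁻¹) (by positivity) (fun x => ?_)
  rw [abs_of_nonneg (UB_nonneg he _)]
  unfold UB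
  exact indicator_le_self' (fun _ _ => by positivity) _

lemma UB_pot_out {e : ℝ} (he : 0 < e) {y : E3} (h : e ≤ ‖y‖) : pot (fun x => UB e ‖x‖) y = 1 / ‖y‖ := by
  rw [pot_max (UB_meas e)]
  have : ∀ x : E3, UB e ‖x‖ / max ‖x‖ ‖y‖ = UB e ‖x‖ * (1 / ‖y‖) := by
    intro x
    by_cases hx : ‖x‖ < e
    · rw [max_eq_right (hx.le.trans h)]; ring
    · rw [UB_out (not_lt.1 hx)]; ring
  simp only [this]
  rw [integral_mul_const, UB_mass he]; ring

lemma UB_pot_in {e : ℝ} (he : 0 < e) {y : E3} (h : ‖y‖ ≤ e) : 1 / e ≤ pot (fun x => UB e ‖x‖) y := by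
  rw [pot_max (UB_meas e)]
  have h1 : ∫ x : E3, UB e ‖x‖ * (1 / e) = 1 / e := by rw [integral_mul_const, UB_mass he]; ring
  rw [← h1]
  refine integral_mono_ae ((UB_intble e).mul_const _) (max_intble (UB_meas e) (UB_nice he) y) ?_
  have hne : ∀ᵐ x : E3, x ≠ 0 := by
    rw [ae_iff]; simp
  filter_upwards [hne] with x hx0
  by_cases hx : ‖x‖ < e
  · have h0 : 0 < max ‖x‖ ‖y‖ := lt_of_lt_of_le (norm_pos_iff.2 hx0) (le_max_left _ _)
    rw [mul_one_div]
    exact div_le_div_of_nonneg_left (UB_nonneg he _) h0 (max_le hx.le h)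
  · rw [UB_out (not_lt.1 hx)]; simp

lemma UB_pot_le {e : ℝ} (he : 0 < e) {y : E3} (hy : y ≠ 0) : pot (fun x => UB e ‖x‖) y ≤ 1 / ‖y‖ := by
  rw [pot_max (UB_meas e)]
  have hy' : 0 < ‖y‖ := norm_pos_iff.2 hy
  have h1 : ∫ x : E3, UB e ‖x‖ * (1 / ‖y‖) = 1 / ‖y‖ := by rw [integral_mul_const, UB_mass he]; ring
  rw [← h1]
  refine integral_mono (max_intble (UB_meas e) (UB_nice he) y) ((UB_intble e).mul_const _) (fun x => ?_)
  simp only
  rw [mul_one_div]
  exact div_le_div_of_nonneg_left (UB_nonneg he _) hy' (le_max_right _ _)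

/-! ### existence of the neutral atom -/

abbrev z1 : Fin 1 → ℝ := fun _ => 1
abbrev R1 : Fin 1 → E3 := fun _ => 0

lemma VV1 (x : E3) : VV z1 R1 x = 1 / ‖x‖ := by simp [VV, z1, R1]

noncomputable def HH (r : ℝ) : ℝ := if r ≤ 1 then be (1 / r) else (r ^ 6)⁻¹

lemma HH_meas : Measurable HH := by
  unfold HH
  refine Measurable.ite measurableSet_Iic (be_meas.comp (by fun_prop)) (by fun_prop)

lemma HH_nonneg (r : ℝ) : 0 ≤ HH r := by
  unfold HH
  split_ifs
  · exact be_nonneg _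
  · positivity

noncomputable def HB (r : ℝ) : ℝ := (Set.Iio (1:ℝ)).indicator (fun y : ℝ => y ^ (-(5/2) : ℝ)) r + K6 (1/2) r

lemma HB_intble : Integrable (fun x : E3 => HB ‖x‖) := TF_en_bdd_h0.add (K6_intble (by norm_num))

lemma HH_le (r : ℝ) (hr : 0 ≤ r) : HH r ≤ HB r ∧ HH r ^ (5/3 : ℝ) ≤ HB r := by
  unfold HB
  rcases eq_or_lt_of_le hr with h0 | h0
  · rw [← h0]
    have e1 : HH 0 = 0 := by unfold HH; rw [if_pos zero_le_one]; simp [be]
    rw [e1, Real.zero_rpow (by norm_num)]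
    have : 0 ≤ (Set.Iio (1:ℝ)).indicator (fun y : ℝ => y ^ (-(5/2) : ℝ)) 0 := by
      rw [indicator_of_mem (by simp)]
      exact Real.rpow_nonneg le_rfl _
    exact ⟨add_nonneg this (K6_nonneg _ _), add_nonneg this (K6_nonneg _ _)⟩
  · rcases lt_trichotomy r 1 with h1 | h1 | h1
    · rw [indicator_of_mem (by exact h1)]
      have e1 : HH r = r ^ (-(3/2) : ℝ) := by
        unfold HH
        rw [if_pos h1.le, be, max_eq_left (by positivity), one_div, Real.inv_rpow hr, ← Real.rpow_neg hr]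
      rw [e1]
      constructor
      · have : r ^ (-(3/2) : ℝ) ≤ r ^ (-(5/2) : ℝ) := Real.rpow_le_rpow_of_exponent_ge h0 h1.le (by norm_num)
        linarith [K6_nonneg (1/2) r]
      · rw [← Real.rpow_mul hr]
        have : (-(3/2) * (5/3) : ℝ) = -(5/2) := by norm_num
        rw [this]
        linarith [K6_nonneg (1/2) r]
    · subst h1
      rw [indicator_of_notMem (by simp), K6_out (by norm_num)]
      have e1 : HH 1 = 1 := by unfold HH; rw [if_pos le_rfl]; simp [be]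
      rw [e1]; norm_num
    · rw [indicator_of_notMem (by simpa using h1.le), K6_out (by linarith)]
      have e1 : HH r = (r ^ 6)⁻¹ := by unfold HH; rw [if_neg (not_le.2 h1)]
      rw [e1]
      refine ⟨by simp, ?_⟩
      have h2 : (r ^ 6)⁻¹ ≤ 1 := inv_le_one_of_one_le₀ (one_le_pow₀ h1.le)
      have h3 : 0 < (r ^ 6)⁻¹ := by positivity
      rw [zero_add]
      calc ((r ^ 6)⁻¹) ^ (5/3 : ℝ) ≤ ((r ^ 6)⁻¹) ^ (1 : ℝ) := Real.rpow_le_rpow_of_exponent_ge h3 h2 (by norm_num)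
        _ = (r ^ 6)⁻¹ := Real.rpow_one _

lemma HH_nice : Nice (fun x : E3 => HH ‖x‖) := by
  have hm : Measurable (fun x : E3 => HH ‖x‖) := HH_meas.comp measurable_norm
  refine ⟨hm, ?_, ?_⟩
  · refine HB_intble.mono' hm.aestronglyMeasurable (ae_of_all _ (fun x => ?_))
    rw [Real.norm_of_nonneg (HH_nonneg _)]
    exact (HH_le _ (norm_nonneg _)).1
  · refine HB_intble.mono' (hm.abs.pow_const _).aestronglyMeasurable (ae_of_all _ (fun x => ?_))
    rw [Real.norm_of_nonneg (by positivity), abs_of_nonneg (HH_nonneg _)]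
    exact (HH_le _ (norm_nonneg _)).2

lemma be_inv4 {r : ℝ} (hr : 0 < r) : be ((r ^ 4)⁻¹) = (r ^ 6)⁻¹ := by
  rw [be_sqrt, max_eq_left (by positivity), Real.sqrt_inv]
  have : √(r ^ 4) = r ^ 2 := by
    rw [show r ^ 4 = (r ^ 2) ^ 2 by ring, Real.sqrt_sq (by positivity)]
  rw [this, inv_pow]
  ring_nf

theorem exists_atom : ∃ ρ : E3 → ℝ, ELs z1 R1 0 ρ ∧ ∀ x, 1 < ‖x‖ → ρ x ≤ (‖x‖ ^ 6)⁻¹ := by
  have hi : Integrable (fun x : E3 => VV z1 R1 x * HH ‖x‖) := vint z1 R1 HH_nice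
  obtain ⟨τ, hτ, hτe⟩ := exists_EL (h := VV z1 R1) (kop_full HH_nice) HH_nice (fun x => HH_nonneg _) (VV_meas _ _) hi
  have nτ : Nice τ := hτ.nice HH_nice
  have pτ : ∀ x, 0 ≤ pot τ x := fun x => pot_nonneg (fun y => (hτ.2 y).1) x
  have nK := K6_nice (a := 1) one_pos
  have nU := UB_nice (e := 1) one_pos
  have hpi := Real.pi_pos
  have hpi3 := Real.pi_gt_three
  set ν : E3 → ℝ := fun x => 3 * UB 1 ‖x‖ + (τ x - 3 / Real.pi * K6 1 ‖x‖) with hν
  have n1 : Nice (fun x : E3 => 3 * UB 1 ‖x‖) := nice_smul nU 3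
  have n2 : Nice (fun x : E3 => 3 / Real.pi * K6 1 ‖x‖) := nice_smul nK _
  have n3 : Nice (fun x => τ x - 3 / Real.pi * K6 1 ‖x‖) := nice_sub' nτ n2
  have nν : Nice ν := nice_add n1 n3
  have psm : ∀ (c : ℝ) (g : E3 → ℝ) (x : E3), pot (fun y => c * g y) x = c * pot g x := by
    intro c g x
    unfold pot
    rw [← integral_const_mul]
    congr 1
    funext y
    ring
  have hpot : ∀ x, pot ν x = 3 * pot (fun y => UB 1 ‖y‖) x + (pot τ x - 3 / Real.pi * pot (fun y => K6 1 ‖y‖) x) := by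
    intro x
    rw [hν, pot_add n1 n3, pot_sub nτ n2, psm, psm]
  have pin : ∀ x : E3, ‖x‖ ≤ 1 → 0 ≤ pot ν x := by
    intro x hx
    rw [hpot, K6_pot_in one_pos hx]
    have := UB_pot_in one_pos hx
    have e : 3 / Real.pi * (Real.pi * (1 ^ 4)⁻¹) = 3 := by field_simp
    rw [e]
    linarith [pτ x]
  have pout : ∀ x : E3, 1 ≤ ‖x‖ → pot ν x = (‖x‖ ^ 4)⁻¹ - (VV z1 R1 x - pot τ x) := by
    intro x hx
    have hx0 : 0 < ‖x‖ := by linarith
    rw [hpot, K6_pot_out one_pos hx, UB_pot_out one_pos hx, VV1]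
    field_simp
    ring
  have key := cmp_full nν (C0 := 0) le_rfl (by
    refine ae_of_all _ (fun y hy => ?_)
    rw [add_zero] at hy
    have h1 : 1 < ‖y‖ := by
      by_contra hc
      exact absurd (pin y (not_lt.1 hc)) (not_le.2 hy)
    have h0 : 0 < ‖y‖ := by linarith
    rw [pout y h1.le] at hy
    have h2 : (‖y‖ ^ 6)⁻¹ ≤ be (VV z1 R1 y - pot τ y) := by
      rw [← be_inv4 h0]
      exact be_mono (by linarith)
    have h3 : τ y = (‖y‖ ^ 6)⁻¹ := by
      rw [hτe y, HH, if_neg (not_le.2 h1), min_eq_left h2]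
    simp only [hν]
    rw [h3, K6_out h1, UB_out h1.le]
    have h4 : 3 / Real.pi ≤ 1 := by rw [div_le_one hpi]; exact hpi3.le
    have h5 : 0 < (‖y‖ ^ 6)⁻¹ := by positivity
    nlinarith)
  refine ⟨τ, ⟨nτ, fun x => ?_⟩, fun x hx => ?_⟩
  · rw [hτe x, sub_zero, HH]
    split_ifs with h
    · apply min_eq_right
      apply be_mono
      rw [VV1]
      linarith [pτ x]
    · rw [not_le] at h
      apply min_eq_right
      rw [← be_inv4 (by linarith : (0:ℝ) < ‖x‖)]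
      apply be_mono
      have := key x
      rw [add_zero, pout x h.le] at this
      linarith
  · rw [hτe x, HH, if_neg (not_le.2 hx)]
    exact min_le_left _ _

/-! ### uniqueness and radial symmetry -/

section

variable {Φ : ℝ} {ρ ρ' : E3 → ℝ}

lemma EL_unique {k : ℕ} {z : Fin k → ℝ} {R : Fin k → E3} (h : ELs z R Φ ρ) (h' : ELs z R Φ ρ') : ρ = ρ' :=
  funext (fun x => le_antisymm ((EL_mono h h' le_rfl).2 x) ((EL_mono h' h le_rfl).2 x))

lemma EL_iso (h : ELs z1 R1 Φ ρ) (L : E3 ≃ₗᵢ[ℝ] E3) (x : E3) : ρ (L.symm x) = ρ x := by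
  have h1 := h.iso L 0
  have e1 : (fun j => Ps L 0 (R1 j)) = R1 := by
    funext j
    simp [Ps, R1]
  rw [e1] at h1
  have h2 := congrFun (EL_unique h1 h) x
  rw [← h2]
  simp [Pi']

lemma EL_rad (h : ELs z1 R1 Φ ρ) {x y : E3} (hxy : ‖x‖ = ‖y‖) : ρ x = ρ y := by
  obtain ⟨L, hL⟩ : ∃ L : E3 ≃ₗᵢ[ℝ] E3, L x = y := ⟨_, Submodule.reflection_sub hxy⟩
  have h2 := EL_iso h L y
  have h3 : L.symm y = x := by rw [← hL, L.symm_apply_apply]
  rw [← h2, h3]

noncomputable def prof (ρ : E3 → ℝ) (r : ℝ) : ℝ := ρ (r • e0)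

lemma prof_meas (h : Measurable ρ) : Measurable (prof ρ) := by
  unfold prof
  exact h.comp (by fun_prop)

lemma EL_prof (h : ELs z1 R1 Φ ρ) (x : E3) : ρ x = prof ρ ‖x‖ := by
  unfold prof
  apply EL_rad h
  rw [norm_smul, e0_norm, mul_one, Real.norm_of_nonneg (norm_nonneg x)]

lemma EL_fun (h : ELs z1 R1 Φ ρ) : ρ = fun x : E3 => prof ρ ‖x‖ := funext (EL_prof h)

/-- the potential of a radial solution -/
lemma EL_pot (h : ELs z1 R1 Φ ρ) (y : E3) : pot ρ y = ∫ x : E3, ρ x / max ‖x‖ ‖y‖ := by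
  have h1 := pot_max (prof_meas h.nice.1) y
  rw [EL_fun h]
  exact h1

lemma EL_max_int (h : ELs z1 R1 Φ ρ) (y : E3) : Integrable (fun x : E3 => ρ x / max ‖x‖ ‖y‖) := by
  have := max_intble (prof_meas h.nice.1) (by rw [← EL_fun h]; exact h.nice) y
  simp only [← EL_prof h] at this
  exact this

end

/-! ### the neutral atom -/

noncomputable def rho0 : E3 → ℝ := exists_atom.choose

lemma rho0_EL : ELs z1 R1 0 rho0 := exists_atom.choose_spec.1

lemma rho0_le {x : E3} (h : 1 < ‖x‖) : rho0 x ≤ (‖x‖ ^ 6)⁻¹ := exists_atom.choose_spec.2 x h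

lemma rho0_nice : Nice rho0 := rho0_EL.nice
lemma rho0_nonneg (x : E3) : 0 ≤ rho0 x := rho0_EL.nonneg x

noncomputable def phi0 (x : E3) : ℝ := 1 / ‖x‖ - pot rho0 x

lemma rho0_eq (x : E3) : rho0 x = be (phi0 x) := by
  have := rho0_EL.eq x
  rw [VV1, sub_zero] at this
  exact this

lemma phi0_nonneg {y : E3} (hy : y ≠ 0) : 0 ≤ phi0 y := by
  obtain ⟨B, hB0, hB⟩ := pot_bdd rho0_nice
  have hB' : ∀ x, pot rho0 x ≤ B := fun x => (le_abs_self _).trans (hB x)
  set e : ℝ := 1 / (B + 1) with he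
  have he0 : 0 < e := by positivity
  have he1 : 1 / e = B + 1 := by rw [he, one_div_one_div]
  have nU := UB_nice he0
  have nν : Nice (fun x : E3 => UB e ‖x‖ - rho0 x) := nice_sub' nU rho0_nice
  have hp : ∀ x, pot (fun x : E3 => UB e ‖x‖ - rho0 x) x = pot (fun x : E3 => UB e ‖x‖) x - pot rho0 x :=
    fun x => pot_sub nU rho0_nice x
  have pin : ∀ x : E3, ‖x‖ ≤ e → 0 ≤ pot (fun x : E3 => UB e ‖x‖ - rho0 x) x := by
    intro x hx
    rw [hp]
    have := UB_pot_in he0 hx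
    linarith [hB' x]
  have pout : ∀ x : E3, e ≤ ‖x‖ → pot (fun x : E3 => UB e ‖x‖ - rho0 x) x = phi0 x := by
    intro x hx
    rw [hp, UB_pot_out he0 hx, phi0]
  have key := cmp_full nν (C0 := 0) le_rfl (by
    refine ae_of_all _ (fun x hx => ?_)
    rw [add_zero] at hx
    have h1 : e < ‖x‖ := by
      by_contra hc
      exact absurd (pin x (not_lt.1 hc)) (not_le.2 hx)
    rw [pout x h1.le] at hx
    rw [rho0_eq, be_zero_of hx.le, sub_zero]
    exact UB_nonneg he0 _)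
  have hy0 : 0 < ‖y‖ := norm_pos_iff.2 hy
  rcases le_or_gt e ‖y‖ with h | h
  · have := key y
    rw [add_zero, pout y h] at this
    exact this
  · unfold phi0
    have : 1 / e ≤ 1 / ‖y‖ := one_div_le_one_div_of_le hy0 h.le
    linarith [hB' y]

lemma pot0_eq {y : E3} (_hy : y ≠ 0) : pot rho0 y = ∫ x : E3, rho0 x / max ‖x‖ ‖y‖ := EL_pot rho0_EL y

lemma ae_ne0 : ∀ᵐ x : E3, x ≠ 0 := by
  rw [ae_iff]; simp

/-- the atom is neutral -/
theorem rho0_mass : ∫ x, rho0 x = 1 := by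
  have hint := rho0_nice.2.1
  apply le_antisymm
  · -- limit of `r * pot (r e0)`
    have hlim : Tendsto (fun n : ℕ => ∫ x : E3, ((n:ℝ) + 1) * (rho0 x / max ‖x‖ ((n:ℝ) + 1))) atTop (𝓝 (∫ x, rho0 x)) := by
      refine tendsto_integral_of_dominated_convergence rho0 ?_ hint ?_ ?_
      · intro n
        exact ((rho0_nice.1.div (measurable_norm.max measurable_const)).const_mul _).aestronglyMeasurable
      · intro n
        refine ae_of_all _ (fun x => ?_)
        have h1 : 0 < max ‖x‖ ((n:ℝ) + 1) := lt_of_lt_of_le (by positivity) (le_max_right _ _)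
        rw [Real.norm_of_nonneg (by have := rho0_nonneg x; positivity), mul_div_assoc', div_le_iff₀ h1, mul_comm]
        exact mul_le_mul_of_nonneg_left (le_max_right _ _) (rho0_nonneg x)
      · refine ae_of_all _ (fun x => ?_)
        apply tendsto_const_nhds.congr'
        filter_upwards [eventually_ge_atTop ⌈‖x‖⌉₊] with n hn
        have h1 : ‖x‖ ≤ (n:ℝ) + 1 := (Nat.le_ceil _).trans (by exact_mod_cast (hn.trans (Nat.le_succ n)))
        rw [max_eq_right h1]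
        field_simp
    refine le_of_tendsto hlim (Eventually.of_forall (fun n => ?_))
    rw [integral_const_mul]
    have hn0 : (0:ℝ) < (n:ℝ) + 1 := by positivity
    have hnorm : ‖((n:ℝ) + 1) • e0‖ = (n:ℝ) + 1 := by
      rw [norm_smul, e0_norm, mul_one, Real.norm_of_nonneg hn0.le]
    have hne : ((n:ℝ) + 1) • e0 ≠ 0 := by rw [← norm_pos_iff, hnorm]; exact hn0
    have h2 := phi0_nonneg hne
    rw [phi0, pot0_eq hne, hnorm] at h2
    have h3 := mul_nonneg hn0.le h2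
    rw [mul_sub, mul_one_div, div_self hn0.ne'] at h3
    linarith
  · by_contra hc
    rw [not_le] at hc
    set q := ∫ x, rho0 x with hq
    obtain ⟨n, hn⟩ := exists_nat_gt (1 / (1 - q))
    have hq1 : 0 < 1 - q := by linarith
    set r : ℝ := (n:ℝ) + 2 with hr
    have hr0 : 0 < r := by positivity
    have hr1 : 1 < r := by rw [hr]; have : (0:ℝ) ≤ n := Nat.cast_nonneg n; linarith
    have hnorm : ‖r • e0‖ = r := by
      rw [norm_smul, e0_norm, mul_one, Real.norm_of_nonneg hr0.le]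
    have hne : r • e0 ≠ 0 := by rw [← norm_pos_iff, hnorm]; exact hr0
    have h1 : (1 - q) / r ≤ phi0 (r • e0) := by
      rw [phi0, pot0_eq hne, hnorm, sub_div]
      have : ∫ x : E3, rho0 x / max ‖x‖ r ≤ q / r := by
        rw [hq, ← integral_div]
        refine integral_mono (by have := EL_max_int rho0_EL (r • e0); rw [hnorm] at this; exact this) (hint.div_const _) (fun x => ?_)
        exact div_le_div_of_nonneg_left (rho0_nonneg x) hr0 (le_max_right _ _)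
      linarith
    have h2 : be (phi0 (r • e0)) ≤ (r ^ 6)⁻¹ := by
      rw [← rho0_eq]
      have := rho0_le (x := r • e0) (by rw [hnorm]; exact hr1)
      rwa [hnorm] at this
    have h3 : (1 - q) / r ≤ (r ^ 4)⁻¹ := by
      by_contra hlt
      rw [not_le] at hlt
      have h4 : (r ^ 4)⁻¹ < phi0 (r • e0) := hlt.trans_le h1
      have h5 : be ((r ^ 4)⁻¹) < be (phi0 (r • e0)) := by
        unfold be
        rw [max_eq_left (by positivity), max_eq_left (by linarith [show (0:ℝ) ≤ (r ^ 4)⁻¹ by positivity])]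
        exact Real.rpow_lt_rpow (by positivity) h4 (by norm_num)
      rw [be_inv4 hr0] at h5
      linarith
    have h6 : 1 - q ≤ (r ^ 3)⁻¹ := by
      rw [div_le_iff₀ hr0] at h3
      have : (r ^ 4)⁻¹ * r = (r ^ 3)⁻¹ := by field_simp
      rwa [this] at h3
    have h7 : (r ^ 3)⁻¹ ≤ r⁻¹ := by
      apply inv_anti₀ hr0
      nlinarith [mul_pos hr0 hr0]
    have h8 : r⁻¹ < 1 - q := by
      rw [inv_lt_comm₀ hr0 hq1, ← one_div]
      have : (n:ℝ) < r := by rw [hr]; linarith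
      linarith
    linarith

end Pool.Agent.Q233.TFAtom
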