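import Pool.Agent.H9R2.TF.Fin

/-!
# Comparison principle on a general domain, with point charges
-/

set_option autoImplicit false
open MeasureTheory Set Filter Topology Metric
open scoped RealInnerProductSpace BigOperators ENNReal
open Pool.Agent.Helper557 Pool.Agent.Helper557.TFP
open Pool.Agent.H9R2.TF

namespace Pool.Agent.Q233.TFCmp

/-- comparison on an open set `Ω` inside a closed set `F`; the point charges with negative sign lie outside `F` -/
theorem cmp_dom {k : ℕ} (c : Fin k → ℝ) (S : Fin k → E3) {ν : E3 → ℝ} (hν : Nice ν) {Ω F : Set E3}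
    (hΩ : IsOpen Ω) (hF : IsClosed F) (hΩF : Ω ⊆ F) (hc : ∀ j, 0 ≤ c j ∨ S j ∉ F)
    (hbd : ∀ x ∈ F, x ∉ Ω → (∀ j, c j ≠ 0 → x ≠ S j) → 0 ≤ VV c S x + pot ν x)
    (h : ∀ᵐ y : E3, y ∈ Ω → VV c S y + pot ν y < 0 → 0 ≤ ν y) :
    ∀ x ∈ Ω, (∀ j, c j ≠ 0 → x ≠ S j) → 0 ≤ VV c S x + pot ν x := by
  classical
  set f : E3 → ℝ := fun x => VV c S x + pot ν x with hf
  set N : Set E3 := {p | ∃ j, c j ≠ 0 ∧ S j = p} with hN
  have hNfin : N.Finite := by
    refine (Set.finite_range S).subset ?_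
    rintro p ⟨j, _, hj⟩
    exact ⟨j, hj⟩
  have hnot : ∀ x, x ∉ N ↔ ∀ j, c j ≠ 0 → x ≠ S j := by
    intro x
    rw [hN]
    simp only [mem_setOf_eq, not_exists, not_and]
    constructor
    · intro h j hj e; exact h j hj e.symm
    · intro h j hj e; exact h j hj e.symm
  have hcont : ∀ x ∈ F, x ∉ N → ContinuousAt f x := by
    intro x hx hxN
    exact (VV_cont c S x ((hnot x).1 hxN)).add (pot_cont hν).continuousAt
  -- distance of the outer charges to F
  obtain ⟨r1, hr1, hrF⟩ : ∃ r1 > 0, ∀ j, S j ∉ F → ∀ x ∈ F, r1 ≤ ‖x - S j‖ := by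
    rcases isEmpty_or_nonempty (Fin k) with hk | hk
    · exact ⟨1, one_pos, fun j => (hk.false j).elim⟩
    · have hj : ∀ j, ∃ r > 0, S j ∉ F → ∀ x ∈ F, r ≤ ‖x - S j‖ := by
        intro j
        by_cases hj : S j ∈ F
        · exact ⟨1, one_pos, fun h => absurd hj h⟩
        · obtain ⟨r, hr, hb⟩ := Metric.isOpen_iff.1 hF.isOpen_compl (S j) hj
          refine ⟨r, hr, fun _ x hx => ?_⟩
          by_contra hlt
          rw [not_le] at hlt
          exact hb (show x ∈ ball (S j) r by rw [mem_ball, dist_eq_norm]; exact hlt) hx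
      choose r hr hrr using hj
      obtain ⟨i, _, hi⟩ := Finset.exists_min_image Finset.univ r Finset.univ_nonempty
      exact ⟨r i, hr i, fun j hj x hx => (hi j (Finset.mem_univ j)).trans (hrr j hj x hx)⟩
  obtain ⟨B, hB0, hB⟩ := pot_bdd hν
  obtain ⟨Q, hQ⟩ : ∃ Q : ℝ, Q = (∑ j, |c j| / r1) + B + 1 := ⟨_, rfl⟩
  have hQ0 : 0 < Q := by
    rw [hQ]
    have : 0 ≤ ∑ j, |c j| / r1 := Finset.sum_nonneg (fun j _ => by positivity)
    linarith
  obtain ⟨r2, hr2, hrj⟩ : ∃ r2 > 0, ∀ j, 0 < c j → r2 ≤ c j / Q := by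
    rcases isEmpty_or_nonempty (Fin k) with hk | hk
    · exact ⟨1, one_pos, fun j => (hk.false j).elim⟩
    · obtain ⟨i, _, hi⟩ := Finset.exists_min_image Finset.univ (fun j => if 0 < c j then c j / Q else 1) Finset.univ_nonempty
      refine ⟨if 0 < c i then c i / Q else 1, ?_, fun j hj => ?_⟩
      · split_ifs with h0
        · exact div_pos h0 hQ0
        · exact one_pos
      · have := hi j (Finset.mem_univ j)
        simp only [if_pos hj] at this
        exact this
  -- lower bound for the charge potential on F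
  have hVlow : ∀ x ∈ F, ∀ i, S i ∈ F → c i / ‖x - S i‖ - (∑ j, |c j| / r1) ≤ VV c S x := by
    intro x hx i hi
    have hci : 0 ≤ c i := (hc i).resolve_right (fun h => h hi)
    have h1 : c i / ‖x - S i‖ + ∑ j ∈ Finset.univ.erase i, (-(|c j| / r1)) ≤ VV c S x := by
      unfold VV
      rw [← Finset.add_sum_erase Finset.univ (fun j => c j / ‖x - S j‖) (Finset.mem_univ i)]
      refine add_le_add le_rfl (Finset.sum_le_sum (fun j _ => ?_))
      rcases hc j with h' | h'
      · have : 0 ≤ c j / ‖x - S j‖ := div_nonneg h' (norm_nonneg _)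
        have : 0 ≤ |c j| / r1 := by positivity
        linarith
      · have h2 := hrF j h' x hx
        have h3 : |c j / ‖x - S j‖| ≤ |c j| / r1 := by
          rw [abs_div, abs_of_nonneg (norm_nonneg (x - S j))]
          exact div_le_div_of_nonneg_left (abs_nonneg _) hr1 h2
        exact (abs_le.1 h3).1
    have h2 : ∑ j ∈ Finset.univ.erase i, (|c j| / r1) ≤ ∑ j, |c j| / r1 :=
      Finset.sum_le_univ_sum_of_nonneg (fun j => by positivity)
    rw [Finset.sum_neg_distrib] at h1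
    linarith
  intro x hx hxN
  refine min_pr Ω F hΩ hF hΩF N hNfin.isClosed f hcont (min r1 r2) (lt_min hr1 hr2) ?_ ?_ ?_ ?_ x hx ((hnot x).2 hxN)
  · rintro p ⟨j, hj, rfl⟩ x hx hxr hxN
    by_cases hSF : S j ∈ F
    · have hcj : 0 < c j := lt_of_le_of_ne ((hc j).resolve_right (fun h => h hSF)) (Ne.symm hj)
      have hx0 : 0 < ‖x - S j‖ := norm_pos_iff.2 (sub_ne_zero.2 ((hnot x).1 hxN j hj))
      have h1 : Q ≤ c j / ‖x - S j‖ := by
        rw [le_div_iff₀ hx0]
        have h2 := hrj j hcj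
        have h3 : ‖x - S j‖ < r2 := hxr.trans_le (min_le_right _ _)
        rw [le_div_iff₀ hQ0] at h2
        nlinarith
      have h3 := hVlow x hx j hSF
      have h5 := (abs_le.1 (hB x)).1
      show 0 ≤ VV c S x + pot ν x
      linarith
    · exact absurd (hrF j hSF x hx) (not_le.2 (hxr.trans_le (min_le_left _ _)))
  · intro x hx hx' hxN
    exact hbd x hx hx' ((hnot x).1 hxN)
  · intro ε hε
    obtain ⟨M1, h1⟩ := VV_decay c S (ε/2) (by linarith)
    obtain ⟨M2, h2⟩ := pot_decay hν (ε/2) (by linarith)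
    refine ⟨max M1 M2, fun x _ hxM _ => ?_⟩
    have a1 := (abs_le.1 (h1 x ((le_max_left _ _).trans hxM))).1
    have a2 := (abs_le.1 (h2 x ((le_max_right _ _).trans hxM))).1
    show -ε ≤ VV c S x + pot ν x
    linarith
  · intro x hx hxN hfx
    have hca := hcont x (hΩF hx) hxN
    have ev1 : ∀ᶠ y in 𝓝 x, f y < 0 := hca.eventually (gt_mem_nhds hfx)
    have ev2 : ∀ᶠ y : E3 in 𝓝 x, y ∈ Ω := hΩ.mem_nhds hx
    obtain ⟨s0, hs0, hb⟩ := Metric.eventually_nhds_iff_ball.1 (ev1.and ev2)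
    refine ⟨min s0 r1, lt_min hs0 hr1, fun s hs hss => ?_⟩
    have hsb : ball x s ⊆ ball x s0 := ball_subset_ball (hss.le.trans (min_le_left _ _))
    obtain ⟨a1, a2⟩ := avg_pot ν hν x s hs (h.mono (fun y h1 hy => h1 (hb y (hsb hy)).2 (hb y (hsb hy)).1))
    obtain ⟨b1, b2⟩ := mean_VV c S x s hs (fun j => by
      rcases hc j with h' | h'
      · exact Or.inl h'
      · exact Or.inr ((hss.le.trans (min_le_right _ _)).trans (hrF j h' x (hΩF hx)))) ((hnot x).1 hxN)
    refine ⟨b1.add a1, ?_⟩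
    show ∫ y in ball x s, (VV c S y + pot ν y) ≤ _
    rw [integral_add b1 a1]
    show _ ≤ _ * (VV c S x + pot ν x)
    linarith

/-- comparison in the whole space -/
theorem cmp_all {k : ℕ} (c : Fin k → ℝ) (S : Fin k → E3) {ν : E3 → ℝ} (hν : Nice ν) (hc : ∀ j, 0 ≤ c j)
    (h : ∀ᵐ y : E3, VV c S y + pot ν y < 0 → 0 ≤ ν y) :
    ∀ x, (∀ j, c j ≠ 0 → x ≠ S j) → 0 ≤ VV c S x + pot ν x := fun x hx =>
  cmp_dom c S hν isOpen_univ isClosed_univ (subset_refl _) (fun j => Or.inl (hc j))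
    (fun x _ h => absurd (mem_univ x) h) (h.mono (fun y hy _ => hy)) x (mem_univ x) hx

end Pool.Agent.Q233.TFCmp
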