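import Pool.Agent.Q233.TFIon

/-!
# Uniform dilation of a Thomas-Fermi molecule (`γ = 1`): the electronic energy increases
-/

set_option autoImplicit false
open MeasureTheory Set Filter Topology Metric
open scoped RealInnerProductSpace BigOperators ENNReal
open Pool.Agent.Helper557 Pool.Agent.Helper557.TFP
open Pool.Agent.H9R2.TF Pool.Agent.Q233.TFShell Pool.Agent.Q233.TFAtom Pool.Agent.Q233.TFSat
  Pool.Agent.Q233.TFSup Pool.Agent.Q233.TFCmp Pool.Agent.Q233.TFMol Pool.Agent.Q233.TFIon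

namespace Pool.Agent.Q233.TFDil

/-! ### a Dini type criterion -/

theorem dini_anti {g : ℝ → ℝ} {M : ℝ} (hM : 0 ≤ M)
    (h : ∀ l' l, 0 < l' → l' ≤ l → g l' ≤ g l + M * ((l - l') / l') ^ 2) : MonotoneOn g (Ioi 0) := by
  intro a ha b _ hab
  have ha' : (0:ℝ) < a := ha
  have step : ∀ N : ℕ, 0 < N → g a ≤ g b + M * ((b - a) / a) ^ 2 / N := by
    intro N hN
    have hN' : (0:ℝ) < N := by exact_mod_cast hN
    set p : ℕ → ℝ := fun j => a + j * ((b - a) / N) with hp
    have hd : 0 ≤ (b - a) / N := div_nonneg (by linarith) hN'.le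
    have hpj : ∀ j, a ≤ p j := fun j => by
      simp only [hp]; have : 0 ≤ (j:ℝ) * ((b - a) / N) := by positivity
      linarith
    have hind : ∀ j : ℕ, g a ≤ g (p j) + j * (M * ((b - a) / a) ^ 2 / N ^ 2) := by
      intro j
      induction j with
      | zero => simp [hp]
      | succ j ih =>
        have h1 : p (j + 1) = p j + (b - a) / N := by simp only [hp]; push_cast; ring
        have h2 := h (p j) (p (j + 1)) (ha'.trans_le (hpj j)) (by rw [h1]; linarith)
        have h3 : (p (j + 1) - p j) / p j ≤ (b - a) / a / N := by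
          rw [h1, add_sub_cancel_left, div_div, div_div]
          apply div_le_div_of_nonneg_left (by linarith) (by positivity)
          rw [mul_comm]
          exact mul_le_mul_of_nonneg_left (hpj j) hN'.le
        have h4 : 0 ≤ (p (j + 1) - p j) / p j := div_nonneg (by rw [h1]; linarith) (ha'.le.trans (hpj j))
        have h5 : ((p (j + 1) - p j) / p j) ^ 2 ≤ ((b - a) / a / N) ^ 2 := pow_le_pow_left₀ h4 h3 2
        have h6 : M * ((p (j + 1) - p j) / p j) ^ 2 ≤ M * ((b - a) / a) ^ 2 / N ^ 2 := by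
          calc _ ≤ M * ((b - a) / a / N) ^ 2 := mul_le_mul_of_nonneg_left h5 hM
            _ = _ := by rw [div_pow _ (N:ℝ)]; ring
        push_cast
        linarith
    have := hind N
    have hpN : p N = b := by simp only [hp]; field_simp; ring
    rw [hpN] at this
    refine this.trans (le_of_eq ?_)
    field_simp
  have hlim : Tendsto (fun N : ℕ => g b + M * ((b - a) / a) ^ 2 / N) atTop (𝓝 (g b + 0)) :=
    tendsto_const_nhds.add (tendsto_const_nhds.div_atTop tendsto_natCast_atTop_atTop)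
  rw [add_zero] at hlim
  exact ge_of_tendsto hlim (by filter_upwards [eventually_gt_atTop 0] with N hN using step N hN)

theorem dini_mono {g : ℝ → ℝ} {M : ℝ} (hM : 0 ≤ M)
    (h : ∀ l l', 0 < l → l ≤ l' → g l' ≤ g l + M * ((l' - l) / l) ^ 2) : AntitoneOn g (Ioi 0) := by
  intro a ha b _ hab
  have ha' : (0:ℝ) < a := ha
  have step : ∀ N : ℕ, 0 < N → g b ≤ g a + M * ((b - a) / a) ^ 2 / N := by
    intro N hN
    have hN' : (0:ℝ) < N := by exact_mod_cast hN
    set p : ℕ → ℝ := fun j => a + j * ((b - a) / N) with hp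
    have hd : 0 ≤ (b - a) / N := div_nonneg (by linarith) hN'.le
    have hpj : ∀ j, a ≤ p j := fun j => by
      simp only [hp]; have : 0 ≤ (j:ℝ) * ((b - a) / N) := by positivity
      linarith
    have hind : ∀ j : ℕ, g (p j) ≤ g a + j * (M * ((b - a) / a) ^ 2 / N ^ 2) := by
      intro j
      induction j with
      | zero => simp [hp]
      | succ j ih =>
        have h1 : p (j + 1) = p j + (b - a) / N := by simp only [hp]; push_cast; ring
        have h2 := h (p j) (p (j + 1)) (ha'.trans_le (hpj j)) (by rw [h1]; linarith)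
        have h3 : (p (j + 1) - p j) / p j ≤ (b - a) / a / N := by
          rw [h1, add_sub_cancel_left, div_div, div_div]
          apply div_le_div_of_nonneg_left (by linarith) (by positivity)
          rw [mul_comm]
          exact mul_le_mul_of_nonneg_left (hpj j) hN'.le
        have h4 : 0 ≤ (p (j + 1) - p j) / p j := div_nonneg (by rw [h1]; linarith) (ha'.le.trans (hpj j))
        have h5 : ((p (j + 1) - p j) / p j) ^ 2 ≤ ((b - a) / a / N) ^ 2 := pow_le_pow_left₀ h4 h3 2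
        have h6 : M * ((p (j + 1) - p j) / p j) ^ 2 ≤ M * ((b - a) / a) ^ 2 / N ^ 2 := by
          calc _ ≤ M * ((b - a) / a / N) ^ 2 := mul_le_mul_of_nonneg_left h5 hM
            _ = _ := by rw [div_pow _ (N:ℝ)]; ring
        push_cast
        linarith
    have := hind N
    have hpN : p N = b := by simp only [hp]; field_simp; ring
    rw [hpN] at this
    refine this.trans (le_of_eq ?_)
    field_simp
  have hlim : Tendsto (fun N : ℕ => g a + M * ((b - a) / a) ^ 2 / N) atTop (𝓝 (g a + 0)) :=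
    tendsto_const_nhds.add (tendsto_const_nhds.div_atTop tendsto_natCast_atTop_atTop)
  rw [add_zero] at hlim
  exact ge_of_tendsto hlim (by filter_upwards [eventually_gt_atTop 0] with N hN using step N hN)

/-! ### dilated densities -/

noncomputable def dl (s : ℝ) (ρ : E3 → ℝ) (x : E3) : ℝ := (s ^ 3)⁻¹ * ρ (s⁻¹ • x)

lemma int_inv {s : ℝ} (hs : 0 < s) (f : E3 → ℝ) : ∫ x : E3, f (s⁻¹ • x) = s ^ 3 * ∫ x, f x := by
  rw [int_smul (by positivity) f, inv_pow, inv_inv]

lemma intble_inv {s : ℝ} (hs : 0 < s) {f : E3 → ℝ} (hf : Integrable f) : Integrable (fun x : E3 => f (s⁻¹ • x)) :=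
  intble_smul (by positivity) hf

lemma pow3_rpow {s : ℝ} (hs : 0 < s) : ((s ^ 3)⁻¹) ^ (5/3 : ℝ) = (s ^ 5)⁻¹ := by
  rw [Real.inv_rpow (by positivity), ← Real.rpow_natCast, ← Real.rpow_mul hs.le, ← Real.rpow_natCast]
  norm_num

lemma dl_pow {s : ℝ} (hs : 0 < s) {ρ : E3 → ℝ} (h : ∀ x, 0 ≤ ρ x) (x : E3) :
    dl s ρ x ^ (5/3 : ℝ) = (s ^ 5)⁻¹ * ρ (s⁻¹ • x) ^ (5/3 : ℝ) := by
  unfold dl
  rw [Real.mul_rpow (by positivity) (h _), pow3_rpow hs]

lemma dl_adm {s : ℝ} (hs : 0 < s) {ρ : E3 → ℝ} (h : Adm ρ) : Adm (dl s ρ) := by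
  obtain ⟨h1, h2, h3, h4⟩ := h
  refine ⟨(h1.comp (measurable_const_smul s⁻¹)).const_mul _, fun x => mul_nonneg (by positivity) (h2 _),
    (intble_inv hs h3).const_mul _, ?_⟩
  simp only [dl_pow hs h2]
  exact (intble_inv hs (f := fun y => ρ y ^ (5/3 : ℝ)) h4).const_mul _

lemma dl_mass {s : ℝ} (hs : 0 < s) (ρ : E3 → ℝ) : ∫ x, dl s ρ x = ∫ x, ρ x := by
  unfold dl
  rw [integral_const_mul, int_inv hs]
  field_simp

lemma dl_EF {k : ℕ} {s : ℝ} (hs : 0 < s) (z : Fin k → ℝ) (R : Fin k → E3) {ρ : E3 → ℝ} (h : ∀ x, 0 ≤ ρ x) :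
    EF z (fun j => s • R j) (dl s ρ) = (s ^ 2)⁻¹ * (3/5 * ∫ x, ρ x ^ (5/3 : ℝ))
      + s⁻¹ * (-(∫ x, VV z R x * ρ x) + 1/2 * ∫ x, ρ x * pot ρ x) := by
  have hs' := hs.ne'
  have nrm : ∀ x y : E3, ‖x - s • y‖ = s * ‖s⁻¹ • x - y‖ := by
    intro x y
    have : x - s • y = s • (s⁻¹ • x - y) := by
      rw [smul_sub, smul_smul, mul_inv_cancel₀ hs', one_smul]
    rw [this, norm_smul, Real.norm_of_nonneg hs.le]
  have e1 : ∫ x, dl s ρ x ^ (5/3 : ℝ) = (s ^ 2)⁻¹ * ∫ x, ρ x ^ (5/3 : ℝ) := by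
    simp only [dl_pow hs h]
    rw [integral_const_mul, int_inv hs (fun y => ρ y ^ (5/3 : ℝ))]
    field_simp
  have e2 : ∫ x, VV z (fun j => s • R j) x * dl s ρ x = s⁻¹ * ∫ x, VV z R x * ρ x := by
    have : (fun x => VV z (fun j => s • R j) x * dl s ρ x) = fun x => (s ^ 4)⁻¹ * (fun y => VV z R y * ρ y) (s⁻¹ • x) := by
      funext x
      have : VV z (fun j => s • R j) x = s⁻¹ * VV z R (s⁻¹ • x) := by
        unfold VV
        rw [Finset.mul_sum]
        refine Finset.sum_congr rfl (fun j _ => ?_)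
        rw [nrm, div_eq_mul_inv, mul_inv, div_eq_mul_inv]
        ring
      rw [this]
      unfold dl
      field_simp
    rw [this, integral_const_mul, int_inv hs (fun y => VV z R y * ρ y)]
    field_simp
  have e3 : ∀ x, pot (dl s ρ) x = s⁻¹ * pot ρ (s⁻¹ • x) := by
    intro x
    unfold pot
    have : (fun y => dl s ρ y / ‖x - y‖) = fun y => (s ^ 4)⁻¹ * (fun v => ρ v / ‖s⁻¹ • x - v‖) (s⁻¹ • y) := by
      funext y
      have e : ‖s⁻¹ • x - s⁻¹ • y‖ = s⁻¹ * ‖x - y‖ := by rw [← smul_sub, norm_smul, Real.norm_of_nonneg (by positivity)]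
      unfold dl
      simp only
      rw [e, div_eq_mul_inv, div_eq_mul_inv, mul_inv, inv_inv]
      field_simp
    rw [this, integral_const_mul, int_inv hs (fun v => ρ v / ‖s⁻¹ • x - v‖)]
    field_simp
  have e4 : ∫ x, dl s ρ x * pot (dl s ρ) x = s⁻¹ * ∫ x, ρ x * pot ρ x := by
    have : (fun x => dl s ρ x * pot (dl s ρ) x) = fun x => (s ^ 4)⁻¹ * (fun y => ρ y * pot ρ y) (s⁻¹ • x) := by
      funext x
      rw [e3]
      unfold dl
      field_simp
    rw [this, integral_const_mul, int_inv hs (fun y => ρ y * pot ρ y)]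
    field_simp
  unfold EF
  rw [e1, e2, e4]
  ring

/-! ### the electronic energy as an infimum -/

section

variable {k : ℕ} {z : Fin k → ℝ}

noncomputable def el (z : Fin k → ℝ) (R : Fin k → E3) (lam : ℝ) : ℝ :=
  sInf {E | ∃ ρ, Adm ρ ∧ ∫ x, ρ x = lam ∧ EF z R ρ = E}

/-- nuclear repulsion -/
noncomputable def UU' (z : Fin k → ℝ) (R : Fin k → E3) : ℝ := ∑ i, ∑ j ∈ Finset.Ioi i, z i * z j / ‖R i - R j‖

lemma xi_EF (z : Fin k → ℝ) (R : Fin k → E3) (ρ : E3 → ℝ) : xi z R ρ = EF z R ρ + UU' z R := by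
  unfold xi EF UU' VV
  rw [TF_E1_dbl]

lemma el_bdd (hz : ∀ j, 0 ≤ z j) (R : Fin k → E3) (lam : ℝ) : BddBelow {E | ∃ ρ, Adm ρ ∧ ∫ x, ρ x = lam ∧ EF z R ρ = E} := by
  obtain ⟨b, hb⟩ := en_bdd z hz R lam
  refine ⟨b - UU' z R, ?_⟩
  rintro E ⟨ρ, h1, h2, rfl⟩
  have := hb ⟨ρ, h1, h2, rfl⟩
  rw [xi_EF] at this
  linarith

lemma el_ne (R : Fin k → E3) {lam : ℝ} (hl : 0 ≤ lam) : {E | ∃ ρ, Adm ρ ∧ ∫ x, ρ x = lam ∧ EF z R ρ = E}.Nonempty := by
  obtain ⟨σ, h1, h2⟩ := exists_adm hl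
  exact ⟨_, σ, h1, h2, rfl⟩

lemma el_eq {R : Fin k → E3} {Φ : ℝ} {ρ : E3 → ℝ} (hz : ∀ j, 0 ≤ z j) (h : ELs z R Φ ρ) : el z R (∫ x, ρ x) = EF z R ρ := by
  have hρ := adm_of_nice h.nice h.nonneg
  apply le_antisymm
  · exact csInf_le (el_bdd hz R _) ⟨ρ, hρ, rfl, rfl⟩
  · refine le_csInf ⟨_, ρ, hρ, rfl, rfl⟩ ?_
    rintro E ⟨σ, h1, h2, rfl⟩
    exact EF_min h h1 h2

/-- the total energy is the electronic energy plus the nuclear repulsion -/
lemma en_el (hz : ∀ j, 0 ≤ z j) (R : Fin k → E3) {lam : ℝ} (hl : 0 ≤ lam) : en z R lam = el z R lam + UU' z R := by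
  apply le_antisymm
  · have : en z R lam - UU' z R ≤ el z R lam := by
      refine le_csInf (el_ne R hl) ?_
      rintro E ⟨σ, h1, h2, rfl⟩
      have := csInf_le (en_bdd z hz R lam) ⟨σ, h1, h2, rfl⟩
      rw [xi_EF] at this
      unfold en
      linarith
    linarith
  · refine le_csInf (en_nonempty z R lam hl) ?_
    rintro E ⟨σ, h1, h2, rfl⟩
    rw [xi_EF]
    have := csInf_le (el_bdd hz R lam) ⟨σ, h1, h2, rfl⟩
    unfold el
    linarith

lemma EF_zero_of {R : Fin k → E3} {ρ : E3 → ℝ} (h : Adm ρ) (hm : ∫ x, ρ x = 0) : EF z R ρ = 0 := by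
  have hz' : ρ =ᵐ[volume] 0 := (integral_eq_zero_iff_of_nonneg h.2.1 h.2.2.1).1 hm
  have e1 : ∫ x, ρ x ^ (5/3 : ℝ) = 0 := by
    rw [← integral_zero E3 ℝ]
    refine integral_congr_ae ?_
    filter_upwards [hz'] with x hx
    rw [hx, Pi.zero_apply, Real.zero_rpow (by norm_num)]
  have e2 : ∫ x, VV z R x * ρ x = 0 := by
    rw [← integral_zero E3 ℝ]
    refine integral_congr_ae ?_
    filter_upwards [hz'] with x hx
    rw [hx, Pi.zero_apply, mul_zero]
  have e3 : ∫ x, ρ x * pot ρ x = 0 := by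
    rw [← integral_zero E3 ℝ]
    refine integral_congr_ae ?_
    filter_upwards [hz'] with x hx
    rw [hx, Pi.zero_apply, zero_mul]
  unfold EF
  rw [e1, e2, e3]; norm_num

lemma el_zero (R : Fin k → E3) : el z R 0 = 0 := by
  unfold el
  have : {E | ∃ ρ, Adm ρ ∧ ∫ x, ρ x = 0 ∧ EF z R ρ = E} = {0} := by
    ext E
    constructor
    · rintro ⟨ρ, h1, h2, rfl⟩
      exact EF_zero_of h1 h2
    · rintro rfl
      obtain ⟨σ, h1, h2⟩ := exists_adm (le_refl (0:ℝ))
      exact ⟨σ, h1, h2, EF_zero_of h1 h2⟩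
  rw [this, csInf_singleton]

lemma rpow23_split {a r : ℝ} (ha : 0 ≤ a) (hr : 1 ≤ r) : a ^ (2/3 : ℝ) ≤ 1 / r + r * a := by
  have hr0 : 0 < r := by linarith
  by_cases h : a ^ (2/3 : ℝ) ≤ 1 / r
  · have : 0 ≤ r * a := by positivity
    linarith
  · rw [not_le] at h
    have ha0 : 0 < a := by
      rcases eq_or_lt_of_le ha with h' | h'
      · rw [← h', Real.zero_rpow (by norm_num)] at h
        exact absurd h (not_lt.2 (by positivity))
      · exact h'
    set b := a ^ (1/3 : ℝ) with hb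
    have hb0 : 0 < b := Real.rpow_pos_of_pos ha0 _
    have e1 : a ^ (2/3 : ℝ) = b ^ 2 := by
      rw [hb, ← Real.rpow_natCast, ← Real.rpow_mul ha]; norm_num
    have e2 : a = b ^ 3 := by
      rw [hb, ← Real.rpow_natCast, ← Real.rpow_mul ha]; norm_num
    rw [e1] at h ⊢
    rw [e2]
    have h1 : 1 < r * b ^ 2 := by
      rw [div_lt_iff₀ hr0] at h; linarith
    have h2 : 1 ≤ r * b := by
      by_contra hc
      rw [not_le] at hc
      have h3 : b < 1 := by
        have : b ≤ r * b := by nlinarith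
        linarith
      have h4 : r * b ^ 2 < 1 := by nlinarith
      linarith
    have : b ^ 2 ≤ r * b ^ 3 := by nlinarith [pow_pos hb0 2]
    have : 0 ≤ 1 / r := by positivity
    linarith

/-- more electrons than `Z` do not lower the energy -/
theorem el_above (hz : ∀ j, 0 ≤ z j) (R : Fin k → E3) {lam : ℝ} (hl : ∑ j, z j ≤ lam) :
    el z R lam = el z R (∑ j, z j) := by
  have hZ0 : 0 ≤ ∑ j, z j := Finset.sum_nonneg (fun j _ => hz j)
  set Z := ∑ j, z j with hZ
  have h := rm_EL hz R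
  have hmass := rm_mass hz R
  have e0 : el z R Z = EF z R (rm z R) := by
    have := el_eq hz h
    rwa [hmass, ← hZ] at this
  rw [e0]
  apply le_antisymm
  · set δ := lam - Z with hδ
    have hδ0 : 0 ≤ δ := by rw [hδ]; linarith
    have nρ := h.nice
    set ρ := rm z R with hρd
    have key : ∀ r : ℝ, 1 ≤ r → el z R lam ≤ EF z R ρ + (δ + δ * Z + δ ^ 2 + δ * (3/2) * Z + 3/4 * δ ^ 2) / r := by
      intro r hr
      have hr0 : 0 < r := by linarith
      have nU : Nice (fun x : E3 => δ * UB r ‖x‖) := nice_smul (UB_nice hr0) δ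
      have bU : ∀ x : E3, 0 ≤ δ * UB r ‖x‖ := fun x => mul_nonneg hδ0 (UB_nonneg hr0 _)
      have ns : Nice (fun x : E3 => ρ x + δ * UB r ‖x‖) := nice_add nρ nU
      have hs : Adm (fun x : E3 => ρ x + δ * UB r ‖x‖) := adm_of_nice ns (fun x => add_nonneg (h.nonneg x) (bU x))
      have mU : ∫ x : E3, δ * UB r ‖x‖ = δ := by rw [integral_const_mul, UB_mass hr0, mul_one]
      have ms : ∫ x : E3, (ρ x + δ * UB r ‖x‖) = lam := by
        rw [integral_add nρ.2.1 nU.2.1, mU, hmass, hδ]; ring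
      have h1 : el z R lam ≤ EF z R (fun x : E3 => ρ x + δ * UB r ‖x‖) := csInf_le (el_bdd hz R lam) ⟨_, hs, ms, rfl⟩
      refine h1.trans ?_
      have pU : ∀ y : E3, pot (fun x : E3 => δ * UB r ‖x‖) y ≤ δ * (3/2) / r := by
        intro y
        rw [psm]
        have := (pUB hr0 y).2
        rw [le_div_iff₀ hr0]
        calc δ * pot (fun x => UB r ‖x‖) y * r = δ * (r * pot (fun x => UB r ‖x‖) y) := by ring
          _ ≤ δ * (3/2) := mul_le_mul_of_nonneg_left this hδ0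
      have i1 : Integrable (fun x => ρ x ^ (5/3 : ℝ)) := h.int53
      have i2 : Integrable (fun x : E3 => (ρ x + δ * UB r ‖x‖) ^ (5/3 : ℝ)) := hs.2.2.2
      -- kinetic part
      set β := (4 / 3 * Real.pi * r ^ 3)⁻¹ with hβ
      have hβ0 : 0 ≤ β := by positivity
      have hUβ : ∀ x : E3, UB r ‖x‖ ≤ β := fun x => by
        unfold UB; exact indicator_le_self' (fun _ _ => by positivity) _
      have hβr : β ≤ 1 / r ^ 3 := by
        rw [hβ, ← one_div]
        apply one_div_le_one_div_of_le (by positivity)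
        have := Real.pi_gt_three
        have : 0 < r ^ 3 := by positivity
        nlinarith
      have hkin : 3/5 * (∫ x : E3, (ρ x + δ * UB r ‖x‖) ^ (5/3 : ℝ)) - 3/5 * (∫ x, ρ x ^ (5/3 : ℝ)) ≤ (δ + δ * Z + δ ^ 2) / r := by
        have e1 : 3/5 * (∫ x : E3, (ρ x + δ * UB r ‖x‖) ^ (5/3 : ℝ)) - 3/5 * (∫ x, ρ x ^ (5/3 : ℝ))
            = ∫ x : E3, (3/5 * (ρ x + δ * UB r ‖x‖) ^ (5/3 : ℝ) - 3/5 * ρ x ^ (5/3 : ℝ)) := by
          rw [integral_sub (i2.const_mul _) (i1.const_mul _), integral_const_mul, integral_const_mul]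
        rw [e1]
        have e2 : ∫ x : E3, (3/5 * (ρ x + δ * UB r ‖x‖) ^ (5/3 : ℝ) - 3/5 * ρ x ^ (5/3 : ℝ))
            ≤ ∫ x : E3, ((1 / r) * (δ * UB r ‖x‖) + (r * β * δ) * (ρ x + δ * UB r ‖x‖)) := by
          refine integral_mono ((i2.const_mul _).sub (i1.const_mul _)) ((nU.2.1.const_mul _).add ((nρ.2.1.add nU.2.1).const_mul _)) (fun x => ?_)
          simp only
          have r0 := h.nonneg x
          have u0 := bU x
          have h3 := sc2 r0 (add_nonneg r0 u0)
          rw [add_sub_cancel_left] at h3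
          have h4 := rpow23_split (add_nonneg r0 u0) hr
          have h5 := mul_le_mul_of_nonneg_right h4 u0
          have h6 : δ * UB r ‖x‖ ≤ β * δ := by rw [mul_comm β]; exact mul_le_mul_of_nonneg_left (hUβ x) hδ0
          have h7 : r * (ρ x + δ * UB r ‖x‖) * (δ * UB r ‖x‖) ≤ r * (ρ x + δ * UB r ‖x‖) * (β * δ) :=
            mul_le_mul_of_nonneg_left h6 (mul_nonneg hr0.le (add_nonneg r0 u0))
          calc _ ≤ (ρ x + δ * UB r ‖x‖) ^ (2/3 : ℝ) * (δ * UB r ‖x‖) := h3
            _ ≤ (1 / r + r * (ρ x + δ * UB r ‖x‖)) * (δ * UB r ‖x‖) := h5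
            _ = 1 / r * (δ * UB r ‖x‖) + r * (ρ x + δ * UB r ‖x‖) * (δ * UB r ‖x‖) := by ring
            _ ≤ 1 / r * (δ * UB r ‖x‖) + r * (ρ x + δ * UB r ‖x‖) * (β * δ) := by linarith
            _ = _ := by ring
        have e3 : ∫ x : E3, ((1 / r) * (δ * UB r ‖x‖) + (r * β * δ) * (ρ x + δ * UB r ‖x‖)) = (1 / r) * δ + (r * β * δ) * (Z + δ) := by
          have j1 : Integrable (fun x : E3 => (1 / r) * (δ * UB r ‖x‖)) := nU.2.1.const_mul _
          have j2 : Integrable (fun x : E3 => (r * β * δ) * (ρ x + δ * UB r ‖x‖)) := (nρ.2.1.add nU.2.1).const_mul _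
          have k1 : ∫ x : E3, (1 / r) * (δ * UB r ‖x‖) = (1 / r) * δ := by rw [integral_const_mul, mU]
          have k2 : ∫ x : E3, (r * β * δ) * (ρ x + δ * UB r ‖x‖) = (r * β * δ) * (Z + δ) := by
            rw [integral_const_mul, integral_add nρ.2.1 nU.2.1, mU, hmass]
          rw [integral_add j1 j2, k1, k2]
        rw [e3] at e2
        refine e2.trans ?_
        have h3 : r * β ≤ 1 / r := by
          calc r * β ≤ r * (1 / r ^ 3) := mul_le_mul_of_nonneg_left hβr hr0.le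
            _ = 1 / r / r := by field_simp
            _ ≤ 1 / r := div_le_self (by positivity) hr
        have h4 : r * β * δ * (Z + δ) ≤ 1 / r * δ * (Z + δ) := by
          apply mul_le_mul_of_nonneg_right _ (by linarith)
          exact mul_le_mul_of_nonneg_right h3 hδ0
        calc _ ≤ 1 / r * δ + 1 / r * δ * (Z + δ) := by linarith
          _ = _ := by ring
      -- potential part
      have hV : ∫ x : E3, VV z R x * ρ x ≤ ∫ x : E3, VV z R x * (ρ x + δ * UB r ‖x‖) := by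
        refine integral_mono (vint z R nρ) (vint z R ns) (fun x => ?_)
        simp only
        have := mul_nonneg (VV_nonneg hz R x) (bU x)
        nlinarith
      have hD : ∫ x : E3, (ρ x + δ * UB r ‖x‖) * pot (fun y : E3 => ρ y + δ * UB r ‖y‖) x
          ≤ (∫ x, ρ x * pot ρ x) + 2 * (δ * (3/2) / r * Z) + δ * (3/2) / r * δ := by
        have e1 := (kop_full nρ).exp nρ nU 1
        have e2 : (fun y : E3 => ρ y + 1 * (δ * UB r ‖y‖)) = fun y : E3 => ρ y + δ * UB r ‖y‖ := by funext y; ring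
        rw [e2] at e1
        have e3 : (fun x : E3 => (ρ x + 1 * (δ * UB r ‖x‖)) * pot (fun y : E3 => ρ y + δ * UB r ‖y‖) x)
            = fun x : E3 => (ρ x + δ * UB r ‖x‖) * pot (fun y : E3 => ρ y + δ * UB r ‖y‖) x := by funext x; ring
        rw [e3] at e1
        rw [e1]
        have s1 : ∫ x : E3, δ * UB r ‖x‖ * pot ρ x ≤ δ * (3/2) / r * Z := by
          rw [TF_E1_symm (fun x : E3 => δ * UB r ‖x‖) ρ nU nρ]
          have : ∫ x : E3, ρ x * pot (fun x : E3 => δ * UB r ‖x‖) x ≤ ∫ x : E3, ρ x * (δ * (3/2) / r) := by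
            refine integral_mono (TF_E1_int _ _ nρ.2.1 nU) (nρ.2.1.mul_const _) (fun x => ?_)
            exact mul_le_mul_of_nonneg_left (pU x) (h.nonneg x)
          rw [integral_mul_const, hmass] at this
          linarith
        have s2 : ∫ x : E3, δ * UB r ‖x‖ * pot (fun x : E3 => δ * UB r ‖x‖) x ≤ δ * (3/2) / r * δ := by
          have : ∫ x : E3, δ * UB r ‖x‖ * pot (fun x : E3 => δ * UB r ‖x‖) x ≤ ∫ x : E3, δ * UB r ‖x‖ * (δ * (3/2) / r) := by
            refine integral_mono (TF_E1_int _ _ nU.2.1 nU) (nU.2.1.mul_const _) (fun x => ?_)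
            exact mul_le_mul_of_nonneg_left (pU x) (bU x)
          rw [integral_mul_const, mU] at this
          linarith
        linarith
      have e : (δ + δ * Z + δ ^ 2 + δ * (3/2) * Z + 3/4 * δ ^ 2) / r
          = (δ + δ * Z + δ ^ 2) / r + δ * (3/2) / r * Z + 1/2 * (δ * (3/2) / r * δ) := by ring
      rw [e]
      unfold EF
      linarith
    have hlim : Tendsto (fun n : ℕ => EF z R ρ + (δ + δ * Z + δ ^ 2 + δ * (3/2) * Z + 3/4 * δ ^ 2) / ((n:ℝ) + 1)) atTop (𝓝 (EF z R ρ + 0)) :=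
      tendsto_const_nhds.add (tendsto_const_nhds.div_atTop (tendsto_atTop_add_const_right _ _ tendsto_natCast_atTop_atTop))
    rw [add_zero] at hlim
    exact ge_of_tendsto hlim (Eventually.of_forall (fun n => key _ (by have : (0:ℝ) ≤ n := Nat.cast_nonneg n; linarith)))
  · refine le_csInf (el_ne R (hZ0.trans hl)) ?_
    rintro E ⟨σ, h1, h2, rfl⟩
    exact EF_min0 h h1

/-- the virial inequality of the seed library: `2 K + W ≤ 0` -/
lemma virial_le {R : Fin k → E3} {Φ : ℝ} {ρ : E3 → ℝ} (hz : ∀ j, 0 ≤ z j) (hΦ : 0 ≤ Φ) (h : ELs z R Φ ρ) :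
    2 * (3/5 * ∫ x, ρ x ^ (5/3 : ℝ)) + (-(∫ x, VV z R x * ρ x) + 1/2 * ∫ x, ρ x * pot ρ x) ≤ 0 := by
  have := ThmM0 hz hΦ h
  rw [prod_pot h.nice] at this
  linarith

/-- **the electronic energy increases under dilation** -/
theorem el_mono (hz : ∀ j, 0 ≤ z j) (R : Fin k → E3) {lam : ℝ} (hl : 0 ≤ lam) :
    MonotoneOn (fun l : ℝ => el z (fun j => l • R j) lam) (Ioi 0) := by
  have main : ∀ lam : ℝ, 0 < lam → lam ≤ ∑ j, z j → MonotoneOn (fun l : ℝ => el z (fun j => l • R j) lam) (Ioi 0) := by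
    intro lam h0 h1
    obtain ⟨M, hM0, hM⟩ := K_bound hz h0.le
    refine dini_anti hM0 (fun l' l hl' hll => ?_)
    have hl0 : 0 < l := hl'.trans_le hll
    obtain ⟨Φ, hΦ, ρ, hρ, hm⟩ := ion_exists hz (fun j => l • R j) h0 h1
    have hK := hM (fun j => l • R j) Φ ρ hρ hm
    have hv := virial_le hz hΦ hρ
    have hval := el_eq hz hρ
    rw [hm] at hval
    set s := l' / l with hs
    have hs0 : 0 < s := div_pos hl' hl0
    have hadm := adm_of_nice hρ.nice hρ.nonneg
    have h2 : el z (fun j => l' • R j) lam ≤ EF z (fun j => s • (l • R j)) (dl s ρ) := by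
      have e : (fun j => s • (l • R j)) = fun j => l' • R j := by
        funext j; rw [smul_smul, hs, div_mul_cancel₀ _ hl0.ne']
      rw [e]
      exact csInf_le (el_bdd hz _ _) ⟨dl s ρ, dl_adm hs0 hadm, by rw [dl_mass hs0, hm], rfl⟩
    rw [dl_EF hs0 z (fun j => l • R j) hρ.nonneg] at h2
    rw [hval]
    unfold EF
    set K := 3/5 * ∫ x, ρ x ^ (5/3 : ℝ) with hKd
    set W := -(∫ x, VV z (fun j => l • R j) x * ρ x) + 1/2 * ∫ x, ρ x * pot ρ x with hW
    have hK0 : 0 ≤ K := by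
      have : 0 ≤ ∫ x, ρ x ^ (5/3 : ℝ) := integral_nonneg (fun x => Real.rpow_nonneg (hρ.nonneg x) _)
      rw [hKd]; linarith
    have hsi : s⁻¹ = 1 + (l - l') / l' := by rw [hs]; field_simp; ring
    set t := (l - l') / l' with ht
    have ht0 : 0 ≤ t := div_nonneg (by linarith) hl'.le
    have e2 : (s ^ 2)⁻¹ = (1 + t) ^ 2 := by rw [← inv_pow, hsi]
    rw [e2, hsi] at h2
    have e3 : K - (∫ x, VV z (fun j => l • R j) x * ρ x) + 1/2 * (∫ x, ρ x * pot ρ x) = K + W := by rw [hW]; ring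
    rw [e3]
    have h5 : K * t ^ 2 ≤ M * t ^ 2 := mul_le_mul_of_nonneg_right hK (sq_nonneg t)
    have h6 : t * (2 * K + W) ≤ 0 := mul_nonpos_of_nonneg_of_nonpos ht0 hv
    nlinarith
  rcases eq_or_lt_of_le hl with h0 | h0
  · rw [← h0]
    intro a _ b _ _
    simp only [el_zero]; exact le_rfl
  · rcases le_or_gt lam (∑ j, z j) with h1 | h1
    · exact main lam h0 h1
    · have hZ0 : 0 ≤ ∑ j, z j := Finset.sum_nonneg (fun j _ => hz j)
      intro a ha b hb hab
      simp only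
      rw [el_above hz _ h1.le, el_above hz _ h1.le]
      rcases eq_or_lt_of_le hZ0 with h2 | h2
      · rw [← h2, el_zero, el_zero]
      · exact main _ h2 le_rfl ha hb hab

end

end Pool.Agent.Q233.TFDil
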