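import Pool.Agent.Q233.TFDil

/-!
# Teller type inequalities for neutral molecules; the pressure is nonnegative
-/

set_option autoImplicit false
open MeasureTheory Set Filter Topology Metric
open scoped RealInnerProductSpace BigOperators ENNReal
open Pool.Agent.Helper557 Pool.Agent.Helper557.TFP
open Pool.Agent.H9R2.TF Pool.Agent.Q233.TFShell Pool.Agent.Q233.TFAtom Pool.Agent.Q233.TFSat
  Pool.Agent.Q233.TFSup Pool.Agent.Q233.TFCmp Pool.Agent.Q233.TFMol Pool.Agent.Q233.TFIon Pool.Agent.Q233.TFDil

namespace Pool.Agent.Q233.TFTeller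

variable {k : ℕ} {z z' a b : Fin k → ℝ} {R : Fin k → E3}

/-- electronic potential of the neutral molecule -/
noncomputable def PP (R : Fin k → E3) (z : Fin k → ℝ) (x : E3) : ℝ := pot (rm z R) x

lemma VV_sub (z z' : Fin k → ℝ) (R : Fin k → E3) (x : E3) : VV (fun j => z' j - z j) R x = VV z' R x - VV z R x := by
  unfold VV
  rw [← Finset.sum_sub_distrib]
  exact Finset.sum_congr rfl (fun j _ => by ring)

/-- monotonicity of the potential in the nuclear charges -/
theorem phi_mono (hz : ∀ j, 0 ≤ z j) (hzz : ∀ j, z j ≤ z' j) (R : Fin k → E3) {x : E3}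
    (hx : ∀ j, z' j - z j ≠ 0 → x ≠ R j) : 0 ≤ VV (fun j => z' j - z j) R x + (PP R z x - PP R z' x) := by
  have hz' : ∀ j, 0 ≤ z' j := fun j => (hz j).trans (hzz j)
  have h := rm_EL hz R
  have h' := rm_EL hz' R
  have := cmp_all (fun j => z' j - z j) R (nice_sub' h.nice h'.nice) (fun j => sub_nonneg.2 (hzz j)) (ae_of_all _ (fun y hy => by
    rw [pot_sub h.nice h'.nice, VV_sub] at hy
    have h1 : rm z' R y ≤ rm z R y := by
      rw [h.eq y, h'.eq y]
      exact be_mono (by linarith)
    linarith)) x hx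
  rw [pot_sub h.nice h'.nice] at this
  exact this

/-- the potential has decreasing differences in the nuclear charges -/
theorem sub_mod (hz : ∀ j, 0 ≤ z j) (ha : ∀ j, 0 ≤ a j) (hb : ∀ j, 0 ≤ b j) (R : Fin k → E3) (x : E3) :
    PP R (fun j => z j + a j) x + PP R (fun j => z j + b j) x ≤ PP R (fun j => z j + a j + b j) x + PP R z x := by
  have hza : ∀ j, 0 ≤ z j + a j := fun j => add_nonneg (hz j) (ha j)
  have hzb : ∀ j, 0 ≤ z j + b j := fun j => add_nonneg (hz j) (hb j)
  have hzab : ∀ j, 0 ≤ z j + a j + b j := fun j => add_nonneg (hza j) (hb j)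
  have hD := rm_EL hz R
  have hB := rm_EL hza R
  have hC := rm_EL hzb R
  have hA := rm_EL hzab R
  set A := rm (fun j => z j + a j + b j) R with hAd
  set B := rm (fun j => z j + a j) R with hBd
  set C := rm (fun j => z j + b j) R with hCd
  set D := rm z R with hDd
  have n1 : Nice (fun x => A x + D x) := nice_add hA.nice hD.nice
  have n2 : Nice (fun x => B x + C x) := nice_add hB.nice hC.nice
  have key := cmp_full (nice_sub' n1 n2) (C0 := 0) le_rfl (by
    filter_upwards [ae_nuc R] with y hy hy2
    rw [add_zero, pot_sub n1 n2, pot_add hA.nice hD.nice, pot_add hB.nice hC.nice] at hy2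
    have m1 := phi_mono (z := z) (z' := fun j => z j + a j) hz (fun j => by have := ha j; linarith) R (x := y) (fun j _ => hy j)
    have m2 := phi_mono (z := z) (z' := fun j => z j + b j) hz (fun j => by have := hb j; linarith) R (x := y) (fun j _ => hy j)
    have m3 := phi_mono (z := fun j => z j + a j) (z' := fun j => z j + a j + b j) hza (fun j => by have := hb j; linarith) R (x := y) (fun j _ => hy j)
    have e1 : VV (fun j => z j + a j) R y = VV z R y + VV a R y := by
      unfold VV; rw [← Finset.sum_add_distrib]; exact Finset.sum_congr rfl (fun j _ => by ring)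
    have e2 : VV (fun j => z j + b j) R y = VV z R y + VV b R y := by
      unfold VV; rw [← Finset.sum_add_distrib]; exact Finset.sum_congr rfl (fun j _ => by ring)
    have e3 : VV (fun j => z j + a j + b j) R y = VV z R y + VV a R y + VV b R y := by
      unfold VV; rw [← Finset.sum_add_distrib, ← Finset.sum_add_distrib]; exact Finset.sum_congr rfl (fun j _ => by ring)
    rw [VV_sub] at m1 m2 m3
    unfold PP at m1 m2 m3
    rw [← hAd, ← hBd] at m3
    rw [← hBd, ← hDd] at m1
    rw [← hCd, ← hDd] at m2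
    rw [e1] at m1 m3
    rw [e2] at m2
    rw [e3] at m3
    rw [hA.eq y, hB.eq y, hC.eq y, hD.eq y, e1, e2, e3]
    simp only [sub_zero]
    -- potentials at y
    set pa := VV z R y + VV a R y + VV b R y - pot A y with hpa
    set pb := VV z R y + VV a R y - pot B y with hpb
    set pc := VV z R y + VV b R y - pot C y with hpc
    set pd := VV z R y - pot D y with hpd
    have g1 : pd ≤ pb := by rw [hpd, hpb]; linarith
    have g2 : pd ≤ pc := by rw [hpd, hpc]; linarith
    have g3 : pb + pc ≤ pa + pd := by rw [hpa, hpb, hpc, hpd]; linarith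
    have h1 := be_incr (a := pd) (a' := pc) (D := pb - pd) g2 (by linarith)
    have h2 := be_mono (show pc + (pb - pd) ≤ pa by linarith)
    have e4 : pd + (pb - pd) = pb := by ring
    rw [e4] at h1
    linarith) x
  rw [add_zero, pot_sub n1 n2, pot_add hA.nice hD.nice, pot_add hB.nice hC.nice] at key
  unfold PP
  linarith

lemma VV_pair (z : Fin k → ℝ) (R : Fin k → E3) {ρ : E3 → ℝ} (h : Nice ρ) : ∫ x, VV z R x * ρ x = ∑ j, z j * pot ρ (R j) := by
  have e : (fun x : E3 => VV z R x * ρ x) = fun x => ∑ j, z j * (1 / ‖x - R j‖ * ρ x) := by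
    funext x
    unfold VV
    rw [Finset.sum_mul]
    exact Finset.sum_congr rfl (fun j _ => by ring)
  rw [e, integral_finsetSum _ (fun j _ => (ker_int h (R j)).1.const_mul _)]
  refine Finset.sum_congr rfl (fun j _ => ?_)
  rw [integral_const_mul, (ker_int h (R j)).2]

/-- neutral electronic energy -/
noncomputable def ee (R : Fin k → E3) (z : Fin k → ℝ) : ℝ := EF z R (rm z R)

/-- superdifferential inequality -/
theorem superdiff (hz : ∀ j, 0 ≤ z j) (hz' : ∀ j, 0 ≤ z' j) (R : Fin k → E3) :
    ee R z' ≤ ee R z - ∑ j, (z' j - z j) * PP R z (R j) := by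
  have h := rm_EL hz R
  have h1 := EF_min0 (rm_EL hz' R) (adm_of_nice h.nice h.nonneg)
  have h2 : EF z' R (rm z R) = EF z R (rm z R) - ∑ j, (z' j - z j) * PP R z (R j) := by
    unfold EF PP
    rw [VV_pair z' R h.nice, VV_pair z R h.nice]
    have : ∑ j, (z' j - z j) * pot (rm z R) (R j) = ∑ j, z' j * pot (rm z R) (R j) - ∑ j, z j * pot (rm z R) (R j) := by
      rw [← Finset.sum_sub_distrib]
      exact Finset.sum_congr rfl (fun j _ => by ring)
    rw [this]; ring
  rw [h2] at h1
  exact h1

/-- kinetic energy of the neutral molecule -/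
noncomputable def KK (R : Fin k → E3) (z : Fin k → ℝ) : ℝ := 3/5 * ∫ x, rm z R x ^ (5/3 : ℝ)

lemma KK_eq (hz : ∀ j, 0 ≤ z j) (R : Fin k → E3) : KK R z = 6 * ee R z + 3 * ∑ j, z j * PP R z (R j) := by
  have h := rm_EL hz R
  have n := h.nice
  have e1 : ∫ x, rm z R x ^ (5/3 : ℝ) = (∫ x, VV z R x * rm z R x) - ∫ x, rm z R x * pot (rm z R) x := by
    rw [← integral_sub (vint z R n) (TF_E1_int _ _ n.2.1 n)]
    congr 1
    funext x
    have r0 := h.nonneg x
    have hr : rm z R x ^ (2/3 : ℝ) = max (VV z R x - pot (rm z R) x) 0 := by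
      have := h.eq x
      rw [sub_zero] at this
      conv_lhs => rw [this]
      rw [be_pow]
    have hp : rm z R x ^ (5/3 : ℝ) = rm z R x * rm z R x ^ (2/3 : ℝ) := by
      rcases eq_or_lt_of_le r0 with h' | h'
      · rw [← h', Real.zero_rpow (by norm_num)]; simp
      · rw [mul_comm, ← Real.rpow_add_one h'.ne']; norm_num
    rw [hp, hr]
    rcases le_or_gt (VV z R x - pot (rm z R) x) 0 with hu | hu
    · have : rm z R x = 0 := by rw [h.eq x]; exact be_zero_of (by linarith)
      rw [this]; ring
    · rw [max_eq_left hu.le]; ring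
  have e2 := VV_pair z R n
  unfold KK ee EF PP
  rw [← e2]
  linarith

/-- only the `j`-th nucleus -/
noncomputable def sj (z : Fin k → ℝ) (j : Fin k) : Fin k → ℝ := Pi.single j (z j)

lemma sj_nonneg (hz : ∀ j, 0 ≤ z j) (j i : Fin k) : 0 ≤ sj z j i := by
  unfold sj
  rcases eq_or_ne i j with h | h
  · subst h; rw [Pi.single_eq_same]; exact hz i
  · rw [Pi.single_eq_of_ne h]

lemma sj_le (hz : ∀ j, 0 ≤ z j) (j i : Fin k) : sj z j i ≤ z i := by
  unfold sj
  rcases eq_or_ne i j with h | h
  · subst h; rw [Pi.single_eq_same]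
  · rw [Pi.single_eq_of_ne h]; exact hz i

lemma sj_same (z : Fin k → ℝ) (j : Fin k) : sj z j j = z j := by unfold sj; rw [Pi.single_eq_same]

lemma sj_sum (z : Fin k → ℝ) (j : Fin k) (f : Fin k → ℝ) : ∑ i, sj z j i * f i = z j * f j := by
  unfold sj
  rw [Finset.sum_eq_single j]
  · rw [Pi.single_eq_same]
  · intro i _ hi; rw [Pi.single_eq_of_ne hi, zero_mul]
  · intro h; exact absurd (Finset.mem_univ j) h

lemma U_pair (R : Fin k → E3) (z : Fin k → ℝ) : ∑ j, z j * VV z R (R j) = 2 * UU' z R := by
  have h := dsum (A := 0) (F := fun i j => z i * z j / ‖R i - R j‖) (fun i => by simp) (fun i j => by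
    rw [norm_sub_rev]; ring)
  unfold UU'
  rw [mul_zero, zero_add] at h
  rw [← h]
  refine Finset.sum_congr rfl (fun i _ => ?_)
  unfold VV
  rw [Finset.mul_sum]
  exact Finset.sum_congr rfl (fun j _ => by ring)

/-- the interaction part of the potential at the nucleus `j` -/
noncomputable def eta (R : Fin k → E3) (z : Fin k → ℝ) (j : Fin k) (t : ℝ) : ℝ :=
  t * VV z R (R j) - PP R (fun i => t * z i) (R j) + PP R (fun i => t * sj z j i) (R j)

lemma eta_nonneg (hR : Function.Injective R) (hz : ∀ j, 0 ≤ z j) (j : Fin k) : 0 ≤ eta R z j 1 := by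
  have h := phi_mono (z := sj z j) (z' := z) (sj_nonneg hz j) (sj_le hz j) R (x := R j) (fun i hi h => by
    have : j = i := hR h
    subst this
    rw [sj_same, sub_self] at hi
    exact hi rfl)
  rw [VV_sub] at h
  have e : VV (sj z j) R (R j) = 0 := by
    unfold VV
    refine Finset.sum_eq_zero (fun i _ => ?_)
    rcases eq_or_ne i j with h | h
    · subst h; simp
    · unfold sj; rw [Pi.single_eq_of_ne h, zero_div]
  rw [e] at h
  unfold eta
  simp only [one_mul]
  linarith

/-- concave sequences -/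
lemma conc_seq (q : ℕ → ℝ) (h : ∀ n, q (n + 2) - q (n + 1) ≤ q (n + 1) - q n) (n N : ℕ) (hn : n ≤ N) :
    (n:ℝ) * (q N - q 0) ≤ N * (q n - q 0) := by
  have hd : ∀ m n : ℕ, m ≤ n → q (n + 1) - q n ≤ q (m + 1) - q m := by
    intro m n hmn
    induction n, hmn using Nat.le_induction with
    | base => exact le_rfl
    | succ n _ ih => exact (h n).trans ih
  have h1 : ∀ n : ℕ, (n:ℝ) * (q (n + 1) - q n) ≤ q n - q 0 := by
    intro n
    induction n with
    | zero => simp
    | succ n ih =>
      have := h n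
      push_cast
      nlinarith [mul_le_mul_of_nonneg_left this (show (0:ℝ) ≤ (n:ℝ) by positivity)]
  induction N, hn using Nat.le_induction with
  | base => exact le_rfl
  | succ N hN ih =>
    have h2 := hd n N hN
    have h3 := h1 n
    have h4 := mul_le_mul_of_nonneg_left h2 (show (0:ℝ) ≤ (n:ℝ) by positivity)
    push_cast
    nlinarith

lemma eta_scale (hz : ∀ j, 0 ≤ z j) (j : Fin k) {n N : ℕ} (hN : 0 < N) (hn : n ≤ N) :
    (n:ℝ) / N * eta R z j 1 ≤ eta R z j ((n:ℝ) / N) := by
  have hN' : (0:ℝ) < N := by exact_mod_cast hN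
  have hnN : (n:ℝ) ≤ N := by exact_mod_cast hn
  set t : ℝ := (n:ℝ) / N with ht
  have ht0 : 0 ≤ t := by positivity
  have ht1 : t ≤ 1 := by rw [ht, div_le_one hN']; exact hnN
  have hs := sj_nonneg hz j
  have hb : ∀ i, 0 ≤ z i - sj z j i := fun i => sub_nonneg.2 (sj_le hz j i)
  -- step 1: change of the base
  have s1 := sub_mod (z := fun i => t * sj z j i) (a := fun i => (1 - t) * sj z j i) (b := fun i => t * (z i - sj z j i))
    (fun i => mul_nonneg ht0 (hs i)) (fun i => mul_nonneg (by linarith) (hs i)) (fun i => mul_nonneg ht0 (hb i)) R (R j)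
  have e1 : (fun i => t * sj z j i + (1 - t) * sj z j i) = fun i => sj z j i := by funext i; ring
  have e2 : (fun i => t * sj z j i + t * (z i - sj z j i)) = fun i => t * z i := by funext i; ring
  have e3 : (fun i => t * sj z j i + (1 - t) * sj z j i + t * (z i - sj z j i)) = fun i => sj z j i + t * (z i - sj z j i) := by
    funext i; ring
  rw [e1, e2, e3] at s1
  -- step 2: concavity along the remaining charges
  set q : ℕ → ℝ := fun m => - PP R (fun i => sj z j i + (m:ℝ) / N * (z i - sj z j i)) (R j) with hq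
  have hq2 : ∀ m, q (m + 2) - q (m + 1) ≤ q (m + 1) - q m := by
    intro m
    have s2 := sub_mod (z := fun i => sj z j i + (m:ℝ) / N * (z i - sj z j i)) (a := fun i => 1 / N * (z i - sj z j i))
      (b := fun i => 1 / N * (z i - sj z j i)) (fun i => add_nonneg (hs i) (mul_nonneg (by positivity) (hb i)))
      (fun i => mul_nonneg (by positivity) (hb i)) (fun i => mul_nonneg (by positivity) (hb i)) R (R j)
    have f1 : (fun i => sj z j i + (m:ℝ) / N * (z i - sj z j i) + 1 / N * (z i - sj z j i))
        = fun i => sj z j i + ((m + 1 : ℕ) : ℝ) / N * (z i - sj z j i) := by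
      funext i; push_cast; ring
    have f2 : (fun i => sj z j i + (m:ℝ) / N * (z i - sj z j i) + 1 / N * (z i - sj z j i) + 1 / N * (z i - sj z j i))
        = fun i => sj z j i + ((m + 2 : ℕ) : ℝ) / N * (z i - sj z j i) := by
      funext i; push_cast; ring
    rw [f1, f2] at s2
    simp only [hq]
    linarith
  have s3 := conc_seq q hq2 n N hn
  have q0 : q 0 = - PP R (sj z j) (R j) := by simp [hq]
  have qN : q N = - PP R z (R j) := by
    simp only [hq]
    have : (fun i => sj z j i + (N:ℝ) / N * (z i - sj z j i)) = z := by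
      funext i; rw [div_self hN'.ne']; ring
    rw [this]
  have qn : q n = - PP R (fun i => sj z j i + t * (z i - sj z j i)) (R j) := rfl
  rw [q0, qN, qn] at s3
  have s4 : t * (- PP R z (R j) - - PP R (sj z j) (R j)) ≤ - PP R (fun i => sj z j i + t * (z i - sj z j i)) (R j) - - PP R (sj z j) (R j) := by
    rw [ht, div_mul_eq_mul_div, div_le_iff₀ hN']
    linarith
  unfold eta
  simp only [one_mul]
  have e5 : (fun i => sj z j i) = sj z j := rfl
  rw [e5] at s1
  linarith

lemma rm_zero (R : Fin k → E3) : ∫ x, rm (fun _ => (0:ℝ)) R x = 0 := by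
  rw [rm_mass (fun _ => le_rfl) R]; simp

lemma ee_zero (R : Fin k → E3) : ee R (fun _ => 0) = 0 := by
  have h := rm_EL (z := fun _ : Fin k => (0:ℝ)) (fun _ => le_rfl) R
  exact EF_zero_of (adm_of_nice h.nice h.nonneg) (rm_zero R)

lemma PP_nonneg (hz : ∀ j, 0 ≤ z j) (x : E3) : 0 ≤ PP R z x := pot_nonneg (rm_EL hz R).nonneg x

lemma UU_scale (z : Fin k → ℝ) (R : Fin k → E3) (t : ℝ) : UU' (fun i => t * z i) R = t ^ 2 * UU' z R := by
  unfold UU'
  rw [Finset.mul_sum]
  refine Finset.sum_congr rfl (fun i _ => ?_)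
  rw [Finset.mul_sum]
  exact Finset.sum_congr rfl (fun j _ => by ring)

/-- the interaction energy of the atoms is at least half of the weighted interaction potentials -/
theorem half_bound (hR : Function.Injective R) (hz : ∀ j, 0 ≤ z j) :
    1/2 * ∑ j, z j * eta R z j 1 ≤ ee R z + UU' z R - ∑ j, ee R (sj z j) := by
  set U := UU' z R with hU
  set Q := ∑ j, z j * eta R z j 1 with hQ
  set B := ∑ j, z j * PP R (sj z j) (R j) with hB
  have hU2 := U_pair R z
  have key : ∀ N : ℕ, 0 < N → (1/2 + 1 / (2 * N)) * Q - (1 / N) * (U + B) ≤ ee R z + U - ∑ j, ee R (sj z j) := by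
    intro N hN
    have hN' : (0:ℝ) < N := by exact_mod_cast hN
    set t : ℕ → ℝ := fun n => (n:ℝ) / N with ht
    have ht0 : ∀ n, 0 ≤ t n := fun n => by simp only [ht]; positivity
    have hts : ∀ n, t (n + 1) - t n = 1 / N := fun n => by simp only [ht]; push_cast; ring
    set D : ℕ → ℝ := fun n => ee R (fun i => t n * z i) + t n ^ 2 * U - ∑ j, ee R (fun i => t n * sj z j i) with hD
    have hstep : ∀ n, n < N → 1 / N * (t (n + 1) * Q) - (1 / N) ^ 2 * U
        - 1 / N * ∑ j, z j * (PP R (fun i => t (n + 1) * sj z j i) (R j) - PP R (fun i => t n * sj z j i) (R j)) ≤ D (n + 1) - D n := by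
      intro n hn
      have a1 := superdiff (z := fun i => t (n + 1) * z i) (z' := fun i => t n * z i) (fun i => mul_nonneg (ht0 _) (hz i))
        (fun i => mul_nonneg (ht0 _) (hz i)) R
      have a2 : ∀ j, ee R (fun i => t (n + 1) * sj z j i) ≤ ee R (fun i => t n * sj z j i) - 1 / N * (z j * PP R (fun i => t n * sj z j i) (R j)) := by
        intro j
        have := superdiff (z := fun i => t n * sj z j i) (z' := fun i => t (n + 1) * sj z j i) (fun i => mul_nonneg (ht0 _) (sj_nonneg hz j i))
          (fun i => mul_nonneg (ht0 _) (sj_nonneg hz j i)) R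
        have e : ∑ i, (t (n + 1) * sj z j i - t n * sj z j i) * PP R (fun i => t n * sj z j i) (R i) = 1 / N * (z j * PP R (fun i => t n * sj z j i) (R j)) := by
          rw [← sj_sum z j (fun i => PP R (fun i => t n * sj z j i) (R i)), Finset.mul_sum]
          refine Finset.sum_congr rfl (fun i _ => ?_)
          rw [← hts n]; ring
        rw [e] at this
        exact this
      have e1 : ∑ j, (t n * z j - t (n + 1) * z j) * PP R (fun i => t (n + 1) * z i) (R j)
          = - (1 / N * ∑ j, z j * PP R (fun i => t (n + 1) * z i) (R j)) := by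
        rw [Finset.mul_sum, ← Finset.sum_neg_distrib]
        refine Finset.sum_congr rfl (fun j _ => ?_)
        rw [← hts n]; ring
      rw [e1] at a1
      have a3 : ∑ j, ee R (fun i => t (n + 1) * sj z j i) ≤ (∑ j, ee R (fun i => t n * sj z j i)) - 1 / N * ∑ j, z j * PP R (fun i => t n * sj z j i) (R j) := by
        rw [Finset.mul_sum, ← Finset.sum_sub_distrib]
        exact Finset.sum_le_sum (fun j _ => a2 j)
      -- scaling of eta
      have a4 : t (n + 1) * Q ≤ ∑ j, z j * eta R z j (t (n + 1)) := by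
        rw [hQ, Finset.mul_sum]
        refine Finset.sum_le_sum (fun j _ => ?_)
        have := mul_le_mul_of_nonneg_left (eta_scale (R := R) hz j hN (show n + 1 ≤ N from hn)) (hz j)
        have e : t (n + 1) = ((n + 1 : ℕ) : ℝ) / N := rfl
        rw [e]
        linarith
      have a5 : ∑ j, z j * eta R z j (t (n + 1)) = t (n + 1) * (2 * U) - (∑ j, z j * PP R (fun i => t (n + 1) * z i) (R j))
          + ∑ j, z j * PP R (fun i => t (n + 1) * sj z j i) (R j) := by
        rw [← hU2, Finset.mul_sum, ← Finset.sum_sub_distrib, ← Finset.sum_add_distrib]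
        refine Finset.sum_congr rfl (fun j _ => ?_)
        unfold eta; ring
      have a6 : ∑ j, z j * (PP R (fun i => t (n + 1) * sj z j i) (R j) - PP R (fun i => t n * sj z j i) (R j))
          = (∑ j, z j * PP R (fun i => t (n + 1) * sj z j i) (R j)) - ∑ j, z j * PP R (fun i => t n * sj z j i) (R j) := by
        rw [← Finset.sum_sub_distrib]
        exact Finset.sum_congr rfl (fun j _ => by ring)
      have a7 : 1 / N * (t (n + 1) * Q) ≤ 1 / N * ∑ j, z j * eta R z j (t (n + 1)) := mul_le_mul_of_nonneg_left a4 (by positivity)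
      rw [a5] at a7
      rw [a6]
      have hsq : t (n + 1) ^ 2 = t n ^ 2 + 2 * t (n + 1) * (1 / N) - (1 / N) ^ 2 := by
        have := hts n
        have e : t n = t (n + 1) - 1 / N := by linarith
        rw [e]; ring
      simp only [hD]
      rw [hsq]
      nlinarith
    have hsum : ∀ m, m ≤ N → (1 / (N:ℝ)) ^ 2 * ((m:ℝ) * (m + 1) / 2) * Q - m * ((1 / (N:ℝ)) ^ 2 * U)
        - 1 / N * ((∑ j, z j * PP R (fun i => t m * sj z j i) (R j)) - ∑ j, z j * PP R (fun i => t 0 * sj z j i) (R j)) ≤ D m - D 0 := by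
      intro m
      induction m with
      | zero => intro _; simp
      | succ m ih =>
        intro hm
        have i1 := ih (by omega)
        have i2 := hstep m (by omega)
        have a6 : ∑ j, z j * (PP R (fun i => t (m + 1) * sj z j i) (R j) - PP R (fun i => t m * sj z j i) (R j))
            = (∑ j, z j * PP R (fun i => t (m + 1) * sj z j i) (R j)) - ∑ j, z j * PP R (fun i => t m * sj z j i) (R j) := by
          rw [← Finset.sum_sub_distrib]
          exact Finset.sum_congr rfl (fun j _ => by ring)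
        rw [a6] at i2
        have e : t (m + 1) = ((m:ℝ) + 1) * (1 / N) := by simp only [ht]; push_cast; ring
        have e' : 1 / (N:ℝ) * (t (m + 1) * Q) = (1 / (N:ℝ)) ^ 2 * ((m:ℝ) + 1) * Q := by rw [e]; ring
        rw [e'] at i2
        push_cast
        nlinarith
    have hfin := hsum N le_rfl
    have tN : t N = 1 := by simp only [ht]; exact div_self hN'.ne'
    have t0 : t 0 = 0 := by simp [ht]
    have D0 : D 0 = 0 := by
      simp only [hD]
      rw [t0]
      simp only [zero_mul]
      rw [ee_zero]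
      simp
    have DN : D N = ee R z + U - ∑ j, ee R (sj z j) := by
      simp only [hD]
      rw [tN]
      simp
    rw [D0, DN, tN] at hfin
    simp only [one_mul, sub_zero] at hfin
    have hP0 : 0 ≤ ∑ j, z j * PP R (fun i => t 0 * sj z j i) (R j) :=
      Finset.sum_nonneg (fun j _ => mul_nonneg (hz j) (PP_nonneg (fun i => mul_nonneg (ht0 0) (sj_nonneg hz j i)) _))
    have e1 : (1 / (N:ℝ)) ^ 2 * ((N:ℝ) * (N + 1) / 2) * Q = (1/2 + 1 / (2 * N)) * Q := by field_simp
    have e2 : (N:ℝ) * ((1 / (N:ℝ)) ^ 2 * U) = 1 / N * U := by field_simp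
    rw [e1, e2] at hfin
    have h1 : 0 ≤ 1 / (N:ℝ) * ∑ j, z j * PP R (fun i => t 0 * sj z j i) (R j) := mul_nonneg (by positivity) hP0
    have h2 : ∑ j, z j * PP R (fun i => sj z j i) (R j) = B := rfl
    rw [h2] at hfin
    linarith
  have hlim : Tendsto (fun N : ℕ => (1/2 + 1 / (2 * (N:ℝ))) * Q - (1 / (N:ℝ)) * (U + B)) atTop (𝓝 ((1/2 + 0) * Q - 0 * (U + B))) := by
    have l1 : Tendsto (fun N : ℕ => 1 / (N:ℝ)) atTop (𝓝 0) := tendsto_one_div_atTop_nhds_zero_nat
    have l2 : Tendsto (fun N : ℕ => 1 / (2 * (N:ℝ))) atTop (𝓝 0) := by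
      have := l1.const_mul (1/2)
      rw [mul_zero] at this
      refine this.congr (fun N => ?_)
      rw [one_div_mul_one_div]
    exact ((tendsto_const_nhds.add l2).mul_const Q).sub (l1.mul_const _)
  have := le_of_tendsto hlim (b := ee R z + U - ∑ j, ee R (sj z j)) (by
    filter_upwards [eventually_gt_atTop 0] with N hN using key N hN)
  linarith

end Pool.Agent.Q233.TFTeller
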