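import Pool.Agent.Q233.TFSom
import Pool.Agent.Q233.TFTeller

/-!
# Interaction of distant neutral molecules (`γ = 1`): the two-sided `l⁻⁷` law
-/

set_option autoImplicit false
open MeasureTheory Set Filter Topology Metric
open scoped RealInnerProductSpace BigOperators ENNReal
open Pool.Agent.Helper557 Pool.Agent.Helper557.TFP
open Pool.Agent.H9R2.TF Pool.Agent.Q233.TFShell Pool.Agent.Q233.TFAtom Pool.Agent.Q233.TFSat
  Pool.Agent.Q233.TFSup Pool.Agent.Q233.TFCmp Pool.Agent.Q233.TFMol Pool.Agent.Q233.TFIon Pool.Agent.Q233.TFDil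
  Pool.Agent.Q233.TFMono Pool.Agent.Q233.TFSom Pool.Agent.Q233.TFTeller

namespace Pool.Agent.Q233.TFFar

variable {k n : ℕ} {z z' : Fin k → ℝ} {R : Fin k → E3}

lemma PP_zero (R : Fin k → E3) (x : E3) : PP R (fun _ => 0) x = 0 := by
  have h := rm_EL (z := fun _ : Fin k => (0:ℝ)) (fun _ => le_rfl) R
  have h0 : rm (fun _ : Fin k => (0:ℝ)) R = fun _ => 0 := by
    funext y
    rw [h.eq y, be_zero_of]
    have : VV (fun _ : Fin k => (0:ℝ)) R y = 0 := by simp [VV]
    rw [this]
    have := pot_nonneg h.nonneg y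
    linarith
  unfold PP
  rw [h0, pot_zero]

/-- the neutral atom inside the library of molecules -/
lemma atom_phi (R : Fin k → E3) (i : Fin k) {ζ : ℝ} (hζ : 0 ≤ ζ) (x : E3) :
    VV (Pi.single i ζ) R x - PP R (Pi.single i ζ) x = pa ζ (x - R i) := by
  have hs : ∀ j, 0 ≤ (Pi.single i ζ : Fin k → ℝ) j := by
    intro j
    rcases eq_or_ne j i with h | h
    · subst h; rw [Pi.single_eq_same]; exact hζ
    · rw [Pi.single_eq_of_ne h]
  have hV : ∀ x, VV (Pi.single i ζ) R x = ζ / ‖x - R i‖ := by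
    intro x
    unfold VV
    rw [Finset.sum_eq_single i]
    · rw [Pi.single_eq_same]
    · intro j _ hj; rw [Pi.single_eq_of_ne hj, zero_div]
    · intro h; exact absurd (Finset.mem_univ i) h
  have hEL : ELs (Pi.single i ζ) R 0 (fun x => ra ζ (x - R i)) := by
    refine ⟨nice_shift (ra_nice hζ) (R i), fun x => ?_⟩
    rw [hV, pot_shift, sub_zero, ra_eq hζ]; rfl
  have := EL_unique (rm_EL hs R) hEL
  unfold PP
  rw [this, hV, pot_shift]; rfl

lemma be_conv {a w : ℝ} (ha : 0 ≤ a) (hw : 0 ≤ w) : 3/2 * √a * w ≤ be (a + w) - be a := by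
  rw [be_mul_sqrt (add_nonneg ha hw), be_mul_sqrt ha]
  set s := √a with hs
  set t := √(a + w) with ht
  have e1 : a = s ^ 2 := (Real.sq_sqrt ha).symm
  have e2 : a + w = t ^ 2 := (Real.sq_sqrt (add_nonneg ha hw)).symm
  have s0 : 0 ≤ s := Real.sqrt_nonneg _
  have t0 : 0 ≤ t := Real.sqrt_nonneg _
  have e3 : w = t ^ 2 - s ^ 2 := by linarith
  rw [e2]
  have e4 : s * a = s * s ^ 2 := by rw [← e1]
  rw [e4, e3]
  nlinarith [mul_nonneg (sq_nonneg (t - s)) (add_nonneg t0 (mul_nonneg (by norm_num : (0:ℝ) ≤ 1/2) s0))]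

/-- difference of the potentials of a molecule and of a part of it -/
noncomputable def ww (R : Fin k → E3) (z zm : Fin k → ℝ) (x : E3) : ℝ := VV (fun j => z j - zm j) R x + (PP R zm x - PP R z x)

lemma ww_nonneg {zm : Fin k → ℝ} (hm : ∀ j, 0 ≤ zm j) (hle : ∀ j, zm j ≤ z j) (R : Fin k → E3) {x : E3}
    (hx : ∀ j, z j - zm j ≠ 0 → x ≠ R j) : 0 ≤ ww R z zm x := phi_mono hm hle R hx

/-- bound by the Sommerfeld potentials of the other nuclei -/
lemma ww_le {zm : Fin k → ℝ} (hm : ∀ j, 0 ≤ zm j) (hle : ∀ j, zm j ≤ z j) (R : Fin k → E3) {δ : ℝ} (hδ : 0 < δ) {x : E3}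
    (hx : ∀ j, z j - zm j ≠ 0 → δ ≤ ‖x - R j‖) : ww R z zm x ≤ k * (δ ^ 4)⁻¹ := by
  have hb : ∀ j, 0 ≤ z j - zm j := fun j => sub_nonneg.2 (hle j)
  have s1 := sub_mod (z := fun _ => (0:ℝ)) (a := zm) (b := fun j => z j - zm j) (fun _ => le_rfl) hm hb R x
  have e1 : (fun j => (0:ℝ) + zm j) = zm := by funext j; ring
  have e2 : (fun j => (0:ℝ) + (z j - zm j)) = fun j => z j - zm j := by funext j; ring
  have e3 : (fun j => (0:ℝ) + zm j + (z j - zm j)) = z := by funext j; ring
  rw [e1, e2, e3, PP_zero] at s1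
  have s2 := rm_le hb R x
  have s3 : SS (fun j => z j - zm j) R x ≤ ∑ _j : Fin k, (δ ^ 4)⁻¹ := by
    refine Finset.sum_le_sum (fun j _ => ?_)
    simp only
    rcases eq_or_ne (z j - zm j) 0 with h | h
    · rw [h, pa_zero]; positivity
    · have h1 := hx j h
      have h2 : x - R j ≠ 0 := by rw [← norm_pos_iff]; exact hδ.trans_le h1
      exact (pa_le (hb j) h2).trans (inv_anti₀ (by positivity) (pow_le_pow_left₀ hδ.le h1 4))
  rw [Finset.sum_const, Finset.card_univ, Fintype.card_fin, nsmul_eq_mul] at s3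
  unfold ww PP
  unfold PP at s1
  linarith

/-- **interior decay of the interaction potential** -/
theorem ww_decay {r0 : ℝ} (h0 : 0 < r0) (hlow : ∀ r, r0 ≤ r → kS * (r ^ 4)⁻¹ ≤ f0 r) {zm : Fin k → ℝ}
    (hm : ∀ j, 0 ≤ zm j) (hle : ∀ j, zm j ≤ z j) (R : Fin k → E3) {i : Fin k} (hi : 0 < zm i) (hi' : z i = zm i)
    {L δ : ℝ} (hL : 0 < L) (hδ : 0 < δ)
    (hx : ∀ x : E3, ‖x - R i‖ ≤ L → ∀ j, z j - zm j ≠ 0 → δ ≤ ‖x - R j‖) :
    ww R z zm (R i) ≤ k * (δ ^ 4)⁻¹ * (uu (r0 / cb (zm i)) 0 / uu (r0 / cb (zm i)) L) ^ 7 := by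
  have hpi := Real.pi_pos
  set p := r0 / cb (zm i) with hp'
  have hp : 0 < p := div_pos h0 (cb_pos hi)
  have hz : ∀ j, 0 ≤ z j := fun j => (hm j).trans (hle j)
  have hEL := rm_EL hz R
  have hELm := rm_EL hm R
  set B : ℝ := k * (δ ^ 4)⁻¹ with hB
  have hB0 : 0 ≤ B := by rw [hB]; positivity
  have huL := uu_pos hp L
  set A : ℝ := B / uu p L ^ 7 with hA
  have hA0 : 0 ≤ A := div_nonneg hB0 (by positivity)
  set G : E3 → ℝ := fun x => (Iio L).indicator (gg' p) ‖x‖ with hG
  have nG : Nice (fun x => A * G (x - R i)) := nice_smul (nice_shift (barrier_nice hp hL) (R i)) A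
  set ν : E3 → ℝ := fun x => (rm z R x - rm zm R x) - A * G (x - R i) with hν
  have n1 : Nice (fun x => rm z R x - rm zm R x) := nice_sub' hEL.nice hELm.nice
  have nν : Nice ν := nice_sub' n1 nG
  set c : Fin k → ℝ := fun j => zm j - z j with hc
  set C0 : ℝ := A * (L * (7/2 * (L * uu p L ^ 3)) + uu p L ^ 7) with hC0
  have hC00 : 0 ≤ C0 := by positivity
  have hVc : ∀ x, VV c R x = - VV (fun j => z j - zm j) R x := by
    intro x
    unfold VV
    rw [← Finset.sum_neg_distrib]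
    exact Finset.sum_congr rfl (fun j _ => by simp only [hc]; ring)
  have hval : ∀ x : E3, ‖x - R i‖ ≤ L → VV c R x + pot ν x + C0 = A * uu p ‖x - R i‖ ^ 7 - ww R z zm x := by
    intro x hxL
    have e1 : pot (fun x => A * G (x - R i)) x = A * (L * (7/2 * (L * uu p L ^ 3)) + uu p L ^ 7 - uu p ‖x - R i‖ ^ 7) := by
      rw [psm, pot_shift, hG, barrier_pot hp hL hxL]
    rw [hν, pot_sub n1 nG, pot_sub hEL.nice hELm.nice, e1, hVc, hC0]
    unfold ww PP
    ring
  have hnuc : ∀ x : E3, ‖x - R i‖ ≤ L → ∀ j, z j - zm j ≠ 0 → x ≠ R j := by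
    intro x hxL j hj h
    have := hx x hxL j hj
    rw [h, sub_self, norm_zero] at this
    linarith
  have key := cmp_domC c R nν (Ω := ball (R i) L) (F := closedBall (R i) L) hC00 isOpen_ball isClosed_closedBall ball_subset_closedBall
    (fun j => by
      rcases eq_or_ne (z j - zm j) 0 with h | h
      · left; simp only [hc]; linarith
      · right
        intro hj
        rw [mem_closedBall, dist_eq_norm] at hj
        exact hnuc _ hj j h rfl)
    (fun x hxF hxΩ _ => by
      rw [mem_closedBall, dist_eq_norm] at hxF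
      rw [mem_ball, dist_eq_norm, not_lt] at hxΩ
      have h1 : ‖x - R i‖ = L := le_antisymm hxF hxΩ
      rw [hval x hxF, h1]
      have h2 := ww_le hm hle R hδ (hx x hxF)
      have h3 : A * uu p L ^ 7 = B := by rw [hA]; field_simp
      rw [h3]; linarith)
    (by
      filter_upwards [ae_nuc R] with y hy hyΩ hlt
      rw [mem_ball, dist_eq_norm] at hyΩ
      rw [hval y hyΩ.le] at hlt
      simp only [hν, hG]
      rw [indicator_of_mem (by exact hyΩ)]
      set r := ‖y - R i‖ with hr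
      have hu := uu_pos hp r
      have hu4 := uu_four hp r
      have hyi : y - R i ≠ 0 := sub_ne_zero.2 (hy i)
      -- lower bound for the inner potential
      have hsle : ∀ j, (Pi.single i (zm i) : Fin k → ℝ) j ≤ zm j := by
        intro j
        rcases eq_or_ne j i with h | h
        · subst h; rw [Pi.single_eq_same]
        · rw [Pi.single_eq_of_ne h]; exact hm j
      have hs0 : ∀ j, 0 ≤ (Pi.single i (zm i) : Fin k → ℝ) j := by
        intro j
        rcases eq_or_ne j i with h | h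
        · subst h; rw [Pi.single_eq_same]; exact hm j
        · rw [Pi.single_eq_of_ne h]
      have m1 := phi_mono hs0 hsle R (x := y) (fun j _ => hy j)
      rw [VV_sub] at m1
      have m2 := atom_phi R i (hm i) y
      have m3 := pa_low h0 hlow hi hyi
      have hφm : kS * ((r ^ 2 + p ^ 2) ^ 2)⁻¹ ≤ VV zm R y - PP R zm y := by linarith
      have hsq : 27 / (10 * Real.pi) * (r ^ 2 + p ^ 2)⁻¹ ≤ √(VV zm R y - PP R zm y) := by
        apply Real.le_sqrt_of_sq_le
        refine le_trans (le_of_eq ?_) hφm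
        unfold kS
        rw [mul_pow, inv_pow]
      have hφ0 : 0 ≤ VV zm R y - PP R zm y := le_trans (by have := kS_pos; positivity) hφm
      have hw : A * uu p r ^ 7 < ww R z zm y := by linarith
      have hw0 : 0 ≤ ww R z zm y := le_trans (by positivity) hw.le
      have hrz : rm z R y = be ((VV zm R y - PP R zm y) + ww R z zm y) := by
        rw [hEL.eq y, sub_zero]
        congr 1
        unfold ww
        rw [VV_sub]
        unfold PP
        ring
      have hrm : rm zm R y = be (VV zm R y - PP R zm y) := by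
        rw [hELm.eq y, sub_zero]; rfl
      rw [hrz, hrm]
      have hconv := be_conv hφ0 hw0
      have hg : A * gg' p r ≤ 3/2 * √(VV zm R y - PP R zm y) * ww R z zm y := by
        have h1 : 3/2 * (27 / (10 * Real.pi) * (r ^ 2 + p ^ 2)⁻¹) * (A * uu p r ^ 7) ≤ 3/2 * √(VV zm R y - PP R zm y) * ww R z zm y := by
          apply mul_le_mul _ hw.le (by positivity) (by positivity)
          linarith
        refine le_trans ?_ h1
        rw [← hu4]
        unfold gg'
        have h2 : 3/2 * r ^ 2 + p ^ 2 ≤ 3/2 * uu p r ^ 4 := by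
          rw [hu4]; nlinarith [sq_nonneg p]
        have h3 : 21 / (8 * Real.pi) * ((3/2 * r ^ 2 + p ^ 2) / uu p r) ≤ 21 / (8 * Real.pi) * (3/2 * uu p r ^ 3) := by
          apply mul_le_mul_of_nonneg_left _ (by positivity)
          rw [div_le_iff₀ hu]
          linarith
        have h4 : 21 / (8 * Real.pi) * (3/2 * uu p r ^ 3) ≤ 3/2 * (27 / (10 * Real.pi)) * uu p r ^ 3 := by
          have e5 : 21 / (8 * Real.pi) * (3/2 * uu p r ^ 3) = (63/16) * (uu p r ^ 3 / Real.pi) := by field_simp; norm_num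
          have e6 : 3/2 * (27 / (10 * Real.pi)) * uu p r ^ 3 = (81/20) * (uu p r ^ 3 / Real.pi) := by field_simp; norm_num
          rw [e5, e6]
          apply mul_le_mul_of_nonneg_right (by norm_num) (by positivity)
        calc A * (21 / (8 * Real.pi) * ((3/2 * r ^ 2 + p ^ 2) / uu p r)) ≤ A * (3/2 * (27 / (10 * Real.pi)) * uu p r ^ 3) :=
              mul_le_mul_of_nonneg_left (h3.trans h4) hA0
          _ = 3/2 * (27 / (10 * Real.pi) * (uu p r ^ 4)⁻¹) * (A * uu p r ^ 7) := by field_simp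
      linarith)
  have h1 := key (R i) (mem_ball_self hL) (fun j hj => by
    apply hnuc (R i) (by rw [sub_self, norm_zero]; exact hL.le) j
    intro h
    apply hj
    simp only [hc]; linarith)
  rw [hval (R i) (by rw [sub_self, norm_zero]; exact hL.le), sub_self, norm_zero] at h1
  have e : A * uu p 0 ^ 7 = B * (uu p 0 / uu p L) ^ 7 := by rw [hA, div_pow]; ring
  rw [e] at h1
  linarith

/-! ### the interaction energy of labelled groups -/

/-- charges of the group `m` -/
def zg (g : Fin k → Fin n) (z : Fin k → ℝ) (m : Fin n) (i : Fin k) : ℝ := if g i = m then z i else 0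

lemma zg_nonneg (g : Fin k → Fin n) (hz : ∀ j, 0 ≤ z j) (m : Fin n) (j : Fin k) : 0 ≤ zg g z m j := by
  unfold zg; split_ifs; exacts [hz j, le_rfl]

lemma zg_le (g : Fin k → Fin n) (hz : ∀ j, 0 ≤ z j) (m : Fin n) (j : Fin k) : zg g z m j ≤ z j := by
  unfold zg; split_ifs; exacts [le_rfl, hz j]

/-- interaction energy -/
noncomputable def dd (R : Fin k → E3) (g : Fin k → Fin n) (z : Fin k → ℝ) : ℝ :=
  (ee R z + UU' z R) - ∑ m, (ee R (zg g z m) + UU' (zg g z m) R)

/-- cross interaction of charges -/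
noncomputable def TT (R : Fin k → E3) (g : Fin k → Fin n) (z v : Fin k → ℝ) : ℝ :=
  ∑ i, v i * VV (fun j => z j - zg g z (g i) j) R (R i)

lemma TT_eq (R : Fin k → E3) (g : Fin k → Fin n) (z v : Fin k → ℝ) :
    TT R g z v = ∑ i, ∑ j, v i * z j * (if g j = g i then 0 else 1 / ‖R i - R j‖) := by
  unfold TT VV zg
  refine Finset.sum_congr rfl (fun i _ => ?_)
  rw [Finset.mul_sum]
  refine Finset.sum_congr rfl (fun j _ => ?_)
  by_cases h : g j = g i
  · simp only [if_pos h]; simp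
  · simp only [if_neg h]; ring

lemma TT_symm (R : Fin k → E3) (g : Fin k → Fin n) (z v : Fin k → ℝ) : TT R g z v = TT R g v z := by
  rw [TT_eq, TT_eq, Finset.sum_comm]
  refine Finset.sum_congr rfl (fun i _ => Finset.sum_congr rfl (fun j _ => ?_))
  rw [norm_sub_rev]
  by_cases h : g i = g j
  · rw [if_pos h, if_pos h.symm]; ring
  · rw [if_neg h, if_neg (fun h' => h h'.symm)]; ring

lemma TT_lin (R : Fin k → E3) (g : Fin k → Fin n) (z w v : Fin k → ℝ) (t : ℝ) :
    TT R g (fun j => z j + t * w j) v = TT R g z v + t * TT R g w v := by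
  rw [TT_eq, TT_eq, TT_eq, Finset.mul_sum, ← Finset.sum_add_distrib]
  refine Finset.sum_congr rfl (fun i _ => ?_)
  rw [Finset.mul_sum, ← Finset.sum_add_distrib]
  exact Finset.sum_congr rfl (fun j _ => by ring)

lemma TT_nonneg (R : Fin k → E3) (g : Fin k → Fin n) {v : Fin k → ℝ} (hz : ∀ j, 0 ≤ z j) (hv : ∀ j, 0 ≤ v j) : 0 ≤ TT R g z v := by
  rw [TT_eq]
  refine Finset.sum_nonneg (fun i _ => Finset.sum_nonneg (fun j _ => ?_))
  have := mul_nonneg (hv i) (hz j)
  split_ifs
  · simp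
  · positivity

lemma UU_TT (R : Fin k → E3) (g : Fin k → Fin n) (z : Fin k → ℝ) :
    UU' z R - ∑ m, UU' (zg g z m) R = 1/2 * TT R g z z := by
  have h1 := U_pair R z
  have h2 : ∀ m, ∑ j, zg g z m j * VV (zg g z m) R (R j) = 2 * UU' (zg g z m) R := fun m => U_pair R (zg g z m)
  have h3 : ∑ m, ∑ j, zg g z m j * VV (zg g z m) R (R j) = ∑ j, z j * VV (zg g z (g j)) R (R j) := by
    rw [Finset.sum_comm]
    refine Finset.sum_congr rfl (fun j _ => ?_)
    rw [Finset.sum_eq_single (g j)]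
    · unfold zg; rw [if_pos rfl]
    · intro m _ hm
      have : zg g z m j = 0 := by unfold zg; rw [if_neg (Ne.symm hm)]
      rw [this, zero_mul]
    · intro h; exact absurd (Finset.mem_univ _) h
  have h4 : TT R g z z = ∑ j, z j * VV z R (R j) - ∑ j, z j * VV (zg g z (g j)) R (R j) := by
    unfold TT
    rw [← Finset.sum_sub_distrib]
    refine Finset.sum_congr rfl (fun j _ => ?_)
    rw [VV_sub]; ring
  rw [h4, ← h3, h1, Finset.sum_congr rfl (fun m _ => h2 m), ← Finset.mul_sum]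
  ring

lemma dd_eq (R : Fin k → E3) (g : Fin k → Fin n) (z : Fin k → ℝ) :
    dd R g z = ee R z - ∑ m, ee R (zg g z m) + 1/2 * TT R g z z := by
  rw [← UU_TT]
  unfold dd
  rw [Finset.sum_add_distrib]; ring

/-- group part of the electronic potentials -/
noncomputable def AA (R : Fin k → E3) (g : Fin k → Fin n) (z v : Fin k → ℝ) : ℝ := ∑ i, v i * PP R (zg g z (g i)) (R i)

/-- interaction potentials, integrated -/
noncomputable def WW (R : Fin k → E3) (g : Fin k → Fin n) (z v : Fin k → ℝ) : ℝ := ∑ i, v i * ww R z (zg g z (g i)) (R i)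

lemma WW_eq (R : Fin k → E3) (g : Fin k → Fin n) (z v : Fin k → ℝ) :
    WW R g z v = TT R g z v - ∑ i, v i * PP R z (R i) + AA R g z v := by
  unfold WW TT AA ww
  rw [← Finset.sum_sub_distrib, ← Finset.sum_add_distrib]
  exact Finset.sum_congr rfl (fun i _ => by ring)

lemma group_sum (g : Fin k → Fin n) (v : Fin k → ℝ) (F : Fin n → Fin k → ℝ) :
    ∑ m, ∑ i, zg g v m i * F m i = ∑ i, v i * F (g i) i := by
  rw [Finset.sum_comm]
  refine Finset.sum_congr rfl (fun j _ => ?_)
  rw [Finset.sum_eq_single (g j)]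
  · unfold zg; rw [if_pos rfl]
  · intro m _ hm
    have : zg g v m j = 0 := by unfold zg; rw [if_neg (Ne.symm hm)]
    rw [this, zero_mul]
  · intro h; exact absurd (Finset.mem_univ _) h

lemma zg_add (g : Fin k → Fin n) (z v : Fin k → ℝ) (h : ℝ) (m : Fin n) (i : Fin k) :
    zg g (fun j => z j + h * v j) m i - zg g z m i = h * zg g v m i := by
  unfold zg; split_ifs <;> ring

/-- one step, both directions -/
lemma dd_step (R : Fin k → E3) (g : Fin k → Fin n) {v : Fin k → ℝ} (hz : ∀ j, 0 ≤ z j) (hv : ∀ j, 0 ≤ v j) {h : ℝ} (hh : 0 ≤ h) :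
    dd R g (fun j => z j + h * v j) - dd R g z ≤ h * WW R g z v + h * (AA R g (fun j => z j + h * v j) v - AA R g z v) + h ^ 2 * (1/2 * TT R g v v)
    ∧ h * WW R g (fun j => z j + h * v j) v - h * (AA R g (fun j => z j + h * v j) v - AA R g z v) - h ^ 2 * (1/2 * TT R g v v)
      ≤ dd R g (fun j => z j + h * v j) - dd R g z := by
  set y : Fin k → ℝ := fun j => z j + h * v j with hy
  have hy0 : ∀ j, 0 ≤ y j := fun j => add_nonneg (hz j) (mul_nonneg hh (hv j))
  have e1 : ∀ F : Fin k → ℝ, ∑ j, (y j - z j) * F j = h * ∑ j, v j * F j := by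
    intro F
    rw [Finset.mul_sum]
    exact Finset.sum_congr rfl (fun j _ => by simp only [hy]; ring)
  have e2 : ∀ F : Fin k → ℝ, ∑ j, (z j - y j) * F j = - (h * ∑ j, v j * F j) := by
    intro F
    rw [Finset.mul_sum, ← Finset.sum_neg_distrib]
    exact Finset.sum_congr rfl (fun j _ => by simp only [hy]; ring)
  have s1 := superdiff hz hy0 R
  have s2 := superdiff hy0 hz R
  rw [e1] at s1
  rw [e2] at s2
  have g1 : ∑ m, ee R (zg g y m) ≤ ∑ m, ee R (zg g z m) - h * AA R g z v := by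
    have : ∀ m, ee R (zg g y m) ≤ ee R (zg g z m) - h * ∑ i, zg g v m i * PP R (zg g z m) (R i) := by
      intro m
      have := superdiff (zg_nonneg g hz m) (zg_nonneg g hy0 m) R
      have e : ∑ j, (zg g y m j - zg g z m j) * PP R (zg g z m) (R j) = h * ∑ i, zg g v m i * PP R (zg g z m) (R i) := by
        rw [Finset.mul_sum]
        refine Finset.sum_congr rfl (fun j _ => ?_)
        rw [hy, zg_add]; ring
      rwa [e] at this
    refine (Finset.sum_le_sum (fun m _ => this m)).trans (le_of_eq ?_)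
    rw [Finset.sum_sub_distrib, ← Finset.mul_sum, group_sum g v (fun m i => PP R (zg g z m) (R i))]
    rfl
  have g2 : ∑ m, ee R (zg g z m) ≤ ∑ m, ee R (zg g y m) + h * AA R g y v := by
    have : ∀ m, ee R (zg g z m) ≤ ee R (zg g y m) + h * ∑ i, zg g v m i * PP R (zg g y m) (R i) := by
      intro m
      have := superdiff (zg_nonneg g hy0 m) (zg_nonneg g hz m) R
      have e : ∑ j, (zg g z m j - zg g y m j) * PP R (zg g y m) (R j) = - (h * ∑ i, zg g v m i * PP R (zg g y m) (R i)) := by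
        rw [Finset.mul_sum, ← Finset.sum_neg_distrib]
        refine Finset.sum_congr rfl (fun j _ => ?_)
        have := zg_add g z v h m j
        rw [← hy] at this
        have e3 : zg g z m j - zg g y m j = -(h * zg g v m j) := by linarith
        rw [e3]; ring
      rw [e] at this
      linarith
    refine (Finset.sum_le_sum (fun m _ => this m)).trans (le_of_eq ?_)
    rw [Finset.sum_add_distrib, ← Finset.mul_sum, group_sum g v (fun m i => PP R (zg g y m) (R i))]
    rfl
  have t1 : TT R g y y = TT R g z z + 2 * h * TT R g z v + h ^ 2 * TT R g v v := by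
    rw [hy, TT_lin, TT_symm R g z, TT_symm R g v, TT_lin, TT_lin, TT_symm R g v z]; ring
  have t2 : TT R g y v = TT R g z v + h * TT R g v v := by rw [hy, TT_lin]
  rw [dd_eq, dd_eq, WW_eq, WW_eq, t1, t2]
  constructor
  · nlinarith
  · nlinarith

lemma PP_mono_le (R : Fin k → E3) (hz : ∀ j, 0 ≤ z j) (x : E3) : 0 ≤ PP R z x := PP_nonneg hz x

lemma AA_nonneg (R : Fin k → E3) (g : Fin k → Fin n) {v : Fin k → ℝ} (hz : ∀ j, 0 ≤ z j) (hv : ∀ j, 0 ≤ v j) : 0 ≤ AA R g z v :=
  Finset.sum_nonneg (fun i _ => mul_nonneg (hv i) (PP_nonneg (zg_nonneg g hz _) _))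

/-- telescoping, both directions -/
lemma dd_tele (R : Fin k → E3) (g : Fin k → Fin n) {v : Fin k → ℝ} (hz : ∀ j, 0 ≤ z j) (hv : ∀ j, 0 ≤ v j) {N : ℕ} (hN : 0 < N) (m : ℕ) :
    dd R g (fun j => z j + (m:ℝ) / N * v j) - dd R g z
      ≤ 1 / N * ∑ q ∈ Finset.range m, WW R g (fun j => z j + (q:ℝ) / N * v j) v
        + 1 / N * (AA R g (fun j => z j + (m:ℝ) / N * v j) v - AA R g z v) + m * ((1 / (N:ℝ)) ^ 2 * (1/2 * TT R g v v))
    ∧ 1 / N * ∑ q ∈ Finset.range m, WW R g (fun j => z j + ((q + 1 : ℕ):ℝ) / N * v j) v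
        - 1 / N * (AA R g (fun j => z j + (m:ℝ) / N * v j) v - AA R g z v) - m * ((1 / (N:ℝ)) ^ 2 * (1/2 * TT R g v v))
      ≤ dd R g (fun j => z j + (m:ℝ) / N * v j) - dd R g z := by
  have hN' : (0:ℝ) < N := by exact_mod_cast hN
  induction m with
  | zero => simp
  | succ m ih =>
    have hzm : ∀ j, 0 ≤ z j + (m:ℝ) / N * v j := fun j => add_nonneg (hz j) (mul_nonneg (by positivity) (hv j))
    have e : (fun j => (z j + (m:ℝ) / N * v j) + 1 / N * v j) = fun j => z j + ((m + 1 : ℕ):ℝ) / N * v j := by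
      funext j; push_cast; ring
    have s := dd_step (z := fun j => z j + (m:ℝ) / N * v j) R g hzm hv (h := 1 / N) (by positivity)
    rw [e] at s
    rw [Finset.sum_range_succ, Finset.sum_range_succ]
    obtain ⟨i1, i2⟩ := ih
    obtain ⟨s1, s2⟩ := s
    constructor
    · have : ((m + 1 : ℕ) : ℝ) * ((1 / (N:ℝ)) ^ 2 * (1/2 * TT R g v v)) = m * ((1 / (N:ℝ)) ^ 2 * (1/2 * TT R g v v)) + (1 / (N:ℝ)) ^ 2 * (1/2 * TT R g v v) := by
        push_cast; ring
      rw [this]
      linarith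
    · have : ((m + 1 : ℕ) : ℝ) * ((1 / (N:ℝ)) ^ 2 * (1/2 * TT R g v v)) = m * ((1 / (N:ℝ)) ^ 2 * (1/2 * TT R g v v)) + (1 / (N:ℝ)) ^ 2 * (1/2 * TT R g v v) := by
        push_cast; ring
      rw [this]
      linarith

lemma WW_nonneg (R : Fin k → E3) (g : Fin k → Fin n) (hR : ∀ i j, g i ≠ g j → R i ≠ R j) {v : Fin k → ℝ} (hz : ∀ j, 0 ≤ z j) (hv : ∀ j, 0 ≤ v j) :
    0 ≤ WW R g z v := by
  refine Finset.sum_nonneg (fun i _ => mul_nonneg (hv i) ?_)
  apply ww_nonneg (zg_nonneg g hz _) (zg_le g hz _) R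
  intro j hj
  apply hR
  intro h
  apply hj
  unfold zg
  rw [if_pos h.symm, sub_self]

/-- **the interaction energy is nondecreasing in every nuclear charge** -/
theorem dd_mono (R : Fin k → E3) (g : Fin k → Fin n) (hR : ∀ i j, g i ≠ g j → R i ≠ R j) (hz : ∀ j, 0 ≤ z j) (hzz : ∀ j, z j ≤ z' j) :
    dd R g z ≤ dd R g z' := by
  set v : Fin k → ℝ := fun j => z' j - z j with hv
  have hv0 : ∀ j, 0 ≤ v j := fun j => sub_nonneg.2 (hzz j)
  set C := (AA R g z' v - AA R g z v) + 1/2 * TT R g v v with hC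
  have key : ∀ N : ℕ, 0 < N → - (1 / N * C) ≤ dd R g z' - dd R g z := by
    intro N hN
    have hN' : (0:ℝ) < N := by exact_mod_cast hN
    have h := (dd_tele R g hz hv0 hN N).2
    have e : (fun j => z j + (N:ℝ) / N * v j) = z' := by
      funext j; rw [div_self hN'.ne']; simp only [hv]; ring
    rw [e] at h
    have hs : 0 ≤ 1 / (N:ℝ) * ∑ q ∈ Finset.range N, WW R g (fun j => z j + ((q + 1 : ℕ):ℝ) / N * v j) v :=
      mul_nonneg (by positivity) (Finset.sum_nonneg (fun q _ => WW_nonneg R g hR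
        (fun j => add_nonneg (hz j) (mul_nonneg (by positivity) (hv0 j))) hv0))
    have e2 : (N:ℝ) * ((1 / (N:ℝ)) ^ 2 * (1/2 * TT R g v v)) = 1 / N * (1/2 * TT R g v v) := by field_simp
    rw [e2] at h
    rw [hC]
    linarith
  have hlim : Tendsto (fun N : ℕ => - (1 / (N:ℝ) * C)) atTop (𝓝 (-(0 * C))) :=
    (tendsto_one_div_atTop_nhds_zero_nat.mul_const C).neg
  have := le_of_tendsto hlim (b := dd R g z' - dd R g z) (by
    filter_upwards [eventually_gt_atTop 0] with N hN using key N hN)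
  linarith

lemma dd_zero (R : Fin k → E3) (g : Fin k → Fin n) : dd R g (fun _ => 0) = 0 := by
  have e : ∀ m, zg g (fun _ => (0:ℝ)) m = fun _ => 0 := by
    intro m; funext j; unfold zg; simp
  rw [dd_eq, ee_zero]
  simp only [e, ee_zero]
  rw [TT_eq]
  simp

/-- **upper bound by the integrated interaction potentials** -/
theorem dd_upper (R : Fin k → E3) (g : Fin k → Fin n) (hz : ∀ j, 0 ≤ z j) {S : ℝ}
    (hS : ∀ N : ℕ, 0 < N → 1 / (N:ℝ) * ∑ q ∈ Finset.range N, WW R g (fun j => (q:ℝ) / N * z j) z ≤ S) :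
    dd R g z ≤ S := by
  set C := AA R g z z + 1/2 * TT R g z z with hC
  have key : ∀ N : ℕ, 0 < N → dd R g z ≤ S + 1 / N * C := by
    intro N hN
    have hN' : (0:ℝ) < N := by exact_mod_cast hN
    have h := (dd_tele (z := fun _ => (0:ℝ)) R g (fun _ => le_rfl) hz hN N).1
    have e : (fun j => (0:ℝ) + (N:ℝ) / N * z j) = z := by
      funext j; rw [div_self hN'.ne']; ring
    have e' : ∀ q : ℕ, (fun j => (0:ℝ) + (q:ℝ) / N * z j) = fun j => (q:ℝ) / N * z j := by
      intro q; funext j; ring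
    rw [e, dd_zero] at h
    simp only [e'] at h
    have hs := hS N hN
    have e2 : (N:ℝ) * ((1 / (N:ℝ)) ^ 2 * (1/2 * TT R g z z)) = 1 / N * (1/2 * TT R g z z) := by field_simp
    rw [e2] at h
    have h0 : 0 ≤ 1 / (N:ℝ) * AA R g (fun _ => (0:ℝ)) z := mul_nonneg (by positivity) (AA_nonneg R g (fun _ => le_rfl) hz)
    rw [hC]
    linarith
  have hlim : Tendsto (fun N : ℕ => S + 1 / (N:ℝ) * C) atTop (𝓝 (S + 0 * C)) :=
    tendsto_const_nhds.add (tendsto_one_div_atTop_nhds_zero_nat.mul_const C)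
  have := ge_of_tendsto hlim (b := dd R g z) (by
    filter_upwards [eventually_gt_atTop 0] with N hN using key N hN)
  linarith

end Pool.Agent.Q233.TFFar
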