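import Pool.Agent.Q233.TFMol

/-!
# Thomas-Fermi ions: existence for every electron number up to `Z`, minimality, a priori bounds
-/

set_option autoImplicit false
open MeasureTheory Set Filter Topology Metric
open scoped RealInnerProductSpace BigOperators ENNReal
open Pool.Agent.Helper557 Pool.Agent.Helper557.TFP
open Pool.Agent.H9R2.TF Pool.Agent.Q233.TFShell Pool.Agent.Q233.TFAtom Pool.Agent.Q233.TFSat
  Pool.Agent.Q233.TFSup Pool.Agent.Q233.TFCmp Pool.Agent.Q233.TFMol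

namespace Pool.Agent.Q233.TFIon

variable {k : ℕ} {z : Fin k → ℝ} {R : Fin k → E3}

/-- neutrality -/
theorem rm_mass (hz : ∀ j, 0 ≤ z j) (R : Fin k → E3) : ∫ x, rm z R x = ∑ j, z j := by
  have h := rm_EL hz R
  apply le_antisymm
  · have := total_charge z R (nice_neg h.nice) (by
      filter_upwards [ae_nuc R] with x hx
      rw [pot_neg]
      have := EL_phi_nonneg hz le_rfl h (fun j _ => hx j)
      linarith)
    rw [integral_neg] at this
    linarith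
  · have := total_charge (k := 0) (fun _ => 0) (fun _ => 0) (nice_sub' h.nice (sr_nice (z := z) (R := R) hz)) (by
      refine ae_of_all _ (fun x => ?_)
      rw [pot_sub h.nice (sr_nice hz)]
      have h1 := rm_le hz R x
      rw [SS_eq hz] at h1
      have : VV (fun _ : Fin 0 => (0:ℝ)) (fun _ => (0:E3)) x = 0 := by simp [VV]
      rw [this]
      linarith)
    rw [integral_sub h.nice.2.1 (sr_nice hz).2.1] at this
    have e : ∫ x, sr z R x = ∑ j, z j := by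
      unfold sr
      rw [integral_finsetSum _ (fun j _ => (nice_shift (ra_nice (hz j)) (R j)).2.1)]
      refine Finset.sum_congr rfl (fun j _ => ?_)
      rw [integral_sub_right_eq_self (ra (z j)) (R j), ra_mass (hz j)]
    rw [e] at this
    simp only [Finset.univ_eq_empty, Finset.sum_empty, zero_add] at this
    linarith

/-- Lipschitz dependence on the chemical potential -/
lemma EL_lip {Φ₁ Φ₂ : ℝ} {ρ₁ ρ₂ : E3 → ℝ} (h₁ : ELs z R Φ₁ ρ₁) (h₂ : ELs z R Φ₂ ρ₂) (x : E3) :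
    |(VV z R x - pot ρ₁ x - Φ₁) - (VV z R x - pot ρ₂ x - Φ₂)| ≤ |Φ₁ - Φ₂| := by
  have key : ∀ {Φ₁ Φ₂ : ℝ} {ρ₁ ρ₂ : E3 → ℝ}, ELs z R Φ₁ ρ₁ → ELs z R Φ₂ ρ₂ → Φ₂ ≤ Φ₁ →
      |(VV z R x - pot ρ₁ x - Φ₁) - (VV z R x - pot ρ₂ x - Φ₂)| ≤ |Φ₁ - Φ₂| := by
    intro Φ₁ Φ₂ ρ₁ ρ₂ h₁ h₂ h
    obtain ⟨a, b⟩ := EL_mono h₁ h₂ h
    have := a x
    have hp := pot_mono h₁.nice h₂.nice b x
    rw [abs_of_nonneg (sub_nonneg.2 h), abs_le]
    constructor <;> linarith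
  rcases le_total Φ₂ Φ₁ with h | h
  · exact key h₁ h₂ h
  · rw [abs_sub_comm, abs_sub_comm Φ₁]
    exact key h₂ h₁ h

/-- existence of the TF ion of every electron number in `(0, Z]` -/
theorem ion_exists (hz : ∀ j, 0 ≤ z j) (R : Fin k → E3) {lam : ℝ} (h0 : 0 < lam) (h1 : lam ≤ ∑ j, z j) :
    ∃ Φ, 0 ≤ Φ ∧ ∃ ρ, ELs z R Φ ρ ∧ ∫ x, ρ x = lam := by
  have hex : ∀ Φ : ℝ, ∃ τ : E3 → ℝ, 0 ≤ Φ → (ELs z R Φ τ ∧ ∀ x, τ x ≤ rm z R x) := by
    intro Φ
    by_cases h : 0 ≤ Φ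
    · obtain ⟨τ, h2, h3⟩ := exists_rho (rm_EL hz R) h
      exact ⟨τ, fun _ => ⟨h2, h3⟩⟩
    · exact ⟨fun _ => 0, fun h' => absurd h' h⟩
  choose τ hτ using hex
  set m : ℝ → ℝ := fun Φ => ∫ x, τ Φ x with hm
  have hcont : ContinuousOn m (Ici 0) := by
    refine continuousOn_of_dominated (bound := rm z R) ?_ ?_ (rm_EL hz R).nice.2.1 ?_
    · intro Φ hΦ
      exact (hτ Φ hΦ).1.nice.1.aestronglyMeasurable
    · intro Φ hΦ
      refine ae_of_all _ (fun x => ?_)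
      rw [Real.norm_of_nonneg ((hτ Φ hΦ).1.nonneg x)]
      exact (hτ Φ hΦ).2 x
    · refine ae_of_all _ (fun x => ?_)
      have hL : LipschitzOnWith 1 (fun Φ => VV z R x - pot (τ Φ) x - Φ) (Ici 0) := by
        refine LipschitzOnWith.of_dist_le_mul (fun Φ hΦ Φ' hΦ' => ?_)
        rw [NNReal.coe_one, one_mul, Real.dist_eq, Real.dist_eq]
        exact EL_lip (hτ Φ hΦ).1 (hτ Φ' hΦ').1 x
      have hc := be_cont.comp_continuousOn hL.continuousOn
      exact hc.congr (fun Φ hΦ => (hτ Φ hΦ).1.eq x)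
  have hm0 : m 0 = ∑ j, z j := by
    rw [← rm_mass hz R]
    have := EL_unique (hτ 0 le_rfl).1 (rm_EL hz R)
    simp only [hm]
    rw [this]
  have hlim : Tendsto (fun n : ℕ => m n) atTop (𝓝 (∫ _ : E3, (0:ℝ))) := by
    refine tendsto_integral_of_dominated_convergence (rm z R) ?_ (rm_EL hz R).nice.2.1 ?_ ?_
    · intro n
      exact (hτ n (Nat.cast_nonneg n)).1.nice.1.aestronglyMeasurable
    · intro n
      refine ae_of_all _ (fun x => ?_)
      rw [Real.norm_of_nonneg ((hτ n (Nat.cast_nonneg n)).1.nonneg x)]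
      exact (hτ n (Nat.cast_nonneg n)).2 x
    · refine ae_of_all _ (fun x => ?_)
      apply tendsto_const_nhds.congr'
      obtain ⟨N, hN⟩ := exists_nat_gt (VV z R x)
      filter_upwards [eventually_ge_atTop N] with n hn
      have h2 := (hτ n (Nat.cast_nonneg n)).1
      rw [h2.eq x, be_zero_of]
      have h3 := pot_nonneg h2.nonneg x
      have : (N:ℝ) ≤ n := by exact_mod_cast hn
      linarith
  rw [integral_zero] at hlim
  obtain ⟨n, hn⟩ := (hlim.eventually (gt_mem_nhds h0)).exists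
  have hn0 : (0:ℝ) ≤ n := Nat.cast_nonneg n
  have hivt := intermediate_value_Icc' hn0 (hcont.mono Icc_subset_Ici_self)
  obtain ⟨Φ, hΦ, hmΦ⟩ := hivt (show lam ∈ Icc (m n) (m 0) from ⟨hn.le, by rw [hm0]; exact h1⟩)
  exact ⟨Φ, hΦ.1, τ Φ, (hτ Φ hΦ.1).1, hmΦ⟩

/-- convexity estimate for the electronic functional at a solution of the TF equation -/
theorem EF_expand {Φ : ℝ} {ρ σ : E3 → ℝ} (h : ELs z R Φ ρ) (hσ : Adm σ) :
    EF z R ρ + Φ * ((∫ x, ρ x) - ∫ x, σ x) + 1/2 * (∫ x, (σ x - ρ x) * pot (fun y => σ y - ρ y) x) ≤ EF z R σ := by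
  have nρ := h.nice
  have nσ := nice_of_adm hσ
  have nδ : Nice (fun x => σ x - ρ x) := nice_sub' nσ nρ
  have i1 : Integrable (fun x => 3/5 * σ x ^ (5/3 : ℝ)) := hσ.2.2.2.const_mul _
  have i2 : Integrable (fun x => 3/5 * ρ x ^ (5/3 : ℝ)) := h.int53.const_mul _
  have i3 : Integrable (fun x : E3 => VV z R x * (σ x - ρ x)) := vint z R nδ
  have i4 : Integrable (fun x => (σ x - ρ x) * pot ρ x) := TF_E1_int _ _ nδ.2.1 nρ
  have i5 : Integrable (fun x => Φ * (σ x - ρ x)) := nδ.2.1.const_mul _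
  have i34 : Integrable (fun x => VV z R x * (σ x - ρ x) - (σ x - ρ x) * pot ρ x) := i3.sub i4
  have i6 : Integrable (fun x => VV z R x * (σ x - ρ x) - (σ x - ρ x) * pot ρ x - Φ * (σ x - ρ x)) := i34.sub i5
  have hpt : ∫ x, (VV z R x * (σ x - ρ x) - (σ x - ρ x) * pot ρ x - Φ * (σ x - ρ x)) ≤ ∫ x, (3/5 * σ x ^ (5/3 : ℝ) - 3/5 * ρ x ^ (5/3 : ℝ)) := by
    refine integral_mono i6 (i1.sub i2) (fun x => ?_)
    simp only
    have s0 := hσ.2.1 x
    have r0 := h.nonneg x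
    have h1 := sc2 s0 r0
    set u := VV z R x - pot ρ x - Φ with hu
    have hr : ρ x ^ (2/3 : ℝ) = max u 0 := by rw [h.eq x, be_pow]
    have e : VV z R x * (σ x - ρ x) - (σ x - ρ x) * pot ρ x - Φ * (σ x - ρ x) = u * (σ x - ρ x) := by rw [hu]; ring
    rw [e]
    rcases le_or_gt u 0 with hu0 | hu0
    · have hρ0 : ρ x = 0 := by rw [h.eq x]; exact be_zero_of hu0
      rw [hρ0, Real.zero_rpow (by norm_num)] at h1 ⊢
      have : 0 ≤ σ x ^ (5/3 : ℝ) := Real.rpow_nonneg s0 _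
      nlinarith
    · rw [max_eq_left hu0.le] at hr
      rw [hr] at h1
      nlinarith
  have a2 : ∫ x, (3/5 * σ x ^ (5/3 : ℝ) - 3/5 * ρ x ^ (5/3 : ℝ)) = (∫ x, 3/5 * σ x ^ (5/3 : ℝ)) - ∫ x, 3/5 * ρ x ^ (5/3 : ℝ) :=
    integral_sub i1 i2
  have a3 : ∫ x, (VV z R x * (σ x - ρ x) - (σ x - ρ x) * pot ρ x - Φ * (σ x - ρ x))
      = (∫ x, (VV z R x * (σ x - ρ x) - (σ x - ρ x) * pot ρ x)) - ∫ x, Φ * (σ x - ρ x) := integral_sub i34 i5
  have a4 : ∫ x, (VV z R x * (σ x - ρ x) - (σ x - ρ x) * pot ρ x)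
      = (∫ x, VV z R x * (σ x - ρ x)) - ∫ x, (σ x - ρ x) * pot ρ x := integral_sub i3 i4
  have a5 : ∫ x, VV z R x * (σ x - ρ x) = (∫ x, VV z R x * σ x) - ∫ x, VV z R x * ρ x := by
    rw [← integral_sub (vint z R nσ) (vint z R nρ)]
    congr 1
    funext x; ring
  have a6 : ∫ x, Φ * (σ x - ρ x) = Φ * ((∫ x, σ x) - ∫ x, ρ x) := by
    rw [integral_const_mul, integral_sub nσ.2.1 nρ.2.1]
  have e1 := (kop_full nρ).exp nρ nδ 1
  have e2 : (fun y => ρ y + 1 * (σ y - ρ y)) = σ := by funext y; ring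
  have e3 : ∫ x, σ x * pot σ x = (∫ x, ρ x * pot ρ x) + 2 * (∫ x, (σ x - ρ x) * pot ρ x)
      + ∫ x, (σ x - ρ x) * pot (fun y => σ y - ρ y) x := by
    rw [e2] at e1
    have : (fun x => (ρ x + 1 * (σ x - ρ x)) * pot σ x) = fun x => σ x * pot σ x := by
      funext x; ring
    rw [this] at e1
    rw [e1]; ring
  rw [a2, a3, a4, a5, a6, integral_const_mul, integral_const_mul] at hpt
  unfold EF
  rw [e3]
  linarith

lemma EF_min {Φ : ℝ} {ρ σ : E3 → ℝ} (h : ELs z R Φ ρ) (hσ : Adm σ) (hm : ∫ x, σ x = ∫ x, ρ x) :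
    EF z R ρ ≤ EF z R σ := by
  have h1 := EF_expand h hσ
  have h2 := pot_pos (nice_sub' (nice_of_adm hσ) h.nice)
  rw [hm, sub_self, mul_zero] at h1
  linarith

lemma EF_min0 {ρ σ : E3 → ℝ} (h : ELs z R 0 ρ) (hσ : Adm σ) : EF z R ρ ≤ EF z R σ := by
  have h1 := EF_expand h hσ
  have h2 := pot_pos (nice_sub' (nice_of_adm hσ) h.nice)
  linarith

/-- bound of the attraction by half of the kinetic energy, uniform in the positions -/
theorem V_bound (hz : ∀ i, 0 ≤ z i) (lam : ℝ) :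
    ∃ C : ℝ, ∀ (R : Fin k → E3) (ρ : E3 → ℝ), Adm ρ → ∫ x, ρ x = lam →
      ∫ x, VV z R x * ρ x ≤ 1/2 * (3/5 * ∫ x, ρ x ^ (5/3 : ℝ)) + C := by
  set Z : ℝ := ∑ j, z j with hZ
  have hZ0 : 0 ≤ Z := Finset.sum_nonneg fun j _ => hz j
  set ε : ℝ := 1 / (2 * (Z + 1)) with hεd
  have hε : 0 < ε := by positivity
  have hZε : Z * ε ≤ 1/2 := by
    rw [hεd, mul_one_div, div_le_iff₀ (by positivity)]; linarith
  set I0 : ℝ := ∫ x : E3, (Set.Iio (1:ℝ)).indicator (fun y : ℝ => y ^ (-(5/2) : ℝ)) ‖x‖ with hI0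
  refine ⟨Z * lam + 2/5 * ε ^ (-(3/2) : ℝ) * ∑ j, z j * I0, fun R ρ ⟨hm, hρ0, hρi, hρp⟩ hl => ?_⟩
  set H : Fin k → E3 → ℝ := fun j x =>
    (Set.Iio (1:ℝ)).indicator (fun y : ℝ => y ^ (-(5/2) : ℝ)) ‖x - R j‖ with hH
  have hHi : ∀ j, Integrable (H j) := fun j => TF_en_bdd_h1 (R j)
  have hHv : ∀ j, ∫ x, H j x = I0 := fun j =>
    integral_sub_right_eq_self (fun x : E3 => (Set.Iio (1:ℝ)).indicator (fun y : ℝ => y ^ (-(5/2) : ℝ)) ‖x‖) (R j)
  have hkey : ∫ x, (∑ j, z j / ‖x - R j‖) * ρ x ≤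
      ∫ x, (Z * ρ x + 3/5 * (Z * ε) * ρ x ^ (5/3 : ℝ) + 2/5 * ε ^ (-(3/2) : ℝ) * ∑ j, z j * H j x) := by
    apply integral_mono_of_nonneg
    · refine Filter.Eventually.of_forall fun x => ?_
      exact mul_nonneg (Finset.sum_nonneg fun j _ => div_nonneg (hz j) (norm_nonneg _)) (hρ0 x)
    · refine ((hρi.const_mul Z).add (hρp.const_mul _)).add (Integrable.const_mul ?_ _)
      exact integrable_finsetSum _ fun j _ => (hHi j).const_mul (z j)
    · refine Filter.Eventually.of_forall fun x => ?_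
      have h1 : ∀ j, z j / ‖x - R j‖ * ρ x ≤ z j * (ρ x + 3/5 * ε * ρ x ^ (5/3 : ℝ) +
          2/5 * ε ^ (-(3/2) : ℝ) * H j x) := by
        intro j
        have h2 := mul_le_mul_of_nonneg_left (TF_en_bdd_pt ε hε (ρ x) (hρ0 x) (R j) x) (hz j)
        calc z j / ‖x - R j‖ * ρ x = z j * (1 / ‖x - R j‖ * ρ x) := by ring
          _ ≤ _ := h2
      show (∑ j, z j / ‖x - R j‖) * ρ x ≤ _
      rw [Finset.sum_mul]
      calc ∑ j, z j / ‖x - R j‖ * ρ x ≤ ∑ j, z j * (ρ x + 3/5 * ε * ρ x ^ (5/3 : ℝ) +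
          2/5 * ε ^ (-(3/2) : ℝ) * H j x) := Finset.sum_le_sum fun j _ => h1 j
        _ = Z * ρ x + 3/5 * (Z * ε) * ρ x ^ (5/3 : ℝ) + 2/5 * ε ^ (-(3/2) : ℝ) * ∑ j, z j * H j x := by
          simp only [mul_add, Finset.sum_add_distrib, ← Finset.sum_mul, ← hZ]
          rw [Finset.mul_sum]
          congr 1
          · ring
          · exact Finset.sum_congr rfl fun j _ => by ring
  have hint : ∫ x, (Z * ρ x + 3/5 * (Z * ε) * ρ x ^ (5/3 : ℝ) + 2/5 * ε ^ (-(3/2) : ℝ) * ∑ j, z j * H j x)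
      = Z * lam + 3/5 * (Z * ε) * (∫ x, ρ x ^ (5/3 : ℝ)) + 2/5 * ε ^ (-(3/2) : ℝ) * ∑ j, z j * I0 := by
    have hs : Integrable (fun x => ∑ j, z j * H j x) :=
      integrable_finsetSum _ fun j _ => (hHi j).const_mul (z j)
    have ha : Integrable (fun x => Z * ρ x) := hρi.const_mul Z
    have hb : Integrable (fun x => 3/5 * (Z * ε) * ρ x ^ (5/3 : ℝ)) := hρp.const_mul _
    have hab : Integrable (fun x => Z * ρ x + 3/5 * (Z * ε) * ρ x ^ (5/3 : ℝ)) := ha.add hb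
    have hc : Integrable (fun x => 2/5 * ε ^ (-(3/2) : ℝ) * ∑ j, z j * H j x) := hs.const_mul _
    have e3 : ∫ x, ∑ j, z j * H j x = ∑ j, z j * I0 := by
      rw [integral_finsetSum _ (fun j _ => (hHi j).const_mul (z j))]
      exact Finset.sum_congr rfl fun j _ => by rw [integral_const_mul, hHv]
    rw [integral_add hab hc, integral_add ha hb, integral_const_mul, integral_const_mul,
      integral_const_mul, hl, e3]
  have hp0 : 0 ≤ ∫ x, ρ x ^ (5/3 : ℝ) := integral_nonneg fun x => Real.rpow_nonneg (hρ0 x) _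
  rw [hint] at hkey
  have : ∫ x, VV z R x * ρ x = ∫ x, (∑ j, z j / ‖x - R j‖) * ρ x := rfl
  rw [this]
  nlinarith [mul_le_mul_of_nonneg_right hZε hp0]

/-- there is an admissible density of every mass -/
lemma exists_adm {lam : ℝ} (hl : 0 ≤ lam) : ∃ σ : E3 → ℝ, Adm σ ∧ ∫ x, σ x = lam := by
  refine ⟨fun x => lam * UB 1 ‖x‖, adm_of_nice (nice_smul (UB_nice one_pos) lam) (fun x => mul_nonneg hl (UB_nonneg one_pos _)), ?_⟩
  rw [integral_const_mul, UB_mass one_pos, mul_one]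

/-- uniform bound for the kinetic energy of minimisers -/
theorem K_bound (hz : ∀ i, 0 ≤ z i) {lam : ℝ} (hl : 0 ≤ lam) :
    ∃ M : ℝ, 0 ≤ M ∧ ∀ (R : Fin k → E3) (Φ : ℝ) (ρ : E3 → ℝ), ELs z R Φ ρ → ∫ x, ρ x = lam →
      3/5 * (∫ x, ρ x ^ (5/3 : ℝ)) ≤ M := by
  obtain ⟨C, hC⟩ := V_bound hz lam
  obtain ⟨σ, hσ, hσm⟩ := exists_adm hl
  set C1 := 3/5 * (∫ x, σ x ^ (5/3 : ℝ)) + 1/2 * ∫ x, σ x * pot σ x with hC1
  have hC10 : 0 ≤ C1 := by
    have h1 : 0 ≤ ∫ x, σ x ^ (5/3 : ℝ) := integral_nonneg (fun x => Real.rpow_nonneg (hσ.2.1 x) _)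
    have h2 := pot_pos (nice_of_adm hσ)
    rw [hC1]; linarith
  refine ⟨2 * (C1 + |C|), by positivity, fun R Φ ρ h hm => ?_⟩
  have hρ := adm_of_nice h.nice h.nonneg
  have h1 := EF_min h hσ (hσm.trans hm.symm)
  have h2 := hC R ρ hρ hm
  have h3 := pot_pos h.nice
  have h4 : 0 ≤ ∫ x, VV z R x * σ x := integral_nonneg (fun x => mul_nonneg (VV_nonneg hz R x) (hσ.2.1 x))
  unfold EF at h1
  have h5 := le_abs_self C
  linarith

end Pool.Agent.Q233.TFIon
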