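import Pool.Agent.Q233.TFFar

/-!
# The `l⁻⁷` law for distant neutral molecules (`γ = 1`)
-/

set_option autoImplicit false
open MeasureTheory Set Filter Topology Metric
open scoped RealInnerProductSpace BigOperators ENNReal
open Pool.Agent.Helper557 Pool.Agent.Helper557.TFP
open Pool.Agent.H9R2.TF Pool.Agent.Q233.TFShell Pool.Agent.Q233.TFAtom Pool.Agent.Q233.TFSat
  Pool.Agent.Q233.TFSup Pool.Agent.Q233.TFCmp Pool.Agent.Q233.TFMol Pool.Agent.Q233.TFIon Pool.Agent.Q233.TFDil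
  Pool.Agent.Q233.TFMono Pool.Agent.Q233.TFSom Pool.Agent.Q233.TFTeller Pool.Agent.Q233.TFFar

namespace Pool.Agent.Q233.TFLong

variable {k n : ℕ} {z z' : Fin k → ℝ} {R : Fin k → E3}

/-! ### summation -/

/-- sixth root of `1 + A t` -/
noncomputable def vr (A t : ℝ) : ℝ := (1 + A * t) ^ (1/6 : ℝ)

lemma vr_pos {A t : ℝ} (hA : 0 ≤ A) (ht : 0 ≤ t) : 0 < vr A t :=
  Real.rpow_pos_of_pos (by positivity) _

lemma vr_six {A t : ℝ} (hA : 0 ≤ A) (ht : 0 ≤ t) : vr A t ^ 6 = 1 + A * t := by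
  unfold vr
  rw [← Real.rpow_natCast, ← Real.rpow_mul (by positivity)]; norm_num

lemma vr_mono {A s t : ℝ} (hA : 0 ≤ A) (hs : 0 ≤ s) (hst : s ≤ t) : vr A s ≤ vr A t :=
  Real.rpow_le_rpow (by positivity) (by nlinarith) (by norm_num)

lemma vr_step {A s t : ℝ} (hA : 0 < A) (hs : 0 ≤ s) (hst : s ≤ t) :
    (t - s) * (vr A t ^ 7)⁻¹ ≤ 6 / A * ((vr A s)⁻¹ - (vr A t)⁻¹) := by
  have ht := hs.trans hst
  have h1 := vr_pos hA.le hs
  have h2 := vr_pos hA.le ht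
  have h3 := vr_mono hA.le hs hst
  have e1 := vr_six hA.le hs
  have e2 := vr_six hA.le ht
  set a := vr A s
  set b := vr A t
  have e3 : t - s = (b ^ 6 - a ^ 6) / A := by rw [e1, e2]; field_simp; ring
  rw [e3]
  have key : (b ^ 6 - a ^ 6) * (b ^ 7)⁻¹ ≤ 6 * (a⁻¹ - b⁻¹) := by
    have e4 : b ^ 6 - a ^ 6 = (b - a) * (b ^ 5 + b ^ 4 * a + b ^ 3 * a ^ 2 + b ^ 2 * a ^ 3 + b * a ^ 4 + a ^ 5) := by ring
    have e5 : a⁻¹ - b⁻¹ = (b - a) / (a * b) := by field_simp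
    have h4 : b ^ 5 + b ^ 4 * a + b ^ 3 * a ^ 2 + b ^ 2 * a ^ 3 + b * a ^ 4 + a ^ 5 ≤ 6 * b ^ 5 := by
      have q1 : b ^ 4 * a ≤ b ^ 5 := by
        calc b ^ 4 * a ≤ b ^ 4 * b := mul_le_mul_of_nonneg_left h3 (by positivity)
          _ = b ^ 5 := by ring
      have q2 : b ^ 3 * a ^ 2 ≤ b ^ 5 := by
        calc b ^ 3 * a ^ 2 ≤ b ^ 3 * b ^ 2 := mul_le_mul_of_nonneg_left (pow_le_pow_left₀ h1.le h3 2) (by positivity)
          _ = b ^ 5 := by ring
      have q3 : b ^ 2 * a ^ 3 ≤ b ^ 5 := by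
        calc b ^ 2 * a ^ 3 ≤ b ^ 2 * b ^ 3 := mul_le_mul_of_nonneg_left (pow_le_pow_left₀ h1.le h3 3) (by positivity)
          _ = b ^ 5 := by ring
      have q4 : b * a ^ 4 ≤ b ^ 5 := by
        calc b * a ^ 4 ≤ b * b ^ 4 := mul_le_mul_of_nonneg_left (pow_le_pow_left₀ h1.le h3 4) (by positivity)
          _ = b ^ 5 := by ring
      have q5 : a ^ 5 ≤ b ^ 5 := pow_le_pow_left₀ h1.le h3 5
      linarith
    rw [e4, e5, ← div_eq_mul_inv, mul_div_assoc', div_le_div_iff₀ (by positivity) (by positivity)]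
    have h5 : 0 ≤ b - a := sub_nonneg.2 h3
    calc (b - a) * (b ^ 5 + b ^ 4 * a + b ^ 3 * a ^ 2 + b ^ 2 * a ^ 3 + b * a ^ 4 + a ^ 5) * (a * b)
        ≤ (b - a) * (6 * b ^ 5) * (b * b) := by
          apply mul_le_mul (mul_le_mul_of_nonneg_left h4 h5) (mul_le_mul_of_nonneg_right h3 h2.le) (by positivity) (by positivity)
      _ = 6 * (b - a) * b ^ 7 := by ring
  calc (b ^ 6 - a ^ 6) / A * (b ^ 7)⁻¹ = 1 / A * ((b ^ 6 - a ^ 6) * (b ^ 7)⁻¹) := by ring
    _ ≤ 1 / A * (6 * (a⁻¹ - b⁻¹)) := mul_le_mul_of_nonneg_left key (by positivity)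
    _ = _ := by ring

lemma sum_bound {A : ℝ} (hA : 0 < A) {N : ℕ} (hN : 0 < N) {F : ℕ → ℝ} (h0 : F 0 ≤ 0)
    (h : ∀ q : ℕ, 0 < q → F q ≤ (vr A ((q:ℝ) / N) ^ 7)⁻¹) : 1 / (N:ℝ) * ∑ q ∈ Finset.range N, F q ≤ 6 / A := by
  have hN' : (0:ℝ) < N := by exact_mod_cast hN
  have key : ∀ m : ℕ, 1 / (N:ℝ) * ∑ q ∈ Finset.range (m + 1), F q ≤ 6 / A * (1 - (vr A ((m:ℝ) / N))⁻¹) := by
    intro m
    induction m with
    | zero =>
      have : vr A (((0:ℕ):ℝ) / N) = 1 := by unfold vr; simp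
      rw [this, inv_one, sub_self, mul_zero, Finset.sum_range_one]
      exact mul_nonpos_of_nonneg_of_nonpos (by positivity) h0
    | succ m ih =>
      rw [Finset.sum_range_succ, mul_add]
      have h1 := h (m + 1) (Nat.succ_pos m)
      have h2 := vr_step hA (s := (m:ℝ) / N) (t := ((m + 1 : ℕ) : ℝ) / N) (by positivity) (by
        apply div_le_div_of_nonneg_right _ hN'.le
        push_cast; linarith)
      have e : ((m + 1 : ℕ) : ℝ) / N - (m:ℝ) / N = 1 / N := by push_cast; ring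
      rw [e] at h2
      have h3 : 1 / (N:ℝ) * F (m + 1) ≤ 1 / N * (vr A (((m + 1 : ℕ) : ℝ) / N) ^ 7)⁻¹ := mul_le_mul_of_nonneg_left h1 (by positivity)
      nlinarith
  obtain ⟨m, rfl⟩ : ∃ m, N = m + 1 := ⟨N - 1, by omega⟩
  refine (key m).trans ?_
  have h1 : 0 < (vr A ((m:ℝ) / ((m + 1 : ℕ) : ℝ)))⁻¹ := inv_pos.2 (vr_pos hA.le (by positivity))
  have h2 : 0 < 6 / A := by positivity
  nlinarith

/-! ### the upper bound -/

/-- the barrier ratio in terms of the sixth root -/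
lemma ratio_le {r0 ζ L : ℝ} (h0 : 0 < r0) (hζ : 0 < ζ) (hL : 0 < L) {A t : ℝ} (hA : 0 ≤ A) (ht : 0 ≤ t)
    (hAt : A * t = L ^ 3 * ζ / r0 ^ 3) :
    (uu (r0 / cb ζ) 0 / uu (r0 / cb ζ) L) ^ 7 ≤ (vr A t ^ 7)⁻¹ := by
  have hc := cb_pos hζ
  have hp : 0 < r0 / cb ζ := div_pos h0 hc
  have u0 := uu_pos hp 0
  have uL := uu_pos hp L
  have hv := vr_pos hA ht
  have hv6 := vr_six hA ht
  rw [← inv_pow]
  apply pow_le_pow_left₀ (by positivity)
  have hpow : (uu (r0 / cb ζ) 0 / uu (r0 / cb ζ) L) ^ 12 ≤ ((vr A t)⁻¹) ^ 12 := by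
    have e1 : (uu (r0 / cb ζ) 0 / uu (r0 / cb ζ) L) ^ 12 = ((uu (r0 / cb ζ) 0 ^ 4) / (uu (r0 / cb ζ) L ^ 4)) ^ 3 := by
      rw [← div_pow, ← pow_mul]
    have e2 : ((vr A t)⁻¹) ^ 12 = ((vr A t ^ 6) ^ 2)⁻¹ := by rw [inv_pow, ← pow_mul]
    rw [e1, e2, uu_four hp, uu_four hp, hv6, hAt]
    set b := L * cb ζ / r0 with hb
    have hb0 : 0 < b := by positivity
    have e3 : L ^ 3 * ζ / r0 ^ 3 = b ^ 3 := by
      rw [hb, div_pow, mul_pow, cb_cube hζ.le]
    have e4 : ((0:ℝ) ^ 2 + (r0 / cb ζ) ^ 2) / (L ^ 2 + (r0 / cb ζ) ^ 2) = (1 + b ^ 2)⁻¹ := by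
      rw [hb]; field_simp; ring
    rw [e3, e4, inv_pow]
    apply inv_anti₀ (by positivity)
    nlinarith [sq_nonneg (b - b ^ 2), pow_pos hb0 2, pow_pos hb0 3, pow_pos hb0 4]
  exact (pow_le_pow_iff_left₀ (by positivity) (by positivity) (by norm_num)).1 hpow

theorem upper {r0 : ℝ} (h0 : 0 < r0) (hlow : ∀ r, r0 ≤ r → kS * (r ^ 4)⁻¹ ≤ f0 r) (g : Fin k → Fin n)
    (hz : ∀ j, 0 < z j) (R : Fin k → E3) {δ : ℝ} (hδ : 0 < δ) (hR : ∀ i j, g i ≠ g j → 2 * δ ≤ ‖R i - R j‖) :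
    dd R g z ≤ 6 * (k:ℝ) ^ 2 * r0 ^ 3 * (δ ^ 7)⁻¹ := by
  apply dd_upper R g (fun j => (hz j).le)
  intro N hN
  have hN' : (0:ℝ) < N := by exact_mod_cast hN
  -- bound for one nucleus
  have key : ∀ i : Fin k, 1 / (N:ℝ) * ∑ q ∈ Finset.range N, ww R (fun j => (q:ℝ) / N * z j) (zg g (fun j => (q:ℝ) / N * z j) (g i)) (R i)
      ≤ k * (δ ^ 4)⁻¹ * (6 / (δ ^ 3 * z i / r0 ^ 3)) := by
    intro i
    set A := δ ^ 3 * z i / r0 ^ 3 with hA
    have hzi := hz i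
    have hA0 : 0 < A := by positivity
    have hB : 0 ≤ (k:ℝ) * (δ ^ 4)⁻¹ := by positivity
    set W : ℕ → ℝ := fun q => ww R (fun j => (q:ℝ) / N * z j) (zg g (fun j => (q:ℝ) / N * z j) (g i)) (R i) with hW
    have hk0 : 0 < (k:ℝ) := by
      have : 0 < k := Fin.pos i
      exact_mod_cast this
    have hBpos : 0 < (k:ℝ) * (δ ^ 4)⁻¹ := by positivity
    have hs := sum_bound hA0 hN (F := fun q => W q / ((k:ℝ) * (δ ^ 4)⁻¹)) (by
        simp only [hW]
        have e1 : (fun j : Fin k => ((0:ℕ):ℝ) / N * z j) = fun _ => 0 := by funext j; simp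
        have e2 : zg g (fun _ : Fin k => (0:ℝ)) (g i) = fun _ => 0 := by funext j; unfold zg; simp
        rw [e1, e2]
        unfold ww
        have e3 : VV (fun _ : Fin k => (0:ℝ) - 0) R (R i) = 0 := by simp [VV]
        rw [e3]
        simp)
      (fun q hq => by
        have hq' : (0:ℝ) < q := by exact_mod_cast hq
        have ht : 0 < (q:ℝ) / N := by positivity
        rw [div_le_iff₀ hBpos]
        set zq : Fin k → ℝ := fun j => (q:ℝ) / N * z j with hzq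
        have hzq0 : ∀ j, 0 ≤ zq j := fun j => mul_nonneg ht.le (hz j).le
        have hzi' : zg g zq (g i) i = (q:ℝ) / N * z i := by unfold zg; rw [if_pos rfl]
        have hd := ww_decay (z := zq) (zm := zg g zq (g i)) h0 hlow (zg_nonneg g hzq0 _) (zg_le g hzq0 _) R (i := i)
          (by rw [hzi']; positivity) (by rw [hzi']) (L := δ) (δ := δ) hδ hδ (by
            intro x hx j hj
            have hg : g i ≠ g j := by
              intro h
              apply hj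
              unfold zg
              rw [if_pos h.symm, sub_self]
            have h1 := hR i j hg
            have h2 : ‖R i - R j‖ ≤ ‖x - R i‖ + ‖x - R j‖ := by
              have : R i - R j = -(x - R i) + (x - R j) := by abel
              rw [this]
              refine (norm_add_le _ _).trans ?_
              rw [norm_neg]
            linarith)
        rw [hzi'] at hd
        have hr := ratio_le h0 (show 0 < (q:ℝ) / N * z i by positivity) hδ hA0.le ht.le (by rw [hA]; ring)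
        calc W q ≤ k * (δ ^ 4)⁻¹ * (uu (r0 / cb ((q:ℝ) / N * z i)) 0 / uu (r0 / cb ((q:ℝ) / N * z i)) δ) ^ 7 := hd
          _ ≤ k * (δ ^ 4)⁻¹ * (vr A ((q:ℝ) / N) ^ 7)⁻¹ := mul_le_mul_of_nonneg_left hr hB
          _ = _ := by ring)
    rw [← Finset.sum_div] at hs
    have h5 := mul_le_mul_of_nonneg_left hs hB
    refine le_trans (le_of_eq ?_) h5
    field_simp
  have e1 : 1 / (N:ℝ) * ∑ q ∈ Finset.range N, WW R g (fun j => (q:ℝ) / N * z j) z
      = ∑ i, z i * (1 / (N:ℝ) * ∑ q ∈ Finset.range N, ww R (fun j => (q:ℝ) / N * z j) (zg g (fun j => (q:ℝ) / N * z j) (g i)) (R i)) := by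
    unfold WW
    rw [Finset.sum_comm, Finset.mul_sum]
    refine Finset.sum_congr rfl (fun i _ => ?_)
    rw [← Finset.mul_sum]; ring
  rw [e1]
  have h2 : ∀ i ∈ (Finset.univ : Finset (Fin k)), z i * (1 / (N:ℝ) * ∑ q ∈ Finset.range N, ww R (fun j => (q:ℝ) / N * z j) (zg g (fun j => (q:ℝ) / N * z j) (g i)) (R i))
      ≤ 6 * k * r0 ^ 3 * (δ ^ 7)⁻¹ := by
    intro i _
    have hzi := hz i
    refine (mul_le_mul_of_nonneg_left (key i) (hz i).le).trans (le_of_eq ?_)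
    field_simp
  refine (Finset.sum_le_sum h2).trans (le_of_eq ?_)
  rw [Finset.sum_const, Finset.card_univ, Fintype.card_fin, nsmul_eq_mul]
  ring

/-! ### the lower bound -/

lemma ee_nonpos (R : Fin k → E3) (hz : ∀ j, 0 ≤ z j) : ee R z ≤ 0 := by
  have := superdiff (z := fun _ => (0:ℝ)) (fun _ => le_rfl) hz R
  rw [ee_zero] at this
  simp only [PP_zero] at this
  simpa using this

lemma KK_nonneg (R : Fin k → E3) (hz : ∀ j, 0 ≤ z j) : 0 ≤ TFTeller.KK R z := by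
  unfold TFTeller.KK
  have : 0 ≤ ∫ x, rm z R x ^ (5/3 : ℝ) := integral_nonneg (fun x => Real.rpow_nonneg ((rm_EL hz R).nonneg x) _)
  linarith

/-- uniform bound of the electronic potential of a molecule with charges at most `a` -/
lemma PP_le {B0 : ℝ} (hB0 : 0 ≤ B0) (hB : ∀ x, pot rho0 x ≤ B0) {a : ℝ} (ha : 0 < a) (R : Fin k → E3) (hz : ∀ j, 0 ≤ z j)
    (hza : ∀ j, z j = a ∨ z j = 0) (x : E3) : PP R z x ≤ 4 ^ k * (k * (cb a ^ 4 * B0)) := by
  have h := rm_EL hz R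
  have nsr : Nice (sr z R) := sr_nice hz
  have h1 : PP R z x ≤ 4 ^ k * pot (sr z R) x := by
    rw [← psm]
    unfold PP pot
    obtain ⟨_, hb1⟩ := nice_bound _ h.nice
    obtain ⟨_, hb2⟩ := nice_bound _ (nice_smul nsr (4 ^ k))
    refine integral_mono_ae (hb1 x).1 (hb2 x).1 ?_
    filter_upwards [ae_nuc R] with y hy
    apply div_le_div_of_nonneg_right _ (norm_nonneg _)
    rw [h.eq y, sub_zero]
    exact (be_mono (rm_le hz R y)).trans (be_SS_bounds hz hy).2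
  have h2 : pot (sr z R) x ≤ k * (cb a ^ 4 * B0) := by
    unfold sr
    rw [pot_sum _ _ (fun j _ => nice_shift (ra_nice (hz j)) (R j))]
    have : ∀ j ∈ (Finset.univ : Finset (Fin k)), pot (fun y => ra (z j) (y - R j)) x ≤ cb a ^ 4 * B0 := by
      intro j _
      rw [pot_shift]
      rcases hza j with h' | h'
      · rw [h']
        unfold ra
        rw [pot_sc (cb_pos ha)]
        exact mul_le_mul_of_nonneg_left (hB _) (by have := cb_pos ha; positivity)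
      · rw [h', ra_zero, pot_zero]
        have := cb_pos ha
        positivity
    refine (Finset.sum_le_sum this).trans (le_of_eq ?_)
    rw [Finset.sum_const, Finset.card_univ, Fintype.card_fin, nsmul_eq_mul]
  exact h1.trans (mul_le_mul_of_nonneg_left h2 (by positivity))

theorem lower {B0 : ℝ} (hB0 : 0 ≤ B0) (hB : ∀ x, pot rho0 x ≤ B0) (g : Fin k → Fin n) (hz : ∀ j, 0 ≤ z j) (R : Fin k → E3)
    (hR : ∀ i j, g i ≠ g j → R i ≠ R j) {i0 j0 : Fin k} (hij : g i0 ≠ g j0) {a : ℝ} (ha : 0 < a) (hai : a ≤ z i0) (haj : a ≤ z j0) :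
    a ^ 2 / ‖R i0 - R j0‖ - 4 ^ k * k * B0 * cb a ^ 7 ≤ dd R g z := by
  classical
  have hne : i0 ≠ j0 := fun h => hij (by rw [h])
  set y : Fin k → ℝ := fun j => if j = i0 ∨ j = j0 then a else 0 with hy
  have hy0 : ∀ j, 0 ≤ y j := fun j => by simp only [hy]; split_ifs; exacts [ha.le, le_rfl]
  have hyz : ∀ j, y j ≤ z j := by
    intro j
    simp only [hy]
    split_ifs with h
    · rcases h with rfl | rfl
      exacts [hai, haj]
    · exact hz j
  have hya : ∀ j, y j = a ∨ y j = 0 := fun j => by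
    simp only [hy]; split_ifs
    exacts [Or.inl rfl, Or.inr rfl]
  refine le_trans ?_ (dd_mono R g hR hy0 hyz)
  rw [dd_eq]
  have h1 : ∑ m, ee R (zg g y m) ≤ 0 := Finset.sum_nonpos (fun m _ => ee_nonpos R (zg_nonneg g hy0 m))
  -- the total charge
  have hs : ∀ F : Fin k → ℝ, ∑ j, y j * F j = a * F i0 + a * F j0 := by
    intro F
    have e : ∑ j, y j * F j = ∑ j ∈ ({i0, j0} : Finset (Fin k)), y j * F j := by
      symm
      apply Finset.sum_subset (Finset.subset_univ _)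
      intro j _ hj
      have : y j = 0 := by
        simp only [hy]
        rw [if_neg]
        simpa using hj
      rw [this, zero_mul]
    rw [e, Finset.sum_pair hne]
    have e1 : y i0 = a := by simp [hy]
    have e2 : y j0 = a := by simp [hy]
    rw [e1, e2]
  have h2 : - (a * (4 ^ k * (k * (cb a ^ 4 * B0)))) ≤ ee R y := by
    have hK := KK_eq hy0 R
    have hK0 := KK_nonneg R hy0
    rw [hs] at hK
    have p1 := PP_le hB0 hB ha R hy0 hya (R i0)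
    have p2 := PP_le hB0 hB ha R hy0 hya (R j0)
    have q1 := mul_le_mul_of_nonneg_left p1 ha.le
    have q2 := mul_le_mul_of_nonneg_left p2 ha.le
    linarith
  have e7 : a * (4 ^ k * (k * (cb a ^ 4 * B0))) = 4 ^ k * k * B0 * cb a ^ 7 := by
    have : a = cb a ^ 3 := (cb_cube ha.le).symm
    calc a * (4 ^ k * (k * (cb a ^ 4 * B0))) = cb a ^ 3 * (4 ^ k * (k * (cb a ^ 4 * B0))) := by rw [← this]
      _ = _ := by ring
  rw [e7] at h2
  -- the repulsion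
  have h3 : TT R g y y = 2 * (a ^ 2 / ‖R i0 - R j0‖) := by
    unfold TT
    rw [hs]
    have v : ∀ i, VV (fun j => y j - zg g y (g i) j) R (R i) = a * (if g i0 = g i then 0 else 1 / ‖R i - R i0‖) + a * (if g j0 = g i then 0 else 1 / ‖R i - R j0‖) := by
      intro i
      rw [← hs (fun j => if g j = g i then 0 else 1 / ‖R i - R j‖)]
      unfold VV zg
      refine Finset.sum_congr rfl (fun j _ => ?_)
      by_cases h : g j = g i
      · simp only [if_pos h]; simp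
      · simp only [if_neg h]; ring
    rw [v, v, if_pos rfl, if_pos rfl, if_neg (fun h => hij h.symm), if_neg hij, norm_sub_rev (R j0) (R i0)]
    ring
  rw [h3]
  linarith

/-! ### both bounds -/

theorem two_sided (hz : ∀ j, 0 < z j) (g : Fin k → Fin n) {i0 j0 : Fin k} (hij : g i0 ≠ g j0) (R : Fin k → E3)
    (Y : Fin n → E3) (hY : Function.Injective Y) :
    ∃ c C l0 : ℝ, 0 < c ∧ 0 < C ∧ 0 < l0 ∧ ∀ l, l0 ≤ l →
      c * (l ^ 7)⁻¹ ≤ dd (fun i => R i + l • Y (g i)) g z ∧ dd (fun i => R i + l • Y (g i)) g z ≤ C * (l ^ 7)⁻¹ := by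
  obtain ⟨r0, hr0, hlow⟩ := f0_low
  obtain ⟨B0, hB0, hB⟩ := pot_bdd rho0_nice
  have hB' : ∀ x, pot rho0 x ≤ B0 := fun x => (le_abs_self _).trans (hB x)
  -- geometric constants
  obtain ⟨M0, hM0, hM⟩ : ∃ M0 : ℝ, 0 ≤ M0 ∧ ∀ i, ‖R i‖ ≤ M0 :=
    ⟨∑ i, ‖R i‖, Finset.sum_nonneg (fun i _ => norm_nonneg _), fun i =>
      Finset.single_le_sum (f := fun i => ‖R i‖) (fun j _ => norm_nonneg _) (Finset.mem_univ i)⟩
  obtain ⟨d0, hd0, hd⟩ : ∃ d0 : ℝ, 0 < d0 ∧ ∀ m m', m ≠ m' → d0 ≤ ‖Y m - Y m'‖ := by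
    have : Nonempty (Fin n × Fin n) := ⟨(g i0, g i0)⟩
    obtain ⟨q, hq⟩ := Finite.exists_min (fun q : Fin n × Fin n => if q.1 = q.2 then (1:ℝ) else ‖Y q.1 - Y q.2‖)
    refine ⟨if q.1 = q.2 then (1:ℝ) else ‖Y q.1 - Y q.2‖, ?_, fun m m' h => ?_⟩
    · split_ifs with h
      · exact one_pos
      · exact norm_pos_iff.2 (sub_ne_zero.2 (fun h' => h (hY h')))
    · have := hq (m, m')
      simp only [if_neg h] at this
      exact this
  set D1 : ℝ := ‖Y (g i0) - Y (g j0)‖ + 2 * M0 + 1 with hD1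
  have hD10 : 0 < D1 := by positivity
  set C1 : ℝ := 4 ^ k * k * B0 + 1 with hC1
  have hC10 : 0 < C1 := by positivity
  set τ : ℝ := 1 / (2 * C1) with hτ
  have hτ0 : 0 < τ := by positivity
  set zm : ℝ := min (z i0) (z j0) with hzm
  have hzm0 : 0 < zm := lt_min (hz i0) (hz j0)
  -- the threshold
  obtain ⟨l1, hl1⟩ : ∃ l1 : ℝ, l1 = 1 + 4 * M0 / d0 + τ ^ 3 / (zm * (d0 / 2)) + 2 / d0 := ⟨_, rfl⟩
  have t1 : 0 ≤ 4 * M0 / d0 := by positivity
  have t2 : 0 ≤ τ ^ 3 / (zm * (d0 / 2)) := by positivity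
  have t3 : 0 ≤ 2 / d0 := by positivity
  refine ⟨τ ^ 6 / 2 * (D1 ^ 7)⁻¹, 6 * (k:ℝ) ^ 2 * r0 ^ 3 * (((d0 / 4) ^ 7)⁻¹) + 1, l1, by positivity, by positivity, by rw [hl1]; linarith, fun l hl => ?_⟩
  have hl1' : 1 ≤ l := by rw [hl1] at hl; linarith
  have hl0 : 0 < l := by linarith
  have hdist : ∀ i j, g i ≠ g j → l * (d0 / 2) ≤ ‖(R i + l • Y (g i)) - (R j + l • Y (g j))‖ := by
    intro i j h
    have e : (R i + l • Y (g i)) - (R j + l • Y (g j)) = l • (Y (g i) - Y (g j)) - (R j - R i) := by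
      rw [smul_sub]; abel
    rw [e]
    have h1 := norm_sub_norm_le (l • (Y (g i) - Y (g j))) (R j - R i)
    rw [norm_smul, Real.norm_of_nonneg hl0.le] at h1
    have h2 := mul_le_mul_of_nonneg_left (hd _ _ h) hl0.le
    have h3 : ‖R j - R i‖ ≤ 2 * M0 := (norm_sub_le _ _).trans (by linarith [hM i, hM j])
    have h4 : 4 * M0 / d0 ≤ l := by rw [hl1] at hl; linarith
    rw [div_le_iff₀ hd0] at h4
    linarith
  have hne : ∀ i j, g i ≠ g j → R i + l • Y (g i) ≠ R j + l • Y (g j) := by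
    intro i j h he
    have := hdist i j h
    rw [he, sub_self, norm_zero] at this
    have : 0 < l * (d0 / 2) := by positivity
    linarith
  constructor
  · -- lower bound
    set D : ℝ := ‖(R i0 + l • Y (g i0)) - (R j0 + l • Y (g j0))‖ with hDd
    have hDlow : l * (d0 / 2) ≤ D := hdist i0 j0 hij
    have hD0 : 0 < D := lt_of_lt_of_le (by positivity) hDlow
    have hDup : D ≤ l * D1 := by
      have e : (R i0 + l • Y (g i0)) - (R j0 + l • Y (g j0)) = l • (Y (g i0) - Y (g j0)) + (R i0 - R j0) := by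
        rw [smul_sub]; abel
      rw [hDd, e]
      refine (norm_add_le _ _).trans ?_
      rw [norm_smul, Real.norm_of_nonneg hl0.le]
      have h3 : ‖R i0 - R j0‖ ≤ 2 * M0 := (norm_sub_le _ _).trans (by linarith [hM i0, hM j0])
      rw [hD1]
      nlinarith
    have hD1' : 1 ≤ D := by
      have h4 : 2 / d0 ≤ l := by rw [hl1] at hl; linarith
      rw [div_le_iff₀ hd0] at h4
      linarith
    set a : ℝ := (τ / D) ^ 3 with ha
    have ha0 : 0 < a := by positivity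
    have hcb : cb a = τ / D := by
      unfold cb
      rw [ha, ← Real.rpow_natCast, ← Real.rpow_mul (by positivity)]; norm_num
    have haz : a ≤ zm := by
      have h4 : τ ^ 3 / (zm * (d0 / 2)) ≤ l := by rw [hl1] at hl; linarith
      rw [div_le_iff₀ (by positivity)] at h4
      rw [ha, div_pow, div_le_iff₀ (by positivity)]
      have h5 : D ≤ D ^ 3 := by
        calc D = D ^ 1 := (pow_one D).symm
          _ ≤ D ^ 3 := pow_le_pow_right₀ hD1' (by norm_num)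
      calc τ ^ 3 ≤ l * (zm * (d0 / 2)) := h4
        _ = zm * (l * (d0 / 2)) := by ring
        _ ≤ zm * D ^ 3 := mul_le_mul_of_nonneg_left (hDlow.trans h5) hzm0.le
    have hlo := lower hB0 hB' g (fun j => (hz j).le) (fun i => R i + l • Y (g i)) hne hij ha0 (haz.trans (min_le_left _ _)) (haz.trans (min_le_right _ _))
    refine le_trans ?_ hlo
    rw [← hDd, hcb]
    have e1 : a ^ 2 / D = τ ^ 6 * (D ^ 7)⁻¹ := by rw [ha]; field_simp
    have e2 : (τ / D) ^ 7 = τ ^ 7 * (D ^ 7)⁻¹ := by rw [div_pow]; ring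
    rw [e1, e2]
    have hDi : 0 < (D ^ 7)⁻¹ := by positivity
    have h5 : 4 ^ k * k * B0 * τ ≤ 1/2 := by
      have : 4 ^ k * k * B0 * τ ≤ C1 * τ := mul_le_mul_of_nonneg_right (by rw [hC1]; linarith) hτ0.le
      refine this.trans (le_of_eq ?_)
      rw [hτ]; field_simp
    have h6 : τ ^ 6 / 2 * (D ^ 7)⁻¹ ≤ τ ^ 6 * (D ^ 7)⁻¹ - 4 ^ k * k * B0 * (τ ^ 7 * (D ^ 7)⁻¹) := by
      have h7 : 4 ^ k * k * B0 * (τ ^ 7 * (D ^ 7)⁻¹) = (4 ^ k * k * B0 * τ) * (τ ^ 6 * (D ^ 7)⁻¹) := by ring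
      rw [h7]
      have h8 : 0 ≤ τ ^ 6 * (D ^ 7)⁻¹ := by positivity
      have := mul_le_mul_of_nonneg_right h5 h8
      linarith
    refine le_trans ?_ h6
    have h9 : (l ^ 7)⁻¹ * (D1 ^ 7)⁻¹ ≤ (D ^ 7)⁻¹ := by
      rw [← mul_inv, ← mul_pow]
      exact inv_anti₀ (by positivity) (pow_le_pow_left₀ hD0.le hDup 7)
    have h10 : 0 ≤ τ ^ 6 / 2 := by positivity
    calc τ ^ 6 / 2 * (D1 ^ 7)⁻¹ * (l ^ 7)⁻¹ = τ ^ 6 / 2 * ((l ^ 7)⁻¹ * (D1 ^ 7)⁻¹) := by ring
      _ ≤ τ ^ 6 / 2 * (D ^ 7)⁻¹ := mul_le_mul_of_nonneg_left h9 h10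
  · -- upper bound
    have hδ : 0 < l * (d0 / 4) := by positivity
    have hup := upper hr0 hlow g hz (fun i => R i + l • Y (g i)) hδ (fun i j h => by
      have := hdist i j h
      calc 2 * (l * (d0 / 4)) = l * (d0 / 2) := by ring
        _ ≤ _ := this)
    refine hup.trans ?_
    have hli : 0 < (l ^ 7)⁻¹ := by positivity
    rw [mul_pow, mul_inv]
    calc 6 * (k:ℝ) ^ 2 * r0 ^ 3 * ((l ^ 7)⁻¹ * ((d0 / 4) ^ 7)⁻¹) = 6 * (k:ℝ) ^ 2 * r0 ^ 3 * (((d0 / 4) ^ 7)⁻¹) * (l ^ 7)⁻¹ := by ring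
      _ ≤ (6 * (k:ℝ) ^ 2 * r0 ^ 3 * (((d0 / 4) ^ 7)⁻¹) + 1) * (l ^ 7)⁻¹ := by nlinarith

end Pool.Agent.Q233.TFLong
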