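import Pool.Agent.Q233.TFSup
import Pool.Agent.Q233.TFCmp

/-!
# Neutral and ionic Thomas-Fermi molecules (`γ = 1`): existence, neutrality, minimality
-/

set_option autoImplicit false
open MeasureTheory Set Filter Topology Metric
open scoped RealInnerProductSpace BigOperators ENNReal
open Pool.Agent.Helper557 Pool.Agent.Helper557.TFP
open Pool.Agent.H9R2.TF Pool.Agent.Q233.TFShell Pool.Agent.Q233.TFAtom Pool.Agent.Q233.TFSat
  Pool.Agent.Q233.TFSup Pool.Agent.Q233.TFCmp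

namespace Pool.Agent.Q233.TFMol

/-! ### the nonlinearity -/

lemma be_super {a b : ℝ} (ha : 0 ≤ a) (hb : 0 ≤ b) : be a + be b ≤ be (a + b) := by
  have h := be_incr (a := 0) (a' := a) (D := b) ha hb
  rw [zero_add, be_zero_of le_rfl, sub_zero] at h
  linarith

lemma be_sum_super {ι : Type*} (s : Finset ι) (a : ι → ℝ) (ha : ∀ i ∈ s, 0 ≤ a i) :
    ∑ i ∈ s, be (a i) ≤ be (∑ i ∈ s, a i) := by
  classical
  induction s using Finset.induction_on with
  | empty => simp [be_nonneg]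
  | insert i s hi ih =>
    rw [Finset.sum_insert hi, Finset.sum_insert hi]
    have h1 := ih (fun j hj => ha j (Finset.mem_insert_of_mem hj))
    have h2 := be_super (ha i (Finset.mem_insert_self i s)) (Finset.sum_nonneg (fun j hj => ha j (Finset.mem_insert_of_mem hj)))
    linarith

lemma be_two {a b : ℝ} (ha : 0 ≤ a) (hb : 0 ≤ b) : be (a + b) ≤ 4 * (be a + be b) := by
  have key : ∀ m : ℝ, 0 ≤ m → be (2 * m) ≤ 4 * be m := by
    intro m hm
    unfold be
    rw [max_eq_left hm, max_eq_left (by positivity), Real.mul_rpow (by norm_num) hm]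
    apply mul_le_mul_of_nonneg_right _ (Real.rpow_nonneg hm _)
    calc (2:ℝ) ^ (3/2 : ℝ) ≤ (2:ℝ) ^ (2 : ℝ) := Real.rpow_le_rpow_of_exponent_le (by norm_num) (by norm_num)
      _ = 4 := by norm_num
  rcases le_total a b with h | h
  · have h1 := be_mono (show a + b ≤ 2 * b by linarith)
    have := key b hb
    have := be_nonneg a
    linarith
  · have h1 := be_mono (show a + b ≤ 2 * a by linarith)
    have := key a ha
    have := be_nonneg b
    linarith

lemma be_sum_le {ι : Type*} (s : Finset ι) (a : ι → ℝ) (ha : ∀ i ∈ s, 0 ≤ a i) :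
    be (∑ i ∈ s, a i) ≤ 4 ^ s.card * ∑ i ∈ s, be (a i) := by
  classical
  induction s using Finset.induction_on with
  | empty => simp [be_zero_of]
  | insert i s hi ih =>
    rw [Finset.sum_insert hi, Finset.sum_insert hi, Finset.card_insert_of_notMem hi]
    have h1 := ih (fun j hj => ha j (Finset.mem_insert_of_mem hj))
    have h2 := be_two (ha i (Finset.mem_insert_self i s)) (Finset.sum_nonneg (fun j hj => ha j (Finset.mem_insert_of_mem hj)))
    have h3 : be (a i) ≤ 4 ^ s.card * be (a i) := by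
      have : (1:ℝ) ≤ 4 ^ s.card := one_le_pow₀ (by norm_num)
      nlinarith [be_nonneg (a i)]
    calc be (a i + ∑ j ∈ s, a j) ≤ 4 * (be (a i) + be (∑ j ∈ s, a j)) := h2
      _ ≤ 4 * (4 ^ s.card * be (a i) + 4 ^ s.card * ∑ j ∈ s, be (a j)) := by linarith
      _ = 4 ^ (s.card + 1) * (be (a i) + ∑ j ∈ s, be (a j)) := by ring

/-! ### the neutral atom of nuclear charge `z` -/

noncomputable def cb (z : ℝ) : ℝ := z ^ (1/3 : ℝ)

lemma cb_nonneg {z : ℝ} (hz : 0 ≤ z) : 0 ≤ cb z := Real.rpow_nonneg hz _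
lemma cb_pos {z : ℝ} (hz : 0 < z) : 0 < cb z := Real.rpow_pos_of_pos hz _

lemma cb_cube {z : ℝ} (hz : 0 ≤ z) : cb z ^ 3 = z := by
  unfold cb
  rw [← Real.rpow_natCast, ← Real.rpow_mul hz]; norm_num

lemma cb_zero : cb 0 = 0 := by unfold cb; exact Real.zero_rpow (by norm_num)

/-- density -/
noncomputable def ra (z : ℝ) : E3 → ℝ := sc (cb z) rho0

/-- potential, nucleus included -/
noncomputable def pa (z : ℝ) (x : E3) : ℝ := z / ‖x‖ - pot (ra z) x

lemma sc_zero (ρ : E3 → ℝ) : sc 0 ρ = fun _ => 0 := by funext x; simp [sc]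

lemma pot_zero (x : E3) : pot (fun _ => (0:ℝ)) x = 0 := by simp [pot]

lemma rho0_adm : Adm rho0 := adm_of_nice rho0_nice rho0_nonneg

lemma nice_zero : Nice (fun _ : E3 => (0:ℝ)) :=
  ⟨measurable_const, integrable_zero _ _ _, by
    have : (fun _ : E3 => |(0:ℝ)| ^ (5/3 : ℝ)) = fun _ => 0 := by
      funext x; rw [abs_zero, Real.zero_rpow (by norm_num)]
    rw [this]; exact integrable_zero _ _ _⟩

lemma ra_zero : ra 0 = fun _ => 0 := by unfold ra; rw [cb_zero, sc_zero]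

lemma ra_nice {z : ℝ} (hz : 0 ≤ z) : Nice (ra z) := by
  rcases eq_or_lt_of_le hz with h | h
  · rw [← h, ra_zero]; exact nice_zero
  · exact nice_of_adm (sc_adm (cb_pos h) rho0_adm)

lemma ra_nonneg {z : ℝ} (hz : 0 ≤ z) (x : E3) : 0 ≤ ra z x :=
  mul_nonneg (pow_nonneg (cb_nonneg hz) 6) (rho0_nonneg _)

lemma ra_mass {z : ℝ} (hz : 0 ≤ z) : ∫ x, ra z x = z := by
  rcases eq_or_lt_of_le hz with h | h
  · rw [← h, ra_zero]; simp
  · unfold ra
    rw [sc_mass (cb_pos h), rho0_mass, mul_one, cb_cube hz]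

lemma pot_sc {s : ℝ} (hs : 0 < s) (ρ : E3 → ℝ) (x : E3) : pot (sc s ρ) x = s ^ 4 * pot ρ (s • x) := by
  unfold pot
  have : (fun y => sc s ρ y / ‖x - y‖) = fun y => s ^ 7 * (fun u => ρ u / ‖s • x - u‖) (s • y) := by
    funext y
    have e : ‖s • x - s • y‖ = s * ‖x - y‖ := by rw [← smul_sub, norm_smul, Real.norm_of_nonneg hs.le]
    unfold sc
    simp only
    rw [e, div_eq_mul_inv, div_eq_mul_inv, mul_inv]
    field_simp
  rw [this, integral_const_mul, int_smul hs (fun u => ρ u / ‖s • x - u‖)]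
  field_simp

lemma pa_eq {z : ℝ} (hz : 0 < z) (x : E3) : pa z x = cb z ^ 4 * phi0 (cb z • x) := by
  unfold pa phi0 ra
  have hc := cb_pos hz
  rw [pot_sc hc, norm_smul, Real.norm_of_nonneg hc.le]
  have : z = cb z ^ 3 := (cb_cube hz.le).symm
  conv_lhs => rw [this]
  rw [mul_sub]
  congr 1
  · rcases eq_or_ne ‖x‖ 0 with h | h
    · rw [h]; simp
    · field_simp
  · rw [cb_cube hz.le]

lemma pa_zero (x : E3) : pa 0 x = 0 := by
  unfold pa; rw [ra_zero, pot_zero]; simp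

lemma pa_nonneg {z : ℝ} (hz : 0 ≤ z) {x : E3} (hx : x ≠ 0) : 0 ≤ pa z x := by
  rcases eq_or_lt_of_le hz with h | h
  · rw [← h, pa_zero]
  · rw [pa_eq h]
    exact mul_nonneg (by have := cb_pos h; positivity) (phi0_nonneg (smul_ne_zero (cb_pos h).ne' hx))

/-- universal upper bound -/
lemma phi0_le {x : E3} (hx : x ≠ 0) : phi0 x ≤ (‖x‖ ^ 4)⁻¹ := by
  have h0 : 0 < ‖x‖ := norm_pos_iff.2 hx
  rcases le_or_gt ‖x‖ 1 with h | h
  · have h1 : phi0 x ≤ 1 / ‖x‖ := by
      unfold phi0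
      have := pot_nonneg rho0_nonneg x
      linarith
    refine h1.trans ?_
    rw [one_div]
    apply inv_anti₀ (by positivity)
    calc ‖x‖ ^ 4 ≤ ‖x‖ ^ 1 := pow_le_pow_of_le_one h0.le h (by norm_num)
      _ = ‖x‖ := pow_one _
  · by_contra hlt
    rw [not_le] at hlt
    have h1 : be ((‖x‖ ^ 4)⁻¹) < be (phi0 x) := by
      unfold be
      rw [max_eq_left (by positivity), max_eq_left (by linarith [show (0:ℝ) ≤ (‖x‖ ^ 4)⁻¹ by positivity])]
      exact Real.rpow_lt_rpow (by positivity) hlt (by norm_num)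
    rw [be_inv4 h0, ← rho0_eq] at h1
    exact absurd (rho0_le h) (not_le.2 h1)

lemma pa_le {z : ℝ} (hz : 0 ≤ z) {x : E3} (hx : x ≠ 0) : pa z x ≤ (‖x‖ ^ 4)⁻¹ := by
  rcases eq_or_lt_of_le hz with h | h
  · rw [← h, pa_zero]; positivity
  · have hc := cb_pos h
    rw [pa_eq h]
    have h1 := phi0_le (x := cb z • x) (smul_ne_zero hc.ne' hx)
    rw [norm_smul, Real.norm_of_nonneg hc.le] at h1
    calc cb z ^ 4 * phi0 (cb z • x) ≤ cb z ^ 4 * ((cb z * ‖x‖) ^ 4)⁻¹ := mul_le_mul_of_nonneg_left h1 (by positivity)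
      _ = (‖x‖ ^ 4)⁻¹ := by rw [mul_pow, mul_inv]; field_simp

lemma be_scale {s u : ℝ} (hs : 0 < s) : be (s ^ 4 * u) = s ^ 6 * be u := by
  unfold be
  have e : max (s ^ 4 * u) 0 = s ^ 4 * max u 0 := by
    rw [mul_max_of_nonneg _ _ (by positivity : 0 ≤ s ^ 4), mul_zero]
  rw [e, Real.mul_rpow (by positivity) (le_max_right _ _)]
  congr 1
  rw [← Real.rpow_natCast, ← Real.rpow_mul hs.le, ← Real.rpow_natCast]
  norm_num

lemma ra_eq {z : ℝ} (hz : 0 ≤ z) (x : E3) : ra z x = be (pa z x) := by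
  rcases eq_or_lt_of_le hz with h | h
  · rw [← h, pa_zero, ra_zero, be_zero_of le_rfl]
  · rw [pa_eq h, be_scale (cb_pos h), ← rho0_eq]
    rfl

lemma pa_meas {z : ℝ} (hz : 0 ≤ z) : Measurable (pa z) := by
  unfold pa
  exact (by fun_prop : Measurable (fun x : E3 => z / ‖x‖)).sub (pot_cont (ra_nice hz)).measurable

/-! ### molecules -/

section

variable {k : ℕ} {z : Fin k → ℝ} {R : Fin k → E3}

/-- sum of the atomic potentials -/
noncomputable def SS (z : Fin k → ℝ) (R : Fin k → E3) (x : E3) : ℝ := ∑ j, pa (z j) (x - R j)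

/-- sum of the atomic densities -/
noncomputable def sr (z : Fin k → ℝ) (R : Fin k → E3) (x : E3) : ℝ := ∑ j, ra (z j) (x - R j)

lemma nice_sum {ι : Type*} (s : Finset ι) (g : ι → E3 → ℝ) (h : ∀ i ∈ s, Nice (g i)) : Nice (fun x => ∑ i ∈ s, g i x) := by
  classical
  induction s using Finset.induction_on with
  | empty => simpa using nice_zero
  | insert i s hi ih =>
    have : (fun x => ∑ j ∈ insert i s, g j x) = fun x => g i x + ∑ j ∈ s, g j x := by
      funext x; rw [Finset.sum_insert hi]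
    rw [this]
    exact nice_add (h i (Finset.mem_insert_self i s)) (ih (fun j hj => h j (Finset.mem_insert_of_mem hj)))

lemma pot_sum {ι : Type*} (s : Finset ι) (g : ι → E3 → ℝ) (h : ∀ i ∈ s, Nice (g i)) (x : E3) :
    pot (fun y => ∑ i ∈ s, g i y) x = ∑ i ∈ s, pot (g i) x := by
  unfold pot
  rw [← integral_finsetSum]
  · congr 1
    funext y
    rw [Finset.sum_div]
  · intro i hi
    obtain ⟨B, hB⟩ := nice_bound _ (h i hi)
    exact (hB x).1

lemma sr_nice (hz : ∀ j, 0 ≤ z j) : Nice (sr z R) :=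
  nice_sum _ _ (fun j _ => nice_shift (ra_nice (hz j)) (R j))

lemma SS_eq (hz : ∀ j, 0 ≤ z j) (x : E3) : SS z R x = VV z R x - pot (sr z R) x := by
  unfold SS sr
  rw [pot_sum _ _ (fun j _ => nice_shift (ra_nice (hz j)) (R j))]
  unfold VV
  rw [← Finset.sum_sub_distrib]
  refine Finset.sum_congr rfl (fun j _ => ?_)
  rw [pot_shift]; rfl

lemma ae_nuc (R : Fin k → E3) : ∀ᵐ x : E3, ∀ j, x ≠ R j := by
  rw [ae_all_iff]
  intro j
  rw [ae_iff]; simp

lemma SS_nonneg (hz : ∀ j, 0 ≤ z j) {x : E3} (hx : ∀ j, x ≠ R j) : 0 ≤ SS z R x :=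
  Finset.sum_nonneg (fun j _ => pa_nonneg (hz j) (sub_ne_zero.2 (hx j)))

lemma SS_meas (hz : ∀ j, 0 ≤ z j) : Measurable (SS z R) := by
  unfold SS
  exact Finset.measurable_sum _ (fun j _ => (pa_meas (hz j)).comp (measurable_id.sub_const (R j)))

lemma be_SS_bounds (hz : ∀ j, 0 ≤ z j) {x : E3} (hx : ∀ j, x ≠ R j) :
    sr z R x ≤ be (SS z R x) ∧ be (SS z R x) ≤ 4 ^ k * sr z R x := by
  have hp : ∀ j ∈ (Finset.univ : Finset (Fin k)), 0 ≤ pa (z j) (x - R j) := fun j _ => pa_nonneg (hz j) (sub_ne_zero.2 (hx j))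
  have e : sr z R x = ∑ j, be (pa (z j) (x - R j)) := by
    unfold sr
    exact Finset.sum_congr rfl (fun j _ => ra_eq (hz j) _)
  rw [e]
  refine ⟨be_sum_super _ _ hp, ?_⟩
  have := be_sum_le _ _ hp
  rwa [Finset.card_univ, Fintype.card_fin] at this

lemma nice_of_ae_le {g h : E3 → ℝ} (hg : Measurable g) (hh : Nice h) {C : ℝ} (hC : 0 ≤ C)
    (h0 : ∀ᵐ x, |g x| ≤ C * |h x|) : Nice g := by
  refine ⟨hg, ?_, ?_⟩
  · refine (hh.2.1.abs.const_mul C).mono' hg.aestronglyMeasurable ?_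
    filter_upwards [h0] with x hx using hx
  · refine (hh.2.2.const_mul (C ^ (5/3 : ℝ))).mono' (hg.abs.pow_const _).aestronglyMeasurable ?_
    filter_upwards [h0] with x hx
    rw [Real.norm_of_nonneg (by positivity), ← Real.mul_rpow hC (abs_nonneg _)]
    exact Real.rpow_le_rpow (abs_nonneg _) hx (by norm_num)

lemma be_SS_nice (hz : ∀ j, 0 ≤ z j) : Nice (fun x => be (SS z R x)) := by
  refine nice_of_ae_le (be_meas.comp (SS_meas hz)) (sr_nice (z := z) (R := R) hz) (C := 4 ^ k) (by positivity) ?_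
  filter_upwards [ae_nuc R] with x hx
  rw [abs_of_nonneg (be_nonneg _)]
  exact (be_SS_bounds hz hx).2.trans (mul_le_mul_of_nonneg_left (le_abs_self _) (by positivity))

/-- existence of the neutral molecule -/
theorem mol_exists (hz : ∀ j, 0 ≤ z j) (R : Fin k → E3) :
    ∃ ρ : E3 → ℝ, ELs z R 0 ρ ∧ ∀ x, VV z R x - pot ρ x ≤ SS z R x := by
  have nh := be_SS_nice (R := R) hz
  obtain ⟨τ, hτ, hτe⟩ := exists_EL (h := VV z R) (kop_full nh) nh (fun x => be_nonneg _) (VV_meas _ _) (vint z R nh)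
  have nτ : Nice τ := hτ.nice nh
  have nν : Nice (fun x => τ x - sr z R x) := nice_sub' nτ (sr_nice hz)
  have key := cmp_full nν (C0 := 0) le_rfl (by
    filter_upwards [ae_nuc R] with y hy hy2
    rw [add_zero, pot_sub nτ (sr_nice hz)] at hy2
    have h1 : SS z R y ≤ VV z R y - pot τ y := by rw [SS_eq hz]; linarith
    have h2 : τ y = be (SS z R y) := by
      rw [hτe y]; exact min_eq_left (be_mono h1)
    rw [h2]
    have := (be_SS_bounds hz hy).1
    linarith)
  have hle : ∀ x, VV z R x - pot τ x ≤ SS z R x := by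
    intro x
    have := key x
    rw [add_zero, pot_sub nτ (sr_nice hz)] at this
    rw [SS_eq hz]; linarith
  refine ⟨τ, ⟨nτ, fun x => ?_⟩, hle⟩
  rw [hτe x, sub_zero]
  exact min_eq_right (be_mono (hle x))

/-- the neutral molecular density -/
noncomputable def rm (z : Fin k → ℝ) (R : Fin k → E3) : E3 → ℝ := by
  classical
  exact if h : ∀ j, 0 ≤ z j then (mol_exists h R).choose else fun _ => 0

lemma rm_EL (hz : ∀ j, 0 ≤ z j) (R : Fin k → E3) : ELs z R 0 (rm z R) := by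
  unfold rm; rw [dif_pos hz]; exact (mol_exists hz R).choose_spec.1

lemma rm_le (hz : ∀ j, 0 ≤ z j) (R : Fin k → E3) (x : E3) : VV z R x - pot (rm z R) x ≤ SS z R x := by
  unfold rm; rw [dif_pos hz]; exact (mol_exists hz R).choose_spec.2 x

/-- potentials of (ionic) molecules are nonnegative -/
lemma EL_phi_nonneg {Φ : ℝ} {ρ : E3 → ℝ} (hz : ∀ j, 0 ≤ z j) (hΦ : 0 ≤ Φ) (h : ELs z R Φ ρ) {x : E3}
    (hx : ∀ j, z j ≠ 0 → x ≠ R j) : 0 ≤ VV z R x - pot ρ x := by
  have h1 := cmp_all z R (nice_neg h.nice) hz (ae_of_all _ (fun y hy => by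
    rw [pot_neg] at hy
    rw [h.eq y, be_zero_of (by linarith), neg_zero])) x hx
  rw [pot_neg] at h1
  linarith

end

/-! ### total charge at infinity -/

lemma pUB {r : ℝ} (hr : 0 < r) (y : E3) : 0 ≤ r * pot (fun x => UB r ‖x‖) y ∧ r * pot (fun x => UB r ‖x‖) y ≤ 3/2 := by
  have h0 : ∀ x : E3, 0 ≤ UB r ‖x‖ := fun x => UB_nonneg hr _
  refine ⟨mul_nonneg hr.le (pot_nonneg h0 y), ?_⟩
  have e : pot (fun x => UB r ‖x‖) y ≤ (4 / 3 * Real.pi * r ^ 3)⁻¹ * (4 * Real.pi * (r ^ 2 / 2)) := by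
    rw [pot_rad (UB_meas r)]
    have h1 : ∀ s ∈ Ioi (0:ℝ), s ^ 2 * (UB r s / max s ‖y‖) ≤ (Ioc (0:ℝ) r).indicator (fun s => (4 / 3 * Real.pi * r ^ 3)⁻¹ * s) s := by
      intro s hs
      have hs' : 0 < s := hs
      by_cases h : s < r
      · rw [indicator_of_mem (by exact ⟨hs', h.le⟩)]
        unfold UB
        rw [indicator_of_mem (by exact h)]
        have h2 : 0 < max s ‖y‖ := lt_of_lt_of_le hs' (le_max_left _ _)
        rw [mul_div_assoc', div_le_iff₀ h2]
        have h3 : s ≤ max s ‖y‖ := le_max_left _ _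
        have h4 : 0 ≤ (4 / 3 * Real.pi * r ^ 3)⁻¹ * s := by positivity
        nlinarith [mul_le_mul_of_nonneg_left h3 h4]
      · rw [UB_out (not_lt.1 h)]
        simp only [zero_div, mul_zero]
        exact indicator_nonneg (fun s hs => by have := hs.1; positivity) _
    have h2 : ∫ s in Ioi (0:ℝ), s ^ 2 * (UB r s / max s ‖y‖) ≤ ∫ s in Ioi (0:ℝ), (Ioc (0:ℝ) r).indicator (fun s => (4 / 3 * Real.pi * r ^ 3)⁻¹ * s) s := by
      refine integral_mono_of_nonneg ?_ ?_ ?_
      · rw [EventuallyLE, ae_restrict_iff' measurableSet_Ioi]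
        refine ae_of_all _ (fun s hs => ?_)
        have hs' : 0 < s := hs
        simp only [Pi.zero_apply]
        have := UB_nonneg hr s
        positivity
      · refine Integrable.integrableOn ?_
        rw [integrable_indicator_iff measurableSet_Ioc]
        exact ((by fun_prop : Continuous (fun s : ℝ => (4 / 3 * Real.pi * r ^ 3)⁻¹ * s)).integrableOn_Icc).mono_set Ioc_subset_Icc_self
      · rw [EventuallyLE, ae_restrict_iff' measurableSet_Ioi]
        exact ae_of_all _ h1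
    have h3 : ∫ s in Ioi (0:ℝ), (Ioc (0:ℝ) r).indicator (fun s => (4 / 3 * Real.pi * r ^ 3)⁻¹ * s) s = (4 / 3 * Real.pi * r ^ 3)⁻¹ * (r ^ 2 / 2) := by
      rw [setIntegral_indicator measurableSet_Ioc]
      have : Ioi (0:ℝ) ∩ Ioc 0 r = Ioc 0 r := inter_eq_right.2 Ioc_subset_Ioi_self
      rw [this, ← intervalIntegral.integral_of_le hr.le, intervalIntegral.integral_const_mul, integral_id]
      ring
    rw [h3] at h2
    calc _ ≤ 4 * Real.pi * ((4 / 3 * Real.pi * r ^ 3)⁻¹ * (r ^ 2 / 2)) := mul_le_mul_of_nonneg_left h2 (by positivity)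
      _ = _ := by ring
  calc r * pot (fun x => UB r ‖x‖) y ≤ r * ((4 / 3 * Real.pi * r ^ 3)⁻¹ * (4 * Real.pi * (r ^ 2 / 2))) := mul_le_mul_of_nonneg_left e hr.le
    _ = 3/2 := by field_simp

lemma pUB_lim (y : E3) : Tendsto (fun n : ℕ => ((n:ℝ) + 1) * pot (fun x => UB ((n:ℝ) + 1) ‖x‖) y) atTop (𝓝 (3/2)) := by
  have hb : ∀ r : ℝ, 0 < r → ‖y‖ < r → 3/2 * (1 - (‖y‖ / r) ^ 2 / 3) ≤ r * pot (fun x => UB r ‖x‖) y := by
    intro r hr hyr
    rw [pot_max (UB_meas r)]
    rcases eq_or_ne y 0 with h | h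
    · -- compare with a small positive radius
      have hpos : ∀ a : ℝ, 0 < a → a < r → 3/2 * (1 - (a / r) ^ 2 / 3) ≤ r * ∫ x : E3, UB r ‖x‖ / max ‖x‖ ‖y‖ := by
        intro a ha har
        have h1 : ∫ x : E3, UB r ‖x‖ / max ‖x‖ a ≤ ∫ x : E3, UB r ‖x‖ / max ‖x‖ ‖y‖ := by
          have i1 := max_intble (UB_meas r) (UB_nice hr) y
          have i2 := max_intble (UB_meas r) (UB_nice hr) (a • e0)
          have hn : ‖a • e0‖ = a := by rw [norm_smul, e0_norm, mul_one, Real.norm_of_nonneg ha.le]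
          rw [hn] at i2
          refine integral_mono_ae i2 i1 ?_
          filter_upwards [ae_ne0] with x hx
          rw [h, norm_zero, max_eq_left (norm_nonneg x)]
          exact div_le_div_of_nonneg_left (UB_nonneg hr _) (norm_pos_iff.2 hx) (le_max_left _ _)
        have h2 : ∫ x : E3, UB r ‖x‖ / max ‖x‖ a = (4 / 3 * Real.pi * r ^ 3)⁻¹ * (2 * Real.pi * (r ^ 2 - a ^ 2 / 3)) := by
          have e : (fun x : E3 => UB r ‖x‖ / max ‖x‖ a) = fun x => (4 / 3 * Real.pi * r ^ 3)⁻¹ * (ball (0:E3) r).indicator (fun x => 1 / max ‖x‖ a) x := by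
            funext x
            rw [UB_eq]
            by_cases hx : x ∈ ball (0:E3) r
            · rw [indicator_of_mem hx, indicator_of_mem hx]; ring
            · rw [indicator_of_notMem hx, indicator_of_notMem hx]; ring
          rw [e, integral_const_mul, integral_indicator measurableSet_ball, (right_val ha hr).2, Vb, if_neg (by linarith)]
        rw [h2] at h1
        refine le_trans (le_of_eq ?_) (mul_le_mul_of_nonneg_left h1 hr.le)
        field_simp
        ring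
      have hlim : Tendsto (fun a : ℝ => 3/2 * (1 - (a / r) ^ 2 / 3)) (𝓝[>] 0) (𝓝 (3/2 * (1 - (0 / r) ^ 2 / 3))) :=
        Tendsto.mono_left (by
          have : Continuous (fun a : ℝ => 3/2 * (1 - (a / r) ^ 2 / 3)) := by fun_prop
          exact this.tendsto 0) nhdsWithin_le_nhds
      rw [h, norm_zero]
      have := le_of_tendsto hlim (b := r * ∫ x : E3, UB r ‖x‖ / max ‖x‖ ‖y‖) (by
        filter_upwards [Ioo_mem_nhdsGT hr] with a ha using hpos a ha.1 ha.2)
      rw [h, norm_zero] at this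
      exact this
    · have ha : 0 < ‖y‖ := norm_pos_iff.2 h
      have h2 : ∫ x : E3, UB r ‖x‖ / max ‖x‖ ‖y‖ = (4 / 3 * Real.pi * r ^ 3)⁻¹ * (2 * Real.pi * (r ^ 2 - ‖y‖ ^ 2 / 3)) := by
        have e : (fun x : E3 => UB r ‖x‖ / max ‖x‖ ‖y‖) = fun x => (4 / 3 * Real.pi * r ^ 3)⁻¹ * (ball (0:E3) r).indicator (fun x => 1 / max ‖x‖ ‖y‖) x := by
          funext x
          rw [UB_eq]
          by_cases hx : x ∈ ball (0:E3) r
          · rw [indicator_of_mem hx, indicator_of_mem hx]; ring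
          · rw [indicator_of_notMem hx, indicator_of_notMem hx]; ring
        rw [e, integral_const_mul, integral_indicator measurableSet_ball, (right_val ha hr).2, Vb, if_neg (by linarith)]
      rw [h2]
      apply le_of_eq
      field_simp
      ring
  have hlow : Tendsto (fun n : ℕ => 3/2 * (1 - (‖y‖ / ((n:ℝ) + 1)) ^ 2 / 3)) atTop (𝓝 (3/2)) := by
    have h1 : Tendsto (fun n : ℕ => ‖y‖ / ((n:ℝ) + 1)) atTop (𝓝 0) :=
      tendsto_const_nhds.div_atTop (tendsto_atTop_add_const_right _ _ tendsto_natCast_atTop_atTop)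
    have h2 : Tendsto (fun n : ℕ => 3/2 * (1 - (‖y‖ / ((n:ℝ) + 1)) ^ 2 / 3)) atTop (𝓝 (3/2 * (1 - 0 ^ 2 / 3))) :=
      (tendsto_const_nhds.sub ((h1.pow 2).div_const 3)).const_mul _
    simpa using h2
  refine tendsto_of_tendsto_of_tendsto_of_le_of_le' hlow tendsto_const_nhds ?_ (Eventually.of_forall (fun n => (pUB (by positivity) y).2))
  filter_upwards [eventually_ge_atTop ⌈‖y‖⌉₊] with n hn
  apply hb _ (by positivity)
  have : ‖y‖ ≤ n := (Nat.le_ceil _).trans (by exact_mod_cast hn)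
  linarith

/-- a potential that is nonnegative has nonnegative total charge -/
theorem total_charge {k : ℕ} (c : Fin k → ℝ) (S : Fin k → E3) {ν : E3 → ℝ} (hν : Nice ν)
    (h : ∀ᵐ x, 0 ≤ VV c S x + pot ν x) : 0 ≤ (∑ j, c j) + ∫ x, ν x := by
  have key : ∀ n : ℕ, 0 ≤ (∑ j, c j * (((n:ℝ) + 1) * pot (fun x => UB ((n:ℝ) + 1) ‖x‖) (S j)))
      + ∫ y, ν y * (((n:ℝ) + 1) * pot (fun x => UB ((n:ℝ) + 1) ‖x‖) y) := by
    intro n
    have hn : (0:ℝ) < (n:ℝ) + 1 := by positivity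
    have nU := UB_nice hn
    have h1 : 0 ≤ ∫ x : E3, UB ((n:ℝ) + 1) ‖x‖ * (VV c S x + pot ν x) := by
      refine integral_nonneg_of_ae ?_
      filter_upwards [h] with x hx
      exact mul_nonneg (UB_nonneg hn _) hx
    have i1 : Integrable (fun x : E3 => VV c S x * UB ((n:ℝ) + 1) ‖x‖) := vint c S nU
    have i2 : Integrable (fun x : E3 => UB ((n:ℝ) + 1) ‖x‖ * pot ν x) := TF_E1_int _ _ nU.2.1 hν
    have h2 : ∫ x : E3, UB ((n:ℝ) + 1) ‖x‖ * (VV c S x + pot ν x)
        = (∫ x : E3, VV c S x * UB ((n:ℝ) + 1) ‖x‖) + ∫ x : E3, UB ((n:ℝ) + 1) ‖x‖ * pot ν x := by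
      rw [← integral_add i1 i2]
      congr 1
      funext x; ring
    have h3 : ∫ x : E3, UB ((n:ℝ) + 1) ‖x‖ * pot ν x = ∫ y, ν y * pot (fun x => UB ((n:ℝ) + 1) ‖x‖) y := TF_E1_symm _ _ nU hν
    have h4 : ∫ x : E3, VV c S x * UB ((n:ℝ) + 1) ‖x‖ = ∑ j, c j * pot (fun x => UB ((n:ℝ) + 1) ‖x‖) (S j) := by
      have e : (fun x : E3 => VV c S x * UB ((n:ℝ) + 1) ‖x‖) = fun x => ∑ j, c j * (1 / ‖x - S j‖ * UB ((n:ℝ) + 1) ‖x‖) := by
        funext x
        unfold VV
        rw [Finset.sum_mul]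
        exact Finset.sum_congr rfl (fun j _ => by ring)
      rw [e, integral_finsetSum _ (fun j _ => (ker_int nU (S j)).1.const_mul _)]
      refine Finset.sum_congr rfl (fun j _ => ?_)
      rw [integral_const_mul, (ker_int nU (S j)).2]
    rw [h2, h3, h4] at h1
    have h5 := mul_nonneg hn.le h1
    rw [mul_add, Finset.mul_sum, ← integral_const_mul] at h5
    refine le_trans h5 (le_of_eq ?_)
    congr 1
    · exact Finset.sum_congr rfl (fun j _ => by ring)
    · congr 1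
      funext y; ring
  have l1 : Tendsto (fun n : ℕ => ∑ j, c j * (((n:ℝ) + 1) * pot (fun x => UB ((n:ℝ) + 1) ‖x‖) (S j))) atTop (𝓝 (∑ j, c j * (3/2))) :=
    tendsto_finsetSum _ (fun j _ => (pUB_lim (S j)).const_mul (c j))
  have l2 : Tendsto (fun n : ℕ => ∫ y, ν y * (((n:ℝ) + 1) * pot (fun x => UB ((n:ℝ) + 1) ‖x‖) y)) atTop (𝓝 (∫ y, ν y * (3/2))) := by
    refine tendsto_integral_of_dominated_convergence (fun y => |ν y| * (3/2)) ?_ (hν.2.1.abs.mul_const _) ?_ ?_
    · intro n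
      exact (hν.1.mul ((pot_cont (UB_nice (by positivity))).measurable.const_mul _)).aestronglyMeasurable
    · intro n
      refine ae_of_all _ (fun y => ?_)
      rw [norm_mul, Real.norm_eq_abs, Real.norm_eq_abs]
      have := pUB (r := (n:ℝ) + 1) (by positivity) y
      rw [abs_of_nonneg this.1]
      exact mul_le_mul_of_nonneg_left this.2 (abs_nonneg _)
    · exact ae_of_all _ (fun y => (pUB_lim y).const_mul (ν y))
  have := ge_of_tendsto' (l1.add l2) key
  rw [← Finset.sum_mul, integral_mul_const] at this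
  linarith

end Pool.Agent.Q233.TFMol
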