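import Pool.Agent.Q233.TFAtom

/-!
# Monotonicity in the electron number fails for one atom
-/

set_option autoImplicit false
open MeasureTheory Set Filter Topology Metric
open scoped RealInnerProductSpace BigOperators ENNReal
open Pool.Agent.Helper557 Pool.Agent.Helper557.TFP
open Pool.Agent.H9R2.TF Pool.Agent.Q233.TFShell Pool.Agent.Q233.TFAtom

namespace Pool.Agent.Q233.TFMono

lemma norm_re {r : ℝ} (hr : 0 ≤ r) : ‖r • e0‖ = r := by
  rw [norm_smul, e0_norm, mul_one, Real.norm_of_nonneg hr]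

lemma re_ne {r : ℝ} (hr : 0 < r) : r • e0 ≠ 0 := by
  rw [← norm_pos_iff, norm_re hr.le]; exact hr

/-- profile of the atomic potential -/
noncomputable def f0 (r : ℝ) : ℝ := phi0 (r • e0)

lemma phi0_f0 (y : E3) : phi0 y = f0 ‖y‖ := by
  unfold f0 phi0
  rw [norm_re (norm_nonneg y), EL_pot rho0_EL, EL_pot rho0_EL, norm_re (norm_nonneg y)]

lemma f0_nonneg {r : ℝ} (hr : 0 < r) : 0 ≤ f0 r := phi0_nonneg (re_ne hr)

lemma rho0_f0 (x : E3) : rho0 x = be (f0 ‖x‖) := by rw [rho0_eq, phi0_f0]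

lemma f0_int {r : ℝ} (hr : 0 < r) :
    Integrable (fun x : E3 => rho0 x * (1 / r - 1 / max ‖x‖ r)) ∧ f0 r = ∫ x : E3, rho0 x * (1 / r - 1 / max ‖x‖ r) := by
  have i1 : Integrable (fun x : E3 => rho0 x * (1 / r)) := rho0_nice.2.1.mul_const _
  have i2 : Integrable (fun x : E3 => rho0 x / max ‖x‖ r) := by
    have := EL_max_int rho0_EL (r • e0)
    rwa [norm_re hr.le] at this
  have e : (fun x : E3 => rho0 x * (1 / r - 1 / max ‖x‖ r)) = fun x => rho0 x * (1 / r) - rho0 x / max ‖x‖ r := by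
    funext x; ring
  rw [e]
  refine ⟨i1.sub i2, ?_⟩
  rw [integral_sub i1 i2, integral_mul_const, rho0_mass, one_mul]
  unfold f0 phi0
  rw [norm_re hr.le, EL_pot rho0_EL, norm_re hr.le]

lemma ker_anti {r s : ℝ} (hr : 0 < r) (hrs : r ≤ s) (u : ℝ) : 1 / s - 1 / max u s ≤ 1 / r - 1 / max u r := by
  have hs : 0 < s := hr.trans_le hrs
  rcases le_or_gt u r with h | h
  · rw [max_eq_right h, max_eq_right (h.trans hrs)]; simp
  · rw [max_eq_left h.le]
    have hu : 0 < u := hr.trans h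
    have h1 : 1 / u ≤ 1 / r := one_div_le_one_div_of_le hr h.le
    rcases le_or_gt u s with h' | h'
    · rw [max_eq_right h']; linarith
    · rw [max_eq_left h'.le]
      have := one_div_le_one_div_of_le hr hrs
      linarith

lemma f0_anti {r s : ℝ} (hr : 0 < r) (hrs : r ≤ s) : f0 s ≤ f0 r := by
  have hs : 0 < s := hr.trans_le hrs
  rw [(f0_int hr).2, (f0_int hs).2]
  refine integral_mono (f0_int hs).1 (f0_int hr).1 (fun x => ?_)
  exact mul_le_mul_of_nonneg_left (ker_anti hr hrs _) (rho0_nonneg x)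

lemma f0_cont {r : ℝ} (hr : 0 < r) : ContinuousAt f0 r := by
  have h1 : ContinuousAt (fun r : ℝ => pot rho0 (r • e0)) r :=
    ((pot_cont rho0_nice).comp (by fun_prop : Continuous (fun r : ℝ => r • e0))).continuousAt
  have h2 : ContinuousAt (fun r : ℝ => 1 / ‖r • e0‖) r := by
    refine continuousAt_const.div (by fun_prop) ?_
    rw [norm_re hr.le]; exact hr.ne'
  exact h2.sub h1

lemma be_mul_sqrt {u : ℝ} (hu : 0 ≤ u) : be u = √u * u := by
  rw [be_sqrt, max_eq_left hu, pow_succ, Real.sq_sqrt hu, mul_comm]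

/-- the atomic potential is strictly positive -/
theorem f0_pos {r : ℝ} (hr : 0 < r) : 0 < f0 r := by
  by_contra hcon
  have hr0 : f0 r = 0 := le_antisymm (not_lt.1 hcon) (f0_nonneg hr)
  obtain ⟨B, hB0, hB⟩ := pot_bdd rho0_nice
  have hB' : ∀ x, pot rho0 x ≤ B := fun x => (le_abs_self _).trans (hB x)
  set e : ℝ := 1 / (B + 1) with he
  have he0 : 0 < e := by positivity
  have hsmall : ∀ s, 0 < s → s < e → 0 < f0 s := by
    intro s hs hse
    unfold f0 phi0
    rw [norm_re hs.le]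
    have h1 : B + 1 < 1 / s := by
      rw [lt_div_iff₀ hs]
      rw [he, lt_div_iff₀ (by positivity)] at hse
      linarith
    linarith [hB' (s • e0)]
  set S : Set ℝ := Ici e ∩ f0 ⁻¹' (Iic 0) with hS
  have hSc : IsClosed S := by
    refine ContinuousOn.preimage_isClosed_of_isClosed (fun x hx => (f0_cont (he0.trans_le hx)).continuousWithinAt) isClosed_Ici isClosed_Iic
  have hrS : r ∈ S := by
    refine ⟨?_, hr0.le⟩
    by_contra h
    exact absurd hr0 (hsmall r hr (not_le.1 h)).ne'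
  have hbd : BddBelow S := ⟨e, fun x hx => hx.1⟩
  set q := sInf S with hq
  have hqS : q ∈ S := hSc.csInf_mem ⟨r, hrS⟩ hbd
  have hqe : e ≤ q := hqS.1
  have hq0 : 0 < q := he0.trans_le hqe
  have hfq : f0 q = 0 := le_antisymm hqS.2 (f0_nonneg hq0)
  have hout : ∀ s, q ≤ s → f0 s = 0 := fun s hs =>
    le_antisymm ((f0_anti hq0 hs).trans hfq.le) (f0_nonneg (hq0.trans_le hs))
  have hin : ∀ s, 0 < s → s < q → 0 < f0 s := by
    intro s hs hsq
    rcases lt_or_ge s e with h | h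
    · exact hsmall s hs h
    · by_contra hc
      exact absurd (csInf_le hbd (show s ∈ S from ⟨h, not_lt.1 hc⟩)) (not_le.2 hsq)
  -- the key inequality
  have key : ∀ s, 0 < s → s < q → 1 ≤ √(f0 s) * (1 / s) * (4/3 * Real.pi * q ^ 3 - 4/3 * Real.pi * s ^ 3) := by
    intro s hs hsq
    have hfs := hin s hs hsq
    have hmeas : MeasurableSet (ball (0:E3) q \ ball 0 s) := measurableSet_ball.diff measurableSet_ball
    have hfin : volume (ball (0:E3) q \ ball 0 s) ≠ ⊤ := ne_top_of_le_ne_top measure_ball_lt_top.ne (measure_mono diff_subset)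
    have h1 : f0 s ≤ ∫ x : E3, (ball (0:E3) q \ ball 0 s).indicator (fun _ => be (f0 s) * (1 / s)) x := by
      rw [(f0_int hs).2]
      rw [← (f0_int hs).2]
      conv_lhs => rw [(f0_int hs).2]
      refine integral_mono (f0_int hs).1 ?_ (fun x => ?_)
      · rw [integrable_indicator_iff hmeas]
        exact integrableOn_const hfin
      · simp only
        by_cases h1 : ‖x‖ < s
        · rw [max_eq_right h1.le, sub_self, mul_zero]
          exact indicator_nonneg (fun _ _ => mul_nonneg (be_nonneg _) (by positivity)) _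
        · rw [not_lt] at h1
          by_cases h2 : ‖x‖ < q
          · rw [indicator_of_mem (by simp [h1, h2]), rho0_f0 x]
            have h3 : be (f0 ‖x‖) ≤ be (f0 s) := be_mono (f0_anti hs h1)
            have h4 : 1 / s - 1 / max ‖x‖ s ≤ 1 / s := by
              have : 0 ≤ 1 / max ‖x‖ s := by positivity
              linarith
            have h5 : 0 ≤ 1 / s - 1 / max ‖x‖ s := by
              have := one_div_le_one_div_of_le hs (le_max_right ‖x‖ s)
              linarith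
            exact mul_le_mul h3 h4 h5 (be_nonneg _)
          · rw [not_lt] at h2
            rw [indicator_of_notMem (by simp [h2]), rho0_f0 x, hout _ h2, be_zero_of le_rfl, zero_mul]
    have h2 : ∫ x : E3, (ball (0:E3) q \ ball 0 s).indicator (fun _ => be (f0 s) * (1 / s)) x
        = (4/3 * Real.pi * q ^ 3 - 4/3 * Real.pi * s ^ 3) * (be (f0 s) * (1 / s)) := by
      rw [integral_indicator hmeas, setIntegral_const, smul_eq_mul]
      congr 1
      rw [measureReal_diff (ball_subset_ball hsq.le) measurableSet_ball, Measure.real, Measure.real, vol_ball _ hq0.le, vol_ball _ hs.le]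
    rw [h2, be_mul_sqrt hfs.le] at h1
    have h3 : f0 s * 1 ≤ f0 s * (√(f0 s) * (1 / s) * (4/3 * Real.pi * q ^ 3 - 4/3 * Real.pi * s ^ 3)) := by
      rw [mul_one]
      refine h1.trans (le_of_eq (by ring))
    exact le_of_mul_le_mul_left h3 hfs
  have hlim : Tendsto (fun s : ℝ => √(f0 s) * (1 / s) * (4/3 * Real.pi * q ^ 3 - 4/3 * Real.pi * s ^ 3)) (𝓝[<] q)
      (𝓝 (√(f0 q) * (1 / q) * (4/3 * Real.pi * q ^ 3 - 4/3 * Real.pi * q ^ 3))) := by
    refine Tendsto.mono_left ?_ nhdsWithin_le_nhds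
    have c1 : ContinuousAt (fun s : ℝ => √(f0 s)) q := (f0_cont hq0).sqrt
    have c2 : ContinuousAt (fun s : ℝ => 1 / s) q := continuousAt_const.div continuousAt_id hq0.ne'
    have c3 : ContinuousAt (fun s : ℝ => 4/3 * Real.pi * q ^ 3 - 4/3 * Real.pi * s ^ 3) q := by fun_prop
    exact (c1.mul c2).mul c3
  have := ge_of_tendsto hlim (b := 1) (by
    filter_upwards [Ioo_mem_nhdsLT hq0] with s hs using key s hs.1 hs.2)
  rw [sub_self, mul_zero] at this
  linarith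

/-! ### the outer bootstrap -/

lemma be_cinv {c r : ℝ} (hc : 0 ≤ c) (hr : 0 < r) : be (c * (r ^ 4)⁻¹) = √c * c * (r ^ 6)⁻¹ := by
  have h1 : √(c * (r ^ 4)⁻¹) = √c * (r ^ 2)⁻¹ := by
    rw [Real.sqrt_mul hc, Real.sqrt_inv]
    have : √(r ^ 4) = r ^ 2 := by rw [show r ^ 4 = (r ^ 2) ^ 2 by ring, Real.sqrt_sq (by positivity)]
    rw [this]
  rw [be_mul_sqrt (by positivity), h1]
  field_simp

lemma f0_boot {r0 c : ℝ} (hr0 : 0 < r0) (hc0 : 0 ≤ c) (hc : √c ≤ 9 / (4 * Real.pi))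
    (h : ∀ r, r0 ≤ r → f0 r ≤ c * (r ^ 4)⁻¹) : ∀ r, r0 ≤ r → f0 r ≤ (3/4 * c) * (r ^ 4)⁻¹ := by
  intro r hr
  have hr' : 0 < r := hr0.trans_le hr
  have hpi := Real.pi_pos
  have i1 : Integrable (fun x : E3 => K6 r ‖x‖) := K6_intble hr'
  have i2 : Integrable (fun x : E3 => K6 r ‖x‖ / max ‖x‖ r) := by
    have := max_intble (K6_meas r) (K6_nice hr') (r • e0)
    rwa [norm_re hr'.le] at this
  have v2 : ∫ x : E3, K6 r ‖x‖ / max ‖x‖ r = Real.pi * (r ^ 4)⁻¹ := by
    have h1 := pot_max (K6_meas r) (r • e0)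
    rw [K6_pot_in hr' (by rw [norm_re hr'.le]), norm_re hr'.le] at h1
    exact h1.symm
  have hle : f0 r ≤ ∫ x : E3, √c * c * (K6 r ‖x‖ * (1 / r) - K6 r ‖x‖ / max ‖x‖ r) := by
    conv_lhs => rw [(f0_int hr').2]
    refine integral_mono (f0_int hr').1 (((i1.mul_const _).sub i2).const_mul _) (fun x => ?_)
    simp only
    by_cases hx : ‖x‖ ≤ r
    · rw [max_eq_right hx, K6_in hx]; simp
    · rw [not_le] at hx
      have hx0 : 0 < ‖x‖ := hr'.trans hx
      rw [K6_out hx, max_eq_left hx.le, rho0_f0 x]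
      have h1 : be (f0 ‖x‖) ≤ √c * c * (‖x‖ ^ 6)⁻¹ := by
        rw [← be_cinv hc0 hx0]
        exact be_mono (h _ (hr.trans hx.le))
      have h2 : 0 ≤ 1 / r - 1 / ‖x‖ := by
        have := one_div_le_one_div_of_le hr' hx.le
        linarith
      calc be (f0 ‖x‖) * (1 / r - 1 / ‖x‖) ≤ √c * c * (‖x‖ ^ 6)⁻¹ * (1 / r - 1 / ‖x‖) := mul_le_mul_of_nonneg_right h1 h2
        _ = _ := by ring
  have hval : ∫ x : E3, √c * c * (K6 r ‖x‖ * (1 / r) - K6 r ‖x‖ / max ‖x‖ r) = √c * c * (Real.pi / 3 * (r ^ 4)⁻¹) := by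
    rw [integral_const_mul, integral_sub (i1.mul_const _) i2, v2, integral_mul_const, K6_mass hr']
    congr 1
    field_simp
    ring
  rw [hval] at hle
  refine hle.trans ?_
  have h3 : √c * (Real.pi / 3) ≤ 3/4 := by
    calc √c * (Real.pi / 3) ≤ 9 / (4 * Real.pi) * (Real.pi / 3) := mul_le_mul_of_nonneg_right hc (by positivity)
      _ = 3/4 := by field_simp; norm_num
  have h4 : 0 ≤ c * (r ^ 4)⁻¹ := by positivity
  calc √c * c * (Real.pi / 3 * (r ^ 4)⁻¹) = (√c * (Real.pi / 3)) * (c * (r ^ 4)⁻¹) := by ring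
    _ ≤ 3/4 * (c * (r ^ 4)⁻¹) := mul_le_mul_of_nonneg_right h3 h4
    _ = _ := by ring

/-- the atomic potential is not below `(9/4π)² r⁻⁴` at infinity -/
theorem f0_contra {r0 : ℝ} (hr0 : 0 < r0) (h : ∀ r, r0 ≤ r → f0 r ≤ (9 / (4 * Real.pi)) ^ 2 * (r ^ 4)⁻¹) : False := by
  have hpi := Real.pi_pos
  have hn : ∀ n : ℕ, ∀ r, r0 ≤ r → f0 r ≤ ((3/4) ^ n * (9 / (4 * Real.pi)) ^ 2) * (r ^ 4)⁻¹ := by
    intro n
    induction n with
    | zero => simpa using h
    | succ n ih =>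
      intro r hr
      have hb := f0_boot hr0 (c := (3/4) ^ n * (9 / (4 * Real.pi)) ^ 2) (by positivity) (by
        rw [Real.sqrt_le_left (by positivity)]
        have : ((3:ℝ)/4) ^ n ≤ 1 := pow_le_one₀ (by norm_num) (by norm_num)
        exact mul_le_of_le_one_left (by positivity) this) ih r hr
      rw [pow_succ]
      refine hb.trans (le_of_eq (by ring))
  have hlim : Tendsto (fun n : ℕ => ((3/4 : ℝ) ^ n * (9 / (4 * Real.pi)) ^ 2) * (r0 ^ 4)⁻¹) atTop (𝓝 ((0 * (9 / (4 * Real.pi)) ^ 2) * (r0 ^ 4)⁻¹)) :=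
    ((tendsto_pow_atTop_nhds_zero_of_lt_one (by norm_num) (by norm_num)).mul_const _).mul_const _
  have := ge_of_tendsto hlim (b := f0 r0) (Eventually.of_forall (fun n => hn n r0 le_rfl))
  rw [zero_mul, zero_mul] at this
  exact absurd (f0_pos hr0) (not_lt.2 this)

/-! ### ions -/

section

variable {μ : ℝ} {ρ : E3 → ℝ}

noncomputable def gg (μ : ℝ) (ρ : E3 → ℝ) (x : E3) : ℝ := μ - (pot rho0 x - pot ρ x)

/-- profile of the density difference -/
noncomputable def DD (ρ : E3 → ℝ) (r : ℝ) : ℝ := prof rho0 r - prof ρ r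

lemma DD_eq (h : ELs z1 R1 μ ρ) (x : E3) : rho0 x - ρ x = DD ρ ‖x‖ := by
  unfold DD; rw [← EL_prof rho0_EL, ← EL_prof h]

lemma diff_nonneg (hμ : 0 ≤ μ) (h : ELs z1 R1 μ ρ) (x : E3) : 0 ≤ rho0 x - ρ x := by
  have := (EL_mono h rho0_EL hμ).2 x
  linarith

lemma gg_nonneg (hμ : 0 ≤ μ) (h : ELs z1 R1 μ ρ) (x : E3) : 0 ≤ gg μ ρ x := by
  have := (EL_mono h rho0_EL hμ).1 x
  unfold gg; linarith

lemma rho_gg (h : ELs z1 R1 μ ρ) (x : E3) : ρ x = be (phi0 x - gg μ ρ x) := by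
  have := h.eq x
  rw [VV1] at this
  rw [this]
  congr 1
  unfold phi0 gg; ring

lemma dint (h : ELs z1 R1 μ ρ) (y : E3) : Integrable (fun x : E3 => (rho0 x - ρ x) / max ‖x‖ ‖y‖) ∧
    gg μ ρ y = μ - ∫ x : E3, (rho0 x - ρ x) / max ‖x‖ ‖y‖ := by
  have i1 := EL_max_int rho0_EL y
  have i2 := EL_max_int h y
  have e : (fun x : E3 => (rho0 x - ρ x) / max ‖x‖ ‖y‖) = fun x => rho0 x / max ‖x‖ ‖y‖ - ρ x / max ‖x‖ ‖y‖ := by
    funext x; ring
  rw [e]
  refine ⟨i1.sub i2, ?_⟩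
  rw [integral_sub i1 i2, gg, EL_pot rho0_EL, EL_pot h]

lemma gg_le (hμ : 0 ≤ μ) (h : ELs z1 R1 μ ρ) (y : E3) : gg μ ρ y ≤ μ := by
  rw [(dint h y).2]
  have : 0 ≤ ∫ x : E3, (rho0 x - ρ x) / max ‖x‖ ‖y‖ :=
    integral_nonneg (fun x => div_nonneg (diff_nonneg hμ h x) ((norm_nonneg x).trans (le_max_left _ _)))
  linarith

/-- `gg` is radially nondecreasing -/
lemma gg_mono (hμ : 0 ≤ μ) (h : ELs z1 R1 μ ρ) {y y' : E3} (hy : y ≠ 0) (hyy : ‖y‖ ≤ ‖y'‖) : gg μ ρ y ≤ gg μ ρ y' := by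
  rw [(dint h y).2, (dint h y').2]
  have hy0 : 0 < ‖y‖ := norm_pos_iff.2 hy
  have : ∫ x : E3, (rho0 x - ρ x) / max ‖x‖ ‖y'‖ ≤ ∫ x : E3, (rho0 x - ρ x) / max ‖x‖ ‖y‖ := by
    refine integral_mono (dint h y').1 (dint h y).1 (fun x => ?_)
    exact div_le_div_of_nonneg_left (diff_nonneg hμ h x) (lt_of_lt_of_le hy0 (le_max_right _ _)) (max_le_max le_rfl hyy)
  linarith

/-- the main lower bound for `gg` -/
lemma gg_lower (hμ : 0 ≤ μ) (h : ELs z1 R1 μ ρ) {t r : ℝ} (ht : 0 < t) (hr : 3 * t ≤ r)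
    (hanti : ∀ s, t ≤ s → s ≤ r → DD ρ r ≤ DD ρ s) :
    4 / 9 * Real.pi * r ^ 2 * DD ρ r ≤ gg μ ρ (r • e0) := by
  have hr0 : 0 < r := by linarith
  have htr : t ≤ r := by linarith
  have hpi := Real.pi_pos
  have g1 := gg_nonneg hμ h (t • e0)
  obtain ⟨j1, e1⟩ := dint h (t • e0)
  obtain ⟨j2, e2⟩ := dint h (r • e0)
  rw [norm_re ht.le] at j1 e1
  rw [norm_re hr0.le] at j2 e2
  have hD0 : 0 ≤ DD ρ r := by
    have := diff_nonneg hμ h (r • e0)
    rwa [DD_eq h, norm_re hr0.le] at this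
  set A : Set E3 := ball (0:E3) r \ ball 0 t with hA
  have hmA : MeasurableSet A := measurableSet_ball.diff measurableSet_ball
  obtain ⟨k1, w1⟩ := right_val ht (s := r) hr0
  obtain ⟨k2, w2⟩ := right_val ht (s := t) ht
  obtain ⟨k3, w3⟩ := right_val hr0 (s := r) hr0
  obtain ⟨k4, w4⟩ := right_val hr0 (s := t) ht
  have kA : IntegrableOn (fun x : E3 => 1 / max ‖x‖ t - 1 / max ‖x‖ r) (ball 0 r) := k1.sub k3
  have kt : IntegrableOn (fun x : E3 => 1 / max ‖x‖ t - 1 / max ‖x‖ r) (ball 0 t) := k2.sub k4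
  have vA : ∫ x in A, (1 / max ‖x‖ t - 1 / max ‖x‖ r) = (Vb r t - Vb r r) - (Vb t t - Vb t r) := by
    rw [hA, integral_diff measurableSet_ball kA (ball_subset_ball htr), integral_sub k1 k3, integral_sub k2 k4, w1, w2, w3, w4]
  have hval : 4 / 9 * Real.pi * r ^ 2 ≤ (Vb r t - Vb r r) - (Vb t t - Vb t r) := by
    unfold Vb
    rw [if_neg (by linarith), if_pos le_rfl, if_pos le_rfl, if_pos htr]
    have h1 : 4 / 3 * Real.pi * r ^ 3 / r = 4 / 3 * Real.pi * r ^ 2 := by field_simp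
    have h2 : 4 / 3 * Real.pi * t ^ 3 / t = 4 / 3 * Real.pi * t ^ 2 := by field_simp
    have h3 : 0 ≤ 4 / 3 * Real.pi * t ^ 3 / r := by positivity
    rw [h1, h2]
    have h4 : t ^ 2 ≤ r ^ 2 / 9 := by nlinarith
    nlinarith
  have hdiff : DD ρ r * ∫ x in A, (1 / max ‖x‖ t - 1 / max ‖x‖ r)
      ≤ (∫ x : E3, (rho0 x - ρ x) / max ‖x‖ t) - ∫ x : E3, (rho0 x - ρ x) / max ‖x‖ r := by
    rw [← integral_sub j1 j2, ← integral_const_mul, ← integral_indicator hmA]
    refine integral_mono ?_ (j1.sub j2) (fun x => ?_)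
    · rw [integrable_indicator_iff hmA]
      exact (kA.mono_set diff_subset).const_mul _
    · simp only
      have h0 : (rho0 x - ρ x) / max ‖x‖ t - (rho0 x - ρ x) / max ‖x‖ r = (rho0 x - ρ x) * (1 / max ‖x‖ t - 1 / max ‖x‖ r) := by ring
      have hk : 0 ≤ 1 / max ‖x‖ t - 1 / max ‖x‖ r := by
        have := one_div_le_one_div_of_le (max_pos' ht x) (max_le_max (le_refl ‖x‖) htr)
        linarith
      rw [h0]
      by_cases hx : x ∈ A
      · rw [indicator_of_mem hx]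
        have hx' : ‖x‖ < r ∧ t ≤ ‖x‖ := by simpa [hA] using hx
        rw [DD_eq h x]
        exact mul_le_mul_of_nonneg_right (hanti _ hx'.2 hx'.1.le) hk
      · rw [indicator_of_notMem hx]
        exact mul_nonneg (diff_nonneg hμ h x) hk
  rw [vA] at hdiff
  have h5 := mul_le_mul_of_nonneg_left hval hD0
  nlinarith

/-- the Sommerfeld type bound forced by monotonicity -/
lemma f0_upper {t : ℝ} (ht : 0 < t)
    (HM : ∀ μ, 0 < μ → ∀ ρ, ELs z1 R1 μ ρ → ∀ r s, t ≤ r → r ≤ s → DD ρ s ≤ DD ρ r)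
    {r : ℝ} (hr : 3 * t ≤ r) : f0 r ≤ (9 / (4 * Real.pi)) ^ 2 * (r ^ 4)⁻¹ := by
  have hr0 : 0 < r := by linarith
  have hpi := Real.pi_pos
  have hμ := f0_pos hr0
  set μ := f0 r with hμd
  obtain ⟨ρ, hρ, -⟩ := exists_rho rho0_EL hμ.le
  have hM := HM μ hμ ρ hρ
  set y : E3 := r • e0 with hy
  have hy0 : y ≠ 0 := re_ne hr0
  have hny : ‖y‖ = r := norm_re hr0.le
  have hphi : phi0 y = μ := by rw [phi0_f0, hny]
  set g := gg μ ρ y with hg
  have g0 : 0 ≤ g := gg_nonneg hμ.le hρ y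
  have gle : g ≤ μ := gg_le hμ.le hρ y
  have glow : 4 / 9 * Real.pi * r ^ 2 * DD ρ r ≤ g := gg_lower hμ.le hρ ht hr (fun s h1 h2 => hM s r h1 h2)
  have hDr : DD ρ r = be μ - be (μ - g) := by
    have := DD_eq hρ y
    rw [hny] at this
    rw [← this, rho0_eq, rho_gg hρ, hphi]
  -- convexity
  have hconv : √μ * g ≤ DD ρ r := by
    rw [hDr, be_mul_sqrt hμ.le, be_mul_sqrt (by linarith : 0 ≤ μ - g)]
    have : √(μ - g) ≤ √μ := Real.sqrt_le_sqrt (by linarith)
    have h1 : √(μ - g) * (μ - g) ≤ √μ * (μ - g) := mul_le_mul_of_nonneg_right this (by linarith)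
    nlinarith
  have gpos : 0 < g := by
    rcases lt_or_eq_of_le g0 with h | h
    · exact h
    · exfalso
      -- then the difference vanishes identically
      have hD0 : DD ρ r = 0 := by rw [hDr, ← h, sub_zero, sub_self]
      have hz : ∀ x : E3, x ≠ 0 → rho0 x - ρ x = 0 := by
        intro x hx
        rcases le_total r ‖x‖ with h1 | h1
        · have h2 := hM r ‖x‖ (by linarith) h1
          have h3 := diff_nonneg hμ.le hρ x
          rw [DD_eq hρ] at h3 ⊢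
          linarith
        · have h2 := gg_mono hμ.le hρ hx (by rw [hny]; exact h1 : ‖x‖ ≤ ‖y‖)
          have h3 := gg_nonneg hμ.le hρ x
          have h4 : gg μ ρ x = 0 := by linarith
          rw [rho_gg hρ x, h4, sub_zero, rho0_eq, sub_self]
      have h2 := (dint hρ y).2
      have h3 : ∫ x : E3, (rho0 x - ρ x) / max ‖x‖ ‖y‖ = 0 := by
        rw [← integral_zero E3 ℝ]
        refine integral_congr_ae ?_
        filter_upwards [ae_ne0] with x hx
        rw [hz x hx, zero_div]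
      rw [h3, sub_zero] at h2
      linarith
  have h1 : 4 / 9 * Real.pi * r ^ 2 * (√μ * g) ≤ g :=
    (mul_le_mul_of_nonneg_left hconv (by positivity)).trans glow
  have h2 : 4 / 9 * Real.pi * r ^ 2 * √μ ≤ 1 := by
    have : (4 / 9 * Real.pi * r ^ 2 * √μ) * g ≤ 1 * g := by linarith
    exact le_of_mul_le_mul_right this gpos
  have h3 : √μ ≤ 9 / (4 * Real.pi) * (r ^ 2)⁻¹ := by
    rw [← div_eq_mul_inv, div_div, le_div_iff₀ (by positivity)]
    nlinarith
  calc μ = √μ ^ 2 := (Real.sq_sqrt hμ.le).symm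
    _ ≤ (9 / (4 * Real.pi) * (r ^ 2)⁻¹) ^ 2 := pow_le_pow_left₀ (Real.sqrt_nonneg _) h3 2
    _ = _ := by rw [mul_pow, inv_pow, ← pow_mul]

end

/-- monotonicity fails for every plane at distance `t` -/
theorem not_mono {t : ℝ} (ht : 0 < t) :
    ∃ μ, 0 < μ ∧ ∃ ρ, ELs z1 R1 μ ρ ∧ ∃ r s, t ≤ r ∧ r < s ∧ s ≤ r + 2 * t ∧ DD ρ r < DD ρ s := by
  by_contra hcon
  push Not at hcon
  have step : ∀ μ, 0 < μ → ∀ ρ, ELs z1 R1 μ ρ → ∀ n : ℕ, ∀ r s, t ≤ r → r ≤ s → s ≤ r + 2 * t * n → DD ρ s ≤ DD ρ r := by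
    intro μ hμ ρ hρ n
    induction n with
    | zero =>
      intro r s h1 h2 h3
      have : r = s := by simp at h3; linarith
      rw [this]
    | succ n ih =>
      intro r s h1 h2 h3
      push_cast at h3
      rcases eq_or_lt_of_le h2 with h | h
      · rw [h]
      · rcases le_or_gt s (r + 2 * t) with h4 | h4
        · exact hcon μ hμ ρ hρ r s h1 h h4
        · have a1 := hcon μ hμ ρ hρ r (r + 2 * t) h1 (by linarith) le_rfl
          have a2 := ih (r + 2 * t) s (by linarith) h4.le (by linarith)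
          linarith
  have HM : ∀ μ, 0 < μ → ∀ ρ, ELs z1 R1 μ ρ → ∀ r s, t ≤ r → r ≤ s → DD ρ s ≤ DD ρ r := by
    intro μ hμ ρ hρ r s h1 h2
    obtain ⟨n, hn⟩ := exists_nat_gt ((s - r) / (2 * t))
    rw [div_lt_iff₀ (by linarith)] at hn
    exact step μ hμ ρ hρ n r s h1 h2 (by linarith)
  exact f0_contra (r0 := 3 * t) (by linarith) (fun r hr => f0_upper ht HM hr)

end Pool.Agent.Q233.TFMono
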