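import Pool.Agent.Q233.TFAtom

/-!
# Energy of compactly supported neutral trial atoms
-/

set_option autoImplicit false
open MeasureTheory Set Filter Topology Metric
open scoped RealInnerProductSpace BigOperators ENNReal
open Pool.Agent.Helper557 Pool.Agent.Helper557.TFP
open Pool.Agent.H9R2.TF Pool.Agent.Q233.TFShell Pool.Agent.Q233.TFAtom

namespace Pool.Agent.Q233.TFSat

/-- atomic energy functional -/
noncomputable def X (ρ : E3 → ℝ) : ℝ :=
  3/5 * (∫ x, ρ x ^ (5/3 : ℝ)) - (∫ x, 1 / ‖x‖ * ρ x) + 1/2 * ∫ x, ρ x * pot ρ x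

lemma V1int {g : E3 → ℝ} (hg : Nice g) : Integrable (fun x : E3 => 1 / ‖x‖ * g x) := by
  have := vint z1 R1 hg
  simp only [VV1] at this
  exact this

lemma rho0_pow (x : E3) (hx : x ≠ 0) : rho0 x ^ (2/3 : ℝ) = phi0 x := by
  rw [rho0_eq, be_pow, max_eq_left (phi0_nonneg hx)]

lemma X_expand {σ : E3 → ℝ} (hσ : Adm σ) :
    Integrable (fun x => 3/5 * σ x ^ (5/3 : ℝ) - 3/5 * rho0 x ^ (5/3 : ℝ) - phi0 x * (σ x - rho0 x)) ∧
    X σ = X rho0 + (∫ x, (3/5 * σ x ^ (5/3 : ℝ) - 3/5 * rho0 x ^ (5/3 : ℝ) - phi0 x * (σ x - rho0 x)))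
      + 1/2 * ∫ x, (σ x - rho0 x) * pot (fun y => σ y - rho0 y) x := by
  have nσ := nice_of_adm hσ
  have n0 := rho0_nice
  have nδ : Nice (fun y => σ y - rho0 y) := nice_sub' nσ n0
  have i1 : Integrable (fun x => σ x ^ (5/3 : ℝ)) := hσ.2.2.2
  have i2 : Integrable (fun x => rho0 x ^ (5/3 : ℝ)) := rho0_EL.int53
  have i3 : Integrable (fun x : E3 => 1 / ‖x‖ * (σ x - rho0 x)) := V1int nδ
  have i4 : Integrable (fun x => (σ x - rho0 x) * pot rho0 x) := TF_E1_int _ _ nδ.2.1 n0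
  have i5 : Integrable (fun x => phi0 x * (σ x - rho0 x)) := by
    refine (i3.sub i4).congr (ae_of_all _ (fun x => ?_))
    simp only [phi0, Pi.sub_apply]; ring
  refine ⟨((i1.const_mul _).sub (i2.const_mul _)).sub i5, ?_⟩
  have e1 := (kop_full n0).exp n0 nδ 1
  have e2 : (fun y => rho0 y + 1 * (σ y - rho0 y)) = σ := by funext y; ring
  have e3 : ∫ x, σ x * pot σ x = (∫ x, rho0 x * pot rho0 x) + 2 * (∫ x, (σ x - rho0 x) * pot rho0 x)
      + ∫ x, (σ x - rho0 x) * pot (fun y => σ y - rho0 y) x := by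
    rw [e2] at e1
    have : (fun x => (rho0 x + 1 * (σ x - rho0 x)) * pot σ x) = fun x => σ x * pot σ x := by
      funext x; ring
    rw [this] at e1
    rw [e1]; ring
  have e4 : ∫ x, (3/5 * σ x ^ (5/3 : ℝ) - 3/5 * rho0 x ^ (5/3 : ℝ) - phi0 x * (σ x - rho0 x))
      = 3/5 * (∫ x, σ x ^ (5/3 : ℝ)) - 3/5 * (∫ x, rho0 x ^ (5/3 : ℝ)) - ((∫ x : E3, 1 / ‖x‖ * (σ x - rho0 x)) - ∫ x, (σ x - rho0 x) * pot rho0 x) := by
    have a1 : ∫ x, (3/5 * σ x ^ (5/3 : ℝ) - 3/5 * rho0 x ^ (5/3 : ℝ) - phi0 x * (σ x - rho0 x))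
      = (∫ x, (3/5 * σ x ^ (5/3 : ℝ) - 3/5 * rho0 x ^ (5/3 : ℝ))) - ∫ x, phi0 x * (σ x - rho0 x) :=
      integral_sub ((i1.const_mul _).sub (i2.const_mul _)) i5
    have a2 : ∫ x, (3/5 * σ x ^ (5/3 : ℝ) - 3/5 * rho0 x ^ (5/3 : ℝ))
      = (∫ x, 3/5 * σ x ^ (5/3 : ℝ)) - ∫ x, 3/5 * rho0 x ^ (5/3 : ℝ) :=
      integral_sub (i1.const_mul _) (i2.const_mul _)
    have a3 : ∫ x, phi0 x * (σ x - rho0 x) = (∫ x : E3, 1 / ‖x‖ * (σ x - rho0 x)) - ∫ x, (σ x - rho0 x) * pot rho0 x := by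
      rw [← integral_sub i3 i4]
      congr 1
      funext x
      simp only [phi0]; ring
    rw [a1, a2, a3, integral_const_mul, integral_const_mul]
  have e5 : ∫ x : E3, 1 / ‖x‖ * (σ x - rho0 x) = (∫ x : E3, 1 / ‖x‖ * σ x) - ∫ x : E3, 1 / ‖x‖ * rho0 x := by
    rw [← integral_sub (V1int nσ) (V1int n0)]
    congr 1
    funext x; ring
  unfold X
  rw [e3, e4, e5]
  ring

/-- the neutral atom minimises the functional -/
theorem X_min {σ : E3 → ℝ} (hσ : Adm σ) : X rho0 ≤ X σ := by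
  obtain ⟨hi, he⟩ := X_expand hσ
  have nδ : Nice (fun y => σ y - rho0 y) := nice_sub' (nice_of_adm hσ) rho0_nice
  have h1 := pot_pos nδ
  have h2 : 0 ≤ ∫ x, (3/5 * σ x ^ (5/3 : ℝ) - 3/5 * rho0 x ^ (5/3 : ℝ) - phi0 x * (σ x - rho0 x)) := by
    refine integral_nonneg_of_ae ?_
    filter_upwards [ae_ne0] with x hx
    have := sc2 (hσ.2.1 x) (rho0_nonneg x)
    rw [rho0_pow x hx] at this
    simp only [Pi.zero_apply]
    linarith
  rw [he]
  linarith

/-- the charge outside the ball of radius `L` -/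
noncomputable def qt (L : ℝ) : ℝ := ∫ x in (ball (0:E3) L)ᶜ, rho0 x

lemma qt_nonneg (L : ℝ) : 0 ≤ qt L := setIntegral_nonneg measurableSet_ball.compl (fun x _ => rho0_nonneg x)

lemma qt_le {L : ℝ} (hL : 1 < L) : qt L ≤ 5 * (L ^ 3)⁻¹ := by
  have hL0 : 0 < L := by linarith
  -- compare with the tail outside `L' < L`
  have h1 : ∀ L' : ℝ, 1 < L' → L' < L → qt L ≤ 4 / 3 * Real.pi * (L' ^ 3)⁻¹ := by
    intro L' h1 h2
    have h0 : 0 < L' := by linarith
    unfold qt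
    rw [← integral_indicator measurableSet_ball.compl, ← K6_mass h0]
    refine integral_mono (rho0_nice.2.1.indicator measurableSet_ball.compl) (K6_intble h0) (fun x => ?_)
    by_cases hx : x ∈ (ball (0:E3) L)ᶜ
    · have hx2 : L ≤ ‖x‖ := by simpa using hx
      rw [indicator_of_mem hx, K6_out (h2.trans_le hx2)]
      exact rho0_le (by linarith)
    · rw [indicator_of_notMem hx]; exact K6_nonneg _ _
  have h2 : Tendsto (fun L' : ℝ => 4 / 3 * Real.pi * (L' ^ 3)⁻¹) (𝓝[<] L) (𝓝 (4 / 3 * Real.pi * (L ^ 3)⁻¹)) := by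
    refine Tendsto.mono_left ?_ nhdsWithin_le_nhds
    have : ContinuousAt (fun L' : ℝ => 4 / 3 * Real.pi * (L' ^ 3)⁻¹) L :=
      continuousAt_const.mul ((continuousAt_id.pow 3).inv₀ (by simp [hL0.ne']))
    exact this
  have h3 : qt L ≤ 4 / 3 * Real.pi * (L ^ 3)⁻¹ := by
    refine ge_of_tendsto h2 ?_
    have : ∀ᶠ L' in 𝓝[<] L, 1 < L' ∧ L' < L := by
      filter_upwards [Ioo_mem_nhdsLT hL] with a ha using ha
    filter_upwards [this] with a ha using h1 a ha.1 ha.2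
  have h4 : 4 / 3 * Real.pi ≤ 5 := by have := Real.pi_lt_d2; linarith
  exact h3.trans (mul_le_mul_of_nonneg_right h4 (by positivity))

lemma in_mass (L : ℝ) : ∫ x in ball (0:E3) L, rho0 x = 1 - qt L := by
  have := integral_add_compl (measurableSet_ball (x := (0:E3)) (ε := L)) rho0_nice.2.1
  rw [rho0_mass] at this
  unfold qt
  linarith

/-! ### the truncated, renormalised atom -/

noncomputable def trG (L r : ℝ) : ℝ := (1 - qt L)⁻¹ * (Iio L).indicator (prof rho0) r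
noncomputable def tr (L : ℝ) (x : E3) : ℝ := trG L ‖x‖

lemma trG_meas (L : ℝ) : Measurable (trG L) :=
  ((prof_meas rho0_nice.1).indicator measurableSet_Iio).const_mul _

lemma ind_rad (L : ℝ) (x : E3) : (Iio L).indicator (prof rho0) ‖x‖ = (ball (0:E3) L).indicator rho0 x := by
  by_cases h : ‖x‖ < L
  · rw [indicator_of_mem (by exact h), indicator_of_mem (by simpa using h), EL_prof rho0_EL]
  · rw [indicator_of_notMem (by exact h), indicator_of_notMem (by simpa using h)]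

lemma ind_rad' (L : ℝ) (x : E3) : (Ici L).indicator (prof rho0) ‖x‖ = (ball (0:E3) L)ᶜ.indicator rho0 x := by
  by_cases h : L ≤ ‖x‖
  · rw [indicator_of_mem (by exact h), indicator_of_mem (by simpa using h), EL_prof rho0_EL]
  · rw [indicator_of_notMem (by exact h), indicator_of_notMem (by simpa using h)]

lemma tr_eq (L : ℝ) (x : E3) : tr L x = (1 - qt L)⁻¹ * (ball (0:E3) L).indicator rho0 x := by
  unfold tr trG; rw [ind_rad]

lemma tr_out {L : ℝ} {x : E3} (h : L ≤ ‖x‖) : tr L x = 0 := by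
  rw [tr_eq, indicator_of_notMem (by simpa using h), mul_zero]

lemma psm (c : ℝ) (g : E3 → ℝ) (x : E3) : pot (fun y => c * g y) x = c * pot g x := by
  unfold pot
  rw [← integral_const_mul]
  congr 1
  funext y
  ring

section

variable {L : ℝ} (hL : 3 ≤ L)
include hL

lemma q_half : qt L ≤ 1/2 := by
  have h1 := qt_le (L := L) (by linarith)
  have h2 : (L ^ 3)⁻¹ ≤ (3 ^ 3)⁻¹ := inv_anti₀ (by norm_num) (pow_le_pow_left₀ (by norm_num) hL 3)
  norm_num at h2
  linarith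

lemma tr_nice : Nice (tr L) := by
  have : tr L = fun x => (1 - qt L)⁻¹ * (ball (0:E3) L).indicator rho0 x := funext (tr_eq L)
  rw [this]
  exact nice_smul (nice_ind rho0_nice measurableSet_ball) _

lemma tr_nonneg (x : E3) : 0 ≤ tr L x := by
  rw [tr_eq]
  have := q_half hL
  exact mul_nonneg (inv_nonneg.2 (by linarith)) (indicator_nonneg (fun x _ => rho0_nonneg x) _)

lemma tr_adm : Adm (tr L) := adm_of_nice (tr_nice hL) (tr_nonneg hL)

lemma tr_mass : ∫ x, tr L x = 1 := by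
  simp only [tr_eq]
  have := q_half hL
  rw [integral_const_mul, integral_indicator measurableSet_ball, in_mass]
  exact inv_mul_cancel₀ (by linarith)

end

theorem tr_X : ∃ C, 0 ≤ C ∧ ∀ L, 3 ≤ L → X (tr L) ≤ X rho0 + C * (L ^ 6)⁻¹ := by
  obtain ⟨B, hB0, hB⟩ := pot_bdd rho0_nice
  have hB' : ∀ x, pot rho0 x ≤ B := fun x => (le_abs_self _).trans (hB x)
  set K1 := ∫ x, rho0 x ^ (5/3 : ℝ) with hK1
  have hK10 : 0 ≤ K1 := integral_nonneg (fun x => Real.rpow_nonneg (rho0_nonneg x) _)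
  refine ⟨100 * (K1 + B/2) + 18, by positivity, fun L hL => ?_⟩
  have hL0 : 0 < L := by linarith
  set q := qt L with hq
  have hq0 : 0 ≤ q := qt_nonneg L
  have hq2 : q ≤ 1/2 := q_half hL
  have hq5 : q ≤ 5 * (L ^ 3)⁻¹ := qt_le (by linarith)
  set κ := q / (1 - q) with hκ
  have h1q : 0 < 1 - q := by linarith
  have hκ0 : 0 ≤ κ := div_nonneg hq0 h1q.le
  have hκ2 : κ ≤ 2 * q := by
    rw [hκ, div_le_iff₀ h1q]
    nlinarith
  have hinv : (1 - q)⁻¹ = 1 + κ := by rw [hκ]; field_simp; ring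
  have nin : Nice ((ball (0:E3) L).indicator rho0) := nice_ind rho0_nice measurableSet_ball
  have nb : Nice ((ball (0:E3) L)ᶜ.indicator rho0) := nice_ind rho0_nice measurableSet_ball.compl
  have na : Nice (fun x => κ * (ball (0:E3) L).indicator rho0 x) := nice_smul nin κ
  have hδ : (fun x => tr L x - rho0 x) = fun x => κ * (ball (0:E3) L).indicator rho0 x + (-1) * (ball (0:E3) L)ᶜ.indicator rho0 x := by
    funext x
    rw [tr_eq, ← hq, hinv]
    by_cases h : x ∈ ball (0:E3) L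
    · rw [indicator_of_mem h, indicator_of_notMem (by simpa using h)]; ring
    · rw [indicator_of_notMem h, indicator_of_mem (by simpa using h)]; ring
  -- Coulomb part
  have hb0 : ∀ x, 0 ≤ (ball (0:E3) L)ᶜ.indicator rho0 x := fun x => indicator_nonneg (fun x _ => rho0_nonneg x) _
  have hi0 : ∀ x, 0 ≤ (ball (0:E3) L).indicator rho0 x := fun x => indicator_nonneg (fun x _ => rho0_nonneg x) _
  have hpb : ∀ y, pot ((ball (0:E3) L)ᶜ.indicator rho0) y ≤ q / L := by
    intro y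
    have e1 : (ball (0:E3) L)ᶜ.indicator rho0 = fun x : E3 => (Ici L).indicator (prof rho0) ‖x‖ :=
      funext (fun x => (ind_rad' L x).symm)
    have hm : Measurable ((Ici L).indicator (prof rho0)) := (prof_meas rho0_nice.1).indicator measurableSet_Ici
    have e2 : ∫ x : E3, (Ici L).indicator (prof rho0) ‖x‖ / L = q / L := by
      rw [integral_div]
      simp only [ind_rad']
      rw [integral_indicator measurableSet_ball.compl]
      rfl
    rw [e1, pot_max hm, ← e2]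
    refine integral_mono (max_intble hm (by rw [← e1]; exact nb) y) ((by rw [← e1]; exact nb.2.1 : Integrable (fun x : E3 => (Ici L).indicator (prof rho0) ‖x‖)).div_const _) (fun x => ?_)
    simp only
    by_cases h : L ≤ ‖x‖
    · apply div_le_div_of_nonneg_left _ hL0 (h.trans (le_max_left _ _))
      rw [ind_rad']; exact hb0 x
    · rw [indicator_of_notMem (by exact h)]; simp
  have D1 := (kop_full rho0_nice).exp na nb (-1)
  rw [← hδ] at D1
  have D2 : 0 ≤ ∫ x, (ball (0:E3) L)ᶜ.indicator rho0 x * pot (fun x => κ * (ball (0:E3) L).indicator rho0 x) x :=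
    integral_nonneg (fun x => mul_nonneg (hb0 x) (pot_nonneg (fun y => mul_nonneg hκ0 (hi0 y)) x))
  have D3 : ∫ x, (κ * (ball (0:E3) L).indicator rho0 x) * pot (fun x => κ * (ball (0:E3) L).indicator rho0 x) x ≤ κ ^ 2 * B := by
    have s1 : ∫ x, (κ * (ball (0:E3) L).indicator rho0 x) * pot (fun x => κ * (ball (0:E3) L).indicator rho0 x) x
        ≤ ∫ x, κ ^ 2 * B * rho0 x := by
      refine integral_mono (TF_E1_int _ _ na.2.1 na) (rho0_nice.2.1.const_mul _) (fun x => ?_)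
      simp only
      rw [psm]
      have t1 : pot ((ball (0:E3) L).indicator rho0) x ≤ B :=
        (pot_mono nin rho0_nice (fun y => indicator_le_self' (fun y _ => rho0_nonneg y) y) x).trans (hB' x)
      have t0 : 0 ≤ pot ((ball (0:E3) L).indicator rho0) x := pot_nonneg hi0 x
      have t2 : (ball (0:E3) L).indicator rho0 x ≤ rho0 x := indicator_le_self' (fun y _ => rho0_nonneg y) x
      calc κ * (ball (0:E3) L).indicator rho0 x * (κ * pot ((ball (0:E3) L).indicator rho0) x)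
          = κ ^ 2 * ((ball (0:E3) L).indicator rho0 x * pot ((ball (0:E3) L).indicator rho0) x) := by ring
        _ ≤ κ ^ 2 * (rho0 x * B) := by
            apply mul_le_mul_of_nonneg_left _ (by positivity)
            exact mul_le_mul t2 t1 t0 (rho0_nonneg x)
        _ = κ ^ 2 * B * rho0 x := by ring
    rw [integral_const_mul, rho0_mass, mul_one] at s1
    exact s1
  have D4 : ∫ x, (ball (0:E3) L)ᶜ.indicator rho0 x * pot ((ball (0:E3) L)ᶜ.indicator rho0) x ≤ q * (q / L) := by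
    have s1 : ∫ x, (ball (0:E3) L)ᶜ.indicator rho0 x * pot ((ball (0:E3) L)ᶜ.indicator rho0) x
        ≤ ∫ x, (ball (0:E3) L)ᶜ.indicator rho0 x * (q / L) := by
      refine integral_mono (TF_E1_int _ _ nb.2.1 nb) (nb.2.1.mul_const _) (fun x => ?_)
      exact mul_le_mul_of_nonneg_left (hpb x) (hb0 x)
    rw [integral_mul_const, integral_indicator measurableSet_ball.compl] at s1
    exact s1
  have hD : ∫ x, (tr L x - rho0 x) * pot (fun y => tr L y - rho0 y) x ≤ κ ^ 2 * B + q * (q / L) := by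
    have e1 : (fun x => (tr L x - rho0 x) * pot (fun y => tr L y - rho0 y) x)
        = fun x => (κ * (ball (0:E3) L).indicator rho0 x + -1 * (ball (0:E3) L)ᶜ.indicator rho0 x) * pot (fun y => tr L y - rho0 y) x := by
      funext x
      rw [← congrFun hδ x]
    rw [e1, D1]
    linarith
  -- local part
  obtain ⟨hi, he⟩ := X_expand (tr_adm hL)
  have i2 : Integrable (fun x => rho0 x ^ (5/3 : ℝ)) := rho0_EL.int53
  have hloc : ∫ x, (3/5 * tr L x ^ (5/3 : ℝ) - 3/5 * rho0 x ^ (5/3 : ℝ) - phi0 x * (tr L x - rho0 x))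
      ≤ κ ^ 2 * K1 + (L ^ 4)⁻¹ * q := by
    have s1 : ∫ x, (3/5 * tr L x ^ (5/3 : ℝ) - 3/5 * rho0 x ^ (5/3 : ℝ) - phi0 x * (tr L x - rho0 x))
        ≤ ∫ x, (κ ^ 2 * rho0 x ^ (5/3 : ℝ) + (L ^ 4)⁻¹ * (ball (0:E3) L)ᶜ.indicator rho0 x) := by
      refine integral_mono_ae hi ((i2.const_mul _).add (nb.2.1.const_mul _)) ?_
      filter_upwards [ae_ne0] with x hx
      rw [← rho0_pow x hx]
      have r0 := rho0_nonneg x
      have hsum : rho0 x ^ (2/3 : ℝ) * rho0 x = rho0 x ^ (5/3 : ℝ) := by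
        rcases eq_or_lt_of_le r0 with h | h
        · rw [← h, Real.zero_rpow (by norm_num)]; simp
        · rw [← Real.rpow_add_one h.ne']; norm_num
      by_cases h : x ∈ ball (0:E3) L
      · have e1 : tr L x = (1 + κ) * rho0 x := by rw [tr_eq, ← hq, hinv, indicator_of_mem h]
        rw [indicator_of_notMem (by simpa using h), e1]
        have h1 := sc2 r0 (show 0 ≤ (1 + κ) * rho0 x by positivity)
        have h2 : ((1 + κ) * rho0 x) ^ (2/3 : ℝ) ≤ (1 + κ) * rho0 x ^ (2/3 : ℝ) := by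
          rw [Real.mul_rpow (by linarith) r0]
          apply mul_le_mul_of_nonneg_right _ (Real.rpow_nonneg r0 _)
          calc (1 + κ) ^ (2/3 : ℝ) ≤ (1 + κ) ^ (1 : ℝ) := Real.rpow_le_rpow_of_exponent_le (by linarith) (by norm_num)
            _ = 1 + κ := Real.rpow_one _
        have h3 : ((1 + κ) * rho0 x) ^ (2/3 : ℝ) * ((1 + κ) * rho0 x - rho0 x) ≤ (1 + κ) * rho0 x ^ (2/3 : ℝ) * (κ * rho0 x) := by
          have : (1 + κ) * rho0 x - rho0 x = κ * rho0 x := by ring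
          rw [this]
          exact mul_le_mul_of_nonneg_right h2 (by positivity)
        have h4 : (1 + κ) * rho0 x ^ (2/3 : ℝ) * (κ * rho0 x) = (κ + κ ^ 2) * rho0 x ^ (5/3 : ℝ) := by
          rw [← hsum]; ring
        have h5 : rho0 x ^ (2/3 : ℝ) * ((1 + κ) * rho0 x - rho0 x) = κ * rho0 x ^ (5/3 : ℝ) := by
          rw [← hsum]; ring
        rw [h5, mul_zero, add_zero]
        linarith
      · have e1 : tr L x = 0 := by rw [tr_eq, indicator_of_notMem h, mul_zero]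
        have hx2 : L ≤ ‖x‖ := by simpa using h
        rw [indicator_of_mem (by simpa using h), e1, Real.zero_rpow (by norm_num)]
        have h1 : rho0 x ^ (2/3 : ℝ) ≤ (L ^ 4)⁻¹ := by
          have h2 := rho0_le (x := x) (by linarith)
          have h3 : (‖x‖ ^ 6)⁻¹ ≤ (L ^ 6)⁻¹ := inv_anti₀ (by positivity) (pow_le_pow_left₀ hL0.le hx2 6)
          have h4 : (L ^ 6)⁻¹ = ((L ^ 4)⁻¹) ^ (3/2 : ℝ) := by
            have := be_inv4 hL0
            rw [be, max_eq_left (by positivity)] at this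
            exact this.symm
          calc rho0 x ^ (2/3 : ℝ) ≤ (((L ^ 4)⁻¹) ^ (3/2 : ℝ)) ^ (2/3 : ℝ) :=
                Real.rpow_le_rpow r0 (by rw [← h4]; exact h2.trans h3) (by norm_num)
            _ = (L ^ 4)⁻¹ := by rw [← Real.rpow_mul (by positivity)]; norm_num
        have h2 : rho0 x ^ (2/3 : ℝ) * rho0 x ≤ (L ^ 4)⁻¹ * rho0 x := mul_le_mul_of_nonneg_right h1 r0
        have h3 : 0 ≤ rho0 x ^ (5/3 : ℝ) := Real.rpow_nonneg r0 _
        have h4 : 0 ≤ κ ^ 2 * rho0 x ^ (5/3 : ℝ) := by positivity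
        nlinarith
    refine s1.trans (le_of_eq ?_)
    rw [integral_add (i2.const_mul _) (nb.2.1.const_mul _), integral_const_mul, integral_const_mul,
      integral_indicator measurableSet_ball.compl]
    rfl
  rw [he]
  have f1 : κ ^ 2 ≤ 100 * (L ^ 6)⁻¹ := by
    have : κ ≤ 10 * (L ^ 3)⁻¹ := by linarith
    calc κ ^ 2 ≤ (10 * (L ^ 3)⁻¹) ^ 2 := pow_le_pow_left₀ hκ0 this 2
      _ = 100 * (L ^ 6)⁻¹ := by rw [mul_pow, inv_pow, ← pow_mul]; norm_num
  have f2 : q ^ 2 ≤ 25 * (L ^ 6)⁻¹ := by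
    calc q ^ 2 ≤ (5 * (L ^ 3)⁻¹) ^ 2 := pow_le_pow_left₀ hq0 hq5 2
      _ = 25 * (L ^ 6)⁻¹ := by rw [mul_pow, inv_pow, ← pow_mul]; norm_num
  have f3 : q * (q / L) ≤ 25 * (L ^ 6)⁻¹ := by
    have : q * (q / L) = q ^ 2 / L := by ring
    rw [this]
    exact (div_le_self (by positivity) (by linarith)).trans f2
  have f4 : (L ^ 4)⁻¹ * q ≤ 5 * (L ^ 6)⁻¹ := by
    have h1 : (L ^ 4)⁻¹ * q ≤ (L ^ 4)⁻¹ * (5 * (L ^ 3)⁻¹) := mul_le_mul_of_nonneg_left hq5 (by positivity)
    have h2 : (L ^ 4)⁻¹ * (5 * (L ^ 3)⁻¹) = 5 * (L ^ 6)⁻¹ / L := by field_simp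
    rw [h2] at h1
    exact h1.trans (div_le_self (by positivity) (by linarith))
  have g1 : κ ^ 2 * K1 ≤ 100 * (L ^ 6)⁻¹ * K1 := mul_le_mul_of_nonneg_right f1 hK10
  have g2 : κ ^ 2 * B ≤ 100 * (L ^ 6)⁻¹ * B := mul_le_mul_of_nonneg_right f1 hB0
  have g3 : 0 ≤ (L ^ 6)⁻¹ := by positivity
  nlinarith

end Pool.Agent.Q233.TFSat
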