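import Pool.Agent.Q233.TFMono
import Pool.Agent.Q233.TFMol

/-!
# Sommerfeld lower bound for the neutral atom; a radial barrier
-/

set_option autoImplicit false
open MeasureTheory Set Filter Topology Metric
open scoped RealInnerProductSpace BigOperators ENNReal
open Pool.Agent.Helper557 Pool.Agent.Helper557.TFP
open Pool.Agent.H9R2.TF Pool.Agent.Q233.TFShell Pool.Agent.Q233.TFAtom Pool.Agent.Q233.TFSat
  Pool.Agent.Q233.TFSup Pool.Agent.Q233.TFCmp Pool.Agent.Q233.TFMol Pool.Agent.Q233.TFMono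

namespace Pool.Agent.Q233.TFSom

/-! ### the neutral atom lies above `0.81` times the Sommerfeld solution -/

lemma f0_boot' {θ r0 c : ℝ} (hr0 : 0 < r0) (hc0 : 0 ≤ c) (hc : √c ≤ 3 * θ / Real.pi)
    (h : ∀ r, r0 ≤ r → f0 r ≤ c * (r ^ 4)⁻¹) : ∀ r, r0 ≤ r → f0 r ≤ (θ * c) * (r ^ 4)⁻¹ := by
  intro r hr
  have hr' : 0 < r := hr0.trans_le hr
  have hpi := Real.pi_pos
  have i1 : Integrable (fun x : E3 => K6 r ‖x‖) := K6_intble hr'
  have i2 : Integrable (fun x : E3 => K6 r ‖x‖ / max ‖x‖ r) := by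
    have := max_intble (K6_meas r) (K6_nice hr') (r • e0)
    rwa [norm_re hr'.le] at this
  have v2 : ∫ x : E3, K6 r ‖x‖ / max ‖x‖ r = Real.pi * (r ^ 4)⁻¹ := by
    have h1 := pot_max (K6_meas r) (r • e0)
    rw [K6_pot_in hr' (by rw [norm_re hr'.le]), norm_re hr'.le] at h1
    exact h1.symm
  have hle : f0 r ≤ ∫ x : E3, √c * c * (K6 r ‖x‖ * (1 / r) - K6 r ‖x‖ / max ‖x‖ r) := by
    conv_lhs => rw [(f0_int hr').2]
    refine integral_mono (f0_int hr').1 (((i1.mul_const _).sub i2).const_mul _) (fun x => ?_)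
    simp only
    by_cases hx : ‖x‖ ≤ r
    · rw [max_eq_right hx, K6_in hx]; simp
    · rw [not_le] at hx
      have hx0 : 0 < ‖x‖ := hr'.trans hx
      rw [K6_out hx, max_eq_left hx.le, rho0_f0 x]
      have h1 : be (f0 ‖x‖) ≤ √c * c * (‖x‖ ^ 6)⁻¹ := by
        rw [← be_cinv hc0 hx0]
        exact be_mono (h _ (hr.trans hx.le))
      have h2 : 0 ≤ 1 / r - 1 / ‖x‖ := by
        have := one_div_le_one_div_of_le hr' hx.le
        linarith
      calc be (f0 ‖x‖) * (1 / r - 1 / ‖x‖) ≤ √c * c * (‖x‖ ^ 6)⁻¹ * (1 / r - 1 / ‖x‖) := mul_le_mul_of_nonneg_right h1 h2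
        _ = _ := by ring
  have hval : ∫ x : E3, √c * c * (K6 r ‖x‖ * (1 / r) - K6 r ‖x‖ / max ‖x‖ r) = √c * c * (Real.pi / 3 * (r ^ 4)⁻¹) := by
    rw [integral_const_mul, integral_sub (i1.mul_const _) i2, v2, integral_mul_const, K6_mass hr']
    congr 1
    field_simp
    ring
  rw [hval] at hle
  refine hle.trans ?_
  have h3 : √c * (Real.pi / 3) ≤ θ := by
    calc √c * (Real.pi / 3) ≤ 3 * θ / Real.pi * (Real.pi / 3) := mul_le_mul_of_nonneg_right hc (by positivity)
      _ = θ := by field_simp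
  have h4 : 0 ≤ c * (r ^ 4)⁻¹ := by positivity
  calc √c * c * (Real.pi / 3 * (r ^ 4)⁻¹) = (√c * (Real.pi / 3)) * (c * (r ^ 4)⁻¹) := by ring
    _ ≤ θ * (c * (r ^ 4)⁻¹) := mul_le_mul_of_nonneg_right h3 h4
    _ = _ := by ring

/-- `0.81` times the Sommerfeld constant -/
noncomputable def kS : ℝ := (27 / (10 * Real.pi)) ^ 2

lemma kS_pos : 0 < kS := by unfold kS; have := Real.pi_pos; positivity

lemma kS_sqrt : √kS = 27 / (10 * Real.pi) := by
  unfold kS; exact Real.sqrt_sq (by have := Real.pi_pos; positivity)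

theorem f0_contra' {r0 : ℝ} (hr0 : 0 < r0) (h : ∀ r, r0 ≤ r → f0 r ≤ kS * (r ^ 4)⁻¹) : False := by
  have hpi := Real.pi_pos
  have hk := kS_pos
  have hn : ∀ n : ℕ, ∀ r, r0 ≤ r → f0 r ≤ ((9/10) ^ n * kS) * (r ^ 4)⁻¹ := by
    intro n
    induction n with
    | zero => simpa using h
    | succ n ih =>
      intro r hr
      have hb := f0_boot' (θ := 9/10) hr0 (c := (9/10) ^ n * kS) (by positivity) (by
        have e : 3 * (9/10 : ℝ) / Real.pi = √kS := by rw [kS_sqrt]; field_simp; norm_num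
        rw [e]
        apply Real.sqrt_le_sqrt
        have : ((9:ℝ)/10) ^ n ≤ 1 := pow_le_one₀ (by norm_num) (by norm_num)
        exact mul_le_of_le_one_left hk.le this) ih r hr
      rw [pow_succ]
      refine hb.trans (le_of_eq (by ring))
  have hlim : Tendsto (fun n : ℕ => ((9/10 : ℝ) ^ n * kS) * (r0 ^ 4)⁻¹) atTop (𝓝 ((0 * kS) * (r0 ^ 4)⁻¹)) :=
    ((tendsto_pow_atTop_nhds_zero_of_lt_one (by norm_num) (by norm_num)).mul_const _).mul_const _
  have := ge_of_tendsto hlim (b := f0 r0) (Eventually.of_forall (fun n => hn n r0 le_rfl))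
  rw [zero_mul, zero_mul] at this
  exact absurd (f0_pos hr0) (not_lt.2 this)

/-- **the atomic potential is at least `0.81` times the Sommerfeld solution outside a ball** -/
theorem f0_low : ∃ r0 : ℝ, 0 < r0 ∧ ∀ r, r0 ≤ r → kS * (r ^ 4)⁻¹ ≤ f0 r := by
  have hpi := Real.pi_pos
  have hk := kS_pos
  obtain ⟨a, ha1, hfa⟩ : ∃ a : ℝ, 1 ≤ a ∧ kS * (a ^ 4)⁻¹ < f0 a := by
    by_contra hcon
    push Not at hcon
    exact f0_contra' one_pos hcon
  have ha : 0 < a := by linarith
  refine ⟨a, ha, fun r hr => ?_⟩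
  rcases eq_or_lt_of_le hr with h | hr
  · rw [← h]; exact hfa.le
  have hr0 : 0 < r := ha.trans hr
  set ν : E3 → ℝ := fun x => 3 / Real.pi * kS * K6 a ‖x‖ - rho0 x with hν
  have n1 : Nice (fun x : E3 => 3 / Real.pi * kS * K6 a ‖x‖) := nice_smul (K6_nice ha) _
  have nν : Nice ν := nice_sub' n1 rho0_nice
  set c : Fin 1 → ℝ := fun _ => 1 - 4 * kS * (a ^ 3)⁻¹ with hc
  set S : Fin 1 → E3 := fun _ => 0 with hS
  have hval : ∀ x : E3, a ≤ ‖x‖ → VV c S x + pot ν x = f0 ‖x‖ - kS * (‖x‖ ^ 4)⁻¹ := by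
    intro x hx
    have hx0 : 0 < ‖x‖ := ha.trans_le hx
    have e1 : VV c S x = (1 - 4 * kS * (a ^ 3)⁻¹) / ‖x‖ := by simp [VV, hc, hS]
    rw [e1, hν, pot_sub n1 rho0_nice, psm, K6_pot_out ha hx, ← phi0_f0, phi0]
    field_simp
    ring
  have key := cmp_dom c S nν (Ω := {x : E3 | a < ‖x‖}) (F := {x : E3 | a ≤ ‖x‖})
    (isOpen_lt continuous_const continuous_norm) (isClosed_le continuous_const continuous_norm)
    (fun x hx => (show a ≤ ‖x‖ from le_of_lt (show a < ‖x‖ from hx))) (fun j => Or.inr (by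
      simp only [hS]; intro h0; have h0' : a ≤ ‖(0:E3)‖ := h0; rw [norm_zero] at h0'; linarith))
    (fun x hx hx' _ => by
      have h1 : ‖x‖ = a := le_antisymm (not_lt.1 hx') hx
      rw [hval x hx, h1]; linarith)
    (ae_of_all _ (fun y hy hlt => by
      have hy' : a < ‖y‖ := hy
      have hy0 : 0 < ‖y‖ := ha.trans hy'
      rw [hval y hy'.le] at hlt
      simp only [hν]
      rw [K6_out hy', rho0_f0 y]
      have h1 : be (f0 ‖y‖) ≤ be (kS * (‖y‖ ^ 4)⁻¹) := be_mono (by linarith)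
      rw [be_cinv hk.le hy0, kS_sqrt] at h1
      have h2 : 0 < kS * (‖y‖ ^ 6)⁻¹ := by positivity
      have h3 : 27 / (10 * Real.pi) ≤ 3 / Real.pi := by
        rw [div_le_div_iff₀ (by positivity) hpi]
        nlinarith
      nlinarith [mul_le_mul_of_nonneg_right h3 h2.le]))
  have h1 := key (r • e0) (show a < ‖r • e0‖ by rw [norm_re hr0.le]; exact hr) (fun j _ => by
    simp only [hS]; exact re_ne hr0)
  rw [hval _ (by rw [norm_re hr0.le]; exact hr.le), norm_re hr0.le] at h1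
  linarith

/-- lower bound for the atom of charge `ζ`, everywhere -/
theorem pa_low {r0 : ℝ} (h0 : 0 < r0) (h : ∀ r, r0 ≤ r → kS * (r ^ 4)⁻¹ ≤ f0 r) {ζ : ℝ} (hζ : 0 < ζ) {x : E3} (hx : x ≠ 0) :
    kS * ((‖x‖ ^ 2 + (r0 / cb ζ) ^ 2) ^ 2)⁻¹ ≤ pa ζ x := by
  have hc := cb_pos hζ
  have hk := kS_pos
  have hx0 : 0 < ‖x‖ := norm_pos_iff.2 hx
  rw [pa_eq hζ, phi0_f0, norm_smul, Real.norm_of_nonneg hc.le]
  rcases le_or_gt r0 (cb ζ * ‖x‖) with h1 | h1
  · have h2 := mul_le_mul_of_nonneg_left (h _ h1) (show 0 ≤ cb ζ ^ 4 by positivity)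
    refine le_trans ?_ h2
    have e : cb ζ ^ 4 * (kS * ((cb ζ * ‖x‖) ^ 4)⁻¹) = kS * (‖x‖ ^ 4)⁻¹ := by
      rw [mul_pow]; field_simp
    rw [e]
    apply mul_le_mul_of_nonneg_left _ hk.le
    apply inv_anti₀ (by positivity)
    have : 0 ≤ (r0 / cb ζ) ^ 2 := by positivity
    nlinarith [sq_nonneg (‖x‖), mul_nonneg this (sq_nonneg ‖x‖)]
  · have h2 := (h r0 le_rfl).trans (f0_anti (by positivity) h1.le)
    refine le_trans ?_ (mul_le_mul_of_nonneg_left h2 (show 0 ≤ cb ζ ^ 4 by positivity))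
    have e : cb ζ ^ 4 * (kS * (r0 ^ 4)⁻¹) = kS * (((r0 / cb ζ) ^ 2) ^ 2)⁻¹ := by
      rw [div_pow, div_pow]; field_simp
    rw [e]
    apply mul_le_mul_of_nonneg_left _ hk.le
    apply inv_anti₀ (by positivity)
    apply pow_le_pow_left₀ (by positivity)
    have : 0 ≤ ‖x‖ ^ 2 := by positivity
    linarith

/-! ### radial potentials of Laplacians -/

lemma pot_C2 {b : ℝ} (hb : 0 < b) {q q' g : ℝ → ℝ} (hg : Continuous g)
    (h1 : ∀ r, HasDerivAt (fun r => r ^ 2 * q' r) (4 * Real.pi * (r ^ 2 * g r)) r)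
    (h2 : ∀ r, HasDerivAt (fun r => r * q' r + q r) (4 * Real.pi * (r * g r)) r) {y : E3} (hy : ‖y‖ ≤ b) :
    pot (fun x : E3 => (Iio b).indicator g ‖x‖) y = b * q' b + q b - q ‖y‖ := by
  have hm : Measurable ((Iio b).indicator g) := hg.measurable.indicator measurableSet_Iio
  rw [pot_rad hm]
  set a := ‖y‖ with ha
  have ha0 : 0 ≤ a := norm_nonneg y
  have e1 : ∫ r in Ioi (0:ℝ), r ^ 2 * ((Iio b).indicator g r / max r a) = ∫ r in (0:ℝ)..b, r ^ 2 * (g r / max r a) := by
    rw [intervalIntegral.integral_of_le hb.le, integral_Ioc_eq_integral_Ioo,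
      ← integral_indicator measurableSet_Ioi, ← integral_indicator measurableSet_Ioo]
    congr 1
    funext r
    by_cases h0 : 0 < r
    · rw [indicator_of_mem (by exact h0)]
      by_cases h1 : r < b
      · rw [indicator_of_mem (by exact h1), indicator_of_mem (by exact ⟨h0, h1⟩)]
      · rw [indicator_of_notMem (by exact h1), indicator_of_notMem (fun h => h1 h.2)]; ring
    · rw [indicator_of_notMem (by exact h0), indicator_of_notMem (fun h => h0 h.1)]
  rw [e1]
  have eqa : ∀ r ∈ Icc a b, r ^ 2 * (g r / max r a) = r * g r := by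
    intro r hr
    rw [max_eq_left hr.1]
    rcases eq_or_lt_of_le (ha0.trans hr.1) with h | h
    · rw [← h]; simp
    · field_simp
  have ia : IntervalIntegrable (fun r => r ^ 2 * (g r / max r a)) volume a b := by
    refine ((by fun_prop : Continuous (fun r => r * g r)).intervalIntegrable a b).congr ?_
    intro r hr
    rw [uIoc_of_le hy] at hr
    exact (eqa r ⟨hr.1.le, hr.2⟩).symm
  have va : ∫ r in a..b, r ^ 2 * (g r / max r a) = ∫ r in a..b, r * g r := by
    apply intervalIntegral.integral_congr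
    intro r hr
    rw [uIcc_of_le hy] at hr
    exact eqa r hr
  have v2 : 4 * Real.pi * ∫ r in a..b, r * g r = (b * q' b + q b) - (a * q' a + q a) := by
    rw [← intervalIntegral.integral_const_mul]
    exact intervalIntegral.integral_eq_sub_of_hasDerivAt (fun r _ => h2 r)
      ((by fun_prop : Continuous (fun r => 4 * Real.pi * (r * g r))).intervalIntegrable _ _)
  rcases eq_or_lt_of_le ha0 with h | h
  · rw [← h] at va v2 ⊢
    rw [va, v2]; ring
  · have i0 : IntervalIntegrable (fun r => r ^ 2 * (g r / max r a)) volume 0 a := by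
      refine ((by fun_prop : Continuous (fun r => r ^ 2 * g r * a⁻¹)).intervalIntegrable 0 a).congr ?_
      intro r hr
      rw [uIoc_of_le ha0] at hr
      simp only
      rw [max_eq_right hr.2]; ring
    have v0 : ∫ r in (0:ℝ)..a, r ^ 2 * (g r / max r a) = (∫ r in (0:ℝ)..a, r ^ 2 * g r) * a⁻¹ := by
      rw [← intervalIntegral.integral_mul_const]
      apply intervalIntegral.integral_congr
      intro r hr
      rw [uIcc_of_le ha0] at hr
      simp only
      rw [max_eq_right hr.2]; ring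
    have v1 : 4 * Real.pi * ∫ r in (0:ℝ)..a, r ^ 2 * g r = a ^ 2 * q' a - 0 ^ 2 * q' 0 := by
      rw [← intervalIntegral.integral_const_mul]
      exact intervalIntegral.integral_eq_sub_of_hasDerivAt (fun r _ => h1 r)
        ((by fun_prop : Continuous (fun r => 4 * Real.pi * (r ^ 2 * g r))).intervalIntegrable _ _)
    rw [← intervalIntegral.integral_add_adjacent_intervals i0 ia, v0, va, mul_add, ← mul_assoc, v1, v2]
    field_simp
    ring

/-! ### the barrier `(r² + p²)^{7/4}` -/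

/-- fourth root of `r² + p²` -/
noncomputable def uu (p r : ℝ) : ℝ := √(√(r ^ 2 + p ^ 2))

section

variable {p : ℝ} (hp : 0 < p)
include hp

lemma uu_pos (r : ℝ) : 0 < uu p r := by
  unfold uu
  exact Real.sqrt_pos.2 (Real.sqrt_pos.2 (by positivity))

lemma uu_four (r : ℝ) : uu p r ^ 4 = r ^ 2 + p ^ 2 := by
  unfold uu
  have h : √(√(r ^ 2 + p ^ 2)) ^ 4 = (√(√(r ^ 2 + p ^ 2)) ^ 2) ^ 2 := by ring
  rw [h, Real.sq_sqrt (Real.sqrt_nonneg _), Real.sq_sqrt (by positivity)]

omit hp in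
lemma uu_cont : Continuous (uu p) := by unfold uu; fun_prop

lemma uu_deriv (r : ℝ) : HasDerivAt (uu p) (r / (2 * uu p r ^ 3)) r := by
  have h0 : r ^ 2 + p ^ 2 ≠ 0 := by positivity
  have h1 : HasDerivAt (fun r : ℝ => r ^ 2 + p ^ 2) (2 * r) r := by
    simpa using (hasDerivAt_pow 2 r).add_const (p ^ 2)
  have h2 := (h1.sqrt h0).sqrt (Real.sqrt_pos.2 (by positivity)).ne'
  have hs : √(r ^ 2 + p ^ 2) = uu p r ^ 2 := by
    unfold uu; rw [Real.sq_sqrt (Real.sqrt_nonneg _)]
  refine h2.congr_deriv ?_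
  have e : √(√(r ^ 2 + p ^ 2)) = uu p r := rfl
  rw [e, hs]
  have := uu_pos hp r
  field_simp

/-- density of the barrier -/
noncomputable def gg' (p r : ℝ) : ℝ := 21 / (8 * Real.pi) * ((3/2 * r ^ 2 + p ^ 2) / uu p r)

lemma gg_cont : Continuous (gg' p) := by
  unfold gg'
  exact continuous_const.mul ((by fun_prop : Continuous (fun r : ℝ => 3/2 * r ^ 2 + p ^ 2)).div uu_cont (fun r => (uu_pos hp r).ne'))

lemma gg_nonneg' (r : ℝ) : 0 ≤ gg' p r := by
  unfold gg'
  have := Real.pi_pos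
  have := uu_pos hp r
  positivity

/-- the barrier as a potential -/
lemma barrier_pot {b : ℝ} (hb : 0 < b) {y : E3} (hy : ‖y‖ ≤ b) :
    pot (fun x : E3 => (Iio b).indicator (gg' p) ‖x‖) y
      = b * (7/2 * (b * uu p b ^ 3)) + uu p b ^ 7 - uu p ‖y‖ ^ 7 := by
  have hpi := Real.pi_pos
  refine pot_C2 hb (q := fun r => uu p r ^ 7) (q' := fun r => 7/2 * (r * uu p r ^ 3)) (gg_cont hp) (fun r => ?_) (fun r => ?_) hy
  · have hu := uu_pos hp r
    have h4 := uu_four hp r
    have d := uu_deriv hp r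
    have h := (hasDerivAt_pow 2 r).mul (((hasDerivAt_id r).mul (d.pow 3)).const_mul (7/2 : ℝ))
    refine h.congr_deriv ?_
    simp only [id, Pi.mul_apply, Pi.pow_apply]
    unfold gg'
    have e : p ^ 2 = uu p r ^ 4 - r ^ 2 := by linarith
    rw [e]
    field_simp
    ring
  · have hu := uu_pos hp r
    have h4 := uu_four hp r
    have d := uu_deriv hp r
    have h := ((hasDerivAt_id r).mul (((hasDerivAt_id r).mul (d.pow 3)).const_mul (7/2 : ℝ))).add (d.pow 7)
    refine h.congr_deriv ?_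
    simp only [id, Pi.mul_apply, Pi.pow_apply]
    unfold gg'
    have e : p ^ 2 = uu p r ^ 4 - r ^ 2 := by linarith
    rw [e]
    field_simp
    ring

lemma barrier_nice {b : ℝ} (hb : 0 < b) : Nice (fun x : E3 => (Iio b).indicator (gg' p) ‖x‖) := by
  have hm : Measurable (fun x : E3 => (Iio b).indicator (gg' p) ‖x‖) :=
    ((gg_cont hp).measurable.indicator measurableSet_Iio).comp measurable_norm
  obtain ⟨C, hC⟩ := (isCompact_Icc (a := (0:ℝ)) (b := b)).exists_bound_of_continuousOn (gg_cont hp).continuousOn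
  have hC0 : 0 ≤ C := (norm_nonneg _).trans (hC 0 ⟨le_rfl, hb.le⟩)
  have hb' : ∀ x : E3, |(Iio b).indicator (gg' p) ‖x‖| ≤ C := by
    intro x
    by_cases h : ‖x‖ < b
    · rw [indicator_of_mem (by exact h)]
      exact hC _ ⟨norm_nonneg x, h.le⟩
    · rw [indicator_of_notMem (by exact h), abs_zero]; exact hC0
  refine nice_of_bdd hm ?_ hC0 hb'
  have hi : Integrable ((ball (0:E3) b).indicator (fun _ => C)) := by
    rw [integrable_indicator_iff measurableSet_ball]
    exact integrableOn_const (measure_ball_lt_top.ne)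
  refine hi.mono' hm.aestronglyMeasurable (ae_of_all _ (fun x => ?_))
  by_cases h : ‖x‖ < b
  · rw [indicator_of_mem (s := ball (0:E3) b) (by simpa using h)]
    exact hb' x
  · rw [indicator_of_notMem (by exact h), indicator_of_notMem (by simpa using h)]; simp

end

/-! ### comparison with a constant -/

/-- as `cmp_dom`, with an additional nonnegative constant -/
theorem cmp_domC {k : ℕ} (c : Fin k → ℝ) (S : Fin k → E3) {ν : E3 → ℝ} (hν : Nice ν) {Ω F : Set E3} {C0 : ℝ} (hC0 : 0 ≤ C0)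
    (hΩ : IsOpen Ω) (hF : IsClosed F) (hΩF : Ω ⊆ F) (hc : ∀ j, 0 ≤ c j ∨ S j ∉ F)
    (hbd : ∀ x ∈ F, x ∉ Ω → (∀ j, c j ≠ 0 → x ≠ S j) → 0 ≤ VV c S x + pot ν x + C0)
    (h : ∀ᵐ y : E3, y ∈ Ω → VV c S y + pot ν y + C0 < 0 → 0 ≤ ν y) :
    ∀ x ∈ Ω, (∀ j, c j ≠ 0 → x ≠ S j) → 0 ≤ VV c S x + pot ν x + C0 := by
  classical
  set f : E3 → ℝ := fun x => VV c S x + pot ν x + C0 with hf
  set N : Set E3 := {p | ∃ j, c j ≠ 0 ∧ S j = p} with hN
  have hNfin : N.Finite := by
    refine (Set.finite_range S).subset ?_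
    rintro p ⟨j, _, hj⟩
    exact ⟨j, hj⟩
  have hnot : ∀ x, x ∉ N ↔ ∀ j, c j ≠ 0 → x ≠ S j := by
    intro x
    constructor
    · intro h j hj e; exact h ⟨j, hj, e.symm⟩
    · rintro h ⟨j, hj, e⟩; exact h j hj e.symm
  have hcont : ∀ x ∈ F, x ∉ N → ContinuousAt f x := by
    intro x hx hxN
    exact ((VV_cont c S x ((hnot x).1 hxN)).add (pot_cont hν).continuousAt).add continuousAt_const
  obtain ⟨r1, hr1, hrF⟩ : ∃ r1 > 0, ∀ j, S j ∉ F → ∀ x ∈ F, r1 ≤ ‖x - S j‖ := by
    rcases isEmpty_or_nonempty (Fin k) with hk | hk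
    · exact ⟨1, one_pos, fun j => (hk.false j).elim⟩
    · have hj : ∀ j, ∃ r > 0, S j ∉ F → ∀ x ∈ F, r ≤ ‖x - S j‖ := by
        intro j
        by_cases hj : S j ∈ F
        · exact ⟨1, one_pos, fun h => absurd hj h⟩
        · obtain ⟨r, hr, hb⟩ := Metric.isOpen_iff.1 hF.isOpen_compl (S j) hj
          refine ⟨r, hr, fun _ x hx => ?_⟩
          by_contra hlt
          rw [not_le] at hlt
          exact hb (show x ∈ ball (S j) r by rw [mem_ball, dist_eq_norm]; exact hlt) hx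
      choose r hr hrr using hj
      obtain ⟨i, _, hi⟩ := Finset.exists_min_image Finset.univ r Finset.univ_nonempty
      exact ⟨r i, hr i, fun j hj x hx => (hi j (Finset.mem_univ j)).trans (hrr j hj x hx)⟩
  obtain ⟨B, hB0, hB⟩ := pot_bdd hν
  obtain ⟨Q, hQ⟩ : ∃ Q : ℝ, Q = (∑ j, |c j| / r1) + B + 1 := ⟨_, rfl⟩
  have hQ0 : 0 < Q := by
    rw [hQ]
    have : 0 ≤ ∑ j, |c j| / r1 := Finset.sum_nonneg (fun j _ => by positivity)
    linarith
  obtain ⟨r2, hr2, hrj⟩ : ∃ r2 > 0, ∀ j, 0 < c j → r2 ≤ c j / Q := by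
    rcases isEmpty_or_nonempty (Fin k) with hk | hk
    · exact ⟨1, one_pos, fun j => (hk.false j).elim⟩
    · obtain ⟨i, _, hi⟩ := Finset.exists_min_image Finset.univ (fun j => if 0 < c j then c j / Q else 1) Finset.univ_nonempty
      refine ⟨if 0 < c i then c i / Q else 1, ?_, fun j hj => ?_⟩
      · split_ifs with h0
        · exact div_pos h0 hQ0
        · exact one_pos
      · have := hi j (Finset.mem_univ j)
        simp only [if_pos hj] at this
        exact this
  have hVlow : ∀ x ∈ F, ∀ i, S i ∈ F → c i / ‖x - S i‖ - (∑ j, |c j| / r1) ≤ VV c S x := by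
    intro x hx i hi
    have hci : 0 ≤ c i := (hc i).resolve_right (fun h => h hi)
    have h1 : c i / ‖x - S i‖ + ∑ j ∈ Finset.univ.erase i, (-(|c j| / r1)) ≤ VV c S x := by
      unfold VV
      rw [← Finset.add_sum_erase Finset.univ (fun j => c j / ‖x - S j‖) (Finset.mem_univ i)]
      refine add_le_add le_rfl (Finset.sum_le_sum (fun j _ => ?_))
      rcases hc j with h' | h'
      · have : 0 ≤ c j / ‖x - S j‖ := div_nonneg h' (norm_nonneg _)
        have : 0 ≤ |c j| / r1 := by positivity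
        linarith
      · have h2 := hrF j h' x hx
        have h3 : |c j / ‖x - S j‖| ≤ |c j| / r1 := by
          rw [abs_div, abs_of_nonneg (norm_nonneg (x - S j))]
          exact div_le_div_of_nonneg_left (abs_nonneg _) hr1 h2
        exact (abs_le.1 h3).1
    have h2 : ∑ j ∈ Finset.univ.erase i, (|c j| / r1) ≤ ∑ j, |c j| / r1 :=
      Finset.sum_le_univ_sum_of_nonneg (fun j => by positivity)
    rw [Finset.sum_neg_distrib] at h1
    linarith
  intro x hx hxN
  refine min_pr Ω F hΩ hF hΩF N hNfin.isClosed f hcont (min r1 r2) (lt_min hr1 hr2) ?_ ?_ ?_ ?_ x hx ((hnot x).2 hxN)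
  · rintro p ⟨j, hj, rfl⟩ x hx hxr hxN
    by_cases hSF : S j ∈ F
    · have hcj : 0 < c j := lt_of_le_of_ne ((hc j).resolve_right (fun h => h hSF)) (Ne.symm hj)
      have hx0 : 0 < ‖x - S j‖ := norm_pos_iff.2 (sub_ne_zero.2 ((hnot x).1 hxN j hj))
      have h1 : Q ≤ c j / ‖x - S j‖ := by
        rw [le_div_iff₀ hx0]
        have h2 := hrj j hcj
        have h3 : ‖x - S j‖ < r2 := hxr.trans_le (min_le_right _ _)
        rw [le_div_iff₀ hQ0] at h2
        nlinarith
      have h3 := hVlow x hx j hSF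
      have h5 := (abs_le.1 (hB x)).1
      show 0 ≤ VV c S x + pot ν x + C0
      linarith
    · exact absurd (hrF j hSF x hx) (not_le.2 (hxr.trans_le (min_le_left _ _)))
  · intro x hx hx' hxN
    exact hbd x hx hx' ((hnot x).1 hxN)
  · intro ε hε
    obtain ⟨M1, h1⟩ := VV_decay c S (ε/2) (by linarith)
    obtain ⟨M2, h2⟩ := pot_decay hν (ε/2) (by linarith)
    refine ⟨max M1 M2, fun x _ hxM _ => ?_⟩
    have a1 := (abs_le.1 (h1 x ((le_max_left _ _).trans hxM))).1
    have a2 := (abs_le.1 (h2 x ((le_max_right _ _).trans hxM))).1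
    show -ε ≤ VV c S x + pot ν x + C0
    linarith
  · intro x hx hxN hfx
    have hca := hcont x (hΩF hx) hxN
    have ev1 : ∀ᶠ y in 𝓝 x, f y < 0 := hca.eventually (gt_mem_nhds hfx)
    have ev2 : ∀ᶠ y : E3 in 𝓝 x, y ∈ Ω := hΩ.mem_nhds hx
    obtain ⟨s0, hs0, hb⟩ := Metric.eventually_nhds_iff_ball.1 (ev1.and ev2)
    refine ⟨min s0 r1, lt_min hs0 hr1, fun s hs hss => ?_⟩
    have hsb : ball x s ⊆ ball x s0 := ball_subset_ball (hss.le.trans (min_le_left _ _))
    obtain ⟨a1, a2⟩ := avg_pot ν hν x s hs (h.mono (fun y h1 hy => h1 (hb y (hsb hy)).2 (hb y (hsb hy)).1))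
    obtain ⟨b1, b2⟩ := mean_VV c S x s hs (fun j => by
      rcases hc j with h' | h'
      · exact Or.inl h'
      · exact Or.inr ((hss.le.trans (min_le_right _ _)).trans (hrF j h' x (hΩF hx)))) ((hnot x).1 hxN)
    have i3 : IntegrableOn (fun _ : E3 => C0) (ball x s) := integrableOn_const (measure_ball_lt_top.ne)
    refine ⟨(b1.add a1).add i3, ?_⟩
    show ∫ y in ball x s, (VV c S y + pot ν y + C0) ≤ _
    have e1 : ∫ y in ball x s, (VV c S y + pot ν y + C0) = (∫ y in ball x s, (VV c S y + pot ν y)) + ∫ _ in ball x s, C0 :=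
      integral_add (b1.add a1) i3
    have e2 : ∫ y in ball x s, (VV c S y + pot ν y) = (∫ y in ball x s, VV c S y) + ∫ y in ball x s, pot ν y := integral_add b1 a1
    rw [e1, e2, setIntegral_const, smul_eq_mul]
    show _ ≤ _ * (VV c S x + pot ν x + C0)
    rw [Measure.real]
    linarith

end Pool.Agent.Q233.TFSom
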