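import Pool.Agent.Q233.TFSat

/-!
# Scaling, the lower bound and the molecular trial density
-/

set_option autoImplicit false
open MeasureTheory Set Filter Topology Metric
open scoped RealInnerProductSpace BigOperators ENNReal
open Pool.Agent.Helper557 Pool.Agent.Helper557.TFP
open Pool.Agent.H9R2.TF Pool.Agent.Q233.TFShell Pool.Agent.Q233.TFAtom Pool.Agent.Q233.TFSat

namespace Pool.Agent.Q233.TFSup

/-! ### scaling -/

noncomputable def sc (s : ℝ) (ρ : E3 → ℝ) (x : E3) : ℝ := s ^ 6 * ρ (s • x)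

lemma int_smul {s : ℝ} (hs : 0 < s) (f : E3 → ℝ) : ∫ x : E3, f (s • x) = (s ^ 3)⁻¹ * ∫ x, f x := by
  rw [Measure.integral_comp_smul_of_nonneg (volume : Measure E3) f s (hR := hs.le)]
  simp

lemma intble_smul {s : ℝ} (hs : 0 < s) {f : E3 → ℝ} (hf : Integrable f) : Integrable (fun x : E3 => f (s • x)) :=
  (integrable_comp_smul_iff (volume : Measure E3) f hs.ne').2 hf

lemma pow_six_rpow {s : ℝ} (hs : 0 < s) : (s ^ 6) ^ (5/3 : ℝ) = s ^ 10 := by
  rw [← Real.rpow_natCast, ← Real.rpow_mul hs.le, ← Real.rpow_natCast]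
  norm_num

lemma sc_adm {s : ℝ} (hs : 0 < s) {ρ : E3 → ℝ} (h : Adm ρ) : Adm (sc s ρ) := by
  obtain ⟨h1, h2, h3, h4⟩ := h
  refine ⟨(h1.comp (measurable_const_smul s)).const_mul _, fun x => mul_nonneg (by positivity) (h2 _),
    (intble_smul hs h3).const_mul _, ?_⟩
  have : (fun x => sc s ρ x ^ (5/3 : ℝ)) = fun x => s ^ 10 * (fun y => ρ y ^ (5/3 : ℝ)) (s • x) := by
    funext x
    unfold sc
    rw [Real.mul_rpow (by positivity) (h2 _), pow_six_rpow hs]
  rw [this]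
  exact (intble_smul hs h4).const_mul _

lemma sc_mass {s : ℝ} (hs : 0 < s) (ρ : E3 → ℝ) : ∫ x, sc s ρ x = s ^ 3 * ∫ x, ρ x := by
  unfold sc
  rw [integral_const_mul, int_smul hs]
  field_simp

lemma sc_xi {k : ℕ} {s : ℝ} (hs : 0 < s) (z : Fin k → ℝ) (R : Fin k → E3) {ρ : E3 → ℝ} (h : ∀ x, 0 ≤ ρ x) :
    xi (fun j => s ^ 3 * z j) (fun j => s⁻¹ • R j) (sc s ρ) = s ^ 7 * xi z R ρ := by
  have hs' := hs.ne'
  unfold xi
  have e1 : ∫ x, sc s ρ x ^ (5/3 : ℝ) = s ^ 7 * ∫ x, ρ x ^ (5/3 : ℝ) := by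
    have : (fun x => sc s ρ x ^ (5/3 : ℝ)) = fun x => s ^ 10 * (fun y => ρ y ^ (5/3 : ℝ)) (s • x) := by
      funext x
      unfold sc
      rw [Real.mul_rpow (by positivity) (h _), pow_six_rpow hs]
    rw [this, integral_const_mul, int_smul hs (fun y => ρ y ^ (5/3 : ℝ))]
    field_simp
  have nrm : ∀ x y : E3, ‖x - s⁻¹ • y‖ = s⁻¹ * ‖s • x - y‖ := by
    intro x y
    have : x - s⁻¹ • y = s⁻¹ • (s • x - y) := by
      rw [smul_sub, smul_smul, inv_mul_cancel₀ hs', one_smul]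
    rw [this, norm_smul, Real.norm_of_nonneg (by positivity)]
  have e2 : ∫ x, (∑ j, s ^ 3 * z j / ‖x - s⁻¹ • R j‖) * sc s ρ x = s ^ 7 * ∫ x, (∑ j, z j / ‖x - R j‖) * ρ x := by
    have : (fun x => (∑ j, s ^ 3 * z j / ‖x - s⁻¹ • R j‖) * sc s ρ x)
        = fun x => s ^ 10 * (fun y => (∑ j, z j / ‖y - R j‖) * ρ y) (s • x) := by
      funext x
      have : ∑ j, s ^ 3 * z j / ‖x - s⁻¹ • R j‖ = s ^ 4 * ∑ j, z j / ‖s • x - R j‖ := by
        rw [Finset.mul_sum]
        refine Finset.sum_congr rfl (fun j _ => ?_)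
        rw [nrm]
        rw [div_eq_mul_inv, mul_inv, inv_inv, div_eq_mul_inv]
        ring
      rw [this]
      unfold sc
      ring
    rw [this, integral_const_mul, int_smul hs (fun y => (∑ j, z j / ‖y - R j‖) * ρ y)]
    field_simp
  have e3 : ∫ x, ∫ y, sc s ρ x * sc s ρ y / ‖x - y‖ = s ^ 7 * ∫ x, ∫ y, ρ x * ρ y / ‖x - y‖ := by
    have : ∀ x, ∫ y, sc s ρ x * sc s ρ y / ‖x - y‖ = s ^ 10 * (fun u => ∫ v, ρ u * ρ v / ‖u - v‖) (s • x) := by
      intro x
      have : (fun y => sc s ρ x * sc s ρ y / ‖x - y‖) = fun y => s ^ 13 * (fun v => ρ (s • x) * ρ v / ‖s • x - v‖) (s • y) := by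
        funext y
        have e : ‖s • x - s • y‖ = s * ‖x - y‖ := by rw [← smul_sub, norm_smul, Real.norm_of_nonneg hs.le]
        unfold sc
        simp only
        rw [e, div_eq_mul_inv, div_eq_mul_inv, mul_inv]
        field_simp
      rw [this, integral_const_mul, int_smul hs (fun v => ρ (s • x) * ρ v / ‖s • x - v‖)]
      field_simp
    simp only [this]
    rw [integral_const_mul, int_smul hs (fun u => ∫ v, ρ u * ρ v / ‖u - v‖)]
    field_simp
  have e4 : ∑ i, ∑ j ∈ Finset.Ioi i, s ^ 3 * z i * (s ^ 3 * z j) / ‖s⁻¹ • R i - s⁻¹ • R j‖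
      = s ^ 7 * ∑ i, ∑ j ∈ Finset.Ioi i, z i * z j / ‖R i - R j‖ := by
    rw [Finset.mul_sum]
    refine Finset.sum_congr rfl (fun i _ => ?_)
    rw [Finset.mul_sum]
    refine Finset.sum_congr rfl (fun j _ => ?_)
    rw [← smul_sub, norm_smul, Real.norm_of_nonneg (by positivity), div_eq_mul_inv, mul_inv, inv_inv, div_eq_mul_inv]
    ring
  rw [e1, e2, e3, e4]
  ring

lemma en_scale_le {k : ℕ} {s : ℝ} (hs : 0 < s) {z : Fin k → ℝ} (hz : ∀ j, 0 ≤ z j) (R : Fin k → E3) {lam : ℝ} (hl : 0 ≤ lam) :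
    en (fun j => s ^ 3 * z j) (fun j => s⁻¹ • R j) (s ^ 3 * lam) ≤ s ^ 7 * en z R lam := by
  have h7 : 0 < s ^ 7 := by positivity
  rw [← div_le_iff₀' h7]
  refine le_csInf (en_nonempty z R lam hl) ?_
  rintro E ⟨ρ, hρ, hm, rfl⟩
  rw [div_le_iff₀' h7, ← sc_xi hs z R hρ.2.1]
  refine csInf_le (en_bdd _ (fun j => mul_nonneg (by positivity) (hz j)) _ _) ⟨sc s ρ, sc_adm hs hρ, ?_, rfl⟩
  rw [sc_mass hs, hm]

theorem en_scale {k : ℕ} {s : ℝ} (hs : 0 < s) {z : Fin k → ℝ} (hz : ∀ j, 0 ≤ z j) (R : Fin k → E3) {lam : ℝ} (hl : 0 ≤ lam) :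
    en (fun j => s ^ 3 * z j) (fun j => s⁻¹ • R j) (s ^ 3 * lam) = s ^ 7 * en z R lam := by
  apply le_antisymm (en_scale_le hs hz R hl)
  have h := en_scale_le (s := s⁻¹) (by positivity) (z := fun j => s ^ 3 * z j) (fun j => mul_nonneg (by positivity) (hz j))
    (fun j => s⁻¹ • R j) (lam := s ^ 3 * lam) (by positivity)
  have e1 : (fun j => (s⁻¹) ^ 3 * (s ^ 3 * z j)) = z := by funext j; field_simp
  have e2 : (fun j => (s⁻¹)⁻¹ • (s⁻¹ • R j)) = R := by
    funext j; rw [inv_inv, smul_smul, mul_inv_cancel₀ hs.ne', one_smul]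
  have e3 : (s⁻¹) ^ 3 * (s ^ 3 * lam) = lam := by field_simp
  rw [e1, e2, e3] at h
  have h7 : 0 < s ^ 7 := by positivity
  calc s ^ 7 * en z R lam ≤ s ^ 7 * ((s⁻¹) ^ 7 * en (fun j => s ^ 3 * z j) (fun j => s⁻¹ • R j) (s ^ 3 * lam)) :=
        mul_le_mul_of_nonneg_left h h7.le
    _ = _ := by
        rw [← mul_assoc, ← mul_pow, mul_inv_cancel₀ hs.ne', one_pow, one_mul]

/-! ### lower bound, uniform in the positions -/

theorem xi_lower {k : ℕ} (z : Fin k → ℝ) (hz : ∀ i, 0 ≤ z i) (lam : ℝ) :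
    ∃ C : ℝ, ∀ (R : Fin k → E3) (ρ : E3 → ℝ), Adm ρ → ∫ x, ρ x = lam →
      (∑ i, ∑ j ∈ Finset.Ioi i, z i * z j / ‖R i - R j‖) - C ≤ xi z R ρ := by
  set Z : ℝ := ∑ j, z j with hZ
  have hZ0 : 0 ≤ Z := Finset.sum_nonneg fun j _ => hz j
  set ε : ℝ := 1 / (Z + 1) with hεd
  have hε : 0 < ε := by positivity
  have hZε : Z * ε ≤ 1 := by
    rw [hεd, mul_one_div, div_le_one (by linarith)]; linarith
  set I0 : ℝ := ∫ x : E3, (Set.Iio (1:ℝ)).indicator (fun y : ℝ => y ^ (-(5/2) : ℝ)) ‖x‖ with hI0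
  refine ⟨Z * lam + 2/5 * ε ^ (-(3/2) : ℝ) * ∑ j, z j * I0, fun R ρ ⟨hm, hρ0, hρi, hρp⟩ hl => ?_⟩
  set H : Fin k → E3 → ℝ := fun j x =>
    (Set.Iio (1:ℝ)).indicator (fun y : ℝ => y ^ (-(5/2) : ℝ)) ‖x - R j‖ with hH
  have hHi : ∀ j, Integrable (H j) := fun j => TF_en_bdd_h1 (R j)
  have hHv : ∀ j, ∫ x, H j x = I0 := fun j =>
    integral_sub_right_eq_self (fun x : E3 => (Set.Iio (1:ℝ)).indicator (fun y : ℝ => y ^ (-(5/2) : ℝ)) ‖x‖) (R j)
  have hkey : ∫ x, (∑ j, z j / ‖x - R j‖) * ρ x ≤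
      ∫ x, (Z * ρ x + 3/5 * (Z * ε) * ρ x ^ (5/3 : ℝ) + 2/5 * ε ^ (-(3/2) : ℝ) * ∑ j, z j * H j x) := by
    apply integral_mono_of_nonneg
    · refine Filter.Eventually.of_forall fun x => ?_
      exact mul_nonneg (Finset.sum_nonneg fun j _ => div_nonneg (hz j) (norm_nonneg _)) (hρ0 x)
    · refine ((hρi.const_mul Z).add (hρp.const_mul _)).add (Integrable.const_mul ?_ _)
      exact integrable_finsetSum _ fun j _ => (hHi j).const_mul (z j)
    · refine Filter.Eventually.of_forall fun x => ?_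
      have h1 : ∀ j, z j / ‖x - R j‖ * ρ x ≤ z j * (ρ x + 3/5 * ε * ρ x ^ (5/3 : ℝ) +
          2/5 * ε ^ (-(3/2) : ℝ) * H j x) := by
        intro j
        have h2 := mul_le_mul_of_nonneg_left (TF_en_bdd_pt ε hε (ρ x) (hρ0 x) (R j) x) (hz j)
        calc z j / ‖x - R j‖ * ρ x = z j * (1 / ‖x - R j‖ * ρ x) := by ring
          _ ≤ _ := h2
      show (∑ j, z j / ‖x - R j‖) * ρ x ≤ _
      rw [Finset.sum_mul]
      calc ∑ j, z j / ‖x - R j‖ * ρ x ≤ ∑ j, z j * (ρ x + 3/5 * ε * ρ x ^ (5/3 : ℝ) +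
          2/5 * ε ^ (-(3/2) : ℝ) * H j x) := Finset.sum_le_sum fun j _ => h1 j
        _ = Z * ρ x + 3/5 * (Z * ε) * ρ x ^ (5/3 : ℝ) + 2/5 * ε ^ (-(3/2) : ℝ) * ∑ j, z j * H j x := by
          simp only [mul_add, Finset.sum_add_distrib, ← Finset.sum_mul, ← hZ]
          rw [Finset.mul_sum]
          congr 1
          · ring
          · exact Finset.sum_congr rfl fun j _ => by ring
  have hint : ∫ x, (Z * ρ x + 3/5 * (Z * ε) * ρ x ^ (5/3 : ℝ) + 2/5 * ε ^ (-(3/2) : ℝ) * ∑ j, z j * H j x)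
      = Z * lam + 3/5 * (Z * ε) * (∫ x, ρ x ^ (5/3 : ℝ)) + 2/5 * ε ^ (-(3/2) : ℝ) * ∑ j, z j * I0 := by
    have hs : Integrable (fun x => ∑ j, z j * H j x) :=
      integrable_finsetSum _ fun j _ => (hHi j).const_mul (z j)
    have ha : Integrable (fun x => Z * ρ x) := hρi.const_mul Z
    have hb : Integrable (fun x => 3/5 * (Z * ε) * ρ x ^ (5/3 : ℝ)) := hρp.const_mul _
    have hab : Integrable (fun x => Z * ρ x + 3/5 * (Z * ε) * ρ x ^ (5/3 : ℝ)) := ha.add hb
    have hc : Integrable (fun x => 2/5 * ε ^ (-(3/2) : ℝ) * ∑ j, z j * H j x) := hs.const_mul _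
    have e3 : ∫ x, ∑ j, z j * H j x = ∑ j, z j * I0 := by
      rw [integral_finsetSum _ (fun j _ => (hHi j).const_mul (z j))]
      exact Finset.sum_congr rfl fun j _ => by rw [integral_const_mul, hHv]
    rw [integral_add hab hc, integral_add ha hb, integral_const_mul, integral_const_mul,
      integral_const_mul, hl, e3]
  have hp0 : 0 ≤ ∫ x, ρ x ^ (5/3 : ℝ) := integral_nonneg fun x => Real.rpow_nonneg (hρ0 x) _
  have hd0 : 0 ≤ ∫ x, ∫ y, ρ x * ρ y / ‖x - y‖ :=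
    integral_nonneg fun x => integral_nonneg fun y =>
      div_nonneg (mul_nonneg (hρ0 x) (hρ0 y)) (norm_nonneg _)
  rw [hint] at hkey
  unfold xi
  nlinarith [mul_le_mul_of_nonneg_right hZε hp0]

/-! ### the molecular trial density -/

lemma pot_shift (g : E3 → ℝ) (b a : E3) : pot (fun x => g (x - b)) a = pot g (a - b) := by
  unfold pot
  rw [← integral_sub_right_eq_self (fun y => g y / ‖a - b - y‖) b]
  congr 1
  funext y
  congr 2
  abel

lemma nice_shift {g : E3 → ℝ} (hg : Nice g) (b : E3) : Nice (fun x => g (x - b)) :=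
  ⟨hg.1.comp (measurable_id.sub_const b), hg.2.1.comp_sub_right b, hg.2.2.comp_sub_right b⟩

lemma ker_int {g : E3 → ℝ} (hg : Nice g) (a : E3) :
    Integrable (fun x => 1 / ‖x - a‖ * g x) ∧ ∫ x, 1 / ‖x - a‖ * g x = pot g a := by
  obtain ⟨B, hB⟩ := nice_bound g hg
  have e : (fun x => 1 / ‖x - a‖ * g x) = fun x => g x / ‖a - x‖ := by
    funext x; rw [norm_sub_rev]; ring
  rw [e]
  exact ⟨(hB a).1, rfl⟩

lemma tr_pot_far {L : ℝ} (hL : 3 ≤ L) {y : E3} (h : L ≤ ‖y‖) : pot (tr L) y = 1 / ‖y‖ := by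
  have e0 : tr L = fun x : E3 => trG L ‖x‖ := rfl
  have e1 : ∀ x : E3, trG L ‖x‖ / max ‖x‖ ‖y‖ = tr L x * (1 / ‖y‖) := by
    intro x
    by_cases hx : ‖x‖ < L
    · rw [max_eq_right (hx.le.trans h)]; unfold tr; ring
    · have : tr L x = 0 := tr_out (not_lt.1 hx)
      rw [this]
      unfold tr at this
      rw [this]; simp
  rw [e0, pot_max (trG_meas L)]
  simp only [e1]
  rw [integral_mul_const, tr_mass hL, one_mul]

lemma tr_pot_zero (L : ℝ) : pot (tr L) 0 = ∫ x : E3, 1 / ‖x‖ * tr L x := by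
  unfold pot
  congr 1
  funext x
  rw [zero_sub, norm_neg]; ring

lemma sum_rpow_disj {ι : Type*} [Fintype ι] [DecidableEq ι] (a : ι → ℝ) (hd : ∀ i j, i ≠ j → a i = 0 ∨ a j = 0) {p : ℝ} (hp : p ≠ 0) :
    (∑ i, a i) ^ p = ∑ i, a i ^ p := by
  by_cases h : ∃ i, a i ≠ 0
  · obtain ⟨i, hi⟩ := h
    have h0 : ∀ j, j ≠ i → a j = 0 := fun j hj => (hd i j hj.symm).resolve_left hi
    rw [Finset.sum_eq_single i (fun j _ hj => h0 j hj) (fun h => absurd (Finset.mem_univ i) h),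
      Finset.sum_eq_single i (fun j _ hj => by rw [h0 j hj, Real.zero_rpow hp]) (fun h => absurd (Finset.mem_univ i) h)]
  · push Not at h
    simp [h, Real.zero_rpow hp]

lemma dsum {k : ℕ} {A : ℝ} {F : Fin k → Fin k → ℝ} (hd : ∀ i, F i i = A) (hs : ∀ i j, F i j = F j i) :
    ∑ i, ∑ j, F i j = k * A + 2 * ∑ i, ∑ j ∈ Finset.Ioi i, F i j := by
  have h1 : ∀ i, ∑ j, F i j = F i i + (∑ j ∈ Finset.Ioi i, F i j) + ∑ j ∈ Finset.Iio i, F i j := by
    intro i
    have hu : (Finset.univ : Finset (Fin k)) = insert i (Finset.Ioi i ∪ Finset.Iio i) := by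
      ext j
      simp only [Finset.mem_univ, Finset.mem_insert, Finset.mem_union, Finset.mem_Ioi, Finset.mem_Iio, true_iff]
      rcases lt_trichotomy j i with h | h | h
      · right; right; exact h
      · left; exact h
      · right; left; exact h
    have hdj : Disjoint (Finset.Ioi i) (Finset.Iio i) := by
      rw [Finset.disjoint_left]
      intro j hj hj2
      rw [Finset.mem_Ioi] at hj
      rw [Finset.mem_Iio] at hj2
      exact absurd hj (not_lt.2 hj2.le)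
    rw [hu, Finset.sum_insert (by simp), Finset.sum_union hdj]
    ring
  have h2 : ∑ i, ∑ j ∈ Finset.Iio i, F i j = ∑ i, ∑ j ∈ Finset.Ioi i, F i j := by
    rw [Finset.sum_comm' (t' := Finset.univ) (s' := fun j => Finset.Ioi j) (by intro x y; simp)]
    exact Finset.sum_congr rfl (fun i _ => Finset.sum_congr rfl (fun j _ => hs j i))
  simp only [h1]
  rw [Finset.sum_add_distrib, Finset.sum_add_distrib, h2]
  simp only [hd, Finset.sum_const, Finset.card_univ, Fintype.card_fin, nsmul_eq_mul]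
  ring

/-- sum of neutral spherical atoms with disjoint supports -/
noncomputable def mol {k : ℕ} (L : ℝ) (R : Fin k → E3) (x : E3) : ℝ := ∑ n, tr L (x - R n)

section

variable {k : ℕ} {R : Fin k → E3} {L : ℝ} (hL : 3 ≤ L) (hR : ∀ i j, i ≠ j → 2 * L ≤ ‖R i - R j‖)
include hL

lemma mol_mass : ∫ x, mol L R x = k := by
  unfold mol
  rw [integral_finsetSum _ (fun n _ => (nice_shift (tr_nice hL) (R n)).2.1)]
  have : ∀ n, ∫ x, tr L (x - R n) = 1 := fun n => by
    rw [integral_sub_right_eq_self (tr L) (R n), tr_mass hL]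
  simp [this]

include hR

lemma mol_disj (x : E3) {i j : Fin k} (h : i ≠ j) : tr L (x - R i) = 0 ∨ tr L (x - R j) = 0 := by
  by_contra hc
  push Not at hc
  have h1 : ‖x - R i‖ < L := by
    by_contra h'
    exact hc.1 (tr_out (not_lt.1 h'))
  have h2 : ‖x - R j‖ < L := by
    by_contra h'
    exact hc.2 (tr_out (not_lt.1 h'))
  have h3 := hR i j h
  have h4 : ‖R i - R j‖ ≤ ‖x - R i‖ + ‖x - R j‖ := by
    have : R i - R j = (x - R j) - (x - R i) := by abel
    rw [this]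
    have := norm_sub_le (x - R j) (x - R i)
    linarith
  linarith

lemma mol_adm : Adm (mol L R) := by
  refine ⟨?_, fun x => Finset.sum_nonneg (fun n _ => tr_nonneg hL _), ?_, ?_⟩
  · exact Finset.measurable_sum _ (fun n _ => (nice_shift (tr_nice hL) (R n)).1)
  · exact integrable_finsetSum _ (fun n _ => (nice_shift (tr_nice hL) (R n)).2.1)
  · have : (fun x => mol L R x ^ (5/3 : ℝ)) = fun x => ∑ n, tr L (x - R n) ^ (5/3 : ℝ) := by
      funext x
      unfold mol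
      exact sum_rpow_disj _ (fun i j h => mol_disj hL hR x h) (by norm_num)
    rw [this]
    exact integrable_finsetSum _ (fun n _ => ((tr_adm hL).2.2.2).comp_sub_right (R n))

theorem mol_xi : xi (fun _ => 1) R (mol L R) = k * X (tr L) := by
  have nt := tr_nice hL
  have nr : ∀ n, Nice (fun x => tr L (x - R n)) := fun n => nice_shift nt (R n)
  have e1 : ∫ x, mol L R x ^ (5/3 : ℝ) = k * ∫ x, tr L x ^ (5/3 : ℝ) := by
    have : (fun x => mol L R x ^ (5/3 : ℝ)) = fun x => ∑ n, tr L (x - R n) ^ (5/3 : ℝ) := by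
      funext x
      unfold mol
      exact sum_rpow_disj _ (fun i j h => mol_disj hL hR x h) (by norm_num)
    rw [this, integral_finsetSum _ (fun n _ => ((tr_adm hL).2.2.2).comp_sub_right (R n))]
    have : ∀ n, ∫ x, tr L (x - R n) ^ (5/3 : ℝ) = ∫ x, tr L x ^ (5/3 : ℝ) := fun n =>
      integral_sub_right_eq_self (fun x => tr L x ^ (5/3 : ℝ)) (R n)
    simp [this]
  have e2 : ∫ x, (∑ j, (1:ℝ) / ‖x - R j‖) * mol L R x = ∑ m, ∑ n, pot (tr L) (R m - R n) := by
    have : (fun x => (∑ j, (1:ℝ) / ‖x - R j‖) * mol L R x) = fun x => ∑ m, ∑ n, 1 / ‖x - R m‖ * tr L (x - R n) := by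
      funext x
      unfold mol
      rw [Finset.sum_mul_sum]
    rw [this, integral_finsetSum _ (fun m _ => integrable_finsetSum _ (fun n _ => (ker_int (nr n) (R m)).1))]
    refine Finset.sum_congr rfl (fun m _ => ?_)
    rw [integral_finsetSum _ (fun n _ => (ker_int (nr n) (R m)).1)]
    refine Finset.sum_congr rfl (fun n _ => ?_)
    rw [(ker_int (nr n) (R m)).2, pot_shift]
  have pm : ∀ x, pot (mol L R) x = ∑ n, pot (tr L) (x - R n) := by
    intro x
    unfold pot mol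
    have : (fun y => (∑ n, tr L (y - R n)) / ‖x - y‖) = fun y => ∑ n, tr L (y - R n) / ‖x - y‖ := by
      funext y; rw [Finset.sum_div]
    rw [this, integral_finsetSum _ (fun n _ => ?_)]
    · exact Finset.sum_congr rfl (fun n _ => pot_shift (tr L) (R n) x)
    · obtain ⟨B, hB⟩ := nice_bound _ (nr n)
      exact (hB x).1
  have np : ∀ m n, Integrable (fun x => tr L (x - R m) * pot (tr L) (x - R n)) := by
    intro m n
    have := TF_E1_int _ _ (nr m).2.1 (nr n)
    simp only [pot_shift] at this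
    exact this
  have e3 : ∫ x, ∫ y, mol L R x * mol L R y / ‖x - y‖ = ∑ m, ∑ n, ∫ x, tr L (x - R m) * pot (tr L) (x - R n) := by
    rw [TF_E1_dbl]
    have : (fun x => mol L R x * pot (mol L R) x) = fun x => ∑ m, ∑ n, tr L (x - R m) * pot (tr L) (x - R n) := by
      funext x
      rw [pm]
      unfold mol
      rw [Finset.sum_mul_sum]
    rw [this, integral_finsetSum _ (fun m _ => integrable_finsetSum _ (fun n _ => np m n))]
    refine Finset.sum_congr rfl (fun m _ => ?_)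
    rw [integral_finsetSum _ (fun n _ => np m n)]
  have far : ∀ m n, m ≠ n → pot (tr L) (R m - R n) = 1 / ‖R m - R n‖ := fun m n h =>
    tr_pot_far hL (by have := hR m n h; linarith)
  have v1 : ∑ m, ∑ n, pot (tr L) (R m - R n) = k * (∫ x : E3, 1 / ‖x‖ * tr L x) + 2 * ∑ i, ∑ j ∈ Finset.Ioi i, 1 / ‖R i - R j‖ := by
    rw [dsum (A := ∫ x : E3, 1 / ‖x‖ * tr L x) (fun i => by rw [sub_self, tr_pot_zero]) (fun i j => by
      by_cases h : i = j
      · rw [h]
      · rw [far i j h, far j i (Ne.symm h), norm_sub_rev])]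
    congr 2
    refine Finset.sum_congr rfl (fun i _ => Finset.sum_congr rfl (fun j hj => ?_))
    exact far i j (ne_of_lt (Finset.mem_Ioi.1 hj))
  have cross : ∀ m n, m ≠ n → ∫ x, tr L (x - R m) * pot (tr L) (x - R n) = 1 / ‖R m - R n‖ := by
    intro m n h
    have : (fun x => tr L (x - R m) * pot (tr L) (x - R n)) = fun x => 1 / ‖x - R n‖ * tr L (x - R m) := by
      funext x
      by_cases hx : ‖x - R m‖ < L
      · rw [tr_pot_far hL, mul_comm]
        have h3 := hR m n h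
        have h4 : ‖R m - R n‖ ≤ ‖x - R m‖ + ‖x - R n‖ := by
          have : R m - R n = (x - R n) - (x - R m) := by abel
          rw [this]
          have := norm_sub_le (x - R n) (x - R m)
          linarith
        linarith
      · rw [tr_out (not_lt.1 hx)]; simp
    rw [this, (ker_int (nr m) (R n)).2, pot_shift, far n m (Ne.symm h), norm_sub_rev]
  have v2 : ∑ m, ∑ n, ∫ x, tr L (x - R m) * pot (tr L) (x - R n)
      = k * (∫ x, tr L x * pot (tr L) x) + 2 * ∑ i, ∑ j ∈ Finset.Ioi i, 1 / ‖R i - R j‖ := by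
    rw [dsum (A := ∫ x, tr L x * pot (tr L) x) (fun i => integral_sub_right_eq_self (fun x => tr L x * pot (tr L) x) (R i)) (fun i j => by
      by_cases h : i = j
      · rw [h]
      · rw [cross i j h, cross j i (Ne.symm h), norm_sub_rev])]
    congr 2
    refine Finset.sum_congr rfl (fun i _ => Finset.sum_congr rfl (fun j hj => ?_))
    exact cross i j (ne_of_lt (Finset.mem_Ioi.1 hj))
  unfold xi
  rw [e1, e2, e3, v1, v2]
  unfold X
  simp only [mul_one]
  ring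

end

/-! ### one centre -/

lemma xi_one (ρ : E3 → ℝ) : xi z1 R1 ρ = X ρ := by
  unfold xi X
  rw [TF_E1_dbl]
  simp [z1, R1]

lemma en_one_ge : X rho0 ≤ en z1 R1 1 := by
  refine le_csInf (en_nonempty z1 R1 1 zero_le_one) ?_
  rintro E ⟨ρ, hρ, -, rfl⟩
  rw [xi_one]
  exact X_min hρ

end Pool.Agent.Q233.TFSup
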