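import Pool.Agent.Q233.TFTeller

/-!
# One variable lemmas: increasing differences, second differences
-/

set_option autoImplicit false
open MeasureTheory Set Filter Topology Metric

namespace Pool.Agent.Q233.TFWa

open Pool.Agent.Q233.TFTeller

/-- a monotone function with increasing differences is convex -/
lemma conv_of_incr {f : ℝ → ℝ} {a : ℝ} (hm : ∀ s t, a ≤ s → s ≤ t → f s ≤ f t)
    (hd : ∀ s h, a ≤ s → 0 ≤ h → 2 * f (s + h) ≤ f (s + h + h) + f s) : ConvexOn ℝ (Ici a) f := by
  have key : ∀ x y : ℝ, a ≤ x → x ≤ y → ∀ N : ℕ, 0 < N → ∀ n : ℕ, n ≤ N →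
      f (x + (n:ℝ) / N * (y - x)) ≤ f x + (n:ℝ) / N * (f y - f x) := by
    intro x y hx hxy N hN n hn
    have hN' : (0:ℝ) < N := by exact_mod_cast hN
    have hyx : 0 ≤ y - x := sub_nonneg.2 hxy
    have := conc_seq (fun m : ℕ => - f (x + (m:ℝ) / N * (y - x))) (fun m => by
      have h1 := hd (x + (m:ℝ) / N * (y - x)) (1 / N * (y - x)) (by
        have : 0 ≤ (m:ℝ) / N * (y - x) := by positivity
        linarith) (by positivity)
      have e1 : x + (m:ℝ) / N * (y - x) + 1 / N * (y - x) = x + ((m + 1 : ℕ):ℝ) / N * (y - x) := by push_cast; ring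
      have e2 : x + (m:ℝ) / N * (y - x) + 1 / N * (y - x) + 1 / N * (y - x) = x + ((m + 2 : ℕ):ℝ) / N * (y - x) := by
        push_cast; ring
      rw [e2, e1] at h1
      linarith) n N hn

    have eN : x + (N:ℝ) / N * (y - x) = y := by rw [div_self hN'.ne']; ring
    have e0 : x + ((0:ℕ):ℝ) / N * (y - x) = x := by simp
    rw [eN, e0] at this
    rw [div_mul_eq_mul_div ((n:ℝ)) (N:ℝ) (f y - f x)]
    have h2 : (f (x + (n:ℝ) / N * (y - x)) - f x) * N ≤ (n:ℝ) * (f y - f x) := by linarith
    have := (le_div_iff₀ hN').2 h2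
    linarith
  have main : ∀ x y : ℝ, a ≤ x → x ≤ y → ∀ b : ℝ, 0 ≤ b → b ≤ 1 → f (x + b * (y - x)) ≤ f x + b * (f y - f x) := by
    intro x y hx hxy b hb0 hb1
    have hyx : 0 ≤ y - x := sub_nonneg.2 hxy
    have hf : 0 ≤ f y - f x := sub_nonneg.2 (hm x y hx hxy)
    have hlim : Tendsto (fun N : ℕ => f x + (b + 1 / (N:ℝ)) * (f y - f x)) atTop (𝓝 (f x + (b + 0) * (f y - f x))) :=
      (((tendsto_const_nhds.add tendsto_one_div_atTop_nhds_zero_nat)).mul_const _).const_add _
    rw [add_zero] at hlim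
    refine ge_of_tendsto hlim ?_
    filter_upwards [eventually_gt_atTop 0] with N hN
    have hN' : (0:ℝ) < N := by exact_mod_cast hN
    set n := ⌈b * N⌉₊ with hn
    have hnN : n ≤ N := by
      rw [hn, Nat.ceil_le]
      nlinarith
    have h1 : b * N ≤ n := Nat.le_ceil _
    have h2 : (n:ℝ) < b * N + 1 := Nat.ceil_lt_add_one (by positivity)
    have h3 : b ≤ (n:ℝ) / N := (le_div_iff₀ hN').2 h1
    have h4 : (n:ℝ) / N ≤ b + 1 / N := by
      rw [div_le_iff₀ hN']
      have : (b + 1 / (N:ℝ)) * N = b * N + 1 := by field_simp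
      rw [this]; exact h2.le
    have h5 := hm (x + b * (y - x)) (x + (n:ℝ) / N * (y - x)) (by nlinarith [mul_nonneg hb0 hyx]) (by nlinarith [mul_le_mul_of_nonneg_right h3 hyx])
    have h6 := key x y hx hxy N hN n hnN
    have h7 := mul_le_mul_of_nonneg_right h4 hf
    linarith
  refine ⟨convex_Ici a, ?_⟩
  intro x hx y hy c b hc hb hcb
  simp only [smul_eq_mul]
  have hc' : c = 1 - b := by linarith
  rcases le_total x y with h | h
  · have := main x y hx h b hb (by linarith)
    rw [hc']
    have e : (1 - b) * x + b * y = x + b * (y - x) := by ring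
    rw [e]; linarith
  · have := main y x hy h c hc (by linarith)
    have hb' : b = 1 - c := by linarith
    rw [hb']
    have e : c * x + (1 - c) * y = y + c * (x - y) := by ring
    rw [e]; linarith

/-- a monotone function with decreasing differences is concave -/
lemma conc_of_decr {f : ℝ → ℝ} {a : ℝ} (hm : ∀ s t, a ≤ s → s ≤ t → f s ≤ f t)
    (hd : ∀ s h, a ≤ s → 0 ≤ h → f (s + h + h) + f s ≤ 2 * f (s + h)) : ConcaveOn ℝ (Ici a) f := by
  have key : ∀ x y : ℝ, a ≤ x → x ≤ y → ∀ N : ℕ, 0 < N → ∀ n : ℕ, n ≤ N →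
      f x + (n:ℝ) / N * (f y - f x) ≤ f (x + (n:ℝ) / N * (y - x)) := by
    intro x y hx hxy N hN n hn
    have hN' : (0:ℝ) < N := by exact_mod_cast hN
    have hyx : 0 ≤ y - x := sub_nonneg.2 hxy
    have := conc_seq (fun m : ℕ => f (x + (m:ℝ) / N * (y - x))) (fun m => by
      have h1 := hd (x + (m:ℝ) / N * (y - x)) (1 / N * (y - x)) (by
        have : 0 ≤ (m:ℝ) / N * (y - x) := by positivity
        linarith) (by positivity)
      have e1 : x + (m:ℝ) / N * (y - x) + 1 / N * (y - x) = x + ((m + 1 : ℕ):ℝ) / N * (y - x) := by push_cast; ring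
      have e2 : x + (m:ℝ) / N * (y - x) + 1 / N * (y - x) + 1 / N * (y - x) = x + ((m + 2 : ℕ):ℝ) / N * (y - x) := by
        push_cast; ring
      rw [e2, e1] at h1
      linarith) n N hn

    have eN : x + (N:ℝ) / N * (y - x) = y := by rw [div_self hN'.ne']; ring
    have e0 : x + ((0:ℕ):ℝ) / N * (y - x) = x := by simp
    rw [eN, e0] at this
    rw [div_mul_eq_mul_div ((n:ℝ)) (N:ℝ) (f y - f x)]
    have h2 : (n:ℝ) * (f y - f x) ≤ (f (x + (n:ℝ) / N * (y - x)) - f x) * N := by linarith
    have := (div_le_iff₀ hN').2 h2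
    linarith
  have main : ∀ x y : ℝ, a ≤ x → x ≤ y → ∀ b : ℝ, 0 ≤ b → b ≤ 1 → f x + b * (f y - f x) ≤ f (x + b * (y - x)) := by
    intro x y hx hxy b hb0 hb1
    have hyx : 0 ≤ y - x := sub_nonneg.2 hxy
    have hf : 0 ≤ f y - f x := sub_nonneg.2 (hm x y hx hxy)
    have hlim : Tendsto (fun N : ℕ => f x + (b - 1 / (N:ℝ)) * (f y - f x)) atTop (𝓝 (f x + (b - 0) * (f y - f x))) :=
      (((tendsto_const_nhds.sub tendsto_one_div_atTop_nhds_zero_nat)).mul_const _).const_add _
    rw [sub_zero] at hlim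
    refine le_of_tendsto hlim ?_
    filter_upwards [eventually_gt_atTop 0] with N hN
    have hN' : (0:ℝ) < N := by exact_mod_cast hN
    set n := ⌊b * N⌋₊ with hn
    have hbN : 0 ≤ b * N := by positivity
    have h1 : (n:ℝ) ≤ b * N := Nat.floor_le hbN
    have hnN : n ≤ N := by
      have : (n:ℝ) ≤ N := by nlinarith
      exact_mod_cast this
    have h2 : b * N < n + 1 := Nat.lt_floor_add_one _
    have h3 : (n:ℝ) / N ≤ b := (div_le_iff₀ hN').2 h1
    have h4 : b - 1 / N ≤ (n:ℝ) / N := by
      rw [le_div_iff₀ hN']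
      have : (b - 1 / (N:ℝ)) * N = b * N - 1 := by field_simp
      rw [this]; linarith
    have hq : 0 ≤ (n:ℝ) / N * (y - x) := by positivity
    have h5 := hm (x + (n:ℝ) / N * (y - x)) (x + b * (y - x)) (by linarith) (by nlinarith [mul_le_mul_of_nonneg_right h3 hyx])
    have h6 := key x y hx hxy N hN n hnN
    have h7 := mul_le_mul_of_nonneg_right h4 hf
    linarith
  refine ⟨convex_Ici a, ?_⟩
  intro x hx y hy c b hc hb hcb
  simp only [smul_eq_mul]
  have hc' : c = 1 - b := by linarith
  rcases le_total x y with h | h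
  · have := main x y hx h b hb (by linarith)
    rw [hc']
    have e : (1 - b) * x + b * y = x + b * (y - x) := by ring
    rw [e]; linarith
  · have := main y x hy h c hc (by linarith)
    have hb' : b = 1 - c := by linarith
    rw [hb']
    have e : c * x + (1 - c) * y = y + c * (x - y) := by ring
    rw [e]; linarith

/-- a convex function whose symmetric second differences are of smaller order is differentiable -/
lemma diff_of_second {S : Set ℝ} {f : ℝ → ℝ} (hf : ConvexOn ℝ S f) {x : ℝ} (hx : x ∈ interior S) {u : ℕ → ℝ}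
    (hu : ∀ n, 0 < u n) (hS : ∀ n, x + u n ∈ S ∧ x - u n ∈ S)
    (h : Tendsto (fun n => (f (x + u n) - 2 * f x + f (x - u n)) / u n) atTop (𝓝 0)) : DifferentiableAt ℝ f x := by
  have h1 := hf.hasDerivWithinAt_rightDeriv_of_mem_interior hx
  have h2 := hf.hasDerivWithinAt_leftDeriv_of_mem_interior hx
  have h3 := hf.leftDeriv_le_rightDeriv_of_mem_interior hx
  have h4 : derivWithin f (Ioi x) x - derivWithin f (Iio x) x ≤ 0 := by
    refine ge_of_tendsto h (Eventually.of_forall (fun n => ?_))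
    have a1 := hf.rightDeriv_le_slope_of_mem_interior hx (hS n).1 (by linarith [hu n])
    have a2 := hf.slope_le_leftDeriv_of_mem_interior (hS n).2 hx (by linarith [hu n])
    rw [slope_def_field] at a1 a2
    have e1 : x + u n - x = u n := by ring
    have e2 : x - (x - u n) = u n := by ring
    rw [e1] at a1
    rw [e2] at a2
    have e3 : (f (x + u n) - 2 * f x + f (x - u n)) / u n = (f (x + u n) - f x) / u n - (f x - f (x - u n)) / u n := by
      ring
    rw [e3]; linarith
  have h5 : derivWithin f (Iio x) x = derivWithin f (Ioi x) x := by linarith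
  rw [h5] at h2
  have h6 := h2.union h1
  rw [Iio_union_Ioi] at h6
  have h7 : HasDerivAt f (derivWithin f (Ioi x) x) x := by
    rw [hasDerivAt_iff_tendsto_slope]
    exact (hasDerivWithinAt_iff_tendsto_slope' (notMem_compl_iff.2 (mem_singleton x))).1 h6
  exact h7.differentiableAt

end Pool.Agent.Q233.TFWa
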