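import Pool.Agent.Q233.TFWa
import Pool.Agent.Q233.TFFar

/-!
# Differentiability of the potentials of a neutral molecule in the nuclear charges
-/

set_option autoImplicit false
open MeasureTheory Set Filter Topology Metric
open scoped RealInnerProductSpace BigOperators ENNReal
open Pool.Agent.Helper557 Pool.Agent.Helper557.TFP
open Pool.Agent.H9R2.TF Pool.Agent.Q233.TFShell Pool.Agent.Q233.TFAtom Pool.Agent.Q233.TFSat
  Pool.Agent.Q233.TFSup Pool.Agent.Q233.TFCmp Pool.Agent.Q233.TFMol Pool.Agent.Q233.TFIon Pool.Agent.Q233.TFDil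
  Pool.Agent.Q233.TFMono Pool.Agent.Q233.TFSom Pool.Agent.Q233.TFTeller Pool.Agent.Q233.TFFar Pool.Agent.Q233.TFWa

namespace Pool.Agent.Q233.TFWb

variable {k : ℕ} {z v w : Fin k → ℝ} {R : Fin k → E3} {η : ℝ}

lemma pot_mono_ae {f g : E3 → ℝ} (hf : Nice f) (hg : Nice g) (h : ∀ᵐ y, f y ≤ g y) (x : E3) : pot f x ≤ pot g x := by
  obtain ⟨B, hB⟩ := nice_bound f hf
  obtain ⟨D, hD⟩ := nice_bound g hg
  unfold pot
  refine integral_mono_ae (hB x).1 (hD x).1 ?_
  filter_upwards [h] with y hy using div_le_div_of_nonneg_right hy (norm_nonneg _)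

lemma pot_tendsto_ae {ρh : E3 → ℝ} (hρ : Nice ρh) (a : ℕ → E3 → ℝ) (b : E3 → ℝ) (ha : ∀ n, Measurable (a n))
    (hle : ∀ n, ∀ᵐ x, |a n x| ≤ ρh x) (hl : ∀ᵐ x, Tendsto (fun n => a n x) atTop (𝓝 (b x))) (x : E3) :
    Tendsto (fun n => pot (a n) x) atTop (𝓝 (pot b x)) := by
  obtain ⟨B, hB⟩ := nice_bound ρh hρ
  unfold pot
  refine tendsto_integral_of_dominated_convergence (fun y => ρh y / ‖x - y‖) ?_ (hB x).1 ?_ ?_
  · intro n
    exact ((ha n).div (measurable_const.sub measurable_id).norm).aestronglyMeasurable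
  · intro n
    filter_upwards [hle n] with y hy
    rw [Real.norm_eq_abs, abs_div, abs_of_nonneg (norm_nonneg (x - y))]
    exact div_le_div_of_nonneg_right hy (norm_nonneg _)
  · filter_upwards [hl] with y hy
    exact hy.div_const _

/-- a line in the space of charges -/
def zl (z v : Fin k → ℝ) (s : ℝ) : Fin k → ℝ := fun j => z j + s * v j

lemma zl_zero (z v : Fin k → ℝ) : zl z v 0 = z := by funext j; simp [zl]

lemma zl_add (z v : Fin k → ℝ) (s t : ℝ) : zl z v (s + t) = fun j => zl z v s j + t * v j := by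
  funext j; simp only [zl]; ring

lemma zl_nonneg (hv : ∀ j, 0 ≤ v j) (hz : ∀ j, 0 ≤ z j - η * v j) {s : ℝ} (hs : -η ≤ s) (j : Fin k) : 0 ≤ zl z v s j := by
  have h1 := hz j
  have h2 := mul_le_mul_of_nonneg_right hs (hv j)
  unfold zl
  linarith

lemma VV_zl (z v : Fin k → ℝ) (R : Fin k → E3) (s : ℝ) (x : E3) : VV (zl z v s) R x = VV z R x + s * VV v R x := by
  unfold VV zl
  rw [Finset.mul_sum, ← Finset.sum_add_distrib]
  exact Finset.sum_congr rfl (fun j _ => by ring)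

/-- the potential along a line -/
noncomputable def ph (R : Fin k → E3) (z v : Fin k → ℝ) (x : E3) (s : ℝ) : ℝ := VV (zl z v s) R x - PP R (zl z v s) x

lemma ph_nonneg (hv : ∀ j, 0 ≤ v j) (hz : ∀ j, 0 ≤ z j - η * v j) {s : ℝ} (hs : -η ≤ s) {x : E3} (hx : ∀ j, x ≠ R j) :
    0 ≤ ph R z v x s :=
  EL_phi_nonneg (zl_nonneg hv hz hs) le_rfl (rm_EL (zl_nonneg hv hz hs) R) (fun j _ => hx j)

lemma ph_mono (hv : ∀ j, 0 ≤ v j) (hz : ∀ j, 0 ≤ z j - η * v j) {s t : ℝ} (hs : -η ≤ s) (hst : s ≤ t) {x : E3}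
    (hx : ∀ j, x ≠ R j) : ph R z v x s ≤ ph R z v x t := by
  have h := phi_mono (z := zl z v s) (z' := zl z v t) (zl_nonneg hv hz hs) (fun j => by
    unfold zl; have := mul_le_mul_of_nonneg_right hst (hv j); linarith) R (x := x) (fun j _ => hx j)
  rw [VV_sub] at h
  unfold ph
  linarith

/-- increasing differences of the electronic potential along a line -/
lemma PP_dd (hv : ∀ j, 0 ≤ v j) (hz : ∀ j, 0 ≤ z j - η * v j) {s h : ℝ} (hs : -η ≤ s) (hh : 0 ≤ h) (R : Fin k → E3) (x : E3) :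
    2 * PP R (zl z v (s + h)) x ≤ PP R (zl z v (s + h + h)) x + PP R (zl z v s) x := by
  have := sub_mod (z := zl z v s) (a := fun j => h * v j) (b := fun j => h * v j) (zl_nonneg hv hz hs)
    (fun j => mul_nonneg hh (hv j)) (fun j => mul_nonneg hh (hv j)) R x
  rw [← zl_add, show (fun j => zl z v s j + h * v j + h * v j) = zl z v (s + h + h) by
    rw [zl_add z v (s + h) h, zl_add z v s h]] at this
  linarith

lemma ph_dd (hv : ∀ j, 0 ≤ v j) (hz : ∀ j, 0 ≤ z j - η * v j) {s h : ℝ} (hs : -η ≤ s) (hh : 0 ≤ h) (x : E3) :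
    ph R z v x (s + h + h) + ph R z v x s ≤ 2 * ph R z v x (s + h) := by
  have := PP_dd hv hz hs hh R x
  unfold ph
  simp only [VV_zl]
  linarith

lemma ph_conc (hv : ∀ j, 0 ≤ v j) (hz : ∀ j, 0 ≤ z j - η * v j) {x : E3} (hx : ∀ j, x ≠ R j) :
    ConcaveOn ℝ (Ici (-η)) (ph R z v x) :=
  conc_of_decr (fun _ _ hs hst => ph_mono hv hz hs hst hx) (fun _ _ hs hh => ph_dd hv hz hs hh x)

lemma rm_ph (hv : ∀ j, 0 ≤ v j) (hz : ∀ j, 0 ≤ z j - η * v j) {s : ℝ} (hs : -η ≤ s) (x : E3) :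
    rm (zl z v s) R x = be (ph R z v x s) := by
  rw [(rm_EL (zl_nonneg hv hz hs) R).eq x, sub_zero]; rfl

lemma rm_mono_ae (hv : ∀ j, 0 ≤ v j) (hz : ∀ j, 0 ≤ z j - η * v j) {s t : ℝ} (hs : -η ≤ s) (hst : s ≤ t) (R : Fin k → E3) :
    ∀ᵐ x, rm (zl z v s) R x ≤ rm (zl z v t) R x := by
  filter_upwards [ae_nuc R] with x hx
  rw [rm_ph hv hz hs, rm_ph hv hz (hs.trans hst)]
  exact be_mono (ph_mono hv hz hs hst hx)

lemma PP_mono (hv : ∀ j, 0 ≤ v j) (hz : ∀ j, 0 ≤ z j - η * v j) {s t : ℝ} (hs : -η ≤ s) (hst : s ≤ t) (R : Fin k → E3) (x : E3) :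
    PP R (zl z v s) x ≤ PP R (zl z v t) x :=
  pot_mono_ae (rm_EL (zl_nonneg hv hz hs) R).nice (rm_EL (zl_nonneg hv hz (hs.trans hst)) R).nice (rm_mono_ae hv hz hs hst R) x

lemma PP_conv (hv : ∀ j, 0 ≤ v j) (hz : ∀ j, 0 ≤ z j - η * v j) (R : Fin k → E3) (x : E3) :
    ConvexOn ℝ (Ici (-η)) (fun s => PP R (zl z v s) x) :=
  conv_of_incr (fun _ _ hs hst => PP_mono hv hz hs hst R x) (fun _ _ hs hh => PP_dd hv hz hs hh R x)

/-- increments of the potential -/
lemma ph_incr (hη : 0 < η) (hv : ∀ j, 0 ≤ v j) (hz : ∀ j, 0 ≤ z j - η * v j) {t : ℝ} (ht : 0 < t) {x : E3}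
    (hx : ∀ j, x ≠ R j) : ph R z v x t - ph R z v x 0 ≤ t / η * ph R z v x 0 := by
  have h1 := (ph_conc (R := R) hv hz hx).slope_anti_adjacent (x := -η) (y := 0) (z := t) (mem_Ici.2 le_rfl)
    (mem_Ici.2 (by linarith)) (by linarith) ht
  rw [sub_zero, show (0:ℝ) - -η = η by ring] at h1
  have h2 := ph_nonneg (R := R) hv hz (s := -η) le_rfl hx
  have h3 := (div_le_div_iff_of_pos_right hη).2 (show ph R z v x 0 - ph R z v x (-η) ≤ ph R z v x 0 by linarith)
  have h4 := h1.trans h3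
  rw [div_le_iff₀ ht] at h4
  calc _ ≤ _ := h4
    _ = _ := by ring

lemma ph_cont (hη : 0 < η) (hv : ∀ j, 0 ≤ v j) (hz : ∀ j, 0 ≤ z j - η * v j) {x : E3} (hx : ∀ j, x ≠ R j) :
    ContinuousAt (ph R z v x) 0 := by
  have h := (ph_conc (R := R) hv hz hx).continuousOn_interior
  rw [interior_Ici] at h
  exact h.continuousAt (Ioi_mem_nhds (by linarith))

/-- the error term -/
noncomputable def EE (R : Fin k → E3) (z v : Fin k → ℝ) (η t : ℝ) (x : E3) : ℝ :=
  3/2 * (√(ph R z v x t) - √(ph R z v x (-t))) * (ph R z v x 0 / η)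

lemma ph_meas (hv : ∀ j, 0 ≤ v j) (hz : ∀ j, 0 ≤ z j - η * v j) {s : ℝ} (hs : -η ≤ s) : Measurable (fun x => ph R z v x s) :=
  (VV_meas _ _).sub (pot_cont (rm_EL (zl_nonneg hv hz hs) R).nice).measurable

lemma second_le (hη : 0 < η) (hv : ∀ j, 0 ≤ v j) (hz : ∀ j, 0 ≤ z j - η * v j) {t : ℝ} (ht : 0 < t) (htη : t ≤ η) {x : E3}
    (hx : ∀ j, x ≠ R j) :
    rm (zl z v t) R x + rm (zl z v (-t)) R x - (rm (zl z v 0) R x + rm (zl z v 0) R x) ≤ t * EE R z v η t x := by
  rw [rm_ph hv hz (show -η ≤ t by linarith), rm_ph hv hz (show -η ≤ -t by linarith), rm_ph hv hz (show -η ≤ 0 by linarith)]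
  have p1 := ph_nonneg (R := R) hv hz (s := -t) (by linarith) hx
  have p0 := ph_nonneg (R := R) hv hz (s := 0) (by linarith) hx
  have pt := ph_nonneg (R := R) hv hz (s := t) (by linarith) hx
  have m1 := ph_mono (R := R) hv hz (s := -t) (t := 0) (by linarith) (by linarith) hx
  have m2 := ph_mono (R := R) hv hz (s := 0) (t := t) (by linarith) (by linarith) hx
  have dd := ph_dd (R := R) hv hz (s := -t) (h := t) (by linarith) ht.le x
  rw [show -t + t + t = t by ring, show -t + t = 0 by ring] at dd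
  have inc := ph_incr (R := R) hη hv hz ht hx
  set a := ph R z v x (-t)
  set b := ph R z v x 0
  set c := ph R z v x t
  have h1 := be_lip (u := c) (v := b) m2
  rw [max_eq_left pt] at h1
  have h2 := be_conv (a := a) (w := b - a) p1 (by linarith)
  rw [add_sub_cancel] at h2
  have h3 : 3/2 * √a * (c - b) ≤ 3/2 * √a * (b - a) := mul_le_mul_of_nonneg_left (by linarith) (by positivity)
  have h4 : √a ≤ √c := Real.sqrt_le_sqrt (m1.trans m2)
  have h5 : 3/2 * (√c - √a) * (c - b) ≤ 3/2 * (√c - √a) * (t / η * b) :=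
    mul_le_mul_of_nonneg_left inc (mul_nonneg (by norm_num) (sub_nonneg.2 h4))
  unfold EE
  have e : t * (3/2 * (√c - √a) * (b / η)) = 3/2 * (√c - √a) * (t / η * b) := by ring
  rw [e]
  linarith

lemma EE_nonneg (hη : 0 < η) (hv : ∀ j, 0 ≤ v j) (hz : ∀ j, 0 ≤ z j - η * v j) {t : ℝ} (ht : 0 < t) (htη : t ≤ η) {x : E3}
    (hx : ∀ j, x ≠ R j) : 0 ≤ EE R z v η t x := by
  have p0 := ph_nonneg (R := R) hv hz (s := 0) (by linarith) hx
  have m1 := ph_mono (R := R) hv hz (s := -t) (t := t) (by linarith) (by linarith) hx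
  have := Real.sqrt_le_sqrt m1
  unfold EE
  exact mul_nonneg (mul_nonneg (by norm_num) (sub_nonneg.2 this)) (div_nonneg p0 hη.le)

lemma EE_le (hη : 0 < η) (hv : ∀ j, 0 ≤ v j) (hz : ∀ j, 0 ≤ z j - η * v j) {t : ℝ} (ht : 0 < t) (htη : t ≤ η) {x : E3}
    (hx : ∀ j, x ≠ R j) : EE R z v η t x ≤ 3 / (2 * η) * rm (zl z v η) R x := by
  rw [rm_ph hv hz (show -η ≤ η by linarith)]
  have p0 := ph_nonneg (R := R) hv hz (s := 0) (by linarith) hx
  have pη := ph_nonneg (R := R) hv hz (s := η) (by linarith) hx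
  have m1 := ph_mono (R := R) hv hz (s := t) (t := η) (by linarith) htη hx
  have m2 := ph_mono (R := R) hv hz (s := 0) (t := η) (by linarith) hη.le hx
  have h1 := Real.sqrt_le_sqrt m1
  have h2 := Real.sqrt_nonneg (ph R z v x (-t))
  rw [be_mul_sqrt pη]
  unfold EE
  calc 3/2 * (√(ph R z v x t) - √(ph R z v x (-t))) * (ph R z v x 0 / η)
      ≤ 3/2 * (√(ph R z v x η)) * (ph R z v x η / η) := by
        apply mul_le_mul
        · linarith
        · exact div_le_div_of_nonneg_right m2 hη.le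
        · exact div_nonneg p0 hη.le
        · positivity
    _ = _ := by field_simp

/-- the second differences of the electronic potential are of smaller order -/
theorem PP_second (hη : 0 < η) (hv : ∀ j, 0 ≤ v j) (hz : ∀ j, 0 ≤ z j - η * v j) (R : Fin k → E3) (x : E3) :
    Tendsto (fun n : ℕ => (PP R (zl z v (0 + η / (n + 1))) x - 2 * PP R (zl z v 0) x + PP R (zl z v (0 - η / (n + 1))) x)
      / (η / (n + 1))) atTop (𝓝 0) := by
  have hu : ∀ n : ℕ, 0 < η / ((n:ℝ) + 1) := fun n => by positivity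
  have hu1 : ∀ n : ℕ, η / ((n:ℝ) + 1) ≤ η := fun n => div_le_self hη.le (by linarith [show (0:ℝ) ≤ n from Nat.cast_nonneg n])
  have hu0 : Tendsto (fun n : ℕ => η / ((n:ℝ) + 1)) atTop (𝓝 0) := by
    have := tendsto_one_div_add_atTop_nhds_zero_nat.const_mul η
    rw [mul_zero] at this
    refine this.congr (fun n => ?_)
    ring
  have nη := (rm_EL (zl_nonneg hv hz (show -η ≤ η by linarith)) R).nice
  have n0 := (rm_EL (zl_nonneg hv hz (show -η ≤ 0 by linarith)) R).nice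
  have hEm : ∀ n : ℕ, Measurable (EE R z v η (η / ((n:ℝ) + 1))) := by
    intro n
    unfold EE
    exact (((ph_meas hv hz (by linarith [hu n])).sqrt.sub (ph_meas hv hz (by linarith [hu1 n])).sqrt).const_mul _).mul
      ((ph_meas hv hz (by linarith)).div_const _)
  have hEle : ∀ n : ℕ, ∀ᵐ y, |EE R z v η (η / ((n:ℝ) + 1)) y| ≤ 3 / (2 * η) * rm (zl z v η) R y := by
    intro n
    filter_upwards [ae_nuc R] with y hy
    rw [abs_of_nonneg (EE_nonneg hη hv hz (hu n) (hu1 n) hy)]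
    exact EE_le hη hv hz (hu n) (hu1 n) hy
  have hlim := pot_tendsto_ae (nice_smul nη (3 / (2 * η))) (fun n => EE R z v η (η / ((n:ℝ) + 1))) (fun _ => 0) hEm hEle (by
    filter_upwards [ae_nuc R] with y hy
    have c := ph_cont (R := R) hη hv hz hy
    have t1 : Tendsto (fun n : ℕ => ph R z v y (η / ((n:ℝ) + 1))) atTop (𝓝 (ph R z v y 0)) := c.tendsto.comp hu0
    have t2 : Tendsto (fun n : ℕ => ph R z v y (-(η / ((n:ℝ) + 1)))) atTop (𝓝 (ph R z v y 0)) := by
      have := hu0.neg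
      rw [neg_zero] at this
      exact c.tendsto.comp this
    have t3 := ((t1.sqrt.sub t2.sqrt).const_mul (3/2)).mul_const (ph R z v y 0 / η)
    rw [sub_self, mul_zero, zero_mul] at t3
    exact t3) x
  rw [pot_zero] at hlim
  refine squeeze_zero (fun n => ?_) (fun n => ?_) hlim
  · have := PP_dd hv hz (s := -(η / ((n:ℝ) + 1))) (h := η / ((n:ℝ) + 1)) (by linarith [hu1 n]) (hu n).le R x
    rw [show -(η / ((n:ℝ) + 1)) + η / ((n:ℝ) + 1) + η / ((n:ℝ) + 1) = 0 + η / ((n:ℝ) + 1) by ring,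
      show -(η / ((n:ℝ) + 1)) + η / ((n:ℝ) + 1) = 0 by ring, show -(η / ((n:ℝ) + 1)) = 0 - η / ((n:ℝ) + 1) by ring] at this
    exact div_nonneg (by linarith) (hu n).le
  · have nt := (rm_EL (zl_nonneg hv hz (show -η ≤ η / ((n:ℝ) + 1) by linarith [hu n])) R).nice
    have nt' := (rm_EL (zl_nonneg hv hz (show -η ≤ -(η / ((n:ℝ) + 1)) by linarith [hu1 n])) R).nice
    have nE : Nice (EE R z v η (η / ((n:ℝ) + 1))) := by
      refine nice_of_ae_le (hEm n) nη (C := 3 / (2 * η)) (by positivity) ?_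
      filter_upwards [hEle n] with y hy
      exact hy.trans (mul_le_mul_of_nonneg_left (le_abs_self _) (by positivity))
    have h1 := pot_mono_ae (nice_sub' (nice_add nt nt') (nice_add n0 n0)) (nice_smul nE (η / ((n:ℝ) + 1))) (by
      filter_upwards [ae_nuc R] with y hy
      exact second_le hη hv hz (hu n) (hu1 n) hy) x
    have h2 : pot (fun y => η / ((n:ℝ) + 1) * EE R z v η (η / ((n:ℝ) + 1)) y) x = η / ((n:ℝ) + 1) * pot (EE R z v η (η / ((n:ℝ) + 1))) x := by
      have := pot_lin nice_zero nE (η / ((n:ℝ) + 1)) x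
      rw [pot_zero, zero_add] at this
      rw [← this]
      congr 1
      funext y; ring
    rw [h2, pot_sub (nice_add nt nt') (nice_add n0 n0), pot_add nt nt', pot_add n0 n0] at h1
    rw [div_le_iff₀ (hu n), zero_add, zero_sub]
    unfold PP
    linarith

/-- **the electronic potential of a neutral molecule is differentiable in the nuclear charges** -/
theorem PP_diff (hη : 0 < η) (hv : ∀ j, 0 ≤ v j) (hz : ∀ j, 0 ≤ z j - η * v j) (R : Fin k → E3) (x : E3) :
    DifferentiableAt ℝ (fun s => PP R (zl z v s) x) 0 := by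
  refine diff_of_second (PP_conv hv hz R x) (by rw [interior_Ici]; exact mem_Ioi.2 (by linarith))
    (u := fun n : ℕ => η / ((n:ℝ) + 1)) (fun n => by positivity) (fun n => ?_) (PP_second hη hv hz R x)
  have h1 : 0 < η / ((n:ℝ) + 1) := by positivity
  have h2 : η / ((n:ℝ) + 1) ≤ η := div_le_self hη.le (by linarith [show (0:ℝ) ≤ n from Nat.cast_nonneg n])
  exact ⟨mem_Ici.2 (by linarith), mem_Ici.2 (by linarith)⟩

end Pool.Agent.Q233.TFWb
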