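import Pool.Agent.Q233.TFWb

/-!
# Derivatives of the energy and of the kinetic energy of a neutral molecule in the nuclear charges
-/

set_option autoImplicit false
open MeasureTheory Set Filter Topology Metric
open scoped RealInnerProductSpace BigOperators ENNReal
open Pool.Agent.Helper557 Pool.Agent.Helper557.TFP
open Pool.Agent.H9R2.TF Pool.Agent.Q233.TFShell Pool.Agent.Q233.TFAtom Pool.Agent.Q233.TFSat
  Pool.Agent.Q233.TFSup Pool.Agent.Q233.TFCmp Pool.Agent.Q233.TFMol Pool.Agent.Q233.TFIon Pool.Agent.Q233.TFDil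
  Pool.Agent.Q233.TFMono Pool.Agent.Q233.TFSom Pool.Agent.Q233.TFTeller Pool.Agent.Q233.TFFar Pool.Agent.Q233.TFWa
  Pool.Agent.Q233.TFWb

namespace Pool.Agent.Q233.TFWc

variable {k : ℕ} {z v w : Fin k → ℝ} {η : ℝ}

lemma deriv_of_sandwich {f g : ℝ → ℝ} {x : ℝ} (hg : ContinuousAt g x)
    (h : ∀ᶠ y in 𝓝 x, (y - x) * g y ≤ f y - f x ∧ f y - f x ≤ (y - x) * g x) : HasDerivAt f (g x) x := by
  rw [hasDerivAt_iff_isLittleO, Asymptotics.isLittleO_iff]
  intro c hc
  have h2 : ∀ᶠ y in 𝓝 x, |g y - g x| < c := by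
    have := Metric.tendsto_nhds.1 hg.tendsto c hc
    simpa [Real.dist_eq] using this
  filter_upwards [h, h2] with y hy hy2
  obtain ⟨h3, h4⟩ := hy
  rw [smul_eq_mul, Real.norm_eq_abs, Real.norm_eq_abs]
  have h5 : |f y - f x - (y - x) * g x| ≤ |(y - x) * (g y - g x)| := by
    rw [abs_of_nonpos (by linarith)]
    have : -(f y - f x - (y - x) * g x) ≤ -((y - x) * (g y - g x)) := by linarith
    exact this.trans (neg_le_abs _)
  rw [abs_mul] at h5
  refine h5.trans ?_
  rw [mul_comm c]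
  exact mul_le_mul_of_nonneg_left hy2.le (abs_nonneg _)

/-- derivative of the potential in the direction `v` -/
noncomputable def dP (R : Fin k → E3) (z v : Fin k → ℝ) (x : E3) : ℝ := deriv (fun s => PP R (zl z v s) x) 0

lemma PP_hasDeriv (hη : 0 < η) (hv : ∀ j, 0 ≤ v j) (hz : ∀ j, 0 ≤ z j - η * v j) (R : Fin k → E3) (x : E3) :
    HasDerivAt (fun s => PP R (zl z v s) x) (dP R z v x) 0 := (PP_diff hη hv hz R x).hasDerivAt

lemma ee_hasDeriv (hη : 0 < η) (hv : ∀ j, 0 ≤ v j) (hz : ∀ j, 0 ≤ z j - η * v j) (R : Fin k → E3) :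
    HasDerivAt (fun s => ee R (zl z v s)) (-(∑ j, v j * PP R z (R j))) 0 := by
  have hg : ContinuousAt (fun s => -(∑ j, v j * PP R (zl z v s) (R j))) 0 := by
    refine ContinuousAt.neg ?_
    exact tendsto_finsetSum _ (fun j _ => ((PP_diff hη hv hz R (R j)).continuousAt.tendsto).const_mul _)
  have h := deriv_of_sandwich (f := fun s => ee R (zl z v s)) hg (by
    filter_upwards [Ioi_mem_nhds (show -η < 0 by linarith)] with s hs
    have hs' : -η ≤ s := (mem_Ioi.1 hs).le
    have n1 := zl_nonneg hv hz hs'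
    have n0 := zl_nonneg hv hz (show -η ≤ 0 by linarith)
    have a1 := superdiff (z := zl z v 0) (z' := zl z v s) n0 n1 R
    have a2 := superdiff (z := zl z v s) (z' := zl z v 0) n1 n0 R
    have e1 : ∑ j, (zl z v s j - zl z v 0 j) * PP R (zl z v 0) (R j) = s * ∑ j, v j * PP R (zl z v 0) (R j) := by
      rw [Finset.mul_sum]
      exact Finset.sum_congr rfl (fun j _ => by simp only [zl]; ring)
    have e2 : ∑ j, (zl z v 0 j - zl z v s j) * PP R (zl z v s) (R j) = -(s * ∑ j, v j * PP R (zl z v s) (R j)) := by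
      rw [Finset.mul_sum, ← Finset.sum_neg_distrib]
      exact Finset.sum_congr rfl (fun j _ => by simp only [zl]; ring)
    rw [e1] at a1
    rw [e2] at a2
    constructor <;> linarith)
  simpa only [zl_zero] using h

lemma KK_hasDeriv (hη : 0 < η) (hv : ∀ j, 0 ≤ v j) (hz : ∀ j, 0 ≤ z j - η * v j) (R : Fin k → E3) :
    HasDerivAt (fun s => KK R (zl z v s)) (-3 * (∑ j, v j * PP R z (R j)) + 3 * ∑ j, z j * dP R z v (R j)) 0 := by
  have h1 := (ee_hasDeriv hη hv hz R).const_mul 6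
  have h2 : HasDerivAt (fun s => ∑ j, zl z v s j * PP R (zl z v s) (R j)) (∑ j, (v j * PP R z (R j) + z j * dP R z v (R j))) 0 := by
    refine HasDerivAt.fun_sum (fun j _ => ?_)
    have a : HasDerivAt (fun s => zl z v s j) (v j) 0 := by
      unfold zl
      simpa using ((hasDerivAt_id (0:ℝ)).mul_const (v j)).const_add (z j)
    have := a.mul (PP_hasDeriv hη hv hz R (R j))
    simp only [zl_zero] at this
    exact this
  have h3 := h1.add (h2.const_mul 3)
  have h4 := h3.congr_of_eventuallyEq (f₁ := fun s => KK R (zl z v s)) (by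
    filter_upwards [Ioi_mem_nhds (show -η < 0 by linarith)] with s hs
    rw [KK_eq (zl_nonneg hv hz (mem_Ioi.1 hs).le) R]; rfl)
  refine h4.congr_deriv ?_
  rw [Finset.sum_add_distrib]
  ring

lemma dP_add (hη : 0 < η) (hv : ∀ j, 0 ≤ v j) (hw : ∀ j, 0 ≤ w j) (hz : ∀ j, 0 ≤ z j - η * (v j + w j)) (R : Fin k → E3)
    (x : E3) : dP R z (fun j => v j + w j) x = dP R z v x + dP R z w x := by
  have hvw : ∀ j, 0 ≤ v j + w j := fun j => add_nonneg (hv j) (hw j)
  have hzv : ∀ j, 0 ≤ z j - η * v j := fun j => by nlinarith [hz j, mul_nonneg hη.le (hw j)]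
  have hzw : ∀ j, 0 ≤ z j - η * w j := fun j => by nlinarith [hz j, mul_nonneg hη.le (hv j)]
  have hz0 : ∀ j, 0 ≤ z j := fun j => by nlinarith [hz j, mul_nonneg hη.le (hvw j)]
  have h1 := PP_hasDeriv hη hvw hz R x
  have h2 := PP_hasDeriv hη hv hzv R x
  have h3 := PP_hasDeriv hη hw hzw R x
  have h4 := ((h1.add_const (PP R z x)).sub h2).sub h3
  have hmin : IsLocalMin ((fun s => PP R (zl z (fun j => v j + w j) s) x + PP R z x) - (fun s => PP R (zl z v s) x) - fun s => PP R (zl z w s) x) 0 := by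
    show ∀ᶠ s in 𝓝 (0:ℝ), _ ≤ _
    filter_upwards [Icc_mem_nhds (show -η < 0 by linarith) hη] with s hs
    simp only [Pi.sub_apply, zl_zero]
    rcases le_total 0 s with h | h
    · have := sub_mod (z := z) (a := fun j => s * v j) (b := fun j => s * w j) hz0 (fun j => mul_nonneg h (hv j))
        (fun j => mul_nonneg h (hw j)) R x
      have e : (fun j => z j + s * v j + s * w j) = zl z (fun j => v j + w j) s := by funext j; simp only [zl]; ring
      rw [e] at this
      have e1 : (fun j => z j + s * v j) = zl z v s := rfl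
      have e2 : (fun j => z j + s * w j) = zl z w s := rfl
      rw [e1, e2] at this
      linarith
    · have n1 := zl_nonneg hvw hz hs.1
      have := sub_mod (z := zl z (fun j => v j + w j) s) (a := fun j => (-s) * v j) (b := fun j => (-s) * w j) n1
        (fun j => mul_nonneg (by linarith) (hv j)) (fun j => mul_nonneg (by linarith) (hw j)) R x
      have e1 : (fun j => zl z (fun j => v j + w j) s j + (-s) * v j) = zl z w s := by funext j; simp only [zl]; ring
      have e2 : (fun j => zl z (fun j => v j + w j) s j + (-s) * w j) = zl z v s := by funext j; simp only [zl]; ring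
      have e3 : (fun j => zl z (fun j => v j + w j) s j + (-s) * v j + (-s) * w j) = z := by funext j; simp only [zl]; ring
      rw [e1, e2, e3] at this
      linarith
  have := hmin.hasDerivAt_eq_zero h4
  linarith

lemma dP_smul (c : ℝ) (R : Fin k → E3) (x : E3) : dP R z (fun j => c * v j) x = c * dP R z v x := by
  have h := deriv_comp_mul_left c (fun s => PP R (zl z v s) x) 0
  rw [mul_zero, smul_eq_mul] at h
  unfold dP
  rw [← h]
  congr 1
  funext s
  congr 1
  funext j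
  simp only [zl]; ring

lemma dP_zero (R : Fin k → E3) (x : E3) : dP R z (fun _ => 0) x = 0 := by
  have := dP_smul (z := z) (v := fun _ => 0) 0 R x
  simpa using this

lemma dP_sum (hz : ∀ j, 0 ≤ z j) (R : Fin k → E3) (x : E3) (S : Finset (Fin k)) :
    dP R z (fun j => ∑ i ∈ S, z i * (Pi.single i (1:ℝ) : Fin k → ℝ) j) x = ∑ i ∈ S, z i * dP R z (Pi.single i 1) x := by
  have hs : ∀ i j : Fin k, 0 ≤ (Pi.single i (1:ℝ) : Fin k → ℝ) j := by
    intro i j
    rcases eq_or_ne j i with h | h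
    · subst h; rw [Pi.single_eq_same]; exact zero_le_one
    · rw [Pi.single_eq_of_ne h]
  have hT : ∀ (T : Finset (Fin k)) (j : Fin k), ∑ i ∈ T, z i * (Pi.single i (1:ℝ) : Fin k → ℝ) j ≤ z j := by
    intro T j
    refine (Finset.sum_le_sum_of_subset_of_nonneg (Finset.subset_univ T) (fun i _ _ => mul_nonneg (hz i) (hs i j))).trans ?_
    rw [Finset.sum_eq_single j]
    · rw [Pi.single_eq_same, mul_one]
    · intro i _ hi; rw [Pi.single_eq_of_ne hi.symm, mul_zero]
    · intro h; exact absurd (Finset.mem_univ j) h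
  induction S using Finset.induction_on with
  | empty => simpa using dP_zero (z := z) R x
  | insert a S ha ih =>
    rw [Finset.sum_insert ha, ← ih, ← dP_smul]
    rw [← dP_add (η := 1) one_pos (fun j => mul_nonneg (hz a) (hs a j)) (fun j => Finset.sum_nonneg (fun i _ => mul_nonneg (hz i) (hs i j)))
      (fun j => by
        have := hT (insert a S) j
        rw [Finset.sum_insert ha] at this
        linarith)]
    congr 1
    funext j
    rw [Finset.sum_insert ha]

lemma dP_ray (hz : ∀ j, 0 ≤ z j) (R : Fin k → E3) (x : E3) : dP R z z x = ∑ i, z i * dP R z (Pi.single i 1) x := by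
  rw [← dP_sum hz R x Finset.univ]
  congr 1
  funext j
  rw [Finset.sum_eq_single j]
  · rw [Pi.single_eq_same, mul_one]
  · intro i _ hi; rw [Pi.single_eq_of_ne hi.symm, mul_zero]
  · intro h; exact absurd (Finset.mem_univ j) h

/-- partial derivative of the kinetic energy -/
lemma KK_partial (hz : ∀ j, 0 ≤ z j) (R : Fin k → E3) {i : Fin k} (hi : 0 < z i) :
    HasDerivAt (fun s => KK R (Function.update z i s)) (-3 * PP R z (R i) + 3 * ∑ j, z j * dP R z (Pi.single i 1) (R j)) (z i) := by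
  have hs : ∀ j : Fin k, 0 ≤ (Pi.single i (1:ℝ) : Fin k → ℝ) j := by
    intro j
    rcases eq_or_ne j i with h | h
    · subst h; rw [Pi.single_eq_same]; exact zero_le_one
    · rw [Pi.single_eq_of_ne h]
  have hz' : ∀ j, 0 ≤ z j - z i * (Pi.single i (1:ℝ) : Fin k → ℝ) j := by
    intro j
    rcases eq_or_ne j i with h | h
    · subst h; rw [Pi.single_eq_same]; linarith
    · rw [Pi.single_eq_of_ne h]; have := hz j; linarith
  have h := KK_hasDeriv hi hs hz' R
  have e1 : ∑ j, (Pi.single i (1:ℝ) : Fin k → ℝ) j * PP R z (R j) = PP R z (R i) := by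
    rw [Finset.sum_eq_single i]
    · rw [Pi.single_eq_same, one_mul]
    · intro j _ hj; rw [Pi.single_eq_of_ne hj, zero_mul]
    · intro h; exact absurd (Finset.mem_univ i) h
  rw [e1] at h
  have h' : HasDerivAt (fun s => KK R (zl z (Pi.single i 1) s)) (-3 * PP R z (R i) + 3 * ∑ j, z j * dP R z (Pi.single i 1) (R j))
      (z i - z i) := by rw [sub_self]; exact h
  have h2 := HasDerivAt.comp_sub_const (z i) (z i) h'
  have e2 : (fun s => KK R (Function.update z i s)) = fun s => KK R (zl z (Pi.single i 1) (s - z i)) := by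
    funext s
    congr 1
    funext j
    unfold zl
    rcases eq_or_ne j i with h | h
    · subst h; rw [Pi.single_eq_same, Function.update_self]; ring
    · rw [Pi.single_eq_of_ne h, Function.update_of_ne h]; ring
  rw [e2]
  exact h2

/-- `Σ zᵢ Kᵢ` with the partial derivatives of `K` on the closed orthant -/
noncomputable def th (R : Fin k → E3) (z : Fin k → ℝ) : ℝ :=
  ∑ i, z i * derivWithin (fun s => KK R (Function.update z i s)) (Ici 0) (z i)

lemma th_eq (hz : ∀ j, 0 ≤ z j) (R : Fin k → E3) :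
    th R z = -3 * (∑ j, z j * PP R z (R j)) + 3 * ∑ j, z j * dP R z z (R j) := by
  have h1 : th R z = ∑ i, z i * (-3 * PP R z (R i) + 3 * ∑ j, z j * dP R z (Pi.single i 1) (R j)) := by
    unfold th
    refine Finset.sum_congr rfl (fun i _ => ?_)
    rcases eq_or_lt_of_le (hz i) with h | h
    · rw [← h, zero_mul, zero_mul]
    · rw [(KK_partial hz R h).hasDerivWithinAt.derivWithin (uniqueDiffOn_Ici 0 (z i) (mem_Ici.2 h.le))]
  rw [h1]
  simp only [dP_ray hz R]
  simp only [mul_add, Finset.sum_add_distrib, Finset.mul_sum]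
  congr 1
  · exact Finset.sum_congr rfl (fun i _ => by ring)
  · rw [Finset.sum_comm]
    exact Finset.sum_congr rfl (fun i _ => Finset.sum_congr rfl (fun j _ => by ring))

/-- the charges multiplied by `t` -/
def sz (t : ℝ) (z : Fin k → ℝ) : Fin k → ℝ := fun j => t * z j

lemma sz_nonneg (hz : ∀ j, 0 ≤ z j) {t : ℝ} (ht : 0 ≤ t) (j : Fin k) : 0 ≤ sz t z j := mul_nonneg ht (hz j)

lemma sz_zl {t : ℝ} (ht : t ≠ 0) (s : ℝ) : sz s z = zl (sz t z) (sz t z) (t⁻¹ * s - 1) := by
  funext j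
  simp only [sz, zl]
  field_simp
  ring

lemma ray_comp {f : (Fin k → ℝ) → ℝ} {D t : ℝ} (ht : 0 < t) (h : HasDerivAt (fun s => f (zl (sz t z) (sz t z) s)) D 0) :
    HasDerivAt (fun s => f (sz s z)) (t⁻¹ * D) t := by
  have e : (fun s => f (sz s z)) = (fun s => f (zl (sz t z) (sz t z) s)) ∘ (fun s => t⁻¹ * s - 1) := by
    funext s
    simp only [Function.comp]
    rw [← sz_zl ht.ne']
  rw [e, mul_comm]
  refine HasDerivAt.comp t ?_ ?_
  · have : t⁻¹ * t - 1 = 0 := by rw [inv_mul_cancel₀ ht.ne', sub_self]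
    rw [this]; exact h
  · simpa using ((hasDerivAt_id t).const_mul t⁻¹).sub_const 1

lemma KK_ray (hz : ∀ j, 0 ≤ z j) (R : Fin k → E3) {t : ℝ} (ht : 0 < t) :
    HasDerivAt (fun s => KK R (sz s z)) (t⁻¹ * th R (sz t z)) t := by
  have hn := sz_nonneg hz ht.le
  refine ray_comp ht ?_
  have := KK_hasDeriv (z := sz t z) (v := sz t z) one_pos hn (fun j => by rw [one_mul, sub_self]) R
  rw [th_eq hn R]
  exact this

lemma ee_ray (hz : ∀ j, 0 ≤ z j) (R : Fin k → E3) {t : ℝ} (ht : 0 < t) :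
    HasDerivAt (fun s => ee R (sz s z)) ((6 * ee R (sz t z) - KK R (sz t z)) / (3 * t)) t := by
  have hn := sz_nonneg hz ht.le
  have := ee_hasDeriv (z := sz t z) (v := sz t z) one_pos hn (fun j => by rw [one_mul, sub_self]) R
  have h := ray_comp (f := ee R) ht this
  refine h.congr_deriv ?_
  rw [KK_eq hn R]
  field_simp
  ring

/-- the electronic energy divided by the square of the charge, in the length variable -/
noncomputable def yy (R : Fin k → E3) (z : Fin k → ℝ) (l : ℝ) : ℝ := (l ^ 6)⁻¹ * ee R (sz (l ^ 3) z)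

/-- the function `3X - 2K` -/
noncomputable def Xt (R : Fin k → E3) (z : Fin k → ℝ) : ℝ := 7 * KK R z - 3 * th R z

lemma yy_deriv (hz : ∀ j, 0 ≤ z j) (R : Fin k → E3) {l : ℝ} (hl : 0 < l) :
    HasDerivAt (yy R z) (-((l ^ 7)⁻¹ * KK R (sz (l ^ 3) z))) l := by
  have h3 : 0 < l ^ 3 := by positivity
  have a1 : HasDerivAt (fun l : ℝ => l ^ 3) (3 * l ^ 2) l := by simpa using hasDerivAt_pow 3 l
  have a2 := HasDerivAt.comp (h₂ := fun t => ee R (sz t z)) (h := fun l : ℝ => l ^ 3) l (ee_ray hz R h3) a1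
  have a3 : HasDerivAt (fun l : ℝ => (l ^ 6)⁻¹) (-(6 * l ^ 5) / (l ^ 6) ^ 2) l := by
    have := (hasDerivAt_pow 6 l).fun_inv (by positivity)
    simpa using this
  have := a3.fun_mul a2
  refine this.congr_deriv ?_
  simp only [Function.comp]
  field_simp
  ring

lemma yy_deriv2 (hz : ∀ j, 0 ≤ z j) (R : Fin k → E3) {l : ℝ} (hl : 0 < l) :
    HasDerivAt (fun l => -((l ^ 7)⁻¹ * KK R (sz (l ^ 3) z))) ((l ^ 8)⁻¹ * Xt R (sz (l ^ 3) z)) l := by
  have h3 : 0 < l ^ 3 := by positivity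
  have a1 : HasDerivAt (fun l : ℝ => l ^ 3) (3 * l ^ 2) l := by simpa using hasDerivAt_pow 3 l
  have a2 := HasDerivAt.comp (h₂ := fun t => KK R (sz t z)) (h := fun l : ℝ => l ^ 3) l (KK_ray hz R h3) a1
  have a3 : HasDerivAt (fun l : ℝ => (l ^ 7)⁻¹) (-(7 * l ^ 6) / (l ^ 7) ^ 2) l := by
    have := (hasDerivAt_pow 7 l).fun_inv (by positivity)
    simpa using this
  have := (a3.fun_mul a2).fun_neg
  refine this.congr_deriv ?_
  simp only [Function.comp]
  unfold Xt
  field_simp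
  ring

/-- **weak superadditivity along a ray is convexity in the length variable** -/
theorem conv_of_wsa {z₁ z₂ : Fin k → ℝ} (h1 : ∀ j, 0 ≤ z₁ j) (h2 : ∀ j, 0 ≤ z₂ j) (R : Fin k → E3)
    (h : ∀ t, 0 < t → Xt R (sz t z₁) + Xt R (sz t z₂) ≤ Xt R (sz t (fun j => z₁ j + z₂ j))) :
    ConvexOn ℝ (Ioi 0) (fun l => yy R (fun j => z₁ j + z₂ j) l - yy R z₁ l - yy R z₂ l) := by
  have h12 : ∀ j, 0 ≤ z₁ j + z₂ j := fun j => add_nonneg (h1 j) (h2 j)
  have d1 : ∀ l ∈ Ioi (0:ℝ), HasDerivAt (fun l => yy R (fun j => z₁ j + z₂ j) l - yy R z₁ l - yy R z₂ l)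
      (-((l ^ 7)⁻¹ * KK R (sz (l ^ 3) (fun j => z₁ j + z₂ j))) - -((l ^ 7)⁻¹ * KK R (sz (l ^ 3) z₁)) - -((l ^ 7)⁻¹ * KK R (sz (l ^ 3) z₂))) l :=
    fun l hl => ((yy_deriv h12 R hl).sub (yy_deriv h1 R hl)).sub (yy_deriv h2 R hl)
  have d2 : ∀ l ∈ Ioi (0:ℝ), HasDerivAt (fun l => -((l ^ 7)⁻¹ * KK R (sz (l ^ 3) (fun j => z₁ j + z₂ j))) - -((l ^ 7)⁻¹ * KK R (sz (l ^ 3) z₁)) - -((l ^ 7)⁻¹ * KK R (sz (l ^ 3) z₂)))
      ((l ^ 8)⁻¹ * Xt R (sz (l ^ 3) (fun j => z₁ j + z₂ j)) - (l ^ 8)⁻¹ * Xt R (sz (l ^ 3) z₁) - (l ^ 8)⁻¹ * Xt R (sz (l ^ 3) z₂)) l :=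
    fun l hl => ((yy_deriv2 h12 R hl).sub (yy_deriv2 h1 R hl)).sub (yy_deriv2 h2 R hl)
  refine convexOn_of_hasDerivWithinAt2_nonneg (convex_Ioi 0)
    (f' := fun l => -((l ^ 7)⁻¹ * KK R (sz (l ^ 3) (fun j => z₁ j + z₂ j))) - -((l ^ 7)⁻¹ * KK R (sz (l ^ 3) z₁)) - -((l ^ 7)⁻¹ * KK R (sz (l ^ 3) z₂)))
    (f'' := fun l => (l ^ 8)⁻¹ * Xt R (sz (l ^ 3) (fun j => z₁ j + z₂ j)) - (l ^ 8)⁻¹ * Xt R (sz (l ^ 3) z₁) - (l ^ 8)⁻¹ * Xt R (sz (l ^ 3) z₂))
    (fun l hl => (d1 l hl).continuousAt.continuousWithinAt) ?_ ?_ ?_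
  · rw [interior_Ioi]; exact fun l hl => (d1 l hl).hasDerivWithinAt
  · rw [interior_Ioi]; exact fun l hl => (d2 l hl).hasDerivWithinAt
  · rw [interior_Ioi]
    intro l hl
    have hl' : 0 < l := hl
    have := h (l ^ 3) (by positivity)
    have h8 : 0 < (l ^ 8)⁻¹ := by positivity
    have := mul_le_mul_of_nonneg_left this h8.le
    linarith

end Pool.Agent.Q233.TFWc
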