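import Pool.Agent.Q233.TFWc
import Pool.Agent.Results.MP_f156ce_mp.NotSuperadditive

/-!
# Merging nuclei in pairs: weak superadditivity of `3X - 2K` fails
-/

set_option autoImplicit false
open MeasureTheory Set Filter Topology Metric
open scoped RealInnerProductSpace BigOperators ENNReal
open Pool.Agent.Helper557 Pool.Agent.Helper557.TFP
open Pool.Agent.H9R2.TF Pool.Agent.Q233.TFShell Pool.Agent.Q233.TFAtom Pool.Agent.Q233.TFSat
  Pool.Agent.Q233.TFSup Pool.Agent.Q233.TFCmp Pool.Agent.Q233.TFMol Pool.Agent.Q233.TFIon Pool.Agent.Q233.TFDil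
  Pool.Agent.Q233.TFMono Pool.Agent.Q233.TFSom Pool.Agent.Q233.TFTeller Pool.Agent.Q233.TFFar Pool.Agent.Q233.TFWa
  Pool.Agent.Q233.TFWb Pool.Agent.Q233.TFWc

namespace Pool.Agent.Q233.TFWd

/-- the energy depends only on the nuclear potential -/
lemma ee_congr {k m : ℕ} {z : Fin k → ℝ} {R : Fin k → E3} {z' : Fin m → ℝ} {R' : Fin m → E3} (hz : ∀ j, 0 ≤ z j)
    (hz' : ∀ j, 0 ≤ z' j) (h : ∀ x, VV z R x = VV z' R' x) : ee R z = ee R' z' := by
  have h1 := rm_EL hz R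
  have h2 : ELs z' R' 0 (rm z R) := ⟨h1.nice, fun x => by rw [← h x]; exact h1.eq x⟩
  have h3 := EL_unique h2 (rm_EL hz' R')
  unfold ee EF
  rw [h3]
  simp only [h]

/-- translation invariance -/
lemma ee_shift {k : ℕ} {z : Fin k → ℝ} (hz : ∀ j, 0 ≤ z j) (R : Fin k → E3) (v : E3) : ee (fun j => R j + v) z = ee R z := by
  have hV : ∀ x, VV z (fun j => R j + v) x = VV z R (x - v) := by
    intro x
    unfold VV
    refine Finset.sum_congr rfl (fun j _ => ?_)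
    rw [sub_add_eq_sub_sub_swap]
  have h1 := rm_EL hz R
  have h2 : ELs z (fun j => R j + v) 0 (fun x => rm z R (x - v)) :=
    ⟨nice_shift h1.nice v, fun x => by rw [hV, pot_shift]; exact h1.eq (x - v)⟩
  have h3 := EL_unique (rm_EL hz (fun j => R j + v)) h2
  unfold ee EF
  rw [h3]
  simp only [hV, pot_shift]
  rw [integral_sub_right_eq_self (fun x => rm z R x ^ (5/3 : ℝ)) v, integral_sub_right_eq_self (fun x => VV z R x * rm z R x) v,
    integral_sub_right_eq_self (fun x => rm z R x * pot (rm z R) x) v]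

lemma EF_le_of {k : ℕ} {z : Fin k → ℝ} (hz : ∀ j, 0 ≤ z j) (R : Fin k → E3) {σ : E3 → ℝ} (h : Nice σ) (h0 : ∀ x, 0 ≤ σ x) :
    ee R z ≤ EF z R σ := EF_min0 (rm_EL hz R) (adm_of_nice h h0)

/-- the functional is affine in the nuclear potential -/
lemma EF_half {k m n : ℕ} {z : Fin k → ℝ} {R : Fin k → E3} {z1 : Fin m → ℝ} {R1 : Fin m → E3} {z2 : Fin n → ℝ} {R2 : Fin n → E3}
    (h : ∀ x, VV z R x = 1/2 * VV z1 R1 x + 1/2 * VV z2 R2 x) {σ : E3 → ℝ} (hσ : Nice σ) :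
    EF z R σ = 1/2 * EF z1 R1 σ + 1/2 * EF z2 R2 σ := by
  have e : ∫ x, VV z R x * σ x = 1/2 * (∫ x, VV z1 R1 x * σ x) + 1/2 * ∫ x, VV z2 R2 x * σ x := by
    rw [← integral_const_mul, ← integral_const_mul, ← integral_add ((vint z1 R1 hσ).const_mul _) ((vint z2 R2 hσ).const_mul _)]
    congr 1
    funext x
    rw [h x]; ring
  unfold EF
  rw [e]; ring

/-- two nuclei -/
def r2 (P Q : E3) : Fin 2 → E3 := ![P, Q]

/-- two pairs of nearby nuclei -/
def r4 (P Q e : E3) (ε : ℝ) : Fin 4 → E3 := ![P, P + ε • e, Q, Q + ε • e]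

/-- charges of the first diatomic molecule -/
def c1 : Fin 4 → ℝ := ![1, 0, 1, 0]

/-- charges of the second diatomic molecule -/
def c2 : Fin 4 → ℝ := ![0, 1, 0, 1]

/-- electronic energy of the diatomic molecule with both charges `t` -/
noncomputable def F2 (P Q : E3) (t : ℝ) : ℝ := ee (r2 P Q) (fun _ => t)

lemma c1_nonneg (j : Fin 4) : 0 ≤ c1 j := by fin_cases j <;> simp [c1]
lemma c2_nonneg (j : Fin 4) : 0 ≤ c2 j := by fin_cases j <;> simp [c2]

lemma VV_r2 (P Q : E3) (t : ℝ) (x : E3) : VV (fun _ : Fin 2 => t) (r2 P Q) x = t / ‖x - P‖ + t / ‖x - Q‖ := by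
  unfold VV r2
  rw [Fin.sum_univ_two]
  simp

lemma ee_c1 (P Q e : E3) (ε : ℝ) {t : ℝ} (ht : 0 ≤ t) : ee (r4 P Q e ε) (sz t c1) = F2 P Q t := by
  refine ee_congr (sz_nonneg c1_nonneg ht) (fun _ => ht) (fun x => ?_)
  rw [VV_r2]
  unfold VV r4 sz c1
  rw [Fin.sum_univ_four]
  simp

lemma F2_shift (P Q v : E3) {t : ℝ} (ht : 0 ≤ t) : F2 (P + v) (Q + v) t = F2 P Q t := by
  have := ee_shift (z := fun _ : Fin 2 => t) (fun _ => ht) (r2 P Q) v
  unfold F2
  rw [← this]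
  congr 1
  funext j
  fin_cases j <;> simp [r2]

lemma ee_c2 (P Q e : E3) (ε : ℝ) {t : ℝ} (ht : 0 ≤ t) : ee (r4 P Q e ε) (sz t c2) = F2 P Q t := by
  rw [← F2_shift P Q (ε • e) ht]
  refine ee_congr (sz_nonneg c2_nonneg ht) (fun _ => ht) (fun x => ?_)
  rw [VV_r2]
  unfold VV r4 sz c2
  rw [Fin.sum_univ_four]
  simp

lemma VV_c12 (P Q e : E3) (ε t : ℝ) (x : E3) : VV (sz t (fun j => c1 j + c2 j)) (r4 P Q e ε) x
    = 1/2 * VV (fun _ : Fin 2 => 2 * t) (r2 P Q) x + 1/2 * VV (fun _ : Fin 2 => 2 * t) (r2 (P + ε • e) (Q + ε • e)) x := by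
  rw [VV_r2, VV_r2]
  unfold VV r4 sz c1 c2
  rw [Fin.sum_univ_four]
  simp
  ring

/-- merging: the energy of the four nuclei tends to the energy of the diatomic molecule with doubled charges -/
lemma ee_c12 (P Q e : E3) {t : ℝ} (ht : 0 ≤ t) :
    Tendsto (fun ε : ℝ => ee (r4 P Q e ε) (sz t (fun j => c1 j + c2 j))) (𝓝[>] 0) (𝓝 (F2 P Q (2 * t))) := by
  have h2t : 0 ≤ 2 * t := by positivity
  have hc : ∀ j, 0 ≤ sz t (fun j => c1 j + c2 j) j := sz_nonneg (fun j => add_nonneg (c1_nonneg j) (c2_nonneg j)) ht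
  have h0 := rm_EL (z := fun _ : Fin 2 => 2 * t) (fun _ => h2t) (r2 P Q)
  set ρ := rm (fun _ : Fin 2 => 2 * t) (r2 P Q) with hρ
  have lower : ∀ ε : ℝ, F2 P Q (2 * t) ≤ ee (r4 P Q e ε) (sz t (fun j => c1 j + c2 j)) := by
    intro ε
    have hE := rm_EL hc (r4 P Q e ε)
    have h3 := EF_half (VV_c12 P Q e ε t) hE.nice
    have h4 := EF_le_of (z := fun _ : Fin 2 => 2 * t) (fun _ => h2t) (r2 P Q) hE.nice hE.nonneg
    have h5 := EF_le_of (z := fun _ : Fin 2 => 2 * t) (fun _ => h2t) (r2 (P + ε • e) (Q + ε • e)) hE.nice hE.nonneg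
    have h6 : ee (r2 (P + ε • e) (Q + ε • e)) (fun _ => 2 * t) = F2 P Q (2 * t) := F2_shift P Q (ε • e) h2t
    have h7 : ee (r2 P Q) (fun _ => 2 * t) = F2 P Q (2 * t) := rfl
    rw [h6] at h5
    rw [h7] at h4
    unfold ee
    rw [h3]
    linarith
  have upper : ∀ ε : ℝ, ee (r4 P Q e ε) (sz t (fun j => c1 j + c2 j)) ≤
      F2 P Q (2 * t) - 1/2 * ((2 * t) * (pot ρ (P + ε • e) - pot ρ P) + (2 * t) * (pot ρ (Q + ε • e) - pot ρ Q)) := by
    intro ε
    have h3 := EF_le_of hc (r4 P Q e ε) h0.nice h0.nonneg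
    rw [EF_half (VV_c12 P Q e ε t) h0.nice] at h3
    have h4 : EF (fun _ : Fin 2 => 2 * t) (r2 (P + ε • e) (Q + ε • e)) ρ = EF (fun _ : Fin 2 => 2 * t) (r2 P Q) ρ
        - ((2 * t) * (pot ρ (P + ε • e) - pot ρ P) + (2 * t) * (pot ρ (Q + ε • e) - pot ρ Q)) := by
      unfold EF
      rw [VV_pair _ _ h0.nice, VV_pair _ _ h0.nice, Fin.sum_univ_two, Fin.sum_univ_two]
      simp only [r2, Matrix.cons_val_zero, Matrix.cons_val_one]
      ring
    have h5 : EF (fun _ : Fin 2 => 2 * t) (r2 P Q) ρ = F2 P Q (2 * t) := rfl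
    rw [h4, h5] at h3
    linarith
  have hlim : ∀ S : E3, Tendsto (fun ε : ℝ => pot ρ (S + ε • e) - pot ρ S) (𝓝[>] 0) (𝓝 0) := by
    intro S
    have c : Continuous (fun ε : ℝ => pot ρ (S + ε • e) - pot ρ S) :=
      ((pot_cont h0.nice).comp (continuous_const.add (continuous_id.smul continuous_const))).sub continuous_const
    have := (c.tendsto 0).mono_left (nhdsWithin_le_nhds (s := Ioi 0))
    simpa using this
  have hu : Tendsto (fun ε : ℝ => F2 P Q (2 * t) - 1/2 * ((2 * t) * (pot ρ (P + ε • e) - pot ρ P) + (2 * t) * (pot ρ (Q + ε • e) - pot ρ Q)))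
      (𝓝[>] 0) (𝓝 (F2 P Q (2 * t))) := by
    have := ((((hlim P).const_mul (2 * t)).add ((hlim Q).const_mul (2 * t))).const_mul (1/2)).const_sub (F2 P Q (2 * t))
    simpa using this
  exact tendsto_of_tendsto_of_tendsto_of_le_of_le tendsto_const_nhds hu lower upper

/-- weak superadditivity for arbitrarily close pairs gives convexity for the merged molecule -/
lemma conv_lim (P Q e : E3) (h : ∃ᶠ ε in 𝓝[>] (0:ℝ), ∀ t, 0 < t →
      Xt (r4 P Q e ε) (sz t c1) + Xt (r4 P Q e ε) (sz t c2) ≤ Xt (r4 P Q e ε) (sz t (fun j => c1 j + c2 j))) :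
    ConvexOn ℝ (Ioi 0) (fun l : ℝ => (l ^ 6)⁻¹ * (F2 P Q (2 * l ^ 3) - 2 * F2 P Q (l ^ 3))) := by
  set W : ℝ → ℝ := fun l => (l ^ 6)⁻¹ * (F2 P Q (2 * l ^ 3) - 2 * F2 P Q (l ^ 3)) with hW
  set Y : ℝ → ℝ → ℝ := fun ε l => yy (r4 P Q e ε) (fun j => c1 j + c2 j) l - yy (r4 P Q e ε) c1 l - yy (r4 P Q e ε) c2 l with hY
  have hlim : ∀ l : ℝ, 0 < l → Tendsto (fun ε => Y ε l) (𝓝[>] 0) (𝓝 (W l)) := by
    intro l hl
    have h3 : (0:ℝ) ≤ l ^ 3 := by positivity
    have := ((ee_c12 P Q e h3).const_mul ((l ^ 6)⁻¹)).sub_const ((l ^ 6)⁻¹ * (2 * F2 P Q (l ^ 3)))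
    have e2 : (l ^ 6)⁻¹ * F2 P Q (2 * l ^ 3) - (l ^ 6)⁻¹ * (2 * F2 P Q (l ^ 3)) = W l := by simp only [hW]; ring
    rw [e2] at this
    refine this.congr (fun ε => ?_)
    simp only [hY, yy]
    rw [ee_c1 P Q e ε h3, ee_c2 P Q e ε h3]
    ring
  refine ⟨convex_Ioi 0, ?_⟩
  intro x hx y hy a b ha hb hab
  have hxy : 0 < a • x + b • y := (convex_Ioi (0:ℝ)) hx hy ha hb hab
  have l1 : Tendsto (fun ε => a • Y ε x + b • Y ε y - Y ε (a • x + b • y)) (𝓝[>] 0) (𝓝 (a • W x + b • W y - W (a • x + b • y))) :=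
    (((hlim x hx).const_smul a).add ((hlim y hy).const_smul b)).sub (hlim _ hxy)
  have : 0 ≤ a • W x + b • W y - W (a • x + b • y) := by
    refine ge_of_tendsto_of_frequently l1 ?_
    refine h.mono (fun ε hε => ?_)
    have hc := (conv_of_wsa c1_nonneg c2_nonneg (r4 P Q e ε) hε).2 hx hy ha hb hab
    simp only [hY]
    linarith
  linarith

open Pool.Agent.Results.MP_f156ce_mp.NotSuperadditive (diff energy eAt) in
/-- relation with the interaction energy -/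
lemma diff_F2 (P Q : E3) {s : ℝ} (hs : 0 < s) : diff (r2 P Q) (fun _ => s ^ 3)
    = F2 P Q (s ^ 3) + s ^ 6 / ‖P - Q‖ - 2 * (s ^ 7 * en z1 R1 1) := by
  have h3 : (0:ℝ) ≤ s ^ 3 := by positivity
  have h1 : energy (r2 P Q) (fun _ => s ^ 3) = F2 P Q (s ^ 3) + s ^ 6 / ‖P - Q‖ := by
    have e1 : energy (r2 P Q) (fun _ => s ^ 3) = en (fun _ => s ^ 3) (r2 P Q) (∑ _j : Fin 2, s ^ 3) := rfl
    have hz : ∀ _ : Fin 2, 0 ≤ s ^ 3 := fun _ => h3
    rw [e1, en_el hz _ (Finset.sum_nonneg (fun _ _ => h3)), ← rm_mass hz (r2 P Q), el_eq hz (rm_EL hz _)]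
    congr 1
    unfold UU'
    rw [Fin.sum_univ_two]
    have e2 : (Finset.Ioi (0 : Fin 2)) = {1} := by decide
    have e3 : (Finset.Ioi (1 : Fin 2)) = ∅ := by decide
    rw [e2, e3]
    simp [r2]
    ring
  have h2 : eAt (s ^ 3) = s ^ 7 * en z1 R1 1 := by
    have e := en_scale hs (z := z1) (fun _ => zero_le_one) R1 (lam := 1) zero_le_one
    rw [← e]
    have e1 : (fun j : Fin 1 => s ^ 3 * z1 j) = fun _ => s ^ 3 := by funext j; simp [z1]
    have e2 : (fun j => s⁻¹ • R1 j) = fun _ => 0 := by funext j; simp [R1]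
    have e3 : s ^ 3 * (1:ℝ) = ∑ _j : Fin 1, s ^ 3 := by simp
    rw [e1, e2, e3]
    rfl
  unfold diff
  rw [h1]
  simp only [h2, Finset.sum_const, Finset.card_univ, Fintype.card_fin, nsmul_eq_mul]
  push_cast
  ring

open Pool.Agent.Results.MP_f156ce_mp.NotSuperadditive (diff energy eAt) in
lemma ee_atom {s : ℝ} (hs : 0 < s) : ee (fun _ : Fin 1 => (0 : E3)) (fun _ => s ^ 3) = s ^ 7 * en z1 R1 1 := by
  have h3 : (0:ℝ) ≤ s ^ 3 := by positivity
  have e := en_scale hs (z := z1) (fun _ => zero_le_one) R1 (lam := 1) zero_le_one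
  rw [← e]
  have e1 : (fun j : Fin 1 => s ^ 3 * z1 j) = fun _ => s ^ 3 := by funext j; simp [z1]
  have e2 : (fun j => s⁻¹ • R1 j) = fun _ => 0 := by funext j; simp [R1]
  have e3 : s ^ 3 * (1:ℝ) = ∑ _j : Fin 1, s ^ 3 := by simp
  rw [e1, e2, e3]
  have hz : ∀ _ : Fin 1, 0 ≤ s ^ 3 := fun _ => h3
  rw [en_el hz _ (Finset.sum_nonneg (fun _ _ => h3)), ← rm_mass hz (fun _ : Fin 1 => (0 : E3)), el_eq hz (rm_EL hz _)]
  have : UU' (fun _ : Fin 1 => s ^ 3) (fun _ => (0 : E3)) = 0 := by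
    unfold UU'
    simp
  rw [this, add_zero]
  rfl

lemma ee_single {k : ℕ} (R : Fin k → E3) (j : Fin k) {t : ℝ} (ht : 0 ≤ t) :
    ee R (Pi.single j t) = ee (fun _ : Fin 1 => (0 : E3)) (fun _ => t) := by
  have hs : ∀ i, 0 ≤ (Pi.single j t : Fin k → ℝ) i := by
    intro i
    rcases eq_or_ne i j with h | h
    · subst h; rw [Pi.single_eq_same]; exact ht
    · rw [Pi.single_eq_of_ne h]
  rw [← ee_shift (z := fun _ : Fin 1 => t) (fun _ => ht) (fun _ => (0 : E3)) (R j)]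
  refine ee_congr hs (fun _ => ht) (fun x => ?_)
  unfold VV
  rw [Finset.sum_eq_single j]
  · simp
  · intro i _ hi; rw [Pi.single_eq_of_ne hi, zero_div]
  · intro h; exact absurd (Finset.mem_univ j) h

open Pool.Agent.Results.MP_f156ce_mp.NotSuperadditive (diff energy eAt) in
/-- no binding -/
lemma diff_nonneg (P Q : E3) (hPQ : P ≠ Q) {s : ℝ} (hs : 0 < s) : 0 ≤ diff (r2 P Q) (fun _ => s ^ 3) := by
  have h3 : (0:ℝ) ≤ s ^ 3 := by positivity
  have hz : ∀ _ : Fin 2, 0 ≤ s ^ 3 := fun _ => h3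
  have hR : Function.Injective (r2 P Q) := by
    intro i j hij
    fin_cases i <;> fin_cases j <;> simp_all [r2]
  have hb := half_bound (R := r2 P Q) (z := fun _ => s ^ 3) hR hz
  have he : 0 ≤ ∑ j, (fun _ : Fin 2 => s ^ 3) j * eta (r2 P Q) (fun _ => s ^ 3) j 1 :=
    Finset.sum_nonneg (fun j _ => mul_nonneg h3 (eta_nonneg hR hz j))
  have hs' : ∀ j : Fin 2, ee (r2 P Q) (sj (fun _ => s ^ 3) j) = s ^ 7 * en z1 R1 1 := by
    intro j
    unfold sj
    rw [ee_single (r2 P Q) j h3, ee_atom hs]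
  rw [diff_F2 P Q hs]
  have hU : UU' (fun _ : Fin 2 => s ^ 3) (r2 P Q) = s ^ 6 / ‖P - Q‖ := by
    unfold UU'
    rw [Fin.sum_univ_two]
    have e2 : (Finset.Ioi (0 : Fin 2)) = {1} := by decide
    have e3 : (Finset.Ioi (1 : Fin 2)) = ∅ := by decide
    rw [e2, e3]
    simp [r2]
    ring
  simp only [hs', hU] at hb
  rw [Finset.sum_const, Finset.card_univ, Fintype.card_fin, nsmul_eq_mul] at hb
  push_cast at hb
  have : ee (r2 P Q) (fun _ => s ^ 3) = F2 P Q (s ^ 3) := rfl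
  rw [this] at hb
  have hb' : 0 ≤ 1/2 * ∑ j, s ^ 3 * eta (r2 P Q) (fun _ => s ^ 3) j 1 := mul_nonneg (by norm_num) he
  linarith

/-- a convex function on the half line tending to zero is nonnegative -/
lemma nonneg_of_conv {w : ℝ → ℝ} (hw : ConvexOn ℝ (Ioi 0) w) (hl : Tendsto w atTop (𝓝 0)) {l : ℝ} (hl0 : 0 < l) : 0 ≤ w l := by
  have key : ∀ m, l < m → w m ≤ w l := by
    intro m hm
    have t1 : Tendsto (fun L : ℝ => (m - l) / (L - l)) atTop (𝓝 0) := by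
      refine Tendsto.div_atTop tendsto_const_nhds ?_
      exact tendsto_atTop_add_const_right atTop (-l) tendsto_id
    have t2 : Tendsto (fun L : ℝ => (1 - (m - l) / (L - l)) * w l + (m - l) / (L - l) * w L) atTop (𝓝 ((1 - 0) * w l + 0 * 0)) :=
      ((tendsto_const_nhds.sub t1).mul_const _).add (t1.mul hl)
    rw [sub_zero, one_mul, mul_zero, add_zero] at t2
    refine ge_of_tendsto t2 ?_
    filter_upwards [eventually_gt_atTop m] with L hL
    have hLl : 0 < L - l := by linarith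
    have hb : 0 ≤ (m - l) / (L - l) := div_nonneg (by linarith) hLl.le
    have hb1 : (m - l) / (L - l) ≤ 1 := by rw [div_le_one hLl]; linarith
    have := hw.2 (mem_Ioi.2 hl0) (mem_Ioi.2 (by linarith : 0 < L)) (by linarith : (0:ℝ) ≤ 1 - (m - l) / (L - l)) hb (by ring)
    simp only [smul_eq_mul] at this
    have e : (1 - (m - l) / (L - l)) * l + (m - l) / (L - l) * L = m := by field_simp; ring
    rw [e] at this
    exact this
  refine le_of_tendsto hl ?_
  filter_upwards [eventually_gt_atTop l] with m hm using key m hm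

open Pool.Agent.Results.MP_f156ce_mp.NotSuperadditive (diff energy eAt diff_upper diff_pos) in
/-- **the main contradiction** -/
theorem main (P Q e : E3) (hPQ : P ≠ Q) : ¬ ∃ᶠ ε in 𝓝[>] (0:ℝ), ∀ t, 0 < t →
      Xt (r4 P Q e ε) (sz t c1) + Xt (r4 P Q e ε) (sz t c2) ≤ Xt (r4 P Q e ε) (sz t (fun j => c1 j + c2 j)) := by
  intro hfreq
  have hconv := conv_lim P Q e hfreq
  have hR : Function.Injective (r2 P Q) := by
    intro i j hij
    fin_cases i <;> fin_cases j <;> simp_all [r2]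
  set G : ℝ → ℝ := fun s => diff (r2 P Q) (fun _ => s ^ 3) with hG
  obtain ⟨s0, hs0, hpos⟩ := diff_pos le_rfl (r2 P Q) hR
  obtain ⟨K, s₁, hs₁, hup⟩ := diff_upper le_rfl (r2 P Q) hR
  set c : ℝ := (2:ℝ) ^ (1/3 : ℝ) with hc
  have hc0 : 0 < c := Real.rpow_pos_of_pos (by norm_num) _
  have hc3 : c ^ 3 = 2 := by
    rw [hc, ← Real.rpow_natCast, ← Real.rpow_mul (by norm_num)]; norm_num
  have hc1 : 1 ≤ c := Real.one_le_rpow (by norm_num) (by norm_num)
  have hG0 : ∀ s, 0 < s → 0 ≤ G s := fun s hs => diff_nonneg P Q hPQ hs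
  set d := ‖P - Q‖ with hd
  set E1 := en z1 R1 1 with hE1
  set w : ℝ → ℝ := fun l => (l ^ 6)⁻¹ * (G (c * l) - 2 * G l) with hw
  have hwW : ∀ l, 0 < l → w l = (l ^ 6)⁻¹ * (F2 P Q (2 * l ^ 3) - 2 * F2 P Q (l ^ 3)) + (2 / d + (-(8 * c - 4) * E1) * l) := by
    intro l hl
    have e1 : (c * l) ^ 3 = 2 * l ^ 3 := by rw [mul_pow, hc3]
    have g1 : G (c * l) = F2 P Q ((c * l) ^ 3) + (c * l) ^ 6 / d - 2 * ((c * l) ^ 7 * E1) := diff_F2 P Q (by positivity)
    have g2 : G l = F2 P Q (l ^ 3) + l ^ 6 / d - 2 * (l ^ 7 * E1) := diff_F2 P Q hl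
    have e6 : (c * l) ^ 6 = 4 * l ^ 6 := by
      have : (c * l) ^ 6 = (c ^ 3) ^ 2 * l ^ 6 := by ring
      rw [this, hc3]; ring
    have e7 : (c * l) ^ 7 = 4 * c * l ^ 7 := by
      have : (c * l) ^ 7 = (c ^ 3) ^ 2 * c * l ^ 7 := by ring
      rw [this, hc3]; ring
    simp only [hw]
    rw [g1, g2, e1, e6, e7]
    field_simp
    ring
  have hwc : ConvexOn ℝ (Ioi 0) w := by
    have hlin : ConvexOn ℝ (Ioi 0) (fun l : ℝ => 2 / d + (-(8 * c - 4) * E1) * l) := by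
      refine ⟨convex_Ioi 0, fun x _ y _ a b _ _ hab => ?_⟩
      simp only [smul_eq_mul]
      have : a = 1 - b := by linarith
      rw [this]
      apply le_of_eq
      ring
    refine (hconv.add hlin).congr (fun l hl => ?_)
    rw [hwW l hl]; rfl
  have hw0 : Tendsto w atTop (𝓝 0) := by
    have hb : ∀ᶠ l in atTop, |w l| ≤ (|K| * (c + 2)) * (1 / l ^ 5) := by
      filter_upwards [eventually_ge_atTop s₁, eventually_gt_atTop 0] with l h1 h2
      have a1 : G l ≤ |K| * l := (hup l h1).trans (mul_le_mul_of_nonneg_right (le_abs_self K) h2.le)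
      have a2 : G (c * l) ≤ |K| * (c * l) := (hup (c * l) (by nlinarith)).trans (mul_le_mul_of_nonneg_right (le_abs_self K) (by positivity))
      have a3 := hG0 l h2
      have a4 := hG0 (c * l) (by positivity)
      have a5 : |G (c * l) - 2 * G l| ≤ |K| * (c + 2) * l := by
        rw [abs_le]
        constructor
        · nlinarith [mul_nonneg (abs_nonneg K) (mul_nonneg hc0.le h2.le)]
        · nlinarith [mul_nonneg (abs_nonneg K) h2.le]
      simp only [hw]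
      rw [abs_mul, abs_of_pos (by positivity : 0 < (l ^ 6)⁻¹)]
      calc (l ^ 6)⁻¹ * |G (c * l) - 2 * G l| ≤ (l ^ 6)⁻¹ * (|K| * (c + 2) * l) := mul_le_mul_of_nonneg_left a5 (by positivity)
        _ = (|K| * (c + 2)) * (1 / l ^ 5) := by field_simp
    have hz : Tendsto (fun l : ℝ => (|K| * (c + 2)) * (1 / l ^ 5)) atTop (𝓝 0) := by
      have : Tendsto (fun l : ℝ => 1 / l ^ 5) atTop (𝓝 0) := by
        have h5 : Tendsto (fun l : ℝ => l ^ 5) atTop atTop := tendsto_pow_atTop (by norm_num)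
        exact tendsto_const_nhds.div_atTop h5
      simpa using this.const_mul (|K| * (c + 2))
    exact squeeze_zero_norm' (hb.mono (fun l hl => by rw [Real.norm_eq_abs]; exact hl)) hz
  have hdouble : ∀ l, 0 < l → 2 * G l ≤ G (c * l) := by
    intro l hl
    have := nonneg_of_conv hwc hw0 hl
    simp only [hw] at this
    have h6 : 0 < (l ^ 6)⁻¹ := by positivity
    have := (mul_nonneg_iff_of_pos_left h6).1 this
    linarith
  have hiter : ∀ n : ℕ, (8:ℝ) ^ n * G s0 ≤ G (2 ^ n * s0) := by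
    intro n
    induction n with
    | zero => simp
    | succ n ih =>
      have b0 : 0 < 2 ^ n * s0 := by positivity
      have b1 := hdouble (2 ^ n * s0) b0
      have b2 := hdouble (c * (2 ^ n * s0)) (by positivity)
      have b3 := hdouble (c * (c * (2 ^ n * s0))) (by positivity)
      have e : c * (c * (c * (2 ^ n * s0))) = 2 ^ (n + 1) * s0 := by
        have : c * (c * (c * (2 ^ n * s0))) = c ^ 3 * 2 ^ n * s0 := by ring
        rw [this, hc3]; ring
      rw [e] at b3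
      rw [pow_succ]
      linarith
  have hδ : 0 < G s0 := hpos
  obtain ⟨n, hn⟩ := exists_nat_gt (max (s₁ / s0) (|K| * s0 / G s0))
  have hn1 : s₁ / s0 < n := (le_max_left _ _).trans_lt hn
  have hn2 : |K| * s0 / G s0 < n := (le_max_right _ _).trans_lt hn
  have h2n : (n:ℝ) ≤ 2 ^ n := by exact_mod_cast Nat.lt_two_pow_self.le
  have c1' : s₁ ≤ 2 ^ n * s0 := by
    rw [div_lt_iff₀ hs0] at hn1
    nlinarith
  have c2' := hup (2 ^ n * s0) c1'
  have c3' := hiter n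
  have c4 : (8:ℝ) ^ n * G s0 ≤ |K| * (2 ^ n * s0) := c3'.trans (c2'.trans (mul_le_mul_of_nonneg_right (le_abs_self K) (by positivity)))
  have e8 : (8:ℝ) ^ n = 2 ^ n * (2 ^ n * 2 ^ n) := by
    rw [← mul_pow, ← mul_pow]; norm_num
  have h1n : (1:ℝ) ≤ 2 ^ n := one_le_pow₀ (by norm_num)
  have c5 : (2:ℝ) ^ n * 2 ^ n * G s0 ≤ |K| * s0 := by
    have : (2:ℝ) ^ n * ((2:ℝ) ^ n * 2 ^ n * G s0) ≤ 2 ^ n * (|K| * s0) := by
      rw [e8] at c4
      linarith
    exact le_of_mul_le_mul_left this (by positivity)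
  rw [div_lt_iff₀ hδ] at hn2
  have c6 : (n:ℝ) * G s0 ≤ 2 ^ n * 2 ^ n * G s0 := by
    apply mul_le_mul_of_nonneg_right _ hδ.le
    nlinarith
  linarith

end Pool.Agent.Q233.TFWd
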