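import Pool.Agent.Q233.TFWd

/-!
# Uniqueness of the neutral Thomas-Fermi minimiser
-/

set_option autoImplicit false
open MeasureTheory Set Filter Topology Metric
open scoped RealInnerProductSpace BigOperators ENNReal
open Pool.Agent.Helper557 Pool.Agent.Helper557.TFP
open Pool.Agent.H9R2.TF Pool.Agent.Q233.TFShell Pool.Agent.Q233.TFAtom Pool.Agent.Q233.TFSat
  Pool.Agent.Q233.TFSup Pool.Agent.Q233.TFCmp Pool.Agent.Q233.TFMol Pool.Agent.Q233.TFIon Pool.Agent.Q233.TFDil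
  Pool.Agent.Q233.TFMono Pool.Agent.Q233.TFSom Pool.Agent.Q233.TFTeller Pool.Agent.Q233.TFFar Pool.Agent.Q233.TFWa
  Pool.Agent.Q233.TFWb Pool.Agent.Q233.TFWc

namespace Pool.Agent.Q233.TFWe

variable {k : ℕ} {z : Fin k → ℝ} {R : Fin k → E3}

lemma sc2_strict {a b : ℝ} (ha : 0 ≤ a) (hb : 0 < b) (hab : a ≠ b) :
    3/5 * b ^ (5/3 : ℝ) - 3/5 * a ^ (5/3 : ℝ) < b ^ (2/3 : ℝ) * (b - a) := by
  have hne : a / b - 1 ≠ 0 := by
    intro h
    have : a / b = 1 := by linarith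
    rw [div_eq_one_iff_eq hb.ne'] at this
    exact hab this
  have h1 := one_add_mul_self_lt_rpow_one_add (s := a / b - 1) (by
    have : 0 ≤ a / b := by positivity
    linarith) hne (p := 5/3) (by norm_num)
  have e1 : 1 + (a / b - 1) = a / b := by ring
  rw [e1, Real.div_rpow ha hb.le] at h1
  have h2 : 0 < b ^ (5/3 : ℝ) := Real.rpow_pos_of_pos hb _
  have h3 : b ^ (5/3 : ℝ) = b ^ (2/3 : ℝ) * b := by
    nth_rw 3 [← Real.rpow_one b]
    rw [← Real.rpow_add hb]; norm_num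
  rw [lt_div_iff₀ h2] at h1
  have h4 : (1 + 5/3 * (a / b - 1)) * b ^ (5/3 : ℝ) = b ^ (5/3 : ℝ) + 5/3 * (b ^ (2/3 : ℝ) * (a - b)) := by
    rw [h3]; field_simp
  rw [h4] at h1
  linarith

/-- a density that is not worse than the solution of the TF equation coincides with it -/
theorem eq_of_le {ρ σ : E3 → ℝ} (h : ELs z R 0 ρ) (hσ : Adm σ) (hle : EF z R σ ≤ EF z R ρ) : σ =ᵐ[volume] ρ := by
  have nρ := h.nice
  have nσ := nice_of_adm hσ
  have nδ : Nice (fun x => σ x - ρ x) := nice_sub' nσ nρ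
  have i1 : Integrable (fun x => 3/5 * σ x ^ (5/3 : ℝ)) := hσ.2.2.2.const_mul _
  have i2 : Integrable (fun x => 3/5 * ρ x ^ (5/3 : ℝ)) := h.int53.const_mul _
  have i3 : Integrable (fun x : E3 => VV z R x * (σ x - ρ x)) := vint z R nδ
  have i4 : Integrable (fun x => (σ x - ρ x) * pot ρ x) := TF_E1_int _ _ nδ.2.1 nρ
  have i12 : Integrable (fun x => 3/5 * σ x ^ (5/3 : ℝ) - 3/5 * ρ x ^ (5/3 : ℝ)) := i1.sub i2
  have i34 : Integrable (fun x => VV z R x * (σ x - ρ x) - (σ x - ρ x) * pot ρ x) := i3.sub i4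
  have iB : Integrable (fun x => (3/5 * σ x ^ (5/3 : ℝ) - 3/5 * ρ x ^ (5/3 : ℝ)) - (VV z R x * (σ x - ρ x) - (σ x - ρ x) * pot ρ x)) :=
    i12.sub i34
  have key : ∀ x, 0 ≤ (3/5 * σ x ^ (5/3 : ℝ) - 3/5 * ρ x ^ (5/3 : ℝ)) - (VV z R x * (σ x - ρ x) - (σ x - ρ x) * pot ρ x) ∧
      ((3/5 * σ x ^ (5/3 : ℝ) - 3/5 * ρ x ^ (5/3 : ℝ)) - (VV z R x * (σ x - ρ x) - (σ x - ρ x) * pot ρ x) = 0 → σ x = ρ x) := by
    intro x
    have s0 := hσ.2.1 x
    have r0 := h.nonneg x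
    set u := VV z R x - pot ρ x with hu
    have hux : ρ x = be u := by rw [h.eq x, sub_zero]
    have hr : ρ x ^ (2/3 : ℝ) = max u 0 := by rw [hux, be_pow]
    have e : VV z R x * (σ x - ρ x) - (σ x - ρ x) * pot ρ x = u * (σ x - ρ x) := by rw [hu]; ring
    rw [e]
    rcases le_or_gt u 0 with hu0 | hu0
    · have hρ0 : ρ x = 0 := by rw [hux]; exact be_zero_of hu0
      rw [hρ0, Real.zero_rpow (by norm_num)]
      have h5 : 0 ≤ σ x ^ (5/3 : ℝ) := Real.rpow_nonneg s0 _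
      have h6 : 0 ≤ -u * σ x := mul_nonneg (by linarith) s0
      constructor
      · linarith
      · intro h0
        have h7 : σ x ^ (5/3 : ℝ) = 0 := by linarith
        exact (Real.rpow_eq_zero s0 (by norm_num)).1 h7
    · rw [max_eq_left hu0.le] at hr
      have hρ0 : 0 < ρ x := by
        rw [hux, be_mul_sqrt hu0.le]; positivity
      rcases eq_or_ne (σ x) (ρ x) with h' | h'
      · rw [h']; simp
      · have := sc2_strict s0 hρ0 h'
        rw [hr] at this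
        constructor
        · linarith
        · intro h0; exfalso; linarith
  have a2 : ∫ x, (3/5 * σ x ^ (5/3 : ℝ) - 3/5 * ρ x ^ (5/3 : ℝ)) = (∫ x, 3/5 * σ x ^ (5/3 : ℝ)) - ∫ x, 3/5 * ρ x ^ (5/3 : ℝ) :=
    integral_sub i1 i2
  have a4 : ∫ x, (VV z R x * (σ x - ρ x) - (σ x - ρ x) * pot ρ x)
      = (∫ x, VV z R x * (σ x - ρ x)) - ∫ x, (σ x - ρ x) * pot ρ x := integral_sub i3 i4
  have a5 : ∫ x, VV z R x * (σ x - ρ x) = (∫ x, VV z R x * σ x) - ∫ x, VV z R x * ρ x := by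
    rw [← integral_sub (vint z R nσ) (vint z R nρ)]
    congr 1
    funext x; ring
  have e1 := (kop_full nρ).exp nρ nδ 1
  have e2 : (fun y => ρ y + 1 * (σ y - ρ y)) = σ := by funext y; ring
  have e3 : ∫ x, σ x * pot σ x = (∫ x, ρ x * pot ρ x) + 2 * (∫ x, (σ x - ρ x) * pot ρ x)
      + ∫ x, (σ x - ρ x) * pot (fun y => σ y - ρ y) x := by
    rw [e2] at e1
    have : (fun x => (ρ x + 1 * (σ x - ρ x)) * pot σ x) = fun x => σ x * pot σ x := by
      funext x; ring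
    rw [this] at e1
    rw [e1]; ring
  have hpd := pot_pos nδ
  have hB : ∫ x, ((3/5 * σ x ^ (5/3 : ℝ) - 3/5 * ρ x ^ (5/3 : ℝ)) - (VV z R x * (σ x - ρ x) - (σ x - ρ x) * pot ρ x)) ≤ 0 := by
    rw [integral_sub i12 i34, a2, a4, a5, integral_const_mul, integral_const_mul]
    unfold EF at hle
    rw [e3] at hle
    linarith
  have hB0 : ∫ x, ((3/5 * σ x ^ (5/3 : ℝ) - 3/5 * ρ x ^ (5/3 : ℝ)) - (VV z R x * (σ x - ρ x) - (σ x - ρ x) * pot ρ x)) = 0 :=
    le_antisymm hB (integral_nonneg (fun x => (key x).1))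
  have hae := (integral_eq_zero_iff_of_nonneg (fun x => (key x).1) iB).1 hB0
  filter_upwards [hae] with x hx
  exact (key x).2 hx

end Pool.Agent.Q233.TFWe
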